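import Pool.Agent.CNX.Defs

/-!
# Section 4 of the disproof: definitions for the algebra (AL_) and perturbation (PB_) modules

`x = (y₀, y₁, a, b, lam) ∈ ℂ⁵`.  Everything in section 4 is done over `ℂ`; the last modules
translate the real solutions into complex ones.
-/

set_option autoImplicit false

namespace Pool.Agent.CNX

open MvPolynomial

/-- `ℂ⁵`, the points `(y₀, y₁, a, b, lam)` -/
abbrev V5 : Type := Fin 5 → ℂ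

/-- polynomials on `ℂ⁵` -/
abbrev P5 : Type := MvPolynomial (Fin 5) ℂ

/-- `F` over `ℂ` -/
noncomputable def Fc (F : P4) : MvPolynomial (Fin 4) ℂ := MvPolynomial.map (algebraMap ℝ ℂ) F

/-- the point `(y₀, y₁, a, b)` of `x` -/
def q4 (x : V5) : Fin 4 → ℂ := ![x 0, x 1, x 2, x 3]

/-- the value of the partial derivative `F_i` -/
noncomputable def Gc (F : P4) (i : Fin 4) (x : V5) : ℂ := eval (q4 x) (pderiv i (Fc F))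

/-- `F_i` as a polynomial in the five variables -/
noncomputable def PG (F : P4) (i : Fin 4) : P5 := rename Fin.castSucc (pderiv i (Fc F))

/-- `μ₃ = lam - 2 F_a` as a polynomial -/
noncomputable def PM3 (F : P4) : P5 := X 4 - 2 * PG F 2

/-- `μ₁ = lam - 2 F_b` as a polynomial -/
noncomputable def PM1 (F : P4) : P5 := X 4 - 2 * PG F 3

theorem q4_eq (x : V5) : q4 x = fun j => x (Fin.castSucc j) := by
  ext j; fin_cases j <;> rfl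

theorem eval_PG (F : P4) (i : Fin 4) (x : V5) : eval x (PG F i) = Gc F i x := by
  simp only [PG, Gc, q4_eq, eval_rename]
  rfl

theorem eval_PM3 (F : P4) (x : V5) : eval x (PM3 F) = x 4 - 2 * Gc F 2 x := by
  simp [PM3, eval_PG]

theorem eval_PM1 (F : P4) (x : V5) : eval x (PM1 F) = x 4 - 2 * Gc F 3 x := by
  simp [PM1, eval_PG]

/-- a family of five polynomials which depends affinely on a parameter `θ : I → ℂ` -/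
structure Fam (I : Type) where
  /-- the constant part -/
  φ : Fin 5 → P5
  /-- the linear part -/
  n : Fin 5 → I → P5

/-- the member of the family -/
noncomputable def Fam.f {I : Type} [Fintype I] (A : Fam I) (θ : I → ℂ) (l : Fin 5) : P5 :=
  A.φ l - ∑ i, C (θ i) * A.n l i

/-- index set of the parameters `((p₀,p₁), E₃), (E₁, E₂)` -/
abbrev Par (k3 k1 : ℕ) : Type := (Fin 2 ⊕ Fin k3) ⊕ (Fin k1 ⊕ Unit)

/-- the model family -/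
noncomputable def Mod (F : P4) {k3 k1 : ℕ} (t3 : Fin k3 → ℝ) (t1 : Fin k1 → ℝ) :
    Fam (Par k3 k1) where
  φ := ![PG F 0 - X 4 * X 0, PG F 1 - X 4 * X 1,
    X 2 * ∏ j, (PM3 F - C (t3 j : ℂ)) ^ 2, X 3 * ∏ j, (PM1 F - C (t1 j : ℂ)) ^ 2,
    (1 - X 0 ^ 2 - X 1 ^ 2 - X 2 - X 3) * X 4 ^ 2]
  n := ![Sum.elim (Sum.elim ![1, 0] 0) 0, Sum.elim (Sum.elim ![0, 1] 0) 0,
    Sum.elim (Sum.elim 0 (fun j => ∏ i ∈ Finset.univ.erase j, (PM3 F - C (t3 i : ℂ)) ^ 2)) 0,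
    Sum.elim 0 (Sum.elim (fun j => ∏ i ∈ Finset.univ.erase j, (PM1 F - C (t1 i : ℂ)) ^ 2) 0),
    Sum.elim 0 (Sum.elim 0 1)]

/-- the parameter vector -/
def par {k3 k1 : ℕ} (p : Fin 2 → ℂ) (E3 : Fin k3 → ℂ) (E1 : Fin k1 → ℂ) (E2 : ℂ) :
    Par k3 k1 → ℂ :=
  Sum.elim (Sum.elim p E3) (Sum.elim E1 (fun _ => E2))

/-- a cluster equation `a ∏ (μ - t_j)² = ∑ E_j ∏_{i ≠ j} (μ - t_i)²` (left minus right) -/
noncomputable def cl {k : ℕ} (t : Fin k → ℝ) (E : Fin k → ℂ) (a μ : ℂ) : ℂ :=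
  a * ∏ j, (μ - (t j : ℂ)) ^ 2 - ∑ j, E j * ∏ i ∈ Finset.univ.erase j, (μ - (t i : ℂ)) ^ 2

/-- the five equations of the model, explicitly -/
theorem eval_Mod (F : P4) {k3 k1 : ℕ} (t3 : Fin k3 → ℝ) (t1 : Fin k1 → ℝ)
    (p : Fin 2 → ℂ) (E3 : Fin k3 → ℂ) (E1 : Fin k1 → ℂ) (E2 : ℂ) (x : V5) :
    (fun l => eval x ((Mod F t3 t1).f (par p E3 E1 E2) l)) =
      ![Gc F 0 x - x 4 * x 0 - p 0, Gc F 1 x - x 4 * x 1 - p 1,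
        cl t3 E3 (x 2) (eval x (PM3 F)), cl t1 E1 (x 3) (eval x (PM1 F)),
        (1 - x 0 ^ 2 - x 1 ^ 2 - x 2 - x 3) * x 4 ^ 2 - E2] := by
  ext l
  fin_cases l <;>
    simp [Fam.f, Mod, par, cl, eval_PG, Fintype.sum_sum_type, Fin.sum_univ_two]

/-! ## Multipliers -/

/-- closed polydisc -/
def Box (x0 : V5) (r : ℝ) : Set V5 := {z | ∀ j, ‖z j - x0 j‖ ≤ r}

/-- the monomial `(z - x₀)^α` -/
noncomputable def mono (x0 : V5) (α : Fin 5 → ℕ) (z : V5) : ℂ := ∏ j, (z j - x0 j) ^ α j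

/-- the functional `h ↦ ∑ z ∈ Z, c z * h z` has norm at most `M`:
`|Λ((z - x₀)^α)| ≤ M r^|α|` for all `α` -/
def NL (x0 : V5) (r : ℝ) (Z : Finset V5) (c : V5 → ℂ) (M : ℝ) : Prop :=
  ∀ α : Fin 5 → ℕ, ‖∑ z ∈ Z, c z * mono x0 α z‖ ≤ M * r ^ (∑ j, α j)

/-- the function `h` is a multiplier of norm at most `B` on the polydisc -/
def Bd (x0 : V5) (r : ℝ) (h : V5 → ℂ) (B : ℝ) : Prop :=
  ∀ (Z : Finset V5) (c : V5 → ℂ) (M : ℝ), (∀ z ∈ Z, z ∈ Box x0 r) → NL x0 r Z c M →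
    NL x0 r Z (fun z => c z * h z) (B * M)

/-- `g` is a multiplier of norm at most `ε` on all polydiscs with centre in `K` and radius at
most `ρ` -/
def SB (K : Set V5) (ρ ε : ℝ) (g : V5 → ℂ) : Prop :=
  ∀ x0 ∈ K, ∀ r : ℝ, 0 < r → r ≤ ρ → Bd x0 r g ε

/-- every coordinate is algebraic modulo the ideal of the family at `θ` -/
def Alg5 {I : Type} [Fintype I] (A : Fam I) (θ : I → ℂ) : Prop :=
  ∀ j : Fin 5, ∃ e : Polynomial ℂ, e ≠ 0 ∧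
    Polynomial.aeval (X j : P5) e ∈ Ideal.span (Set.range (A.f θ))

/-- analytic form of (F4) -/
def Asym (F : P4) (m : ℕ) (e0 C : ℝ) : Prop :=
  ∀ (Y : ℝ) (q : Fin 4 → ℂ), 1 ≤ Y → ‖q 0‖ ≤ Y → ‖q 1‖ ≤ Y → ‖q 2‖ ≤ Y ^ 2 → ‖q 3‖ ≤ Y ^ 2 →
    ‖eval q (pderiv 0 (Fc F)) - ((2 * m + 2) * e0 * (1 / 3) ^ m : ℝ) * q 0 ^ (2 * m + 1)‖
      ≤ C * Y ^ (2 * m) ∧
    ‖eval q (pderiv 1 (Fc F)) - ((2 * m + 2) * e0 * (1 / 3) ^ (2 * m) : ℝ) * q 1 ^ (2 * m + 1)‖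
      ≤ C * Y ^ (2 * m) ∧
    ‖2 * eval q (pderiv 2 (Fc F)) - ((2 * m + 2) * e0 * (1 / 3) ^ (3 * m) : ℝ) * q 2 ^ m‖
      ≤ C * Y ^ (2 * m - 1) ∧
    ‖2 * eval q (pderiv 3 (Fc F)) - ((2 * m + 2) * e0 * (1 / 3) ^ (4 * m) : ℝ) * q 3 ^ m‖
      ≤ C * Y ^ (2 * m - 1)

/-- limits of the normalised coordinates along an unbounded subset `S` of `ℂ⁵` -/
structure LimData (m : ℕ) (S : Set V5) where
  /-- the ultrafilter -/
  U : Ultrafilter V5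
  /-- the size -/
  Y : V5 → ℝ
  /-- the limits of `y₀/Y, y₁/Y, a/Y², b/Y², lam/Y^(2m)` -/
  η : Fin 5 → ℂ
  mem : ∀ᶠ x in (U : Filter V5), x ∈ S
  one_le : ∀ᶠ x in (U : Filter V5), 1 ≤ Y x
  tend : Filter.Tendsto Y (U : Filter V5) Filter.atTop
  b0 : ∀ x, ‖x 0‖ ≤ Y x
  b1 : ∀ x, ‖x 1‖ ≤ Y x
  b2 : ∀ x, ‖x 2‖ ≤ Y x ^ 2
  b3 : ∀ x, ‖x 3‖ ≤ Y x ^ 2
  b4 : ∀ x, ‖x 4‖ ≤ Y x ^ (2 * m)
  l0 : Filter.Tendsto (fun x => x 0 / (Y x : ℂ)) (U : Filter V5) (nhds (η 0))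
  l1 : Filter.Tendsto (fun x => x 1 / (Y x : ℂ)) (U : Filter V5) (nhds (η 1))
  l2 : Filter.Tendsto (fun x => x 2 / (Y x : ℂ) ^ 2) (U : Filter V5) (nhds (η 2))
  l3 : Filter.Tendsto (fun x => x 3 / (Y x : ℂ) ^ 2) (U : Filter V5) (nhds (η 3))
  l4 : Filter.Tendsto (fun x => x 4 / (Y x : ℂ) ^ (2 * m)) (U : Filter V5) (nhds (η 4))
  ne : η ≠ 0

/-- the complex solutions of the (unperturbed) model equations -/
def ZM (F : P4) {k3 k1 : ℕ} (t3 : Fin k3 → ℝ) (t1 : Fin k1 → ℝ)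
    (p : Fin 2 → ℂ) (E3 : Fin k3 → ℂ) (E1 : Fin k1 → ℂ) (E2 : ℂ) : Set V5 :=
  {x | Gc F 0 x - x 4 * x 0 - p 0 = 0 ∧ Gc F 1 x - x 4 * x 1 - p 1 = 0 ∧
    cl t3 E3 (x 2) (x 4 - 2 * Gc F 2 x) = 0 ∧ cl t1 E1 (x 3) (x 4 - 2 * Gc F 3 x) = 0 ∧
    (1 - x 0 ^ 2 - x 1 ^ 2 - x 2 - x 3) * x 4 ^ 2 - E2 = 0}

/-- a cluster (exact or perturbed) of the real problem is described on `K`, up to a small error
`g`, by the model cluster with poles `t` -/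
def ClOK (K : Set V5) (q : P5) (R : ℝ) {k : ℕ} (t : Fin k → ℝ)
    (Q : ℝ → ∀ D : ℕ, (Fin D → ℝ) → Prop) : Prop :=
  ∃ ρ : ℝ, 0 < ρ ∧ ∀ ε : ℝ, 0 < ε → ∃ om : ℝ, 0 < om ∧ ∀ (D : ℕ) (d : Fin D → ℝ), Q om D d →
    ∀ e : Fin D → ℝ, ∑ j, e j ^ 2 ≤ R ^ 2 → ∃ E : Fin k → ℝ, (∀ i, 0 ≤ E i ∧ E i ≤ R ^ 2) ∧
      ∃ g : V5 → ℂ, SB K ρ ε g ∧ ∀ x ∈ K, ∀ (μ : ℝ) (w : Fin D → ℝ), eval x q = (μ : ℂ) →
        (∀ j, (2 * d j - μ) * w j = e j) →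
        cl t (fun i => (E i : ℂ)) ((∑ j, w j ^ 2 : ℝ) : ℂ) (μ : ℂ) + g x = 0

/-- admissible families of perturbation vectors -/
def QOK (Dm : ℝ) (Q : ℝ → ∀ D : ℕ, (Fin D → ℝ) → Prop) : Prop :=
  (∀ (om om' : ℝ) (D : ℕ) (d : Fin D → ℝ), om' ≤ om → Q om' D d → Q om D d) ∧
  (∀ (om : ℝ) (D : ℕ) (d : Fin D → ℝ), om ≤ 1 → Q om D d →
    StrictMono d ∧ ∀ j, 0 < d j ∧ d j ≤ Dm)

/-! ## Translation of real configurations -/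

section
variable {D3 D1 D2 : ℕ}

/-- the real point `(y₀, y₁, |w₃|², |w₁|², lam)` -/
def Cfg.r5 (x : Cfg D3 D1 D2) : Fin 5 → ℝ :=
  ![x.y 0, x.y 1, ∑ j, x.w3 j ^ 2, ∑ j, x.w1 j ^ 2, x.lam]

/-- the same point in `ℂ⁵` -/
noncomputable def Cfg.c5 (x : Cfg D3 D1 D2) : V5 := fun j => (x.r5 j : ℂ)

theorem Gc_c5 (F : P4) (i : Fin 4) (x : Cfg D3 D1 D2) : Gc F i x.c5 = (dF F i x.q : ℂ) := by
  have h : q4 x.c5 = fun j => (algebraMap ℝ ℂ) (x.q j) := by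
    ext j
    fin_cases j <;> rfl
  have h2 := eval₂_comp_left (algebraMap ℝ ℂ) (RingHom.id ℝ) x.q (pderiv i F)
  rw [RingHom.comp_id] at h2
  rw [Gc, h, Fc, pderiv_map, eval_map, ← Function.comp_def, ← h2]
  rfl

theorem eval_PM3_c5 (F : P4) (x : Cfg D3 D1 D2) : eval x.c5 (PM3 F) = (mu3 F x : ℂ) := by
  rw [eval_PM3, Gc_c5, mu3]
  push_cast
  rfl

theorem eval_PM1_c5 (F : P4) (x : Cfg D3 D1 D2) : eval x.c5 (PM1 F) = (mu1 F x : ℂ) := by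
  rw [eval_PM1, Gc_c5, mu1]
  push_cast
  rfl

end

end Pool.Agent.CNX
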