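import Pool.Agent.CNX.ADefs

/-!
# AL1: growth of polynomials with weights 1,1,2,2

Proof: `eval q G = ∑ s ∈ G.support, coeff s G * q0^s0 * q1^s1 * q2^s2 * q3^s3` (`eval_eq'`), each
monomial is at most `Y^(s0+s1+2s2+2s3) ≤ Y^w` (`1 ≤ Y`).  `C = ∑ s ∈ G.support, ‖coeff s G‖`.
-/

set_option autoImplicit false

namespace Pool.Agent.CNX

open MvPolynomial

theorem growth (G : MvPolynomial (Fin 4) ℂ) (w : ℕ)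
    (h : ∀ s ∈ G.support, s 0 + s 1 + 2 * s 2 + 2 * s 3 ≤ w) :
    ∃ C : ℝ, 0 ≤ C ∧ ∀ (Y : ℝ) (q : Fin 4 → ℂ), 1 ≤ Y → ‖q 0‖ ≤ Y → ‖q 1‖ ≤ Y →
      ‖q 2‖ ≤ Y ^ 2 → ‖q 3‖ ≤ Y ^ 2 → ‖eval q G‖ ≤ C * Y ^ w := by
  refine ⟨∑ s ∈ G.support, ‖coeff s G‖, Finset.sum_nonneg fun _ _ => norm_nonneg _, ?_⟩
  intro Y q hY h0 h1 h2 h3
  have hY0 : 0 ≤ Y := le_trans zero_le_one hY
  rw [eval_eq', Finset.sum_mul]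
  refine (norm_sum_le _ _).trans (Finset.sum_le_sum fun s hs => ?_)
  rw [norm_mul]
  refine mul_le_mul_of_nonneg_left ?_ (norm_nonneg _)
  rw [Fin.prod_univ_four, norm_mul, norm_mul, norm_mul, norm_pow, norm_pow, norm_pow, norm_pow]
  have e0 : ‖q 0‖ ^ s 0 ≤ Y ^ s 0 := pow_le_pow_left₀ (norm_nonneg _) h0 _
  have e1 : ‖q 1‖ ^ s 1 ≤ Y ^ s 1 := pow_le_pow_left₀ (norm_nonneg _) h1 _
  have e2 : ‖q 2‖ ^ s 2 ≤ Y ^ (2 * s 2) := by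
    rw [pow_mul]
    exact pow_le_pow_left₀ (norm_nonneg _) h2 _
  have e3 : ‖q 3‖ ^ s 3 ≤ Y ^ (2 * s 3) := by
    rw [pow_mul]
    exact pow_le_pow_left₀ (norm_nonneg _) h3 _
  calc ‖q 0‖ ^ s 0 * ‖q 1‖ ^ s 1 * ‖q 2‖ ^ s 2 * ‖q 3‖ ^ s 3
      ≤ Y ^ s 0 * Y ^ s 1 * Y ^ (2 * s 2) * Y ^ (2 * s 3) := by gcongr
    _ = Y ^ (s 0 + s 1 + 2 * s 2 + 2 * s 3) := by rw [pow_add, pow_add, pow_add]
    _ ≤ Y ^ w := pow_le_pow_right₀ hY (h s hs)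

end Pool.Agent.CNX
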