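import Pool.Agent.CNX.ADefs

/-!
# AL5: limits of normalised coordinates exist along an unbounded set

Proof.  `W x = ‖x 0‖^(2m) + ‖x 1‖^(2m) + ‖x 2‖^m + ‖x 3‖^m + ‖x 4‖`, `Y x = (W x)^(1/(2m))` (real power), so
`Y ≥ 0`, `Y^(2m) = W` and `‖x 0‖ ≤ Y`, `‖x 2‖ ≤ Y²`, `‖x 4‖ ≤ Y^(2m)` for ALL `x` (`pow_le_pow_left` /
`pow_le_pow_iff_left`).  `W` (hence `Y`) is unbounded on `S`: if `‖x j‖ > M ≥ 1` then `W ≥ M` (`m ≥ 1`).
The filter `comap Y atTop ⊓ 𝓟 S` is `NeBot`; take an ultrafilter `U` below it (`Ultrafilter.of`).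
The normalised coordinates lie in the compact unit disc, so they converge along `U`
(`IsCompact.ultrafilter_le_nhds` for `U.map`).  The quantity
`‖x0/Y‖^(2m) + ‖x1/Y‖^(2m) + ‖x2/Y²‖^m + ‖x3/Y²‖^m + ‖x4/Y^(2m)‖ = 1` eventually (where `Y > 0`), so in the
limit the same sum for `η` is `1`, hence `η ≠ 0`.
-/

set_option autoImplicit false

namespace Pool.Agent.CNX

theorem exists_limits (m : ℕ) (hm : 1 ≤ m) (S : Set V5)
    (hS : ∀ M : ℝ, ∃ x ∈ S, ∃ j, M < ‖x j‖) : Nonempty (LimData m S) := by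
  classical
  have h2m : 2 * m ≠ 0 := by omega
  have hm0 : m ≠ 0 := by omega
  obtain ⟨W, hW⟩ : ∃ W : V5 → ℝ, ∀ x, W x = ‖x 0‖ ^ (2 * m) + ‖x 1‖ ^ (2 * m) + ‖x 2‖ ^ m + ‖x 3‖ ^ m + ‖x 4‖ :=
    ⟨_, fun _ => rfl⟩
  have hW0 : ∀ x, 0 ≤ W x := by
    intro x
    rw [hW x]
    positivity
  obtain ⟨Y, hY0, hYW⟩ : ∃ Y : V5 → ℝ, (∀ x, 0 ≤ Y x) ∧ ∀ x, Y x ^ (2 * m) = W x := by
    refine ⟨fun x => W x ^ (((2 * m : ℕ) : ℝ)⁻¹), fun x => Real.rpow_nonneg (hW0 x) _, fun x => ?_⟩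
    exact Real.rpow_inv_natCast_pow (hW0 x) h2m
  have hp0 : ∀ x : V5, 0 ≤ ‖x 0‖ ^ (2 * m) := fun x => by positivity
  have hp1 : ∀ x : V5, 0 ≤ ‖x 1‖ ^ (2 * m) := fun x => by positivity
  have hp2 : ∀ x : V5, 0 ≤ ‖x 2‖ ^ m := fun x => by positivity
  have hp3 : ∀ x : V5, 0 ≤ ‖x 3‖ ^ m := fun x => by positivity
  have hp4 : ∀ x : V5, 0 ≤ ‖x 4‖ := fun x => norm_nonneg _
  have b0 : ∀ x, ‖x 0‖ ≤ Y x := by
    intro x
    refine (pow_le_pow_iff_left₀ (norm_nonneg _) (hY0 x) h2m).1 ?_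
    rw [hYW, hW]
    linarith [hp0 x, hp1 x, hp2 x, hp3 x, hp4 x]
  have b1 : ∀ x, ‖x 1‖ ≤ Y x := by
    intro x
    refine (pow_le_pow_iff_left₀ (norm_nonneg _) (hY0 x) h2m).1 ?_
    rw [hYW, hW]
    linarith [hp0 x, hp1 x, hp2 x, hp3 x, hp4 x]
  have b2 : ∀ x, ‖x 2‖ ≤ Y x ^ 2 := by
    intro x
    refine (pow_le_pow_iff_left₀ (norm_nonneg _) (pow_nonneg (hY0 x) 2) hm0).1 ?_
    rw [← pow_mul, hYW, hW]
    linarith [hp0 x, hp1 x, hp2 x, hp3 x, hp4 x]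
  have b3 : ∀ x, ‖x 3‖ ≤ Y x ^ 2 := by
    intro x
    refine (pow_le_pow_iff_left₀ (norm_nonneg _) (pow_nonneg (hY0 x) 2) hm0).1 ?_
    rw [← pow_mul, hYW, hW]
    linarith [hp0 x, hp1 x, hp2 x, hp3 x, hp4 x]
  have b4 : ∀ x, ‖x 4‖ ≤ Y x ^ (2 * m) := by
    intro x
    rw [hYW, hW]
    linarith [hp0 x, hp1 x, hp2 x, hp3 x, hp4 x]
  have hunb : ∀ N : ℝ, ∃ x ∈ S, N ≤ Y x := by
    intro N
    have hN1 : (1 : ℝ) ≤ max N 1 := le_max_right _ _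
    obtain ⟨x, hxS, j, hj⟩ := hS (max N 1 ^ (2 * m))
    have hM1 : (1 : ℝ) ≤ max N 1 ^ (2 * m) := one_le_pow₀ hN1
    have hself : ∀ (t : ℝ) (k : ℕ), k ≠ 0 → max N 1 ^ (2 * m) < t → max N 1 ^ (2 * m) < t ^ k := by
      intro t k hk ht
      exact lt_of_lt_of_le ht (le_self_pow₀ (hM1.trans ht.le) hk)
    have hWlt : max N 1 ^ (2 * m) < W x := by
      rw [hW]
      fin_cases j
      · have := hself _ _ h2m hj
        simp only [Fin.zero_eta] at this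
        linarith [hp0 x, hp1 x, hp2 x, hp3 x, hp4 x]
      · have := hself _ _ h2m hj
        simp only [Fin.mk_one] at this
        linarith [hp0 x, hp1 x, hp2 x, hp3 x, hp4 x]
      · have := hself _ _ hm0 hj
        simp only [Fin.reduceFinMk] at this
        linarith [hp0 x, hp1 x, hp2 x, hp3 x, hp4 x]
      · have := hself _ _ hm0 hj
        simp only [Fin.reduceFinMk] at this
        linarith [hp0 x, hp1 x, hp2 x, hp3 x, hp4 x]
      · simp only [Fin.reduceFinMk] at hj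
        linarith [hp0 x, hp1 x, hp2 x, hp3 x, hp4 x]
    refine ⟨x, hxS, ?_⟩
    rw [← hYW x] at hWlt
    have h3 := lt_of_pow_lt_pow_left₀ _ (hY0 x) hWlt
    exact (le_max_left _ _).trans h3.le
  have hne : (Filter.comap Y Filter.atTop ⊓ Filter.principal S).NeBot := by
    rw [Filter.inf_principal_neBot_iff]
    intro A hA
    obtain ⟨t, ht, htA⟩ := Filter.mem_comap.1 hA
    obtain ⟨N, hN⟩ := Filter.mem_atTop_sets.1 ht
    obtain ⟨x, hxS, hx⟩ := hunb N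
    exact ⟨x, htA (hN _ hx), hxS⟩
  obtain ⟨U, hU⟩ : ∃ U : Ultrafilter V5, (U : Filter V5) ≤ Filter.comap Y Filter.atTop ⊓ Filter.principal S :=
    ⟨Ultrafilter.of _, Ultrafilter.of_le _⟩
  have hmem : ∀ᶠ x in (U : Filter V5), x ∈ S := by
    have h1 : (U : Filter V5) ≤ Filter.principal S := hU.trans inf_le_right
    exact Filter.le_principal_iff.1 h1
  have htend : Filter.Tendsto Y (U : Filter V5) Filter.atTop :=
    Filter.tendsto_iff_comap.2 (hU.trans inf_le_left)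
  have hone : ∀ᶠ x in (U : Filter V5), 1 ≤ Y x := htend.eventually_ge_atTop 1
  have hlim : ∀ f : V5 → ℂ, (∀ x, ‖f x‖ ≤ 1) → ∃ l : ℂ, Filter.Tendsto f (U : Filter V5) (nhds l) := by
    intro f hf
    obtain ⟨l, -, hl⟩ := (isCompact_closedBall (0 : ℂ) 1).ultrafilter_le_nhds (U.map f) (by
      rw [Filter.le_principal_iff]
      refine Filter.mem_map.2 (Filter.univ_mem' fun x => ?_)
      rw [Set.mem_preimage, Metric.mem_closedBall, dist_zero_right]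
      exact hf x)
    exact ⟨l, hl⟩
  have hn : ∀ (k : ℕ) (x : V5), ‖((Y x : ℂ)) ^ k‖ = Y x ^ k := by
    intro k x
    rw [norm_pow, Complex.norm_real, Real.norm_of_nonneg (hY0 x)]
  have hn1 : ∀ (x : V5), ‖((Y x : ℂ))‖ = Y x := by
    intro x
    rw [Complex.norm_real, Real.norm_of_nonneg (hY0 x)]
  obtain ⟨l0, hl0⟩ := hlim (fun x => x 0 / (Y x : ℂ)) (fun x => by
    rw [norm_div, hn1]
    exact div_le_one_of_le₀ (b0 x) (hY0 x))
  obtain ⟨l1, hl1⟩ := hlim (fun x => x 1 / (Y x : ℂ)) (fun x => by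
    rw [norm_div, hn1]
    exact div_le_one_of_le₀ (b1 x) (hY0 x))
  obtain ⟨l2, hl2⟩ := hlim (fun x => x 2 / (Y x : ℂ) ^ 2) (fun x => by
    rw [norm_div, hn]
    exact div_le_one_of_le₀ (b2 x) (pow_nonneg (hY0 x) 2))
  obtain ⟨l3, hl3⟩ := hlim (fun x => x 3 / (Y x : ℂ) ^ 2) (fun x => by
    rw [norm_div, hn]
    exact div_le_one_of_le₀ (b3 x) (pow_nonneg (hY0 x) 2))
  obtain ⟨l4, hl4⟩ := hlim (fun x => x 4 / (Y x : ℂ) ^ (2 * m)) (fun x => by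
    rw [norm_div, hn]
    exact div_le_one_of_le₀ (b4 x) (pow_nonneg (hY0 x) _))
  refine ⟨{ U := U, Y := Y, η := ![l0, l1, l2, l3, l4], mem := hmem, one_le := hone, tend := htend, b0 := b0, b1 := b1,
            b2 := b2, b3 := b3, b4 := b4, l0 := hl0, l1 := hl1, l2 := hl2, l3 := hl3, l4 := hl4, ne := ?_ }⟩
  intro h0
  have e0 : l0 = 0 := congrFun h0 0
  have e1 : l1 = 0 := congrFun h0 1
  have e2 : l2 = 0 := congrFun h0 2
  have e3 : l3 = 0 := congrFun h0 3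
  have e4 : l4 = 0 := congrFun h0 4
  have hT := (((((hl0.norm.pow (2 * m)).add (hl1.norm.pow (2 * m))).add (hl2.norm.pow m)).add
    (hl3.norm.pow m)).add hl4.norm)
  rw [e0, e1, e2, e3, e4] at hT
  simp only [norm_zero, zero_pow h2m, zero_pow hm0, add_zero] at hT
  have hT1 : Filter.Tendsto (fun x : V5 => ‖x 0 / (Y x : ℂ)‖ ^ (2 * m) + ‖x 1 / (Y x : ℂ)‖ ^ (2 * m) +
      ‖x 2 / (Y x : ℂ) ^ 2‖ ^ m + ‖x 3 / (Y x : ℂ) ^ 2‖ ^ m + ‖x 4 / (Y x : ℂ) ^ (2 * m)‖)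
      (U : Filter V5) (nhds 1) := by
    refine Filter.Tendsto.congr' ?_ tendsto_const_nhds
    filter_upwards [hone] with x hx
    have hYp : 0 < Y x := lt_of_lt_of_le one_pos hx
    have hYp2 : Y x ^ (2 * m) ≠ 0 := (pow_pos hYp _).ne'
    simp only [norm_div, hn, hn1, div_pow]
    rw [← pow_mul, ← add_div, ← add_div, ← add_div, ← add_div, ← hW x, hYW x]
    rw [hYW x] at hYp2
    rw [div_self hYp2]
  exact zero_ne_one (tendsto_nhds_unique hT hT1)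

end Pool.Agent.CNX
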