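import Pool.Agent.CNX.AL4

/-!
# AL6: the equations for the limits

Notation: `U, Y, η` = `L.U, L.Y, L.η`; `K = (2m+2) e0`.  `hA` is used with `Y = L.Y x` and `q = q4 x`
(the bounds `b0..b3`), and dividing by powers of `Y` (`Y → ∞`):
(A) `Gc F 0 x / Y^(2m+1) → K 3^{-m} η0^(2m+1)` (error `≤ C / Y`), same for `Gc F 1`;
(B) `2 Gc F 2 x / Y^(2m) → K 3^{-3m} η2^m` (error `≤ C / Y`), same for `Gc F 3`.
`h0`: divide `Gc F 0 x - x4 x0 - p0 = 0` by `Y^(2m+1)` and pass to the limit; same `h1`.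
`h2`: let `μ = x4 - 2 Gc F 2 x`; `μ / Y^(2m) → η4 - K 3^{-3m} η2^m =: μ'`.  If `μ' ≠ 0` then `‖μ‖ → ∞`, so by
`cluster_decay` `x 2 → 0`, and `x 2 / Y² → 0`, so `η2 = 0`.  Same `h3`.
`h4`: if `η4 ≠ 0` then `‖x 4‖ → ∞`, the last equation gives `1 - x0² - x1² - x2 - x3 = E2 / x4² → 0`; divide
by `Y²`: `η0² + η1² + η2 + η3 = 0`.
`h5`: if `η2 = 0` and `η4 ≠ 0` then `μ' = η4 ≠ 0`, so `x 2 → 0` as in `h2`; `h6` the same for `x 3`
(`η3 = 0`).  `h7`: if `η4 ≠ 0` then `x0² + x1² + x2 + x3 → 1` (see `h4`).  `h8`: if `η4 ≠ 0` then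
`‖x 4‖ → ∞` (`m ≥ 1`).
Please prove `h2/h3` (and `h5/h6`) by one common lemma (cluster `(t, E)`, `G` with
`2 G x / Y^(2m) → ξ`).
-/

set_option autoImplicit false

namespace Pool.Agent.CNX

open Filter Topology

theorem al6_Y {U : Filter V5} {Y : V5 → ℝ} (hY : Tendsto Y U atTop) (k : ℕ) (hk : k ≠ 0) :
    Tendsto (fun x => ‖((Y x : ℂ)) ^ k‖) U atTop := by
  have h1 : Tendsto (fun x => ‖(Y x : ℂ)‖) U atTop := by
    have : (fun x => ‖(Y x : ℂ)‖) = fun x => |Y x| := by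
      funext x
      rw [Complex.norm_real, Real.norm_eq_abs]
    rw [this]
    exact tendsto_abs_atTop_atTop.comp hY
  have h2 : (fun x => ‖((Y x : ℂ)) ^ k‖) = fun x => ‖(Y x : ℂ)‖ ^ k := by
    funext x
    rw [norm_pow]
  rw [h2]
  exact (tendsto_pow_atTop hk).comp h1

theorem al6_bdd {U : Filter V5} {Y : V5 → ℝ} (hY : Tendsto Y U atTop) (k : ℕ) (hk : k ≠ 0) {f : V5 → ℂ} {c : ℂ}
    (hf : Tendsto f U (𝓝 c)) : Tendsto (fun x => f x / (Y x : ℂ) ^ k) U (𝓝 0) := by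
  rw [tendsto_zero_iff_norm_tendsto_zero]
  have h1 := hf.norm
  have h2 := h1.div_atTop (al6_Y hY k hk)
  refine h2.congr fun x => ?_
  rw [norm_div]

theorem al6_err {U : Filter V5} {Y : V5 → ℝ} (h1 : ∀ᶠ x in U, 1 ≤ Y x) (hY : Tendsto Y U atTop) {f : V5 → ℂ} {C : ℝ}
    (a : ℕ) (h : ∀ᶠ x in U, ‖f x‖ ≤ C * Y x ^ a) :
    Tendsto (fun x => f x / (Y x : ℂ) ^ (a + 1)) U (𝓝 0) := by
  rw [tendsto_zero_iff_norm_tendsto_zero]
  have h2 : Tendsto (fun x => C / Y x) U (𝓝 0) := (tendsto_const_nhds (x := C)).div_atTop hY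
  refine tendsto_of_tendsto_of_tendsto_of_le_of_le' tendsto_const_nhds h2 (Eventually.of_forall fun x => norm_nonneg _) ?_
  filter_upwards [h, h1] with x hx hx1
  have hp : 0 < Y x := by linarith
  rw [norm_div, norm_pow, Complex.norm_real, Real.norm_of_nonneg hp.le, div_le_div_iff₀ (by positivity) hp, pow_succ]
  calc ‖f x‖ * Y x ≤ (C * Y x ^ a) * Y x := mul_le_mul_of_nonneg_right hx hp.le
    _ = _ := by ring

theorem al6_A {U : Filter V5} {Y : V5 → ℝ} (h1 : ∀ᶠ x in U, 1 ≤ Y x) (hY : Tendsto Y U atTop) {G z : V5 → ℂ}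
    {K ζ : ℂ} {C : ℝ} {j n a b : ℕ} (hb : b = a + 1) (e : j * n = b)
    (h : ∀ᶠ x in U, ‖G x - K * z x ^ n‖ ≤ C * Y x ^ a)
    (hz : Tendsto (fun x => z x / (Y x : ℂ) ^ j) U (𝓝 ζ)) :
    Tendsto (fun x => G x / (Y x : ℂ) ^ b) U (𝓝 (K * ζ ^ n)) := by
  subst hb
  have h2 := (al6_err h1 hY a h).add ((hz.pow n).const_mul K)
  rw [zero_add] at h2
  refine h2.congr fun x => ?_
  rw [div_pow, ← pow_mul, e, ← mul_div_assoc, ← add_div, sub_add_cancel]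

theorem al6_inf {U : Filter V5} {Y : V5 → ℝ} (h1 : ∀ᶠ x in U, 1 ≤ Y x) (hY : Tendsto Y U atTop) {f : V5 → ℂ} {c : ℂ}
    (hc : c ≠ 0) (k : ℕ) (hk : k ≠ 0) (hf : Tendsto (fun x => f x / (Y x : ℂ) ^ k) U (𝓝 c)) :
    Tendsto (fun x => ‖f x‖) U atTop := by
  have h2 := hf.norm.pos_mul_atTop (norm_pos_iff.2 hc) (al6_Y hY k hk)
  refine h2.congr' ?_
  filter_upwards [h1] with x hx
  have : ((Y x : ℂ)) ^ k ≠ 0 := pow_ne_zero _ (by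
    have : Y x ≠ 0 := by linarith
    exact_mod_cast this)
  rw [← norm_mul, div_mul_cancel₀ _ this]

theorem al6_cl {U : Filter V5} {Y : V5 → ℝ} (h1 : ∀ᶠ x in U, 1 ≤ Y x) (hY : Tendsto Y U atTop) {k : ℕ} (t : Fin k → ℝ)
    (E : Fin k → ℂ) {a μ : V5 → ℂ} {c : ℂ} (hc : c ≠ 0) (n : ℕ) (hn : n ≠ 0)
    (hμ : Tendsto (fun x => μ x / (Y x : ℂ) ^ n) U (𝓝 c)) (hcl : ∀ᶠ x in U, cl t E (a x) (μ x) = 0) :
    Tendsto a U (𝓝 0) := by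
  have h2 := al6_inf h1 hY hc n hn hμ
  rw [tendsto_zero_iff_norm_tendsto_zero, Metric.tendsto_nhds]
  intro ε hε
  obtain ⟨M, hM⟩ := cluster_decay t E (ε / 2) (by positivity)
  filter_upwards [h2.eventually_ge_atTop M, hcl] with x hx hx2
  have := hM (a x) (μ x) hx hx2
  rw [Real.dist_eq, sub_zero, abs_of_nonneg (norm_nonneg _)]
  linarith

theorem lim_eqs (F : P4) (m : ℕ) (hm : 1 ≤ m) (e0 C : ℝ) (he0 : 0 < e0) (hC : 0 ≤ C)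
    (hA : Asym F m e0 C) {k3 k1 : ℕ} (t3 : Fin k3 → ℝ) (t1 : Fin k1 → ℝ)
    (p : Fin 2 → ℂ) (E3 : Fin k3 → ℂ) (E1 : Fin k1 → ℂ) (E2 : ℂ)
    (L : LimData m (ZM F t3 t1 p E3 E1 E2)) :
    (((2 * m + 2) * e0 * (1 / 3) ^ m : ℝ) : ℂ) * L.η 0 ^ (2 * m + 1) = L.η 4 * L.η 0 ∧
    (((2 * m + 2) * e0 * (1 / 3) ^ (2 * m) : ℝ) : ℂ) * L.η 1 ^ (2 * m + 1) = L.η 4 * L.η 1 ∧
    (L.η 2 = 0 ∨ L.η 4 = (((2 * m + 2) * e0 * (1 / 3) ^ (3 * m) : ℝ) : ℂ) * L.η 2 ^ m) ∧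
    (L.η 3 = 0 ∨ L.η 4 = (((2 * m + 2) * e0 * (1 / 3) ^ (4 * m) : ℝ) : ℂ) * L.η 3 ^ m) ∧
    (L.η 4 ≠ 0 → L.η 0 ^ 2 + L.η 1 ^ 2 + L.η 2 + L.η 3 = 0) ∧
    (L.η 2 = 0 → L.η 4 ≠ 0 → Tendsto (fun x : V5 => x 2) (L.U : Filter V5) (𝓝 0)) ∧
    (L.η 3 = 0 → L.η 4 ≠ 0 → Tendsto (fun x : V5 => x 3) (L.U : Filter V5) (𝓝 0)) ∧
    (L.η 4 ≠ 0 → Tendsto (fun x : V5 => x 0 ^ 2 + x 1 ^ 2 + x 2 + x 3) (L.U : Filter V5)
      (𝓝 1)) ∧
    (L.η 4 ≠ 0 → Tendsto (fun x : V5 => ‖x 4‖) (L.U : Filter V5) atTop) := by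
  have h1 := L.one_le
  have hY := L.tend
  have hA' := h1.mono (fun x hx => hA (L.Y x) (q4 x) hx (L.b0 x) (L.b1 x) (L.b2 x) (L.b3 x))
  set K0 : ℂ := (((2 * m + 2) * e0 * (1 / 3) ^ m : ℝ) : ℂ) with hK0
  set K1 : ℂ := (((2 * m + 2) * e0 * (1 / 3) ^ (2 * m) : ℝ) : ℂ) with hK1
  set K2 : ℂ := (((2 * m + 2) * e0 * (1 / 3) ^ (3 * m) : ℝ) : ℂ) with hK2
  set K3 : ℂ := (((2 * m + 2) * e0 * (1 / 3) ^ (4 * m) : ℝ) : ℂ) with hK3
  have l0 : Tendsto (fun x : V5 => x 0 / (L.Y x : ℂ) ^ 1) (L.U : Filter V5) (𝓝 (L.η 0)) := by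
    simpa using L.l0
  have l1 : Tendsto (fun x : V5 => x 1 / (L.Y x : ℂ) ^ 1) (L.U : Filter V5) (𝓝 (L.η 1)) := by
    simpa using L.l1
  have A0 : Tendsto (fun x : V5 => Gc F 0 x / (L.Y x : ℂ) ^ (2 * m + 1)) (L.U : Filter V5) (𝓝 (K0 * L.η 0 ^ (2 * m + 1))) :=
    al6_A (z := fun x => x 0) (C := C) (a := 2 * m) h1 hY rfl (one_mul _) (hA'.mono fun x hx => hx.1) l0
  have A1 : Tendsto (fun x : V5 => Gc F 1 x / (L.Y x : ℂ) ^ (2 * m + 1)) (L.U : Filter V5) (𝓝 (K1 * L.η 1 ^ (2 * m + 1))) :=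
    al6_A (z := fun x => x 1) (C := C) (a := 2 * m) h1 hY rfl (one_mul _) (hA'.mono fun x hx => hx.2.1) l1
  have A2 : Tendsto (fun x : V5 => (2 * Gc F 2 x) / (L.Y x : ℂ) ^ (2 * m)) (L.U : Filter V5) (𝓝 (K2 * L.η 2 ^ m)) :=
    al6_A (z := fun x => x 2) (C := C) (a := 2 * m - 1) h1 hY (by omega) rfl (hA'.mono fun x hx => hx.2.2.1) L.l2
  have A3 : Tendsto (fun x : V5 => (2 * Gc F 3 x) / (L.Y x : ℂ) ^ (2 * m)) (L.U : Filter V5) (𝓝 (K3 * L.η 3 ^ m)) :=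
    al6_A (z := fun x => x 3) (C := C) (a := 2 * m - 1) h1 hY (by omega) rfl (hA'.mono fun x hx => hx.2.2.2) L.l3
  have B2 : Tendsto (fun x : V5 => (x 4 - 2 * Gc F 2 x) / (L.Y x : ℂ) ^ (2 * m)) (L.U : Filter V5)
      (𝓝 (L.η 4 - K2 * L.η 2 ^ m)) := (L.l4.sub A2).congr fun x => (sub_div _ _ _).symm
  have B3 : Tendsto (fun x : V5 => (x 4 - 2 * Gc F 3 x) / (L.Y x : ℂ) ^ (2 * m)) (L.U : Filter V5)
      (𝓝 (L.η 4 - K3 * L.η 3 ^ m)) := (L.l4.sub A3).congr fun x => (sub_div _ _ _).symm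
  have hm0 : m ≠ 0 := by omega
  have h2m : 2 * m ≠ 0 := by omega
  have hz := L.mem
  have c2 : ∀ᶠ x in (L.U : Filter V5), cl t3 E3 (x 2) (x 4 - 2 * Gc F 2 x) = 0 := hz.mono fun x hx => hx.2.2.1
  have c3 : ∀ᶠ x in (L.U : Filter V5), cl t1 E1 (x 3) (x 4 - 2 * Gc F 3 x) = 0 := hz.mono fun x hx => hx.2.2.2.1
  have D2 : L.η 4 - K2 * L.η 2 ^ m ≠ 0 → Tendsto (fun x : V5 => x 2) (L.U : Filter V5) (𝓝 0) := fun hc =>
    al6_cl h1 hY t3 E3 hc (2 * m) h2m B2 c2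
  have D3 : L.η 4 - K3 * L.η 3 ^ m ≠ 0 → Tendsto (fun x : V5 => x 3) (L.U : Filter V5) (𝓝 0) := fun hc =>
    al6_cl h1 hY t1 E1 hc (2 * m) h2m B3 c3
  have inf4 : L.η 4 ≠ 0 → Tendsto (fun x : V5 => ‖x 4‖) (L.U : Filter V5) atTop := fun h4 =>
    al6_inf h1 hY h4 (2 * m) h2m L.l4
  have S1 : L.η 4 ≠ 0 → Tendsto (fun x : V5 => x 0 ^ 2 + x 1 ^ 2 + x 2 + x 3) (L.U : Filter V5) (𝓝 1) := by
    intro h4
    have i4 := inf4 h4
    have i5 : Tendsto (fun x : V5 => ‖(x 4) ^ 2‖) (L.U : Filter V5) atTop := by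
      have := (tendsto_pow_atTop (α := ℝ) two_ne_zero).comp i4
      refine this.congr fun x => ?_
      simp
    have i6 : Tendsto (fun x : V5 => E2 / (x 4) ^ 2) (L.U : Filter V5) (𝓝 0) := by
      rw [tendsto_zero_iff_norm_tendsto_zero]
      refine ((tendsto_const_nhds (x := ‖E2‖)).div_atTop i5).congr fun x => ?_
      rw [norm_div]
    have i7 := (tendsto_const_nhds (x := (1 : ℂ))).sub i6
    rw [sub_zero] at i7
    refine i7.congr' ?_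
    filter_upwards [hz, i4.eventually_gt_atTop 0] with x hx hx4
    have hne : (x 4) ^ 2 ≠ 0 := pow_ne_zero _ (norm_pos_iff.1 hx4)
    have h5 := hx.2.2.2.2
    rw [sub_eq_zero] at h5
    rw [← h5, mul_div_assoc, div_self hne, mul_one]
    ring
  refine ⟨?_, ?_, ?_, ?_, ?_, ?_, ?_, S1, inf4⟩
  · have e1 : Tendsto (fun x : V5 => Gc F 0 x / (L.Y x : ℂ) ^ (2 * m + 1)) (L.U : Filter V5) (𝓝 (L.η 4 * L.η 0 + 0)) := by
      refine ((L.l4.mul L.l0).add (al6_bdd hY (2 * m + 1) (by omega) (tendsto_const_nhds (x := p 0)))).congr' ?_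
      filter_upwards [hz] with x hx
      have h5 := hx.1
      have h6 : Gc F 0 x = x 4 * x 0 + p 0 := by linear_combination h5
      rw [h6, add_div, pow_succ, mul_div_mul_comm]
    rw [add_zero] at e1
    exact tendsto_nhds_unique A0 e1
  · have e1 : Tendsto (fun x : V5 => Gc F 1 x / (L.Y x : ℂ) ^ (2 * m + 1)) (L.U : Filter V5) (𝓝 (L.η 4 * L.η 1 + 0)) := by
      refine ((L.l4.mul L.l1).add (al6_bdd hY (2 * m + 1) (by omega) (tendsto_const_nhds (x := p 1)))).congr' ?_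
      filter_upwards [hz] with x hx
      have h5 := hx.2.1
      have h6 : Gc F 1 x = x 4 * x 1 + p 1 := by linear_combination h5
      rw [h6, add_div, pow_succ, mul_div_mul_comm]
    rw [add_zero] at e1
    exact tendsto_nhds_unique A1 e1
  · by_cases hc : L.η 4 - K2 * L.η 2 ^ m = 0
    · exact Or.inr (sub_eq_zero.1 hc)
    · exact Or.inl (tendsto_nhds_unique L.l2 (al6_bdd hY 2 two_ne_zero (D2 hc)))
  · by_cases hc : L.η 4 - K3 * L.η 3 ^ m = 0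
    · exact Or.inr (sub_eq_zero.1 hc)
    · exact Or.inl (tendsto_nhds_unique L.l3 (al6_bdd hY 2 two_ne_zero (D3 hc)))
  · intro h4
    have e1 := al6_bdd hY 2 two_ne_zero (S1 h4)
    have e2 := (((L.l0.pow 2).add (L.l1.pow 2)).add L.l2).add L.l3
    refine tendsto_nhds_unique (e2.congr fun x => ?_) e1
    rw [div_pow, div_pow, ← add_div, ← add_div, ← add_div]
  · intro h2 h4
    refine D2 ?_
    rw [h2, zero_pow hm0, mul_zero, sub_zero]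
    exact h4
  · intro h3 h4
    refine D3 ?_
    rw [h3, zero_pow hm0, mul_zero, sub_zero]
    exact h4

end Pool.Agent.CNX
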