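import Pool.Agent.CNX.AL3
import Pool.Agent.CNX.AL5
import Pool.Agent.CNX.AL6

/-!
# AL7: the zero set of the model is bounded

Proof.  Otherwise `exists_limits` (AL5) gives `L : LimData m (ZM ...)`.  `lim_eqs` (AL6) and
`limit_algebra` (AL3, `K = (2m+2) e0`) give `η0 = η1 = η2 = η3 = 0`; `η ≠ 0`, so `η4 ≠ 0`.  By AL6
`x2 → 0`, `x3 → 0`, `‖x4‖ → ∞` and `x0² + x1² + x2 + x3 → 1` along `U`.  Claim `x0, x1 → 0` (contradiction).
Let `s = max ‖x0‖ ‖x1‖`, `σ = max 1 s`.  Eventually `‖x2‖, ‖x3‖ ≤ 1 ≤ σ²`, so `Asym` with `Y = σ` gives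
`‖Gc F 0 x‖ ≤ (K + C) σ^(2m+1)` (`σ ≥ 1`), same for `Gc F 1`.  From `x4 x0 = Gc F 0 x - p0` (and `x4 x1`):
`‖x4‖ s ≤ C' σ^(2m+1) ≤ C' (1 + s^(2m+1))`, `C' = K + C + ‖p 0‖ + ‖p 1‖`.  Now `s / Y → 0` (as
`η0 = η1 = 0`) and `‖x4‖ / Y^(2m) → ‖η4‖ > 0`, so `s^(2m) / ‖x4‖ → 0`; eventually `C' s^(2m) ≤ ‖x4‖ / 2`, so
`‖x4‖ s / 2 ≤ C'`, `s ≤ 2 C' / ‖x4‖ → 0`.
-/

set_option autoImplicit false

namespace Pool.Agent.CNX

open Filter Topology in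
theorem al7_est (K θ C σ s : ℝ) (m : ℕ) (hK : 0 ≤ K) (hθ0 : 0 ≤ θ) (hθ : θ ≤ 1) (hC : 0 ≤ C)
    (hσ : σ = max 1 s) (g u l P : ℂ) (hu : ‖u‖ ≤ s)
    (hg : ‖g - ((K * θ : ℝ) : ℂ) * u ^ (2 * m + 1)‖ ≤ C * σ ^ (2 * m))
    (he : g - l * u - P = 0) :
    ‖l‖ * ‖u‖ ≤ (K + C + ‖P‖) * σ ^ (2 * m + 1) := by
  have h1 : 1 ≤ σ := by rw [hσ]; exact le_max_left _ _
  have hs : s ≤ σ := by rw [hσ]; exact le_max_right _ _
  have hσ0 : 0 ≤ σ := by linarith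
  have hp : 1 ≤ σ ^ (2 * m + 1) := one_le_pow₀ h1
  have hp2 : σ ^ (2 * m) ≤ σ ^ (2 * m + 1) := pow_le_pow_right₀ h1 (by omega)
  have e1 : l * u = (g - ((K * θ : ℝ) : ℂ) * u ^ (2 * m + 1)) +
      ((K * θ : ℝ) : ℂ) * u ^ (2 * m + 1) - P := by
    linear_combination -he
  have h2 : ‖((K * θ : ℝ) : ℂ) * u ^ (2 * m + 1)‖ ≤ K * σ ^ (2 * m + 1) := by
    rw [norm_mul, norm_pow, Complex.norm_real, Real.norm_of_nonneg (mul_nonneg hK hθ0)]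
    have h3 : ‖u‖ ^ (2 * m + 1) ≤ σ ^ (2 * m + 1) :=
      pow_le_pow_left₀ (norm_nonneg _) (le_trans hu hs) _
    have h4 : K * θ ≤ K := by nlinarith
    exact mul_le_mul h4 h3 (by positivity) hK
  rw [← norm_mul, e1]
  calc ‖(g - ((K * θ : ℝ) : ℂ) * u ^ (2 * m + 1)) +
      ((K * θ : ℝ) : ℂ) * u ^ (2 * m + 1) - P‖ 
      ≤ ‖g - ((K * θ : ℝ) : ℂ) * u ^ (2 * m + 1)‖ + ‖((K * θ : ℝ) : ℂ) * u ^ (2 * m + 1)‖
        + ‖P‖ := le_trans (norm_sub_le _ _) (by gcongr; exact norm_add_le _ _)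
    _ ≤ C * σ ^ (2 * m + 1) + K * σ ^ (2 * m + 1) + ‖P‖ * σ ^ (2 * m + 1) := by
        have a1 : C * σ ^ (2 * m) ≤ C * σ ^ (2 * m + 1) := by gcongr
        have a2 : ‖P‖ ≤ ‖P‖ * σ ^ (2 * m + 1) := le_mul_of_one_le_right (norm_nonneg _) hp
        linarith
    _ = (K + C + ‖P‖) * σ ^ (2 * m + 1) := by ring

theorem al7_pow (s C' : ℝ) (m : ℕ) (hs : 0 ≤ s) (hC : 0 ≤ C') :
    C' * (max 1 s) ^ (2 * m + 1) ≤ C' * (1 + s ^ (2 * m) * s) := by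
  apply mul_le_mul_of_nonneg_left _ hC
  rw [← pow_succ]
  rcases le_total s 1 with h | h
  · rw [max_eq_left h, one_pow]
    have : 0 ≤ s ^ (2 * m + 1) := by positivity
    linarith
  · rw [max_eq_right h]
    linarith

open Filter Topology in
/-- the conclusion about the first two coordinates -/
theorem al7_small (F : P4) (m : ℕ) (hm : 1 ≤ m) (e0 C : ℝ) (he0 : 0 < e0) (hC : 0 ≤ C)
    (hA : Asym F m e0 C) {k3 k1 : ℕ} (t3 : Fin k3 → ℝ) (t1 : Fin k1 → ℝ)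
    (p : Fin 2 → ℂ) (E3 : Fin k3 → ℂ) (E1 : Fin k1 → ℂ) (E2 : ℂ)
    (L : LimData m (ZM F t3 t1 p E3 E1 E2)) (z0 : L.η 0 = 0) (z1 : L.η 1 = 0)
    (z4 : L.η 4 ≠ 0)
    (h2 : Tendsto (fun x : V5 => x 2) (L.U : Filter V5) (𝓝 0))
    (h3 : Tendsto (fun x : V5 => x 3) (L.U : Filter V5) (𝓝 0))
    (h4 : Tendsto (fun x : V5 => ‖x 4‖) (L.U : Filter V5) atTop) :
    Tendsto (fun x : V5 => max ‖x 0‖ ‖x 1‖) (L.U : Filter V5) (𝓝 0) := by
  set C' : ℝ := (2 * m + 2) * e0 + C + (‖p 0‖ + ‖p 1‖) with hC'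
  have hK : 0 ≤ (2 * (m : ℝ) + 2) * e0 := by positivity
  have hC'0 : 0 ≤ C' := by positivity
  have ev2 : ∀ᶠ x : V5 in (L.U : Filter V5), ‖x 2‖ ≤ 1 := by
    have := h2.norm
    rw [norm_zero] at this
    exact this.eventually_le_const one_pos
  have ev3 : ∀ᶠ x : V5 in (L.U : Filter V5), ‖x 3‖ ≤ 1 := by
    have := h3.norm
    rw [norm_zero] at this
    exact this.eventually_le_const one_pos
  have lx0 : Tendsto (fun x : V5 => ‖x 0‖ / L.Y x) (L.U : Filter V5) (𝓝 0) := by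
    have := L.l0.norm
    rw [z0, norm_zero] at this
    refine this.congr' ?_
    filter_upwards [L.one_le] with x hx
    rw [norm_div, Complex.norm_real, Real.norm_of_nonneg (by linarith)]
  have lx1 : Tendsto (fun x : V5 => ‖x 1‖ / L.Y x) (L.U : Filter V5) (𝓝 0) := by
    have := L.l1.norm
    rw [z1, norm_zero] at this
    refine this.congr' ?_
    filter_upwards [L.one_le] with x hx
    rw [norm_div, Complex.norm_real, Real.norm_of_nonneg (by linarith)]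
  have lx4 : Tendsto (fun x : V5 => ‖x 4‖ / L.Y x ^ (2 * m)) (L.U : Filter V5)
      (𝓝 ‖L.η 4‖) := by
    have := L.l4.norm
    refine this.congr' ?_
    filter_upwards [L.one_le] with x hx
    rw [norm_div, norm_pow, Complex.norm_real, Real.norm_of_nonneg (by linarith)]
  have lmax : Tendsto (fun x : V5 => max (‖x 0‖ / L.Y x) (‖x 1‖ / L.Y x)) (L.U : Filter V5)
      (𝓝 0) := by
    have := lx0.max lx1
    simpa using this
  have lpow : Tendsto (fun x : V5 => C' * (max (‖x 0‖ / L.Y x) (‖x 1‖ / L.Y x)) ^ (2 * m))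
      (L.U : Filter V5) (𝓝 0) := by
    have := (lmax.pow (2 * m)).const_mul C'
    rwa [zero_pow (by omega), mul_zero] at this
  have hη : 0 < ‖L.η 4‖ := norm_pos_iff.mpr z4
  have ev5 : ∀ᶠ x : V5 in (L.U : Filter V5),
      C' * (max (‖x 0‖ / L.Y x) (‖x 1‖ / L.Y x)) ^ (2 * m) ≤ ‖L.η 4‖ / 4 :=
    lpow.eventually_le_const (by positivity)
  have ev6 : ∀ᶠ x : V5 in (L.U : Filter V5), ‖L.η 4‖ / 2 ≤ ‖x 4‖ / L.Y x ^ (2 * m) :=
    lx4.eventually_const_le (by linarith)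
  have ev7 : ∀ᶠ x : V5 in (L.U : Filter V5), 0 < ‖x 4‖ := h4.eventually_gt_atTop 0
  have lim : Tendsto (fun x : V5 => 2 * C' / ‖x 4‖) (L.U : Filter V5) (𝓝 0) :=
    h4.const_div_atTop _
  refine squeeze_zero' (Eventually.of_forall fun x => le_max_of_le_left (norm_nonneg _)) ?_ lim
  filter_upwards [ev2, ev3, ev5, ev6, ev7, L.mem, L.one_le] with x e2 e3 e5 e6 e7 hx hY
  set s : ℝ := max ‖x 0‖ ‖x 1‖ with hs
  have hs0 : 0 ≤ s := le_max_of_le_left (norm_nonneg _)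
  have hY0 : 0 < L.Y x := by linarith
  -- `C' s^(2m) ≤ ‖x 4‖ / 2`
  have key1 : C' * s ^ (2 * m) ≤ ‖x 4‖ / 2 := by
    have e : max (‖x 0‖ / L.Y x) (‖x 1‖ / L.Y x) = s / L.Y x := by
      rw [hs, ← max_div_div_right hY0.le]
    rw [e, div_pow, ← mul_div_assoc] at e5
    have h : C' * s ^ (2 * m) / L.Y x ^ (2 * m) ≤ ‖x 4‖ / L.Y x ^ (2 * m) / 2 := by linarith
    have hp : 0 < L.Y x ^ (2 * m) := by positivity
    rw [div_div, mul_comm (L.Y x ^ (2 * m)) 2, ← div_div, div_le_div_iff_of_pos_right hp] at h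
    exact h
  -- the estimate
  have hσ1 : (1 : ℝ) ≤ max 1 s := le_max_left _ _
  have hσs : s ≤ max 1 s := le_max_right _ _
  have hσ2 : (1 : ℝ) ≤ (max 1 s) ^ 2 := one_le_pow₀ hσ1
  have hx0 : ‖x 0‖ ≤ s := le_max_left _ _
  have hx1 : ‖x 1‖ ≤ s := le_max_right _ _
  obtain ⟨g0, g1, -, -⟩ := hA (max 1 s) (q4 x) hσ1 (le_trans hx0 hσs) (le_trans hx1 hσs)
    (le_trans e2 hσ2) (le_trans e3 hσ2)
  obtain ⟨q0, q1, -, -, -⟩ := hx
  have b0 := al7_est ((2 * m + 2) * e0) ((1 / 3) ^ m) C (max 1 s) s m hK (by positivity)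
    (pow_le_one₀ (by norm_num) (by norm_num)) hC rfl (Gc F 0 x) (x 0) (x 4) (p 0) hx0 g0 q0
  have b1 := al7_est ((2 * m + 2) * e0) ((1 / 3) ^ (2 * m)) C (max 1 s) s m hK (by positivity)
    (pow_le_one₀ (by norm_num) (by norm_num)) hC rfl (Gc F 1 x) (x 1) (x 4) (p 1) hx1 g1 q1
  have hσp : 0 ≤ (max 1 s) ^ (2 * m + 1) := by positivity
  have c0 : ‖x 4‖ * ‖x 0‖ ≤ C' * (max 1 s) ^ (2 * m + 1) := by
    refine le_trans b0 (mul_le_mul_of_nonneg_right ?_ hσp)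
    rw [hC']; linarith [norm_nonneg (p 1)]
  have c1 : ‖x 4‖ * ‖x 1‖ ≤ C' * (max 1 s) ^ (2 * m + 1) := by
    refine le_trans b1 (mul_le_mul_of_nonneg_right ?_ hσp)
    rw [hC']; linarith [norm_nonneg (p 0)]
  have cs : ‖x 4‖ * s ≤ C' * (max 1 s) ^ (2 * m + 1) := by
    rcases max_choice ‖x 0‖ ‖x 1‖ with h | h
    · have hs' : s = ‖x 0‖ := h
      calc ‖x 4‖ * s = ‖x 4‖ * ‖x 0‖ := by rw [hs']
        _ ≤ _ := c0
    · have hs' : s = ‖x 1‖ := h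
      calc ‖x 4‖ * s = ‖x 4‖ * ‖x 1‖ := by rw [hs']
        _ ≤ _ := c1
  have c2 := al7_pow s C' m hs0 hC'0
  have c3 : C' * s ^ (2 * m) * s ≤ ‖x 4‖ / 2 * s := mul_le_mul_of_nonneg_right key1 hs0
  rw [le_div_iff₀ e7]
  nlinarith

theorem bounded_zeros (F : P4) (m : ℕ) (hm : 1 ≤ m) (e0 C : ℝ) (he0 : 0 < e0) (hC : 0 ≤ C)
    (hA : Asym F m e0 C) {k3 k1 : ℕ} (t3 : Fin k3 → ℝ) (t1 : Fin k1 → ℝ)
    (p : Fin 2 → ℂ) (E3 : Fin k3 → ℂ) (E1 : Fin k1 → ℂ) (E2 : ℂ) :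
    ∃ M : ℝ, ∀ x ∈ ZM F t3 t1 p E3 E1 E2, ∀ j, ‖x j‖ ≤ M := by
  by_contra hcon
  push Not at hcon
  obtain ⟨L⟩ := exists_limits m hm (ZM F t3 t1 p E3 E1 E2) hcon
  obtain ⟨h0, h1, h2, h3, h4, h5, h6, h7, h8⟩ :=
    lim_eqs F m hm e0 C he0 hC hA t3 t1 p E3 E1 E2 L
  have hK : 0 < (2 * (m : ℝ) + 2) * e0 := by positivity
  obtain ⟨z0, z1, z2, z3⟩ := limit_algebra m hm ((2 * m + 2) * e0) hK (L.η 0) (L.η 1)
    (L.η 2) (L.η 3) (L.η 4) h0 h1 h2 h3 h4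
  have z4 : L.η 4 ≠ 0 := by
    intro z4
    apply L.ne
    ext j
    fin_cases j
    · exact z0
    · exact z1
    · exact z2
    · exact z3
    · exact z4
  have t2 := h5 z2 z4
  have t3' := h6 z3 z4
  have t := al7_small F m hm e0 C he0 hC hA t3 t1 p E3 E1 E2 L z0 z1 z4 t2 t3' (h8 z4)
  have s0 : Filter.Tendsto (fun x : V5 => x 0) (L.U : Filter V5) (nhds 0) := by
    rw [tendsto_zero_iff_norm_tendsto_zero]
    exact squeeze_zero (fun x => norm_nonneg _) (fun x => le_max_left _ _) t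
  have s1 : Filter.Tendsto (fun x : V5 => x 1) (L.U : Filter V5) (nhds 0) := by
    rw [tendsto_zero_iff_norm_tendsto_zero]
    exact squeeze_zero (fun x => norm_nonneg _) (fun x => le_max_right _ _) t
  have fin : Filter.Tendsto (fun x : V5 => x 0 ^ 2 + x 1 ^ 2 + x 2 + x 3) (L.U : Filter V5)
      (nhds (0 ^ 2 + 0 ^ 2 + 0 + 0)) := (((s0.pow 2).add (s1.pow 2)).add t2).add t3'
  have := tendsto_nhds_unique fin (h7 z4)
  norm_num at this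

end Pool.Agent.CNX
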