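import Pool.Agent.CNX.AL8

/-!
# AL9: bounded zero set implies that the coordinates are algebraic modulo `I`

Proof.  If `I = ⊤` take `e = 1`.  Otherwise `A = MvPolynomial (Fin n) ℂ ⧸ I` is a nontrivial finitely
generated `ℂ`-algebra; Noether normalisation (Mathlib: `exists_integral_inj_algHom_of_fg` in
`Mathlib/RingTheory/NoetherNormalization.lean`, or `..._of_quotient`) gives `s` and an injective
integral `g : MvPolynomial (Fin s) ℂ →ₐ[ℂ] A`.
Claim `s = 0`: otherwise let `T` be a polynomial with class `g (X 0)`; `T` is bounded by some `B` on the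
zero set of `I` (a polynomial is bounded on a bounded set); let `l = B + 1`.  `T - C l` has no zero on the
zero set, so by AL8 its class `g (X 0 - C l)` is a unit of `A`.  A unit `g b` of an integral extension comes
from a unit `b` (`g` injective and integral: `isUnit_of_map...`, or: the inverse `v` of `g b` satisfies a
monic equation `v^k + g c_1 v^(k-1) + ... = 0`; multiply by `(g b)^(k-1)`: `v = - (g c_1 + g c_2 g b + ...)`
is in the image of `g`).  But `X 0 - C l` is not a unit of `MvPolynomial (Fin s) ℂ` (evaluate at `l`).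
So `s = 0`: `g` is integral and every element of `MvPolynomial (Fin 0) ℂ` is a constant
(`MvPolynomial.isEmptyAlgEquiv`), so the class of `X j` is integral over `ℂ`: there is a monic `e` with
`aeval (class of X j) e = 0`, i.e. `aeval (X j) e ∈ I`.
(Alternative: any other proof is fine, e.g. uncountably many independent elements `(x - l)⁻¹`.)
-/

set_option autoImplicit false

namespace Pool.Agent.CNX

open MvPolynomial

theorem al9_rank {n : ℕ} (I : Ideal (MvPolynomial (Fin n) ℂ)) :
    Module.rank ℂ (MvPolynomial (Fin n) ℂ ⧸ I) ≤ Cardinal.aleph0 := by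
  have h1 : Module.rank ℂ (MvPolynomial (Fin n) ℂ ⧸ I) ≤ Module.rank ℂ (MvPolynomial (Fin n) ℂ) :=
    LinearMap.rank_le_of_surjective (Ideal.Quotient.mkₐ ℂ I).toLinearMap (Ideal.Quotient.mkₐ_surjective ℂ I)
  refine h1.trans ?_
  rw [MvPolynomial.rank_eq]
  exact Cardinal.mk_le_aleph0

theorem alg_of_bounded {n : ℕ} (I : Ideal (MvPolynomial (Fin n) ℂ)) (M : ℝ)
    (h : ∀ x : Fin n → ℂ, (∀ f ∈ I, eval x f = 0) → ∀ j, ‖x j‖ ≤ M) (j : Fin n) :
    ∃ e : Polynomial ℂ, e ≠ 0 ∧ Polynomial.aeval (X j : MvPolynomial (Fin n) ℂ) e ∈ I := by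
  classical
  have hu : ∀ r : Set.Ioi (max M 0), ∃ u : MvPolynomial (Fin n) ℂ, u * (X j - C ((r : ℝ) : ℂ)) - 1 ∈ I := by
    intro r
    apply unit_of_no_zero
    intro x hx h0
    have h1 := h x hx j
    rw [map_sub, eval_X, eval_C, sub_eq_zero] at h0
    have h2 : max M 0 < (r : ℝ) := r.2
    rw [h0, Complex.norm_real, Real.norm_eq_abs] at h1
    have h3 := le_abs_self (r : ℝ)
    have h4 := le_max_left M 0
    linarith
  choose u hu using hu
  let A := MvPolynomial (Fin n) ℂ ⧸ I
  let x : A := Ideal.Quotient.mk I (X j)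
  let v : Set.Ioi (max M 0) → A := fun r => Ideal.Quotient.mk I (u r)
  have hv : ∀ r : Set.Ioi (max M 0), v r * (x - algebraMap ℂ A ((r : ℝ) : ℂ)) = 1 := by
    intro r
    have h1 := (Ideal.Quotient.eq_zero_iff_mem (I := I)).2 (hu r)
    rw [map_sub, map_mul, map_sub, map_one, sub_eq_zero] at h1
    exact h1
  have hni : ¬ LinearIndependent ℂ v := by
    intro hli
    have h1 := hli.cardinal_le_rank
    have h2 := h1.trans (al9_rank I)
    rw [Cardinal.mk_Ioi_real] at h2
    exact absurd h2 (not_le_of_gt Cardinal.aleph0_lt_continuum)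
  rw [not_linearIndependent_iff] at hni
  obtain ⟨s, g, hsum, i0, hi0, hg0⟩ := hni
  let e : Polynomial ℂ := ∑ i ∈ s, Polynomial.C (g i) * ∏ k ∈ s.erase i, (Polynomial.X - Polynomial.C (((k : ℝ) : ℂ)))
  refine ⟨e, ?_, ?_⟩
  · intro he
    have h1 : Polynomial.eval (((i0 : ℝ) : ℂ)) e = 0 := by rw [he, Polynomial.eval_zero]
    have h2 : Polynomial.eval (((i0 : ℝ) : ℂ)) e = g i0 * ∏ k ∈ s.erase i0, ((((i0 : ℝ) : ℂ)) - (((k : ℝ) : ℂ))) := by
      show Polynomial.eval (((i0 : ℝ) : ℂ)) (∑ i ∈ s, Polynomial.C (g i) * ∏ k ∈ s.erase i, (Polynomial.X - Polynomial.C (((k : ℝ) : ℂ)))) = _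
      rw [Polynomial.eval_finsetSum, Finset.sum_eq_single_of_mem i0 hi0]
      · rw [Polynomial.eval_mul, Polynomial.eval_C, Polynomial.eval_prod]
        congr 1
        exact Finset.prod_congr rfl (fun k _ => by rw [Polynomial.eval_sub, Polynomial.eval_X, Polynomial.eval_C])
      · intro i hi hne
        rw [Polynomial.eval_mul, Polynomial.eval_prod]
        have h3 : i0 ∈ s.erase i := Finset.mem_erase.2 ⟨Ne.symm hne, hi0⟩
        rw [Finset.prod_eq_zero h3 (by rw [Polynomial.eval_sub, Polynomial.eval_X, Polynomial.eval_C, sub_self]), mul_zero]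
    rw [h2] at h1
    rcases mul_eq_zero.1 h1 with h3 | h3
    · exact hg0 h3
    · obtain ⟨k, hk, hk0⟩ := Finset.prod_eq_zero_iff.1 h3
      have h4 := Complex.ofReal_injective (sub_eq_zero.1 hk0)
      exact (Finset.mem_erase.1 hk).1 (Subtype.ext h4).symm
  · rw [← Ideal.Quotient.eq_zero_iff_mem]
    have h1 : Ideal.Quotient.mk I (Polynomial.aeval (X j : MvPolynomial (Fin n) ℂ) e) = Polynomial.aeval x e := by
      exact (Polynomial.aeval_algHom_apply (Ideal.Quotient.mkₐ ℂ I) (X j) e).symm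
    rw [h1]
    show Polynomial.aeval x (∑ i ∈ s, Polynomial.C (g i) * ∏ k ∈ s.erase i, (Polynomial.X - Polynomial.C (((k : ℝ) : ℂ)))) = 0
    rw [map_sum]
    have h2 : ∀ i ∈ s, Polynomial.aeval x (Polynomial.C (g i) * ∏ k ∈ s.erase i, (Polynomial.X - Polynomial.C (((k : ℝ) : ℂ)))) =
        g i • v i * ∏ k ∈ s, (x - algebraMap ℂ A ((k : ℝ) : ℂ)) := by
      intro i hi
      rw [map_mul, map_prod, Polynomial.aeval_C]
      have h3 : ∏ k ∈ s.erase i, Polynomial.aeval x (Polynomial.X - Polynomial.C (((k : ℝ) : ℂ))) =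
          ∏ k ∈ s.erase i, (x - algebraMap ℂ A ((k : ℝ) : ℂ)) :=
        Finset.prod_congr rfl (fun k _ => by rw [map_sub, Polynomial.aeval_X, Polynomial.aeval_C])
      have h5 : g i • v i = algebraMap ℂ A (g i) * v i := by
        exact Algebra.smul_def (A := A) (g i) (v i)
      rw [h3, ← Finset.mul_prod_erase s (fun k => x - algebraMap ℂ A ((k : ℝ) : ℂ)) hi, h5]
      have h4 := hv i
      calc algebraMap ℂ A (g i) * ∏ k ∈ s.erase i, (x - algebraMap ℂ A ((k : ℝ) : ℂ))
          = algebraMap ℂ A (g i) * (v i * (x - algebraMap ℂ A ((i : ℝ) : ℂ))) *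
              ∏ k ∈ s.erase i, (x - algebraMap ℂ A ((k : ℝ) : ℂ)) := by rw [h4, mul_one]
        _ = _ := by ring
    rw [Finset.sum_congr rfl h2, ← Finset.sum_mul, hsum, zero_mul]

end Pool.Agent.CNX
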