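import Pool.Agent.CNX.AL2
import Pool.Agent.CNX.AL7
import Pool.Agent.CNX.AL9

/-!
# AL10: assembly of the algebra

Proof.  `θ = par p E3 E1 E2` with `p = fun i => θ (inl (inl i))` etc.  A common zero `x` of the ideal
`span (range ((Mod F t3 t1).f θ))` lies in `ZM` (`eval_Mod` at the indices 0..4, `eval_PM3`,
`eval_PM1`), which is bounded (AL2, AL7); AL9.
-/

set_option autoImplicit false

namespace Pool.Agent.CNX

theorem alg5 (F : P4) (hF : F4 F) {k3 k1 : ℕ} (t3 : Fin k3 → ℝ) (t1 : Fin k1 → ℝ)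
    (θ : Par k3 k1 → ℂ) : Alg5 (Mod F t3 t1) θ := by
  obtain ⟨m, hm, e0, C, he0, hC, hA⟩ := asym F hF
  obtain ⟨M, hM⟩ := bounded_zeros F m hm e0 C he0 hC hA t3 t1 (fun i => θ (Sum.inl (Sum.inl i)))
    (fun i => θ (Sum.inl (Sum.inr i))) (fun i => θ (Sum.inr (Sum.inl i))) (θ (Sum.inr (Sum.inr ())))
  have hθ : θ = par (fun i => θ (Sum.inl (Sum.inl i))) (fun i => θ (Sum.inl (Sum.inr i)))
      (fun i => θ (Sum.inr (Sum.inl i))) (θ (Sum.inr (Sum.inr ()))) := by
    funext i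
    rcases i with (i | i) | (i | i) <;> rfl
  intro j
  refine alg_of_bounded (Ideal.span (Set.range ((Mod F t3 t1).f θ))) M (fun x hx => hM x ?_) j
  have h0 : (fun l => MvPolynomial.eval x ((Mod F t3 t1).f θ l)) = fun _ => 0 := by
    funext l
    exact hx _ (Ideal.subset_span ⟨l, rfl⟩)
  rw [hθ, eval_Mod, eval_PM3, eval_PM1] at h0
  exact ⟨congrFun h0 0, congrFun h0 1, congrFun h0 2, congrFun h0 3, congrFun h0 4⟩

end Pool.Agent.CNX
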