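import Pool.Agent.CNX.AL1

/-!
# AL2: the analytic form of (F4)

Proof: `F = Fl + C e0 * (...)`, so `Fc F = Fc Fl + C e0 * (...)` and
`pderiv 0 (Fc F) = pderiv 0 (Fc Fl) + C ((2m+2) e0 3^{-m}) * X 0 ^ (2m+1)`; the remainder
`pderiv 0 (Fc Fl)` has weights `≤ 2m` (its monomials are `s - single 0 1`, `s ∈ Fl.support`, `s 0 ≥ 1`,
weight of `s` `≤ 2m+1`), so `growth` applies with `w = 2m`; for `pderiv 2`, `pderiv 3` the weights are
`≤ 2m - 1` (`2m+1-2`; note `1 ≤ m`).  Useful: `F4` gives `F`; `pderiv_map`, `MvPolynomial.map_add`,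
`support_map_subset`, coefficient formula of `pderiv` (`pderiv_monomial`, or
`MvPolynomial.coeff_pderiv`?).  Take `C` = the maximum (or the sum) of the four constants
(times 2).
-/

set_option autoImplicit false

namespace Pool.Agent.CNX

open MvPolynomial

/-- the coefficients of a partial derivative -/
theorem al2_coeff (i : Fin 4) (G : MvPolynomial (Fin 4) ℂ) (s : Fin 4 →₀ ℕ) :
    coeff s (pderiv i G) = coeff (s + Finsupp.single i 1) G * (s i + 1) := by
  induction G using MvPolynomial.induction_on' with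
  | monomial t a =>
    rw [pderiv_monomial, coeff_monomial, coeff_monomial]
    by_cases h : t = s + Finsupp.single i 1
    · subst h
      rw [if_pos rfl, if_pos (by simp)]
      simp
    · rw [if_neg h, zero_mul]
      by_cases h2 : t - Finsupp.single i 1 = s
      · rw [if_pos h2]
        have hti : t i = 0 := by
          by_contra hne
          apply h
          rw [← h2]
          ext j
          by_cases hj : j = i
          · subst hj
            simp
            omega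
          · simp [Finsupp.single_apply, Ne.symm hj]
        rw [hti]
        simp
      · rw [if_neg h2]
  | add p q hp hq => rw [map_add, coeff_add, coeff_add, hp, hq]; ring

theorem al2_supp (i : Fin 4) (G : P4) {s : Fin 4 →₀ ℕ} (hs : s ∈ (pderiv i (Fc G)).support) :
    s + Finsupp.single i 1 ∈ G.support := by
  rw [mem_support_iff, al2_coeff] at hs
  have h1 : coeff (s + Finsupp.single i 1) (Fc G) ≠ 0 := left_ne_zero_of_mul hs
  unfold Fc at h1
  rw [coeff_map] at h1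
  rw [mem_support_iff]
  intro h
  rw [h, map_zero] at h1
  exact h1 rfl

theorem asym (F : P4) (h : F4 F) : ∃ m : ℕ, 1 ≤ m ∧ ∃ e0 C : ℝ, 0 < e0 ∧ 0 ≤ C ∧
    Asym F m e0 C := by
  obtain ⟨m, hm, e0, he0, Fl, hF, hw⟩ := h
  refine ⟨m, hm, e0, ?_⟩
  obtain ⟨C0, hC0, H0⟩ := growth (pderiv 0 (Fc Fl)) (2 * m) (fun s hs => by
    have := hw _ (al2_supp 0 Fl hs)
    simp [Finsupp.single_apply] at this
    omega)
  obtain ⟨C1, hC1, H1⟩ := growth (pderiv 1 (Fc Fl)) (2 * m) (fun s hs => by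
    have := hw _ (al2_supp 1 Fl hs)
    simp [Finsupp.single_apply] at this
    omega)
  obtain ⟨C2, hC2, H2⟩ := growth (pderiv 2 (Fc Fl)) (2 * m - 1) (fun s hs => by
    have := hw _ (al2_supp 2 Fl hs)
    simp [Finsupp.single_apply] at this
    omega)
  obtain ⟨C3, hC3, H3⟩ := growth (pderiv 3 (Fc Fl)) (2 * m - 1) (fun s hs => by
    have := hw _ (al2_supp 3 Fl hs)
    simp [Finsupp.single_apply] at this
    omega)
  refine ⟨C0 + C1 + 2 * C2 + 2 * C3, he0, by positivity, ?_⟩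
  intro Y q hY q0 q1 q2 q3
  have e0' : eval q (pderiv 0 (Fc F)) = eval q (pderiv 0 (Fc Fl))
      + ((2 * m + 2) * e0 * (1 / 3) ^ m : ℝ) * q 0 ^ (2 * m + 1) := by
    rw [hF]
    simp [Fc, pderiv_X, pderiv_C_mul]
    ring
  have e1' : eval q (pderiv 1 (Fc F)) = eval q (pderiv 1 (Fc Fl))
      + ((2 * m + 2) * e0 * (1 / 3) ^ (2 * m) : ℝ) * q 1 ^ (2 * m + 1) := by
    rw [hF]
    simp [Fc, pderiv_X, pderiv_C_mul]
    ring
  have e2' : 2 * eval q (pderiv 2 (Fc F)) = 2 * eval q (pderiv 2 (Fc Fl))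
      + ((2 * m + 2) * e0 * (1 / 3) ^ (3 * m) : ℝ) * q 2 ^ m := by
    rw [hF]
    simp [Fc, pderiv_X, pderiv_C_mul]
    ring
  have e3' : 2 * eval q (pderiv 3 (Fc F)) = 2 * eval q (pderiv 3 (Fc Fl))
      + ((2 * m + 2) * e0 * (1 / 3) ^ (4 * m) : ℝ) * q 3 ^ m := by
    rw [hF]
    simp [Fc, pderiv_X, pderiv_C_mul]
    ring
  have b0 := H0 Y q hY q0 q1 q2 q3
  have b1 := H1 Y q hY q0 q1 q2 q3
  have b2 := H2 Y q hY q0 q1 q2 q3
  have b3 := H3 Y q hY q0 q1 q2 q3
  have Y0 : 0 ≤ Y := zero_le_one.trans hY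
  have p1 : 0 ≤ Y ^ (2 * m) := pow_nonneg Y0 _
  have p2 : 0 ≤ Y ^ (2 * m - 1) := pow_nonneg Y0 _
  refine ⟨?_, ?_, ?_, ?_⟩
  · rw [e0', add_sub_cancel_right]
    exact b0.trans (mul_le_mul_of_nonneg_right (by linarith) p1)
  · rw [e1', add_sub_cancel_right]
    exact b1.trans (mul_le_mul_of_nonneg_right (by linarith) p1)
  · rw [e2', add_sub_cancel_right, norm_mul, RCLike.norm_ofNat]
    calc 2 * ‖eval q (pderiv 2 (Fc Fl))‖ ≤ 2 * (C2 * Y ^ (2 * m - 1)) := by linarith
      _ = 2 * C2 * Y ^ (2 * m - 1) := by ring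
      _ ≤ _ := mul_le_mul_of_nonneg_right (by linarith) p2
  · rw [e3', add_sub_cancel_right, norm_mul, RCLike.norm_ofNat]
    calc 2 * ‖eval q (pderiv 3 (Fc Fl))‖ ≤ 2 * (C3 * Y ^ (2 * m - 1)) := by linarith
      _ = 2 * C3 * Y ^ (2 * m - 1) := by ring
      _ ≤ _ := mul_le_mul_of_nonneg_right (by linarith) p2

end Pool.Agent.CNX
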