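import Pool.Agent.CNX.ADefs

/-!
# AL3: the limit equations have only the trivial solution (pure complex numbers)

Proof.  If `l = 0`: `h0` gives `η0^(2m+1) = 0`, so `η0 = 0`, same for `η1`; `h2`, `h3` give
`α = β = 0`.  If `l ≠ 0`: put `X1 = η0²`, `X2 = η1²`, `X3 = α`, `X4 = β`.  Each `Xi` is `0` or satisfies
`K (Xi / 3^i)^m = l`, hence `‖Xi‖ = 3^i ρ` with `ρ > 0`, `ρ^m = ‖l‖ / K` (same `ρ` for all `i`;
`m ≥ 1`, `pow_left_injective`).  `X1 + X2 + X3 + X4 = 0` by `h4`.  If `X4 ≠ 0`: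
`81 ρ = ‖X4‖ ≤ ‖X1‖ + ‖X2‖ + ‖X3‖ ≤ (3+9+27) ρ`, contradiction; so `X4 = 0`; if `X3 ≠ 0`:
`27 ρ ≤ (3+9) ρ`; and so on.
-/

set_option autoImplicit false

namespace Pool.Agent.CNX

theorem al3_norm (m : ℕ) (K : ℝ) (hK : 0 < K) (i : ℕ) (X l : ℂ) (r : ℝ) (hr : 0 ≤ r)
    (hm : 1 ≤ m) (hrl : r ^ m = ‖l‖ / K) (h : l = ((K * (1 / 3) ^ (i * m) : ℝ) : ℂ) * X ^ m) :
    ‖X‖ = 3 ^ i * r := by
  have h1 : ‖l‖ = K * (1 / 3) ^ (i * m) * ‖X‖ ^ m := by
    rw [h, norm_mul, norm_pow, Complex.norm_real, Real.norm_of_nonneg (by positivity)]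
  have h2 : r ^ m = ((1 / 3) ^ i * ‖X‖) ^ m := by
    rw [hrl, h1, mul_pow, ← pow_mul]
    field_simp
  have h3 : r = (1 / 3) ^ i * ‖X‖ :=
    (pow_left_inj₀ hr (by positivity) (by omega)).1 h2
  rw [h3, ← mul_assoc, ← mul_pow]
  norm_num

theorem limit_algebra (m : ℕ) (hm : 1 ≤ m) (K : ℝ) (hK : 0 < K) (η0 η1 α β l : ℂ)
    (h0 : ((K * (1 / 3) ^ m : ℝ) : ℂ) * η0 ^ (2 * m + 1) = l * η0)
    (h1 : ((K * (1 / 3) ^ (2 * m) : ℝ) : ℂ) * η1 ^ (2 * m + 1) = l * η1)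
    (h2 : α = 0 ∨ l = ((K * (1 / 3) ^ (3 * m) : ℝ) : ℂ) * α ^ m)
    (h3 : β = 0 ∨ l = ((K * (1 / 3) ^ (4 * m) : ℝ) : ℂ) * β ^ m)
    (h4 : l ≠ 0 → η0 ^ 2 + η1 ^ 2 + α + β = 0) :
    η0 = 0 ∧ η1 = 0 ∧ α = 0 ∧ β = 0 := by
  have g0 : η0 = 0 ∨ l = ((K * (1 / 3) ^ (1 * m) : ℝ) : ℂ) * (η0 ^ 2) ^ m := by
    by_cases hz : η0 = 0
    · exact Or.inl hz
    · right
      apply mul_right_cancel₀ hz
      rw [← h0, one_mul, ← pow_mul]
      ring
  have g1 : η1 = 0 ∨ l = ((K * (1 / 3) ^ (2 * m) : ℝ) : ℂ) * (η1 ^ 2) ^ m := by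
    by_cases hz : η1 = 0
    · exact Or.inl hz
    · right
      apply mul_right_cancel₀ hz
      rw [← h1, ← pow_mul]
      ring
  have hc : ∀ i : ℕ, ((K * (1 / 3) ^ (i * m) : ℝ) : ℂ) ≠ 0 := by
    intro i
    rw [Complex.ofReal_ne_zero]
    positivity
  by_cases hl : l = 0
  · have key : ∀ (i : ℕ) (X : ℂ), l = ((K * (1 / 3) ^ (i * m) : ℝ) : ℂ) * X ^ m → X = 0 := by
      intro i X h
      rw [hl] at h
      rcases mul_eq_zero.1 h.symm with h | h
      · exact absurd h (hc i)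
      · exact pow_eq_zero_iff (by omega) |>.1 h
    refine ⟨?_, ?_, ?_, ?_⟩
    · rcases g0 with h | h
      · exact h
      · exact pow_eq_zero_iff (by norm_num) |>.1 (key 1 _ h)
    · rcases g1 with h | h
      · exact h
      · exact pow_eq_zero_iff (by norm_num) |>.1 (key 2 _ h)
    · rcases h2 with h | h
      · exact h
      · exact key 3 _ h
    · rcases h3 with h | h
      · exact h
      · exact key 4 _ h
  · have hsum := h4 hl
    have hlK : 0 < ‖l‖ / K := div_pos (norm_pos_iff.2 hl) hK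
    obtain ⟨r, hr, hrl⟩ : ∃ r : ℝ, 0 < r ∧ r ^ m = ‖l‖ / K := by
      refine ⟨(‖l‖ / K) ^ (1 / (m : ℝ)), Real.rpow_pos_of_pos hlK _, ?_⟩
      rw [← Real.rpow_natCast, ← Real.rpow_mul hlK.le]
      rw [one_div, inv_mul_cancel₀ (by positivity), Real.rpow_one]
    have n0 : η0 = 0 ∨ ‖η0 ^ 2‖ = 3 ^ 1 * r := g0.imp id fun h => al3_norm m K hK 1 _ l r hr.le hm hrl h
    have n1 : η1 = 0 ∨ ‖η1 ^ 2‖ = 3 ^ 2 * r := g1.imp id fun h => al3_norm m K hK 2 _ l r hr.le hm hrl h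
    have n2 : α = 0 ∨ ‖α‖ = 3 ^ 3 * r := h2.imp id fun h => al3_norm m K hK 3 _ l r hr.le hm hrl h
    have n3 : β = 0 ∨ ‖β‖ = 3 ^ 4 * r := h3.imp id fun h => al3_norm m K hK 4 _ l r hr.le hm hrl h
    have u0 : ‖η0 ^ 2‖ ≤ 3 * r := by
      rcases n0 with h | h
      · rw [h]; norm_num; exact hr.le
      · rw [h]; norm_num
    have u1 : ‖η1 ^ 2‖ ≤ 9 * r := by
      rcases n1 with h | h
      · rw [h]; norm_num; exact hr.le
      · rw [h]; norm_num
    have u2 : ‖α‖ ≤ 27 * r := by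
      rcases n2 with h | h
      · rw [h]; norm_num; exact hr.le
      · rw [h]; norm_num
    have b3 : β = 0 := by
      rcases n3 with h | h
      · exact h
      · exfalso
        have e : β = -(η0 ^ 2 + η1 ^ 2 + α) := by linear_combination hsum
        have h5 : ‖β‖ ≤ ‖η0 ^ 2‖ + ‖η1 ^ 2‖ + ‖α‖ := by
          rw [e, norm_neg]
          exact norm_add₃_le
        rw [h] at h5
        norm_num at h5
        norm_num at u0 u1
        linarith
    have b2 : α = 0 := by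
      rcases n2 with h | h
      · exact h
      · exfalso
        have e : α = -(η0 ^ 2 + η1 ^ 2) := by rw [b3] at hsum; linear_combination hsum
        have h5 : ‖α‖ ≤ ‖η0 ^ 2‖ + ‖η1 ^ 2‖ := by
          rw [e, norm_neg]
          exact norm_add_le _ _
        rw [h] at h5
        norm_num at h5
        norm_num at u0 u1
        linarith
    have b1 : η1 = 0 := by
      rcases n1 with h | h
      · exact h
      · exfalso
        have e : η1 ^ 2 = -(η0 ^ 2) := by rw [b3, b2] at hsum; linear_combination hsum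
        have h5 : ‖η1 ^ 2‖ ≤ ‖η0 ^ 2‖ := by
          rw [e, norm_neg]
        rw [h] at h5
        norm_num at h5
        norm_num at u0
        linarith
    have b0 : η0 = 0 := by
      rw [b1, b2, b3] at hsum
      have : η0 ^ 2 = 0 := by linear_combination hsum
      exact pow_eq_zero_iff (by norm_num) |>.1 this
    exact ⟨b0, b1, b2, b3⟩

end Pool.Agent.CNX
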