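import Pool.Agent.CNX.ADefs

/-!
# AL4: decay of a cluster

Proof.  Let `T = ∑ |t j|`.  For `‖μ‖ ≥ M > T` all factors `μ - t j` are nonzero with
`‖μ - t j‖ ≥ ‖μ‖ - T`, and `cl t E a μ = 0` divided by `∏ (μ - t j)²` gives `a = ∑ E j / (μ - t j)²`,
so `‖a‖ ≤ (∑ ‖E j‖) / (‖μ‖ - T)² ≤ ε` for `M = T + 1 + (∑ ‖E j‖) / ε`.  (`k = 0` is allowed: `a = 0`.)
-/

set_option autoImplicit false

namespace Pool.Agent.CNX

theorem cluster_decay {k : ℕ} (t : Fin k → ℝ) (E : Fin k → ℂ) (ε : ℝ) (hε : 0 < ε) :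
    ∃ M : ℝ, ∀ a μ : ℂ, M ≤ ‖μ‖ → cl t E a μ = 0 → ‖a‖ ≤ ε := by
  set T : ℝ := ∑ j, |t j| with hT
  set S : ℝ := ∑ j, ‖E j‖ with hS
  have hS0 : 0 ≤ S := Finset.sum_nonneg fun j _ => norm_nonneg _
  set δ : ℝ := 1 + S / ε with hδ
  have hq : 0 ≤ S / ε := div_nonneg hS0 hε.le
  have hδ1 : 1 ≤ δ := by linarith
  have hδ0 : 0 < δ := by linarith
  refine ⟨T + δ, fun a μ hμ h => ?_⟩
  have h1 : ∀ j, δ ≤ ‖μ - (t j : ℂ)‖ := by
    intro j
    have h2 : |t j| ≤ T := Finset.single_le_sum (f := fun j => |t j|) (fun j _ => abs_nonneg _)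
      (Finset.mem_univ j)
    have h3 := norm_sub_norm_le μ (t j : ℂ)
    rw [Complex.norm_real, Real.norm_eq_abs] at h3
    linarith
  have h4 : ∀ j, (μ - (t j : ℂ)) ^ 2 ≠ 0 := by
    intro j
    refine pow_ne_zero 2 ?_
    rw [← norm_pos_iff]
    linarith [h1 j]
  set P : ℂ := ∏ j, (μ - (t j : ℂ)) ^ 2 with hP
  have hP0 : P ≠ 0 := Finset.prod_ne_zero_iff.mpr fun j _ => h4 j
  have h5 : ∀ j, ∏ i ∈ Finset.univ.erase j, (μ - (t i : ℂ)) ^ 2 = P / (μ - (t j : ℂ)) ^ 2 := by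
    intro j
    rw [eq_div_iff (h4 j), hP]
    exact Finset.prod_erase_mul _ _ (Finset.mem_univ j)
  have h6 : a = ∑ j, E j / (μ - (t j : ℂ)) ^ 2 := by
    rw [cl, sub_eq_zero] at h
    have h7 : a * P = (∑ j, E j / (μ - (t j : ℂ)) ^ 2) * P := by
      rw [h, Finset.sum_mul]
      refine Finset.sum_congr rfl fun j _ => ?_
      rw [h5 j]
      ring
    exact mul_right_cancel₀ hP0 h7
  have h8 : ‖a‖ ≤ S / δ ^ 2 := by
    rw [h6, hS, Finset.sum_div]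
    refine (norm_sum_le _ _).trans (Finset.sum_le_sum fun j _ => ?_)
    rw [norm_div, norm_pow]
    exact div_le_div_of_nonneg_left (norm_nonneg _) (by positivity)
      (pow_le_pow_left₀ hδ0.le (h1 j) 2)
  refine h8.trans ?_
  rw [div_le_iff₀ (by positivity)]
  have h9 : S ≤ ε * δ := by
    rw [hδ, mul_add, mul_div_cancel₀ _ hε.ne']
    linarith
  have h10 : ε * δ ≤ ε * δ ^ 2 := mul_le_mul_of_nonneg_left (by nlinarith) hε.le
  linarith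

end Pool.Agent.CNX
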