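import Pool.Agent.CNX.ADefs

/-!
# AL8: Nullstellensatz: a polynomial without zeros on `V(I)` is a unit modulo `I`

Proof: the ideal `J = I ⊔ span {T}` has no zeros, so `vanishingIdeal (zeroLocus J) = ⊤`, and by
`MvPolynomial.vanishingIdeal_zeroLocus_eq_radical` (ℂ algebraically closed) `radical J = ⊤`, `J = ⊤`,
`1 = i + u T` with `i ∈ I` (`Ideal.mem_sup`, `Ideal.mem_span_singleton'`).
-/

set_option autoImplicit false

namespace Pool.Agent.CNX

open MvPolynomial

theorem unit_of_no_zero {n : ℕ} (I : Ideal (MvPolynomial (Fin n) ℂ))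
    (T : MvPolynomial (Fin n) ℂ)
    (h : ∀ x : Fin n → ℂ, (∀ f ∈ I, eval x f = 0) → eval x T ≠ 0) :
    ∃ u : MvPolynomial (Fin n) ℂ, u * T - 1 ∈ I := by
  have hJ : I ⊔ Ideal.span {T} = ⊤ := by
    rw [← Ideal.radical_eq_top, ← vanishingIdeal_zeroLocus_eq_radical (K := ℂ)]
    have he : zeroLocus ℂ (I ⊔ Ideal.span {T}) = ∅ := by
      rw [Set.eq_empty_iff_forall_notMem]
      intro x hx
      rw [mem_zeroLocus_iff] at hx
      refine h x (fun f hf => ?_) ?_
      · have h1 := hx f (Ideal.mem_sup_left hf)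
        rwa [aeval_eq_eval] at h1
      · have h1 := hx T (Ideal.mem_sup_right (Ideal.mem_span_singleton_self T))
        rwa [aeval_eq_eval] at h1
    rw [he]
    exact vanishingIdeal_empty
  have h1 : (1 : MvPolynomial (Fin n) ℂ) ∈ I ⊔ Ideal.span {T} := by
    rw [hJ]
    exact Submodule.mem_top
  obtain ⟨i, hi, t, ht, hit⟩ := Submodule.mem_sup.1 h1
  obtain ⟨u, hu⟩ := Ideal.mem_span_singleton'.1 ht
  refine ⟨u, ?_⟩
  have h2 : u * T - 1 = -i := by
    rw [hu, ← hit]
    ring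
  rw [h2]
  exact I.neg_mem hi

end Pool.Agent.CNX
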