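import Pool.Agent.CNX.Defs

/-!
# CNX section 7 (base function): definitions

L a b s t = (s - a)^2 (s + 2a) + (s - a)(t - b)/100 = U s t - p.1 s - p.2 t + const for p = grad U (a, b) = (3a^2 + b/100, a/100).
-/

set_option autoImplicit false

namespace Pool.Agent.CNX

/-- the function `U - p + const` for `p = grad U (a, b)` -/
noncomputable def LL (a b s t : ℝ) : ℝ := (s - a) ^ 2 * (s + 2 * a) + (s - a) * (t - b) / 100

/-- `X = - L(-1, 0)` -/
noncomputable def XB (a b : ℝ) : ℝ := (1 + a) ^ 2 * (1 - 2 * a) - (1 + a) * b / 100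

/-- the gradient of `U` -/
noncomputable def gU (a b : ℝ) : ℝ × ℝ := (3 * a ^ 2 + b / 100, a / 100)

end Pool.Agent.CNX
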