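import Pool.Agent.CNX.BADefs

/-!
# CNX module BA_A: general facts

`ba_LL`: ring. `ba_min` / `ba_max`: the circle is compact and nonempty, LL continuous: a minimum (maximum) point exists.
`ba_crit`: at a minimum or maximum point (s0, t0) of LL a b on the circle the function
θ ↦ LL a b (s0 cos θ - t0 sin θ) (s0 sin θ + t0 cos θ) has an extremum at 0, so its derivative is 0 (IsLocalMin.hasDerivAt_eq_zero / IsLocalMax):
-t0 (3 s0^2 - 3 a^2 + (t0 - b)/100) + s0 (s0 - a)/100 = 0.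
`ba_growth`: v0 the unique maximum point with local quadratic growth: the set {v on the circle, |v - v0| ≥ η} is compact; if empty take κ; otherwise
f has a maximum m < f v0 on it, |v - v0|^2 ≤ 4, so min κ ((f v0 - m)/4) works.
-/

set_option autoImplicit false

open Metric Set Filter Topology

namespace Pool.Agent.CNX

theorem ba_LL (a b s t : ℝ) :
    LL a b s t = U s t - (gU a b).1 * s - (gU a b).2 * t + (2 * a ^ 3 + a * b / 100) := by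
  unfold LL U gU
  ring

theorem baA_compact : IsCompact {v : ℝ × ℝ | v.1 ^ 2 + v.2 ^ 2 = 1} := by
  refine Metric.isCompact_of_isClosed_isBounded ?_ ?_
  · exact isClosed_eq (by fun_prop) continuous_const
  · refine (Metric.isBounded_closedBall (x := (0 : ℝ × ℝ)) (r := 1)).subset ?_
    rintro ⟨x, y⟩ h
    simp only [mem_setOf_eq] at h
    rw [mem_closedBall, dist_zero_right, Prod.norm_def, sup_le_iff, Real.norm_eq_abs,
      Real.norm_eq_abs]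
    exact ⟨abs_le_of_sq_le_sq (by nlinarith [sq_nonneg y]) zero_le_one,
      abs_le_of_sq_le_sq (by nlinarith [sq_nonneg x]) zero_le_one⟩

theorem baA_cont (a b : ℝ) : Continuous fun v : ℝ × ℝ => LL a b v.1 v.2 := by
  unfold LL
  fun_prop

theorem ba_min (a b : ℝ) : ∃ s0 t0 : ℝ, s0 ^ 2 + t0 ^ 2 = 1 ∧ ∀ s t : ℝ, s ^ 2 + t ^ 2 = 1 → LL a b s0 t0 ≤ LL a b s t := by
  obtain ⟨v, hv, hm⟩ := baA_compact.exists_isMinOn ⟨((1 : ℝ), (0 : ℝ)), by simp⟩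
    (baA_cont a b).continuousOn
  exact ⟨v.1, v.2, hv, fun s t h => hm (show (s, t) ∈ {v : ℝ × ℝ | v.1 ^ 2 + v.2 ^ 2 = 1} from h)⟩

theorem ba_max (a b : ℝ) : ∃ s0 t0 : ℝ, s0 ^ 2 + t0 ^ 2 = 1 ∧ ∀ s t : ℝ, s ^ 2 + t ^ 2 = 1 → LL a b s t ≤ LL a b s0 t0 := by
  obtain ⟨v, hv, hm⟩ := baA_compact.exists_isMaxOn ⟨((1 : ℝ), (0 : ℝ)), by simp⟩
    (baA_cont a b).continuousOn
  exact ⟨v.1, v.2, hv, fun s t h => hm (show (s, t) ∈ {v : ℝ × ℝ | v.1 ^ 2 + v.2 ^ 2 = 1} from h)⟩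

theorem baA_circ (s0 t0 x : ℝ) (h0 : s0 ^ 2 + t0 ^ 2 = 1) :
    (s0 * Real.cos x - t0 * Real.sin x) ^ 2 + (s0 * Real.sin x + t0 * Real.cos x) ^ 2 = 1 := by
  have := Real.sin_sq_add_cos_sq x
  calc (s0 * Real.cos x - t0 * Real.sin x) ^ 2 + (s0 * Real.sin x + t0 * Real.cos x) ^ 2
      = (s0 ^ 2 + t0 ^ 2) * (Real.sin x ^ 2 + Real.cos x ^ 2) := by ring
    _ = 1 := by rw [this, h0, one_mul]

theorem baA_der (a b s0 t0 : ℝ) :
    HasDerivAt (fun x : ℝ => LL a b (s0 * Real.cos x - t0 * Real.sin x)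
      (s0 * Real.sin x + t0 * Real.cos x))
      (-t0 * (3 * s0 ^ 2 - 3 * a ^ 2 + (t0 - b) / 100) + s0 * ((s0 - a) / 100)) 0 := by
  have hs : HasDerivAt (fun x : ℝ => s0 * Real.cos x - t0 * Real.sin x)
      (s0 * (-Real.sin 0) - t0 * Real.cos 0) 0 :=
    ((Real.hasDerivAt_cos 0).const_mul s0).sub ((Real.hasDerivAt_sin 0).const_mul t0)
  have ht : HasDerivAt (fun x : ℝ => s0 * Real.sin x + t0 * Real.cos x)
      (s0 * Real.cos 0 + t0 * (-Real.sin 0)) 0 :=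
    ((Real.hasDerivAt_sin 0).const_mul s0).add ((Real.hasDerivAt_cos 0).const_mul t0)
  have h1 := (((hs.sub_const a).pow 2).mul (hs.add_const (2 * a))).add
    (((hs.sub_const a).mul (ht.sub_const b)).div_const 100)
  have h2 := h1.congr_deriv (g' := -t0 * (3 * s0 ^ 2 - 3 * a ^ 2 + (t0 - b) / 100)
    + s0 * ((s0 - a) / 100)) (by simp; ring)
  exact h2

theorem ba_crit_min {a b s0 t0 : ℝ} (h0 : s0 ^ 2 + t0 ^ 2 = 1)
    (h : ∀ s t : ℝ, s ^ 2 + t ^ 2 = 1 → LL a b s0 t0 ≤ LL a b s t) :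
    -t0 * (3 * s0 ^ 2 - 3 * a ^ 2 + (t0 - b) / 100) + s0 * ((s0 - a) / 100) = 0 := by
  have hm : IsLocalMin (fun x : ℝ => LL a b (s0 * Real.cos x - t0 * Real.sin x)
      (s0 * Real.sin x + t0 * Real.cos x)) 0 := by
    refine Filter.Eventually.of_forall fun x => ?_
    simpa using h _ _ (baA_circ s0 t0 x h0)
  exact hm.hasDerivAt_eq_zero (baA_der a b s0 t0)

theorem ba_crit_max {a b s0 t0 : ℝ} (h0 : s0 ^ 2 + t0 ^ 2 = 1)
    (h : ∀ s t : ℝ, s ^ 2 + t ^ 2 = 1 → LL a b s t ≤ LL a b s0 t0) :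
    -t0 * (3 * s0 ^ 2 - 3 * a ^ 2 + (t0 - b) / 100) + s0 * ((s0 - a) / 100) = 0 := by
  have hm : IsLocalMax (fun x : ℝ => LL a b (s0 * Real.cos x - t0 * Real.sin x)
      (s0 * Real.sin x + t0 * Real.cos x)) 0 := by
    refine Filter.Eventually.of_forall fun x => ?_
    simpa using h _ _ (baA_circ s0 t0 x h0)
  exact hm.hasDerivAt_eq_zero (baA_der a b s0 t0)

theorem ba_growth {f : ℝ × ℝ → ℝ} (hf : Continuous f) {v0 : ℝ × ℝ} (h0 : v0.1 ^ 2 + v0.2 ^ 2 = 1)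
    (hu : ∀ v : ℝ × ℝ, v.1 ^ 2 + v.2 ^ 2 = 1 → v ≠ v0 → f v < f v0) {η κ : ℝ} (hη : 0 < η) (hκ : 0 < κ)
    (hl : ∀ v : ℝ × ℝ, v.1 ^ 2 + v.2 ^ 2 = 1 → (v.1 - v0.1) ^ 2 + (v.2 - v0.2) ^ 2 < η →
      f v + κ * ((v.1 - v0.1) ^ 2 + (v.2 - v0.2) ^ 2) ≤ f v0) :
    ∃ κ' > 0, ∀ v : ℝ × ℝ, v.1 ^ 2 + v.2 ^ 2 = 1 →
      f v + κ' * ((v.1 - v0.1) ^ 2 + (v.2 - v0.2) ^ 2) ≤ f v0 := by
  set K : Set (ℝ × ℝ) := {v : ℝ × ℝ | v.1 ^ 2 + v.2 ^ 2 = 1} ∩
    {v : ℝ × ℝ | η ≤ (v.1 - v0.1) ^ 2 + (v.2 - v0.2) ^ 2} with hK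
  have hKc : IsCompact K := baA_compact.inter_right (isClosed_le continuous_const (by fun_prop))
  rcases K.eq_empty_or_nonempty with hKe | hKn
  · refine ⟨κ, hκ, fun v hv => ?_⟩
    by_cases hd : (v.1 - v0.1) ^ 2 + (v.2 - v0.2) ^ 2 < η
    · exact hl v hv hd
    · have : v ∈ K := ⟨hv, not_lt.mp hd⟩
      rw [hKe] at this
      exact absurd this (notMem_empty v)
  · obtain ⟨w, hw, hwm⟩ := hKc.exists_isMaxOn hKn hf.continuousOn
    have hw1 : f w < f v0 := by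
      refine hu w hw.1 ?_
      rintro rfl
      have := hw.2
      simp only [mem_setOf_eq, sub_self] at this
      norm_num at this
      linarith
    refine ⟨min κ ((f v0 - f w) / 4), lt_min hκ (by linarith), fun v hv => ?_⟩
    have hsq : 0 ≤ (v.1 - v0.1) ^ 2 + (v.2 - v0.2) ^ 2 := by positivity
    by_cases hd : (v.1 - v0.1) ^ 2 + (v.2 - v0.2) ^ 2 < η
    · have h1 := hl v hv hd
      have h2 := mul_le_mul_of_nonneg_right (min_le_left κ ((f v0 - f w) / 4)) hsq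
      linarith
    · have h1 : f v ≤ f w := hwm (show v ∈ K from ⟨hv, not_lt.mp hd⟩)
      have h2 := mul_le_mul_of_nonneg_right (min_le_right κ ((f v0 - f w) / 4)) hsq
      have h3 : (v.1 - v0.1) ^ 2 + (v.2 - v0.2) ^ 2 ≤ 4 := by
        nlinarith [sq_nonneg (v.1 + v0.1), sq_nonneg (v.2 + v0.2)]
      have h4 : (f v0 - f w) / 4 * ((v.1 - v0.1) ^ 2 + (v.2 - v0.2) ^ 2) ≤ (f v0 - f w) / 4 * 4 :=
        mul_le_mul_of_nonneg_left h3 (by linarith)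
      linarith

end Pool.Agent.CNX
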