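import Pool.Agent.CNX.BADefs

/-!
# CNX module BA_B: MIN case, far part

a ≥ 0, a^2 + b^2 ≤ 1, XB a b ≥ 4/10000 (so a < 0.6: for a ≥ 0.6 (1+a)^2 (1-2a) ≤ -0.5 and (1+a) b/100 ≥ -0.02). LL a b (-1) 0 = - XB a b (ring).
Let ψ(s) = (s - a)^2 (s + 2a) = s^3 - 3a^2 s + 2a^3. For s ≥ -0.9 on the circle LL a b s t ≥ LL a b (-1) 0 + 6/100000:
* s ∈ [-0.9, -0.5]: ψ(s) - ψ(-1) = (s+1)(s^2 - s + 1 - 3a^2) ≥ 0.1 · (1.75 - 1.08) = 0.067; the other terms: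
  (s-a)(t-b)/100 - (-1-a)(0-b)/100 ≥ -0.046 (|s-a| ≤ 1.5, |t-b| ≤ 2, |(1+a) b| ≤ 1.6).
* s ≥ -0.5, a ≤ 0.4: XB a b ≥ 0.378 ((1+a)^2(1-2a) is decreasing in a ≥ 0: 1 - 3a^2 - 2a^3 ≥ 0.392; minus (1+a) b /100 ≤ 0.014),
  ψ(s) ≥ -1/8 - small: ψ(s) + 1/8 ≥ 0 (ψ = s^3 - 3 a^2 s + 2 a^3: for s + 2a ≥ 0 it is ≥ 0; otherwise -0.5 ≤ s < -2a: ψ = -(s-a)^2 |s+2a|, and
  s^3 ≥ -1/8, -3a^2 s ≥ 0, 2a^3 ≥ 0), |(s-a)(t-b)|/100 ≤ 0.03. So LL ≥ -0.155 > -0.378 + 6/100000.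
* s ≥ -0.5, 0.4 ≤ a ≤ 0.6: s + 2a ≥ 0.3, with x = s - a: LL ≥ 0.3 x^2 - |x| · 2/100 ≥ -(1/3)/1000 = -1/3000 and -XB ≤ -4/10000: difference
  ≥ 4/10000 - 1/3000 = 2/30000 > 6/100000.
(|t| ≤ 1, |b| ≤ 1, |s| ≤ 1.)
-/

set_option autoImplicit false

namespace Pool.Agent.CNX

theorem bb_one {x y : ℝ} (h : x ^ 2 + y ^ 2 ≤ 1) : -1 ≤ y ∧ y ≤ 1 := by
  have h1 : y ^ 2 ≤ 1 := by nlinarith [sq_nonneg x]
  exact abs_le.1 ((sq_le_one_iff_abs_le_one y).1 h1)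

theorem bb_mul {x u c : ℝ} (hx : |x| ≤ c) (hu : |u| ≤ 2) : -(2 * c) ≤ x * u := by
  have h1 : |x * u| ≤ c * 2 := by
    rw [abs_mul]
    exact mul_le_mul hx hu (abs_nonneg _) ((abs_nonneg _).trans hx)
  have := (abs_le.1 h1).1
  linarith

theorem bb_a {a b : ℝ} (ha : 0 ≤ a) (hab : a ^ 2 + b ^ 2 ≤ 1) (hX : 4 / 10000 ≤ XB a b) : a ≤ 0.6 := by
  by_contra hcon
  push Not at hcon
  obtain ⟨hb1, hb2⟩ := bb_one hab
  have ha1 : a ≤ 1 := by nlinarith [sq_nonneg b]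
  have h2 : (0.36 : ℝ) ≤ a ^ 2 := by nlinarith
  have h3 : (0.2 : ℝ) ≤ a ^ 3 := by nlinarith
  have h4 : -2 ≤ (1 + a) * b := by nlinarith
  unfold XB at hX
  nlinarith

theorem bb_far {a b s t : ℝ} (ha : 0 ≤ a) (hab : a ^ 2 + b ^ 2 ≤ 1) (hX : 4 / 10000 ≤ XB a b)
    (hst : s ^ 2 + t ^ 2 = 1) (hs : -0.9 ≤ s) : LL a b (-1) 0 + 6 / 100000 ≤ LL a b s t := by
  have ha6 := bb_a ha hab hX
  obtain ⟨hb1, hb2⟩ := bb_one hab
  obtain ⟨ht1, ht2⟩ := bb_one hst.le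
  have hs1 : s ≤ 1 := by nlinarith [sq_nonneg t]
  have htb : |t - b| ≤ 2 := abs_le.2 ⟨by linarith, by linarith⟩
  have hL : LL a b (-1) 0 = - XB a b := by
    unfold LL XB
    ring
  rw [hL]
  by_cases hs5 : s ≤ -0.5
  · have hx : |s - a| ≤ 1.5 := abs_le.2 ⟨by linarith, by linarith⟩
    have h1 := bb_mul hx htb
    have h2 : (1 + a) * b ≤ 1.6 := by nlinarith
    have h3 : (1.75 : ℝ) ≤ s ^ 2 - s + 1 := by nlinarith
    have h4 : a ^ 2 ≤ 0.36 := by nlinarith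
    have h5 : (0.067 : ℝ) ≤ (s + 1) * (s ^ 2 - s + 1 - 3 * a ^ 2) := by nlinarith
    have h6 : LL a b s t - -XB a b = (s + 1) * (s ^ 2 - s + 1 - 3 * a ^ 2) + ((s - a) * (t - b) - (1 + a) * b) / 100 := by
      unfold LL XB
      ring
    linarith
  · push Not at hs5
    by_cases ha4 : a ≤ 0.4
    · have hx : |s - a| ≤ 1 := abs_le.2 ⟨by linarith, by linarith⟩
      have h1 := bb_mul hx htb
      have h2 : (1 + a) * b ≤ 1.4 := by nlinarith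
      have h4 : a ^ 2 ≤ 0.16 := by nlinarith
      have h4' : a ^ 3 ≤ 0.064 := by nlinarith
      have h5 : (0.378 : ℝ) ≤ XB a b := by
        unfold XB
        nlinarith
      have h6 : -(1 / 8 : ℝ) ≤ (s - a) ^ 2 * (s + 2 * a) := by
        by_cases hs0 : 0 ≤ s
        · have : 0 ≤ (s - a) ^ 2 * (s + 2 * a) := by positivity
          linarith
        · push Not at hs0
          have e : (s - a) ^ 2 * (s + 2 * a) = s ^ 3 + 3 * a ^ 2 * (-s) + 2 * a ^ 3 := by ring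
          have e1 : 0 ≤ 3 * a ^ 2 * (-s) := by
            have : 0 ≤ -s := by linarith
            positivity
          have e2 : 0 ≤ 2 * a ^ 3 := by positivity
          have e3 : -(1 / 8 : ℝ) ≤ s ^ 3 := by
            have e4 : (0:ℝ) ≤ s + 1 / 2 := by linarith
            nlinarith [mul_nonneg e4 (sq_nonneg (s - 1 / 2)), mul_nonneg e4 (sq_nonneg s)]
          linarith
      unfold LL
      linarith
    · push Not at ha4
      have hs2 : (0.3 : ℝ) ≤ s + 2 * a := by linarith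
      have h1 := bb_mul (le_refl |s - a|) htb
      have h2 : (0.3 : ℝ) * (s - a) ^ 2 ≤ (s - a) ^ 2 * (s + 2 * a) := by nlinarith [sq_nonneg (s - a)]
      have h3 : (s - a) ^ 2 = |s - a| ^ 2 := (sq_abs _).symm
      have h4 : -(1 / 3000 : ℝ) ≤ 0.3 * |s - a| ^ 2 - 2 * |s - a| / 100 := by
        nlinarith [sq_nonneg (|s - a| - 1 / 30)]
      rw [h3] at h2
      unfold LL
      rw [h3]
      linarith

end Pool.Agent.CNX
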