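import Pool.Agent.CNX.BA_A
import Pool.Agent.CNX.BA_B

/-!
# CNX module BA_C: MIN case, growth

`bc_near`: v0 = (s0, t0), v = (s, t) on the circle, s0, s < -0.9, 0 ≤ a ≤ 0.6, |b| ≤ 1, crit equation at v0. w = v - v0 = (x, y), x = s - s0, y = t - t0. Put
G1 = 3 s0^2 - 3 a^2 + (t0 - b)/100, G2 = (s0 - a)/100 (gradient of LL at v0), lam = s0 G1 + t0 G2. By the crit equation -t0 G1 + s0 G2 = 0 and |v0| = 1:
G1 = lam s0, G2 = lam t0, so G1 x + G2 y = lam (v0 · w) = -(lam/2) (x^2 + y^2) (because |v| = |v0| = 1). Exactly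
LL v - LL v0 = G1 x + G2 y + 3 s0 x^2 + x^3 + x y / 100. Bounds: |x| ≤ 0.1, t^2, t0^2 < 0.19; x (s + s0) = - y (t + t0), so
x^2 ≤ y^2 (t + t0)^2 / (s + s0)^2 ≤ y^2 · (4·0.19)/(1.8^2) ≤ 0.235 y^2, so x^2 ≤ 0.191 (x^2 + y^2). -lam ≥ |s0| (3 s0^2 - 1.08) - 0.0215,
so LL v - LL v0 ≥ |s0| ((1.5 s0^2 - 0.54) - 3 · 0.191) (x^2+y^2) - (0.011 + 0.0191 + 0.005) (x^2+y^2)
≥ (0.9 · 0.102 - 0.0351)(x^2+y^2) ≥ 0.05 (x^2 + y^2). (|x^3| ≤ 0.1 x^2, |x y| ≤ (x^2+y^2)/2. We only claim 0.02.)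
`bc_min`: v0 from ba_min. s0 < -0.9, otherwise bb_far contradicts minimality at (-1, 0). crit by ba_crit_min. For s < -0.9: bc_near. For s ≥ -0.9:
LL v ≥ LL (-1,0) + 6/100000 ≥ LL v0 + 6/100000 and |w|^2 ≤ 4. So κ = 1/100000 works. In terms of U: ba_LL.
-/

set_option autoImplicit false

namespace Pool.Agent.CNX

theorem bc_near {a b s0 t0 s t : ℝ} (ha : 0 ≤ a) (ha' : a ≤ 0.6) (hb : b ^ 2 ≤ 1) (h0 : s0 ^ 2 + t0 ^ 2 = 1)
    (h : s ^ 2 + t ^ 2 = 1) (hs0 : s0 < -0.9) (hs : s < -0.9)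
    (hc : -t0 * (3 * s0 ^ 2 - 3 * a ^ 2 + (t0 - b) / 100) + s0 * ((s0 - a) / 100) = 0) :
    LL a b s0 t0 + 0.02 * ((s - s0) ^ 2 + (t - t0) ^ 2) ≤ LL a b s t := by
  norm_num at ha' hs0 hs
  obtain ⟨x, hx⟩ : ∃ x, x = s - s0 := ⟨_, rfl⟩
  obtain ⟨y, hy⟩ : ∃ y, y = t - t0 := ⟨_, rfl⟩
  obtain ⟨G1, hG1⟩ : ∃ G1, G1 = 3 * s0 ^ 2 - 3 * a ^ 2 + (t0 - b) / 100 := ⟨_, rfl⟩
  obtain ⟨G2, hG2⟩ : ∃ G2, G2 = (s0 - a) / 100 := ⟨_, rfl⟩
  obtain ⟨lam, hlam⟩ : ∃ lam, lam = s0 * G1 + t0 * G2 := ⟨_, rfl⟩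
  obtain ⟨D, hD⟩ : ∃ D, D = x ^ 2 + y ^ 2 := ⟨_, rfl⟩
  have hc' : t0 * G1 = s0 * G2 := by rw [hG1, hG2]; linarith
  have e1 : G1 = lam * s0 := by
    rw [hlam]
    have : G1 * (s0 ^ 2 + t0 ^ 2) = G1 := by rw [h0]; ring
    calc G1 = G1 * (s0 ^ 2 + t0 ^ 2) := this.symm
      _ = s0 ^ 2 * G1 + t0 * (t0 * G1) := by ring
      _ = s0 ^ 2 * G1 + t0 * (s0 * G2) := by rw [hc']
      _ = (s0 * G1 + t0 * G2) * s0 := by ring
  have e2 : G2 = lam * t0 := by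
    rw [hlam]
    have : G2 * (s0 ^ 2 + t0 ^ 2) = G2 := by rw [h0]; ring
    calc G2 = G2 * (s0 ^ 2 + t0 ^ 2) := this.symm
      _ = s0 * (s0 * G2) + t0 ^ 2 * G2 := by ring
      _ = s0 * (t0 * G1) + t0 ^ 2 * G2 := by rw [hc']
      _ = (s0 * G1 + t0 * G2) * t0 := by ring
  have hst : s = s0 + x := by rw [hx]; ring
  have htt : t = t0 + y := by rw [hy]; ring
  have hdot : s0 * x + t0 * y = -D / 2 := by
    rw [hst, htt] at h
    rw [hD]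
    nlinarith
  have hdiff : LL a b s t - LL a b s0 t0 = -(lam / 2) * D + 3 * s0 * x ^ 2 + x ^ 3 + x * y / 100 := by
    have h1 : LL a b s t - LL a b s0 t0 = G1 * x + G2 * y + 3 * s0 * x ^ 2 + x ^ 3 + x * y / 100 := by
      rw [hG1, hG2, hst, htt]
      unfold LL
      ring
    have h2 : G1 * x + G2 * y = -(lam / 2) * D := by
      calc G1 * x + G2 * y = lam * (s0 * x + t0 * y) := by rw [e1, e2]; ring
        _ = -(lam / 2) * D := by rw [hdot]; ring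
    rw [h1, h2]
  -- bounds
  have hs0' : -1 ≤ s0 := by nlinarith [sq_nonneg t0]
  have hs' : -1 ≤ s := by nlinarith [sq_nonneg t]
  have ht0 : t0 ^ 2 ≤ 0.19 := by norm_num; nlinarith
  have ht : t ^ 2 ≤ 0.19 := by norm_num; nlinarith
  have hkey : x * (s + s0) = -y * (t + t0) := by rw [hx, hy]; nlinarith
  have hx2 : x ^ 2 * 3.24 ≤ 0.76 * y ^ 2 := by
    have h1 : x ^ 2 * (s + s0) ^ 2 = y ^ 2 * (t + t0) ^ 2 := by
      calc x ^ 2 * (s + s0) ^ 2 = (x * (s + s0)) ^ 2 := by ring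
        _ = (-y * (t + t0)) ^ 2 := by rw [hkey]
        _ = y ^ 2 * (t + t0) ^ 2 := by ring
    have h2 : (3.24 : ℝ) ≤ (s + s0) ^ 2 := by norm_num; nlinarith
    have h3 : (t + t0) ^ 2 ≤ 0.76 := by nlinarith [sq_nonneg (t - t0)]
    calc x ^ 2 * 3.24 ≤ x ^ 2 * (s + s0) ^ 2 := mul_le_mul_of_nonneg_left h2 (sq_nonneg x)
      _ = y ^ 2 * (t + t0) ^ 2 := h1
      _ ≤ y ^ 2 * 0.76 := mul_le_mul_of_nonneg_left h3 (sq_nonneg y)
      _ = 0.76 * y ^ 2 := by ring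
  have hxD : x ^ 2 ≤ 0.191 * D := by rw [hD]; norm_num at hx2 ⊢; nlinarith [sq_nonneg x, sq_nonneg y]
  have hD0 : 0 ≤ D := by rw [hD]; positivity
  have hxa : -0.1 ≤ x := by rw [hx]; norm_num; linarith
  have hxb : x ≤ 0.1 := by rw [hx]; norm_num; linarith
  have hx3 : -(0.0191 * D) ≤ x ^ 3 := by
    have : x ^ 3 ≥ -0.1 * x ^ 2 := by nlinarith [sq_nonneg x]
    norm_num at this hxD ⊢; linarith
  have hxy : -(D / 200) ≤ x * y / 100 := by rw [hD]; nlinarith [sq_nonneg (x + y)]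
  have hb1 : -1 ≤ b := by nlinarith
  have hb2 : b ≤ 1 := by nlinarith
  have ht0a : -0.436 ≤ t0 := by norm_num at ht0 ⊢; nlinarith
  have ht0b : t0 ≤ 0.436 := by norm_num at ht0 ⊢; nlinarith
  have hlam2 : -s0 * (3 * s0 ^ 2 - 1.08) - 0.0215 ≤ -lam := by
    have h1 : -lam = -s0 * (3 * s0 ^ 2 - 3 * a ^ 2) - s0 * (t0 - b) / 100 - t0 * (s0 - a) / 100 := by
      rw [hlam, hG1, hG2]; ring
    have h2 : a ^ 2 ≤ 0.36 := by norm_num; nlinarith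
    have h3 : -s0 * (3 * s0 ^ 2 - 1.08) ≤ -s0 * (3 * s0 ^ 2 - 3 * a ^ 2) := by
      apply mul_le_mul_of_nonneg_left _ (by linarith)
      norm_num at h2 ⊢; linarith
    have h4 : -1.44 ≤ -s0 * (t0 - b) := by
      have : -1.436 ≤ t0 - b := by norm_num at ht0a ⊢; linarith
      norm_num at this ⊢
      nlinarith
    have h5 : -0.7 ≤ -(t0 * (s0 - a)) := by
      have h6 : t0 * (s0 - a) ≤ 0.7 := by
        have h7 : 0 ≤ a - s0 := by linarith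
        have h8 : a - s0 ≤ 1.6 := by norm_num; linarith
        have h9 : t0 * (s0 - a) = (-t0) * (a - s0) := by ring
        rw [h9]
        have h10 : -t0 ≤ 0.436 := by linarith
        calc (-t0) * (a - s0) ≤ 0.436 * (a - s0) := mul_le_mul_of_nonneg_right h10 h7
          _ ≤ 0.436 * 1.6 := by apply mul_le_mul_of_nonneg_left h8; norm_num
          _ ≤ 0.7 := by norm_num
      linarith
    rw [h1]
    norm_num at h3 h4 h5 ⊢
    linarith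
  -- main
  have hmain : 0.02 * D ≤ -(lam / 2) * D + 3 * s0 * x ^ 2 + x ^ 3 + x * y / 100 := by
    have h1 : (-s0 * (3 * s0 ^ 2 - 1.08) - 0.0215) * D ≤ -lam * D := mul_le_mul_of_nonneg_right hlam2 hD0
    have h2 : 3 * s0 * (0.191 * D) ≤ 3 * s0 * x ^ 2 := by
      apply mul_le_mul_of_nonpos_left hxD; linarith
    have h3 : 0.0918 ≤ -s0 * (1.5 * s0 ^ 2 - 1.113) := by
      have h4 : (0.81 : ℝ) ≤ s0 ^ 2 := by norm_num; nlinarith
      have h5 : (0.102 : ℝ) ≤ 1.5 * s0 ^ 2 - 1.113 := by norm_num at h4 ⊢; linarith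
      have h6 : (0.9 : ℝ) ≤ -s0 := by norm_num; linarith
      calc (0.0918 : ℝ) = 0.9 * 0.102 := by norm_num
        _ ≤ -s0 * (1.5 * s0 ^ 2 - 1.113) := mul_le_mul h6 h5 (by norm_num) (by linarith)
    have h7 : 0.0918 * D ≤ -s0 * (1.5 * s0 ^ 2 - 1.113) * D := mul_le_mul_of_nonneg_right h3 hD0
    norm_num at h1 h2 h7 hx3 ⊢
    nlinarith
  rw [← hx, ← hy, ← hD]
  linarith

theorem bc_min {a b : ℝ} (ha : 0 ≤ a) (hab : a ^ 2 + b ^ 2 ≤ 1) (hX : 4 / 10000 ≤ XB a b) : GMin (gU a b) := by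
  obtain ⟨s0, t0, h0, hm⟩ := ba_min a b
  have ha' : a ≤ 0.6 := bb_a ha hab hX
  have hb : b ^ 2 ≤ 1 := by nlinarith [sq_nonneg a]
  have hs0 : s0 < -0.9 := by
    by_contra hcon
    have h1 := bb_far ha hab hX h0 (not_lt.mp hcon)
    have h2 := hm (-1) 0 (by norm_num)
    linarith
  have hc := ba_crit_min h0 hm
  refine ⟨s0, t0, h0, 1 / 100000, by norm_num, ?_⟩
  intro s t hst
  have e0 := ba_LL a b s0 t0
  have e := ba_LL a b s t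
  have hD0 : 0 ≤ (s - s0) ^ 2 + (t - t0) ^ 2 := by positivity
  have key : LL a b s0 t0 + 1 / 100000 * ((s - s0) ^ 2 + (t - t0) ^ 2) ≤ LL a b s t := by
    by_cases hs : s < -0.9
    · have h1 := bc_near ha ha' hb h0 hst hs0 hs hc
      norm_num at h1 ⊢
      linarith
    · have h1 := bb_far ha hab hX hst (not_lt.mp hs)
      have h2 := hm (-1) 0 (by norm_num)
      have h3 : (s - s0) ^ 2 + (t - t0) ^ 2 ≤ 4 := by
        nlinarith [sq_nonneg (s + s0), sq_nonneg (t + t0)]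
      linarith
  linarith

end Pool.Agent.CNX
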