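import Pool.Agent.CNX.BADefs

/-!
# CNX module BA_D: MAX case, the part s ≥ a

a ≥ 0, a^2 + b^2 ≤ 1, XB a b ≤ 4/10000. `bd_a`: a ≥ 0.49: otherwise (1+a)^2 (1-2a) = 1 - 3a^2 - 2a^3 ≥ 0.0444 > 0.0004 + 0.02 (|(1+a) b| /100 ≤ 0.0149).
`bd_far`: τ ≥ 0, τ^2 = 1 - a^2 (so |b| ≤ τ). For s ≥ a on the circle: LL a b s t < LL a b (-a) (-τ) = 4 a^3 + 2 a (τ + b)/100.
* a ≤ 0.6: τ ≥ 0.8. With ψ(s) = (s-a)^2 (s+2a): ψ(1) - ψ(s) = (1-s)(1 + s + s^2 - 3a^2) ≥ 0.88 (1-s) (1 + s + s^2 ≥ 1 + a + a^2 and 1 + a - 2 a^2 ≥ 0.88 on [0.49, 0.6]).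
  (s-a)(t-b) = (s-a) t - (1-a) b + (1-s) b ≤ 0.51 |t| - (1-a) b + (1-s). 1 - s ≥ t^2/2. So
  LL ≤ ψ(1) - (1-a) b/100 - 0.87 (1-s) + 0.0051 |t| ≤ ψ(1) - (1-a) b/100 - 0.435 t^2 + 0.0051 |t| ≤ ψ(1) - (1-a) b/100 + 0.00002.
  LL(-a,-τ) - ψ(1) + (1-a) b/100 = - XB a b + 2 a τ/100 (ring: 4a^3 - (1-a)^2(1+2a) = -(1+a)^2 (1-2a)) ≥ -0.0004 + 0.0078 > 0.00002.
* a ≥ 0.6: ψ(s) ≤ ψ(1) = (1-a)^2 (1+2a) ≤ 0.352, (s-a)(t-b)/100 ≤ 0.008; LL(-a,-τ) ≥ 4 · 0.216 = 0.864 (τ + b ≥ 0).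
-/

set_option autoImplicit false

namespace Pool.Agent.CNX

theorem bd_a {a b : ℝ} (ha : 0 ≤ a) (hab : a ^ 2 + b ^ 2 ≤ 1) (hX : XB a b ≤ 4 / 10000) : 0.49 ≤ a := by
  by_contra h
  push Not at h
  have hb : b ≤ 1 := by nlinarith [sq_nonneg a]
  unfold XB at hX
  have h1 : (1 + a) * b ≤ (1 + a) * 1 := mul_le_mul_of_nonneg_left hb (by linarith)
  have h2 : a ^ 2 ≤ 0.49 ^ 2 := pow_le_pow_left₀ ha h.le 2
  have h3 : a ^ 3 ≤ 0.49 ^ 3 := pow_le_pow_left₀ ha h.le 3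
  have e : (1 + a) ^ 2 * (1 - 2 * a) = 1 - 3 * a ^ 2 - 2 * a ^ 3 := by ring
  rw [e] at hX
  norm_num at h2 h3
  linarith

theorem bd_far {a b s t τ : ℝ} (ha : 0 ≤ a) (hab : a ^ 2 + b ^ 2 ≤ 1) (hX : XB a b ≤ 4 / 10000) (hτ : 0 ≤ τ)
    (hτ2 : τ ^ 2 = 1 - a ^ 2) (hst : s ^ 2 + t ^ 2 = 1) (hs : a ≤ s) : LL a b s t < LL a b (-a) (-τ) := by
  have ha49 := bd_a ha hab hX
  have hs1 : s ≤ 1 := by nlinarith [sq_nonneg t]
  have ha1 : a ≤ 1 := hs.trans hs1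
  have hbτ : b ^ 2 ≤ τ ^ 2 := by linarith
  have hb := abs_le_of_sq_le_sq' hbτ hτ
  have hb1 : b ≤ 1 := by nlinarith [sq_nonneg a]
  have hb1' : -1 ≤ b := by nlinarith [sq_nonneg a]
  have ht1 : t ≤ 1 := by nlinarith [sq_nonneg s]
  have hL : LL a b (-a) (-τ) = 4 * a ^ 3 + 2 * a * (τ + b) / 100 := by
    unfold LL
    ring
  have hψ : (s - a) ^ 2 * (s + 2 * a) = (1 - a) ^ 2 * (1 + 2 * a) - (1 - s) * (1 + s + s ^ 2 - 3 * a ^ 2) := by ring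
  rcases le_total a 0.6 with h | h
  · have hτ8 : 0.8 ≤ τ := by
      have : (0.8 : ℝ) ^ 2 ≤ τ ^ 2 := by
        rw [hτ2]
        have : a ^ 2 ≤ 0.6 ^ 2 := pow_le_pow_left₀ ha h 2
        norm_num at this ⊢
        linarith
      exact (abs_le_of_sq_le_sq' this hτ).2
    have h88 : 0.88 ≤ 1 + s + s ^ 2 - 3 * a ^ 2 := by
      have h1 : a ^ 2 ≤ s ^ 2 := pow_le_pow_left₀ ha hs 2
      nlinarith
    have k1 : 0.88 * (1 - s) ≤ (1 - s) * (1 + s + s ^ 2 - 3 * a ^ 2) := by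
      rw [mul_comm 0.88]
      exact mul_le_mul_of_nonneg_left h88 (by linarith)
    have k2 : (s - a) * (t - b) ≤ 0.51 * |t| - (1 - a) * b + (1 - s) := by
      have e : (s - a) * (t - b) = (s - a) * t - (1 - a) * b + (1 - s) * b := by ring
      have g1 : (s - a) * t ≤ (s - a) * |t| := mul_le_mul_of_nonneg_left (le_abs_self t) (by linarith)
      have g2 : (s - a) * |t| ≤ 0.51 * |t| := mul_le_mul_of_nonneg_right (by linarith) (abs_nonneg t)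
      have g3 : (1 - s) * b ≤ (1 - s) * 1 := mul_le_mul_of_nonneg_left hb1 (by linarith)
      rw [e]
      linarith
    have k3 : t ^ 2 / 2 ≤ 1 - s := by nlinarith
    have k4 : 0.0051 * |t| - 0.435 * t ^ 2 ≤ 0.00002 := by
      have : t ^ 2 = |t| ^ 2 := (sq_abs t).symm
      rw [this]
      nlinarith [sq_nonneg (|t| - 0.0051 / 0.87)]
    have k5 : 0.392 ≤ a * τ := by nlinarith
    rw [hL]
    unfold LL
    rw [hψ]
    unfold XB at hX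
    nlinarith
  · have k1 : 0 ≤ (1 - s) * (1 + s + s ^ 2 - 3 * a ^ 2) := by
      refine mul_nonneg (by linarith) ?_
      have h1 : a ^ 2 ≤ s ^ 2 := pow_le_pow_left₀ ha hs 2
      nlinarith
    have k2 : (1 - a) ^ 2 * (1 + 2 * a) ≤ 0.352 := by nlinarith [sq_nonneg (a - 0.6), mul_nonneg ha (sub_nonneg.2 ha1)]
    have k3 : (s - a) * (t - b) ≤ 0.4 * 2 := by
      have g1 : t - b ≤ 2 := by linarith
      have g2 : (s - a) * (t - b) ≤ (s - a) * 2 := mul_le_mul_of_nonneg_left g1 (by linarith)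
      linarith
    have k4 : (0.6 : ℝ) ^ 3 ≤ a ^ 3 := pow_le_pow_left₀ (by norm_num) h 3
    have k5 : 0 ≤ 2 * a * (τ + b) / 100 := by
      have : 0 ≤ τ + b := by linarith [hb.1]
      positivity
    rw [hL]
    unfold LL
    rw [hψ]
    norm_num at k4
    linarith

end Pool.Agent.CNX
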