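import Pool.Agent.CNX.BA_A
import Pool.Agent.CNX.BA_D

/-!
# CNX module BA_E: MAX case, growth

`be_loc`: (s0, t0) maximum point, a ≥ 0.49. By bd_far s0 < a. If t0 > 0: LL(s0,-t0) - LL(s0,t0) = 2 t0 (a - s0)/100 > 0, contradiction: t0 ≤ 0. If t0 = 0 then
s0 = -1 (s0 < a ≤ 1; s0^2 = 1) and the crit equation reads (1 + a)/100 = 0: contradiction. So t0 < 0. Let τ0 = -t0 > 0. Crit: τ0 (3 s0^2 - 3 a^2 + (t0 - b)/100) + s0 (s0 - a)/100 = 0.
If -0.7 a ≤ s0 < a: τ0^2 = 1 - s0^2 ≥ 1 - a^2 ≥ b^2, so t0 - b ≤ 0, 3 s0^2 - 3 a^2 < 0 (strict because -0.7a ≤ s0 < a, a > 0). If s0 ≥ 0: s0 (s0 - a) ≤ 0 and the first term is < 0: contradiction.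
If s0 < 0: 3 s0^2 - 3a^2 ≤ -1.53 a^2, τ0 ≥ 0.7 (s0^2 ≤ 0.49), first term ≤ -1.07 a^2; s0 (s0 - a)/100 ≤ 0.7 · 1.7 a^2/100 ≤ 0.012 a^2: contradiction. So s0 < -0.7 a.
`be_tan`: for (s,t) on the circle with t ≤ 0, s ≤ a: LL(s,t) ≤ LL(s0,t0) + (s-s0)^2 (2 s0 + s): exact identity
LL(s,t) - LL(s0,t0) = (3 s0^2 - 3a^2)(s-s0) + (s-s0)^2 (2 s0 + s) + [(s-a)(t-b) - (s0-a)(t0-b)]/100, and with the crit equation (divide by τ0)
3 s0^2 - 3a^2 = -(t0-b)/100 - s0 (s0-a)/(100 τ0); the rest is (1/100)[(s-a)(t - t0 - (s0/τ0)(s-s0)) + (s-s0)^2 s0/τ0] ≤ 0 because s ≤ a, s0 < 0 and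
t ≥ t0 + (s0/τ0)(s - s0) (t = -τ, t0 = -τ0: equivalent to s s0 + τ τ0 ≤ 1).
`be_max`: GMax: maximum point v0 (ba_max), be_loc. 2 s0 + s ≤ -1.4 a + a = -0.4a < 0 for s ≤ a. Unique maximum: v ≠ v0: s ≥ a: LL v < LL(-a,-τ) ≤ LL v0 (bd_far, τ = sqrt(1-a^2));
s < a, t > 0: LL(s,t) < LL(s,-t) ≤ LL v0; s < a, t ≤ 0: be_tan, strict if s ≠ s0; if s = s0 then t = t0. Local growth with η = t0^2/4 (and t < 0, s < a near v0, i.e. also η ≤ (a-s0)^2): for v on the circle with |v - v0|^2 < η: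
|t - t0| < |t0|/2 so t < 0, |t + t0| ≥ |t0|, (t-t0)(t+t0) = -(s-s0)(s+s0), so (t-t0)^2 ≤ 4 (s-s0)^2/t0^2, |v-v0|^2 ≤ (1 + 4/t0^2)(s-s0)^2, and
LL v ≤ LL v0 - 0.4 a (s-s0)^2. ba_growth, then ba_LL.
-/

set_option autoImplicit false

namespace Pool.Agent.CNX

theorem be_loc {a b s0 t0 : ℝ} (ha : 0 ≤ a) (hab : a ^ 2 + b ^ 2 ≤ 1) (hX : XB a b ≤ 4 / 10000)
    (h0 : s0 ^ 2 + t0 ^ 2 = 1) (hm : ∀ s t : ℝ, s ^ 2 + t ^ 2 = 1 → LL a b s t ≤ LL a b s0 t0) :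
    t0 < 0 ∧ s0 < -0.7 * a := by
  have hc := ba_crit_max h0 hm
  have ha49 := bd_a ha hab hX
  have ha1 : a ≤ 1 := by nlinarith [sq_nonneg b]
  set τ := Real.sqrt (1 - a ^ 2) with hτ
  have hτ0 : 0 ≤ τ := Real.sqrt_nonneg _
  have hτ2 : τ ^ 2 = 1 - a ^ 2 := Real.sq_sqrt (by nlinarith)
  have hmax := hm (-a) (-τ) (by nlinarith)
  have hsa : s0 < a := by
    by_contra h
    push Not at h
    have := bd_far ha hab hX hτ0 hτ2 h0 h
    linarith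
  have ht0 : t0 ≤ 0 := by
    by_contra h
    push Not at h
    have h1 := hm s0 (-t0) (by nlinarith)
    have h2 : LL a b s0 (-t0) - LL a b s0 t0 = 2 * (t0 * (a - s0)) / 100 := by unfold LL; ring
    have h3 : 0 < t0 * (a - s0) := mul_pos h (by linarith)
    linarith
  have ht0' : t0 ≠ 0 := by
    intro h
    rw [h] at h0 hc
    have h1 : (s0 - 1) * (s0 + 1) = 0 := by nlinarith
    rcases mul_eq_zero.mp h1 with h2 | h2
    · linarith
    · have : s0 = -1 := by linarith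
      rw [this] at hc
      linarith
  have htn : t0 < 0 := lt_of_le_of_ne ht0 ht0'
  refine ⟨htn, ?_⟩
  by_contra hge
  push Not at hge
  have hsq : s0 ^ 2 < a ^ 2 ∨ s0 ^ 2 ≤ a ^ 2 := by
    right; nlinarith
  have hs2 : s0 ^ 2 ≤ a ^ 2 := by nlinarith
  have htb : t0 ≤ b := by
    by_contra h
    push Not at h
    nlinarith
  rcases le_or_gt 0 s0 with hs | hs
  · have h1 : 3 * s0 ^ 2 - 3 * a ^ 2 + (t0 - b) / 100 < 0 := by nlinarith
    have h2 : -t0 * (3 * s0 ^ 2 - 3 * a ^ 2 + (t0 - b) / 100) < 0 := mul_neg_of_pos_of_neg (by linarith) h1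
    have h3 : s0 * ((s0 - a) / 100) ≤ 0 := mul_nonpos_of_nonneg_of_nonpos hs (by linarith)
    linarith
  · have h1 : s0 ^ 2 ≤ 0.49 * a ^ 2 := by nlinarith
    have h2 : 3 * s0 ^ 2 - 3 * a ^ 2 + (t0 - b) / 100 ≤ -1.53 * a ^ 2 := by linarith
    have h3 : 0.7 ≤ -t0 := by nlinarith
    have h4 : -t0 * (3 * s0 ^ 2 - 3 * a ^ 2 + (t0 - b) / 100) ≤ 0.7 * (-1.53 * a ^ 2) := by
      have h5 : 0 ≤ 1.53 * a ^ 2 := by positivity
      nlinarith
    have h6 : s0 * ((s0 - a) / 100) ≤ 0.02 * a ^ 2 := by nlinarith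
    have h7 : 0 < a ^ 2 := by positivity
    linarith

theorem be_tan {a b s0 t0 s t : ℝ} (ha : 0 ≤ a) (h0 : s0 ^ 2 + t0 ^ 2 = 1) (h : s ^ 2 + t ^ 2 = 1) (ht0 : t0 < 0)
    (hs0 : s0 ≤ 0) (ht : t ≤ 0) (hs : s ≤ a)
    (hc : -t0 * (3 * s0 ^ 2 - 3 * a ^ 2 + (t0 - b) / 100) + s0 * ((s0 - a) / 100) = 0) :
    LL a b s t ≤ LL a b s0 t0 + (s - s0) ^ 2 * (2 * s0 + s) := by
  have key : 100 * (-t0) * (LL a b s t - LL a b s0 t0 - (s - s0) ^ 2 * (2 * s0 + s))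
      = (s - a) * (1 - t0 * t - s * s0) + s0 * (s - s0) ^ 2 := by
    unfold LL
    have e1 : (s - s0) * (100 * (-t0 * (3 * s0 ^ 2 - 3 * a ^ 2 + (t0 - b) / 100) + s0 * ((s0 - a) / 100))) = 0 := by
      rw [hc]; ring
    have e2 : (s - a) * (s0 ^ 2 + t0 ^ 2 - 1) = 0 := by rw [h0]; ring
    linear_combination e1 + e2
  have h1 : 0 ≤ 1 - t0 * t - s * s0 := by nlinarith [sq_nonneg (t0 - t), sq_nonneg (s - s0)]
  have h2 : (s - a) * (1 - t0 * t - s * s0) ≤ 0 := mul_nonpos_of_nonpos_of_nonneg (by linarith) h1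
  have h3 : s0 * (s - s0) ^ 2 ≤ 0 := mul_nonpos_of_nonpos_of_nonneg hs0 (sq_nonneg _)
  by_contra hcon
  push Not at hcon
  have h4 : 0 < 100 * (-t0) * (LL a b s t - LL a b s0 t0 - (s - s0) ^ 2 * (2 * s0 + s)) :=
    mul_pos (by linarith) (by linarith)
  linarith

theorem be_max {a b : ℝ} (ha : 0 ≤ a) (hab : a ^ 2 + b ^ 2 ≤ 1) (hX : XB a b ≤ 4 / 10000) : GMax (gU a b) := by
  obtain ⟨s0, t0, h0, hm⟩ := ba_max a b
  have hc := ba_crit_max h0 hm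
  obtain ⟨ht0, hs0⟩ := be_loc ha hab hX h0 hm
  have ha49 := bd_a ha hab hX
  have ha1 : a ≤ 1 := by nlinarith [sq_nonneg b]
  set τ := Real.sqrt (1 - a ^ 2) with hτ
  have hτ0 : 0 ≤ τ := Real.sqrt_nonneg _
  have hτ2 : τ ^ 2 = 1 - a ^ 2 := Real.sq_sqrt (by nlinarith)
  have hmax := hm (-a) (-τ) (by nlinarith)
  have hcont : Continuous (fun v : ℝ × ℝ => LL a b v.1 v.2) := by unfold LL; fun_prop
  have htan : ∀ s t : ℝ, s ^ 2 + t ^ 2 = 1 → t ≤ 0 → s ≤ a → LL a b s t + 0.4 * a * (s - s0) ^ 2 ≤ LL a b s0 t0 := by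
    intro s t h ht hs
    have h1 := be_tan ha h0 h ht0 (by linarith) ht hs hc
    have h2 : (s - s0) ^ 2 * (2 * s0 + s) ≤ (s - s0) ^ 2 * (-0.4 * a) :=
      mul_le_mul_of_nonneg_left (by linarith) (sq_nonneg _)
    linarith
  have hu : ∀ v : ℝ × ℝ, v.1 ^ 2 + v.2 ^ 2 = 1 → v ≠ (s0, t0) → LL a b v.1 v.2 < LL a b s0 t0 := by
    rintro ⟨s, t⟩ h hne
    simp only at h ⊢
    rcases le_or_gt a s with hs | hs
    · exact lt_of_lt_of_le (bd_far ha hab hX hτ0 hτ2 h hs) hmax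
    · rcases lt_or_ge 0 t with ht | ht
      · have h1 := hm s (-t) (by nlinarith)
        have h2 : LL a b s (-t) - LL a b s t = 2 * (t * (a - s)) / 100 := by unfold LL; ring
        have h3 : 0 < t * (a - s) := mul_pos ht (by linarith)
        linarith
      · have h1 := htan s t h ht hs.le
        have hss : s ≠ s0 := by
          intro h2
          apply hne
          have h3 : (t - t0) * (t + t0) = 0 := by rw [h2] at h; nlinarith
          rcases mul_eq_zero.mp h3 with h4 | h4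
          · rw [h2]; congr 1; linarith
          · exfalso; linarith
        have h4 : 0 < (s - s0) ^ 2 := by
          have : s - s0 ≠ 0 := sub_ne_zero.mpr hss
          positivity
        have h5 : 0 < 0.4 * a * (s - s0) ^ 2 := by positivity
        linarith
  have hη : 0 < min (t0 ^ 2 / 4) ((a - s0) ^ 2) := by
    refine lt_min ?_ ?_
    · have : t0 ≠ 0 := ht0.ne
      positivity
    · have : a - s0 ≠ 0 := by
        have : 0 < a - s0 := by linarith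
        exact this.ne'
      positivity
  have hκ : 0 < 0.4 * a / (1 + 4 / t0 ^ 2) := by
    have : t0 ≠ 0 := ht0.ne
    positivity
  obtain ⟨κ', hκ', hg⟩ := ba_growth hcont (v0 := (s0, t0)) h0 hu hη hκ (by
    rintro ⟨s, t⟩ h hlt
    simp only at h hlt ⊢
    have hl1 : (s - s0) ^ 2 + (t - t0) ^ 2 < t0 ^ 2 / 4 := lt_of_lt_of_le hlt (min_le_left _ _)
    have hl2 : (s - s0) ^ 2 + (t - t0) ^ 2 < (a - s0) ^ 2 := lt_of_lt_of_le hlt (min_le_right _ _)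
    have ht : t ≤ t0 / 2 := by
      by_contra hcon
      push Not at hcon
      nlinarith [sq_nonneg (s - s0)]
    have hs : s ≤ a := by
      by_contra hcon
      push Not at hcon
      nlinarith [sq_nonneg (t - t0)]
    have h1 := htan s t h (by linarith) hs
    have h2 : (t - t0) ^ 2 * t0 ^ 2 ≤ 4 * (s - s0) ^ 2 := by
      have e1 : (t - t0) * (t + t0) = -((s - s0) * (s + s0)) := by nlinarith
      have e2 : (t - t0) ^ 2 * (t + t0) ^ 2 = (s - s0) ^ 2 * (s + s0) ^ 2 := by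
        have : ((t - t0) * (t + t0)) ^ 2 = (-((s - s0) * (s + s0))) ^ 2 := by rw [e1]
        nlinarith
      have e3 : t0 ^ 2 ≤ (t + t0) ^ 2 := by nlinarith
      have e4 : (s + s0) ^ 2 ≤ 4 := by nlinarith [sq_nonneg (s - s0), sq_nonneg t, sq_nonneg t0]
      have e5 : (t - t0) ^ 2 * t0 ^ 2 ≤ (t - t0) ^ 2 * (t + t0) ^ 2 := mul_le_mul_of_nonneg_left e3 (sq_nonneg _)
      have e6 : (s - s0) ^ 2 * (s + s0) ^ 2 ≤ (s - s0) ^ 2 * 4 := mul_le_mul_of_nonneg_left e4 (sq_nonneg _)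
      linarith
    have ht2 : 0 < t0 ^ 2 := by
      have : t0 ≠ 0 := ht0.ne
      positivity
    have h3 : (t - t0) ^ 2 ≤ 4 / t0 ^ 2 * (s - s0) ^ 2 := by
      rw [div_mul_eq_mul_div, le_div_iff₀ ht2]
      exact h2
    have h4 : (s - s0) ^ 2 + (t - t0) ^ 2 ≤ (1 + 4 / t0 ^ 2) * (s - s0) ^ 2 := by linarith
    have h5 : 0 < 1 + 4 / t0 ^ 2 := by positivity
    have h6 : 0.4 * a / (1 + 4 / t0 ^ 2) * ((s - s0) ^ 2 + (t - t0) ^ 2) ≤ 0.4 * a * (s - s0) ^ 2 := by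
      rw [div_mul_eq_mul_div, div_le_iff₀ h5]
      have : 0 ≤ 0.4 * a := by linarith
      nlinarith [mul_le_mul_of_nonneg_left h4 this]
    linarith)
  refine ⟨s0, t0, h0, κ', hκ', ?_⟩
  intro s t h
  have h1 := hg (s, t) h
  simp only at h1
  rw [ba_LL, ba_LL a b s0 t0] at h1
  linarith

end Pool.Agent.CNX
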