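import Pool.Agent.CNX.BA_C
import Pool.Agent.CNX.BA_E

/-!
# CNX module BA_F: symmetry and the two compact sets

U (-s) t = - U s t. `bf_sym1`: GMin (p1, -p2) → GMax (p1, p2)... precisely: U(-s,t) - p1 (-s) - p2 t = -(U(s,t) - p1 s - (-p2) t), so
GMin (p.1, -p.2) → GMax p and GMax (p.1, -p.2) → GMin p (replace s0 by -s0). gU (-a) b = ((gU a b).1, -(gU a b).2).
`base`: K1 = gU '' {(a,b) | a^2+b^2 ≤ 1, 0 ≤ a, 4/10000 ≤ XB a b} ∪ gU '' {(a,b) | a^2+b^2 ≤ 1, a ≤ 0, XB (-a) b ≤ 4/10000},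
K2 = gU '' {.., 0 ≤ a, XB a b ≤ 4/10000} ∪ gU '' {.., a ≤ 0, 4/10000 ≤ XB (-a) b}: images of compact sets (closed bounded in ℝ × ℝ) under continuous maps. Covering: le_total.
bc_min, be_max, bf_sym. ((3 s^2 + t/100, s/100) = gU s t.)
-/

set_option autoImplicit false

open Metric Set Filter Topology

namespace Pool.Agent.CNX

theorem bf_sym1 {p : ℝ × ℝ} (h : GMin (p.1, -p.2)) : GMax p := by
  obtain ⟨s0, t0, h0, κ, hκ, H⟩ := h
  refine ⟨-s0, t0, by nlinarith, κ, hκ, fun s t hst => ?_⟩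
  have h1 := H (-s) t (by nlinarith)
  unfold U at h1 ⊢
  nlinarith

theorem bf_sym2 {p : ℝ × ℝ} (h : GMax (p.1, -p.2)) : GMin p := by
  obtain ⟨s0, t0, h0, κ, hκ, H⟩ := h
  refine ⟨-s0, t0, by nlinarith, κ, hκ, fun s t hst => ?_⟩
  have h1 := H (-s) t (by nlinarith)
  unfold U at h1 ⊢
  nlinarith

theorem bf_gU (a b : ℝ) : ((gU a b).1, -(gU a b).2) = gU (-a) b := by
  unfold gU
  refine Prod.ext ?_ ?_
  · show 3 * a ^ 2 + b / 100 = 3 * (-a) ^ 2 + b / 100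
    ring
  · show -(a / 100) = -a / 100
    ring

theorem bf_cont : Continuous (fun q : ℝ × ℝ => gU q.1 q.2) := by
  unfold gU
  fun_prop

theorem bf_compact {S : Set (ℝ × ℝ)} (hS : IsClosed S) : IsCompact ((fun q : ℝ × ℝ => gU q.1 q.2) '' ({q | q.1 ^ 2 + q.2 ^ 2 ≤ 1} ∩ S)) := by
  refine IsCompact.image ?_ bf_cont
  refine IsCompact.inter_right ?_ hS
  refine Metric.isCompact_of_isClosed_isBounded ?_ ?_
  · exact isClosed_le (by fun_prop) continuous_const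
  · refine (Metric.isBounded_closedBall (x := (0 : ℝ × ℝ)) (r := 1)).subset ?_
    intro q hq
    have hq' : q.1 ^ 2 + q.2 ^ 2 ≤ 1 := hq
    rw [mem_closedBall_zero_iff, Prod.norm_def, max_le_iff, Real.norm_eq_abs, Real.norm_eq_abs, abs_le, abs_le]
    refine ⟨⟨?_, ?_⟩, ?_, ?_⟩ <;> nlinarith [sq_nonneg q.1, sq_nonneg q.2]

theorem base : BaseStmt := by
  have cX : Continuous (fun q : ℝ × ℝ => XB q.1 q.2) := by
    unfold XB
    fun_prop
  have cX' : Continuous (fun q : ℝ × ℝ => XB (-q.1) q.2) := by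
    unfold XB
    fun_prop
  have c1 : IsClosed {q : ℝ × ℝ | 0 ≤ q.1 ∧ 4 / 10000 ≤ XB q.1 q.2} :=
    (isClosed_le continuous_const continuous_fst).inter (isClosed_le continuous_const cX)
  have c2 : IsClosed {q : ℝ × ℝ | q.1 ≤ 0 ∧ XB (-q.1) q.2 ≤ 4 / 10000} :=
    (isClosed_le continuous_fst continuous_const).inter (isClosed_le cX' continuous_const)
  have c3 : IsClosed {q : ℝ × ℝ | 0 ≤ q.1 ∧ XB q.1 q.2 ≤ 4 / 10000} :=
    (isClosed_le continuous_const continuous_fst).inter (isClosed_le cX continuous_const)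
  have c4 : IsClosed {q : ℝ × ℝ | q.1 ≤ 0 ∧ 4 / 10000 ≤ XB (-q.1) q.2} :=
    (isClosed_le continuous_fst continuous_const).inter (isClosed_le continuous_const cX')
  refine ⟨_, _, (bf_compact c1).union (bf_compact c2), (bf_compact c3).union (bf_compact c4), ?_, ?_, ?_⟩
  · intro s t hst
    rcases le_total 0 s with h | h
    · rcases le_total (4 / 10000) (XB s t) with h' | h'
      · exact Or.inl (Or.inl ⟨(s, t), ⟨hst, h, h'⟩, rfl⟩)
      · exact Or.inr (Or.inl ⟨(s, t), ⟨hst, h, h'⟩, rfl⟩)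
    · rcases le_total (4 / 10000) (XB (-s) t) with h' | h'
      · exact Or.inr (Or.inr ⟨(s, t), ⟨hst, h, h'⟩, rfl⟩)
      · exact Or.inl (Or.inr ⟨(s, t), ⟨hst, h, h'⟩, rfl⟩)
  · rintro p (⟨q, ⟨hq, h1, h2⟩, rfl⟩ | ⟨q, ⟨hq, h1, h2⟩, rfl⟩)
    · exact bc_min h1 hq h2
    · refine bf_sym2 ?_
      rw [bf_gU]
      exact be_max (by linarith) (by rw [neg_sq]; exact hq) h2
  · rintro p (⟨q, ⟨hq, h1, h2⟩, rfl⟩ | ⟨q, ⟨hq, h1, h2⟩, rfl⟩)
    · exact be_max h1 hq h2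
    · refine bf_sym1 ?_
      rw [bf_gU]
      exact bc_min (by linarith) (by rw [neg_sq]; exact hq) h2

end Pool.Agent.CNX
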