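import Pool.Agent.CNX.Defs

/-!
# CNX section 1: from a function on the sphere to a convex body
-/

set_option autoImplicit false
set_option linter.unusedSectionVars false

namespace Pool.Agent.CNX

section
variable {E : Type*} [NormedAddCommGroup E] [InnerProductSpace ℝ E] [FiniteDimensional ℝ E]

/-- second order lower bound -/
theorem bo_lower (u : E → ℝ) (hu : ContDiff ℝ 2 u) :
    ∃ L : ℝ, 0 ≤ L ∧ ∀ v v' : E, ‖v‖ ≤ 1 → ‖v'‖ ≤ 1 →
      -(L * ‖v' - v‖ ^ 2) ≤ u v' - u v - fderiv ℝ u v (v' - v) := by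
  have hfd : ContDiff ℝ 1 (fderiv ℝ u) := hu.fderiv_right (by norm_num)
  have hfd' : Continuous (fderiv ℝ (fderiv ℝ u)) := hfd.continuous_fderiv (by norm_num)
  have hfn : ContinuousOn (fun x => ‖fderiv ℝ (fderiv ℝ u) x‖) (Metric.closedBall (0 : E) 1) :=
    (@Continuous.norm E (E →L[ℝ] E →L[ℝ] ℝ) _ _ (fderiv ℝ (fderiv ℝ u)) hfd').continuousOn
  obtain ⟨L, hL'⟩ := (isCompact_closedBall (0 : E) 1).exists_bound_of_continuousOn hfn
  have hL : ∀ x ∈ Metric.closedBall (0 : E) 1, ‖fderiv ℝ (fderiv ℝ u) x‖ ≤ L := by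
    intro x hx
    exact (le_abs_self _).trans (hL' x hx)
  refine ⟨max L 0, le_max_right _ _, fun v v' hv hv' => ?_⟩
  have hlip : ∀ a b : E, ‖a‖ ≤ 1 → ‖b‖ ≤ 1 →
      ‖fderiv ℝ u b - fderiv ℝ u a‖ ≤ max L 0 * ‖b - a‖ := by
    intro a b ha hb
    refine (convex_closedBall (0 : E) 1).norm_image_sub_le_of_norm_fderiv_le (𝕜 := ℝ)
      (f := fderiv ℝ u) (fun x _ => (hfd.differentiable (by norm_num)).differentiableAt)
      (fun x hx => (hL x hx).trans (le_max_left _ _)) ?_ ?_
    · simpa using ha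
    · simpa using hb
  have hseg : ∀ w ∈ segment ℝ v v', ‖w‖ ≤ 1 := by
    intro w hw
    have := (convex_closedBall (0 : E) 1).segment_subset (by simpa using hv) (by simpa using hv') hw
    simpa using this
  have hd : ∀ w ∈ segment ℝ v v',
      HasFDerivWithinAt (fun w => u w - fderiv ℝ u v w) (fderiv ℝ u w - fderiv ℝ u v)
        (segment ℝ v v') w := by
    intro w _
    exact ((((hu.differentiable (by norm_num)).differentiableAt (x := w)).hasFDerivAt).sub
      ((fderiv ℝ u v).hasFDerivAt)).hasFDerivWithinAt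
  have hb : ∀ w ∈ segment ℝ v v', ‖fderiv ℝ u w - fderiv ℝ u v‖ ≤ max L 0 * ‖v' - v‖ := by
    intro w hw
    refine (hlip v w hv (hseg w hw)).trans ?_
    refine mul_le_mul_of_nonneg_left ?_ (le_max_right _ _)
    rw [segment_eq_image] at hw
    obtain ⟨θ, ⟨h0, h1⟩, rfl⟩ := hw
    have : (1 - θ) • v + θ • v' - v = θ • (v' - v) := by
      rw [sub_smul, one_smul, smul_sub]; abel
    simp only [this, norm_smul, Real.norm_eq_abs, abs_of_nonneg h0]
    nlinarith [norm_nonneg (v' - v)]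
  have := (convex_segment v v').norm_image_sub_le_of_norm_hasFDerivWithin_le hd hb
    (left_mem_segment ℝ v v') (right_mem_segment ℝ v v')
  rw [Real.norm_eq_abs] at this
  have h2 := (abs_le.1 this).1
  have h3 : fderiv ℝ u v (v' - v) = fderiv ℝ u v v' - fderiv ℝ u v v := map_sub _ _ _
  rw [h3]
  nlinarith [h2]

/-- constants -/
theorem bo_const (u : E → ℝ) (hu : ContDiff ℝ 2 u) :
    ∃ C L M : ℝ, 0 ≤ L ∧ (∀ v v' : E, ‖v‖ = 1 → ‖v'‖ = 1 →
      -(L * ‖v' - v‖ ^ 2) ≤ u v' - u v - fderiv ℝ u v (v' - v)) ∧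
      (∀ v : E, ‖v‖ = 1 → 1 ≤ C + u v ∧ C + u v ≤ M ∧ 2 * L ≤ C + u v - fderiv ℝ u v v) := by
  obtain ⟨L, hL0, hL⟩ := bo_lower u hu
  have hc1 : ContinuousOn u (Metric.sphere (0 : E) 1) := hu.continuous.continuousOn
  have hc2 : ContinuousOn (fun v : E => fderiv ℝ u v v) (Metric.sphere (0 : E) 1) :=
    ((hu.continuous_fderiv (by norm_num)).clm_apply continuous_id).continuousOn
  obtain ⟨M1, hM1⟩ := (isCompact_sphere (0 : E) 1).exists_bound_of_continuousOn hc1
  obtain ⟨M2, hM2⟩ := (isCompact_sphere (0 : E) 1).exists_bound_of_continuousOn hc2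
  refine ⟨2 * L + |M1| + |M2| + 1, L, 2 * L + |M1| + |M2| + 1 + |M1|, hL0,
    fun v v' hv hv' => hL v v' hv.le hv'.le, fun v hv => ?_⟩
  have h1 := hM1 v (by simpa using hv)
  have h2 := hM2 v (by simpa using hv)
  rw [Real.norm_eq_abs] at h1 h2
  have h3 := abs_le.1 (h1.trans (le_abs_self M1))
  have h4 := abs_le.1 (h2.trans (le_abs_self M2))
  have h5 := abs_nonneg M1
  have h6 := abs_nonneg M2
  refine ⟨by linarith [h3.1], by linarith [h3.2], by linarith [h3.1, h4.2]⟩

/-- the body -/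
def boK (u : E → ℝ) (C : ℝ) : Set E := {x | ∀ v : E, ‖v‖ = 1 → inner ℝ x v ≤ C + u v}

theorem bo_closed (u : E → ℝ) (C : ℝ) : IsClosed (boK u C) := by
  have : boK u C = ⋂ v : E, ⋂ _ : ‖v‖ = 1, {x | inner ℝ x v ≤ C + u v} := by
    ext x; simp [boK]
  rw [this]
  refine isClosed_iInter fun v => isClosed_iInter fun _ => ?_
  exact isClosed_le (by fun_prop) continuous_const

theorem bo_convex (u : E → ℝ) (C : ℝ) : Convex ℝ (boK u C) := by
  intro x hx y hy a b ha hb hab v hv
  rw [inner_add_left, inner_smul_left, inner_smul_left]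
  have h1 := hx v hv
  have h2 := hy v hv
  simp only [conj_trivial]
  calc a * inner ℝ x v + b * inner ℝ y v ≤ a * (C + u v) + b * (C + u v) := by
        gcongr
    _ = C + u v := by rw [← add_mul, hab, one_mul]

theorem bo_bounded (u : E → ℝ) {C M : ℝ} (hM : ∀ v : E, ‖v‖ = 1 → C + u v ≤ M) :
    Bornology.IsBounded (boK u C) := by
  refine (Metric.isBounded_closedBall (x := (0 : E)) (r := |M|)).subset fun x hx => ?_
  rw [mem_closedBall_zero_iff]
  by_cases h0 : x = 0
  · simp [h0]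
  have hn : 0 < ‖x‖ := norm_pos_iff.2 h0
  have hv : ‖(‖x‖⁻¹ : ℝ) • x‖ = 1 := by
    rw [norm_smul, norm_inv, norm_norm, inv_mul_cancel₀ hn.ne']
  have h1 := (hx _ hv).trans (hM _ hv)
  rw [inner_smul_right, real_inner_self_eq_norm_sq] at h1
  have : ‖x‖⁻¹ * ‖x‖ ^ 2 = ‖x‖ := by
    rw [sq, ← mul_assoc, inv_mul_cancel₀ hn.ne', one_mul]
  rw [this] at h1
  exact h1.trans (le_abs_self M)

theorem bo_ball (u : E → ℝ) {C : ℝ} (hC : ∀ v : E, ‖v‖ = 1 → 1 ≤ C + u v) :
    Metric.ball (0 : E) 1 ⊆ boK u C := by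
  intro x hx v hv
  rw [mem_ball_zero_iff] at hx
  calc inner ℝ x v ≤ ‖x‖ * ‖v‖ := real_inner_le_norm x v
    _ ≤ 1 := by rw [hv, mul_one]; exact hx.le
    _ ≤ _ := hC v hv

/-- the support point -/
theorem bo_point (u : E → ℝ) {C L : ℝ}
    (hL : ∀ v v' : E, ‖v‖ = 1 → ‖v'‖ = 1 →
      -(L * ‖v' - v‖ ^ 2) ≤ u v' - u v - fderiv ℝ u v (v' - v))
    (hC : ∀ v : E, ‖v‖ = 1 → 2 * L ≤ C + u v - fderiv ℝ u v v) (v : E) (hv : ‖v‖ = 1) :
    ∃ x ∈ boK u C, inner ℝ x v = C + u v := by
  obtain ⟨g, hg⟩ : ∃ g : E, ∀ h, inner ℝ g h = fderiv ℝ u v h :=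
    ⟨(InnerProductSpace.toDual ℝ E).symm (fderiv ℝ u v), fun h => by
      rw [InnerProductSpace.toDual_symm_apply]⟩
  refine ⟨g + (C + u v - fderiv ℝ u v v) • v, fun v' hv' => ?_, ?_⟩
  · rw [inner_add_left, inner_smul_left, hg]
    simp only [conj_trivial]
    have h1 := hL v v' hv hv'
    have h2 := hC v hv
    have h3 : ‖v' - v‖ ^ 2 = 2 - 2 * inner ℝ v v' := by
      rw [norm_sub_sq_real, hv, hv', real_inner_comm v v']; ring
    have h4 : fderiv ℝ u v (v' - v) = fderiv ℝ u v v' - fderiv ℝ u v v := map_sub _ _ _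
    rw [h4] at h1
    have h5 : 0 ≤ ‖v' - v‖ ^ 2 := sq_nonneg _
    have h6 : (1 : ℝ) - inner ℝ v v' = ‖v' - v‖ ^ 2 / 2 := by rw [h3]; ring
    have h7 : L * ‖v' - v‖ ^ 2 ≤ (C + u v - fderiv ℝ u v v) * (1 - inner ℝ v v') := by
      rw [h6]
      have := mul_le_mul_of_nonneg_right h2 h5
      linarith
    have h8 : (C + u v - fderiv ℝ u v v) * (1 - inner ℝ v v') =
      (C + u v - fderiv ℝ u v v) - (C + u v - fderiv ℝ u v v) * inner ℝ v v' := by ring
    linarith
  · rw [inner_add_left, inner_smul_left, hg, real_inner_self_eq_norm_sq, hv]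
    simp only [conj_trivial]
    ring

/-- Lagrange multiplier -/
theorem bo_lagrange (u : E → ℝ) (hu : Differentiable ℝ u) (x v : E) (hv : ‖v‖ = 1)
    (hmin : ∀ v' : E, ‖v'‖ = 1 → u v - inner ℝ x v ≤ u v' - inner ℝ x v') (h : E) :
    fderiv ℝ u v h - (fderiv ℝ u v v - inner ℝ x v) * inner ℝ v h = inner ℝ x h := by
  have key : ∀ k : E, ‖k‖ = 1 → inner ℝ v k = 0 → fderiv ℝ u v k = inner ℝ x k := by
    intro k hk hvk
    set γ : ℝ → E := fun θ => Real.cos θ • v + Real.sin θ • k with hγ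
    have hγn : ∀ θ, ‖γ θ‖ = 1 := by
      intro θ
      have : ‖γ θ‖ ^ 2 = 1 := by
        rw [hγ]
        simp only
        rw [norm_add_sq_real, norm_smul, norm_smul, inner_smul_left, inner_smul_right, hvk, hv, hk]
        simp [Real.cos_sq_add_sin_sq]
      nlinarith [norm_nonneg (γ θ)]
    have hγ0 : γ 0 = v := by simp [hγ]
    have hγd : HasDerivAt γ k 0 := by
      have h1 : HasDerivAt (fun θ : ℝ => Real.cos θ • v) ((-Real.sin 0) • v) 0 :=
        (Real.hasDerivAt_cos 0).smul_const v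
      have h2 : HasDerivAt (fun θ : ℝ => Real.sin θ • k) ((Real.cos 0) • k) 0 :=
        (Real.hasDerivAt_sin 0).smul_const k
      have h3 := h1.add h2
      have h4 : (-Real.sin 0) • v + (Real.cos 0) • k = k := by simp
      rw [h4] at h3
      exact h3
    have hf : HasDerivAt (fun θ => u (γ θ) - inner ℝ x (γ θ)) (fderiv ℝ u v k - inner ℝ x k) 0 := by
      have h1 : HasDerivAt (fun θ => u (γ θ)) (fderiv ℝ u v k) 0 := by
        have := (hu (γ 0)).hasFDerivAt.comp_hasDerivAt (0 : ℝ) hγd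
        rw [hγ0] at this
        exact this
      have h2 : HasDerivAt (fun θ => inner ℝ x (γ θ)) (inner ℝ x k) 0 := by
        have := (innerSL ℝ x).hasFDerivAt.comp_hasDerivAt (0 : ℝ) hγd
        exact this
      exact h1.sub h2
    have hloc : IsLocalMin (fun θ => u (γ θ) - inner ℝ x (γ θ)) 0 := by
      refine Filter.Eventually.of_forall fun θ => ?_
      simp only [hγ0]
      exact hmin _ (hγn θ)
    have := hloc.hasDerivAt_eq_zero hf
    linarith
  have key2 : ∀ k : E, inner ℝ v k = 0 → fderiv ℝ u v k = inner ℝ x k := by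
    intro k hvk
    by_cases h0 : k = 0
    · simp [h0]
    have hn : 0 < ‖k‖ := norm_pos_iff.2 h0
    have h1 := key ((‖k‖⁻¹ : ℝ) • k)
      (by rw [norm_smul, norm_inv, norm_norm, inv_mul_cancel₀ hn.ne'])
      (by rw [inner_smul_right, hvk, mul_zero])
    rw [map_smul, inner_smul_right, smul_eq_mul] at h1
    exact mul_left_cancel₀ (inv_ne_zero hn.ne') h1
  have h1 := key2 (h - (inner ℝ v h : ℝ) • v) (by
    rw [inner_sub_right, inner_smul_right, real_inner_self_eq_norm_sq, hv]; ring)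
  rw [map_sub, map_smul, inner_sub_right, inner_smul_right, smul_eq_mul] at h1
  linarith

end

theorem body : BodyStmt := by
  intro n N u hn hu hN
  obtain ⟨C, L, M, hL0, hL, hC⟩ := bo_const u hu
  refine ⟨boK u C, ?_, bo_convex u C, ?_, ?_⟩
  · exact Metric.isCompact_of_isClosed_isBounded (bo_closed u C)
      (bo_bounded u fun v hv => (hC v hv).2.1)
  · exact ⟨0, interior_maximal (bo_ball u fun v hv => (hC v hv).1) Metric.isOpen_ball
      (by simp)⟩
  · intro p _ X hX
    have hex : ∀ x ∈ X, ∃ v : EuclideanSpace ℝ (Fin n),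
        (‖v‖ = 1 ∧ ∃ l : ℝ, ∀ h, fderiv ℝ u v h - l * inner ℝ v h = inner ℝ p h) ∧
          x = p + (C + u v - inner ℝ p v) • v := by
      intro x hx
      obtain ⟨hxf, ν, hν, hsup, t, hpt⟩ := hX x hx
      have hxK : x ∈ boK u C := by
        have := frontier_subset_closure hxf
        rwa [(bo_closed u C).closure_eq] at this
      have hnν : 0 < ‖ν‖ := norm_pos_iff.2 hν
      set v : EuclideanSpace ℝ (Fin n) := (‖ν‖⁻¹ : ℝ) • ν with hvdef
      have hv : ‖v‖ = 1 := by
        rw [hvdef, norm_smul, norm_inv, norm_norm, inv_mul_cancel₀ hnν.ne']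
      have hνv : ν = ‖ν‖ • v := by
        rw [hvdef, smul_smul, mul_inv_cancel₀ hnν.ne', one_smul]
      have hxv : inner ℝ x v = C + u v := by
        refine le_antisymm (hxK v hv) ?_
        obtain ⟨y, hy, hyv⟩ := bo_point u hL (fun v hv => (hC v hv).2.2) v hv
        have h1 := hsup y hy
        have h2 : inner ℝ v y ≤ inner ℝ v x := by
          rw [hvdef, inner_smul_left, inner_smul_left]
          simp only [conj_trivial]
          exact mul_le_mul_of_nonneg_left h1 (inv_nonneg.2 hnν.le)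
        rw [real_inner_comm v x, ← hyv, real_inner_comm v y]
        exact h2
      have hmin : ∀ v' : EuclideanSpace ℝ (Fin n), ‖v'‖ = 1 →
          u v - inner ℝ x v ≤ u v' - inner ℝ x v' := by
        intro v' hv'
        have := hxK v' hv'
        linarith
      have hlag := bo_lagrange u (hu.differentiable (by norm_num)) x v hv hmin
      have hp : p = x + (t * ‖ν‖) • v := by
        rw [hpt]; conv_lhs => rw [hνv]
        rw [smul_smul]
      refine ⟨v, ⟨hv, fderiv ℝ u v v - inner ℝ x v - t * ‖ν‖, fun h => ?_⟩, ?_⟩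
      · have h1 := hlag h
        have h2 : inner ℝ p h = inner ℝ x h + t * ‖ν‖ * inner ℝ v h := by
          rw [hp, inner_add_left, inner_smul_left]; simp
        rw [h2, ← h1]; ring
      · have h2 : inner ℝ p v = C + u v + t * ‖ν‖ := by
          rw [hp, inner_add_left, inner_smul_left, hxv, real_inner_self_eq_norm_sq, hv]; simp
        rw [h2]
        have : C + u v - (C + u v + t * ‖ν‖) = -(t * ‖ν‖) := by ring
        rw [this, hp, neg_smul]; abel
    choose! f hf using hex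
    have hinj : Set.InjOn f (X : Set (EuclideanSpace ℝ (Fin n))) := by
      intro x hx y hy hxy
      rw [(hf x hx).2, (hf y hy).2, hxy]
    have hsub : f '' (X : Set (EuclideanSpace ℝ (Fin n))) ⊆
        {v : EuclideanSpace ℝ (Fin n) | ‖v‖ = 1 ∧
          ∃ l : ℝ, ∀ h, fderiv ℝ u v h - l * inner ℝ v h = inner ℝ p h} := by
      rintro _ ⟨x, hx, rfl⟩
      exact (hf x hx).1
    have h1 : ((X : Set (EuclideanSpace ℝ (Fin n))).encard) ≤ N := by
      rw [← hinj.encard_image]
      exact (Set.encard_le_encard hsub).trans (hN p)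
    rw [Set.encard_coe_eq_coe_finsetCard] at h1
    exact_mod_cast h1

end Pool.Agent.CNX
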