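import Pool.Agent.CNX.CoDefs

/-!
# CO_A (difficulty 1): polynomials are bounded and Lipschitz on the box `|q i| ≤ 2`

Proof: `MvPolynomial.induction_on`. Constants: `M = |c| + 1`. Sum: `M₁ + M₂`. Multiplication by `X i`:
`|q i G(q) - q' i G(q')| ≤ |q i - q' i| |G(q)| + |q' i| |G(q) - G(q')|`, so `M = 3 M₁` works.
-/

set_option autoImplicit false

namespace Pool.Agent.CNX

open MvPolynomial

theorem polyLip (G : P4) : ∃ M : ℝ, 1 ≤ M ∧ ∀ q q' : Fin 4 → ℝ, (∀ i, |q i| ≤ 2) →
    (∀ i, |q' i| ≤ 2) → |eval q G| ≤ M ∧ |eval q G - eval q' G| ≤ M * ∑ i, |q i - q' i| := by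
  have hS : ∀ q q' : Fin 4 → ℝ, 0 ≤ ∑ i, |q i - q' i| :=
    fun q q' => Finset.sum_nonneg fun i _ => abs_nonneg _
  induction G using MvPolynomial.induction_on with
  | C a =>
    refine ⟨|a| + 1, by linarith [abs_nonneg a], fun q q' _ _ => ⟨?_, ?_⟩⟩
    · rw [eval_C]; linarith
    · rw [eval_C, eval_C, sub_self, abs_zero]
      exact mul_nonneg (by linarith [abs_nonneg a]) (hS q q')
  | add p r hp hr =>
    obtain ⟨M, hM, h1⟩ := hp
    obtain ⟨N, hN, h2⟩ := hr
    refine ⟨M + N, by linarith, fun q q' hq hq' => ?_⟩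
    obtain ⟨a1, a2⟩ := h1 q q' hq hq'
    obtain ⟨b1, b2⟩ := h2 q q' hq hq'
    rw [map_add, map_add]
    refine ⟨(abs_add_le _ _).trans (by linarith), ?_⟩
    have e : eval q p + eval q r - (eval q' p + eval q' r) =
        (eval q p - eval q' p) + (eval q r - eval q' r) := by ring
    rw [e]
    refine (abs_add_le _ _).trans ?_
    rw [add_mul]
    linarith
  | mul_X p i hp =>
    obtain ⟨M, hM, h1⟩ := hp
    refine ⟨3 * M, by linarith, fun q q' hq hq' => ?_⟩
    obtain ⟨a1, a2⟩ := h1 q q' hq hq'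
    rw [map_mul, map_mul, eval_X, eval_X]
    have hi := hq i
    have hi' := hq' i
    have hS' := hS q q'
    have h3 : |q i - q' i| ≤ ∑ i, |q i - q' i| :=
      Finset.single_le_sum (f := fun i => |q i - q' i|) (fun j _ => abs_nonneg _)
        (Finset.mem_univ i)
    constructor
    · rw [abs_mul]
      have h4 : |eval q p| * |q i| ≤ M * 2 :=
        mul_le_mul a1 hi (abs_nonneg _) (by linarith)
      linarith
    · have e : eval q p * q i - eval q' p * q' i =
          eval q p * (q i - q' i) + (eval q p - eval q' p) * q' i := by ring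
      rw [e]
      refine (abs_add_le _ _).trans ?_
      rw [abs_mul, abs_mul]
      have h4 : |eval q p| * |q i - q' i| ≤ M * ∑ i, |q i - q' i| :=
        mul_le_mul a1 h3 (abs_nonneg _) (by linarith)
      have h5 : |eval q p - eval q' p| * |q' i| ≤ (M * ∑ i, |q i - q' i|) * 2 :=
        mul_le_mul a2 hi' (abs_nonneg _) (mul_nonneg (by linarith) hS')
      linarith

/-- a common constant for `F` and its derivatives up to order two -/
theorem polyLip2 (F : P4) : ∃ M : ℝ, 1 ≤ M ∧ ∀ q q' : Fin 4 → ℝ, (∀ i, |q i| ≤ 2) →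
    (∀ i, |q' i| ≤ 2) → ∀ i, |dF F i q| ≤ M ∧ |dF F i q - dF F i q'| ≤ M * ∑ k, |q k - q' k| ∧
      ∀ j, |eval q (pderiv i (pderiv j F))| ≤ M ∧
        |eval q (pderiv i (pderiv j F)) - eval q' (pderiv i (pderiv j F))|
          ≤ M * ∑ k, |q k - q' k| := by
  choose A hA1 hA using fun i : Fin 4 => polyLip (pderiv i F)
  choose B hB1 hB using fun i j : Fin 4 => polyLip (pderiv i (pderiv j F))
  have hB0 : ∀ i j, 0 ≤ B i j := fun i j => by linarith [hB1 i j]
  have hA0 : ∀ i, 0 ≤ A i := fun i => by linarith [hA1 i]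
  have hsA : 0 ≤ ∑ i, A i := Finset.sum_nonneg fun i _ => hA0 i
  have hsB : 0 ≤ ∑ i, ∑ j, B i j :=
    Finset.sum_nonneg fun i _ => Finset.sum_nonneg fun j _ => hB0 i j
  have hAi : ∀ i, A i ≤ ∑ i, A i + ∑ i, ∑ j, B i j := fun i => by
    have := Finset.single_le_sum (f := A) (fun j _ => hA0 j) (Finset.mem_univ i)
    linarith
  have hBij : ∀ i j, B i j ≤ ∑ i, A i + ∑ i, ∑ j, B i j := fun i j => by
    have h1 := Finset.single_le_sum (f := B i) (fun j _ => hB0 i j) (Finset.mem_univ j)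
    have h2 := Finset.single_le_sum (f := fun i => ∑ j, B i j)
      (fun i _ => Finset.sum_nonneg fun j _ => hB0 i j) (Finset.mem_univ i)
    linarith
  refine ⟨∑ i, A i + ∑ i, ∑ j, B i j, (hA1 0).trans (hAi 0), fun q q' hq hq' i => ?_⟩
  have hS : 0 ≤ ∑ i, |q i - q' i| := Finset.sum_nonneg fun i _ => abs_nonneg _
  obtain ⟨a1, a2⟩ := hA i q q' hq hq'
  refine ⟨a1.trans (hAi i), a2.trans (mul_le_mul_of_nonneg_right (hAi i) hS), fun j => ?_⟩
  obtain ⟨b1, b2⟩ := hB i j q q' hq hq'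
  exact ⟨b1.trans (hBij i j), b2.trans (mul_le_mul_of_nonneg_right (hBij i j) hS)⟩

end Pool.Agent.CNX
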