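import Pool.Agent.CNX.CoDefs

/-!
# CO_B (difficulty 2): `F_a, F_b ≤ -κ/2`, `F_a - F_b ≥ κ/2` on the sphere

`Fa_neg`: for `a = 0` use (F1) with `w = 0`, `h = 0`, `k = 1`, `l = 0`: `2 F_a ≤ -κ`. For `a > 0` let
`w = √a`, `z = √b` and `f(x) = F(y, x², b)`, `f'(x) = 2 x F_a(y, x², b)`, and by (F1) (with
`h = 0, k = 1, l = 0`) `f''(x) = 4 x² F_aa + 2 F_a ≤ -κ` for `0 ≤ x ≤ w`; so
`f'(w) ≤ f'(0) - κ w = -κ w`, i.e. `F_a ≤ -κ/2`. (The function
`x ↦ 2 x F_a(y, x², b) + κ x` is antitone on `[0, w]`: `antitoneOn_of_deriv_nonpos`.) The same for `b`.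
`Fab`: the same with `g(x) = F(y, x², 1 - |y|² - x²)`, `g'(x) = 2x (F_a - F_b)`, `g'' ≥ κ` by (F2) with
`h = 0, k = 1`.
(derivative of `x ↦ eval (pt ..x..) G` along the curve: chain rule; a convenient way: prove by
`MvPolynomial.induction_on` that for differentiable `c : ℝ → Fin 4 → ℝ` (`HasDerivAt (fun x => c x i) (c' i) x`)
`HasDerivAt (fun x => eval (c x) G) (∑ i, c' i * eval (c x) (pderiv i G)) x`; this is `hasDerivAt_evalCurve` below.)
-/

set_option autoImplicit false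

namespace Pool.Agent.CNX

open MvPolynomial

/-- chain rule along a curve -/
theorem hasDerivAt_evalCurve (G : P4) (c : ℝ → Fin 4 → ℝ) (c' : Fin 4 → ℝ) (x : ℝ)
    (hc : ∀ i, HasDerivAt (fun x => c x i) (c' i) x) :
    HasDerivAt (fun x => eval (c x) G) (∑ i, c' i * eval (c x) (pderiv i G)) x := by
  induction G using MvPolynomial.induction_on with
  | C a =>
    have e : ∑ i, c' i * eval (c x) (pderiv i (C a : P4)) = 0 := by
      refine Finset.sum_eq_zero (fun i _ => ?_)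
      rw [pderiv_C, map_zero, mul_zero]
    rw [e]
    have e2 : (fun x => eval (c x) (C a : P4)) = fun _ => a := by
      funext y; rw [eval_C]
    rw [e2]
    exact hasDerivAt_const x a
  | add p r hp hr =>
    have e : ∑ i, c' i * eval (c x) (pderiv i (p + r)) =
        ∑ i, c' i * eval (c x) (pderiv i p) + ∑ i, c' i * eval (c x) (pderiv i r) := by
      rw [← Finset.sum_add_distrib]
      refine Finset.sum_congr rfl (fun i _ => ?_)
      rw [map_add, map_add, mul_add]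
    rw [e]
    have e2 : (fun x => eval (c x) (p + r)) = fun x => eval (c x) p + eval (c x) r := by
      funext y; rw [map_add]
    rw [e2]
    exact hp.add hr
  | mul_X p n hp =>
    have e : ∑ i, c' i * eval (c x) (pderiv i (p * X n)) =
        (∑ i, c' i * eval (c x) (pderiv i p)) * c x n + eval (c x) p * c' n := by
      have e1 : ∀ i, c' i * eval (c x) (pderiv i (p * X n)) =
          (c' i * eval (c x) (pderiv i p)) * c x n +
            (if i = n then eval (c x) p * c' n else 0) := by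
        intro i
        rw [Derivation.leibniz, smul_eq_mul, smul_eq_mul, map_add, map_mul, map_mul, eval_X]
        by_cases hin : i = n
        · subst hin
          rw [pderiv_X_self, map_one, if_pos rfl]
          ring
        · rw [pderiv_X_of_ne (Ne.symm hin), map_zero, if_neg hin]
          ring
      rw [Finset.sum_congr rfl (fun i _ => e1 i), Finset.sum_add_distrib, ← Finset.sum_mul,
        Finset.sum_ite_eq' Finset.univ n, if_pos (Finset.mem_univ n)]
    rw [e]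
    have e2 : (fun x => eval (c x) (p * X n)) = fun x => eval (c x) p * c x n := by
      funext y; rw [map_mul, eval_X]
    rw [e2]
    exact hp.mul (hc n)

theorem coB_key (G G' : ℝ → ℝ) (κ a : ℝ) (ha : 0 ≤ a) (hd : ∀ x, HasDerivAt G (G' x) x)
    (h : ∀ x, 0 ≤ x → x ^ 2 ≤ a → 2 * G x + 2 * x * G' x ≤ -κ) : G (√a) ≤ -(κ / 2) := by
  have hw0 : 0 ≤ √a := Real.sqrt_nonneg a
  have hw2 : √a ^ 2 = a := Real.sq_sqrt ha
  rcases hw0.eq_or_lt with h0 | hpos
  · rw [← h0]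
    have := h 0 le_rfl (by rw [← hw2, ← h0])
    linarith
  · have hd' : ∀ x, HasDerivAt (fun x => 2 * x * G x + κ * x) (2 * G x + 2 * x * G' x + κ) x := by
      intro x
      have h1 : HasDerivAt (fun x : ℝ => 2 * x) 2 x := by
        simpa using (hasDerivAt_id x).const_mul 2
      have h2 : HasDerivAt (fun x : ℝ => κ * x) κ x := by
        simpa using (hasDerivAt_id x).const_mul κ
      exact (h1.mul (hd x)).add h2
    have hanti : AntitoneOn (fun x => 2 * x * G x + κ * x) (Set.Icc 0 √a) := by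
      apply antitoneOn_of_deriv_nonpos (convex_Icc 0 √a)
      · exact fun x _ => (hd' x).continuousAt.continuousWithinAt
      · exact fun x _ => (hd' x).differentiableAt.differentiableWithinAt
      · intro x hx
        rw [interior_Icc] at hx
        rw [(hd' x).deriv]
        have h3 : x ^ 2 ≤ a := by
          rw [← hw2]
          exact pow_le_pow_left₀ hx.1.le hx.2.le 2
        have h4 := h x hx.1.le h3
        linarith
    have h5 := hanti (Set.left_mem_Icc.2 hw0) (Set.right_mem_Icc.2 hw0) hw0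
    simp only [mul_zero, zero_mul, add_zero] at h5
    have h6 : √a * (2 * G √a + κ) ≤ 0 := by linarith
    have h7 : 2 * G √a + κ ≤ 0 := by
      by_contra hc
      push Not at hc
      have := mul_pos hpos hc
      linarith
    linarith

theorem coB_curve (G : P4) (y0 y1 a0 a1 b0 b1 x : ℝ) :
    HasDerivAt (fun x => eval (pt y0 y1 (a0 + a1 * x ^ 2) (b0 + b1 * x ^ 2)) G)
      (2 * x * (a1 * eval (pt y0 y1 (a0 + a1 * x ^ 2) (b0 + b1 * x ^ 2)) (pderiv 2 G) +
        b1 * eval (pt y0 y1 (a0 + a1 * x ^ 2) (b0 + b1 * x ^ 2)) (pderiv 3 G))) x := by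
  have h := hasDerivAt_evalCurve G (fun x => pt y0 y1 (a0 + a1 * x ^ 2) (b0 + b1 * x ^ 2))
    ![0, 0, a1 * (2 * x), b1 * (2 * x)] x (by
      intro i
      have hq : ∀ u v : ℝ, HasDerivAt (fun x : ℝ => u + v * x ^ 2) (v * (2 * x)) x := by
        intro u v
        have h1 := ((hasDerivAt_pow 2 x).const_mul v).const_add u
        simpa using h1
      fin_cases i
      · exact hasDerivAt_const x y0
      · exact hasDerivAt_const x y1
      · exact hq a0 a1
      · exact hq b0 b1)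
  rw [Fin.sum_univ_four] at h
  convert h using 1
  simp only [Matrix.cons_val]
  ring

theorem coB_hF (F : P4) (q : Fin 4 → ℝ) (u v : ℝ) : hF F q ![0, 0, u, v] =
    u * u * eval q (pderiv 2 (pderiv 2 F)) + u * v * eval q (pderiv 2 (pderiv 3 F)) +
      (v * u * eval q (pderiv 3 (pderiv 2 F)) + v * v * eval q (pderiv 3 (pderiv 3 F))) := by
  unfold hF
  simp only [Fin.sum_univ_four, Matrix.cons_val]
  ring

theorem Fa_neg {F : P4} {κ : ℝ} (h : F1 F κ) (y0 y1 a b : ℝ) (ha : 0 ≤ a) (hb : 0 ≤ b)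
    (hs : y0 ^ 2 + y1 ^ 2 + a + b ≤ 1) : dF F 2 (pt y0 y1 a b) ≤ -(κ / 2) := by
  have h1 := coB_key (fun x => eval (pt y0 y1 (0 + 1 * x ^ 2) (b + 0 * x ^ 2)) (pderiv 2 F))
    (fun x => 2 * x * (1 * eval (pt y0 y1 (0 + 1 * x ^ 2) (b + 0 * x ^ 2)) (pderiv 2 (pderiv 2 F)) +
      0 * eval (pt y0 y1 (0 + 1 * x ^ 2) (b + 0 * x ^ 2)) (pderiv 3 (pderiv 2 F))))
    κ a ha (fun x => coB_curve _ _ _ _ _ _ _ x) (by
      intro x hx hxa
      have hb2 : √b ^ 2 = b := Real.sq_sqrt hb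
      have h2 := h y0 y1 x √b (by rw [hb2]; linarith) 0 0 1 0
      rw [mul_one, mul_zero, coB_hF, hb2] at h2
      simp only [zero_add, one_mul, zero_mul, add_zero]
      unfold dF at h2
      nlinarith [h2])
  simp only [zero_add, one_mul, zero_mul, add_zero, Real.sq_sqrt ha] at h1
  exact h1

theorem Fb_neg {F : P4} {κ : ℝ} (h : F1 F κ) (y0 y1 a b : ℝ) (ha : 0 ≤ a) (hb : 0 ≤ b)
    (hs : y0 ^ 2 + y1 ^ 2 + a + b ≤ 1) : dF F 3 (pt y0 y1 a b) ≤ -(κ / 2) := by
  have h1 := coB_key (fun x => eval (pt y0 y1 (a + 0 * x ^ 2) (0 + 1 * x ^ 2)) (pderiv 3 F))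
    (fun x => 2 * x * (0 * eval (pt y0 y1 (a + 0 * x ^ 2) (0 + 1 * x ^ 2)) (pderiv 2 (pderiv 3 F)) +
      1 * eval (pt y0 y1 (a + 0 * x ^ 2) (0 + 1 * x ^ 2)) (pderiv 3 (pderiv 3 F))))
    κ b hb (fun x => coB_curve _ _ _ _ _ _ _ x) (by
      intro x hx hxa
      have hb2 : √a ^ 2 = a := Real.sq_sqrt ha
      have h2 := h y0 y1 √a x (by rw [hb2]; linarith) 0 0 0 1
      rw [mul_one, mul_zero, coB_hF, hb2] at h2
      simp only [zero_add, one_mul, zero_mul, add_zero]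
      unfold dF at h2
      nlinarith [h2])
  simp only [zero_add, one_mul, zero_mul, add_zero, Real.sq_sqrt hb] at h1
  exact h1

theorem Fab {F : P4} {κ : ℝ} (h : F2 F κ) (y0 y1 a : ℝ) (ha : 0 ≤ a)
    (hs : y0 ^ 2 + y1 ^ 2 + a ≤ 1) :
    κ / 2 ≤ dF F 2 (pt y0 y1 a (1 - y0 ^ 2 - y1 ^ 2 - a))
      - dF F 3 (pt y0 y1 a (1 - y0 ^ 2 - y1 ^ 2 - a)) := by
  have h1 := coB_key
    (fun x => eval (pt y0 y1 (0 + 1 * x ^ 2) (1 - y0 ^ 2 - y1 ^ 2 + (-1) * x ^ 2)) (pderiv 3 F) -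
      eval (pt y0 y1 (0 + 1 * x ^ 2) (1 - y0 ^ 2 - y1 ^ 2 + (-1) * x ^ 2)) (pderiv 2 F))
    (fun x => 2 * x *
        (1 * eval (pt y0 y1 (0 + 1 * x ^ 2) (1 - y0 ^ 2 - y1 ^ 2 + (-1) * x ^ 2))
          (pderiv 2 (pderiv 3 F)) +
        (-1) * eval (pt y0 y1 (0 + 1 * x ^ 2) (1 - y0 ^ 2 - y1 ^ 2 + (-1) * x ^ 2))
          (pderiv 3 (pderiv 3 F))) -
      2 * x *
        (1 * eval (pt y0 y1 (0 + 1 * x ^ 2) (1 - y0 ^ 2 - y1 ^ 2 + (-1) * x ^ 2))
          (pderiv 2 (pderiv 2 F)) +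
        (-1) * eval (pt y0 y1 (0 + 1 * x ^ 2) (1 - y0 ^ 2 - y1 ^ 2 + (-1) * x ^ 2))
          (pderiv 3 (pderiv 2 F))))
    κ a ha (fun x => (coB_curve _ _ _ _ _ _ _ x).sub (coB_curve _ _ _ _ _ _ _ x)) (by
      intro x hx hxa
      have h2 := h y0 y1 x (by linarith) 0 0 1
      have e1 : -2 * y0 * 0 - 2 * y1 * 0 - 2 * x * 1 = -(2 * x) := by ring
      rw [e1, mul_one, coB_hF] at h2
      have e2 : 1 - y0 ^ 2 - y1 ^ 2 + (-1) * x ^ 2 = 1 - y0 ^ 2 - y1 ^ 2 - x ^ 2 := by ring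
      rw [e2]
      simp only [zero_add, one_mul]
      unfold dF at h2
      nlinarith [h2])
  have e2 : 1 - y0 ^ 2 - y1 ^ 2 + (-1) * a = 1 - y0 ^ 2 - y1 ^ 2 - a := by ring
  simp only [zero_add, one_mul, Real.sq_sqrt ha, e2] at h1
  unfold dF
  linarith

end Pool.Agent.CNX
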