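import Pool.Agent.CNX.CO_A
import Pool.Agent.CNX.CO_B

/-!
# CO_C (difficulty 1): `F_a - F_b ≥ κ/4` near the sphere

Compare `(y, a, b)` with `(y, a, 1 - |y|² - a)` (distance `1 - |y|² - a - b ≤ c0`) by `polyLip2`:
`c0 = κ / (8 M)`.
-/

set_option autoImplicit false

namespace Pool.Agent.CNX

open MvPolynomial

theorem coC_box {y0 y1 a b : ℝ} (ha : 0 ≤ a) (hb : 0 ≤ b) (h : y0 ^ 2 + y1 ^ 2 + a + b ≤ 1) :
    ∀ i, |pt y0 y1 a b i| ≤ 2 := by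
  have h0 : |y0| ≤ 2 := abs_le.2 ⟨by nlinarith [sq_nonneg y1, sq_nonneg y0], by nlinarith [sq_nonneg y1, sq_nonneg y0]⟩
  have h1 : |y1| ≤ 2 := abs_le.2 ⟨by nlinarith [sq_nonneg y1, sq_nonneg y0], by nlinarith [sq_nonneg y1, sq_nonneg y0]⟩
  have h2 : |a| ≤ 2 := abs_le.2 ⟨by linarith, by nlinarith [sq_nonneg y0, sq_nonneg y1]⟩
  have h3 : |b| ≤ 2 := abs_le.2 ⟨by linarith, by nlinarith [sq_nonneg y0, sq_nonneg y1]⟩
  intro i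
  fin_cases i
  · exact h0
  · exact h1
  · exact h2
  · exact h3

theorem Fab' {F : P4} {κ : ℝ} (hκ : 0 < κ) (h : F2 F κ) : ∃ c0 : ℝ, 0 < c0 ∧
    ∀ y0 y1 a b : ℝ, 0 ≤ a → 0 ≤ b → 1 - c0 ≤ y0 ^ 2 + y1 ^ 2 + a + b →
      y0 ^ 2 + y1 ^ 2 + a + b ≤ 1 →
      κ / 4 ≤ dF F 2 (pt y0 y1 a b) - dF F 3 (pt y0 y1 a b) := by
  obtain ⟨M, hM1, hM⟩ := polyLip2 F
  have hMpos : 0 < M := by linarith
  refine ⟨κ / (8 * M), by positivity, ?_⟩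
  intro y0 y1 a b ha hb hlo hhi
  have hb' : 0 ≤ 1 - y0 ^ 2 - y1 ^ 2 - a := by linarith
  have hbox := coC_box ha hb hhi
  have hbox' := coC_box (y0 := y0) (y1 := y1) ha hb' (by linarith)
  have hsum : ∑ k, |pt y0 y1 a b k - pt y0 y1 a (1 - y0 ^ 2 - y1 ^ 2 - a) k| ≤ κ / (8 * M) := by
    rw [Fin.sum_univ_four]
    have e0 : pt y0 y1 a b 0 - pt y0 y1 a (1 - y0 ^ 2 - y1 ^ 2 - a) 0 = 0 := sub_self y0
    have e1 : pt y0 y1 a b 1 - pt y0 y1 a (1 - y0 ^ 2 - y1 ^ 2 - a) 1 = 0 := sub_self y1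
    have e2 : pt y0 y1 a b 2 - pt y0 y1 a (1 - y0 ^ 2 - y1 ^ 2 - a) 2 = 0 := sub_self a
    have e3 : pt y0 y1 a b 3 - pt y0 y1 a (1 - y0 ^ 2 - y1 ^ 2 - a) 3 = b - (1 - y0 ^ 2 - y1 ^ 2 - a) := rfl
    rw [e0, e1, e2, e3, abs_zero, zero_add, zero_add, zero_add]
    exact abs_le.2 ⟨by linarith, by
      have : 0 ≤ κ / (8 * M) := by positivity
      linarith⟩
  have h2 := ((hM _ _ hbox hbox' 2).2).1
  have h3 := ((hM _ _ hbox hbox' 3).2).1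
  have h4 : M * ∑ k, |pt y0 y1 a b k - pt y0 y1 a (1 - y0 ^ 2 - y1 ^ 2 - a) k| ≤ κ / 8 := by
    have h5 := mul_le_mul_of_nonneg_left hsum hMpos.le
    have h6 : M * (κ / (8 * M)) = κ / 8 := by
      field_simp
    linarith
  have h7 := Fab h y0 y1 a ha (by linarith)
  have h8 := abs_le.1 (h2.trans h4)
  have h9 := abs_le.1 (h3.trans h4)
  linarith [h8.1, h8.2, h9.1, h9.2]

end Pool.Agent.CNX
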