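import Pool.Agent.CNX.CoDefs

/-!
# CO_D (difficulty 2): calculus of `EQ G Q t`

`EQ G Q t z = G(q(z)) + ∑ t k z k ^ 2`. All functions are polynomials in the coordinates of `z`.
First derivative: `∑ i, (∂ᵢG)(q z) q'ᵢ(z, h) + 2 ∑ t k z k h k`. Second derivative at `h, h`:
`∑ᵢⱼ q'ᵢ q'ⱼ (∂ᵢ∂ⱼG)(q z) + ∑ᵢ (∂ᵢG)(q z) · 2 ∑ₖ s i k h k ^ 2 + 2 ∑ t k h k ^ 2`.
(`iteratedFDeriv_two_apply`: `iteratedFDeriv ℝ 2 f z ![h, h] = fderiv ℝ (fderiv ℝ f) z h h`; the function
`x ↦ fderiv ℝ f x h` is given by the first formula; differentiate it in the direction `h`; chain rule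
for `z ↦ eval (q z) G` by `MvPolynomial.induction_on`.)
-/

set_option autoImplicit false

namespace Pool.Agent.CNX

open MvPolynomial

variable {ι : Type} [Fintype ι]

theorem coD_cd (k : ι) (n : WithTop ℕ∞) :
    ContDiff ℝ n (fun z : EuclideanSpace ℝ ι => z k) :=
  (EuclideanSpace.proj k : EuclideanSpace ℝ ι →L[ℝ] ℝ).contDiff

theorem coD_hd (k : ι) (z : EuclideanSpace ℝ ι) :
    HasFDerivAt (fun z : EuclideanSpace ℝ ι => z k)
      (EuclideanSpace.proj k : EuclideanSpace ℝ ι →L[ℝ] ℝ) z :=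
  (EuclideanSpace.proj k : EuclideanSpace ℝ ι →L[ℝ] ℝ).hasFDerivAt

theorem coD_proj (k : ι) (h : EuclideanSpace ℝ ι) :
    (EuclideanSpace.proj k : EuclideanSpace ℝ ι →L[ℝ] ℝ) h = h k := rfl

theorem coD_cdq (Q : QM ι) (i : Fin 4) (n : WithTop ℕ∞) :
    ContDiff ℝ n (fun z : EuclideanSpace ℝ ι => Q.q z i) := by
  unfold QM.q
  refine (contDiff_const.add ?_).add ?_
  · exact ContDiff.sum fun k _ => contDiff_const.mul (coD_cd k n)
  · exact ContDiff.sum fun k _ => contDiff_const.mul ((coD_cd k n).pow 2)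

theorem coD_cde (G : P4) (Q : QM ι) (n : WithTop ℕ∞) :
    ContDiff ℝ n (fun z : EuclideanSpace ℝ ι => eval (Q.q z) G) := by
  induction G using MvPolynomial.induction_on with
  | C a => simpa using contDiff_const
  | add p q hp hq => simpa using hp.add hq
  | mul_X p j hp => simpa using hp.mul (coD_cdq Q j n)

/-- the derivative of the `i`-th coordinate of the quadratic map -/
noncomputable def coD_L (Q : QM ι) (z : EuclideanSpace ℝ ι) (i : Fin 4) :
    EuclideanSpace ℝ ι →L[ℝ] ℝ :=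
  ∑ k, (Q.l i k + 2 * (Q.s i k * z k)) • (EuclideanSpace.proj k : EuclideanSpace ℝ ι →L[ℝ] ℝ)

theorem coD_L_apply (Q : QM ι) (z h : EuclideanSpace ℝ ι) (i : Fin 4) :
    coD_L Q z i h = Q.q' z h i := by
  simp only [coD_L, QM.q', _root_.sum_apply, _root_.smul_apply,
    coD_proj, smul_eq_mul, add_mul, Finset.sum_add_distrib, Finset.mul_sum]
  congr 1
  exact Finset.sum_congr rfl fun k _ => by ring

theorem coD_hq (Q : QM ι) (z : EuclideanSpace ℝ ι) (i : Fin 4) :
    HasFDerivAt (fun z : EuclideanSpace ℝ ι => Q.q z i) (coD_L Q z i) z := by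
  have h1 : HasFDerivAt (fun z : EuclideanSpace ℝ ι => ∑ k, Q.l i k * z k)
      (∑ k, Q.l i k • (EuclideanSpace.proj k : EuclideanSpace ℝ ι →L[ℝ] ℝ)) z :=
    HasFDerivAt.fun_sum fun k _ => (coD_hd k z).const_mul _
  have h2 : HasFDerivAt (fun z : EuclideanSpace ℝ ι => ∑ k, Q.s i k * z k ^ 2)
      (∑ k, Q.s i k • ((2 * z k ^ (2 - 1)) •
        (EuclideanSpace.proj k : EuclideanSpace ℝ ι →L[ℝ] ℝ))) z :=
    HasFDerivAt.fun_sum fun k _ => (((coD_hd k z).pow 2).congr_fderiv (by simp)).const_mul _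
  have h3 := (h1.const_add (Q.c i)).add h2
  have h4 : (∑ k, Q.l i k • (EuclideanSpace.proj k : EuclideanSpace ℝ ι →L[ℝ] ℝ))
      + (∑ k, Q.s i k • ((2 * z k ^ (2 - 1)) •
        (EuclideanSpace.proj k : EuclideanSpace ℝ ι →L[ℝ] ℝ))) = coD_L Q z i := by
    rw [← Finset.sum_add_distrib, coD_L]
    refine Finset.sum_congr rfl fun k _ => ?_
    rw [smul_smul, ← add_smul]
    congr 1
    simp
    ring
  rw [h4] at h3
  exact h3

theorem coD_he (G : P4) (Q : QM ι) (z : EuclideanSpace ℝ ι) :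
    HasFDerivAt (fun z : EuclideanSpace ℝ ι => eval (Q.q z) G)
      (∑ i, dF G i (Q.q z) • coD_L Q z i) z := by
  induction G using MvPolynomial.induction_on with
  | C a => simpa [dF] using hasFDerivAt_const (x := z) (c := a)
  | add p q hp hq =>
    have := hp.add hq
    simp only [dF, map_add, add_smul, Finset.sum_add_distrib] at *
    exact this
  | mul_X p j hp =>
    have h := hp.mul (coD_hq Q z j)
    have e : (∑ i, dF (p * X j) i (Q.q z) • coD_L Q z i)
        = eval (Q.q z) p • coD_L Q z j + Q.q z j • ∑ i, dF p i (Q.q z) • coD_L Q z i := by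
      have e1 : ∀ i, dF (p * X j) i (Q.q z)
          = (if i = j then eval (Q.q z) p else 0) + Q.q z j * dF p i (Q.q z) := by
        intro i
        simp only [dF, Derivation.leibniz, pderiv_X, smul_eq_mul, map_add, map_mul, eval_X,
          Pi.single_apply]
        split_ifs with h1 h2 h2
        · simp
        · exact absurd h1.symm h2
        · exact absurd h2.symm h1
        · simp
      simp only [e1, add_smul, Finset.sum_add_distrib, ite_smul, zero_smul, Finset.sum_ite_eq',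
        Finset.mem_univ, if_true, mul_smul, Finset.smul_sum]
    have h0 : (fun z : EuclideanSpace ℝ ι => eval (Q.q z) (p * X j))
        = (fun z : EuclideanSpace ℝ ι => eval (Q.q z) p) * fun z => Q.q z j := by
      funext z
      simp
    rw [e, h0]
    exact h

theorem coD_ht (t : ι → ℝ) (z : EuclideanSpace ℝ ι) :
    HasFDerivAt (fun z : EuclideanSpace ℝ ι => ∑ k, t k * z k ^ 2)
      (∑ k, (2 * (t k * z k)) • (EuclideanSpace.proj k : EuclideanSpace ℝ ι →L[ℝ] ℝ)) z := by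
  have h2 : HasFDerivAt (fun z : EuclideanSpace ℝ ι => ∑ k, t k * z k ^ 2)
      (∑ k, t k • ((2 * z k ^ (2 - 1)) •
        (EuclideanSpace.proj k : EuclideanSpace ℝ ι →L[ℝ] ℝ))) z :=
    HasFDerivAt.fun_sum fun k _ => (((coD_hd k z).pow 2).congr_fderiv (by simp)).const_mul _
  refine h2.congr_fderiv (Finset.sum_congr rfl fun k _ => ?_)
  rw [smul_smul]
  congr 1
  simp
  ring

theorem coD_hE (G : P4) (Q : QM ι) (t : ι → ℝ) (z : EuclideanSpace ℝ ι) :
    HasFDerivAt (EQ G Q t) ((∑ i, dF G i (Q.q z) • coD_L Q z i)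
      + ∑ k, (2 * (t k * z k)) • (EuclideanSpace.proj k : EuclideanSpace ℝ ι →L[ℝ] ℝ)) z :=
  (coD_he G Q z).add (coD_ht t z)

theorem EQ_contDiff (G : P4) (Q : QM ι) (t : ι → ℝ) (n : WithTop ℕ∞) :
    ContDiff ℝ n (EQ G Q t) := by
  unfold EQ
  refine (coD_cde G Q n).add ?_
  exact ContDiff.sum fun k _ => contDiff_const.mul ((coD_cd k n).pow 2)

theorem EQ_fderiv (G : P4) (Q : QM ι) (t : ι → ℝ) (z h : EuclideanSpace ℝ ι) :
    fderiv ℝ (EQ G Q t) z h = ∑ i, dF G i (Q.q z) * Q.q' z h i + 2 * ∑ k, t k * z k * h k := by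
  rw [(coD_hE G Q t z).fderiv]
  simp only [_root_.add_apply, _root_.sum_apply,
    _root_.smul_apply, coD_L_apply, smul_eq_mul, coD_proj,
    Finset.mul_sum]
  congr 1
  exact Finset.sum_congr rfl fun k _ => by ring

theorem coD_hq' (Q : QM ι) (z h : EuclideanSpace ℝ ι) (i : Fin 4) :
    HasFDerivAt (fun z : EuclideanSpace ℝ ι => Q.q' z h i)
      (∑ k, (2 * (Q.s i k * h k)) • (EuclideanSpace.proj k : EuclideanSpace ℝ ι →L[ℝ] ℝ)) z := by
  unfold QM.q'
  have h2 : HasFDerivAt (fun z : EuclideanSpace ℝ ι => ∑ k, Q.s i k * z k * h k)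
      (∑ k, h k • (Q.s i k • (EuclideanSpace.proj k : EuclideanSpace ℝ ι →L[ℝ] ℝ))) z :=
    HasFDerivAt.fun_sum fun k _ => ((coD_hd k z).const_mul _).mul_const _
  refine ((h2.const_mul 2).const_add (∑ k, Q.l i k * h k)).congr_fderiv ?_
  rw [Finset.smul_sum]
  refine Finset.sum_congr rfl fun k _ => ?_
  rw [smul_smul, smul_smul]
  congr 1
  ring

theorem EQ_hess (G : P4) (Q : QM ι) (t : ι → ℝ) (z h : EuclideanSpace ℝ ι) :
    iteratedFDeriv ℝ 2 (EQ G Q t) z ![h, h] = hF G (Q.q z) (Q.q' z h)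
      + ∑ i, dF G i (Q.q z) * (2 * ∑ k, Q.s i k * h k ^ 2) + 2 * ∑ k, t k * h k ^ 2 := by
  rw [iteratedFDeriv_two_apply]
  have hd : DifferentiableAt ℝ (fderiv ℝ (EQ G Q t)) z :=
    ((EQ_contDiff G Q t 2).fderiv_right (m := 1) (by norm_num)).differentiable (by norm_num) z
  have e1 : fderiv ℝ (fderiv ℝ (EQ G Q t)) z h h
      = fderiv ℝ (fun x => fderiv ℝ (EQ G Q t) x h) z h := by
    rw [fderiv_clm_apply hd (differentiableAt_const h)]
    simp
  have e2 : (fun x => fderiv ℝ (EQ G Q t) x h) = fun x => (∑ i, eval (Q.q x) (pderiv i G) *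
      Q.q' x h i) + 2 * ∑ k, t k * x k * h k := by
    funext x
    rw [EQ_fderiv]
    rfl
  have h1 : HasFDerivAt (fun x : EuclideanSpace ℝ ι => ∑ i, eval (Q.q x) (pderiv i G) *
      Q.q' x h i) (∑ i, (eval (Q.q z) (pderiv i G) • (∑ k, (2 * (Q.s i k * h k)) •
        (EuclideanSpace.proj k : EuclideanSpace ℝ ι →L[ℝ] ℝ))
        + Q.q' z h i • (∑ j, dF (pderiv i G) j (Q.q z) • coD_L Q z j))) z :=
    HasFDerivAt.fun_sum fun i _ => (coD_he (pderiv i G) Q z).mul (coD_hq' Q z h i)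
  have h2 : HasFDerivAt (fun z : EuclideanSpace ℝ ι => ∑ k, t k * z k * h k)
      (∑ k, h k • (t k • (EuclideanSpace.proj k : EuclideanSpace ℝ ι →L[ℝ] ℝ))) z :=
    HasFDerivAt.fun_sum fun k _ => ((coD_hd k z).const_mul _).mul_const _
  have h3 := h1.add (h2.const_mul 2)
  change fderiv ℝ (fderiv ℝ (EQ G Q t)) z h h = _
  rw [e1, e2]
  have h4 := h3.fderiv
  rw [show (fun x : EuclideanSpace ℝ ι => (∑ i, eval (Q.q x) (pderiv i G) *
      Q.q' x h i) + 2 * ∑ k, t k * x k * h k) = ((fun x : EuclideanSpace ℝ ι =>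
      ∑ i, eval (Q.q x) (pderiv i G) * Q.q' x h i) + fun x : EuclideanSpace ℝ ι =>
      2 * ∑ k, t k * x k * h k) from rfl, h4]
  simp only [_root_.add_apply, _root_.sum_apply,
    _root_.smul_apply, coD_L_apply, smul_eq_mul, coD_proj,
    Finset.sum_add_distrib]
  have e3 : ∑ i, Q.q' z h i * ∑ j, dF (pderiv i G) j (Q.q z) * Q.q' z h j
      = hF G (Q.q z) (Q.q' z h) := by
    unfold hF
    rw [Finset.sum_comm]
    refine Finset.sum_congr rfl fun i _ => ?_
    rw [Finset.mul_sum]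
    refine Finset.sum_congr rfl fun j _ => ?_
    unfold dF
    ring
  have e4 : ∑ i, eval (Q.q z) (pderiv i G) * ∑ k, 2 * (Q.s i k * h k) * h k
      = ∑ i, dF G i (Q.q z) * (2 * ∑ k, Q.s i k * h k ^ 2) := by
    refine Finset.sum_congr rfl fun i _ => ?_
    unfold dF
    congr 1
    rw [Finset.mul_sum]
    exact Finset.sum_congr rfl fun k _ => by ring
  have e5 : ∑ k, h k * (t k * h k) = ∑ k, t k * h k ^ 2 :=
    Finset.sum_congr rfl fun k _ => by ring
  rw [e3, e4, e5]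
  ring

end Pool.Agent.CNX
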