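import Pool.Agent.CNX.CoDefs

/-!
# CO_E (difficulty 3): dimension-free bounds for the derivatives of `EQ G Q t`

The bound `L` depends only on `G` (not on `ι`, `Q`, `t`).
Proof 1: by `MvPolynomial.induction_on G` prove: there is `L` such that for all `ι, Q` (Ok) and all `z` in
the closed unit ball `‖iteratedFDeriv ℝ n (fun z => eval (Q.q z) G) z‖ ≤ L` for `n = 0, 1, 2, 3`.
Constants: trivial. Sums: `iteratedFDeriv_add_apply`, `norm_add_le`. Product with `X i`: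
`norm_iteratedFDeriv_mul_le` and the bounds for the coordinate `z ↦ Q.q z i`:
`‖·‖ ≤ 3` (Cauchy-Schwarz, `∑ l² ≤ 1`, `|s| ≤ 1`, `∑ z² ≤ 1`), first derivative `≤ 3`, second `≤ 2`, third `0`:
`Q.q z i = c + ⟪l, z⟫ + ⟪S z, z⟫` with `S` the diagonal continuous linear map of norm `≤ 1`;
`ContinuousLinearMap.norm_iteratedFDeriv_le_of_bilinear_of_le_one` for `⟪S z, z⟫` with the two factors
continuous linear maps (`ContinuousLinearMap.norm_iteratedFDeriv_le..`, iterated derivatives of order `≥ 2` of a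
continuous linear map vanish).
The term `∑ t k z k ^ 2` is of the same kind.
-/

set_option autoImplicit false

namespace Pool.Agent.CNX

open MvPolynomial

variable {ι : Type} [Fintype ι]

/-- smooth with derivatives up to order three bounded by `L` on the closed unit ball -/
def coE_BD (f : EuclideanSpace ℝ ι → ℝ) (L : ℝ) : Prop :=
  ContDiff ℝ 3 f ∧ ∀ z, ‖z‖ ≤ 1 → ∀ n : ℕ, n ≤ 3 → ‖iteratedFDeriv ℝ n f z‖ ≤ L

theorem coE_nonneg {f : EuclideanSpace ℝ ι → ℝ} {L : ℝ} (h : coE_BD f L) : 0 ≤ L :=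
  (norm_nonneg _).trans (h.2 0 (by simp) 0 (by norm_num))

theorem coE_le3 {n : ℕ} (hn : n ≤ 3) : ((n : ℕ) : WithTop ℕ∞) ≤ 3 := by
  exact_mod_cast hn

theorem coE_add {f g : EuclideanSpace ℝ ι → ℝ} {L M : ℝ} (hf : coE_BD f L) (hg : coE_BD g M) :
    coE_BD (fun z => f z + g z) (L + M) := by
  refine ⟨hf.1.add hg.1, ?_⟩
  intro z hz n hn
  have h3 := coE_le3 hn
  have e : iteratedFDeriv ℝ n (fun z => f z + g z) z = iteratedFDeriv ℝ n f z + iteratedFDeriv ℝ n g z :=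
    iteratedFDeriv_add_apply (hf.1.of_le h3).contDiffAt (hg.1.of_le h3).contDiffAt
  rw [e]
  exact (norm_add_le _ _).trans (add_le_add (hf.2 z hz n hn) (hg.2 z hz n hn))

theorem coE_sum_choose {n : ℕ} (hn : n ≤ 3) {a b : ℕ → ℝ} {L M : ℝ} (ha0 : ∀ i, 0 ≤ a i) (hb0 : ∀ i, 0 ≤ b i)
    (ha : ∀ i ≤ 3, a i ≤ L) (hb : ∀ i ≤ 3, b i ≤ M) (hL : 0 ≤ L) :
    ∑ i ∈ Finset.range (n + 1), (n.choose i : ℝ) * a i * b (n - i) ≤ 8 * (L * M) := by
  have hM : 0 ≤ M := (hb0 0).trans (hb 0 (by norm_num))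
  have h1 : ∑ i ∈ Finset.range (n + 1), (n.choose i : ℝ) * a i * b (n - i) ≤
      ∑ i ∈ Finset.range (n + 1), (n.choose i : ℝ) * (L * M) := by
    apply Finset.sum_le_sum
    intro i hi
    have hi' : i ≤ n := Nat.lt_succ_iff.1 (Finset.mem_range.1 hi)
    have h2 : a i * b (n - i) ≤ L * M :=
      mul_le_mul (ha i (hi'.trans hn)) (hb _ ((Nat.sub_le _ _).trans hn)) (hb0 _) hL
    rw [mul_assoc]
    exact mul_le_mul_of_nonneg_left h2 (Nat.cast_nonneg _)
  refine h1.trans ?_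
  rw [← Finset.sum_mul]
  have h3 : ∑ i ∈ Finset.range (n + 1), (n.choose i : ℝ) = (2 : ℝ) ^ n := by
    exact_mod_cast Nat.sum_range_choose n
  rw [h3]
  have h4 : (2 : ℝ) ^ n ≤ 8 := by
    calc (2 : ℝ) ^ n ≤ 2 ^ 3 := pow_le_pow_right₀ (by norm_num) hn
      _ = 8 := by norm_num
  exact mul_le_mul_of_nonneg_right h4 (mul_nonneg hL hM)

theorem coE_mul {f g : EuclideanSpace ℝ ι → ℝ} {L M : ℝ} (hf : coE_BD f L) (hg : coE_BD g M) :
    coE_BD (fun z => f z * g z) (8 * (L * M)) := by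
  refine ⟨hf.1.mul hg.1, ?_⟩
  intro z hz n hn
  have h3 := coE_le3 hn
  refine (norm_iteratedFDeriv_mul_le hf.1 hg.1 z h3).trans ?_
  exact coE_sum_choose hn (fun _ => norm_nonneg _) (fun _ => norm_nonneg _)
    (fun i hi => hf.2 z hz i hi) (fun i hi => hg.2 z hz i hi) (coE_nonneg hf)

theorem coE_const (c : ℝ) : coE_BD (fun _ : EuclideanSpace ℝ ι => c) |c| := by
  refine ⟨contDiff_const, ?_⟩
  intro z _ n _
  rcases Nat.eq_zero_or_pos n with h | h
  · subst h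
    rw [norm_iteratedFDeriv_zero, Real.norm_eq_abs]
  · rw [iteratedFDeriv_const_of_ne h.ne']
    simp

theorem coE_clm {F : Type*} [NormedAddCommGroup F] [NormedSpace ℝ F] (φ : EuclideanSpace ℝ ι →L[ℝ] F)
    (hφ : ‖φ‖ ≤ 1) (z : EuclideanSpace ℝ ι) (hz : ‖z‖ ≤ 1) (n : ℕ) : ‖iteratedFDeriv ℝ n φ z‖ ≤ 1 := by
  match n with
  | 0 =>
    rw [norm_iteratedFDeriv_zero]
    exact (φ.le_opNorm z).trans (mul_le_one₀ hφ (norm_nonneg _) hz)
  | 1 =>
    rw [norm_iteratedFDeriv_one, φ.fderiv]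
    exact hφ
  | k + 2 =>
    rw [← norm_iteratedFDeriv_fderiv]
    have e : fderiv ℝ φ = fun _ => φ := by
      funext x
      exact φ.fderiv
    rw [e, iteratedFDeriv_succ_const]
    simp

theorem coE_lin (l : ι → ℝ) (hl : ∑ k, l k ^ 2 ≤ 1) :
    coE_BD (fun z : EuclideanSpace ℝ ι => ∑ k, l k * z k) 1 := by
  have hn : ‖innerSL ℝ (WithLp.toLp 2 l : EuclideanSpace ℝ ι)‖ ≤ 1 := by
    rw [innerSL_apply_norm, EuclideanSpace.norm_eq]
    apply Real.sqrt_le_one.2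
    simpa using hl
  have e : (fun z : EuclideanSpace ℝ ι => ∑ k, l k * z k) =
      fun z => innerSL ℝ (WithLp.toLp 2 l : EuclideanSpace ℝ ι) z := by
    funext z
    rw [innerSL_apply_apply, PiLp.inner_apply]
    apply Finset.sum_congr rfl
    intro k _
    simp [mul_comm]
  rw [e]
  refine ⟨(innerSL ℝ (WithLp.toLp 2 l : EuclideanSpace ℝ ι)).contDiff, ?_⟩
  intro z hz n _
  exact coE_clm _ hn z hz n

/-- the diagonal bilinear form -/
noncomputable def coE_B (s : ι → ℝ) (hs : ∀ k, |s k| ≤ 1) :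
    EuclideanSpace ℝ ι →L[ℝ] EuclideanSpace ℝ ι →L[ℝ] ℝ :=
  LinearMap.mkContinuous₂
    (LinearMap.mk₂ ℝ (fun z h : EuclideanSpace ℝ ι => ∑ k, s k * (z k * h k))
      (by intro a b h; rw [← Finset.sum_add_distrib]; apply Finset.sum_congr rfl; intro k _; simp; ring)
      (by intro c a h; rw [smul_eq_mul, Finset.mul_sum]; apply Finset.sum_congr rfl; intro k _; simp; ring)
      (by intro a b h; rw [← Finset.sum_add_distrib]; apply Finset.sum_congr rfl; intro k _; simp; ring)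
      (by intro c a h; rw [smul_eq_mul, Finset.mul_sum]; apply Finset.sum_congr rfl; intro k _; simp; ring))
    1 (by
      intro z h
      rw [LinearMap.mk₂_apply, one_mul, EuclideanSpace.norm_eq, EuclideanSpace.norm_eq, Real.norm_eq_abs]
      refine (Finset.abs_sum_le_sum_abs _ _).trans ?_
      have h1 : ∀ k ∈ (Finset.univ : Finset ι), |s k * (z k * h k)| ≤ |z k| * |h k| := by
        intro k _
        rw [abs_mul, abs_mul]
        exact mul_le_of_le_one_left (by positivity) (hs k)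
      refine (Finset.sum_le_sum h1).trans ?_
      exact Real.sum_mul_le_sqrt_mul_sqrt _ _ _)

theorem coE_quad (s : ι → ℝ) (hs : ∀ k, |s k| ≤ 1) :
    coE_BD (fun z : EuclideanSpace ℝ ι => ∑ k, s k * z k ^ 2) 8 := by
  have hB : ‖coE_B s hs‖ ≤ 1 := LinearMap.mkContinuous₂_norm_le _ zero_le_one _
  have e : (fun z : EuclideanSpace ℝ ι => ∑ k, s k * z k ^ 2) =
      fun z => coE_B s hs ((ContinuousLinearMap.id ℝ (EuclideanSpace ℝ ι)) z)
        ((ContinuousLinearMap.id ℝ (EuclideanSpace ℝ ι)) z) := by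
    funext z
    show _ = ∑ k, s k * (z k * z k)
    apply Finset.sum_congr rfl
    intro k _
    rw [sq]
  rw [e]
  have hid : ContDiff ℝ 3 (ContinuousLinearMap.id ℝ (EuclideanSpace ℝ ι)) :=
    (ContinuousLinearMap.id ℝ (EuclideanSpace ℝ ι)).contDiff
  have hn1 : ‖ContinuousLinearMap.id ℝ (EuclideanSpace ℝ ι)‖ ≤ 1 := ContinuousLinearMap.norm_id_le
  refine ⟨?_, ?_⟩
  · exact (coE_B s hs).isBoundedBilinearMap.contDiff.comp (hid.prodMk hid)
  · intro z hz n hn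
    refine (ContinuousLinearMap.norm_iteratedFDeriv_le_of_bilinear_of_le_one (coE_B s hs) hid hid z
      (coE_le3 hn) hB).trans ?_
    have := coE_sum_choose hn (a := fun i => ‖iteratedFDeriv ℝ i (ContinuousLinearMap.id ℝ (EuclideanSpace ℝ ι)) z‖)
      (b := fun i => ‖iteratedFDeriv ℝ i (ContinuousLinearMap.id ℝ (EuclideanSpace ℝ ι)) z‖) (L := 1) (M := 1)
      (fun _ => norm_nonneg _) (fun _ => norm_nonneg _)
      (fun i _ => coE_clm _ hn1 z hz i) (fun i _ => coE_clm _ hn1 z hz i) zero_le_one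
    simpa using this

theorem coE_mono {f : EuclideanSpace ℝ ι → ℝ} {L M : ℝ} (hf : coE_BD f L) (h : L ≤ M) : coE_BD f M :=
  ⟨hf.1, fun z hz n hn => (hf.2 z hz n hn).trans h⟩

theorem coE_coord (Q : QM ι) (hQ : Q.Ok) (i : Fin 4) : coE_BD (fun z => Q.q z i) 10 := by
  have h1 := coE_add (coE_add (coE_const (ι := ι) (Q.c i)) (coE_lin (Q.l i) (hQ i).2.1))
    (coE_quad (Q.s i) (hQ i).2.2)
  exact coE_mono h1 (by linarith [(hQ i).1])

theorem coE_poly (G : P4) : ∃ L : ℝ, 1 ≤ L ∧ ∀ (ι : Type) [Fintype ι] (Q : QM ι), Q.Ok →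
    coE_BD (fun z => eval (Q.q z) G) L := by
  induction G using MvPolynomial.induction_on with
  | C a =>
    refine ⟨|a| + 1, by linarith [abs_nonneg a], ?_⟩
    intro ι _ Q _
    simp only [eval_C]
    exact coE_mono (coE_const a) (by linarith)
  | add p q hp hq =>
    obtain ⟨L, hL, h1⟩ := hp
    obtain ⟨M, hM, h2⟩ := hq
    refine ⟨L + M, by linarith, ?_⟩
    intro ι _ Q hQ
    simp only [eval_add]
    exact coE_add (h1 ι Q hQ) (h2 ι Q hQ)
  | mul_X p i hp =>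
    obtain ⟨L, hL, h1⟩ := hp
    refine ⟨8 * (L * 10), by linarith, ?_⟩
    intro ι _ Q hQ
    simp only [eval_mul, eval_X]
    exact coE_mul (h1 ι Q hQ) (coE_coord Q hQ i)

theorem EQ_bound (G : P4) : ∃ L : ℝ, 1 ≤ L ∧ ∀ (ι : Type) [Fintype ι] (Q : QM ι) (t : ι → ℝ),
    Q.Ok → (∀ k, |t k| ≤ 1) → ∀ z : EuclideanSpace ℝ ι, ‖z‖ ≤ 1 →
      ‖iteratedFDeriv ℝ 2 (EQ G Q t) z‖ ≤ L ∧ ‖iteratedFDeriv ℝ 3 (EQ G Q t) z‖ ≤ L := by
  obtain ⟨L, hL, h⟩ := coE_poly G
  refine ⟨L + 8, by linarith, ?_⟩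
  intro ι _ Q t hQ ht z hz
  have h1 : coE_BD (EQ G Q t) (L + 8) := coE_add (h ι Q hQ) (coE_quad t ht)
  exact ⟨h1.2 z hz 2 (by norm_num), h1.2 z hz 3 (by norm_num)⟩

end Pool.Agent.CNX
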