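import Pool.Agent.CNX.CoDefs

/-!
# CO_F (difficulty 1): explicit form of the two quadratic maps

Unfold `qmT`, `qmB`; sums over `Fin 2 ⊕ Fin A ⊕ Fin B` by `Fintype.sum_sum_type`, `Fin.sum_univ_two`.
`‖z‖² = z(inl 0)² + z(inl 1)² + ∑ z(inr (inl j))² + ∑ z(inr (inr j))²` (`EuclideanSpace.norm_sq_eq`).
-/

set_option autoImplicit false

namespace Pool.Agent.CNX

open MvPolynomial

variable {A B : ℕ}

theorem coF_cast0 (h : 2 ≤ 4) : (Fin.castLE h (0 : Fin 2)) = (0 : Fin 4) := rfl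
theorem coF_cast1 (h : 2 ≤ 4) : (Fin.castLE h (1 : Fin 2)) = (1 : Fin 4) := rfl

theorem qmT_ok : (qmT A B).Ok := by
  intro i
  refine ⟨by simp [qmT], ?_, ?_⟩
  · rw [Fintype.sum_sum_type, Fintype.sum_sum_type, Fin.sum_univ_two]
    fin_cases i <;> simp [qmT, coF_cast0, coF_cast1]
  · intro k
    rcases k with k | k | k <;> simp only [qmT]
    · simp
    · split_ifs <;> simp
    · split_ifs <;> simp

theorem qmB_ok : (qmB A B).Ok := by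
  intro i
  refine ⟨?_, ?_, ?_⟩
  · simp only [qmB]
    split_ifs <;> simp
  · rw [Fintype.sum_sum_type, Fintype.sum_sum_type, Fin.sum_univ_two]
    fin_cases i <;> simp [qmB, coF_cast0, coF_cast1]
  · intro k
    rcases k with k | k | k <;> simp only [qmB]
    · split_ifs <;> simp
    · split_ifs <;> simp
    · split_ifs <;> simp

theorem nsq (z : EuclideanSpace ℝ (Fin 2 ⊕ Fin A ⊕ Fin B)) :
    ‖z‖ ^ 2 = z (Sum.inl 0) ^ 2 + z (Sum.inl 1) ^ 2 + ∑ j, z (Sum.inr (Sum.inl j)) ^ 2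
      + ∑ j, z (Sum.inr (Sum.inr j)) ^ 2 := by
  rw [EuclideanSpace.norm_sq_eq, Fintype.sum_sum_type, Fintype.sum_sum_type, Fin.sum_univ_two]
  simp only [Real.norm_eq_abs, sq_abs]
  ring

theorem qmT_q (z : EuclideanSpace ℝ (Fin 2 ⊕ Fin A ⊕ Fin B)) :
    (qmT A B).q z = pt (z (Sum.inl 0)) (z (Sum.inl 1)) (∑ j, z (Sum.inr (Sum.inl j)) ^ 2)
      (∑ j, z (Sum.inr (Sum.inr j)) ^ 2) := by
  funext i
  simp only [QM.q, Fintype.sum_sum_type, Fin.sum_univ_two]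
  fin_cases i <;> simp [qmT, coF_cast0, coF_cast1, pt]

theorem qmB_q (z : EuclideanSpace ℝ (Fin 2 ⊕ Fin A ⊕ Fin B)) :
    (qmB A B).q z = pt (z (Sum.inl 0)) (z (Sum.inl 1)) (∑ j, z (Sum.inr (Sum.inl j)) ^ 2)
      (1 - ‖z‖ ^ 2) := by
  funext i
  rw [nsq]
  simp only [QM.q, Fintype.sum_sum_type, Fin.sum_univ_two]
  fin_cases i <;> simp [qmB, coF_cast0, coF_cast1, pt]
  ring

theorem qmT_q' (z h : EuclideanSpace ℝ (Fin 2 ⊕ Fin A ⊕ Fin B)) :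
    (qmT A B).q' z h = ![h (Sum.inl 0), h (Sum.inl 1),
      2 * ∑ j, z (Sum.inr (Sum.inl j)) * h (Sum.inr (Sum.inl j)),
      2 * ∑ j, z (Sum.inr (Sum.inr j)) * h (Sum.inr (Sum.inr j))] := by
  funext i
  simp only [QM.q', Fintype.sum_sum_type, Fin.sum_univ_two]
  fin_cases i <;> simp [qmT, coF_cast0, coF_cast1]

theorem coF_inner (z h : EuclideanSpace ℝ (Fin 2 ⊕ Fin A ⊕ Fin B)) :
    inner ℝ z h = z (Sum.inl 0) * h (Sum.inl 0) + z (Sum.inl 1) * h (Sum.inl 1)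
      + ∑ j, z (Sum.inr (Sum.inl j)) * h (Sum.inr (Sum.inl j))
      + ∑ j, z (Sum.inr (Sum.inr j)) * h (Sum.inr (Sum.inr j)) := by
  rw [PiLp.inner_apply, Fintype.sum_sum_type, Fintype.sum_sum_type, Fin.sum_univ_two]
  simp only [RCLike.inner_apply, conj_trivial]
  rw [Finset.sum_congr rfl fun j _ => mul_comm (h (Sum.inr (Sum.inl j))) (z (Sum.inr (Sum.inl j))),
    Finset.sum_congr rfl fun j _ => mul_comm (h (Sum.inr (Sum.inr j))) (z (Sum.inr (Sum.inr j)))]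
  ring

theorem qmB_q' (z h : EuclideanSpace ℝ (Fin 2 ⊕ Fin A ⊕ Fin B)) :
    (qmB A B).q' z h = ![h (Sum.inl 0), h (Sum.inl 1),
      2 * ∑ j, z (Sum.inr (Sum.inl j)) * h (Sum.inr (Sum.inl j)), -2 * inner ℝ z h] := by
  funext i
  rw [coF_inner]
  simp only [QM.q', Fintype.sum_sum_type, Fin.sum_univ_two]
  fin_cases i <;> simp [qmB, coF_cast0, coF_cast1]
  ring

theorem qmT_s (G : P4) (q : Fin 4 → ℝ) (h : EuclideanSpace ℝ (Fin 2 ⊕ Fin A ⊕ Fin B)) :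
    ∑ i, dF G i q * (2 * ∑ k, (qmT A B).s i k * h k ^ 2)
      = 2 * dF G 2 q * ∑ j, h (Sum.inr (Sum.inl j)) ^ 2
        + 2 * dF G 3 q * ∑ j, h (Sum.inr (Sum.inr j)) ^ 2 := by
  simp only [Fintype.sum_sum_type, Fin.sum_univ_two, Fin.sum_univ_four]
  simp [qmT]
  ring

theorem qmB_s (G : P4) (q : Fin 4 → ℝ) (h : EuclideanSpace ℝ (Fin 2 ⊕ Fin A ⊕ Fin B)) :
    ∑ i, dF G i q * (2 * ∑ k, (qmB A B).s i k * h k ^ 2)
      = 2 * dF G 2 q * ∑ j, h (Sum.inr (Sum.inl j)) ^ 2 - 2 * dF G 3 q * ‖h‖ ^ 2 := by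
  rw [nsq]
  simp only [Fintype.sum_sum_type, Fin.sum_univ_two, Fin.sum_univ_four]
  simp [qmB]
  ring

end Pool.Agent.CNX
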