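import Pool.Agent.CNX.CO_D
import Pool.Agent.CNX.CO_E
import Pool.Agent.CNX.CO_F
import Pool.Agent.CNX.CO_B

/-!
# CO_G: strict convexity of the top function `-(F(q z) + ∑ d z²)`
-/

set_option autoImplicit false

namespace Pool.Agent.CNX

open MvPolynomial

theorem coG_dF (F : P4) (i : Fin 4) (q : Fin 4 → ℝ) : dF (-F) i q = - dF F i q := by
  unfold dF
  rw [map_neg, map_neg]

theorem coG_hF (F : P4) (q v : Fin 4 → ℝ) : hF (-F) q v = - hF F q v := by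
  unfold hF
  simp only [map_neg, mul_neg, Finset.sum_neg_distrib]

/-- the component of `h` along `z` -/
theorem coG_comp {n : ℕ} (z h : Fin n → ℝ) : ∃ w k : ℝ, w ^ 2 = ∑ j, z j ^ 2 ∧
    w * k = ∑ j, z j * h j ∧ k ^ 2 ≤ ∑ j, h j ^ 2 := by
  have hz : 0 ≤ ∑ j, z j ^ 2 := Finset.sum_nonneg (fun _ _ => sq_nonneg _)
  have hh : 0 ≤ ∑ j, h j ^ 2 := Finset.sum_nonneg (fun _ _ => sq_nonneg _)
  rcases hz.eq_or_lt with h0 | h0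
  · refine ⟨0, 0, by rw [← h0]; ring, ?_, by rw [zero_pow two_ne_zero]; exact hh⟩
    have h1 : ∀ j, z j = 0 := by
      intro j
      have := (Finset.sum_eq_zero_iff_of_nonneg (fun (i : Fin n) _ => sq_nonneg (z i))).mp h0.symm j
        (Finset.mem_univ j)
      exact pow_eq_zero_iff two_ne_zero |>.mp this
    rw [zero_mul]
    symm
    exact Finset.sum_eq_zero (fun j _ => by rw [h1 j, zero_mul])
  · have hw : 0 < √(∑ j, z j ^ 2) := Real.sqrt_pos.mpr h0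
    have hw2 : √(∑ j, z j ^ 2) ^ 2 = ∑ j, z j ^ 2 := Real.sq_sqrt hz
    refine ⟨√(∑ j, z j ^ 2), (∑ j, z j * h j) / √(∑ j, z j ^ 2), hw2, ?_, ?_⟩
    · field_simp
    · rw [div_pow, hw2, div_le_iff₀ h0, mul_comm]
      exact Finset.sum_mul_sq_le_sq_mul_sq _ _ _

theorem coG_tv {A B : ℕ} (dA : Fin A → ℝ) (dB : Fin B → ℝ)
    (h : EuclideanSpace ℝ (Fin 2 ⊕ Fin A ⊕ Fin B)) :
    ∑ k, (-tv dA dB) k * h k ^ 2 = -(∑ j, dA j * h (Sum.inr (Sum.inl j)) ^ 2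
      + ∑ j, dB j * h (Sum.inr (Sum.inr j)) ^ 2) := by
  rw [Fintype.sum_sum_type, Fintype.sum_sum_type]
  simp only [Pi.neg_apply, tv, neg_zero, zero_mul, Finset.sum_const_zero, neg_mul,
    Finset.sum_neg_distrib, zero_add]
  ring

theorem coG_d {n : ℕ} {d h : Fin n → ℝ} {g : ℝ} (hd : ∀ j, |d j| ≤ g) :
    ∑ j, d j * h j ^ 2 ≤ g * ∑ j, h j ^ 2 := by
  rw [Finset.mul_sum]
  exact Finset.sum_le_sum (fun j _ => mul_le_mul_of_nonneg_right ((le_abs_self _).trans (hd j)) (sq_nonneg _))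

theorem top_convex {F : P4} {κ : ℝ} (hκ : 0 < κ) (hF1 : F1 F κ) {A B : ℕ} (dA : Fin A → ℝ)
    (dB : Fin B → ℝ) (hA : ∀ j, |dA j| ≤ κ / 4) (hB : ∀ j, |dB j| ≤ κ / 4)
    (z : EuclideanSpace ℝ (Fin 2 ⊕ Fin A ⊕ Fin B)) (hz : ‖z‖ ≤ 1)
    (h : EuclideanSpace ℝ (Fin 2 ⊕ Fin A ⊕ Fin B)) :
    κ / 2 * ‖h‖ ^ 2 ≤
      iteratedFDeriv ℝ 2 (EQ (-F) (qmT A B) (-tv dA dB)) z ![h, h] := by
  have hz2 : ‖z‖ ^ 2 ≤ 1 := by
    have := norm_nonneg z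
    nlinarith
  rw [EQ_hess, qmT_s, qmT_q, qmT_q', coG_hF, coG_dF, coG_dF, coG_tv, nsq h]
  rw [nsq z] at hz2
  obtain ⟨w, k, hw, hwk, hk⟩ := coG_comp (fun j => z (Sum.inr (Sum.inl j))) (fun j => h (Sum.inr (Sum.inl j)))
  obtain ⟨v, l, hv, hvl, hl⟩ := coG_comp (fun j => z (Sum.inr (Sum.inr j))) (fun j => h (Sum.inr (Sum.inr j)))
  have hdA := coG_d (h := fun j => h (Sum.inr (Sum.inl j))) hA
  have hdB := coG_d (h := fun j => h (Sum.inr (Sum.inr j))) hB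
  have hf := hF1 (z (Sum.inl 0)) (z (Sum.inl 1)) w v (by rw [hw, hv]; exact hz2)
    (h (Sum.inl 0)) (h (Sum.inl 1)) k l
  have ha := Fa_neg hF1 (z (Sum.inl 0)) (z (Sum.inl 1)) (w ^ 2) (v ^ 2) (sq_nonneg _) (sq_nonneg _)
    (by rw [hw, hv]; exact hz2)
  have hb := Fb_neg hF1 (z (Sum.inl 0)) (z (Sum.inl 1)) (w ^ 2) (v ^ 2) (sq_nonneg _) (sq_nonneg _)
    (by rw [hw, hv]; exact hz2)
  rw [mul_assoc 2 w k, hwk, mul_assoc 2 v l, hvl, hw, hv] at hf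
  rw [hw, hv] at ha hb
  simp only at hf ha hb hdA hdB hk hl
  obtain ⟨P, hP⟩ : ∃ P, P = ∑ j, h (Sum.inr (Sum.inl j)) ^ 2 := ⟨_, rfl⟩
  obtain ⟨R, hR⟩ : ∃ R, R = ∑ j, h (Sum.inr (Sum.inr j)) ^ 2 := ⟨_, rfl⟩
  rw [← hP] at hdA hk ⊢
  rw [← hR] at hdB hl ⊢
  have m1 := mul_nonneg (sub_nonneg.mpr hk) (sub_nonneg.mpr ha)
  have m2 := mul_nonneg (sub_nonneg.mpr hl) (sub_nonneg.mpr hb)
  have s1 := sq_nonneg (h (Sum.inl 0))
  have s2 := sq_nonneg (h (Sum.inl 1))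
  have t1 := mul_nonneg hκ.le s1
  have t2 := mul_nonneg hκ.le s2
  nlinarith [hf, m1, m2, hdA, hdB, t1, t2]

end Pool.Agent.CNX
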