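import Pool.Agent.CNX.CO_D
import Pool.Agent.CNX.CO_E
import Pool.Agent.CNX.CO_F
import Pool.Agent.CNX.CO_B
import Pool.Agent.CNX.CO_A

/-!
# CO_H (difficulty 3): strict convexity of the bottom function `F(y,|zA|²,1-|z|²) + ∑ dA zA² + ∑ dB zB²`
near `zB = 0`

By `EQ_hess`, `qmB_q`, `qmB_q'`, `qmB_s`:
`D²[h,h] = hF F q q' + 2F_a |hA|² - 2F_b |h|² + 2∑ dA hA² + 2 ∑ dB hB²`, `q = (y, a, 1-|z|²)`, `a = |zA|²`,
`q' = (h0, h1, 2⟪zA,hA⟫, -2⟪z,h⟫)`. Put `c = |zB|² ≤ W0²`, `q° = (y, a, 1-|y|²-a)`,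
`q'° = (h0, h1, 2⟪zA,hA⟫, -2(y·h + ⟪zA,hA⟫))`. With `w = √a`, `k` as in CO_G (`w k = ⟪zA,hA⟫`, `k² ≤ |hA|²`) (F2) gives
`hF F q° q'° + 2F_a° k² - 2F_b°(h0²+h1²+k²) ≥ κ(h0²+h1²+k²)`, and `2(F_a°-F_b°)(|hA|²-k²) ≥ κ(|hA|²-k²)` (`Fab`); so
`hF F q° q'° + 2F_a°|hA|² - 2F_b°(h0²+h1²+|hA|²) ≥ κ(h0²+h1²+|hA|²)`. The rest:
`-2F_b |hB|² ≥ κ|hB|²` (`Fb_neg` at `q`); `|q - q°| = c ≤ W0²`, `q' - q'° = (0,0,0,-2⟪zB,hB⟫)` of size `≤ 2 W0 |h|`, `|q'|, |q'°| ≤ 2|h|` each coordinate,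
so by `polyLip2` the error is `≤ C(M) (W0 + W0²) |h|²`; the `d` terms cost `≤ 2 om |h|²`. Choose `W0`, `om` small
(error total `≤ (κ/2)|h|²`).
-/

set_option autoImplicit false

namespace Pool.Agent.CNX

open MvPolynomial

theorem coH_cs {D : ℕ} (u v : Fin D → ℝ) : (∑ j, u j * v j) ^ 2 ≤ (∑ j, u j ^ 2) * ∑ j, v j ^ 2 :=
  Finset.sum_mul_sq_le_sq_mul_sq _ _ _

theorem coH_k {D : ℕ} (u v : Fin D → ℝ) : ∃ w k : ℝ, w ^ 2 = ∑ j, u j ^ 2 ∧ w * k = ∑ j, u j * v j ∧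
    k ^ 2 ≤ ∑ j, v j ^ 2 := by
  have ha : 0 ≤ ∑ j, u j ^ 2 := Finset.sum_nonneg fun j _ => sq_nonneg _
  have hb : 0 ≤ ∑ j, v j ^ 2 := Finset.sum_nonneg fun j _ => sq_nonneg _
  have hc := coH_cs u v
  rcases ha.eq_or_lt with h | h
  · refine ⟨0, 0, ?_, ?_, ?_⟩
    · rw [← h]; norm_num
    · rw [← h, zero_mul] at hc
      have h1 : ∑ j, u j * v j = 0 := by
        have h2 : (∑ j, u j * v j) ^ 2 = 0 := le_antisymm hc (sq_nonneg _)
        exact pow_eq_zero_iff (two_ne_zero) |>.1 h2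
      rw [h1]; norm_num
    · simpa using hb
  · have hw : 0 < √(∑ j, u j ^ 2) := Real.sqrt_pos.2 h
    have hw2 : √(∑ j, u j ^ 2) ^ 2 = ∑ j, u j ^ 2 := Real.sq_sqrt ha
    refine ⟨√(∑ j, u j ^ 2), (∑ j, u j * v j) / √(∑ j, u j ^ 2), hw2, ?_, ?_⟩
    · field_simp
    · rw [div_pow, hw2, div_le_iff₀ h]
      linarith [mul_comm (∑ j, u j ^ 2) (∑ j, v j ^ 2)]

theorem coH_abs {x y : ℝ} (hy : 0 ≤ y) (h : x ^ 2 ≤ y ^ 2) : |x| ≤ y := abs_le_of_sq_le_sq h hy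

theorem coH_hF (F : P4) {q q0 v v0 : Fin 4 → ℝ} {M W N : ℝ} (hM : 0 ≤ M) (hW : 0 ≤ W) (hN : 0 ≤ N)
    (hv : ∀ i, |v i| ≤ 2 * N) (hv0 : ∀ i, |v0 i| ≤ 2 * N) (hd : ∀ i, |v i - v0 i| ≤ 2 * W * N)
    (hH : ∀ i j, |eval q (pderiv i (pderiv j F))| ≤ M)
    (hHd : ∀ i j, |eval q (pderiv i (pderiv j F)) - eval q0 (pderiv i (pderiv j F))| ≤ M * W) :
    |hF F q v - hF F q0 v0| ≤ 192 * M * W * N ^ 2 := by
  unfold hF
  rw [← Finset.sum_sub_distrib]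
  have hterm : ∀ i j, |v i * v j * eval q (pderiv i (pderiv j F)) -
      v0 i * v0 j * eval q0 (pderiv i (pderiv j F))| ≤ 12 * M * W * N ^ 2 := by
    intro i j
    have e : v i * v j * eval q (pderiv i (pderiv j F)) - v0 i * v0 j * eval q0 (pderiv i (pderiv j F)) =
        (v i - v0 i) * v j * eval q (pderiv i (pderiv j F)) + v0 i * (v j - v0 j) * eval q (pderiv i (pderiv j F))
        + v0 i * v0 j * (eval q (pderiv i (pderiv j F)) - eval q0 (pderiv i (pderiv j F))) := by ring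
    rw [e]
    have t1 : |(v i - v0 i) * v j * eval q (pderiv i (pderiv j F))| ≤ (2 * W * N) * (2 * N) * M := by
      rw [abs_mul, abs_mul]
      exact mul_le_mul (mul_le_mul (hd i) (hv j) (abs_nonneg _) (by positivity)) (hH i j) (abs_nonneg _)
        (by positivity)
    have t2 : |v0 i * (v j - v0 j) * eval q (pderiv i (pderiv j F))| ≤ (2 * N) * (2 * W * N) * M := by
      rw [abs_mul, abs_mul]
      exact mul_le_mul (mul_le_mul (hv0 i) (hd j) (abs_nonneg _) (by positivity)) (hH i j) (abs_nonneg _)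
        (by positivity)
    have t3 : |v0 i * v0 j * (eval q (pderiv i (pderiv j F)) - eval q0 (pderiv i (pderiv j F)))| ≤
        (2 * N) * (2 * N) * (M * W) := by
      rw [abs_mul, abs_mul]
      exact mul_le_mul (mul_le_mul (hv0 i) (hv0 j) (abs_nonneg _) (by positivity)) (hHd i j) (abs_nonneg _)
        (by positivity)
    have t4 := abs_add_three ((v i - v0 i) * v j * eval q (pderiv i (pderiv j F)))
      (v0 i * (v j - v0 j) * eval q (pderiv i (pderiv j F)))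
      (v0 i * v0 j * (eval q (pderiv i (pderiv j F)) - eval q0 (pderiv i (pderiv j F))))
    calc _ ≤ _ := t4
      _ ≤ (2 * W * N) * (2 * N) * M + (2 * N) * (2 * W * N) * M + (2 * N) * (2 * N) * (M * W) := by linarith
      _ = 12 * M * W * N ^ 2 := by ring
  refine (Finset.abs_sum_le_sum_abs _ _).trans ?_
  have h1 : ∀ i ∈ (Finset.univ : Finset (Fin 4)),
      |∑ j, v i * v j * eval q (pderiv i (pderiv j F)) - ∑ j, v0 i * v0 j * eval q0 (pderiv i (pderiv j F))| ≤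
      48 * M * W * N ^ 2 := by
    intro i _
    rw [← Finset.sum_sub_distrib]
    refine (Finset.abs_sum_le_sum_abs _ _).trans ?_
    refine (Finset.sum_le_sum fun j _ => hterm i j).trans ?_
    rw [Finset.sum_const, Finset.card_univ, Fintype.card_fin, nsmul_eq_mul]
    push_cast
    linarith
  refine (Finset.sum_le_sum h1).trans ?_
  rw [Finset.sum_const, Finset.card_univ, Fintype.card_fin, nsmul_eq_mul]
  push_cast
  linarith

theorem coH_inn {y0 y1 a h0 h1 al S : ℝ} (ha0 : 0 ≤ a) (hal0 : 0 ≤ al) (hS2 : S ^ 2 ≤ a * al) :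
    (y0 * h0 + y1 * h1 + S) ^ 2 ≤ (y0 ^ 2 + y1 ^ 2 + a) * (h0 ^ 2 + h1 ^ 2 + al) := by
  have s1 : (y0 * h0 + y1 * h1) ^ 2 ≤ (y0 ^ 2 + y1 ^ 2) * (h0 ^ 2 + h1 ^ 2) := by
    nlinarith [sq_nonneg (y0 * h1 - y1 * h0)]
  have hP0 : 0 ≤ y0 ^ 2 + y1 ^ 2 := by positivity
  have hR0 : 0 ≤ h0 ^ 2 + h1 ^ 2 := by positivity
  generalize y0 * h0 + y1 * h1 = X at *
  generalize y0 ^ 2 + y1 ^ 2 = P at *
  generalize h0 ^ 2 + h1 ^ 2 = R at *
  have s2 : 2 * (X * S) ≤ P * al + a * R := by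
    have s3 : (X * S) ^ 2 ≤ (P * R) * (a * al) := by
      rw [mul_pow]
      exact mul_le_mul s1 hS2 (sq_nonneg _) (by positivity)
    have s4 : 4 * ((P * R) * (a * al)) ≤ (P * al + a * R) ^ 2 := by
      nlinarith [sq_nonneg (P * al - a * R)]
    have s5 : (2 * (X * S)) ^ 2 ≤ (P * al + a * R) ^ 2 := by
      calc (2 * (X * S)) ^ 2 = 4 * (X * S) ^ 2 := by ring
        _ ≤ 4 * ((P * R) * (a * al)) := by linarith
        _ ≤ _ := s4
    exact le_of_abs_le (coH_abs (by positivity) s5)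
  have e : (X + S) ^ 2 = X ^ 2 + 2 * (X * S) + S ^ 2 := by ring
  have e2 : (P + a) * (R + al) = P * R + (P * al + a * R) + a * al := by ring
  rw [e, e2]
  linarith

/-- the final linear combination -/
theorem coH_final {κ M W om N2 s al be k2 Hq H0 Fa Fb Fa0 Fb0 X Y : ℝ} (hM : 0 ≤ M) (hW : 0 ≤ W)
    (hal0 : 0 ≤ al) (hbe0 : 0 ≤ be) (hs0 : 0 ≤ s) (hN2 : N2 = s + al + be) (hk : k2 ≤ al)
    (hom0 : 0 ≤ om) (hom1 : om ≤ κ / 8) (hWM : 784 * M * W ≤ κ)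
    (hmain : κ * (s + k2) ≤ H0 + 2 * Fa0 * k2 - 2 * Fb0 * (s + k2))
    (hH : H0 - 192 * M * W * N2 ≤ Hq) (hFa : Fa0 - M * W ≤ Fa) (hFb : Fb ≤ Fb0 + M * W)
    (hFbn : Fb ≤ -(κ / 2)) (hab : κ / 2 ≤ Fa0 - Fb0) (hX : -(om * al) ≤ X) (hY : -(om * be) ≤ Y) :
    κ / 2 * N2 ≤ Hq + (2 * Fa * al - 2 * Fb * N2) + 2 * (X + Y) := by
  have hN20 : 0 ≤ N2 := by rw [hN2]; positivity
  have r2 : Fa0 * al - M * W * al ≤ Fa * al := by
    have h5 : (Fa0 - M * W) * al ≤ Fa * al := mul_le_mul_of_nonneg_right hFa hal0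
    linarith
  have r3 : Fb * (s + al) ≤ Fb0 * (s + al) + M * W * (s + al) := by
    have h5 : Fb * (s + al) ≤ (Fb0 + M * W) * (s + al) :=
      mul_le_mul_of_nonneg_right hFb (by positivity)
    linarith
  have r4 : Fb * be ≤ -(κ / 2) * be := mul_le_mul_of_nonneg_right hFbn hbe0
  have r5 : κ / 2 * (al - k2) ≤ (Fa0 - Fb0) * (al - k2) :=
    mul_le_mul_of_nonneg_right hab (by linarith)
  have r6 : M * W * al ≤ M * W * N2 := by
    apply mul_le_mul_of_nonneg_left _ (by positivity)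
    linarith
  have r7 : M * W * (s + al) ≤ M * W * N2 := by
    apply mul_le_mul_of_nonneg_left _ (by positivity)
    linarith
  have r8 : 784 * M * W * N2 ≤ κ * N2 := mul_le_mul_of_nonneg_right hWM hN20
  have r9 : om * N2 ≤ κ / 8 * N2 := mul_le_mul_of_nonneg_right hom1 hN20
  have r12 : om * (al + be) ≤ om * N2 := by
    apply mul_le_mul_of_nonneg_left _ hom0
    linarith
  have e1 : Fb * N2 = Fb * (s + al) + Fb * be := by rw [hN2]; ring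
  have e2 : κ * N2 = κ * (s + al) + κ * be := by rw [hN2]; ring
  have e3 : κ * (s + k2) = κ * (s + al) - κ * (al - k2) := by ring
  have e4 : 2 * Fa0 * k2 = 2 * (Fa0 * al) - 2 * (Fa0 * (al - k2)) := by ring
  have e5 : 2 * Fb0 * (s + k2) = 2 * (Fb0 * (s + al)) - 2 * (Fb0 * (al - k2)) := by ring
  have e6 : (Fa0 - Fb0) * (al - k2) = Fa0 * (al - k2) - Fb0 * (al - k2) := by ring
  have e7 : κ / 2 * (al - k2) = κ * (al - k2) / 2 := by ring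
  have e8 : -(κ / 2) * be = - (κ * be / 2) := by ring
  have e9 : 784 * M * W * N2 = 784 * (M * W * N2) := by ring
  have e10 : 192 * M * W * N2 = 192 * (M * W * N2) := by ring
  have e11 : κ / 8 * N2 = κ * N2 / 8 := by ring
  have e12 : om * (al + be) = om * al + om * be := by ring
  have e13 : κ / 2 * N2 = κ * N2 / 2 := by ring
  have e14 : 2 * Fa * al = 2 * (Fa * al) := by ring
  have e15 : 2 * Fb * N2 = 2 * (Fb * N2) := by ring
  rw [e3, e4, e5] at hmain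
  rw [e10] at hH
  rw [e9] at r8
  rw [e11] at r9
  rw [e12] at r12
  rw [e6, e7] at r5
  rw [e8] at r4
  rw [e13, e14, e15]
  linarith

/-- the inequality in coordinates -/
theorem coH_core {F : P4} {κ : ℝ} (hF1 : F1 F κ) (hF2 : F2 F κ) {M W om : ℝ} (hM : 1 ≤ M) (hW0 : 0 < W)
    (hW1 : W ≤ 1) (hWM : 784 * M * W ≤ κ) (hom0 : 0 < om) (hom1 : om ≤ κ / 8)
    (hML : ∀ q q' : Fin 4 → ℝ, (∀ i, |q i| ≤ 2) →
      (∀ i, |q' i| ≤ 2) → ∀ i, |dF F i q| ≤ M ∧ |dF F i q - dF F i q'| ≤ M * ∑ k, |q k - q' k| ∧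
        ∀ j, |eval q (pderiv i (pderiv j F))| ≤ M ∧
          |eval q (pderiv i (pderiv j F)) - eval q' (pderiv i (pderiv j F))|
            ≤ M * ∑ k, |q k - q' k|)
    {y0 y1 a c h0 h1 al be S T nz N inn X Y k w : ℝ} (ha0 : 0 ≤ a) (hc0 : 0 ≤ c) (hal0 : 0 ≤ al) (hbe0 : 0 ≤ be)
    (hN0 : 0 ≤ N)
    (hzn : nz = y0 ^ 2 + y1 ^ 2 + a + c) (hz1 : nz ≤ 1) (hhn : N ^ 2 = h0 ^ 2 + h1 ^ 2 + al + be)
    (hin : inn = y0 * h0 + y1 * h1 + S + T) (hinn : |inn| ≤ N) (hS2 : S ^ 2 ≤ a * al) (hT2 : T ^ 2 ≤ c * be)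
    (hc1 : c ≤ W ^ 2) (hw : w ^ 2 = a) (hwk : w * k = S) (hk : k ^ 2 ≤ al) (hX : -(om * al) ≤ X)
    (hY : -(om * be) ≤ Y) :
    κ / 2 * N ^ 2 ≤ hF F (pt y0 y1 a (1 - nz)) ![h0, h1, 2 * S, -2 * inn]
      + (2 * dF F 2 (pt y0 y1 a (1 - nz)) * al - 2 * dF F 3 (pt y0 y1 a (1 - nz)) * N ^ 2) + 2 * (X + Y) := by
  have hM0 : 0 < M := by linarith
  have hW2 : W ^ 2 ≤ W := by nlinarith
  have hsy0 := sq_nonneg y0
  have hsy1 := sq_nonneg y1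
  have hsh0 := sq_nonneg h0
  have hsh1 := sq_nonneg h1
  have hy0a : |y0| ≤ 2 := (coH_abs zero_le_one (by linarith)).trans (by norm_num)
  have hy1a : |y1| ≤ 2 := (coH_abs zero_le_one (by linarith)).trans (by norm_num)
  have ha1 : a ≤ 1 := by linarith
  have haa : |a| ≤ 2 := by rw [abs_of_nonneg ha0]; linarith
  have hqb : ∀ i, |pt y0 y1 a (1 - nz) i| ≤ 2 := by
    intro i
    fin_cases i
    · exact hy0a
    · exact hy1a
    · exact haa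
    · show |1 - nz| ≤ 2
      rw [abs_le]
      constructor <;> linarith
  have hq0b : ∀ i, |pt y0 y1 a (1 - y0 ^ 2 - y1 ^ 2 - a) i| ≤ 2 := by
    intro i
    fin_cases i
    · exact hy0a
    · exact hy1a
    · exact haa
    · show |1 - y0 ^ 2 - y1 ^ 2 - a| ≤ 2
      rw [abs_le]
      constructor <;> linarith
  have hqq : ∑ k, |pt y0 y1 a (1 - nz) k - pt y0 y1 a (1 - y0 ^ 2 - y1 ^ 2 - a) k| ≤ W := by
    rw [Fin.sum_univ_four]
    show |y0 - y0| + |y1 - y1| + |a - a| + |(1 - nz) - (1 - y0 ^ 2 - y1 ^ 2 - a)| ≤ W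
    rw [sub_self, sub_self, sub_self, abs_zero, hzn]
    have e : (1 - (y0 ^ 2 + y1 ^ 2 + a + c)) - (1 - y0 ^ 2 - y1 ^ 2 - a) = -c := by ring
    rw [e, abs_neg, abs_of_nonneg hc0]
    linarith
  have hMq : ∀ x : ℝ, x ≤ M * ∑ k, |pt y0 y1 a (1 - nz) k - pt y0 y1 a (1 - y0 ^ 2 - y1 ^ 2 - a) k| → x ≤ M * W :=
    fun x hx => hx.trans (mul_le_mul_of_nonneg_left hqq hM0.le)
  have b0 : |h0| ≤ 2 * N := coH_abs (by positivity) (by nlinarith)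
  have b1 : |h1| ≤ 2 * N := coH_abs (by positivity) (by nlinarith)
  have hSN : S ^ 2 ≤ N ^ 2 := by
    calc S ^ 2 ≤ a * al := hS2
      _ ≤ 1 * al := mul_le_mul_of_nonneg_right ha1 hal0
      _ ≤ N ^ 2 := by rw [hhn]; linarith
  have b2 : |2 * S| ≤ 2 * N := by
    apply coH_abs (by positivity)
    calc (2 * S) ^ 2 = 4 * S ^ 2 := by ring
      _ ≤ 4 * N ^ 2 := by linarith
      _ = (2 * N) ^ 2 := by ring
  have b3 : |-2 * inn| ≤ 2 * N := by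
    rw [abs_mul]
    have e : |(-2 : ℝ)| = 2 := by norm_num
    rw [e]
    linarith
  have hTN : T ^ 2 ≤ (W * N) ^ 2 := by
    calc T ^ 2 ≤ c * be := hT2
      _ ≤ W ^ 2 * be := mul_le_mul_of_nonneg_right hc1 hbe0
      _ ≤ W ^ 2 * N ^ 2 := by
        apply mul_le_mul_of_nonneg_left _ (sq_nonneg _)
        rw [hhn]; linarith
      _ = (W * N) ^ 2 := by ring
  have hTa : |T| ≤ W * N := coH_abs (by positivity) hTN
  have b4 : |-2 * y0 * h0 - 2 * y1 * h1 - 2 * S| ≤ 2 * N := by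
    apply coH_abs (by positivity)
    have e1 := coH_inn (y0 := y0) (y1 := y1) (h0 := h0) (h1 := h1) ha0 hal0 hS2
    have e2 : (y0 ^ 2 + y1 ^ 2 + a) * (h0 ^ 2 + h1 ^ 2 + al) ≤ 1 * N ^ 2 := by
      apply mul_le_mul
      · linarith
      · rw [hhn]; linarith
      · positivity
      · norm_num
    calc (-2 * y0 * h0 - 2 * y1 * h1 - 2 * S) ^ 2 = 4 * (y0 * h0 + y1 * h1 + S) ^ 2 := by ring
      _ ≤ 4 * N ^ 2 := by linarith
      _ = (2 * N) ^ 2 := by ring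
  have hvb : ∀ i, |(![h0, h1, 2 * S, -2 * inn] : Fin 4 → ℝ) i| ≤ 2 * N := by
    intro i
    fin_cases i
    · exact b0
    · exact b1
    · exact b2
    · exact b3
  have hv0b : ∀ i, |(![h0, h1, 2 * S, -2 * y0 * h0 - 2 * y1 * h1 - 2 * S] : Fin 4 → ℝ) i| ≤ 2 * N := by
    intro i
    fin_cases i
    · exact b0
    · exact b1
    · exact b2
    · exact b4
  have hWN : 0 ≤ 2 * W * N := by positivity
  have hvd : ∀ i, |(![h0, h1, 2 * S, -2 * inn] : Fin 4 → ℝ) i -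
      (![h0, h1, 2 * S, -2 * y0 * h0 - 2 * y1 * h1 - 2 * S] : Fin 4 → ℝ) i| ≤ 2 * W * N := by
    intro i
    fin_cases i
    · show |h0 - h0| ≤ 2 * W * N
      rw [sub_self, abs_zero]; exact hWN
    · show |h1 - h1| ≤ 2 * W * N
      rw [sub_self, abs_zero]; exact hWN
    · show |2 * S - 2 * S| ≤ 2 * W * N
      rw [sub_self, abs_zero]; exact hWN
    · show |-2 * inn - (-2 * y0 * h0 - 2 * y1 * h1 - 2 * S)| ≤ 2 * W * N
      rw [hin]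
      have e : -2 * (y0 * h0 + y1 * h1 + S + T) - (-2 * y0 * h0 - 2 * y1 * h1 - 2 * S) = -2 * T := by ring
      rw [e, abs_mul]
      have e1 : |(-2 : ℝ)| = 2 := by norm_num
      rw [e1]
      linarith
  have herr := coH_hF F hM0.le hW0.le hN0 hvb hv0b hvd
    (fun i j => ((hML _ _ hqb hq0b i).2.2 j).1)
    (fun i j => hMq _ ((hML _ _ hqb hq0b i).2.2 j).2)
  have hFa := hMq _ (hML _ _ hqb hq0b 2).2.1
  have hFb := hMq _ (hML _ _ hqb hq0b 3).2.1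
  have hmain := hF2 y0 y1 w (by rw [hw]; linarith) h0 h1 k
  rw [hw] at hmain
  have ev : (![h0, h1, 2 * w * k, -2 * y0 * h0 - 2 * y1 * h1 - 2 * w * k] : Fin 4 → ℝ) =
      ![h0, h1, 2 * S, -2 * y0 * h0 - 2 * y1 * h1 - 2 * S] := by
    have e1 : 2 * w * k = 2 * S := by rw [← hwk]; ring
    rw [e1]
  rw [ev] at hmain
  have hab := Fab hF2 y0 y1 a ha0 (by linarith)
  have hFbn := Fb_neg hF1 y0 y1 a (1 - nz) ha0 (by linarith) (by linarith)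
  have r1 := (abs_le.1 herr).1
  have r2 := (abs_le.1 hFa).1
  have r3 := (abs_le.1 hFb).2
  refine coH_final (M := M) (W := W) (om := om) (s := h0 ^ 2 + h1 ^ 2) (be := be) (k2 := k ^ 2)
    (H0 := hF F (pt y0 y1 a (1 - y0 ^ 2 - y1 ^ 2 - a)) ![h0, h1, 2 * S, -2 * y0 * h0 - 2 * y1 * h1 - 2 * S])
    (Fa0 := dF F 2 (pt y0 y1 a (1 - y0 ^ 2 - y1 ^ 2 - a)))
    (Fb0 := dF F 3 (pt y0 y1 a (1 - y0 ^ 2 - y1 ^ 2 - a)))
    hM0.le hW0.le hal0 hbe0 (by positivity) hhn hk hom0.le hom1 hWM ?_ ?_ ?_ ?_ hFbn hab hX hY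
  · exact hmain
  · linarith
  · linarith
  · linarith

theorem bot_convex {F : P4} {κ : ℝ} (hκ : 0 < κ) (hF1 : F1 F κ) (hF2 : F2 F κ) :
    ∃ W0 om : ℝ, 0 < W0 ∧ W0 < 1 ∧ 0 < om ∧ om < 1 ∧ ∀ (A B : ℕ) (dA : Fin A → ℝ)
      (dB : Fin B → ℝ), (∀ j, |dA j| ≤ om) → (∀ j, |dB j| ≤ om) →
      ∀ z : EuclideanSpace ℝ (Fin 2 ⊕ Fin A ⊕ Fin B), ‖z‖ ≤ 1 →
        ∑ j, z (Sum.inr (Sum.inr j)) ^ 2 ≤ W0 ^ 2 →
        ∀ h : EuclideanSpace ℝ (Fin 2 ⊕ Fin A ⊕ Fin B),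
          κ / 2 * ‖h‖ ^ 2 ≤ iteratedFDeriv ℝ 2 (EQ F (qmB A B) (tv dA dB)) z ![h, h] := by
  obtain ⟨M, hM, hML⟩ := polyLip2 F
  have hM0 : 0 < M := by linarith
  have hW0 : 0 < min (1 / 2) (κ / (784 * M)) := lt_min (by norm_num) (by positivity)
  have hW1 : min (1 / 2) (κ / (784 * M)) < 1 := lt_of_le_of_lt (min_le_left _ _) (by norm_num)
  have hWM : 784 * M * min (1 / 2) (κ / (784 * M)) ≤ κ := by
    have h1 : min (1 / 2) (κ / (784 * M)) ≤ κ / (784 * M) := min_le_right _ _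
    rw [le_div_iff₀ (by positivity)] at h1
    linarith
  have hom0 : 0 < min (1 / 2) (κ / 8) := lt_min (by norm_num) (by positivity)
  have hom1 : min (1 / 2) (κ / 8) ≤ κ / 8 := min_le_right _ _
  refine ⟨min (1 / 2) (κ / (784 * M)), min (1 / 2) (κ / 8), hW0, hW1, hom0,
    lt_of_le_of_lt (min_le_left _ _) (by norm_num), ?_⟩
  generalize min (1 / 2) (κ / (784 * M)) = W at *
  generalize min (1 / 2) (κ / 8) = om at *
  intro A B dA dB hdA hdB z hz hzB h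
  have hz1 : ‖z‖ ^ 2 ≤ 1 := pow_le_one₀ (norm_nonneg z) hz
  have hin : inner ℝ z h = z (Sum.inl 0) * h (Sum.inl 0) + z (Sum.inl 1) * h (Sum.inl 1)
      + (∑ j, z (Sum.inr (Sum.inl j)) * h (Sum.inr (Sum.inl j)))
      + ∑ j, z (Sum.inr (Sum.inr j)) * h (Sum.inr (Sum.inr j)) := by
    rw [PiLp.inner_apply, Fintype.sum_sum_type, Fintype.sum_sum_type, Fin.sum_univ_two]
    simp only [RCLike.inner_apply, conj_trivial]
    have e1 : ∑ j, h (Sum.inr (Sum.inl j)) * z (Sum.inr (Sum.inl j)) =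
        ∑ j, z (Sum.inr (Sum.inl j)) * h (Sum.inr (Sum.inl j)) :=
      Finset.sum_congr rfl fun j _ => mul_comm _ _
    have e2 : ∑ j, h (Sum.inr (Sum.inr j)) * z (Sum.inr (Sum.inr j)) =
        ∑ j, z (Sum.inr (Sum.inr j)) * h (Sum.inr (Sum.inr j)) :=
      Finset.sum_congr rfl fun j _ => mul_comm _ _
    rw [e1, e2]
    ring
  have hinn : |inner ℝ z h| ≤ ‖h‖ := by
    have e1 : |inner ℝ z h| ≤ ‖z‖ * ‖h‖ := abs_real_inner_le_norm z h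
    have e2 : ‖z‖ * ‖h‖ ≤ 1 * ‖h‖ := mul_le_mul_of_nonneg_right hz (norm_nonneg h)
    linarith
  have hdt : -(om * ∑ j, h (Sum.inr (Sum.inl j)) ^ 2) ≤ ∑ j, dA j * h (Sum.inr (Sum.inl j)) ^ 2 := by
    rw [Finset.mul_sum, ← Finset.sum_neg_distrib]
    refine Finset.sum_le_sum fun j _ => ?_
    rw [← neg_mul]
    exact mul_le_mul_of_nonneg_right (abs_le.1 (hdA j)).1 (sq_nonneg _)
  have hdt' : -(om * ∑ j, h (Sum.inr (Sum.inr j)) ^ 2) ≤ ∑ j, dB j * h (Sum.inr (Sum.inr j)) ^ 2 := by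
    rw [Finset.mul_sum, ← Finset.sum_neg_distrib]
    refine Finset.sum_le_sum fun j _ => ?_
    rw [← neg_mul]
    exact mul_le_mul_of_nonneg_right (abs_le.1 (hdB j)).1 (sq_nonneg _)
  obtain ⟨w, k, hw, hwk, hk⟩ := coH_k (fun j => z (Sum.inr (Sum.inl j))) (fun j => h (Sum.inr (Sum.inl j)))
  have hD : iteratedFDeriv ℝ 2 (EQ F (qmB A B) (tv dA dB)) z ![h, h] =
      hF F (pt (z (Sum.inl 0)) (z (Sum.inl 1)) (∑ j, z (Sum.inr (Sum.inl j)) ^ 2) (1 - ‖z‖ ^ 2))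
        ![h (Sum.inl 0), h (Sum.inl 1), 2 * ∑ j, z (Sum.inr (Sum.inl j)) * h (Sum.inr (Sum.inl j)),
          -2 * inner ℝ z h]
      + (2 * dF F 2 (pt (z (Sum.inl 0)) (z (Sum.inl 1)) (∑ j, z (Sum.inr (Sum.inl j)) ^ 2) (1 - ‖z‖ ^ 2)) *
          (∑ j, h (Sum.inr (Sum.inl j)) ^ 2)
        - 2 * dF F 3 (pt (z (Sum.inl 0)) (z (Sum.inl 1)) (∑ j, z (Sum.inr (Sum.inl j)) ^ 2) (1 - ‖z‖ ^ 2)) *
          ‖h‖ ^ 2)
      + 2 * (∑ j, dA j * h (Sum.inr (Sum.inl j)) ^ 2 + ∑ j, dB j * h (Sum.inr (Sum.inr j)) ^ 2) := by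
    rw [EQ_hess, qmB_q, qmB_q', qmB_s]
    have e : ∑ k, tv dA dB k * h k ^ 2 = ∑ j, dA j * h (Sum.inr (Sum.inl j)) ^ 2 +
        ∑ j, dB j * h (Sum.inr (Sum.inr j)) ^ 2 := by
      rw [Fintype.sum_sum_type, Fintype.sum_sum_type]
      simp [tv]
    rw [e]
  rw [hD]
  exact coH_core hF1 hF2 hM hW0 hW1.le hWM hom0 hom1 hML
    (Finset.sum_nonneg fun j _ => sq_nonneg _) (Finset.sum_nonneg fun j _ => sq_nonneg _)
    (Finset.sum_nonneg fun j _ => sq_nonneg _) (Finset.sum_nonneg fun j _ => sq_nonneg _) (norm_nonneg h)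
    (nsq z) hz1 (nsq h) hin hinn (coH_cs _ _) (coH_cs _ _) hzB hw hwk hk hdt hdt'

end Pool.Agent.CNX
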