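import Pool.Agent.CNX.CO_G

/-!
# CO_I (difficulty 3): the top window (5.1)

Apply `WinStmt` with `ι = Fin 2 ⊕ Fin D3 ⊕ Fin D1`, constants `κ/2` and `L` from `EQ_bound (-F)`,
`E = EQ (-F) (qmT D3 D1) (-tv d3 d1)`, `Ω = closedBall 0 1` (inactivity: `interior (closedBall 0 1) = ball 0 1`), `D = D2`, `d = d2`,
`e = -e2`, `P = -(p, e3, e1)`. A configuration `x ∈ Sol` with `-c' ≤ lam` gives `z = ((y, w3, w1), w2, -lam)`:
`‖(y,w3,w1)‖² + ∑ w2² = 1`; `fderiv E z h - μ ⟪z,h⟫ = ⟪P,h⟫` with `μ = -lam` is minus the equations of `Sol` times `h`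
(`EQ_fderiv`, `qmT_q`, `qmT_q'`; `dF (-F) i = - dF F i`); `(2 d2 j - μ) w2 j = (2 d2 j + lam) w2 j = -e2 j`. The map `x ↦ z` is injective, so
`encard` of the set is the `encard` of its image (`Set.InjOn.encard_image`). `om = min (om of WIN) (κ/8) (1)`.
-/

set_option autoImplicit false

namespace Pool.Agent.CNX

open MvPolynomial

/-- the vector `(y, a, b)` -/
noncomputable def coI_vec {A B : ℕ} (y : Fin 2 → ℝ) (a : Fin A → ℝ) (b : Fin B → ℝ) :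
    EuclideanSpace ℝ (Fin 2 ⊕ Fin A ⊕ Fin B) :=
  WithLp.toLp 2 (Sum.elim y (Sum.elim a b))

theorem coI_vec_inl {A B : ℕ} (y : Fin 2 → ℝ) (a : Fin A → ℝ) (b : Fin B → ℝ) (i : Fin 2) :
    coI_vec y a b (Sum.inl i) = y i := rfl

theorem coI_vec_inr_inl {A B : ℕ} (y : Fin 2 → ℝ) (a : Fin A → ℝ) (b : Fin B → ℝ) (i : Fin A) :
    coI_vec y a b (Sum.inr (Sum.inl i)) = a i := rfl

theorem coI_vec_inr_inr {A B : ℕ} (y : Fin 2 → ℝ) (a : Fin A → ℝ) (b : Fin B → ℝ) (i : Fin B) :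
    coI_vec y a b (Sum.inr (Sum.inr i)) = b i := rfl

theorem coI_vec_inj {A B : ℕ} {y y' : Fin 2 → ℝ} {a a' : Fin A → ℝ} {b b' : Fin B → ℝ}
    (h : coI_vec y a b = coI_vec y' a' b') : y = y' ∧ a = a' ∧ b = b' := by
  refine ⟨?_, ?_, ?_⟩
  · funext i
    have := congrArg (fun z : EuclideanSpace ℝ (Fin 2 ⊕ Fin A ⊕ Fin B) => z (Sum.inl i)) h
    simpa only [coI_vec_inl] using this
  · funext i
    have := congrArg (fun z : EuclideanSpace ℝ (Fin 2 ⊕ Fin A ⊕ Fin B) => z (Sum.inr (Sum.inl i))) h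
    simpa only [coI_vec_inr_inl] using this
  · funext i
    have := congrArg (fun z : EuclideanSpace ℝ (Fin 2 ⊕ Fin A ⊕ Fin B) => z (Sum.inr (Sum.inr i))) h
    simpa only [coI_vec_inr_inr] using this

theorem coI_inner {A B : ℕ} (z h : EuclideanSpace ℝ (Fin 2 ⊕ Fin A ⊕ Fin B)) :
    inner ℝ z h = z (Sum.inl 0) * h (Sum.inl 0) + z (Sum.inl 1) * h (Sum.inl 1)
      + ∑ j, z (Sum.inr (Sum.inl j)) * h (Sum.inr (Sum.inl j))
      + ∑ j, z (Sum.inr (Sum.inr j)) * h (Sum.inr (Sum.inr j)) := by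
  rw [PiLp.inner_apply, Fintype.sum_sum_type, Fintype.sum_sum_type, Fin.sum_univ_two]
  simp only [RCLike.inner_apply, conj_trivial]
  have e : ∀ a b : ℝ, a * b = b * a := fun a b => mul_comm a b
  simp only [e (h.ofLp _) (z.ofLp _)]
  ring

theorem coI_tv {A B : ℕ} (dA : Fin A → ℝ) (dB : Fin B → ℝ)
    (z h : EuclideanSpace ℝ (Fin 2 ⊕ Fin A ⊕ Fin B)) :
    ∑ k, (-tv dA dB) k * z k * h k
      = -(∑ j, dA j * z (Sum.inr (Sum.inl j)) * h (Sum.inr (Sum.inl j)))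
      - ∑ j, dB j * z (Sum.inr (Sum.inr j)) * h (Sum.inr (Sum.inr j)) := by
  rw [Fintype.sum_sum_type, Fintype.sum_sum_type, Fin.sum_univ_two]
  simp only [Pi.neg_apply, tv, neg_mul, Finset.sum_neg_distrib, neg_zero, zero_mul]
  ring

theorem coI_dF_neg (F : P4) (i : Fin 4) (q : Fin 4 → ℝ) : dF (-F) i q = -dF F i q := by
  simp [dF]

/-- the map to the window configuration -/
noncomputable def coI_map {D3 D1 D2 : ℕ} (x : Cfg D3 D1 D2) :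
    EuclideanSpace ℝ (Fin 2 ⊕ Fin D3 ⊕ Fin D1) × (Fin D2 → ℝ) × ℝ :=
  (coI_vec x.y x.w3 x.w1, x.w2, -x.lam)

theorem coI_map_inj {D3 D1 D2 : ℕ} : Function.Injective (coI_map (D3 := D3) (D1 := D1) (D2 := D2)) := by
  intro x x' h
  unfold coI_map at h
  rw [Prod.mk.injEq, Prod.mk.injEq] at h
  obtain ⟨h1, h2, h3⟩ := h
  obtain ⟨hy, h3', h1'⟩ := coI_vec_inj h1
  have hl : x.lam = x'.lam := by linarith
  exact Prod.ext hy (Prod.ext h3' (Prod.ext h1' (Prod.ext h2 hl)))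

theorem coI_sol {F : P4} {D3 D1 D2 : ℕ} {d3 : Fin D3 → ℝ} {d1 : Fin D1 → ℝ} {d2 : Fin D2 → ℝ}
    {p : Fin 2 → ℝ} {e3 : Fin D3 → ℝ} {e1 : Fin D1 → ℝ} {e2 : Fin D2 → ℝ}
    {x : Cfg D3 D1 D2} (hx : x ∈ Sol F d3 d1 d2 p e3 e1 e2) :
    (coI_map x).1 ∈ Metric.closedBall (0 : EuclideanSpace ℝ (Fin 2 ⊕ Fin D3 ⊕ Fin D1)) 1 ∧
    ‖(coI_map x).1‖ ^ 2 + ∑ j, (coI_map x).2.1 j ^ 2 = 1 ∧
    (∀ h, fderiv ℝ (EQ (-F) (qmT D3 D1) (-tv d3 d1)) (coI_map x).1 h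
      - (coI_map x).2.2 * inner ℝ (coI_map x).1 h
        = inner ℝ (coI_vec (-p) (-e3) (-e1)) h) ∧
    ∀ j, (2 * d2 j - (coI_map x).2.2) * (coI_map x).2.1 j = (-e2) j := by
  obtain ⟨h0, h1, h3, hb, h2, hs⟩ := hx
  have hn : ‖(coI_map x).1‖ ^ 2 = x.y 0 ^ 2 + x.y 1 ^ 2 + ∑ j, x.w3 j ^ 2 + ∑ j, x.w1 j ^ 2 := by
    unfold coI_map
    rw [nsq]
    simp only [coI_vec_inl, coI_vec_inr_inl, coI_vec_inr_inr]
  have hs2 : ‖(coI_map x).1‖ ^ 2 + ∑ j, (coI_map x).2.1 j ^ 2 = 1 := by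
    rw [hn]
    exact hs
  refine ⟨?_, hs2, ?_, ?_⟩
  · rw [mem_closedBall_zero_iff]
    have h0' : 0 ≤ ∑ j, (coI_map x).2.1 j ^ 2 := Finset.sum_nonneg fun j _ => sq_nonneg _
    have h1' : ‖(coI_map x).1‖ ^ 2 ≤ 1 := by linarith
    exact (sq_le_one_iff₀ (norm_nonneg _)).mp h1'
  · intro h
    have hq : (qmT D3 D1).q (coI_map x).1 = x.q := by
      rw [qmT_q]
      rfl
    rw [EQ_fderiv, hq, qmT_q', coI_tv, coI_inner, coI_inner]
    simp only [Fin.sum_univ_four, coI_dF_neg, coI_map, coI_vec_inl, coI_vec_inr_inl,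
      coI_vec_inr_inr, Matrix.cons_val, Pi.neg_apply]
    have e3' : ∑ j, (-e3 j) * h (Sum.inr (Sum.inl j))
        = -(2 * dF F 2 x.q * ∑ j, x.w3 j * h (Sum.inr (Sum.inl j)))
          - 2 * (∑ j, d3 j * x.w3 j * h (Sum.inr (Sum.inl j)))
          + x.lam * ∑ j, x.w3 j * h (Sum.inr (Sum.inl j)) := by
      rw [Finset.mul_sum, Finset.mul_sum, Finset.mul_sum, ← Finset.sum_neg_distrib,
        ← Finset.sum_sub_distrib, ← Finset.sum_add_distrib]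
      refine Finset.sum_congr rfl fun j _ => ?_
      rw [← h3 j]
      ring
    have e1' : ∑ j, (-e1 j) * h (Sum.inr (Sum.inr j))
        = -(2 * dF F 3 x.q * ∑ j, x.w1 j * h (Sum.inr (Sum.inr j)))
          - 2 * (∑ j, d1 j * x.w1 j * h (Sum.inr (Sum.inr j)))
          + x.lam * ∑ j, x.w1 j * h (Sum.inr (Sum.inr j)) := by
      rw [Finset.mul_sum, Finset.mul_sum, Finset.mul_sum, ← Finset.sum_neg_distrib,
        ← Finset.sum_sub_distrib, ← Finset.sum_add_distrib]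
      refine Finset.sum_congr rfl fun j _ => ?_
      rw [← hb j]
      ring
    rw [e3', e1', ← h0, ← h1]
    ring
  · intro j
    show (2 * d2 j - -x.lam) * x.w2 j = -e2 j
    rw [← h2 j]
    ring

theorem coI_abs_tv {A B : ℕ} {dA : Fin A → ℝ} {dB : Fin B → ℝ} {c : ℝ} (hc : 0 ≤ c)
    (hA : ∀ j, |dA j| ≤ c) (hB : ∀ j, |dB j| ≤ c) (k : Fin 2 ⊕ Fin A ⊕ Fin B) :
    |(-tv dA dB) k| ≤ c := by
  rw [Pi.neg_apply, abs_neg]
  rcases k with k | k | k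
  · simpa [tv] using hc
  · exact hA k
  · exact hB k

theorem top_count (hW : WinStmt) {F : P4} {κ : ℝ} (hκ : 0 < κ) (hF1 : F1 F κ) :
    ∃ c om : ℝ, 0 < c ∧ 0 < om ∧ ∀ c' : ℝ, 0 < c' → c' ≤ c →
      ∀ (D3 D1 D2 : ℕ) (d3 : Fin D3 → ℝ) (d1 : Fin D1 → ℝ) (d2 : Fin D2 → ℝ),
        Pert d3 om → Pert d1 om → Pert d2 om →
        ∀ (p : Fin 2 → ℝ) (e3 : Fin D3 → ℝ) (e1 : Fin D1 → ℝ) (e2 : Fin D2 → ℝ),
          {x ∈ Sol F d3 d1 d2 p e3 e1 e2 | -c' ≤ x.lam}.encard ≤ 2 * D2 + 3 ∧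
          ((∀ x ∈ Sol F d3 d1 d2 p e3 e1 e2, -c' ≤ x.lam →
              ∀ j j', ¬ (2 * d2 j ≤ -x.lam ∧ -x.lam ≤ 2 * d2 j')) →
            {x ∈ Sol F d3 d1 d2 p e3 e1 e2 | -c' ≤ x.lam}.encard ≤ 5) := by
  obtain ⟨L, hL1, hL⟩ := EQ_bound (-F)
  obtain ⟨c, om0, hc, hom0, -, hwin⟩ := hW (κ / 2) L (by positivity)
  refine ⟨c, min om0 (min (κ / 8) 1), hc, by positivity, ?_⟩
  intro c' hc' hcc D3 D1 D2 d3 d1 d2 hd3 hd1 hd2 p e3 e1 e2
  have hom1 : min om0 (min (κ / 8) 1) ≤ κ / 8 := (min_le_right _ _).trans (min_le_left _ _)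
  have hom2 : min om0 (min (κ / 8) 1) ≤ 1 := (min_le_right _ _).trans (min_le_right _ _)
  have ha3 : ∀ j, |d3 j| ≤ min om0 (min (κ / 8) 1) := fun j => by
    rw [abs_of_pos (hd3.2 j).1]
    exact (hd3.2 j).2.le
  have ha1 : ∀ j, |d1 j| ≤ min om0 (min (κ / 8) 1) := fun j => by
    rw [abs_of_pos (hd1.2 j).1]
    exact (hd1.2 j).2.le
  have key := hwin (Fin 2 ⊕ Fin D3 ⊕ Fin D1) (EQ (-F) (qmT D3 D1) (-tv d3 d1))
    (Metric.closedBall 0 1) (EQ_contDiff _ _ _ _) (isCompact_closedBall _ _)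
    (convex_closedBall _ _) (le_refl _)
    (fun z hz h => top_convex hκ hF1 d3 d1
      (fun j => (ha3 j).trans (hom1.trans (by linarith)))
      (fun j => (ha1 j).trans (hom1.trans (by linarith))) z
      (mem_closedBall_zero_iff.mp hz) h)
    (fun z hz => (hL _ _ _ qmT_ok (coI_abs_tv zero_le_one
      (fun j => (ha3 j).trans hom2) (fun j => (ha1 j).trans hom2)) z
      (mem_closedBall_zero_iff.mp hz)).1)
    (fun z hz => (hL _ _ _ qmT_ok (coI_abs_tv zero_le_one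
      (fun j => (ha3 j).trans hom2) (fun j => (ha1 j).trans hom2)) z
      (mem_closedBall_zero_iff.mp hz)).2)
    D2 d2 ⟨hd2.1, fun j => ⟨(hd2.2 j).1, (hd2.2 j).2.trans_le (min_le_left _ _)⟩⟩
    (-e2) (coI_vec (-p) (-e3) (-e1))
    (fun μ _ x _ _ hx => by
      rw [interior_closedBall _ one_ne_zero, mem_ball_zero_iff]
      exact hx)
    c' hc' hcc
    (coI_map '' {x ∈ Sol F d3 d1 d2 p e3 e1 e2 | -c' ≤ x.lam})
    (by
      rintro z ⟨x, ⟨hx, hl⟩, rfl⟩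
      obtain ⟨k1, k2, k3, k4⟩ := coI_sol hx
      refine ⟨k1, k2, ?_, k3, k4⟩
      show -x.lam ≤ c'
      linarith)
  rw [coI_map_inj.encard_image] at key
  refine ⟨key.1, fun hno => key.2 ?_⟩
  rintro z ⟨x, ⟨hx, hl⟩, rfl⟩ j j'
  exact hno x hx hl j j'

end Pool.Agent.CNX
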