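import Pool.Agent.CNX.CO_H

/-!
# CO_J (difficulty 4): the bottom window (5.3)

Let `W0, om₁` be from `bot_convex`, `c₁, om₂` from `WinStmt` with constants `κ/2`, `L` from `EQ_bound F`. `ι = Fin 2 ⊕ Fin D3 ⊕ Fin D2`,
`E = EQ F (qmB D3 D2) (tv d3 (-d2))`, `Ω = {z | ‖z‖ ≤ 1 ∧ ∑ j, z (inr (inr j)) ^ 2 ≤ W0²}` (compact, convex), `D = D1`, `d = d1`, `e = e1`,
`P = (p, e3, e2)`. `c ≤ min c₁ (κ/8)`, `om ≤ min .. (κ/16)`, `E0 = κ W0 / 8`.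
(a) A configuration `x ∈ Sol` with `mu1 ≤ c'`: `lam = mu1 + 2 F_b ≤ c' - κ ≤ -κ/2` (`Fb_neg`), so `|-2 d2 j - lam| ≥ κ/4`, `∑ w2² ≤ ∑ e2² · 16/κ² ≤ W0²`.
 `z = ((y, w3, w2), w1, mu1)`: `1 - ‖(y,w3,w2)‖² = ∑ w1²`, so `(qmB).q z = x.q`; `fderiv E z h - μ⟪z,h⟫ = ⟪P,h⟫` with `μ = mu1`:
 the coefficient of `y i`: `F_i - 2F_b y i - mu1 y i = F_i - lam y i = p i`; of `w3 j`: `(2F_a - 2F_b + 2d3 j - mu1) w3 j = (2F_a + 2 d3 j - lam) w3 j = e3 j`;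
 of `w2 j`: `(-2F_b - 2 d2 j - mu1) w2 j = (-2 d2 j - lam) w2 j = e2 j`; and `(2 d1 j - mu1) w1 j = e1 j`.
(b) Inactivity: let `μ ≤ c`, `x ∈ Ω` a minimiser of `E_μ = E - μ/2‖·‖² - ⟪P,·⟫` on `Ω`, `‖x‖ < 1`. If `∑ x(inr inr)² < W0²` then `x ∈ interior Ω`. Otherwise
 (`= W0²`) let `v = (0, 0, -xB)`: `x + t v ∈ Ω` for `0 ≤ t ≤ 1`, so the derivative of `E_μ` at `x` in direction `v` is `≥ 0`:
 `-(−2F_b W0² − 2∑ d2 xB² − μ W0²) + ⟪e2, xB⟫ ≥ 0`, so `(κ - 2om - c) W0² ≤ √(∑e2²) W0 ≤ E0 W0`, contradiction (`E0 = κ W0/8`).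
(c) the map `x ↦ z` is injective (from `z` one reads `y, w3, w2, w1`, then `lam = mu1 + 2 F_b(q)`).
-/

set_option autoImplicit false

namespace Pool.Agent.CNX

open MvPolynomial

/-- the part of `WinStmt` after the choice of the constants -/
def coJ_Win (κ L c om : ℝ) : Prop :=
  ∀ (ι : Type) [Fintype ι] (E : EuclideanSpace ℝ ι → ℝ) (Ω : Set (EuclideanSpace ℝ ι)),
    ContDiff ℝ 3 E → IsCompact Ω → Convex ℝ Ω → Ω ⊆ Metric.closedBall 0 1 →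
    (∀ x ∈ Ω, ∀ h, κ * ‖h‖ ^ 2 ≤ iteratedFDeriv ℝ 2 E x ![h, h]) →
    (∀ x ∈ Ω, ‖iteratedFDeriv ℝ 2 E x‖ ≤ L) → (∀ x ∈ Ω, ‖iteratedFDeriv ℝ 3 E x‖ ≤ L) →
    ∀ (D : ℕ) (d : Fin D → ℝ), Pert d om → ∀ (e : Fin D → ℝ) (P : EuclideanSpace ℝ ι),
      (∀ μ : ℝ, μ ≤ c → ∀ x ∈ Ω,
        (∀ x' ∈ Ω, E x - μ / 2 * ‖x‖ ^ 2 - inner ℝ P x ≤ E x' - μ / 2 * ‖x'‖ ^ 2 - inner ℝ P x') →
        ‖x‖ < 1 → x ∈ interior Ω) →
      ∀ c' : ℝ, 0 < c' → c' ≤ c →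
      ∀ Z : Set (EuclideanSpace ℝ ι × (Fin D → ℝ) × ℝ),
        (∀ z ∈ Z, z.1 ∈ Ω ∧ ‖z.1‖ ^ 2 + ∑ j, z.2.1 j ^ 2 = 1 ∧ z.2.2 ≤ c' ∧
          (∀ h, fderiv ℝ E z.1 h - z.2.2 * inner ℝ z.1 h = inner ℝ P h) ∧
          ∀ j, (2 * d j - z.2.2) * z.2.1 j = e j) →
        Z.encard ≤ 2 * D + 3 ∧
        ((∀ z ∈ Z, ∀ j j', ¬ (2 * d j ≤ z.2.2 ∧ z.2.2 ≤ 2 * d j')) → Z.encard ≤ 5)

section
variable {A B : ℕ}

/-- the vector with the given parts -/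
def coJ_vec (y : Fin 2 → ℝ) (a : Fin A → ℝ) (b : Fin B → ℝ) : EuclideanSpace ℝ (Fin 2 ⊕ Fin A ⊕ Fin B) :=
  WithLp.toLp 2 (Sum.elim y (Sum.elim a b))

theorem coJ_vec_y (y : Fin 2 → ℝ) (a : Fin A → ℝ) (b : Fin B → ℝ) (i : Fin 2) : coJ_vec y a b (Sum.inl i) = y i := rfl

theorem coJ_vec_a (y : Fin 2 → ℝ) (a : Fin A → ℝ) (b : Fin B → ℝ) (i : Fin A) :
    coJ_vec y a b (Sum.inr (Sum.inl i)) = a i := rfl

theorem coJ_vec_b (y : Fin 2 → ℝ) (a : Fin A → ℝ) (b : Fin B → ℝ) (i : Fin B) :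
    coJ_vec y a b (Sum.inr (Sum.inr i)) = b i := rfl

theorem coJ_inner (v h : EuclideanSpace ℝ (Fin 2 ⊕ Fin A ⊕ Fin B)) :
    inner ℝ v h = v (Sum.inl 0) * h (Sum.inl 0) + v (Sum.inl 1) * h (Sum.inl 1)
      + ∑ j, v (Sum.inr (Sum.inl j)) * h (Sum.inr (Sum.inl j)) + ∑ j, v (Sum.inr (Sum.inr j)) * h (Sum.inr (Sum.inr j)) := by
  rw [PiLp.inner_apply, Fintype.sum_sum_type, Fin.sum_univ_two, Fintype.sum_sum_type, add_assoc]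
  simp only [RCLike.inner_apply, conj_trivial]
  simp only [mul_comm, add_assoc]

theorem coJ_tsum (dA : Fin A → ℝ) (dB : Fin B → ℝ) (v h : EuclideanSpace ℝ (Fin 2 ⊕ Fin A ⊕ Fin B)) :
    ∑ k, tv dA dB k * v k * h k = ∑ j, dA j * v (Sum.inr (Sum.inl j)) * h (Sum.inr (Sum.inl j))
      + ∑ j, dB j * v (Sum.inr (Sum.inr j)) * h (Sum.inr (Sum.inr j)) := by
  rw [Fintype.sum_sum_type, Fintype.sum_sum_type, Fin.sum_univ_two]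
  simp only [tv, zero_mul, add_zero, zero_add]

/-- the first derivative of the bottom function -/
theorem coJ_fderiv (F : P4) (dA : Fin A → ℝ) (dB : Fin B → ℝ) (v h : EuclideanSpace ℝ (Fin 2 ⊕ Fin A ⊕ Fin B)) :
    fderiv ℝ (EQ F (qmB A B) (tv dA dB)) v h = dF F 0 ((qmB A B).q v) * h (Sum.inl 0)
      + dF F 1 ((qmB A B).q v) * h (Sum.inl 1)
      + dF F 2 ((qmB A B).q v) * (2 * ∑ j, v (Sum.inr (Sum.inl j)) * h (Sum.inr (Sum.inl j)))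
      + dF F 3 ((qmB A B).q v) * (-2 * inner ℝ v h)
      + 2 * (∑ j, dA j * v (Sum.inr (Sum.inl j)) * h (Sum.inr (Sum.inl j))
        + ∑ j, dB j * v (Sum.inr (Sum.inr j)) * h (Sum.inr (Sum.inr j))) := by
  rw [EQ_fderiv, coJ_tsum, qmB_q', Fin.sum_univ_four]
  rfl

/-- the domain -/
def coJ_Om (A B : ℕ) (W : ℝ) : Set (EuclideanSpace ℝ (Fin 2 ⊕ Fin A ⊕ Fin B)) :=
  {z | ‖z‖ ≤ 1 ∧ ∑ j, z (Sum.inr (Sum.inr j)) ^ 2 ≤ W ^ 2}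

theorem coJ_cont : Continuous (fun z : EuclideanSpace ℝ (Fin 2 ⊕ Fin A ⊕ Fin B) => ∑ j, z (Sum.inr (Sum.inr j)) ^ 2) := by
  fun_prop

theorem coJ_compact (W : ℝ) : IsCompact (coJ_Om A B W) := by
  have h1 : coJ_Om A B W = Metric.closedBall 0 1 ∩ {z | ∑ j, z (Sum.inr (Sum.inr j)) ^ 2 ≤ W ^ 2} := by
    ext z
    simp only [coJ_Om, Set.mem_ofPred_eq, Set.mem_inter_iff, mem_closedBall_zero_iff]
  rw [h1]
  exact (isCompact_closedBall _ _).inter_right (isClosed_le coJ_cont continuous_const)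

/-- projection to the last part -/
noncomputable def coJ_pr (A B : ℕ) : EuclideanSpace ℝ (Fin 2 ⊕ Fin A ⊕ Fin B) →ₗ[ℝ] EuclideanSpace ℝ (Fin B) where
  toFun z := WithLp.toLp 2 (fun j => z (Sum.inr (Sum.inr j)))
  map_add' _ _ := rfl
  map_smul' _ _ := rfl

theorem coJ_pr_nsq (z : EuclideanSpace ℝ (Fin 2 ⊕ Fin A ⊕ Fin B)) :
    ‖coJ_pr A B z‖ ^ 2 = ∑ j, z (Sum.inr (Sum.inr j)) ^ 2 := by
  rw [EuclideanSpace.norm_sq_eq]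
  refine Finset.sum_congr rfl fun j _ => ?_
  rw [Real.norm_eq_abs, sq_abs]
  rfl

theorem coJ_convex {W : ℝ} (hW : 0 < W) : Convex ℝ (coJ_Om A B W) := by
  have h1 : coJ_Om A B W = Metric.closedBall 0 1 ∩ (coJ_pr A B) ⁻¹' (Metric.closedBall 0 W) := by
    ext z
    simp only [coJ_Om, Set.mem_ofPred_eq, Set.mem_inter_iff, mem_closedBall_zero_iff, Set.mem_preimage]
    rw [← coJ_pr_nsq, sq_le_sq₀ (norm_nonneg _) hW.le]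
  rw [h1]
  exact (convex_closedBall _ _).inter ((convex_closedBall _ _).linear_preimage _)

theorem coJ_interior {W : ℝ} {x : EuclideanSpace ℝ (Fin 2 ⊕ Fin A ⊕ Fin B)} (h1 : ‖x‖ < 1)
    (h2 : ∑ j, x (Sum.inr (Sum.inr j)) ^ 2 < W ^ 2) : x ∈ interior (coJ_Om A B W) := by
  rw [mem_interior]
  refine ⟨{z | ‖z‖ < 1} ∩ {z | ∑ j, z (Sum.inr (Sum.inr j)) ^ 2 < W ^ 2}, fun z hz => ⟨le_of_lt hz.1, le_of_lt hz.2⟩, ?_, h1, h2⟩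
  exact (isOpen_lt continuous_norm continuous_const).inter (isOpen_lt coJ_cont continuous_const)

/-- inactivity of the constraint `|zB| ≤ W` -/
theorem coJ_inact {F : P4} {κ W om E0 : ℝ} (hκ : 0 < κ) (hF1 : F1 F κ) (hW : 0 < W) (hom : om ≤ κ / 16) (hE0 : E0 = κ * W / 8)
    {d3 : Fin A → ℝ} {d2 : Fin B → ℝ} (h2 : Pert d2 om) {p : Fin 2 → ℝ} {e3 : Fin A → ℝ} {e2 : Fin B → ℝ}
    (he : ∑ j, e2 j ^ 2 ≤ E0 ^ 2) {μ : ℝ} (hμ : μ ≤ κ / 16) {x : EuclideanSpace ℝ (Fin 2 ⊕ Fin A ⊕ Fin B)}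
    (hx : x ∈ coJ_Om A B W)
    (hmin : ∀ x' ∈ coJ_Om A B W, EQ F (qmB A B) (tv d3 (-d2)) x - μ / 2 * ‖x‖ ^ 2 - inner ℝ (coJ_vec p e3 e2) x ≤
      EQ F (qmB A B) (tv d3 (-d2)) x' - μ / 2 * ‖x'‖ ^ 2 - inner ℝ (coJ_vec p e3 e2) x')
    (hx1 : ‖x‖ < 1) : x ∈ interior (coJ_Om A B W) := by
  rcases hx.2.lt_or_eq with h | h
  · exact coJ_interior hx1 h
  exfalso
  obtain ⟨v, hv⟩ : ∃ v : EuclideanSpace ℝ (Fin 2 ⊕ Fin A ⊕ Fin B),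
      v = coJ_vec 0 0 (fun j => -x (Sum.inr (Sum.inr j))) := ⟨_, rfl⟩
  have vy : ∀ i, v (Sum.inl i) = 0 := fun i => by rw [hv]; rfl
  have va : ∀ i, v (Sum.inr (Sum.inl i)) = 0 := fun i => by rw [hv]; rfl
  have vb : ∀ i, v (Sum.inr (Sum.inr i)) = -x (Sum.inr (Sum.inr i)) := fun i => by rw [hv]; rfl
  have hxv : x + v ∈ coJ_Om A B W := by
    have e1 : ∑ j, (x + v) (Sum.inr (Sum.inr j)) ^ 2 = 0 := by
      refine Finset.sum_eq_zero fun j _ => ?_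
      rw [PiLp.add_apply, vb, add_neg_cancel]
      ring
    refine ⟨?_, by rw [e1]; positivity⟩
    have e2 : ‖x + v‖ ^ 2 ≤ ‖x‖ ^ 2 := by
      rw [nsq, nsq x, e1]
      simp only [PiLp.add_apply, vy, va, add_zero]
      have : 0 ≤ ∑ j, x (Sum.inr (Sum.inr j)) ^ 2 := Finset.sum_nonneg fun j _ => sq_nonneg _
      linarith
    have e3 := abs_le_of_sq_le_sq' e2 (norm_nonneg _)
    linarith [e3.2]
  have hseg : segment ℝ x (x + v) ⊆ coJ_Om A B W := (coJ_convex hW).segment_subset hx hxv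
  have hd1 : HasFDerivAt (EQ F (qmB A B) (tv d3 (-d2))) (fderiv ℝ (EQ F (qmB A B) (tv d3 (-d2))) x) x :=
    (((EQ_contDiff F (qmB A B) (tv d3 (-d2)) 1).differentiable (by norm_num)) x).hasFDerivAt
  have hd2 := (hasStrictFDerivAt_norm_sq x).hasFDerivAt.const_mul (μ / 2)
  have hd3 : HasFDerivAt (fun z => inner ℝ (coJ_vec p e3 e2) z) (innerSL ℝ (coJ_vec p e3 e2)) x :=
    (innerSL ℝ (coJ_vec p e3 e2)).hasFDerivAt
  have hd := (hd1.sub hd2).sub hd3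
  have hloc : IsLocalMinOn (fun z => EQ F (qmB A B) (tv d3 (-d2)) z - μ / 2 * ‖z‖ ^ 2 - inner ℝ (coJ_vec p e3 e2) z)
      (coJ_Om A B W) x := (isMinOn_iff.2 hmin).localize
  have hpos := hloc.hasFDerivWithinAt_nonneg hd.hasFDerivWithinAt (mem_posTangentConeAt_of_segment_subset hseg)
  have e4 : (0 : ℝ) ≤ fderiv ℝ (EQ F (qmB A B) (tv d3 (-d2))) x v - μ / 2 * (2 * inner ℝ x v) - inner ℝ (coJ_vec p e3 e2) v := by
    refine hpos.trans_eq ?_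
    simp [two_smul]
    ring
  have i1 : inner ℝ x v = -W ^ 2 := by
    rw [coJ_inner, ← h]
    simp only [vy, va, vb, mul_zero, Finset.sum_const_zero, zero_add, mul_neg, Finset.sum_neg_distrib]
    congr 1
    exact Finset.sum_congr rfl fun j _ => by ring
  have i2 : inner ℝ (coJ_vec p e3 e2) v = -∑ j, e2 j * x (Sum.inr (Sum.inr j)) := by
    rw [coJ_inner]
    simp only [vy, va, vb, mul_zero, Finset.sum_const_zero, zero_add, mul_neg, Finset.sum_neg_distrib, coJ_vec_b]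
  rw [coJ_fderiv, i1, i2] at e4
  simp only [vy, va, vb, mul_zero, Finset.sum_const_zero, add_zero, zero_add, Pi.neg_apply] at e4
  have hFb : dF F 3 ((qmB A B).q x) ≤ -(κ / 2) := by
    rw [qmB_q]
    have hn := nsq x
    have h0 : 0 ≤ ∑ j, x (Sum.inr (Sum.inr j)) ^ 2 := Finset.sum_nonneg fun j _ => sq_nonneg _
    refine Fb_neg hF1 _ _ _ _ (Finset.sum_nonneg fun j _ => sq_nonneg _) ?_ ?_
    · nlinarith [norm_nonneg x]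
    · linarith
  have j1 : ∑ j, -d2 j * x (Sum.inr (Sum.inr j)) * -x (Sum.inr (Sum.inr j)) ≤ κ / 16 * W ^ 2 := by
    rw [← h, Finset.mul_sum]
    refine Finset.sum_le_sum fun j _ => ?_
    have := (h2.2 j).2
    nlinarith [sq_nonneg (x (Sum.inr (Sum.inr j)))]
  have j2 : ∑ j, e2 j * x (Sum.inr (Sum.inr j)) ≤ E0 * W := by
    have c1 := Finset.sum_mul_sq_le_sq_mul_sq Finset.univ e2 (fun j => x (Sum.inr (Sum.inr j)))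
    rw [h] at c1
    have c2 : (∑ j, e2 j * x (Sum.inr (Sum.inr j))) ^ 2 ≤ (E0 * W) ^ 2 := by
      rw [mul_pow]
      exact c1.trans (mul_le_mul_of_nonneg_right he (sq_nonneg _))
    have : 0 ≤ E0 * W := by
      rw [hE0]
      positivity
    exact (abs_le_of_sq_le_sq' c2 this).2
  rw [hE0] at j2
  have hW2 : 0 < W ^ 2 := by positivity
  have k1 : dF F 3 ((qmB A B).q x) * W ^ 2 ≤ -(κ / 2) * W ^ 2 := mul_le_mul_of_nonneg_right hFb hW2.le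
  have k2 : μ * W ^ 2 ≤ κ / 16 * W ^ 2 := mul_le_mul_of_nonneg_right hμ hW2.le
  nlinarith

end

section
variable {D3 D1 D2 : ℕ}

/-- the element of the window lemma -/
noncomputable def coJ_map (F : P4) (x : Cfg D3 D1 D2) :
    EuclideanSpace ℝ (Fin 2 ⊕ Fin D3 ⊕ Fin D2) × (Fin D1 → ℝ) × ℝ :=
  (coJ_vec x.y x.w3 x.w2, x.w1, mu1 F x)

theorem coJ_inj (F : P4) : Function.Injective (coJ_map (D3 := D3) (D1 := D1) (D2 := D2) F) := by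
  intro x x' h
  have h1 : coJ_vec x.y x.w3 x.w2 = coJ_vec x'.y x'.w3 x'.w2 := congrArg Prod.fst h
  have h2 : x.w1 = x'.w1 := congrArg (fun z => z.2.1) h
  have h3 : mu1 F x = mu1 F x' := congrArg (fun z => z.2.2) h
  have ey : x.y = x'.y := funext fun i => congrArg (fun v => v (Sum.inl i)) h1
  have e3 : x.w3 = x'.w3 := funext fun i => congrArg (fun v => v (Sum.inr (Sum.inl i))) h1
  have e2 : x.w2 = x'.w2 := funext fun i => congrArg (fun v => v (Sum.inr (Sum.inr i))) h1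
  have eq : x.q = x'.q := by
    unfold Cfg.q
    rw [ey, e3, h2]
  have el : x.lam = x'.lam := by
    unfold mu1 at h3
    rw [eq] at h3
    linarith
  exact Prod.ext ey (Prod.ext e3 (Prod.ext h2 (Prod.ext e2 el)))

/-- a configuration satisfies the hypotheses on `Z` -/
theorem coJ_mem {F : P4} {κ W E0 om c' : ℝ} (hκ : 0 < κ) (hF1 : F1 F κ) (hW : 0 < W) (hom : om ≤ κ / 16)
    (hE0 : E0 = κ * W / 8) (hc' : c' ≤ κ / 16) {d3 : Fin D3 → ℝ} {d1 : Fin D1 → ℝ} {d2 : Fin D2 → ℝ}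
    (h2 : Pert d2 om) {p : Fin 2 → ℝ} {e3 : Fin D3 → ℝ} {e1 : Fin D1 → ℝ} {e2 : Fin D2 → ℝ}
    (he : ∑ j, e2 j ^ 2 ≤ E0 ^ 2) {x : Cfg D3 D1 D2} (hx : x ∈ Sol F d3 d1 d2 p e3 e1 e2) (hmu : mu1 F x ≤ c') :
    (coJ_map F x).1 ∈ coJ_Om D3 D2 W ∧ ‖(coJ_map F x).1‖ ^ 2 + ∑ j, (coJ_map F x).2.1 j ^ 2 = 1 ∧ (coJ_map F x).2.2 ≤ c' ∧
      (∀ h, fderiv ℝ (EQ F (qmB D3 D2) (tv d3 (-d2))) (coJ_map F x).1 h - (coJ_map F x).2.2 * inner ℝ (coJ_map F x).1 h =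
        inner ℝ (coJ_vec p e3 e2) h) ∧
      ∀ j, (2 * d1 j - (coJ_map F x).2.2) * (coJ_map F x).2.1 j = e1 j := by
  obtain ⟨s0, s1, s3, t1, t2, hn⟩ := hx
  have hns : ‖coJ_vec x.y x.w3 x.w2‖ ^ 2 = x.y 0 ^ 2 + x.y 1 ^ 2 + ∑ j, x.w3 j ^ 2 + ∑ j, x.w2 j ^ 2 := nsq _
  have p3 : 0 ≤ ∑ j, x.w3 j ^ 2 := Finset.sum_nonneg fun j _ => sq_nonneg _
  have p1 : 0 ≤ ∑ j, x.w1 j ^ 2 := Finset.sum_nonneg fun j _ => sq_nonneg _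
  have p2 : 0 ≤ ∑ j, x.w2 j ^ 2 := Finset.sum_nonneg fun j _ => sq_nonneg _
  have hsum : ‖coJ_vec x.y x.w3 x.w2‖ ^ 2 + ∑ j, x.w1 j ^ 2 = 1 := by rw [hns]; linarith
  have hq : (qmB D3 D2).q (coJ_vec x.y x.w3 x.w2) = x.q := by
    rw [qmB_q]
    have e : 1 - ‖coJ_vec x.y x.w3 x.w2‖ ^ 2 = ∑ j, x.w1 j ^ 2 := by linarith
    rw [e]
    rfl
  have hFb : dF F 3 x.q ≤ -(κ / 2) := Fb_neg hF1 _ _ _ _ p3 p1 (by linarith)
  have hlam : x.lam ≤ κ / 16 - κ := by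
    unfold mu1 at hmu
    linarith
  have hw2 : ∑ j, x.w2 j ^ 2 ≤ W ^ 2 := by
    have hk : ∀ j, (κ / 2) ^ 2 * x.w2 j ^ 2 ≤ e2 j ^ 2 := by
      intro j
      rw [← t2 j, mul_pow]
      refine mul_le_mul_of_nonneg_right ?_ (sq_nonneg _)
      have := (h2.2 j).2
      exact pow_le_pow_left₀ (by positivity) (by linarith) 2
    have hk2 : (κ / 2) ^ 2 * ∑ j, x.w2 j ^ 2 ≤ (κ * W / 8) ^ 2 := by
      rw [Finset.mul_sum, ← hE0]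
      exact (Finset.sum_le_sum fun j _ => hk j).trans he
    have hk3 : (κ * W / 8) ^ 2 ≤ (κ / 2) ^ 2 * W ^ 2 := by
      have : (κ * W / 8) ^ 2 = (κ / 2) ^ 2 * W ^ 2 / 16 := by ring
      rw [this]
      have : 0 ≤ (κ / 2) ^ 2 * W ^ 2 := by positivity
      linarith
    exact le_of_mul_le_mul_left (hk2.trans hk3) (by positivity)
  refine ⟨⟨?_, hw2⟩, hsum, hmu, ?_, ?_⟩
  · have : ‖coJ_vec x.y x.w3 x.w2‖ ^ 2 ≤ 1 ^ 2 := by linarith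
    exact (abs_le_of_sq_le_sq' this zero_le_one).2
  · intro h
    change fderiv ℝ (EQ F (qmB D3 D2) (tv d3 (-d2))) (coJ_vec x.y x.w3 x.w2) h -
      mu1 F x * inner ℝ (coJ_vec x.y x.w3 x.w2) h = inner ℝ (coJ_vec p e3 e2) h
    rw [coJ_fderiv, hq, coJ_inner, coJ_inner]
    simp only [coJ_vec_y, coJ_vec_a, coJ_vec_b, Pi.neg_apply]
    have g3 : ∑ j, e3 j * h (Sum.inr (Sum.inl j)) = (2 * dF F 2 x.q - x.lam) * ∑ j, x.w3 j * h (Sum.inr (Sum.inl j))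
        + 2 * ∑ j, d3 j * x.w3 j * h (Sum.inr (Sum.inl j)) := by
      rw [Finset.mul_sum, Finset.mul_sum, ← Finset.sum_add_distrib]
      refine Finset.sum_congr rfl fun j _ => ?_
      rw [← s3 j]
      ring
    have g2 : ∑ j, e2 j * h (Sum.inr (Sum.inr j)) = -x.lam * ∑ j, x.w2 j * h (Sum.inr (Sum.inr j))
        + 2 * ∑ j, -d2 j * x.w2 j * h (Sum.inr (Sum.inr j)) := by
      rw [Finset.mul_sum, Finset.mul_sum, ← Finset.sum_add_distrib]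
      refine Finset.sum_congr rfl fun j _ => ?_
      rw [← t2 j]
      ring
    rw [g3, g2, ← s0, ← s1]
    unfold mu1
    ring
  · intro j
    change (2 * d1 j - mu1 F x) * x.w1 j = e1 j
    rw [← t1 j]
    unfold mu1
    ring

end

theorem coJ_aux
    (hW : ∀ κ L : ℝ, 0 < κ → ∃ c om : ℝ, 0 < c ∧ 0 < om ∧ c ≤ κ / 8 ∧ coJ_Win κ L c om) {F : P4} {κ : ℝ} (hκ : 0 < κ) (hF1 : F1 F κ) (hF2 : F2 F κ) :
    ∃ c om E0 : ℝ, 0 < c ∧ 0 < om ∧ 0 < E0 ∧ ∀ c' : ℝ, 0 < c' → c' ≤ c →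
      ∀ (D3 D1 D2 : ℕ) (d3 : Fin D3 → ℝ) (d1 : Fin D1 → ℝ) (d2 : Fin D2 → ℝ),
        Pert d3 om → Pert d1 om → Pert d2 om →
        ∀ (p : Fin 2 → ℝ) (e3 : Fin D3 → ℝ) (e1 : Fin D1 → ℝ) (e2 : Fin D2 → ℝ),
          ∑ j, e2 j ^ 2 ≤ E0 ^ 2 →
          {x ∈ Sol F d3 d1 d2 p e3 e1 e2 | mu1 F x ≤ c'}.encard ≤ 2 * D1 + 3 ∧
          ((∀ x ∈ Sol F d3 d1 d2 p e3 e1 e2, mu1 F x ≤ c' →
              ∀ j j', ¬ (2 * d1 j ≤ mu1 F x ∧ mu1 F x ≤ 2 * d1 j')) →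
            {x ∈ Sol F d3 d1 d2 p e3 e1 e2 | mu1 F x ≤ c'}.encard ≤ 5) := by
  obtain ⟨W, omc, hW0, hW1, homc, homc1, hconv⟩ := bot_convex hκ hF1 hF2
  obtain ⟨L, hL1, hL⟩ := EQ_bound F
  obtain ⟨c, omw, hc, homw, hcκ, hwin⟩ := hW (κ / 2) L (by positivity)
  refine ⟨c, min (min omw omc) (κ / 16), κ * W / 8, hc, by positivity, by positivity, ?_⟩
  intro c' hc'0 hc'c D3 D1 D2 d3 d1 d2 P3 P1 P2 p e3 e1 e2 he
  have o1 : min (min omw omc) (κ / 16) ≤ omw := (min_le_left _ _).trans (min_le_left _ _)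
  have o2 : min (min omw omc) (κ / 16) ≤ omc := (min_le_left _ _).trans (min_le_right _ _)
  have o3 : min (min omw omc) (κ / 16) ≤ κ / 16 := min_le_right _ _
  have hck : c ≤ κ / 16 := by linarith
  have a3 : ∀ j, |d3 j| ≤ omc := fun j => by
    rw [abs_of_pos (P3.2 j).1]
    exact ((P3.2 j).2.le).trans o2
  have a2 : ∀ j, |(-d2) j| ≤ omc := fun j => by
    rw [Pi.neg_apply, abs_neg, abs_of_pos (P2.2 j).1]
    exact ((P2.2 j).2.le).trans o2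
  have at1 : ∀ k, |tv d3 (-d2) k| ≤ 1 := by
    rintro (k | k | k)
    · change |(0 : ℝ)| ≤ 1
      rw [abs_zero]
      exact zero_le_one
    · exact (a3 k).trans homc1.le
    · exact (a2 k).trans homc1.le
  have H := hwin (Fin 2 ⊕ Fin D3 ⊕ Fin D2) (EQ F (qmB D3 D2) (tv d3 (-d2))) (coJ_Om D3 D2 W) (EQ_contDiff _ _ _ _)
    (coJ_compact W) (coJ_convex hW0) (fun z hz => mem_closedBall_zero_iff.2 hz.1)
    (fun z hz h => hconv D3 D2 d3 (-d2) a3 a2 z hz.1 hz.2 h)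
    (fun z hz => (hL _ (qmB D3 D2) (tv d3 (-d2)) qmB_ok at1 z hz.1).1)
    (fun z hz => (hL _ (qmB D3 D2) (tv d3 (-d2)) qmB_ok at1 z hz.1).2)
    D1 d1 ⟨P1.1, fun j => ⟨(P1.2 j).1, (P1.2 j).2.trans_le o1⟩⟩ e1 (coJ_vec p e3 e2)
    (fun μ hμ x hx hmin hn => coJ_inact hκ hF1 hW0 o3 rfl P2 he (hμ.trans hck) hx hmin hn)
    c' hc'0 hc'c (coJ_map F '' {x ∈ Sol F d3 d1 d2 p e3 e1 e2 | mu1 F x ≤ c'})
    (by
      rintro z ⟨x, ⟨hx, hmu⟩, rfl⟩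
      exact coJ_mem hκ hF1 hW0 o3 rfl (hc'c.trans hck) P2 he hx hmu)
  rw [(coJ_inj F).encard_image] at H
  refine ⟨H.1, fun hno => H.2 ?_⟩
  rintro z ⟨x, ⟨hx, hmu⟩, rfl⟩
  exact hno x hx hmu

theorem bot_count (hW : WinStmt) {F : P4} {κ : ℝ} (hκ : 0 < κ) (hF1 : F1 F κ) (hF2 : F2 F κ) :
    ∃ c om E0 : ℝ, 0 < c ∧ 0 < om ∧ 0 < E0 ∧ ∀ c' : ℝ, 0 < c' → c' ≤ c →
      ∀ (D3 D1 D2 : ℕ) (d3 : Fin D3 → ℝ) (d1 : Fin D1 → ℝ) (d2 : Fin D2 → ℝ),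
        Pert d3 om → Pert d1 om → Pert d2 om →
        ∀ (p : Fin 2 → ℝ) (e3 : Fin D3 → ℝ) (e1 : Fin D1 → ℝ) (e2 : Fin D2 → ℝ),
          ∑ j, e2 j ^ 2 ≤ E0 ^ 2 →
          {x ∈ Sol F d3 d1 d2 p e3 e1 e2 | mu1 F x ≤ c'}.encard ≤ 2 * D1 + 3 ∧
          ((∀ x ∈ Sol F d3 d1 d2 p e3 e1 e2, mu1 F x ≤ c' →
              ∀ j j', ¬ (2 * d1 j ≤ mu1 F x ∧ mu1 F x ≤ 2 * d1 j')) →
            {x ∈ Sol F d3 d1 d2 p e3 e1 e2 | mu1 F x ≤ c'}.encard ≤ 5) :=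
  coJ_aux (fun κ L h => hW κ L h) hκ hF1 hF2

end Pool.Agent.CNX
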