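import Pool.Agent.CNX.CO_A

/-!
# CO_K2: configurations near the three potentials
-/

set_option autoImplicit false

namespace Pool.Agent.CNX

open MvPolynomial

/-- `(∀ j, g ≤ |A j|)`, `A j * w j = e j` give `∑ w² ≤ ∑ e² / g²` -/
theorem sum_small {D : ℕ} {A w e : Fin D → ℝ} {g : ℝ} (hg : 0 < g) (hA : ∀ j, g ≤ |A j|)
    (h : ∀ j, A j * w j = e j) : ∑ j, w j ^ 2 ≤ (∑ j, e j ^ 2) / g ^ 2 := by
  rw [le_div_iff₀ (by positivity), Finset.sum_mul]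
  refine Finset.sum_le_sum (fun j _ => ?_)
  rw [← h j, mul_pow, mul_comm (A j ^ 2)]
  refine mul_le_mul_of_nonneg_left ?_ (sq_nonneg _)
  rw [← sq_abs (A j)]
  exact pow_le_pow_left₀ hg.le (hA j) 2

/-- `(∀ j, |A j| ≤ g)`, `A j * w j = e j`, `∑ w² ≤ 1` give `∑ e² ≤ g²` -/
theorem sum_small' {D : ℕ} {A w e : Fin D → ℝ} {g : ℝ} (hA : ∀ j, |A j| ≤ g)
    (h : ∀ j, A j * w j = e j) (hw : ∑ j, w j ^ 2 ≤ 1) : ∑ j, e j ^ 2 ≤ g ^ 2 := by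
  have h1 : ∑ j, e j ^ 2 ≤ ∑ j, g ^ 2 * w j ^ 2 := by
    refine Finset.sum_le_sum (fun j _ => ?_)
    rw [← h j, mul_pow]
    refine mul_le_mul_of_nonneg_right ?_ (sq_nonneg _)
    rw [← sq_abs (A j)]
    exact pow_le_pow_left₀ (abs_nonneg _) (hA j) 2
  rw [← Finset.mul_sum] at h1
  calc ∑ j, e j ^ 2 ≤ g ^ 2 * ∑ j, w j ^ 2 := h1
    _ ≤ g ^ 2 * 1 := mul_le_mul_of_nonneg_left hw (sq_nonneg _)
    _ = g ^ 2 := mul_one _

theorem coK2_abs {y t : ℝ} (hy : |y| ≤ 1) : |t * y| ≤ |t| := by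
  rw [abs_mul]
  calc |t| * |y| ≤ |t| * 1 := mul_le_mul_of_nonneg_left hy (abs_nonneg _)
    _ = |t| := mul_one _

theorem coK2_sum4 (y0 y1 a b a' b' : ℝ) :
    ∑ k, |pt y0 y1 a b k - pt y0 y1 a' b' k| = |a - a'| + |b - b'| := by
  simp [Fin.sum_univ_four, pt]

theorem coK2_box {y0 y1 a b : ℝ} (h0 : |y0| ≤ 1) (h1 : |y1| ≤ 1) (ha : 0 ≤ a) (ha' : a ≤ 1)
    (hb : 0 ≤ b) (hb' : b ≤ 1) : ∀ i, |pt y0 y1 a b i| ≤ 2 := by
  intro i
  fin_cases i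
  · show |y0| ≤ 2
    linarith
  · show |y1| ≤ 2
    linarith
  · show |a| ≤ 2
    rw [abs_of_nonneg ha]; linarith
  · show |b| ≤ 2
    rw [abs_of_nonneg hb]; linarith

theorem near (F : P4) : ∃ C : ℝ, 1 ≤ C ∧
    ∀ (D3 D1 D2 : ℕ) (d3 : Fin D3 → ℝ) (d1 : Fin D1 → ℝ) (d2 : Fin D2 → ℝ)
      (p : Fin 2 → ℝ) (e3 : Fin D3 → ℝ) (e1 : Fin D1 → ℝ) (e2 : Fin D2 → ℝ),
      ∀ x ∈ Sol F d3 d1 d2 p e3 e1 e2, ∀ η : ℝ,
        (∑ j, x.w1 j ^ 2 ≤ η → ∑ j, x.w2 j ^ 2 ≤ η →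
          dist (p 0, p 1) (gU3 F (x.y 0) (x.y 1)) ≤ |mu3 F x| + C * η) ∧
        (∑ j, x.w3 j ^ 2 ≤ η → ∑ j, x.w2 j ^ 2 ≤ η →
          dist (p 0, p 1) (gU1 F (x.y 0) (x.y 1)) ≤ |mu1 F x| + C * η) ∧
        (∑ j, x.w3 j ^ 2 ≤ η → ∑ j, x.w1 j ^ 2 ≤ η →
          dist (p 0, p 1) (gU2 F (x.y 0) (x.y 1)) ≤ |x.lam| + C * η) := by
  obtain ⟨M, hM, hlip⟩ := polyLip2 F
  refine ⟨9 * M, by linarith, ?_⟩
  intro D3 D1 D2 d3 d1 d2 p e3 e1 e2 x hx η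
  obtain ⟨hp0, hp1, _, _, _, hs⟩ := hx
  have ea : ∃ a, a = ∑ j, x.w3 j ^ 2 := ⟨_, rfl⟩
  have eb : ∃ b, b = ∑ j, x.w1 j ^ 2 := ⟨_, rfl⟩
  have ec : ∃ c, c = ∑ j, x.w2 j ^ 2 := ⟨_, rfl⟩
  obtain ⟨a, ea⟩ := ea
  obtain ⟨b, eb⟩ := eb
  obtain ⟨c, ec⟩ := ec
  have ha : 0 ≤ a := by rw [ea]; exact Finset.sum_nonneg (fun _ _ => sq_nonneg _)
  have hb : 0 ≤ b := by rw [eb]; exact Finset.sum_nonneg (fun _ _ => sq_nonneg _)
  have hc : 0 ≤ c := by rw [ec]; exact Finset.sum_nonneg (fun _ _ => sq_nonneg _)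
  obtain ⟨u, hu⟩ : ∃ u, u = x.y 0 := ⟨_, rfl⟩
  obtain ⟨v, hv⟩ : ∃ v, v = x.y 1 := ⟨_, rfl⟩
  obtain ⟨l, hl⟩ : ∃ l, l = x.lam := ⟨_, rfl⟩
  have hq : x.q = pt u v a b := by
    unfold Cfg.q
    rw [← ea, ← eb, ← hu, ← hv]
  unfold mu3 mu1
  rw [← ea, ← eb, ← ec, ← hu, ← hv] at hs
  rw [hq, ← hl, ← hu] at hp0
  rw [hq, ← hl, ← hv] at hp1
  rw [hq, ← ea, ← eb, ← ec, ← hu, ← hv, ← hl]
  have hu2 : u ^ 2 ≤ 1 := by nlinarith [sq_nonneg v]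
  have hv2 : v ^ 2 ≤ 1 := by nlinarith [sq_nonneg u]
  have hu1 : |u| ≤ 1 := abs_le_one_iff_mul_self_le_one.mpr (by nlinarith)
  have hv1 : |v| ≤ 1 := abs_le_one_iff_mul_self_le_one.mpr (by nlinarith)
  have hbox : ∀ i, |pt u v a b i| ≤ 2 :=
    coK2_box hu1 hv1 ha (by nlinarith [sq_nonneg u, sq_nonneg v]) hb (by nlinarith [sq_nonneg u, sq_nonneg v])
  have hw0 : 0 ≤ 1 - u ^ 2 - v ^ 2 := by linarith
  have hw1 : 1 - u ^ 2 - v ^ 2 ≤ 1 := by nlinarith [sq_nonneg u, sq_nonneg v]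
  -- general estimate
  have key : ∀ (a' b' : ℝ), 0 ≤ a' → a' ≤ 1 → 0 ≤ b' → b' ≤ 1 → |a - a'| + |b - b'| ≤ 3 * η →
      ∀ i, |dF F i (pt u v a b) - dF F i (pt u v a' b')| ≤ 3 * M * η := by
    intro a' b' h1 h2 h3 h4 h5 i
    have := (hlip _ _ hbox (coK2_box hu1 hv1 h1 h2 h3 h4) i).2.1
    rw [coK2_sum4] at this
    calc _ ≤ M * (|a - a'| + |b - b'|) := this
      _ ≤ M * (3 * η) := mul_le_mul_of_nonneg_left h5 (by linarith)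
      _ = 3 * M * η := by ring
  have fin : ∀ (A B m : ℝ) (w : ℝ), |w| ≤ 1 → |A| ≤ 3 * M * η → |B| ≤ 3 * M * η →
      |A - m * w - 2 * (B * w)| ≤ |m| + 9 * M * η := by
    intro A B m w hw hA hB
    have h1 : |A - m * w - 2 * (B * w)| ≤ |A| + |m * w| + |2 * (B * w)| := by
      have e1 : A - m * w - 2 * (B * w) = A + (-(m * w)) + (-(2 * (B * w))) := by ring
      rw [e1]
      refine (abs_add_le _ _).trans ?_
      rw [abs_neg]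
      refine add_le_add ?_ le_rfl
      refine (abs_add_le _ _).trans ?_
      rw [abs_neg]
    have h2 := coK2_abs (t := m) hw
    have h3 := coK2_abs (t := B) hw
    have h4 : |2 * (B * w)| = 2 * |B * w| := by rw [abs_mul, abs_two]
    linarith
  refine ⟨?_, ?_, ?_⟩
  · intro hbη hcη
    have hη : 0 ≤ η := hb.trans hbη
    have hd : |a - (1 - u ^ 2 - v ^ 2)| + |b - 0| ≤ 3 * η := by
      have e1 : a - (1 - u ^ 2 - v ^ 2) = -(b + c) := by linarith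
      rw [e1, abs_neg, abs_of_nonneg (by linarith), sub_zero, abs_of_nonneg hb]
      linarith
    have hk := key _ 0 hw0 hw1 le_rfl zero_le_one hd
    rw [Prod.dist_eq]
    refine max_le ?_ ?_
    · show |p 0 - (dF F 0 (pt u v (1 - u ^ 2 - v ^ 2) 0) - 2 * u * dF F 2 (pt u v (1 - u ^ 2 - v ^ 2) 0))| ≤ _
      have := fin _ _ (l - 2 * dF F 2 (pt u v a b)) u hu1 (hk 0) (hk 2)
      refine le_trans (le_of_eq ?_) this
      congr 1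
      rw [← hp0]; ring
    · show |p 1 - (dF F 1 (pt u v (1 - u ^ 2 - v ^ 2) 0) - 2 * v * dF F 2 (pt u v (1 - u ^ 2 - v ^ 2) 0))| ≤ _
      have := fin _ _ (l - 2 * dF F 2 (pt u v a b)) v hv1 (hk 1) (hk 2)
      refine le_trans (le_of_eq ?_) this
      congr 1
      rw [← hp1]; ring
  · intro haη hcη
    have hη : 0 ≤ η := ha.trans haη
    have hd : |a - 0| + |b - (1 - u ^ 2 - v ^ 2)| ≤ 3 * η := by
      have e1 : b - (1 - u ^ 2 - v ^ 2) = -(a + c) := by linarith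
      rw [e1, abs_neg, abs_of_nonneg (a := a + c) (by linarith), sub_zero, abs_of_nonneg ha]
      linarith
    have hk := key 0 _ le_rfl zero_le_one hw0 hw1 hd
    rw [Prod.dist_eq]
    refine max_le ?_ ?_
    · show |p 0 - (dF F 0 (pt u v 0 (1 - u ^ 2 - v ^ 2)) - 2 * u * dF F 3 (pt u v 0 (1 - u ^ 2 - v ^ 2)))| ≤ _
      have := fin _ _ (l - 2 * dF F 3 (pt u v a b)) u hu1 (hk 0) (hk 3)
      refine le_trans (le_of_eq ?_) this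
      congr 1
      rw [← hp0]; ring
    · show |p 1 - (dF F 1 (pt u v 0 (1 - u ^ 2 - v ^ 2)) - 2 * v * dF F 3 (pt u v 0 (1 - u ^ 2 - v ^ 2)))| ≤ _
      have := fin _ _ (l - 2 * dF F 3 (pt u v a b)) v hv1 (hk 1) (hk 3)
      refine le_trans (le_of_eq ?_) this
      congr 1
      rw [← hp1]; ring
  · intro haη hbη
    have hη : 0 ≤ η := ha.trans haη
    have hd : |a - 0| + |b - 0| ≤ 3 * η := by
      rw [sub_zero, sub_zero, abs_of_nonneg ha, abs_of_nonneg hb]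
      linarith
    have hk := key 0 0 le_rfl zero_le_one le_rfl zero_le_one hd
    have hMη : 0 ≤ M * η := mul_nonneg (by linarith) hη
    rw [Prod.dist_eq]
    refine max_le ?_ ?_
    · show |p 0 - dF F 0 (pt u v 0 0)| ≤ _
      have := fin _ 0 l u hu1 (hk 0) (by rw [abs_zero]; nlinarith)
      refine le_trans (le_of_eq ?_) this
      congr 1
      rw [← hp0]; ring
    · show |p 1 - dF F 1 (pt u v 0 0)| ≤ _
      have := fin _ 0 l v hv1 (hk 1) (by rw [abs_zero]; nlinarith)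
      refine le_trans (le_of_eq ?_) this
      congr 1
      rw [← hp1]; ring

end Pool.Agent.CNX
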