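import Pool.Agent.CNX.CO_K1
import Pool.Agent.CNX.CO_K2
import Pool.Agent.CNX.CO_C

/-!
# CO_K (difficulty 3): the geometry lemma (5.4)

Let `ρ` be from `sep`, `C` from `near`, `c0` from `Fab'`. `c` small: `2(1+C)c < ρ`, `c ≤ κ²/64`, `c ≤ κ/16`, `c ≤ 1`. Given `c' ≤ c` take `om` small:
`om ≤ c'/8`, `om ≤ κ/64`, `16 om² / c'² ≤ c'`, `64 om²/κ² ≤ min c' c0`.
Hits: `x2` with `2 d2 j ≤ -lam ≤ 2 d2 j'`: `|lam| ≤ 2om` and `|-2 d2 i - lam| ≤ 2om` for all `i`, so `∑ e2² ≤ 4om²` (`sum_small'`); `x1` with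
`2 d1 j ≤ mu1 ≤ 2 d1 j'`: `|mu1| ≤ 2om`, `∑ e1² ≤ 4om²`. Suppose `x3 ∈ Sol`, `lam ≤ -c'`, `c' ≤ mu1`, `|mu3| < c'`.
 `x3`: `-2 d2 j - lam ≥ c'/2`, `|2 d1 j - mu1| ≥ c'/2`: `∑ w2², ∑ w1² ≤ 16om²/c'² ≤ c'`; `(2 d3 j - mu3) w3 j = e3 j`, so `∑ e3² ≤ (c' + 2om)² ≤ 4c'²`;
   `dist p (gU3 y3) ≤ (1+C) c'`.
 `x1`: `lam = mu1 + 2F_b ≤ 2om - κ ≤ -κ/2` (`Fb_neg`), `-2 d2 j - lam ≥ κ/4`: `∑ w2² ≤ 64om²/κ²`, so `|y|²+a+b ≥ 1 - c0` and `2(F_a-F_b) ≥ κ/2` (`Fab'`);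
   the factor of `w3 j` is `2(F_a - F_b) + 2 d3 j - mu1 ≥ κ/4`: `∑ w3² ≤ 4c'²·16/κ² ≤ c'`; `dist p (gU1 y1) ≤ (1+C)c'`.
 `x2`: `|2F_a + 2d3 j - lam| ≥ κ/2`, `|2F_b + 2 d1 j - lam| ≥ κ/2`: `∑ w3² ≤ 16c'²/κ² ≤ c'`, `∑ w1² ≤ 16om²/κ² ≤ c'`; `dist p (gU2 y2) ≤ (1+C)c'`.
 So both distances in `sep` are `≤ 2(1+C)c' < ρ`. Contradiction.
-/

set_option autoImplicit false

namespace Pool.Agent.CNX

open MvPolynomial

theorem coK_bds {F : P4} {D3 D1 D2 : ℕ} {d3 : Fin D3 → ℝ} {d1 : Fin D1 → ℝ} {d2 : Fin D2 → ℝ}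
    {p : Fin 2 → ℝ} {e3 : Fin D3 → ℝ} {e1 : Fin D1 → ℝ} {e2 : Fin D2 → ℝ}
    {x : Cfg D3 D1 D2} (hx : x ∈ Sol F d3 d1 d2 p e3 e1 e2) :
    0 ≤ ∑ j, x.w3 j ^ 2 ∧ 0 ≤ ∑ j, x.w1 j ^ 2 ∧ 0 ≤ ∑ j, x.w2 j ^ 2 ∧
    ∑ j, x.w3 j ^ 2 ≤ 1 ∧ ∑ j, x.w1 j ^ 2 ≤ 1 ∧ ∑ j, x.w2 j ^ 2 ≤ 1 ∧
    x.y 0 ^ 2 + x.y 1 ^ 2 ≤ 1 := by
  obtain ⟨-, -, -, -, -, hs⟩ := hx
  have h3 : 0 ≤ ∑ j, x.w3 j ^ 2 := Finset.sum_nonneg fun j _ => sq_nonneg _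
  have h1 : 0 ≤ ∑ j, x.w1 j ^ 2 := Finset.sum_nonneg fun j _ => sq_nonneg _
  have h2 : 0 ≤ ∑ j, x.w2 j ^ 2 := Finset.sum_nonneg fun j _ => sq_nonneg _
  have hy0 := sq_nonneg (x.y 0)
  have hy1 := sq_nonneg (x.y 1)
  refine ⟨h3, h1, h2, ?_, ?_, ?_, ?_⟩ <;> linarith

theorem coK_hit2 {F : P4} {D3 D1 D2 : ℕ} {d3 : Fin D3 → ℝ} {d1 : Fin D1 → ℝ} {d2 : Fin D2 → ℝ}
    {om : ℝ} (h2 : Pert d2 om) {p : Fin 2 → ℝ} {e3 : Fin D3 → ℝ} {e1 : Fin D1 → ℝ}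
    {e2 : Fin D2 → ℝ} {x : Cfg D3 D1 D2} (hx : x ∈ Sol F d3 d1 d2 p e3 e1 e2)
    {j j' : Fin D2} (hj : 2 * d2 j ≤ -x.lam) (hj' : -x.lam ≤ 2 * d2 j') :
    0 < -x.lam ∧ -x.lam < 2 * om ∧ ∑ j, e2 j ^ 2 ≤ (2 * om) ^ 2 := by
  have hp : 0 < -x.lam := by linarith [(h2.2 j).1]
  have hq : -x.lam < 2 * om := by linarith [(h2.2 j').2]
  have hb := coK_bds hx
  obtain ⟨-, -, -, -, he, -⟩ := hx
  refine ⟨hp, hq, ?_⟩
  refine sum_small' (A := fun i => -2 * d2 i - x.lam) (w := x.w2) ?_ he hb.2.2.2.2.2.1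
  intro i
  have := h2.2 i
  rw [abs_le]
  constructor <;> linarith

theorem coK_hit1 {F : P4} {D3 D1 D2 : ℕ} {d3 : Fin D3 → ℝ} {d1 : Fin D1 → ℝ} {d2 : Fin D2 → ℝ}
    {om : ℝ} (h1 : Pert d1 om) {p : Fin 2 → ℝ} {e3 : Fin D3 → ℝ} {e1 : Fin D1 → ℝ}
    {e2 : Fin D2 → ℝ} {x : Cfg D3 D1 D2} (hx : x ∈ Sol F d3 d1 d2 p e3 e1 e2)
    {j j' : Fin D1} (hj : 2 * d1 j ≤ mu1 F x) (hj' : mu1 F x ≤ 2 * d1 j') :
    0 < mu1 F x ∧ mu1 F x < 2 * om ∧ ∑ j, e1 j ^ 2 ≤ (2 * om) ^ 2 := by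
  have hp : 0 < mu1 F x := by linarith [(h1.2 j).1]
  have hq : mu1 F x < 2 * om := by linarith [(h1.2 j').2]
  have hb := coK_bds hx
  obtain ⟨-, -, -, he, -, -⟩ := hx
  refine ⟨hp, hq, ?_⟩
  refine sum_small' (A := fun i => 2 * dF F 3 x.q + 2 * d1 i - x.lam) (w := x.w1) ?_ he
    hb.2.2.2.2.1
  intro i
  have := h1.2 i
  have e : 2 * dF F 3 x.q + 2 * d1 i - x.lam = 2 * d1 i - mu1 F x := by
    unfold mu1
    ring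
  rw [e, abs_le]
  constructor <;> linarith

theorem coK_neg {F : P4} {κ : ℝ} (hF1 : F1 F κ) {D3 D1 D2 : ℕ} {d3 : Fin D3 → ℝ}
    {d1 : Fin D1 → ℝ} {d2 : Fin D2 → ℝ}
    {p : Fin 2 → ℝ} {e3 : Fin D3 → ℝ} {e1 : Fin D1 → ℝ} {e2 : Fin D2 → ℝ}
    {x : Cfg D3 D1 D2} (hx : x ∈ Sol F d3 d1 d2 p e3 e1 e2) :
    2 * dF F 2 x.q ≤ -κ ∧ 2 * dF F 3 x.q ≤ -κ := by
  obtain ⟨h3, h1, h2, -⟩ := coK_bds hx
  obtain ⟨-, -, -, -, -, hs⟩ := hx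
  have ha := Fa_neg hF1 (x.y 0) (x.y 1) _ _ h3 h1 (by linarith)
  have hb := Fb_neg hF1 (x.y 0) (x.y 1) _ _ h3 h1 (by linarith)
  have ha' : dF F 2 x.q ≤ -(κ / 2) := ha
  have hb' : dF F 3 x.q ≤ -(κ / 2) := hb
  constructor <;> linarith

theorem coK_div {a b g η : ℝ} (hg : 0 < g) (hab : a ≤ b) (hb : b ≤ η * g ^ 2) :
    a / g ^ 2 ≤ η := by
  rw [div_le_iff₀ (by positivity)]
  linarith

theorem geom {F : P4} {κ : ℝ} (hκ : 0 < κ) (hF1 : F1 F κ) (hF2 : F2 F κ) (hF3 : F3 F) :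
    ∃ c : ℝ, 0 < c ∧ ∀ c' : ℝ, 0 < c' → c' ≤ c → ∃ om : ℝ, 0 < om ∧
      ∀ (D3 D1 D2 : ℕ) (d3 : Fin D3 → ℝ) (d1 : Fin D1 → ℝ) (d2 : Fin D2 → ℝ),
        Pert d3 om → Pert d1 om → Pert d2 om →
        ∀ (p : Fin 2 → ℝ) (e3 : Fin D3 → ℝ) (e1 : Fin D1 → ℝ) (e2 : Fin D2 → ℝ),
          (∃ x ∈ Sol F d3 d1 d2 p e3 e1 e2, ∃ j j', 2 * d2 j ≤ -x.lam ∧ -x.lam ≤ 2 * d2 j') →
          (∃ x ∈ Sol F d3 d1 d2 p e3 e1 e2, ∃ j j', 2 * d1 j ≤ mu1 F x ∧ mu1 F x ≤ 2 * d1 j') →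
          ∀ x ∈ Sol F d3 d1 d2 p e3 e1 e2, x.lam ≤ -c' → c' ≤ mu1 F x → c' ≤ |mu3 F x| := by
  obtain ⟨ρ, hρ, hsep⟩ := sep hF3
  obtain ⟨C, hC, hnear⟩ := near F
  obtain ⟨c0, hc0, hab⟩ := Fab' hκ hF2
  refine ⟨min (ρ / (4 * (1 + C))) (κ ^ 2 / 64), by positivity, ?_⟩
  intro c' hc' hcc
  have hcρ : c' ≤ ρ / (4 * (1 + C)) := hcc.trans (min_le_left _ _)
  have hcκ : c' ≤ κ ^ 2 / 64 := hcc.trans (min_le_right _ _)
  have hcρ' : 4 * (1 + C) * c' ≤ ρ := by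
    rw [le_div_iff₀ (by positivity)] at hcρ
    linarith
  refine ⟨min (min (c' / 8) (c' ^ 2 / 8)) (min (κ / 64) (min (κ * c') (κ * c0))),
    by positivity, ?_⟩
  set om : ℝ := min (min (c' / 8) (c' ^ 2 / 8)) (min (κ / 64) (min (κ * c') (κ * c0))) with hom
  have hompos : 0 < om := by rw [hom]; positivity
  have ho1 : om ≤ c' / 8 := (min_le_left _ _).trans (min_le_left _ _)
  have ho2 : om ≤ c' ^ 2 / 8 := (min_le_left _ _).trans (min_le_right _ _)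
  have ho3 : om ≤ κ / 64 := (min_le_right _ _).trans (min_le_left _ _)
  have ho4 : om ≤ κ * c' :=
    (min_le_right _ _).trans ((min_le_right _ _).trans (min_le_left _ _))
  have ho5 : om ≤ κ * c0 :=
    (min_le_right _ _).trans ((min_le_right _ _).trans (min_le_right _ _))
  clear_value om
  have hA : om ^ 2 ≤ c' ^ 3 / 64 := by
    calc om ^ 2 = om * om := by ring
      _ ≤ (c' / 8) * (c' ^ 2 / 8) := mul_le_mul ho1 ho2 hompos.le (by positivity)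
      _ = c' ^ 3 / 64 := by ring
  have hB : om ^ 2 ≤ κ ^ 2 * c' / 64 := by
    calc om ^ 2 = om * om := by ring
      _ ≤ (κ / 64) * (κ * c') := mul_le_mul ho3 ho4 hompos.le (by positivity)
      _ = κ ^ 2 * c' / 64 := by ring
  have hB0 : om ^ 2 ≤ κ ^ 2 * c0 / 64 := by
    calc om ^ 2 = om * om := by ring
      _ ≤ (κ / 64) * (κ * c0) := mul_le_mul ho3 ho5 hompos.le (by positivity)
      _ = κ ^ 2 * c0 / 64 := by ring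
  have hD : c' ^ 2 ≤ κ ^ 2 * c' / 64 := by
    calc c' ^ 2 = c' * c' := by ring
      _ ≤ (κ ^ 2 / 64) * c' := mul_le_mul_of_nonneg_right hcκ hc'.le
      _ = κ ^ 2 * c' / 64 := by ring
  intro D3 D1 D2 d3 d1 d2 hd3 hd1 hd2 p e3 e1 e2
  rintro ⟨x2, hx2, j2, j2', hj2, hj2'⟩ ⟨x1, hx1, j1, j1', hj1, hj1'⟩ x3 hx3 hlam3 hmu13
  by_contra hcon
  rw [not_le] at hcon
  obtain ⟨hl2p, hl2q, hE2⟩ := coK_hit2 hd2 hx2 hj2 hj2'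
  obtain ⟨hm1p, hm1q, hE1⟩ := coK_hit1 hd1 hx1 hj1 hj1'
  have hb1 := coK_bds hx1
  have hb2 := coK_bds hx2
  have hb3 := coK_bds hx3
  have hn1 := coK_neg hF1 hx1
  have hn2 := coK_neg hF1 hx2
  -- the configuration `x3`
  have hw32 : ∑ j, x3.w2 j ^ 2 ≤ c' := by
    refine (sum_small (A := fun i => -2 * d2 i - x3.lam) (g := c' / 2) (by positivity) ?_
      hx3.2.2.2.2.1).trans (coK_div (by positivity) hE2 ?_)
    · intro i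
      have := hd2.2 i
      refine le_trans ?_ (le_abs_self _)
      linarith
    · linarith [pow_pos hc' 3]
  have hw31 : ∑ j, x3.w1 j ^ 2 ≤ c' := by
    refine (sum_small (A := fun i => 2 * dF F 3 x3.q + 2 * d1 i - x3.lam) (g := c' / 2)
      (by positivity) ?_ hx3.2.2.2.1).trans (coK_div (by positivity) hE1 ?_)
    · intro i
      have := hd1.2 i
      have e : 2 * dF F 3 x3.q + 2 * d1 i - x3.lam = 2 * d1 i - mu1 F x3 := by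
        unfold mu1
        ring
      rw [e, abs_sub_comm]
      refine le_trans ?_ (le_abs_self _)
      linarith
    · linarith [pow_pos hc' 3]
  have hE3 : ∑ j, e3 j ^ 2 ≤ (2 * c') ^ 2 := by
    refine sum_small' (A := fun i => 2 * dF F 2 x3.q + 2 * d3 i - x3.lam) (w := x3.w3) ?_
      hx3.2.2.1 hb3.2.2.2.1
    intro i
    have := hd3.2 i
    have e : 2 * dF F 2 x3.q + 2 * d3 i - x3.lam = 2 * d3 i - mu3 F x3 := by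
      unfold mu3
      ring
    rw [abs_lt] at hcon
    rw [e, abs_le]
    constructor <;> linarith
  have hdist3 : dist (p 0, p 1) (gU3 F (x3.y 0) (x3.y 1)) ≤ (1 + C) * c' := by
    have := (hnear D3 D1 D2 d3 d1 d2 p e3 e1 e2 x3 hx3 c').1 hw31 hw32
    linarith
  -- the configuration `x1`
  have hlam1 : x1.lam = mu1 F x1 + 2 * dF F 3 x1.q := by
    unfold mu1
    ring
  have hw12' : ∑ j, x1.w2 j ^ 2 ≤ min c' c0 := by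
    refine (sum_small (A := fun i => -2 * d2 i - x1.lam) (g := κ / 4) (by positivity) ?_
      hx1.2.2.2.2.1).trans (coK_div (by positivity) hE2 ?_)
    · intro i
      have := hd2.2 i
      refine le_trans ?_ (le_abs_self _)
      linarith [hn1.2]
    · rw [min_def]
      split_ifs
      · linarith
      · linarith
  have hw12 : ∑ j, x1.w2 j ^ 2 ≤ c' := hw12'.trans (min_le_left _ _)
  have hw12o : ∑ j, x1.w2 j ^ 2 ≤ c0 := hw12'.trans (min_le_right _ _)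
  have hFab : κ / 4 ≤ dF F 2 x1.q - dF F 3 x1.q := by
    have hs := hx1.2.2.2.2.2
    exact hab (x1.y 0) (x1.y 1) _ _ hb1.1 hb1.2.1 (by linarith) (by linarith [hb1.2.2.1])
  have hw13 : ∑ j, x1.w3 j ^ 2 ≤ c' := by
    refine (sum_small (A := fun i => 2 * dF F 2 x1.q + 2 * d3 i - x1.lam) (g := κ / 4)
      (by positivity) ?_ hx1.2.2.1).trans (coK_div (by positivity) hE3 ?_)
    · intro i
      have := hd3.2 i
      refine le_trans ?_ (le_abs_self _)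
      linarith
    · linarith
  have hdist1 : dist (p 0, p 1) (gU1 F (x1.y 0) (x1.y 1)) ≤ (1 + C) * c' := by
    have := (hnear D3 D1 D2 d3 d1 d2 p e3 e1 e2 x1 hx1 c').2.1 hw13 hw12
    rw [abs_of_pos hm1p] at this
    linarith
  -- the configuration `x2`
  have hw23 : ∑ j, x2.w3 j ^ 2 ≤ c' := by
    refine (sum_small (A := fun i => 2 * dF F 2 x2.q + 2 * d3 i - x2.lam) (g := κ / 2)
      (by positivity) ?_ hx2.2.2.1).trans (coK_div (by positivity) hE3 ?_)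
    · intro i
      have := hd3.2 i
      refine le_trans ?_ (neg_le_abs _)
      linarith [hn2.1]
    · linarith [mul_pos (pow_pos hκ 2) hc']
  have hw21 : ∑ j, x2.w1 j ^ 2 ≤ c' := by
    refine (sum_small (A := fun i => 2 * dF F 3 x2.q + 2 * d1 i - x2.lam) (g := κ / 2)
      (by positivity) ?_ hx2.2.2.2.1).trans (coK_div (by positivity) hE1 ?_)
    · intro i
      have := hd1.2 i
      refine le_trans ?_ (neg_le_abs _)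
      linarith [hn2.2]
    · linarith [mul_pos (pow_pos hκ 2) hc']
  have hdist2 : dist (p 0, p 1) (gU2 F (x2.y 0) (x2.y 1)) ≤ (1 + C) * c' := by
    have := (hnear D3 D1 D2 d3 d1 d2 p e3 e1 e2 x2 hx2 c').2.2 hw23 hw21
    rw [abs_of_neg (by linarith : x2.lam < 0)] at this
    linarith
  have hs := hsep (x1.y 0) (x1.y 1) (x2.y 0) (x2.y 1) (x3.y 0) (x3.y 1)
    hb1.2.2.2.2.2.2 hb2.2.2.2.2.2.2 hb3.2.2.2.2.2.2
  have t1 : dist (gU1 F (x1.y 0) (x1.y 1)) (gU3 F (x3.y 0) (x3.y 1)) ≤ 2 * ((1 + C) * c') := by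
    have := dist_triangle_left (gU1 F (x1.y 0) (x1.y 1)) (gU3 F (x3.y 0) (x3.y 1)) (p 0, p 1)
    linarith
  have t2 : dist (gU2 F (x2.y 0) (x2.y 1)) (gU3 F (x3.y 0) (x3.y 1)) ≤ 2 * ((1 + C) * c') := by
    have := dist_triangle_left (gU2 F (x2.y 0) (x2.y 1)) (gU3 F (x3.y 0) (x3.y 1)) (p 0, p 1)
    linarith
  have t3 := hs.trans (max_le t1 t2)
  have : 0 < (1 + C) * c' := by positivity
  linarith

/-- a hit of cluster 2 forces `e2` to be small -/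
theorem hit2_small {F : P4} {D3 D1 D2 : ℕ} {d3 : Fin D3 → ℝ} {d1 : Fin D1 → ℝ} {d2 : Fin D2 → ℝ}
    {om : ℝ} (h2 : Pert d2 om) {p : Fin 2 → ℝ} {e3 : Fin D3 → ℝ} {e1 : Fin D1 → ℝ}
    {e2 : Fin D2 → ℝ}
    (h : ∃ x ∈ Sol F d3 d1 d2 p e3 e1 e2, ∃ j j', 2 * d2 j ≤ -x.lam ∧ -x.lam ≤ 2 * d2 j') :
    ∑ j, e2 j ^ 2 ≤ (2 * om) ^ 2 := by
  obtain ⟨x, hx, j, j', hj, hj'⟩ := h
  exact (coK_hit2 h2 hx hj hj').2.2

end Pool.Agent.CNX
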