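import Pool.Agent.CNX.CoDefs

/-!
# CO_K1: (F3) gives a positive separation
-/

set_option autoImplicit false

namespace Pool.Agent.CNX

open MvPolynomial

theorem coK1_dF {X : Type} [TopologicalSpace X] (F : P4) (i : Fin 4) {f : X → Fin 4 → ℝ}
    (hf : Continuous f) : Continuous (fun x => dF F i (f x)) :=
  (MvPolynomial.continuous_eval (pderiv i F)).comp hf

theorem coK1_pt {X : Type} [TopologicalSpace X] {a b c d : X → ℝ}
    (ha : Continuous a) (hb : Continuous b) (hc : Continuous c) (hd : Continuous d) :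
    Continuous (fun x => pt (a x) (b x) (c x) (d x)) := by
  refine continuous_pi (fun i => ?_)
  fin_cases i
  · exact ha
  · exact hb
  · exact hc
  · exact hd

theorem coK1_g1 {X : Type} [TopologicalSpace X] (F : P4) {a b : X → ℝ}
    (ha : Continuous a) (hb : Continuous b) : Continuous (fun x => gU1 F (a x) (b x)) := by
  have h0 : Continuous (fun _ : X => (0 : ℝ)) := continuous_const
  have h1 : Continuous (fun x => 1 - a x ^ 2 - b x ^ 2) := by fun_prop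
  have hp := coK1_pt ha hb h0 h1
  have e0 := coK1_dF F 0 hp
  have e1 := coK1_dF F 1 hp
  have e3 := coK1_dF F 3 hp
  unfold gU1
  fun_prop

theorem coK1_g2 {X : Type} [TopologicalSpace X] (F : P4) {a b : X → ℝ}
    (ha : Continuous a) (hb : Continuous b) : Continuous (fun x => gU2 F (a x) (b x)) := by
  have h0 : Continuous (fun _ : X => (0 : ℝ)) := continuous_const
  have hp := coK1_pt ha hb h0 h0
  have e0 := coK1_dF F 0 hp
  have e1 := coK1_dF F 1 hp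
  unfold gU2
  fun_prop

theorem coK1_g3 {X : Type} [TopologicalSpace X] (F : P4) {a b : X → ℝ}
    (ha : Continuous a) (hb : Continuous b) : Continuous (fun x => gU3 F (a x) (b x)) := by
  have h0 : Continuous (fun _ : X => (0 : ℝ)) := continuous_const
  have h1 : Continuous (fun x => 1 - a x ^ 2 - b x ^ 2) := by fun_prop
  have hp := coK1_pt ha hb h1 h0
  have e0 := coK1_dF F 0 hp
  have e1 := coK1_dF F 1 hp
  have e2 := coK1_dF F 2 hp
  unfold gU3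
  fun_prop

theorem coK1_disc : IsCompact {p : ℝ × ℝ | p.1 ^ 2 + p.2 ^ 2 ≤ 1} := by
  refine Metric.isCompact_of_isClosed_isBounded ?_ ?_
  · exact isClosed_le (by fun_prop) continuous_const
  · refine (Metric.isBounded_closedBall (x := (0 : ℝ × ℝ)) (r := 1)).subset ?_
    rintro ⟨a, b⟩ hp
    have hp' : a ^ 2 + b ^ 2 ≤ 1 := hp
    rw [mem_closedBall_zero_iff, Prod.norm_def]
    refine max_le ?_ ?_
    · show |a| ≤ 1
      exact abs_le.mpr ⟨by nlinarith [sq_nonneg b], by nlinarith [sq_nonneg b]⟩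
    · show |b| ≤ 1
      exact abs_le.mpr ⟨by nlinarith [sq_nonneg a], by nlinarith [sq_nonneg a]⟩

theorem sep {F : P4} (h : F3 F) : ∃ ρ : ℝ, 0 < ρ ∧ ∀ y0 y1 s0 s1 t0 t1 : ℝ,
    y0 ^ 2 + y1 ^ 2 ≤ 1 → s0 ^ 2 + s1 ^ 2 ≤ 1 → t0 ^ 2 + t1 ^ 2 ≤ 1 →
    ρ ≤ max (dist (gU1 F y0 y1) (gU3 F t0 t1)) (dist (gU2 F s0 s1) (gU3 F t0 t1)) := by
  let S : Set (ℝ × ℝ) := {p : ℝ × ℝ | p.1 ^ 2 + p.2 ^ 2 ≤ 1}
  have hK : IsCompact (S ×ˢ (S ×ˢ S)) := coK1_disc.prod (coK1_disc.prod coK1_disc)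
  have hne : (S ×ˢ (S ×ˢ S)).Nonempty := by
    refine ⟨((0, 0), (0, 0), (0, 0)), ?_, ?_, ?_⟩
    · show (0 : ℝ) ^ 2 + 0 ^ 2 ≤ 1
      norm_num
    · show (0 : ℝ) ^ 2 + 0 ^ 2 ≤ 1
      norm_num
    · show (0 : ℝ) ^ 2 + 0 ^ 2 ≤ 1
      norm_num
  have c1 : Continuous (fun x : (ℝ × ℝ) × (ℝ × ℝ) × (ℝ × ℝ) => gU1 F x.1.1 x.1.2) :=
    coK1_g1 F (by fun_prop) (by fun_prop)
  have c2 : Continuous (fun x : (ℝ × ℝ) × (ℝ × ℝ) × (ℝ × ℝ) => gU2 F x.2.1.1 x.2.1.2) :=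
    coK1_g2 F (by fun_prop) (by fun_prop)
  have c3 : Continuous (fun x : (ℝ × ℝ) × (ℝ × ℝ) × (ℝ × ℝ) => gU3 F x.2.2.1 x.2.2.2) :=
    coK1_g3 F (by fun_prop) (by fun_prop)
  have hc : Continuous (fun x : (ℝ × ℝ) × (ℝ × ℝ) × (ℝ × ℝ) =>
      max (dist (gU1 F x.1.1 x.1.2) (gU3 F x.2.2.1 x.2.2.2))
        (dist (gU2 F x.2.1.1 x.2.1.2) (gU3 F x.2.2.1 x.2.2.2))) :=
    (c1.dist c3).max (c2.dist c3)
  obtain ⟨x, hx, hmin⟩ := hK.exists_isMinOn hne hc.continuousOn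
  refine ⟨max (dist (gU1 F x.1.1 x.1.2) (gU3 F x.2.2.1 x.2.2.2))
        (dist (gU2 F x.2.1.1 x.2.1.2) (gU3 F x.2.2.1 x.2.2.2)), ?_, ?_⟩
  · by_contra hcon
    rw [not_lt] at hcon
    have h1 := le_antisymm ((le_max_left _ _).trans hcon) dist_nonneg
    have h2 := le_antisymm ((le_max_right _ _).trans hcon) dist_nonneg
    exact h _ _ _ _ _ _ hx.1 hx.2.1 hx.2.2 ⟨dist_eq_zero.mp h1, dist_eq_zero.mp h2⟩
  · intro y0 y1 s0 s1 t0 t1 hy hs ht
    exact hmin (a := ((y0, y1), (s0, s1), (t0, t1))) ⟨hy, hs, ht⟩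

end Pool.Agent.CNX
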