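import Pool.Agent.CNX.CO_A

/-!
# CO_L (difficulty 3): large `P` (2.1)

For `x, x' ∈ Sol` write `v = (y, w3, w1, w2)`, `g(v) = (F_0(q), F_1(q), (2F_a(q)+2d3 j) w3 j, (2F_b(q)+2d1 j) w1 j, -2 d2 j w2 j)`, so `g(v) - lam v = P`.
With `M` from `polyLip2`: `|g(v)| ≤ K` and `|g(v) - g(v')| ≤ K |v - v'|`, `K = K(M)` (`|a - a'| ≤ 2|w3 - w3'|`, `d ≤ 1`). If `|P| > R := 3K+1` then
`|lam| = |g(v) - P| > 2K`. If `lam, lam'` have the same sign: `|lam v - lam' v'|² = (lam-lam')² + lam lam' |v-v'|² ≥ 4K²|v-v'|²` (unit vectors) and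
`= |g(v)-g(v')|² ≤ K²|v-v'|²`; so `v = v'`, and then `lam = lam'` (from `lam v = lam' v`). So at most one element for each sign of `lam`: `encard ≤ 2`.
-/

set_option autoImplicit false

namespace Pool.Agent.CNX

open MvPolynomial

open Finset

/-- index type -/
abbrev coL_I (D3 D1 D2 : ℕ) : Type := Fin 2 ⊕ Fin D3 ⊕ Fin D1 ⊕ Fin D2

/-- the unit vector -/
noncomputable def coL_v {D3 D1 D2 : ℕ} (x : Cfg D3 D1 D2) : EuclideanSpace ℝ (coL_I D3 D1 D2) :=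
  WithLp.toLp 2 (Sum.elim x.y (Sum.elim x.w3 (Sum.elim x.w1 x.w2)))

/-- the gradient -/
noncomputable def coL_g {D3 D1 D2 : ℕ} (F : P4) (d3 : Fin D3 → ℝ) (d1 : Fin D1 → ℝ) (d2 : Fin D2 → ℝ)
    (x : Cfg D3 D1 D2) : EuclideanSpace ℝ (coL_I D3 D1 D2) :=
  WithLp.toLp 2 (Sum.elim (![dF F 0 x.q, dF F 1 x.q])
    (Sum.elim (fun j => (2 * dF F 2 x.q + 2 * d3 j) * x.w3 j)
      (Sum.elim (fun j => (2 * dF F 3 x.q + 2 * d1 j) * x.w1 j) (fun j => (-2 * d2 j) * x.w2 j))))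

/-- the right hand side -/
noncomputable def coL_P {D3 D1 D2 : ℕ} (p : Fin 2 → ℝ) (e3 : Fin D3 → ℝ) (e1 : Fin D1 → ℝ) (e2 : Fin D2 → ℝ) :
    EuclideanSpace ℝ (coL_I D3 D1 D2) :=
  WithLp.toLp 2 (Sum.elim p (Sum.elim e3 (Sum.elim e1 e2)))

theorem coL_nsq {D3 D1 D2 : ℕ} (z : EuclideanSpace ℝ (coL_I D3 D1 D2)) :
    ‖z‖ ^ 2 = z (Sum.inl 0) ^ 2 + z (Sum.inl 1) ^ 2 + ∑ j, z (Sum.inr (Sum.inl j)) ^ 2 +
      ∑ j, z (Sum.inr (Sum.inr (Sum.inl j))) ^ 2 + ∑ j, z (Sum.inr (Sum.inr (Sum.inr j))) ^ 2 := by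
  rw [EuclideanSpace.norm_sq_eq, Fintype.sum_sum_type, Fintype.sum_sum_type, Fintype.sum_sum_type, Fin.sum_univ_two]
  simp only [Real.norm_eq_abs, sq_abs]
  ring

theorem coL_sq {D : ℕ} (a b : Fin D → ℝ) {δ : ℝ} (hδ : 0 ≤ δ) (h : ∑ j, (a j - b j) ^ 2 ≤ δ ^ 2)
    (ha : ∑ j, a j ^ 2 ≤ 1) (hb : ∑ j, b j ^ 2 ≤ 1) : |∑ j, a j ^ 2 - ∑ j, b j ^ 2| ≤ 2 * δ := by
  have h1 : ∑ j, a j ^ 2 - ∑ j, b j ^ 2 = ∑ j, (a j - b j) * (a j + b j) := by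
    rw [← Finset.sum_sub_distrib]
    exact Finset.sum_congr rfl fun j _ => by ring
  have h2 := Finset.sum_mul_sq_le_sq_mul_sq Finset.univ (fun j => a j - b j) (fun j => a j + b j)
  have h3 : ∑ j, (a j + b j) ^ 2 ≤ 4 := by
    have : ∑ j, (a j + b j) ^ 2 ≤ ∑ j, (2 * a j ^ 2 + 2 * b j ^ 2) :=
      Finset.sum_le_sum fun j _ => by nlinarith [sq_nonneg (a j - b j)]
    rw [Finset.sum_add_distrib, ← Finset.mul_sum, ← Finset.mul_sum] at this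
    linarith
  have h0 : 0 ≤ ∑ j, (a j - b j) ^ 2 := Finset.sum_nonneg fun j _ => sq_nonneg _
  have h0' : 0 ≤ ∑ j, (a j + b j) ^ 2 := Finset.sum_nonneg fun j _ => sq_nonneg _
  rw [h1]
  refine abs_le_of_sq_le_sq ?_ (by positivity)
  calc (∑ j, (a j - b j) * (a j + b j)) ^ 2 ≤ (∑ j, (a j - b j) ^ 2) * ∑ j, (a j + b j) ^ 2 := h2
    _ ≤ δ ^ 2 * 4 := mul_le_mul h h3 h0' (sq_nonneg _)
    _ = (2 * δ) ^ 2 := by ring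

theorem coL_cmp {D : ℕ} (d w w' : Fin D → ℝ) {f f' M δ : ℝ} (hM : 1 ≤ M) (hf : |f| ≤ M) (hff : |f - f'| ≤ 6 * M * δ)
    (hd : ∀ j, 0 < d j ∧ d j < 1) :
    ∑ j, ((2 * f + 2 * d j) * w j - (2 * f' + 2 * d j) * w' j) ^ 2
      ≤ 32 * M ^ 2 * ∑ j, (w j - w' j) ^ 2 + 288 * M ^ 2 * δ ^ 2 * ∑ j, w' j ^ 2 := by
  rw [Finset.mul_sum, Finset.mul_sum, ← Finset.sum_add_distrib]
  refine Finset.sum_le_sum fun j _ => ?_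
  have h1 : (2 * f + 2 * d j) ^ 2 ≤ 16 * M ^ 2 := by
    have := abs_le.1 hf
    have h2 := hd j
    have : |2 * f + 2 * d j| ≤ 4 * M := by
      rw [abs_le]
      constructor <;> linarith
    calc (2 * f + 2 * d j) ^ 2 = |2 * f + 2 * d j| ^ 2 := (sq_abs _).symm
      _ ≤ (4 * M) ^ 2 := pow_le_pow_left₀ (abs_nonneg _) this 2
      _ = _ := by ring
  have h2 : (f - f') ^ 2 ≤ 36 * M ^ 2 * δ ^ 2 := by
    calc (f - f') ^ 2 = |f - f'| ^ 2 := (sq_abs _).symm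
      _ ≤ (6 * M * δ) ^ 2 := pow_le_pow_left₀ (abs_nonneg _) hff 2
      _ = _ := by ring
  have e : (2 * f + 2 * d j) * w j - (2 * f' + 2 * d j) * w' j
      = (2 * f + 2 * d j) * (w j - w' j) + 2 * (f - f') * w' j := by ring
  rw [e]
  have h3 : ((2 * f + 2 * d j) * (w j - w' j) + 2 * (f - f') * w' j) ^ 2
      ≤ 2 * ((2 * f + 2 * d j) ^ 2 * (w j - w' j) ^ 2) + 8 * ((f - f') ^ 2 * w' j ^ 2) := by
    nlinarith [sq_nonneg ((2 * f + 2 * d j) * (w j - w' j) - 2 * (f - f') * w' j)]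
  have h4 := mul_le_mul_of_nonneg_right h1 (sq_nonneg (w j - w' j))
  have h5 := mul_le_mul_of_nonneg_right h2 (sq_nonneg (w' j))
  linarith

theorem coL_eq {D3 D1 D2 : ℕ} {F : P4} {d3 : Fin D3 → ℝ} {d1 : Fin D1 → ℝ} {d2 : Fin D2 → ℝ}
    {p : Fin 2 → ℝ} {e3 : Fin D3 → ℝ} {e1 : Fin D1 → ℝ} {e2 : Fin D2 → ℝ} {x : Cfg D3 D1 D2}
    (hx : x ∈ Sol F d3 d1 d2 p e3 e1 e2) : coL_g F d3 d1 d2 x - x.lam • coL_v x = coL_P p e3 e1 e2 := by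
  obtain ⟨h0, h1, h3, h4, h5, _⟩ := hx
  ext i
  rcases i with i | i | i | i
  · fin_cases i
    · simpa [coL_g, coL_v, coL_P] using h0
    · simpa [coL_g, coL_v, coL_P] using h1
  · have := h3 i
    simp [coL_g, coL_v, coL_P]
    linarith
  · have := h4 i
    simp [coL_g, coL_v, coL_P]
    linarith
  · have := h5 i
    simp [coL_g, coL_v, coL_P]
    linarith

theorem coL_vn {D3 D1 D2 : ℕ} {F : P4} {d3 : Fin D3 → ℝ} {d1 : Fin D1 → ℝ} {d2 : Fin D2 → ℝ}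
    {p : Fin 2 → ℝ} {e3 : Fin D3 → ℝ} {e1 : Fin D1 → ℝ} {e2 : Fin D2 → ℝ} {x : Cfg D3 D1 D2}
    (hx : x ∈ Sol F d3 d1 d2 p e3 e1 e2) : ‖coL_v x‖ = 1 := by
  obtain ⟨_, _, _, _, _, h6⟩ := hx
  have : ‖coL_v x‖ ^ 2 = 1 := by
    rw [coL_nsq]
    simpa [coL_v] using h6
  nlinarith [norm_nonneg (coL_v x)]

theorem coL_q {D3 D1 D2 : ℕ} {x : Cfg D3 D1 D2}
    (h : x.y 0 ^ 2 + x.y 1 ^ 2 + ∑ j, x.w3 j ^ 2 + ∑ j, x.w1 j ^ 2 + ∑ j, x.w2 j ^ 2 = 1) :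
    (∀ i, |x.q i| ≤ 2) ∧ ∑ j, x.w3 j ^ 2 ≤ 1 ∧ ∑ j, x.w1 j ^ 2 ≤ 1 ∧
      ∑ j, x.w3 j ^ 2 + ∑ j, x.w1 j ^ 2 + ∑ j, x.w2 j ^ 2 ≤ 1 := by
  have a3 : 0 ≤ ∑ j, x.w3 j ^ 2 := Finset.sum_nonneg fun j _ => sq_nonneg _
  have a1 : 0 ≤ ∑ j, x.w1 j ^ 2 := Finset.sum_nonneg fun j _ => sq_nonneg _
  have a2 : 0 ≤ ∑ j, x.w2 j ^ 2 := Finset.sum_nonneg fun j _ => sq_nonneg _
  refine ⟨?_, by nlinarith [sq_nonneg (x.y 0), sq_nonneg (x.y 1)], by nlinarith [sq_nonneg (x.y 0), sq_nonneg (x.y 1)],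
    by nlinarith [sq_nonneg (x.y 0), sq_nonneg (x.y 1)]⟩
  intro i
  fin_cases i
  · show |x.y 0| ≤ 2
    rw [abs_le]
    constructor <;> nlinarith [sq_nonneg (x.y 0), sq_nonneg (x.y 1)]
  · show |x.y 1| ≤ 2
    rw [abs_le]
    constructor <;> nlinarith [sq_nonneg (x.y 0), sq_nonneg (x.y 1)]
  · show |∑ j, x.w3 j ^ 2| ≤ 2
    rw [abs_le]
    constructor <;> nlinarith [sq_nonneg (x.y 0), sq_nonneg (x.y 1)]
  · show |∑ j, x.w1 j ^ 2| ≤ 2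
    rw [abs_le]
    constructor <;> nlinarith [sq_nonneg (x.y 0), sq_nonneg (x.y 1)]

theorem coL_gb {D3 D1 D2 : ℕ} {F : P4} {M : ℝ} (hM : 1 ≤ M)
    (hP : ∀ q q' : Fin 4 → ℝ, (∀ i, |q i| ≤ 2) →
    (∀ i, |q' i| ≤ 2) → ∀ i, |dF F i q| ≤ M ∧ |dF F i q - dF F i q'| ≤ M * ∑ k, |q k - q' k|)
    {d3 : Fin D3 → ℝ} {d1 : Fin D1 → ℝ} {d2 : Fin D2 → ℝ} (h3 : Pert d3 1) (h1 : Pert d1 1) (h2 : Pert d2 1)
    {x : Cfg D3 D1 D2}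
    (h : x.y 0 ^ 2 + x.y 1 ^ 2 + ∑ j, x.w3 j ^ 2 + ∑ j, x.w1 j ^ 2 + ∑ j, x.w2 j ^ 2 = 1) :
    ‖coL_g F d3 d1 d2 x‖ ≤ 20 * M := by
  obtain ⟨hq, b3, b1, b2⟩ := coL_q h
  have hb := fun i => (hP x.q x.q hq hq i).1
  have c : ∀ (D : ℕ) (d w : Fin D → ℝ) (f : ℝ), |f| ≤ M → (∀ j, 0 < d j ∧ d j < 1) →
      ∑ j, ((2 * f + 2 * d j) * w j) ^ 2 ≤ 16 * M ^ 2 * ∑ j, w j ^ 2 := by
    intro D d w f hf hd
    rw [Finset.mul_sum]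
    refine Finset.sum_le_sum fun j _ => ?_
    have h1 : (2 * f + 2 * d j) ^ 2 ≤ 16 * M ^ 2 := by
      have := abs_le.1 hf
      have h2 := hd j
      have : |2 * f + 2 * d j| ≤ 4 * M := by
        rw [abs_le]
        constructor <;> linarith
      calc (2 * f + 2 * d j) ^ 2 = |2 * f + 2 * d j| ^ 2 := (sq_abs _).symm
        _ ≤ (4 * M) ^ 2 := pow_le_pow_left₀ (abs_nonneg _) this 2
        _ = _ := by ring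
    rw [mul_pow]
    exact mul_le_mul_of_nonneg_right h1 (sq_nonneg _)
  have c3 := c D3 d3 x.w3 _ (hb 2) h3.2
  have c1 := c D1 d1 x.w1 _ (hb 3) h1.2
  have c2 := c D2 d2 x.w2 0 (by simp; linarith) h2.2
  have e2 : ∑ j, ((-2 * d2 j) * x.w2 j) ^ 2 = ∑ j, ((2 * 0 + 2 * d2 j) * x.w2 j) ^ 2 :=
    Finset.sum_congr rfl fun j _ => by ring
  have f0 : dF F 0 x.q ^ 2 ≤ M ^ 2 := by
    rw [← sq_abs]; exact pow_le_pow_left₀ (abs_nonneg _) (hb 0) 2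
  have f1 : dF F 1 x.q ^ 2 ≤ M ^ 2 := by
    rw [← sq_abs]; exact pow_le_pow_left₀ (abs_nonneg _) (hb 1) 2
  have key : ‖coL_g F d3 d1 d2 x‖ ^ 2 ≤ 18 * M ^ 2 := by
    rw [coL_nsq]
    show dF F 0 x.q ^ 2 + dF F 1 x.q ^ 2 + ∑ j, ((2 * dF F 2 x.q + 2 * d3 j) * x.w3 j) ^ 2
      + ∑ j, ((2 * dF F 3 x.q + 2 * d1 j) * x.w1 j) ^ 2 + ∑ j, ((-2 * d2 j) * x.w2 j) ^ 2 ≤ _
    rw [e2]
    have : 16 * M ^ 2 * (∑ j, x.w3 j ^ 2 + ∑ j, x.w1 j ^ 2 + ∑ j, x.w2 j ^ 2) ≤ 16 * M ^ 2 * 1 :=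
      mul_le_mul_of_nonneg_left b2 (by positivity)
    linarith
  have : ‖coL_g F d3 d1 d2 x‖ ^ 2 ≤ (20 * M) ^ 2 := key.trans (by nlinarith [sq_nonneg M])
  exact le_of_sq_le_sq this (by positivity)

theorem coL_gl {D3 D1 D2 : ℕ} {F : P4} {M : ℝ} (hM : 1 ≤ M)
    (hP : ∀ q q' : Fin 4 → ℝ, (∀ i, |q i| ≤ 2) →
    (∀ i, |q' i| ≤ 2) → ∀ i, |dF F i q| ≤ M ∧ |dF F i q - dF F i q'| ≤ M * ∑ k, |q k - q' k|)
    {d3 : Fin D3 → ℝ} {d1 : Fin D1 → ℝ} {d2 : Fin D2 → ℝ} (h3 : Pert d3 1) (h1 : Pert d1 1) (h2 : Pert d2 1)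
    {x x' : Cfg D3 D1 D2}
    (h : x.y 0 ^ 2 + x.y 1 ^ 2 + ∑ j, x.w3 j ^ 2 + ∑ j, x.w1 j ^ 2 + ∑ j, x.w2 j ^ 2 = 1)
    (h' : x'.y 0 ^ 2 + x'.y 1 ^ 2 + ∑ j, x'.w3 j ^ 2 + ∑ j, x'.w1 j ^ 2 + ∑ j, x'.w2 j ^ 2 = 1) :
    ‖coL_g F d3 d1 d2 x - coL_g F d3 d1 d2 x'‖ ≤ 20 * M * ‖coL_v x - coL_v x'‖ := by
  obtain ⟨hq, b3, b1, b2⟩ := coL_q h
  obtain ⟨hq', b3', b1', b2'⟩ := coL_q h'
  have hδ : 0 ≤ ‖coL_v x - coL_v x'‖ := norm_nonneg _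
  have hv : ‖coL_v x - coL_v x'‖ ^ 2 = (x.y 0 - x'.y 0) ^ 2 + (x.y 1 - x'.y 1) ^ 2 + ∑ j, (x.w3 j - x'.w3 j) ^ 2
      + ∑ j, (x.w1 j - x'.w1 j) ^ 2 + ∑ j, (x.w2 j - x'.w2 j) ^ 2 := by
    rw [coL_nsq]
    rfl
  set δ := ‖coL_v x - coL_v x'‖ with hδd
  have a3 : 0 ≤ ∑ j, (x.w3 j - x'.w3 j) ^ 2 := Finset.sum_nonneg fun j _ => sq_nonneg _
  have a1 : 0 ≤ ∑ j, (x.w1 j - x'.w1 j) ^ 2 := Finset.sum_nonneg fun j _ => sq_nonneg _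
  have a2 : 0 ≤ ∑ j, (x.w2 j - x'.w2 j) ^ 2 := Finset.sum_nonneg fun j _ => sq_nonneg _
  have s0 := sq_nonneg (x.y 0 - x'.y 0)
  have s1 := sq_nonneg (x.y 1 - x'.y 1)
  have l0 : |x.y 0 - x'.y 0| ≤ δ := abs_le_of_sq_le_sq (by linarith) hδ
  have l1 : |x.y 1 - x'.y 1| ≤ δ := abs_le_of_sq_le_sq (by linarith) hδ
  have l2 := coL_sq x.w3 x'.w3 hδ (by linarith) b3 b3'
  have l3 := coL_sq x.w1 x'.w1 hδ (by linarith) b1 b1'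
  have hs : ∑ k, |x.q k - x'.q k| ≤ 6 * δ := by
    rw [Fin.sum_univ_four]
    show |x.y 0 - x'.y 0| + |x.y 1 - x'.y 1| + |∑ j, x.w3 j ^ 2 - ∑ j, x'.w3 j ^ 2|
      + |∑ j, x.w1 j ^ 2 - ∑ j, x'.w1 j ^ 2| ≤ _
    linarith
  have hl : ∀ i, |dF F i x.q - dF F i x'.q| ≤ 6 * M * δ := by
    intro i
    have := (hP x.q x'.q hq hq' i).2
    have h7 : M * ∑ k, |x.q k - x'.q k| ≤ M * (6 * δ) := mul_le_mul_of_nonneg_left hs (by linarith)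
    linarith
  have hb := fun i => (hP x.q x.q hq hq i).1
  have c3 := coL_cmp d3 x.w3 x'.w3 hM (hb 2) (hl 2) h3.2
  have c1 := coL_cmp d1 x.w1 x'.w1 hM (hb 3) (hl 3) h1.2
  have c2 := coL_cmp d2 x.w2 x'.w2 (f := 0) (f' := 0) (δ := δ) hM (by simp; linarith) (by simp; positivity) h2.2
  have e2 : ∑ j, ((-2 * d2 j) * x.w2 j - (-2 * d2 j) * x'.w2 j) ^ 2
      = ∑ j, ((2 * 0 + 2 * d2 j) * x.w2 j - (2 * 0 + 2 * d2 j) * x'.w2 j) ^ 2 :=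
    Finset.sum_congr rfl fun j _ => by ring
  have f0 : (dF F 0 x.q - dF F 0 x'.q) ^ 2 ≤ 36 * M ^ 2 * δ ^ 2 := by
    rw [← sq_abs]
    calc _ ≤ (6 * M * δ) ^ 2 := pow_le_pow_left₀ (abs_nonneg _) (hl 0) 2
      _ = _ := by ring
  have f1 : (dF F 1 x.q - dF F 1 x'.q) ^ 2 ≤ 36 * M ^ 2 * δ ^ 2 := by
    rw [← sq_abs]
    calc _ ≤ (6 * M * δ) ^ 2 := pow_le_pow_left₀ (abs_nonneg _) (hl 1) 2
      _ = _ := by ring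
  have key : ‖coL_g F d3 d1 d2 x - coL_g F d3 d1 d2 x'‖ ^ 2 ≤ 392 * M ^ 2 * δ ^ 2 := by
    rw [coL_nsq]
    show (dF F 0 x.q - dF F 0 x'.q) ^ 2 + (dF F 1 x.q - dF F 1 x'.q) ^ 2
      + ∑ j, ((2 * dF F 2 x.q + 2 * d3 j) * x.w3 j - (2 * dF F 2 x'.q + 2 * d3 j) * x'.w3 j) ^ 2
      + ∑ j, ((2 * dF F 3 x.q + 2 * d1 j) * x.w1 j - (2 * dF F 3 x'.q + 2 * d1 j) * x'.w1 j) ^ 2
      + ∑ j, ((-2 * d2 j) * x.w2 j - (-2 * d2 j) * x'.w2 j) ^ 2 ≤ _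
    rw [e2]
    have t1 : 288 * M ^ 2 * δ ^ 2 * (∑ j, x'.w3 j ^ 2 + ∑ j, x'.w1 j ^ 2 + ∑ j, x'.w2 j ^ 2) ≤ 288 * M ^ 2 * δ ^ 2 * 1 :=
      mul_le_mul_of_nonneg_left b2' (by positivity)
    have t2 : 32 * M ^ 2 * (∑ j, (x.w3 j - x'.w3 j) ^ 2 + ∑ j, (x.w1 j - x'.w1 j) ^ 2 + ∑ j, (x.w2 j - x'.w2 j) ^ 2)
        ≤ 32 * M ^ 2 * δ ^ 2 := mul_le_mul_of_nonneg_left (by linarith) (by positivity)
    linarith
  have : ‖coL_g F d3 d1 d2 x - coL_g F d3 d1 d2 x'‖ ^ 2 ≤ (20 * M * δ) ^ 2 := by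
    refine key.trans ?_
    have : 0 ≤ M ^ 2 * δ ^ 2 := by positivity
    nlinarith
  exact le_of_sq_le_sq this (by positivity)

theorem coL_one {V : Type*} [NormedAddCommGroup V] [InnerProductSpace ℝ V] {v v' g g' P : V} {l l' K : ℝ}
    (hK : 0 < K) (hv : ‖v‖ = 1) (hv' : ‖v'‖ = 1) (e : g - l • v = P) (e' : g' - l' • v' = P)
    (hg : ‖g - g'‖ ≤ K * ‖v - v'‖) (hl : 2 * K * (2 * K) ≤ l * l') : v = v' ∧ l = l' := by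
  have h1 : g - g' = l • v - l' • v' := by
    have : g = P + l • v := by rw [← e]; abel
    have h2 : g' = P + l' • v' := by rw [← e']; abel
    rw [this, h2]
    abel
  have h2 : ‖l • v - l' • v'‖ ^ 2 = (l - l') ^ 2 + l * l' * ‖v - v'‖ ^ 2 := by
    rw [norm_sub_sq_real, norm_sub_sq_real, norm_smul, norm_smul, hv, hv', inner_smul_left, inner_smul_right]
    simp only [mul_one, Real.norm_eq_abs, sq_abs, conj_trivial]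
    ring
  have h3 : ‖l • v - l' • v'‖ ^ 2 ≤ K ^ 2 * ‖v - v'‖ ^ 2 := by
    rw [← h1, ← mul_pow]
    exact pow_le_pow_left₀ (norm_nonneg _) hg 2
  have h4 := mul_le_mul_of_nonneg_right hl (sq_nonneg ‖v - v'‖)
  have h5 : ‖v - v'‖ ^ 2 = 0 := by
    have h6 : 0 ≤ ‖v - v'‖ ^ 2 := sq_nonneg _
    have h7 : 3 * (K ^ 2 * ‖v - v'‖ ^ 2) ≤ 0 := by nlinarith [sq_nonneg (l - l')]
    have h8 : 0 < K ^ 2 := by positivity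
    nlinarith
  have h6 : v = v' := by
    rw [← sub_eq_zero, ← norm_eq_zero]
    exact pow_eq_zero_iff (two_ne_zero) |>.1 h5
  refine ⟨h6, ?_⟩
  rw [h5] at h2 h3
  have : (l - l') ^ 2 = 0 := le_antisymm (by linarith) (sq_nonneg _)
  have := pow_eq_zero_iff (two_ne_zero) |>.1 this
  linarith

theorem large (F : P4) : ∃ R : ℝ, 0 < R ∧
    ∀ (D3 D1 D2 : ℕ) (d3 : Fin D3 → ℝ) (d1 : Fin D1 → ℝ) (d2 : Fin D2 → ℝ),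
      Pert d3 1 → Pert d1 1 → Pert d2 1 →
      ∀ (p : Fin 2 → ℝ) (e3 : Fin D3 → ℝ) (e1 : Fin D1 → ℝ) (e2 : Fin D2 → ℝ),
        ¬ Bdd R p e3 e1 e2 → (Sol F d3 d1 d2 p e3 e1 e2).encard ≤ 2 := by
  obtain ⟨M, hM, hP2⟩ := polyLip2 F
  have hP : ∀ q q' : Fin 4 → ℝ, (∀ i, |q i| ≤ 2) →
      (∀ i, |q' i| ≤ 2) → ∀ i, |dF F i q| ≤ M ∧ |dF F i q - dF F i q'| ≤ M * ∑ k, |q k - q' k| :=
    fun q q' hq hq' i => ⟨(hP2 q q' hq hq' i).1, (hP2 q q' hq hq' i).2.1⟩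
  refine ⟨60 * M + 1, by positivity, ?_⟩
  intro D3 D1 D2 d3 d1 d2 h3 h1 h2 p e3 e1 e2 hB
  have hPn : 60 * M + 1 < ‖coL_P p e3 e1 e2‖ := by
    by_contra hcon
    push Not at hcon
    apply hB
    unfold Bdd
    have := pow_le_pow_left₀ (norm_nonneg _) hcon 2
    rw [coL_nsq] at this
    exact this
  have hlam : ∀ x ∈ Sol F d3 d1 d2 p e3 e1 e2, 2 * (20 * M) < |x.lam| := by
    intro x hx
    have a1 := coL_eq hx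
    have a2 := coL_vn hx
    have a3 := coL_gb hM hP h3 h1 h2 (x := x) hx.2.2.2.2.2
    have a4 : ‖coL_P p e3 e1 e2‖ ≤ ‖coL_g F d3 d1 d2 x‖ + ‖x.lam • coL_v x‖ := by
      rw [← a1]
      exact norm_sub_le _ _
    rw [norm_smul, a2, mul_one, Real.norm_eq_abs] at a4
    linarith
  have hone : ∀ x ∈ Sol F d3 d1 d2 p e3 e1 e2, ∀ x' ∈ Sol F d3 d1 d2 p e3 e1 e2, 0 ≤ x.lam * x'.lam → x = x' := by
    intro x hx x' hx' hs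
    have a1 := hlam x hx
    have a2 := hlam x' hx'
    have a3 : 2 * (20 * M) * (2 * (20 * M)) ≤ x.lam * x'.lam := by
      rw [← abs_of_nonneg hs, abs_mul]
      exact mul_le_mul a1.le a2.le (by positivity) (abs_nonneg _)
    obtain ⟨b1, b2⟩ := coL_one (by positivity : 0 < 20 * M) (coL_vn hx) (coL_vn hx') (coL_eq hx) (coL_eq hx')
      (coL_gl hM hP h3 h1 h2 hx.2.2.2.2.2 hx'.2.2.2.2.2) a3
    have c : ∀ i, coL_v x i = coL_v x' i := fun i => by rw [b1]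
    obtain ⟨y, w3, w1, w2, l⟩ := x
    obtain ⟨y', w3', w1', w2', l'⟩ := x'
    have c1 : y = y' := funext fun i => c (Sum.inl i)
    have c2 : w3 = w3' := funext fun i => c (Sum.inr (Sum.inl i))
    have c3 : w1 = w1' := funext fun i => c (Sum.inr (Sum.inr (Sum.inl i)))
    have c4 : w2 = w2' := funext fun i => c (Sum.inr (Sum.inr (Sum.inr i)))
    have c5 : l = l' := b2
    rw [c1, c2, c3, c4, c5]
  have hu : Sol F d3 d1 d2 p e3 e1 e2 ⊆ {x ∈ Sol F d3 d1 d2 p e3 e1 e2 | 0 ≤ x.lam} ∪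
      {x ∈ Sol F d3 d1 d2 p e3 e1 e2 | x.lam < 0} := by
    intro x hx
    rcases le_or_gt 0 x.lam with h | h
    · exact Or.inl ⟨hx, h⟩
    · exact Or.inr ⟨hx, h⟩
  have k1 : {x ∈ Sol F d3 d1 d2 p e3 e1 e2 | 0 ≤ x.lam}.encard ≤ 1 := by
    rw [Set.encard_le_one_iff]
    intro a b ha hb
    exact hone a ha.1 b hb.1 (mul_nonneg ha.2 hb.2)
  have k2 : {x ∈ Sol F d3 d1 d2 p e3 e1 e2 | x.lam < 0}.encard ≤ 1 := by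
    rw [Set.encard_le_one_iff]
    intro a b ha hb
    exact hone a ha.1 b hb.1 (mul_nonneg_of_nonpos_of_nonpos ha.2.le hb.2.le)
  calc (Sol F d3 d1 d2 p e3 e1 e2).encard ≤ _ := Set.encard_le_encard hu
    _ ≤ _ := Set.encard_union_le _ _
    _ ≤ 1 + 1 := add_le_add k1 k2
    _ = 2 := by norm_num

end Pool.Agent.CNX
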