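import Pool.Agent.CNX.CO_I
import Pool.Agent.CNX.CO_J
import Pool.Agent.CNX.CO_K
import Pool.Agent.CNX.CO_L

/-!
# CO_M (difficulty 3): assembly of the count (5.5)

Given `F` (κ, F1, F2, F3, F4) and `k`. `c' := min` of the `c` of `top_count`, `bot_count`, `geom`. `R` from `large`. `om0 := min` of `1`, the `om` of `top_count`, `bot_count`,
`geom c'`, `E0/2`, and `om` of `B1Stmt F c' R` with bound `C*`. `D3 := C* + k + 4`, `d3 j := om0 (j+1)/(D3+2)` (`Pert d3 om0`).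
`B2Stmt` gives `C3, om1`. `om0' := min om0 om1`; `D1 := C3 + k + 8`; `d1` with `Pert d1 om0'`. `B3Stmt` gives `C2, om2`. `D20 := C2 + k + 8`. For `D2 ≥ D20` take
`d2` with `Pert d2 (min om0' om2)`. `N := 2(2+D3+D1+D2) - 1 - k`.
`(Crit ..).encard ≤ (Sol ..).encard` (Crit is contained in the image of Sol). Not `Bdd R`: `≤ 2`. `Bdd R`:
 Case 1 (no `x ∈ Sol` with `2 d2 j ≤ -lam ≤ 2 d2 j'`): `Sol = {-c' ≤ lam} ∪ {lam ≤ -c'}`: `≤ 5 + C2`.
 Case 2: hit. `∑ e2² ≤ (2om)² ≤ E0²`. `Sol ⊆ {-c' ≤ lam} ∪ {mu1 ≤ c'} ∪ {lam ≤ -c' ∧ c' ≤ mu1}`.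
   2a: no `x` with `2 d1 j ≤ mu1 ≤ 2 d1 j'`: `≤ (2D2+3) + 5 + C3`.
   2b: by `geom` the third set is contained in the set of (B1): `≤ (2D2+3) + (2D1+3) + C*`.
-/

set_option autoImplicit false

namespace Pool.Agent.CNX

open MvPolynomial

theorem coM_exists_pert (D : ℕ) {om : ℝ} (hom : 0 < om) : ∃ d : Fin D → ℝ, Pert d om := by
  have hD : (0 : ℝ) < (D : ℝ) + 2 := by positivity
  refine ⟨fun j => om * ((j : ℕ) + 1) / ((D : ℝ) + 2), ?_, ?_⟩
  · intro i j hij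
    have h : ((i : ℕ) : ℝ) < ((j : ℕ) : ℝ) := by exact_mod_cast hij
    apply div_lt_div_of_pos_right _ hD
    apply mul_lt_mul_of_pos_left _ hom
    linarith
  · intro j
    have h : (((j : ℕ) : ℝ)) + 1 ≤ (D : ℝ) := by exact_mod_cast j.2
    have h0 : (0 : ℝ) ≤ ((j : ℕ) : ℝ) := Nat.cast_nonneg _
    refine ⟨by positivity, ?_⟩
    change om * ((j : ℕ) + 1) / ((D : ℝ) + 2) < om
    rw [div_lt_iff₀ hD]
    apply mul_lt_mul_of_pos_left _ hom
    linarith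

theorem coM_pert_mono {D : ℕ} {d : Fin D → ℝ} {om om' : ℝ} (h : Pert d om) (hle : om ≤ om') :
    Pert d om' := ⟨h.1, fun j => ⟨(h.2 j).1, (h.2 j).2.trans_le hle⟩⟩

theorem coM_crit_le {D3 D1 D2 : ℕ} (F : P4) (d3 : Fin D3 → ℝ) (d1 : Fin D1 → ℝ) (d2 : Fin D2 → ℝ)
    (p : Fin 2 → ℝ) (e3 : Fin D3 → ℝ) (e1 : Fin D1 → ℝ) (e2 : Fin D2 → ℝ) :
    (Crit F d3 d1 d2 p e3 e1 e2).encard ≤ (Sol F d3 d1 d2 p e3 e1 e2).encard := by
  have hsub : Crit F d3 d1 d2 p e3 e1 e2 ⊆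
      (fun x : Cfg D3 D1 D2 => (x.1, x.2.1, x.2.2.1, x.2.2.2.1)) '' (Sol F d3 d1 d2 p e3 e1 e2) := by
    rintro ⟨a, b, c, d⟩ ⟨l, hl⟩
    exact ⟨(a, b, c, d, l), hl, rfl⟩
  exact (Set.encard_le_encard hsub).trans (Set.encard_image_le _ _)

theorem coM_union3 {α : Type*} {S A B C : Set α} (h : ∀ x ∈ S, x ∈ A ∨ x ∈ B ∨ x ∈ C)
    {a b c : ℕ∞} (hA : A.encard ≤ a) (hB : B.encard ≤ b) (hC : C.encard ≤ c) :
    S.encard ≤ a + b + c := by
  have hsub : S ⊆ (A ∪ B) ∪ C := by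
    intro x hx
    rcases h x hx with h | h | h
    · exact Or.inl (Or.inl h)
    · exact Or.inl (Or.inr h)
    · exact Or.inr h
  refine (Set.encard_le_encard hsub).trans ((Set.encard_union_le _ _).trans ?_)
  exact add_le_add ((Set.encard_union_le _ _).trans (add_le_add hA hB)) hC

theorem coM_union2 {α : Type*} {S A B : Set α} (h : ∀ x ∈ S, x ∈ A ∨ x ∈ B)
    {a b : ℕ∞} (hA : A.encard ≤ a) (hB : B.encard ≤ b) : S.encard ≤ a + b := by
  have hsub : S ⊆ A ∪ B := fun x hx => h x hx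
  exact (Set.encard_le_encard hsub).trans ((Set.encard_union_le _ _).trans (add_le_add hA hB))

theorem count (hW : WinStmt) (h1 : B1Stmt) (h2 : B2Stmt) (h3 : B3Stmt) : CountStmt := by
  intro F hF k
  obtain ⟨⟨κ, hκ, hF1, hF2⟩, hF3, hF4⟩ := hF
  obtain ⟨ct, omt, hct, homt, top⟩ := top_count hW hκ hF1
  obtain ⟨cb, omb, E0, hcb, homb, hE0, bot⟩ := bot_count hW hκ hF1 hF2
  obtain ⟨cg, hcg, geo⟩ := geom hκ hF1 hF2 hF3
  obtain ⟨R, hR, lar⟩ := large F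
  obtain ⟨c', hc', hc't, hc'b, hc'g⟩ : ∃ c' : ℝ, 0 < c' ∧ c' ≤ ct ∧ c' ≤ cb ∧ c' ≤ cg :=
    ⟨min ct (min cb cg), lt_min hct (lt_min hcb hcg), min_le_left _ _,
      (min_le_right _ _).trans (min_le_left _ _), (min_le_right _ _).trans (min_le_right _ _)⟩
  obtain ⟨omg, homg, geo'⟩ := geo c' hc' hc'g
  obtain ⟨Cs, omB, homB, b1⟩ := h1 F hF4 c' R hc'
  obtain ⟨om0, hom0, ho1, hot, hob, hog, hoE, hoB⟩ : ∃ om0 : ℝ, 0 < om0 ∧ om0 ≤ 1 ∧ om0 ≤ omt ∧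
      om0 ≤ omb ∧ om0 ≤ omg ∧ om0 ≤ E0 / 2 ∧ om0 ≤ omB := by
    refine ⟨min (min 1 omt) (min (min omb omg) (min (E0 / 2) omB)), ?_, ?_, ?_, ?_, ?_, ?_, ?_⟩
    · exact lt_min (lt_min one_pos homt) (lt_min (lt_min homb homg) (lt_min (by positivity) homB))
    · exact (min_le_left _ _).trans (min_le_left _ _)
    · exact (min_le_left _ _).trans (min_le_right _ _)
    · exact (min_le_right _ _).trans ((min_le_left _ _).trans (min_le_left _ _))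
    · exact (min_le_right _ _).trans ((min_le_left _ _).trans (min_le_right _ _))
    · exact (min_le_right _ _).trans ((min_le_right _ _).trans (min_le_left _ _))
    · exact (min_le_right _ _).trans ((min_le_right _ _).trans (min_le_right _ _))
  obtain ⟨D3, hD3⟩ : ∃ D3 : ℕ, D3 = Cs + k + 4 := ⟨_, rfl⟩
  obtain ⟨d3, hd3⟩ := coM_exists_pert D3 hom0
  obtain ⟨C3, om1, hom1, b2⟩ := h2 F hF4 c' R hc' D3 d3 hd3.1 (fun j => (hd3.2 j).1)
  obtain ⟨D1, hD1⟩ : ∃ D1 : ℕ, D1 = C3 + k + 8 := ⟨_, rfl⟩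
  obtain ⟨d1, hd1⟩ := coM_exists_pert D1 (lt_min hom0 hom1)
  have hd1a : Pert d1 om0 := coM_pert_mono hd1 (min_le_left _ _)
  have hd1b : Pert d1 om1 := coM_pert_mono hd1 (min_le_right _ _)
  obtain ⟨C2, om2, hom2, b3⟩ := h3 F hF4 c' R hc' D3 d3 hd3.1 (fun j => (hd3.2 j).1) D1 d1 hd1.1
    (fun j => (hd1.2 j).1)
  refine ⟨D3, D1, C2 + k + 8, d3, d1, fun D2 hD2 => ?_⟩
  obtain ⟨d2, hd2⟩ := coM_exists_pert D2 (lt_min hom0 (lt_min hom1 hom2))
  have hd2a : Pert d2 om0 := coM_pert_mono hd2 (min_le_left _ _)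
  have hd2b : Pert d2 om1 := coM_pert_mono hd2 ((min_le_right _ _).trans (min_le_left _ _))
  have hd2c : Pert d2 om2 := coM_pert_mono hd2 ((min_le_right _ _).trans (min_le_right _ _))
  refine ⟨d2, 2 * (2 + D3 + D1 + D2) - 1 - k, by omega, fun p e3 e1 e2 => ?_⟩
  refine (coM_crit_le F d3 d1 d2 p e3 e1 e2).trans ?_
  by_cases hB : Bdd R p e3 e1 e2
  · have htop := top c' hc' hc't D3 D1 D2 d3 d1 d2 (coM_pert_mono hd3 hot)
      (coM_pert_mono hd1a hot) (coM_pert_mono hd2a hot) p e3 e1 e2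
    by_cases hit2 : ∃ x ∈ Sol F d3 d1 d2 p e3 e1 e2, ∃ j j',
        2 * d2 j ≤ -x.lam ∧ -x.lam ≤ 2 * d2 j'
    · have hE2 : ∑ j, e2 j ^ 2 ≤ E0 ^ 2 := by
        refine (hit2_small hd2a hit2).trans ?_
        apply pow_le_pow_left₀ (by positivity)
        linarith
      have hbot := bot c' hc' hc'b D3 D1 D2 d3 d1 d2 (coM_pert_mono hd3 hob)
        (coM_pert_mono hd1a hob) (coM_pert_mono hd2a hob) p e3 e1 e2 hE2
      by_cases hit1 : ∃ x ∈ Sol F d3 d1 d2 p e3 e1 e2, ∃ j j',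
          2 * d1 j ≤ mu1 F x ∧ mu1 F x ≤ 2 * d1 j'
      · have hg := geo' D3 D1 D2 d3 d1 d2 (coM_pert_mono hd3 hog) (coM_pert_mono hd1a hog)
          (coM_pert_mono hd2a hog) p e3 e1 e2 hit2 hit1
        have hb1 := b1 D3 D1 D2 d3 d1 d2 (coM_pert_mono hd3 hoB) (coM_pert_mono hd1a hoB)
          (coM_pert_mono hd2a hoB) p e3 e1 e2 hB
        have hfin := coM_union3 (S := Sol F d3 d1 d2 p e3 e1 e2)
          (A := {x ∈ Sol F d3 d1 d2 p e3 e1 e2 | -c' ≤ x.lam})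
          (B := {x ∈ Sol F d3 d1 d2 p e3 e1 e2 | mu1 F x ≤ c'})
          (C := {x ∈ Sol F d3 d1 d2 p e3 e1 e2 | x.lam ≤ -c' ∧ c' ≤ |mu1 F x| ∧ c' ≤ |mu3 F x|})
          (by
            intro x hx
            by_cases hl : -c' ≤ x.lam
            · exact Or.inl ⟨hx, hl⟩
            · by_cases hm : mu1 F x ≤ c'
              · exact Or.inr (Or.inl ⟨hx, hm⟩)
              · have hl' : x.lam ≤ -c' := (not_le.1 hl).le
                have hm' : c' ≤ mu1 F x := (not_le.1 hm).le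
                exact Or.inr (Or.inr ⟨hx, hl', hm'.trans (le_abs_self _), hg x hx hl' hm'⟩))
          htop.1 hbot.1 hb1
        refine hfin.trans ?_
        have : (2 * D2 + 3) + (2 * D1 + 3) + Cs ≤ 2 * (2 + D3 + D1 + D2) - 1 - k := by omega
        exact_mod_cast this
      · have hb2 := b2 D1 D2 d1 d2 hd1b hd2b p e3 e1 e2 hB
        have hfin := coM_union3 (S := Sol F d3 d1 d2 p e3 e1 e2)
          (A := {x ∈ Sol F d3 d1 d2 p e3 e1 e2 | -c' ≤ x.lam})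
          (B := {x ∈ Sol F d3 d1 d2 p e3 e1 e2 | mu1 F x ≤ c'})
          (C := {x ∈ Sol F d3 d1 d2 p e3 e1 e2 | x.lam ≤ -c' ∧ c' ≤ mu1 F x})
          (by
            intro x hx
            by_cases hl : -c' ≤ x.lam
            · exact Or.inl ⟨hx, hl⟩
            · by_cases hm : mu1 F x ≤ c'
              · exact Or.inr (Or.inl ⟨hx, hm⟩)
              · exact Or.inr (Or.inr ⟨hx, (not_le.1 hl).le, (not_le.1 hm).le⟩))
          htop.1 (hbot.2 (fun x hx _ j j' h => hit1 ⟨x, hx, j, j', h⟩)) hb2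
        refine hfin.trans ?_
        have : (2 * D2 + 3) + 5 + C3 ≤ 2 * (2 + D3 + D1 + D2) - 1 - k := by omega
        exact_mod_cast this
    · have hb3 := b3 D2 d2 hd2c p e3 e1 e2 hB
      have hfin := coM_union2 (S := Sol F d3 d1 d2 p e3 e1 e2)
        (A := {x ∈ Sol F d3 d1 d2 p e3 e1 e2 | -c' ≤ x.lam})
        (B := {x ∈ Sol F d3 d1 d2 p e3 e1 e2 | x.lam ≤ -c'})
        (by
          intro x hx
          rcases le_total (-c') x.lam with hl | hl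
          · exact Or.inl ⟨hx, hl⟩
          · exact Or.inr ⟨hx, hl⟩)
        (htop.2 (fun x hx _ j j' h => hit2 ⟨x, hx, j, j', h⟩)) hb3
      refine hfin.trans ?_
      have : 5 + C2 ≤ 2 * (2 + D3 + D1 + D2) - 1 - k := by omega
      exact_mod_cast this
  · refine (lar D3 D1 D2 d3 d1 d2 (coM_pert_mono hd3 ho1) (coM_pert_mono hd1a ho1)
      (coM_pert_mono hd2a ho1) p e3 e1 e2 hB).trans ?_
    have : 2 ≤ 2 * (2 + D3 + D1 + D2) - 1 - k := by omega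
    exact_mod_cast this

end Pool.Agent.CNX
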