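import Pool.Agent.CNX.CO_D

/-!
# CO_Z (difficulty 3): the final assembly `BODY + COUNT + EXF → Goal`

`F` from `ExFStmt`; `D3, D1, D20, d3, d1` from `CountStmt F k`; `d0 := 2 + D3 + D1 + D20 + 2`. For `d ≥ d0`: `D2 := d - 2 - D3 - D1`, `d2, N`. Let
`e : Fin 2 ⊕ Fin D3 ⊕ Fin D1 ⊕ Fin D2 ≃ Fin d`. `u := EQ F Q t` on `EuclideanSpace ℝ (Fin d)` with `Q` the quadratic map
`(v (e (inl 0)), v (e (inl 1)), ∑ v (e (w3 j))², ∑ v (e (w1 j))²)` and `t = (0, d3, d1, -d2) ∘ e.symm`. `EQ_contDiff`, `EQ_fderiv`: the set in `BodyStmt` at `P` maps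
injectively (`v ↦ (y, w3, w1, w2)`) into `Crit F d3 d1 d2 p e3 e1 e2` with `P = (p, e3, e1, e2)`. So `BodyStmt` with this `N` gives `K`;
`X.card ≤ N`, `N + k < 2 d`.
-/

set_option autoImplicit false

namespace Pool.Agent.CNX

open MvPolynomial

section coZ

variable {D3 D1 D2 d : ℕ}

/-- linear coefficients -/
def coZ_l (i : Fin 4) : Fin 2 ⊕ Fin D3 ⊕ Fin D1 ⊕ Fin D2 → ℝ
  | Sum.inl k => if i = Fin.castLE (by omega) k then 1 else 0
  | Sum.inr _ => 0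

/-- quadratic coefficients -/
def coZ_s (i : Fin 4) : Fin 2 ⊕ Fin D3 ⊕ Fin D1 ⊕ Fin D2 → ℝ
  | Sum.inl _ => 0
  | Sum.inr (Sum.inl _) => if i = 2 then 1 else 0
  | Sum.inr (Sum.inr (Sum.inl _)) => if i = 3 then 1 else 0
  | Sum.inr (Sum.inr (Sum.inr _)) => 0

/-- the perturbation vector -/
def coZ_t (d3 : Fin D3 → ℝ) (d1 : Fin D1 → ℝ) (d2 : Fin D2 → ℝ) :
    Fin 2 ⊕ Fin D3 ⊕ Fin D1 ⊕ Fin D2 → ℝ
  | Sum.inl _ => 0
  | Sum.inr (Sum.inl j) => d3 j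
  | Sum.inr (Sum.inr (Sum.inl j)) => d1 j
  | Sum.inr (Sum.inr (Sum.inr j)) => -d2 j

/-- the quadratic map on `Fin d` -/
def coZ_Q (e : Fin 2 ⊕ Fin D3 ⊕ Fin D1 ⊕ Fin D2 ≃ Fin d) : QM (Fin d) where
  c := 0
  l := fun i k => coZ_l i (e.symm k)
  s := fun i k => coZ_s i (e.symm k)

theorem coZ_sum (e : Fin 2 ⊕ Fin D3 ⊕ Fin D1 ⊕ Fin D2 ≃ Fin d) (f : Fin d → ℝ) :
    ∑ k, f k = f (e (Sum.inl 0)) + f (e (Sum.inl 1)) + ∑ j, f (e (Sum.inr (Sum.inl j)))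
      + ∑ j, f (e (Sum.inr (Sum.inr (Sum.inl j)))) + ∑ j, f (e (Sum.inr (Sum.inr (Sum.inr j)))) := by
  rw [← Equiv.sum_comp e, Fintype.sum_sum_type, Fintype.sum_sum_type, Fintype.sum_sum_type,
    Fin.sum_univ_two]
  ring

theorem coZ_l00 : coZ_l (D3 := D3) (D1 := D1) (D2 := D2) 0 (Sum.inl 0) = 1 := by
  simp [coZ_l]

theorem coZ_l10 : coZ_l (D3 := D3) (D1 := D1) (D2 := D2) 1 (Sum.inl 0) = 0 := by
  simp [coZ_l]

theorem coZ_l20 : coZ_l (D3 := D3) (D1 := D1) (D2 := D2) 2 (Sum.inl 0) = 0 := by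
  simp [coZ_l]

theorem coZ_l30 : coZ_l (D3 := D3) (D1 := D1) (D2 := D2) 3 (Sum.inl 0) = 0 := by
  simp [coZ_l]

theorem coZ_l01 : coZ_l (D3 := D3) (D1 := D1) (D2 := D2) 0 (Sum.inl 1) = 0 := by
  simp [coZ_l, Fin.ext_iff]

theorem coZ_l11 : coZ_l (D3 := D3) (D1 := D1) (D2 := D2) 1 (Sum.inl 1) = 1 := by
  simp [coZ_l, Fin.ext_iff]

theorem coZ_l21 : coZ_l (D3 := D3) (D1 := D1) (D2 := D2) 2 (Sum.inl 1) = 0 := by
  simp [coZ_l, Fin.ext_iff]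

theorem coZ_l31 : coZ_l (D3 := D3) (D1 := D1) (D2 := D2) 3 (Sum.inl 1) = 0 := by
  simp [coZ_l, Fin.ext_iff]

theorem coZ_q (e : Fin 2 ⊕ Fin D3 ⊕ Fin D1 ⊕ Fin D2 ≃ Fin d) (z : EuclideanSpace ℝ (Fin d)) :
    (coZ_Q e).q z = pt (z (e (Sum.inl 0))) (z (e (Sum.inl 1)))
      (∑ j, z (e (Sum.inr (Sum.inl j))) ^ 2) (∑ j, z (e (Sum.inr (Sum.inr (Sum.inl j)))) ^ 2) := by
  funext i
  change 0 + ∑ k, coZ_l i (e.symm k) * z k + ∑ k, coZ_s i (e.symm k) * z k ^ 2 = _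
  rw [coZ_sum e, coZ_sum e]
  simp only [Equiv.symm_apply_apply, coZ_l, coZ_s]
  fin_cases i
  · simp [pt, Fin.ext_iff]
  · simp [pt, Fin.ext_iff]
  · simp [pt, Fin.ext_iff]
  · simp [pt, Fin.ext_iff]

theorem coZ_eq (F : P4) (d3 : Fin D3 → ℝ) (d1 : Fin D1 → ℝ) (d2 : Fin D2 → ℝ)
    (e : Fin 2 ⊕ Fin D3 ⊕ Fin D1 ⊕ Fin D2 ≃ Fin d) (v P : EuclideanSpace ℝ (Fin d)) (l : ℝ)
    (h : ∀ h, fderiv ℝ (EQ F (coZ_Q e) (fun k => coZ_t d3 d1 d2 (e.symm k))) v h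
      - l * inner ℝ v h = inner ℝ P h) (τ : Fin 2 ⊕ Fin D3 ⊕ Fin D1 ⊕ Fin D2) :
    ∑ i, dF F i ((coZ_Q e).q v) * (coZ_l i τ + 2 * (coZ_s i τ * v (e τ)))
      + 2 * (coZ_t d3 d1 d2 τ * v (e τ)) - l * v (e τ) = P (e τ) := by
  have key := h (EuclideanSpace.single (e τ) (1 : ℝ))
  rw [EQ_fderiv] at key
  have hsum : ∀ f : Fin d → ℝ, ∑ k, f k * (EuclideanSpace.single (e τ) (1 : ℝ)) k = f (e τ) := by
    intro f
    simp
  have hq' : ∀ i, (coZ_Q e).q' v (EuclideanSpace.single (e τ) (1 : ℝ)) i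
      = coZ_l i τ + 2 * (coZ_s i τ * v (e τ)) := by
    intro i
    change ∑ k, coZ_l i (e.symm k) * (EuclideanSpace.single (e τ) (1 : ℝ)) k
      + 2 * ∑ k, coZ_s i (e.symm k) * v k * (EuclideanSpace.single (e τ) (1 : ℝ)) k = _
    rw [hsum (fun k => coZ_l i (e.symm k)), hsum (fun k => coZ_s i (e.symm k) * v k),
      Equiv.symm_apply_apply]
  have ht : ∑ k, coZ_t d3 d1 d2 (e.symm k) * v k * (EuclideanSpace.single (e τ) (1 : ℝ)) k
      = coZ_t d3 d1 d2 τ * v (e τ) := by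
    rw [hsum (fun k => coZ_t d3 d1 d2 (e.symm k) * v k), Equiv.symm_apply_apply]
  have hv : inner ℝ v (EuclideanSpace.single (e τ) (1 : ℝ)) = v (e τ) := by
    simp [EuclideanSpace.inner_single_right]
  have hP : inner ℝ P (EuclideanSpace.single (e τ) (1 : ℝ)) = P (e τ) := by
    simp [EuclideanSpace.inner_single_right]
  rw [ht, hv, hP] at key
  simp only [hq'] at key
  exact key

theorem coZ_mem (F : P4) (d3 : Fin D3 → ℝ) (d1 : Fin D1 → ℝ) (d2 : Fin D2 → ℝ)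
    (e : Fin 2 ⊕ Fin D3 ⊕ Fin D1 ⊕ Fin D2 ≃ Fin d) (v P : EuclideanSpace ℝ (Fin d)) (l : ℝ)
    (hv : ‖v‖ = 1)
    (h : ∀ h, fderiv ℝ (EQ F (coZ_Q e) (fun k => coZ_t d3 d1 d2 (e.symm k))) v h
      - l * inner ℝ v h = inner ℝ P h) :
    (((fun i => v (e (Sum.inl i))), (fun j => v (e (Sum.inr (Sum.inl j)))),
      (fun j => v (e (Sum.inr (Sum.inr (Sum.inl j))))),
      (fun j => v (e (Sum.inr (Sum.inr (Sum.inr j))))), l) : Cfg D3 D1 D2) ∈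
      Sol F d3 d1 d2 (fun i => P (e (Sum.inl i))) (fun j => P (e (Sum.inr (Sum.inl j))))
        (fun j => P (e (Sum.inr (Sum.inr (Sum.inl j)))))
        (fun j => P (e (Sum.inr (Sum.inr (Sum.inr j))))) := by
  have key := coZ_eq F d3 d1 d2 e v P l h
  have hq : (coZ_Q e).q v = Cfg.q (((fun i => v (e (Sum.inl i))),
      (fun j => v (e (Sum.inr (Sum.inl j)))),
      (fun j => v (e (Sum.inr (Sum.inr (Sum.inl j))))),
      (fun j => v (e (Sum.inr (Sum.inr (Sum.inr j))))), l) : Cfg D3 D1 D2) := coZ_q e v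
  rw [hq] at key
  refine ⟨?_, ?_, ?_, ?_, ?_, ?_⟩
  · have := key (Sum.inl 0)
    rw [Fin.sum_univ_four, coZ_l00, coZ_l10, coZ_l20, coZ_l30] at this
    simp only [coZ_s, coZ_t] at this
    change dF F 0 _ - l * v (e (Sum.inl 0)) = P (e (Sum.inl 0))
    linear_combination this
  · have := key (Sum.inl 1)
    rw [Fin.sum_univ_four, coZ_l01, coZ_l11, coZ_l21, coZ_l31] at this
    simp only [coZ_s, coZ_t] at this
    change dF F 1 _ - l * v (e (Sum.inl 1)) = P (e (Sum.inl 1))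
    linear_combination this
  · intro j
    have := key (Sum.inr (Sum.inl j))
    simp [coZ_l, coZ_s, coZ_t, Fin.sum_univ_four, Fin.ext_iff] at this
    change (2 * dF F 2 _ + 2 * d3 j - l) * v (e (Sum.inr (Sum.inl j))) = P (e (Sum.inr (Sum.inl j)))
    linear_combination this
  · intro j
    have := key (Sum.inr (Sum.inr (Sum.inl j)))
    simp [coZ_l, coZ_s, coZ_t, Fin.sum_univ_four, Fin.ext_iff] at this
    change (2 * dF F 3 _ + 2 * d1 j - l) * v (e (Sum.inr (Sum.inr (Sum.inl j))))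
      = P (e (Sum.inr (Sum.inr (Sum.inl j))))
    linear_combination this
  · intro j
    have := key (Sum.inr (Sum.inr (Sum.inr j)))
    simp [coZ_l, coZ_s, coZ_t] at this
    change (-2 * d2 j - l) * v (e (Sum.inr (Sum.inr (Sum.inr j))))
      = P (e (Sum.inr (Sum.inr (Sum.inr j))))
    linear_combination this
  · have h1 : ∑ k, v k ^ 2 = 1 := by
      have := EuclideanSpace.real_norm_sq_eq v
      rw [hv] at this
      rw [← this]; norm_num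
    rw [coZ_sum e] at h1
    exact h1

theorem coZ_inj (e : Fin 2 ⊕ Fin D3 ⊕ Fin D1 ⊕ Fin D2 ≃ Fin d) :
    Function.Injective (fun v : EuclideanSpace ℝ (Fin d) =>
      (((fun i => v (e (Sum.inl i))), (fun j => v (e (Sum.inr (Sum.inl j)))),
      (fun j => v (e (Sum.inr (Sum.inr (Sum.inl j))))),
      (fun j => v (e (Sum.inr (Sum.inr (Sum.inr j)))))) :
      (Fin 2 → ℝ) × (Fin D3 → ℝ) × (Fin D1 → ℝ) × (Fin D2 → ℝ))) := by
  intro v w hvw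
  simp only [Prod.mk.injEq] at hvw
  obtain ⟨h1, h2, h3, h4⟩ := hvw
  ext k
  obtain ⟨τ, rfl⟩ := e.surjective k
  rcases τ with i | j | j | j
  · exact congrFun h1 i
  · exact congrFun h2 j
  · exact congrFun h3 j
  · exact congrFun h4 j

end coZ

theorem final (hB : BodyStmt) (hC : CountStmt) (hE : ExFStmt) : Goal := by
  intro k
  obtain ⟨F, hF⟩ := hE
  obtain ⟨D3, D1, D20, d3, d1, hc⟩ := hC F hF k
  refine ⟨2 + D3 + D1 + D20 + 2, fun d hd => ?_⟩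
  obtain ⟨D2, hD2⟩ : ∃ D2 : ℕ, 2 + D3 + D1 + D2 = d := ⟨d - 2 - D3 - D1, by omega⟩
  obtain ⟨d2, N, hN, hcr⟩ := hc D2 (by omega)
  let e : Fin 2 ⊕ Fin D3 ⊕ Fin D1 ⊕ Fin D2 ≃ Fin d := Fintype.equivOfCardEq (by simp; omega)
  obtain ⟨K, hK1, hK2, hK3, hK4⟩ := hB d N
    (EQ F (coZ_Q e) (fun k => coZ_t d3 d1 d2 (e.symm k))) (by omega) (EQ_contDiff _ _ _ _) (by
      intro P
      have hinj := coZ_inj e
      refine le_trans ?_ (hcr (fun i => P (e (Sum.inl i))) (fun j => P (e (Sum.inr (Sum.inl j))))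
        (fun j => P (e (Sum.inr (Sum.inr (Sum.inl j)))))
        (fun j => P (e (Sum.inr (Sum.inr (Sum.inr j))))))
      rw [← hinj.injOn.encard_image]
      apply Set.encard_le_encard
      rintro _ ⟨v, ⟨hv, l, hl⟩, rfl⟩
      exact ⟨l, coZ_mem F d3 d1 d2 e v P l hv hl⟩)
  refine ⟨K, hK1, hK2, hK3, fun p hp X hX => ?_⟩
  have := hK4 p hp X hX
  omega

end Pool.Agent.CNX
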