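import Pool.Agent.CNX.Defs

/-!
# Definitions for the count (sections 2 and 5)
-/

set_option autoImplicit false

namespace Pool.Agent.CNX

open MvPolynomial

/-- data of a diagonal quadratic map `z ↦ (c i + ∑ l i k z k + ∑ s i k z k ^ 2)_{i<4}` -/
structure QM (ι : Type) where
  /-- constants -/
  c : Fin 4 → ℝ
  /-- linear coefficients -/
  l : Fin 4 → ι → ℝ
  /-- quadratic coefficients -/
  s : Fin 4 → ι → ℝ

variable {ι : Type} [Fintype ι]

/-- the value of the quadratic map -/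
def QM.q (Q : QM ι) (z : EuclideanSpace ℝ ι) : Fin 4 → ℝ :=
  fun i => Q.c i + ∑ k, Q.l i k * z k + ∑ k, Q.s i k * z k ^ 2

/-- the derivative of the quadratic map -/
def QM.q' (Q : QM ι) (z h : EuclideanSpace ℝ ι) : Fin 4 → ℝ :=
  fun i => ∑ k, Q.l i k * h k + 2 * ∑ k, Q.s i k * z k * h k

/-- normalised bounds -/
def QM.Ok (Q : QM ι) : Prop :=
  ∀ i, |Q.c i| ≤ 1 ∧ ∑ k, Q.l i k ^ 2 ≤ 1 ∧ ∀ k, |Q.s i k| ≤ 1

/-- `G (q z) + ∑ t k z k ^ 2` -/
noncomputable def EQ (G : P4) (Q : QM ι) (t : ι → ℝ) (z : EuclideanSpace ℝ ι) : ℝ :=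
  eval (Q.q z) G + ∑ k, t k * z k ^ 2

/-- `(y, |wA|², |wB|²)` -/
def qmT (A B : ℕ) : QM (Fin 2 ⊕ Fin A ⊕ Fin B) where
  c := 0
  l := fun i k => match k with
    | Sum.inl k => if i = Fin.castLE (by omega) k then 1 else 0
    | _ => 0
  s := fun i k => match k with
    | Sum.inl _ => 0
    | Sum.inr (Sum.inl _) => if i = 2 then 1 else 0
    | Sum.inr (Sum.inr _) => if i = 3 then 1 else 0

/-- `(y, |wA|², 1 - |z|²)` -/
def qmB (A B : ℕ) : QM (Fin 2 ⊕ Fin A ⊕ Fin B) where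
  c := fun i => if i = 3 then 1 else 0
  l := fun i k => match k with
    | Sum.inl k => if i = Fin.castLE (by omega) k then 1 else 0
    | _ => 0
  s := fun i k => match k with
    | Sum.inl _ => if i = 3 then -1 else 0
    | Sum.inr (Sum.inl _) => if i = 2 then 1 else if i = 3 then -1 else 0
    | Sum.inr (Sum.inr _) => if i = 3 then -1 else 0

/-- the vector `(0, dA, dB)` -/
def tv {A B : ℕ} (dA : Fin A → ℝ) (dB : Fin B → ℝ) : Fin 2 ⊕ Fin A ⊕ Fin B → ℝ
  | Sum.inl _ => 0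
  | Sum.inr (Sum.inl j) => dA j
  | Sum.inr (Sum.inr j) => dB j

end Pool.Agent.CNX
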