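import Mathlib

/-!
# Concurrent normals: interface of the disproof in high dimension

Paper proof: `/team-store/notes_MP_00eb82_gt_helper79.md`.
-/

set_option autoImplicit false

namespace Pool.Agent.CNX

open MvPolynomial

/-! ## Section 0: the polynomial `F(y₀, y₁, a, b)` -/

/-- polynomials in `y₀, y₁, a, b` -/
abbrev P4 := MvPolynomial (Fin 4) ℝ

/-- the point `(y₀, y₁, a, b)` -/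
def pt (y0 y1 a b : ℝ) : Fin 4 → ℝ := ![y0, y1, a, b]

/-- the value of the `i`-th partial derivative of `F` at `q` -/
noncomputable def dF (F : P4) (i : Fin 4) (q : Fin 4 → ℝ) : ℝ := eval q (pderiv i F)

/-- the Hessian form of `F` at `q` applied to `v` -/
noncomputable def hF (F : P4) (q v : Fin 4 → ℝ) : ℝ :=
  ∑ i, ∑ j, v i * v j * eval q (pderiv i (pderiv j F))

/-- (F1): `F(y, w², z²)` is strictly concave on the unit ball of `ℝ⁴` -/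
def F1 (F : P4) (κ : ℝ) : Prop :=
  ∀ y0 y1 w z : ℝ, y0 ^ 2 + y1 ^ 2 + w ^ 2 + z ^ 2 ≤ 1 → ∀ h0 h1 k l : ℝ,
    hF F (pt y0 y1 (w ^ 2) (z ^ 2)) ![h0, h1, 2 * w * k, 2 * z * l]
      + 2 * dF F 2 (pt y0 y1 (w ^ 2) (z ^ 2)) * k ^ 2
      + 2 * dF F 3 (pt y0 y1 (w ^ 2) (z ^ 2)) * l ^ 2
      ≤ -κ * (h0 ^ 2 + h1 ^ 2 + k ^ 2 + l ^ 2)

/-- (F2): `F(y, w², 1 - |y|² - w²)` is strictly convex on the unit ball of `ℝ³` -/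
def F2 (F : P4) (κ : ℝ) : Prop :=
  ∀ y0 y1 w : ℝ, y0 ^ 2 + y1 ^ 2 + w ^ 2 ≤ 1 → ∀ h0 h1 k : ℝ,
    κ * (h0 ^ 2 + h1 ^ 2 + k ^ 2) ≤
      hF F (pt y0 y1 (w ^ 2) (1 - y0 ^ 2 - y1 ^ 2 - w ^ 2))
          ![h0, h1, 2 * w * k, -2 * y0 * h0 - 2 * y1 * h1 - 2 * w * k]
        + 2 * dF F 2 (pt y0 y1 (w ^ 2) (1 - y0 ^ 2 - y1 ^ 2 - w ^ 2)) * k ^ 2
        - 2 * dF F 3 (pt y0 y1 (w ^ 2) (1 - y0 ^ 2 - y1 ^ 2 - w ^ 2)) *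
            (h0 ^ 2 + h1 ^ 2 + k ^ 2)

/-- the gradient of `U₁(y) = F(y, 0, 1 - |y|²)` -/
noncomputable def gU1 (F : P4) (y0 y1 : ℝ) : ℝ × ℝ :=
  (dF F 0 (pt y0 y1 0 (1 - y0 ^ 2 - y1 ^ 2)) - 2 * y0 * dF F 3 (pt y0 y1 0 (1 - y0 ^ 2 - y1 ^ 2)),
   dF F 1 (pt y0 y1 0 (1 - y0 ^ 2 - y1 ^ 2)) - 2 * y1 * dF F 3 (pt y0 y1 0 (1 - y0 ^ 2 - y1 ^ 2)))

/-- the gradient of `U₂(y) = F(y, 0, 0)` -/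
noncomputable def gU2 (F : P4) (y0 y1 : ℝ) : ℝ × ℝ :=
  (dF F 0 (pt y0 y1 0 0), dF F 1 (pt y0 y1 0 0))

/-- the gradient of `U₃(y) = F(y, 1 - |y|², 0)` -/
noncomputable def gU3 (F : P4) (y0 y1 : ℝ) : ℝ × ℝ :=
  (dF F 0 (pt y0 y1 (1 - y0 ^ 2 - y1 ^ 2) 0) - 2 * y0 * dF F 2 (pt y0 y1 (1 - y0 ^ 2 - y1 ^ 2) 0),
   dF F 1 (pt y0 y1 (1 - y0 ^ 2 - y1 ^ 2) 0) - 2 * y1 * dF F 2 (pt y0 y1 (1 - y0 ^ 2 - y1 ^ 2) 0))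

/-- (F3): the three gradient images of the closed disc have no common point -/
def F3 (F : P4) : Prop :=
  ∀ y0 y1 s0 s1 t0 t1 : ℝ, y0 ^ 2 + y1 ^ 2 ≤ 1 → s0 ^ 2 + s1 ^ 2 ≤ 1 → t0 ^ 2 + t1 ^ 2 ≤ 1 →
    ¬ (gU1 F y0 y1 = gU3 F t0 t1 ∧ gU2 F s0 s1 = gU3 F t0 t1)

/-- (F4): the top weighted form of `F` (weights `1,1,2,2`) is diagonal with sparse coefficients -/
def F4 (F : P4) : Prop :=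
  ∃ m : ℕ, 1 ≤ m ∧ ∃ e0 : ℝ, 0 < e0 ∧ ∃ Fl : P4,
    F = Fl + C e0 * (C ((1 / 3 : ℝ) ^ m) * X 0 ^ (2 * m + 2)
      + C ((1 / 3 : ℝ) ^ (2 * m)) * X 1 ^ (2 * m + 2)
      + C ((1 / 3 : ℝ) ^ (3 * m)) * X 2 ^ (m + 1)
      + C ((1 / 3 : ℝ) ^ (4 * m)) * X 3 ^ (m + 1)) ∧
    ∀ s ∈ Fl.support, s 0 + s 1 + 2 * s 2 + 2 * s 3 < 2 * m + 2

/-- all four conditions -/
def Good (F : P4) : Prop := (∃ κ : ℝ, 0 < κ ∧ F1 F κ ∧ F2 F κ) ∧ F3 F ∧ F4 F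

/-! ## Section 2: the critical configurations

A configuration is `x = (y, w₃, w₁, w₂, lam)`. -/

/-- configurations -/
abbrev Cfg (D3 D1 D2 : ℕ) : Type :=
  (Fin 2 → ℝ) × (Fin D3 → ℝ) × (Fin D1 → ℝ) × (Fin D2 → ℝ) × ℝ

section
variable {D3 D1 D2 : ℕ}

/-- `y` -/
def Cfg.y (x : Cfg D3 D1 D2) : Fin 2 → ℝ := x.1
/-- `w₃` -/
def Cfg.w3 (x : Cfg D3 D1 D2) : Fin D3 → ℝ := x.2.1
/-- `w₁` -/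
def Cfg.w1 (x : Cfg D3 D1 D2) : Fin D1 → ℝ := x.2.2.1
/-- `w₂` -/
def Cfg.w2 (x : Cfg D3 D1 D2) : Fin D2 → ℝ := x.2.2.2.1
/-- the multiplier -/
def Cfg.lam (x : Cfg D3 D1 D2) : ℝ := x.2.2.2.2

/-- the point `(y, |w₃|², |w₁|²)` -/
def Cfg.q (x : Cfg D3 D1 D2) : Fin 4 → ℝ :=
  pt (x.y 0) (x.y 1) (∑ j, x.w3 j ^ 2) (∑ j, x.w1 j ^ 2)

/-- `μ₃ = lam - 2 F_a` -/
noncomputable def mu3 (F : P4) (x : Cfg D3 D1 D2) : ℝ := x.lam - 2 * dF F 2 x.q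
/-- `μ₁ = lam - 2 F_b` -/
noncomputable def mu1 (F : P4) (x : Cfg D3 D1 D2) : ℝ := x.lam - 2 * dF F 3 x.q

/-- critical points (with multiplier) of
`u(v) = F(y,|w₃|²,|w₁|²) + ∑ d₃ w₃² + ∑ d₁ w₁² - ∑ d₂ w₂² - ⟪P, v⟫` on the unit sphere -/
def Sol (F : P4) (d3 : Fin D3 → ℝ) (d1 : Fin D1 → ℝ) (d2 : Fin D2 → ℝ)
    (p : Fin 2 → ℝ) (e3 : Fin D3 → ℝ) (e1 : Fin D1 → ℝ) (e2 : Fin D2 → ℝ) :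
    Set (Cfg D3 D1 D2) :=
  {x | dF F 0 x.q - x.lam * x.y 0 = p 0 ∧ dF F 1 x.q - x.lam * x.y 1 = p 1 ∧
    (∀ j, (2 * dF F 2 x.q + 2 * d3 j - x.lam) * x.w3 j = e3 j) ∧
    (∀ j, (2 * dF F 3 x.q + 2 * d1 j - x.lam) * x.w1 j = e1 j) ∧
    (∀ j, (-2 * d2 j - x.lam) * x.w2 j = e2 j) ∧
    x.y 0 ^ 2 + x.y 1 ^ 2 + ∑ j, x.w3 j ^ 2 + ∑ j, x.w1 j ^ 2 + ∑ j, x.w2 j ^ 2 = 1}

/-- `|P|² ≤ R²` -/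
def Bdd (R : ℝ) (p : Fin 2 → ℝ) (e3 : Fin D3 → ℝ) (e1 : Fin D1 → ℝ) (e2 : Fin D2 → ℝ) : Prop :=
  p 0 ^ 2 + p 1 ^ 2 + ∑ j, e3 j ^ 2 + ∑ j, e1 j ^ 2 + ∑ j, e2 j ^ 2 ≤ R ^ 2

/-- a perturbation vector: strictly increasing, with values in `(0, om)` -/
def Pert {D : ℕ} (d : Fin D → ℝ) (om : ℝ) : Prop := StrictMono d ∧ ∀ j, 0 < d j ∧ d j < om

end

/-! ## Section 4: the three uniform bounds away from the windows -/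

/-- (B1) -/
def B1Stmt : Prop := ∀ F : P4, F4 F → ∀ c R : ℝ, 0 < c → ∃ (C : ℕ) (om : ℝ), 0 < om ∧
  ∀ (D3 D1 D2 : ℕ) (d3 : Fin D3 → ℝ) (d1 : Fin D1 → ℝ) (d2 : Fin D2 → ℝ),
    Pert d3 om → Pert d1 om → Pert d2 om →
    ∀ (p : Fin 2 → ℝ) (e3 : Fin D3 → ℝ) (e1 : Fin D1 → ℝ) (e2 : Fin D2 → ℝ), Bdd R p e3 e1 e2 →
      {x ∈ Sol F d3 d1 d2 p e3 e1 e2 | x.lam ≤ -c ∧ c ≤ |mu1 F x| ∧ c ≤ |mu3 F x|}.encard ≤ C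

/-- (B2) -/
def B2Stmt : Prop := ∀ F : P4, F4 F → ∀ c R : ℝ, 0 < c → ∀ (D3 : ℕ) (d3 : Fin D3 → ℝ),
  StrictMono d3 → (∀ j, 0 < d3 j) → ∃ (C : ℕ) (om : ℝ), 0 < om ∧
  ∀ (D1 D2 : ℕ) (d1 : Fin D1 → ℝ) (d2 : Fin D2 → ℝ), Pert d1 om → Pert d2 om →
    ∀ (p : Fin 2 → ℝ) (e3 : Fin D3 → ℝ) (e1 : Fin D1 → ℝ) (e2 : Fin D2 → ℝ), Bdd R p e3 e1 e2 →
      {x ∈ Sol F d3 d1 d2 p e3 e1 e2 | x.lam ≤ -c ∧ c ≤ mu1 F x}.encard ≤ C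

/-- (B3) -/
def B3Stmt : Prop := ∀ F : P4, F4 F → ∀ c R : ℝ, 0 < c → ∀ (D3 : ℕ) (d3 : Fin D3 → ℝ),
  StrictMono d3 → (∀ j, 0 < d3 j) → ∀ (D1 : ℕ) (d1 : Fin D1 → ℝ), StrictMono d1 →
  (∀ j, 0 < d1 j) → ∃ (C : ℕ) (om : ℝ), 0 < om ∧
  ∀ (D2 : ℕ) (d2 : Fin D2 → ℝ), Pert d2 om →
    ∀ (p : Fin 2 → ℝ) (e3 : Fin D3 → ℝ) (e1 : Fin D1 → ℝ) (e2 : Fin D2 → ℝ), Bdd R p e3 e1 e2 →
      {x ∈ Sol F d3 d1 d2 p e3 e1 e2 | x.lam ≤ -c}.encard ≤ C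

/-! ## Section 3: the window lemma -/

/-- (WIN) -/
def WinStmt : Prop := ∀ κ L : ℝ, 0 < κ → ∃ (c om : ℝ), 0 < c ∧ 0 < om ∧ c ≤ κ / 8 ∧
  ∀ (ι : Type) [Fintype ι] (E : EuclideanSpace ℝ ι → ℝ) (Ω : Set (EuclideanSpace ℝ ι)),
    ContDiff ℝ 3 E → IsCompact Ω → Convex ℝ Ω → Ω ⊆ Metric.closedBall 0 1 →
    (∀ x ∈ Ω, ∀ h, κ * ‖h‖ ^ 2 ≤ iteratedFDeriv ℝ 2 E x ![h, h]) →
    (∀ x ∈ Ω, ‖iteratedFDeriv ℝ 2 E x‖ ≤ L) → (∀ x ∈ Ω, ‖iteratedFDeriv ℝ 3 E x‖ ≤ L) →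
    ∀ (D : ℕ) (d : Fin D → ℝ), Pert d om → ∀ (e : Fin D → ℝ) (P : EuclideanSpace ℝ ι),
      (∀ μ : ℝ, μ ≤ c → ∀ x ∈ Ω,
        (∀ x' ∈ Ω, E x - μ / 2 * ‖x‖ ^ 2 - inner ℝ P x ≤ E x' - μ / 2 * ‖x'‖ ^ 2 - inner ℝ P x') →
        ‖x‖ < 1 → x ∈ interior Ω) →
      ∀ c' : ℝ, 0 < c' → c' ≤ c →
      ∀ Z : Set (EuclideanSpace ℝ ι × (Fin D → ℝ) × ℝ),
        (∀ z ∈ Z, z.1 ∈ Ω ∧ ‖z.1‖ ^ 2 + ∑ j, z.2.1 j ^ 2 = 1 ∧ z.2.2 ≤ c' ∧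
          (∀ h, fderiv ℝ E z.1 h - z.2.2 * inner ℝ z.1 h = inner ℝ P h) ∧
          ∀ j, (2 * d j - z.2.2) * z.2.1 j = e j) →
        Z.encard ≤ 2 * D + 3 ∧
        ((∀ z ∈ Z, ∀ j j', ¬ (2 * d j ≤ z.2.2 ∧ z.2.2 ≤ 2 * d j')) → Z.encard ≤ 5)

/-! ## Section 5: the count -/

/-- the set of critical points -/
def Crit {D3 D1 D2 : ℕ} (F : P4) (d3 : Fin D3 → ℝ) (d1 : Fin D1 → ℝ) (d2 : Fin D2 → ℝ)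
    (p : Fin 2 → ℝ) (e3 : Fin D3 → ℝ) (e1 : Fin D1 → ℝ) (e2 : Fin D2 → ℝ) :
    Set ((Fin 2 → ℝ) × (Fin D3 → ℝ) × (Fin D1 → ℝ) × (Fin D2 → ℝ)) :=
  {v | ∃ l : ℝ, ((v.1, v.2.1, v.2.2.1, v.2.2.2, l) : Cfg D3 D1 D2) ∈ Sol F d3 d1 d2 p e3 e1 e2}

/-- the count: for every `k` and all large dimensions at most `2n - k - 1` critical points -/
def CountStmt : Prop := ∀ F : P4, Good F → ∀ k : ℕ, ∃ (D3 D1 D20 : ℕ) (d3 : Fin D3 → ℝ)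
  (d1 : Fin D1 → ℝ), ∀ D2 ≥ D20, ∃ (d2 : Fin D2 → ℝ) (N : ℕ), N + k < 2 * (2 + D3 + D1 + D2) ∧
    ∀ (p : Fin 2 → ℝ) (e3 : Fin D3 → ℝ) (e1 : Fin D1 → ℝ) (e2 : Fin D2 → ℝ),
      (Crit F d3 d1 d2 p e3 e1 e2).encard ≤ N

/-! ## Section 1: the convex body -/

/-- `p` lies on a normal of `K` at `x` -/
def OnNormal {d : ℕ} (K : Set (EuclideanSpace ℝ (Fin d))) (x p : EuclideanSpace ℝ (Fin d)) :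
    Prop :=
  ∃ ν : EuclideanSpace ℝ (Fin d), ν ≠ 0 ∧ (∀ z ∈ K, inner ℝ ν z ≤ inner ℝ ν x) ∧
    ∃ t : ℝ, p = x + t • ν

/-- (BODY) -/
def BodyStmt : Prop := ∀ (n N : ℕ) (u : EuclideanSpace ℝ (Fin n) → ℝ), 2 ≤ n → ContDiff ℝ 2 u →
  (∀ P : EuclideanSpace ℝ (Fin n), {v : EuclideanSpace ℝ (Fin n) | ‖v‖ = 1 ∧
    ∃ l : ℝ, ∀ h, fderiv ℝ u v h - l * inner ℝ v h = inner ℝ P h}.encard ≤ N) →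
  ∃ K : Set (EuclideanSpace ℝ (Fin n)), IsCompact K ∧ Convex ℝ K ∧ (interior K).Nonempty ∧
    ∀ p ∈ interior K, ∀ X : Finset (EuclideanSpace ℝ (Fin n)),
      (∀ x ∈ X, x ∈ frontier K ∧ OnNormal K x p) → X.card ≤ N

/-! ## Section 6: the extension lemma and polynomial approximation -/

/-- quadratic growth of `φ - ⟪p, ·⟫` at its minimum over the unit sphere -/
def Growth {N : ℕ} (φ : EuclideanSpace ℝ (Fin N) → ℝ) (p : EuclideanSpace ℝ (Fin N)) : Prop :=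
  ∃ v₀ : EuclideanSpace ℝ (Fin N), ‖v₀‖ = 1 ∧ ∃ κ : ℝ, 0 < κ ∧ ∀ v : EuclideanSpace ℝ (Fin N),
    ‖v‖ = 1 → φ v₀ - inner ℝ p v₀ + κ * ‖v - v₀‖ ^ 2 ≤ φ v - inner ℝ p v

/-- (EL) -/
def ELStmt : Prop := ∀ (N : ℕ) (φ : EuclideanSpace ℝ (Fin N) → ℝ)
  (K : Set (EuclideanSpace ℝ (Fin N))), 2 ≤ N → ContDiff ℝ ((⊤ : ℕ∞) : WithTop ℕ∞) φ →
  IsCompact K → (∀ p ∈ K, Growth φ p) →
  ∃ A : EuclideanSpace ℝ (Fin N) → ℝ, ContDiff ℝ ((⊤ : ℕ∞) : WithTop ℕ∞) A ∧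
    (∀ x, ‖x‖ ≤ 1 → ∀ h, h ≠ 0 →
      0 < iteratedFDeriv ℝ 2 (fun x => φ x + (1 - ‖x‖ ^ 2) * A x) x ![h, h]) ∧
    ∀ p ∈ K, ∃ v₀ : EuclideanSpace ℝ (Fin N), ‖v₀‖ = 1 ∧ ∃ k : ℝ, 0 < k ∧
      ∀ x, ‖x‖ ≤ 1 → φ v₀ - inner ℝ p v₀ + k * (1 - inner ℝ v₀ x) ≤
        φ x + (1 - ‖x‖ ^ 2) * A x - inner ℝ p x

/-- (PA) polynomial approximation in `C²` of the closed unit ball -/
def PAStmt : Prop := ∀ (N : ℕ) (A : EuclideanSpace ℝ (Fin N) → ℝ), ContDiff ℝ 2 A →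
  ∀ ε : ℝ, 0 < ε → ∃ Q : MvPolynomial (Fin N) ℝ, ∀ x : EuclideanSpace ℝ (Fin N), ‖x‖ ≤ 1 →
    ∀ i ≤ 2, ‖iteratedFDeriv ℝ i (fun x : EuclideanSpace ℝ (Fin N) => A x - eval x.ofLp Q) x‖ ≤ ε

/-! ## Section 7: the base function -/

/-- `U(s,t) = s³ + s t / 100` -/
noncomputable def U (s t : ℝ) : ℝ := s ^ 3 + s * t / 100

/-- `p` has quadratic growth at the minimum of `U - p` over the circle -/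
def GMin (p : ℝ × ℝ) : Prop := ∃ s0 t0 : ℝ, s0 ^ 2 + t0 ^ 2 = 1 ∧ ∃ κ : ℝ, 0 < κ ∧
  ∀ s t : ℝ, s ^ 2 + t ^ 2 = 1 →
    U s0 t0 - p.1 * s0 - p.2 * t0 + κ * ((s - s0) ^ 2 + (t - t0) ^ 2) ≤ U s t - p.1 * s - p.2 * t

/-- the same for the maximum -/
def GMax (p : ℝ × ℝ) : Prop := ∃ s0 t0 : ℝ, s0 ^ 2 + t0 ^ 2 = 1 ∧ ∃ κ : ℝ, 0 < κ ∧
  ∀ s t : ℝ, s ^ 2 + t ^ 2 = 1 →
    U s t - p.1 * s - p.2 * t + κ * ((s - s0) ^ 2 + (t - t0) ^ 2) ≤ U s0 t0 - p.1 * s0 - p.2 * t0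

/-- (BASE) -/
def BaseStmt : Prop := ∃ K1 K2 : Set (ℝ × ℝ), IsCompact K1 ∧ IsCompact K2 ∧
  (∀ s t : ℝ, s ^ 2 + t ^ 2 ≤ 1 → (3 * s ^ 2 + t / 100, s / 100) ∈ K1 ∪ K2) ∧
  (∀ p ∈ K1, GMin p) ∧ (∀ p ∈ K2, GMax p)

/-! ## Section 8: existence of `F` -/

/-- (EXF) -/
def ExFStmt : Prop := ∃ F : P4, Good F

/-! ## The goal -/

/-- the final statement: for every `k` and every large `d` there is a convex body in `ℝ^d` such that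
every interior point lies on normals at fewer than `2d - k` boundary points -/
def Goal : Prop := ∀ k : ℕ, ∃ d0 : ℕ, ∀ d ≥ d0, ∃ K : Set (EuclideanSpace ℝ (Fin d)),
  IsCompact K ∧ Convex ℝ K ∧ (interior K).Nonempty ∧ ∀ p ∈ interior K,
    ∀ X : Finset (EuclideanSpace ℝ (Fin d)), (∀ x ∈ X, x ∈ frontier K ∧ OnNormal K x p) →
      X.card + k < 2 * d

end Pool.Agent.CNX
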