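import Pool.Agent.CNX.Defs

/-!
# CNX section 6, second half: one-dimensional tools
-/

set_option autoImplicit false
set_option linter.unusedSectionVars false

namespace Pool.Agent.CNX

/-- a smooth convex function, `0` for `t ≤ 0`, of slope one for `t ≥ δ` -/
theorem eg_chi (δ : ℝ) (hδ : 0 < δ) : ∃ χ : ℝ → ℝ, ContDiff ℝ ((⊤ : ℕ∞) : WithTop ℕ∞) χ ∧
    (∀ t ≤ 0, χ t = 0) ∧ (∃ c0 : ℝ, ∀ t, δ ≤ t → χ t = t - c0) ∧
    (∀ t, 0 ≤ deriv χ t) ∧ (∀ t, deriv χ t ≤ 1) ∧ (∀ t, 0 ≤ deriv (deriv χ) t) := by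
  set s : ℝ → ℝ := fun t => Real.smoothTransition (t / δ) with hs
  have hsc : ContDiff ℝ ((⊤ : ℕ∞) : WithTop ℕ∞) s :=
    (Real.smoothTransition.contDiff (n := (⊤ : ℕ∞))).comp (contDiff_id.div_const δ)
  have hcont : Continuous s := hsc.continuous
  set χ : ℝ → ℝ := fun t => ∫ x in (0 : ℝ)..t, s x with hχ
  have hd : ∀ t, HasDerivAt χ (s t) t := fun t =>
    intervalIntegral.integral_hasDerivAt_right (hcont.intervalIntegrable _ _)
      (hcont.stronglyMeasurableAtFilter _ _) hcont.continuousAt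
  have hder : deriv χ = s := funext fun t => (hd t).deriv
  have hmono : Monotone s := fun a b hab =>
    Real.smoothTransition.monotone (div_le_div_of_nonneg_right hab hδ.le)
  refine ⟨χ, ?_, ?_, ⟨δ - ∫ x in (0 : ℝ)..δ, s x, ?_⟩, ?_, ?_, ?_⟩
  · rw [contDiff_infty_iff_deriv, hder]
    exact ⟨fun t => (hd t).differentiableAt, hsc⟩
  · intro t ht
    have : ∫ x in (0 : ℝ)..t, s x = ∫ x in (0 : ℝ)..t, (0 : ℝ) := by
      refine intervalIntegral.integral_congr fun x hx => ?_
      rw [Set.uIcc_of_ge ht] at hx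
      exact Real.smoothTransition.zero_of_nonpos (div_nonpos_of_nonpos_of_nonneg hx.2 hδ.le)
    simp only [hχ, this, intervalIntegral.integral_zero]
  · intro t ht
    have h1 : ∫ x in δ..t, s x = ∫ x in δ..t, (1 : ℝ) := by
      refine intervalIntegral.integral_congr fun x hx => ?_
      rw [Set.uIcc_of_le ht] at hx
      exact Real.smoothTransition.one_of_one_le ((one_le_div hδ).2 hx.1)
    have h2 : (∫ x in (0 : ℝ)..δ, s x) + ∫ x in δ..t, s x = ∫ x in (0 : ℝ)..t, s x :=
      intervalIntegral.integral_add_adjacent_intervals (hcont.intervalIntegrable _ _)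
        (hcont.intervalIntegrable _ _)
    simp only [hχ]
    rw [← h2, h1, intervalIntegral.integral_const]
    simp
    ring
  · intro t
    rw [hder]
    exact Real.smoothTransition.nonneg _
  · intro t
    rw [hder]
    exact Real.smoothTransition.le_one _
  · intro t
    rw [hder]
    exact hmono.deriv_nonneg

section
variable {E : Type*} [NormedAddCommGroup E] [NormedSpace ℝ E]

/-- second derivative along lines -/
theorem eg_line (F : E → ℝ) (hF : ContDiff ℝ 2 F) (x h : E) :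
    iteratedFDeriv ℝ 2 F x ![h, h] = deriv (deriv (fun t : ℝ => F (x + t • h))) 0 := by
  have hl : ∀ t : ℝ, HasDerivAt (fun t : ℝ => x + t • h) h t := by
    intro t
    have := (hasDerivAt_id t).smul_const h
    simpa using this.const_add x
  have h1 : ∀ t : ℝ, HasDerivAt (fun t : ℝ => F (x + t • h)) (fderiv ℝ F (x + t • h) h) t := by
    intro t
    exact ((hF.differentiable (by norm_num)) (x + t • h)).hasFDerivAt.comp_hasDerivAt t (hl t)
  have h2 : deriv (fun t : ℝ => F (x + t • h)) = fun t => fderiv ℝ F (x + t • h) h :=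
    funext fun t => (h1 t).deriv
  have hfd : ContDiff ℝ 1 (fderiv ℝ F) := hF.fderiv_right (by norm_num)
  have h3 : HasDerivAt (fun t : ℝ => fderiv ℝ F (x + t • h))
      (fderiv ℝ (fderiv ℝ F) (x + (0 : ℝ) • h) h) 0 :=
    ((hfd.differentiable (by norm_num)) (x + (0 : ℝ) • h)).hasFDerivAt.comp_hasDerivAt 0 (hl 0)
  have h4 : HasDerivAt (fun t : ℝ => fderiv ℝ F (x + t • h) h)
      (fderiv ℝ (fderiv ℝ F) (x + (0 : ℝ) • h) h h) 0 := by
    have := h3.clm_apply (hasDerivAt_const (0 : ℝ) h)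
    simpa using this
  rw [h2, h4.deriv, iteratedFDeriv_two_apply]
  simp

theorem eg_line_contDiff (F : E → ℝ) {n : WithTop ℕ∞} (hF : ContDiff ℝ n F) (x h : E) :
    ContDiff ℝ n (fun t : ℝ => F (x + t • h)) :=
  hF.comp (contDiff_const.add (contDiff_id.smul contDiff_const))

end

/-- second derivative of a composition, one variable -/
theorem eg_comp1 (p g χ : ℝ → ℝ) (hp : ContDiff ℝ 2 p) (hg : ContDiff ℝ 2 g)
    (hχ : ContDiff ℝ 2 χ) (t : ℝ) :
    deriv (deriv (fun t => p t + χ (g t))) t =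
      deriv (deriv p) t + deriv χ (g t) * deriv (deriv g) t +
        deriv (deriv χ) (g t) * deriv g t ^ 2 := by
  have hp1 : Differentiable ℝ p := hp.differentiable (by norm_num)
  have hg1 : Differentiable ℝ g := hg.differentiable (by norm_num)
  have hc1 : Differentiable ℝ χ := hχ.differentiable (by norm_num)
  have hp2 : Differentiable ℝ (deriv p) :=
    ((contDiff_succ_iff_deriv (n := 1)).1 (by exact_mod_cast hp)).2.2.differentiable (by norm_num)
  have hg2 : Differentiable ℝ (deriv g) :=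
    ((contDiff_succ_iff_deriv (n := 1)).1 (by exact_mod_cast hg)).2.2.differentiable (by norm_num)
  have hc2 : Differentiable ℝ (deriv χ) :=
    ((contDiff_succ_iff_deriv (n := 1)).1 (by exact_mod_cast hχ)).2.2.differentiable (by norm_num)
  have h1 : deriv (fun t => p t + χ (g t)) = fun t => deriv p t + deriv χ (g t) * deriv g t := by
    funext t
    exact ((hp1 t).hasDerivAt.add ((hc1 (g t)).hasDerivAt.comp t (hg1 t).hasDerivAt)).deriv
  rw [h1]
  have h2 : HasDerivAt (fun t => deriv χ (g t)) (deriv (deriv χ) (g t) * deriv g t) t :=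
    (hc2 (g t)).hasDerivAt.comp t (hg1 t).hasDerivAt
  have h3 := (hp2 t).hasDerivAt.add (h2.mul (hg2 t).hasDerivAt)
  refine h3.deriv.trans ?_
  ring

section
variable {E : Type*} [NormedAddCommGroup E] [InnerProductSpace ℝ E]

/-- the second derivative of `P + χ ∘ G` -/
theorem eg_comp (P G : E → ℝ) (χ : ℝ → ℝ) (hP : ContDiff ℝ 2 P) (hG : ContDiff ℝ 2 G)
    (hχ : ContDiff ℝ 2 χ) (x h : E) :
    iteratedFDeriv ℝ 2 P x ![h, h] + deriv χ (G x) * iteratedFDeriv ℝ 2 G x ![h, h] +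
        deriv (deriv χ) (G x) * (fderiv ℝ G x h) ^ 2 =
      iteratedFDeriv ℝ 2 (fun x => P x + χ (G x)) x ![h, h] := by
  have hPG : ContDiff ℝ 2 (fun x => P x + χ (G x)) := hP.add (hχ.comp hG)
  rw [eg_line _ hPG x h, eg_line P hP, eg_line G hG,
    eg_comp1 _ _ χ (eg_line_contDiff P hP x h) (eg_line_contDiff G hG x h) hχ 0]
  have h1 : deriv (fun t : ℝ => G (x + t • h)) 0 = fderiv ℝ G x h := by
    have hl : HasDerivAt (fun t : ℝ => x + t • h) h 0 := by
      have := (hasDerivAt_id (0 : ℝ)).smul_const h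
      simpa using this.const_add x
    have := ((hG.differentiable (by norm_num)) (x + (0 : ℝ) • h)).hasFDerivAt.comp_hasDerivAt 0 hl
    exact this.deriv.trans (by simp)
  rw [h1]
  simp

/-- the second derivative of `P + c |x|²` -/
theorem eg_add_sq (P : E → ℝ) (c d : ℝ) (hP : ContDiff ℝ 2 P) (x h : E) :
    iteratedFDeriv ℝ 2 (fun x => P x + c * ‖x‖ ^ 2 + d) x ![h, h] =
      iteratedFDeriv ℝ 2 P x ![h, h] + 2 * c * ‖h‖ ^ 2 := by
  have hq : ContDiff ℝ 2 (fun x : E => P x + c * ‖x‖ ^ 2 + d) :=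
    (hP.add (contDiff_const.mul (contDiff_id.norm_sq ℝ))).add contDiff_const
  rw [eg_line _ hq x h, eg_line P hP]
  have h0 : (fun t : ℝ => P (x + t • h) + c * ‖x + t • h‖ ^ 2 + d) =
      fun t => P (x + t • h) + (c * ‖x‖ ^ 2 + d + 2 * c * inner ℝ x h * t + c * ‖h‖ ^ 2 * t ^ 2) := by
    funext t
    rw [norm_add_sq_real, norm_smul, inner_smul_right, Real.norm_eq_abs, mul_pow, sq_abs]
    ring
  rw [h0]
  have hpl := eg_line_contDiff P hP x h
  have hd1 : ∀ t, HasDerivAt (fun t : ℝ => c * ‖x‖ ^ 2 + d + 2 * c * inner ℝ x h * t +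
      c * ‖h‖ ^ 2 * t ^ 2) (2 * c * inner ℝ x h + 2 * c * ‖h‖ ^ 2 * t) t := by
    intro t
    have h1 := ((hasDerivAt_id t).const_mul (2 * c * inner ℝ x h)).const_add (c * ‖x‖ ^ 2 + d)
    have h2 := ((hasDerivAt_pow 2 t).const_mul (c * ‖h‖ ^ 2))
    have h3 := h1.add h2
    refine h3.congr_deriv ?_
    simp
    ring
  have h1 : deriv (fun t : ℝ => P (x + t • h) + (c * ‖x‖ ^ 2 + d + 2 * c * inner ℝ x h * t +
      c * ‖h‖ ^ 2 * t ^ 2)) = fun t => deriv (fun t : ℝ => P (x + t • h)) t +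
        (2 * c * inner ℝ x h + 2 * c * ‖h‖ ^ 2 * t) := by
    funext t
    exact ((hpl.differentiable (by norm_num) t).hasDerivAt.add (hd1 t)).deriv
  rw [h1]
  have hp2 : Differentiable ℝ (deriv fun t : ℝ => P (x + t • h)) :=
    ((contDiff_succ_iff_deriv (n := 1)).1 (by exact_mod_cast hpl)).2.2.differentiable (by norm_num)
  have h2 : HasDerivAt (fun t : ℝ => 2 * c * inner ℝ x h + 2 * c * ‖h‖ ^ 2 * t)
      (2 * c * ‖h‖ ^ 2) 0 := by
    have := ((hasDerivAt_id (0 : ℝ)).const_mul (2 * c * ‖h‖ ^ 2)).const_add (2 * c * inner ℝ x h)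
    simpa using this
  exact ((hp2 0).hasDerivAt.add h2).deriv

end

end Pool.Agent.CNX
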