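import Pool.Agent.CNX.EG1

/-!
# CNX section 6, second half: log-sum-exp of affine functions
-/

set_option autoImplicit false
set_option linter.unusedSectionVars false

namespace Pool.Agent.CNX

/-- one-dimensional log-sum-exp is convex -/
theorem eg_lse1 {ι : Type*} (T : Finset ι) (hT : T.Nonempty) (a b : ι → ℝ) (β : ℝ) (hβ : 0 < β)
    (t : ℝ) :
    0 ≤ deriv (deriv (fun t : ℝ => β⁻¹ * Real.log (∑ i ∈ T, Real.exp (β * (a i + b i * t))))) t := by
  set e : ι → ℝ → ℝ := fun i t => Real.exp (β * (a i + b i * t)) with he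
  have hpos : ∀ i t, 0 < e i t := fun i t => Real.exp_pos _
  have hde : ∀ i t, HasDerivAt (e i) (β * b i * e i t) t := by
    intro i t
    have h1 : HasDerivAt (fun t : ℝ => β * (a i + b i * t)) (β * b i) t := by
      have := (((hasDerivAt_id t).const_mul (b i)).const_add (a i)).const_mul β
      simpa using this
    have h2 := h1.exp
    refine h2.congr_deriv ?_
    ring
  set S0 : ℝ → ℝ := fun t => ∑ i ∈ T, e i t with hS0
  set S1 : ℝ → ℝ := fun t => ∑ i ∈ T, β * b i * e i t with hS1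
  set S2 : ℝ → ℝ := fun t => ∑ i ∈ T, (β * b i) ^ 2 * e i t with hS2
  have hS0p : ∀ t, 0 < S0 t := fun t => Finset.sum_pos (fun i _ => hpos i t) hT
  have hd0 : ∀ t, HasDerivAt S0 (S1 t) t := by
    intro t
    have := HasDerivAt.fun_sum (u := T) (A := fun i => e i) (A' := fun i => β * b i * e i t)
      (fun i _ => hde i t)
    exact this
  have hd1 : ∀ t, HasDerivAt S1 (S2 t) t := by
    intro t
    have := HasDerivAt.fun_sum (u := T) (A := fun i t => β * b i * e i t)
      (A' := fun i => β * b i * (β * b i * e i t)) (fun i _ => (hde i t).const_mul (β * b i))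
    refine this.congr_deriv ?_
    refine Finset.sum_congr rfl fun i _ => ?_
    ring
  have hq1 : deriv (fun t : ℝ => β⁻¹ * Real.log (S0 t)) = fun t => β⁻¹ * (S1 t / S0 t) := by
    funext t
    exact (((hd0 t).log (hS0p t).ne').const_mul β⁻¹).deriv
  have hq2 : HasDerivAt (fun t => β⁻¹ * (S1 t / S0 t))
      (β⁻¹ * ((S2 t * S0 t - S1 t * S1 t) / S0 t ^ 2)) t :=
    ((hd1 t).div (hd0 t) (hS0p t).ne').const_mul β⁻¹
  have : deriv (deriv (fun t : ℝ => β⁻¹ * Real.log (S0 t))) t =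
      β⁻¹ * ((S2 t * S0 t - S1 t * S1 t) / S0 t ^ 2) := by
    rw [hq1]; exact hq2.deriv
  rw [this]
  have hcs : S1 t ^ 2 ≤ S2 t * S0 t := by
    refine Finset.sum_sq_le_sum_mul_sum_of_sq_le_mul T (fun i _ => ?_) (fun i _ => (hpos i t).le)
      (fun i _ => le_of_eq ?_)
    · exact mul_nonneg (sq_nonneg _) (hpos i t).le
    · ring
  refine mul_nonneg (inv_nonneg.2 hβ.le) (div_nonneg ?_ (sq_nonneg _))
  nlinarith [hcs]

section
variable {E : Type*} [NormedAddCommGroup E] [InnerProductSpace ℝ E]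

/-- the log-sum-exp -/
noncomputable def egLse {ι : Type*} (T : Finset ι) (a : ι → ℝ) (b : ι → E) (β : ℝ) (x : E) : ℝ :=
  β⁻¹ * Real.log (∑ i ∈ T, Real.exp (β * (a i + inner ℝ (b i) x)))

theorem egLse_contDiff {ι : Type*} (T : Finset ι) (hT : T.Nonempty) (a : ι → ℝ) (b : ι → E) (β : ℝ)
    (n : WithTop ℕ∞) : ContDiff ℝ n (egLse T a b β) := by
  refine contDiff_const.mul (ContDiff.log (ContDiff.sum fun i _ => ?_) fun x => ?_)
  · exact (contDiff_const.mul (contDiff_const.add (contDiff_const.inner ℝ contDiff_id))).exp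
  · exact (Finset.sum_pos (fun i _ => Real.exp_pos _) hT).ne'

theorem le_egLse {ι : Type*} (T : Finset ι) (a : ι → ℝ) (b : ι → E) (β : ℝ) (hβ : 0 < β)
    (x : E) (i : ι) (hi : i ∈ T) : a i + inner ℝ (b i) x ≤ egLse T a b β x := by
  have h1 : Real.exp (β * (a i + inner ℝ (b i) x)) ≤
      ∑ i ∈ T, Real.exp (β * (a i + inner ℝ (b i) x)) :=
    Finset.single_le_sum (f := fun i => Real.exp (β * (a i + inner ℝ (b i) x)))
      (fun i _ => (Real.exp_pos _).le) hi
  have h2 := Real.log_le_log (Real.exp_pos _) h1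
  rw [Real.log_exp] at h2
  have h3 := mul_le_mul_of_nonneg_left h2 (inv_nonneg.2 hβ.le)
  rw [← mul_assoc, inv_mul_cancel₀ hβ.ne', one_mul] at h3
  exact h3

theorem egLse_le {ι : Type*} (T : Finset ι) (hT : T.Nonempty) (a : ι → ℝ) (b : ι → E) (β : ℝ)
    (hβ : 0 < β) (x : E) (m : ℝ) (hm : ∀ i ∈ T, a i + inner ℝ (b i) x ≤ m) :
    egLse T a b β x ≤ m + β⁻¹ * Real.log T.card := by
  have h1 : ∑ i ∈ T, Real.exp (β * (a i + inner ℝ (b i) x)) ≤ T.card * Real.exp (β * m) := by
    have := Finset.sum_le_card_nsmul T (fun i => Real.exp (β * (a i + inner ℝ (b i) x)))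
      (Real.exp (β * m)) (fun i hi => Real.exp_le_exp.2 (mul_le_mul_of_nonneg_left (hm i hi) hβ.le))
    rwa [nsmul_eq_mul] at this
  have hS : 0 < ∑ i ∈ T, Real.exp (β * (a i + inner ℝ (b i) x)) :=
    Finset.sum_pos (fun i _ => Real.exp_pos _) hT
  have hc : (0 : ℝ) < T.card := by exact_mod_cast Finset.card_pos.2 hT
  have h2 := Real.log_le_log hS h1
  rw [Real.log_mul hc.ne' (Real.exp_pos _).ne', Real.log_exp] at h2
  have h3 := mul_le_mul_of_nonneg_left h2 (inv_nonneg.2 hβ.le)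
  have h4 : β⁻¹ * (Real.log T.card + β * m) = m + β⁻¹ * Real.log T.card := by
    rw [mul_add, ← mul_assoc, inv_mul_cancel₀ hβ.ne', one_mul, add_comm]
  rw [h4] at h3
  exact h3

theorem egLse_convex {ι : Type*} (T : Finset ι) (hT : T.Nonempty) (a : ι → ℝ) (b : ι → E) (β : ℝ)
    (hβ : 0 < β) (x h : E) : 0 ≤ iteratedFDeriv ℝ 2 (egLse T a b β) x ![h, h] := by
  rw [eg_line _ (egLse_contDiff T hT a b β 2)]
  have h1 := eg_lse1 T hT (fun i => a i + inner ℝ (b i) x) (fun i => inner ℝ (b i) h) β hβ 0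
  have h2 : (fun t : ℝ => egLse T a b β (x + t • h)) = fun t : ℝ =>
      β⁻¹ * Real.log (∑ i ∈ T, Real.exp (β * (a i + inner ℝ (b i) x + inner ℝ (b i) h * t))) := by
    funext t
    simp only [egLse, inner_add_right, inner_smul_right]
    congr 2
    refine Finset.sum_congr rfl fun i _ => ?_
    congr 1
    ring
  rw [h2]
  exact h1

end

/-- finite nets for continuous families on compact sets -/
theorem eg_net {E F : Type*} [NormedAddCommGroup E] [NormedAddCommGroup F]
    (S : Set E) (hS : IsCompact S) (f : E → F) (hf : ContinuousOn f S)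
    (ω : ℝ) (hω : 0 < ω) : ∃ T : Finset E, (∀ v ∈ T, v ∈ S) ∧ ∀ v ∈ S, ∃ w ∈ T, ‖f v - f w‖ ≤ ω := by
  classical
  have h1 : IsCompact (f '' S) := hS.image_of_continuousOn hf
  obtain ⟨t, hts, htf, hcov⟩ := finite_cover_balls_of_compact h1 hω
  choose! g hg using (fun y (hy : y ∈ t) => hts hy)
  refine ⟨htf.toFinset.image g, ?_, fun v hv => ?_⟩
  · intro v hv
    obtain ⟨y, hy, rfl⟩ := Finset.mem_image.1 hv
    exact (hg y (htf.mem_toFinset.1 hy)).1
  · have h2 := hcov (Set.mem_image_of_mem f hv)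
    simp only [Set.mem_iUnion] at h2
    obtain ⟨y, hy, hvy⟩ := h2
    refine ⟨g y, Finset.mem_image_of_mem g (htf.mem_toFinset.2 hy), ?_⟩
    rw [(hg y hy).2, ← dist_eq_norm]
    exact (Metric.mem_ball.1 hvy).le

end Pool.Agent.CNX
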