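import Pool.Agent.CNX.EG2
import Pool.Agent.CNX.BO

/-!
# CNX section 6, second half: gluing
-/

set_option autoImplicit false
set_option linter.unusedSectionVars false

namespace Pool.Agent.CNX

theorem eg_two_le : (2 : WithTop ℕ∞) ≤ ((⊤ : ℕ∞) : WithTop ℕ∞) := by
  have : ((2 : ℕ∞) : WithTop ℕ∞) ≤ ((⊤ : ℕ∞) : WithTop ℕ∞) := WithTop.coe_le_coe.2 le_top
  exact this

section
variable {E : Type*} [NormedAddCommGroup E] [InnerProductSpace ℝ E] [FiniteDimensional ℝ E]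

/-- the inner function `F_in` -/
theorem eg_inner (J : E → ℝ) (hJ : ContDiff ℝ ((⊤ : ℕ∞) : WithTop ℕ∞) J) (hS : ∃ v : E, ‖v‖ = 1)
    (κ η : ℝ) (hκ : 0 < κ) (hη : 0 < η)
    (hb : ∀ v v' : E, ‖v‖ = 1 → ‖v'‖ = 1 →
      J v + fderiv ℝ J v (v' - v) + κ / 2 * ‖v' - v‖ ^ 2 ≤ J v') :
    ∃ (F : E → ℝ) (ρ δ : ℝ), ContDiff ℝ ((⊤ : ℕ∞) : WithTop ℕ∞) F ∧ 0 < ρ ∧ 1 - η ≤ ρ ∧ ρ < 1 ∧
      0 < δ ∧ (∀ x h : E, κ / 2 * ‖h‖ ^ 2 ≤ iteratedFDeriv ℝ 2 F x ![h, h]) ∧
      (∀ x : E, ‖x‖ = ρ → δ < F x - J x) ∧ (∀ x : E, ‖x‖ = 1 → F x - J x < 0) := by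
  classical
  have hJ2 : ContDiff ℝ 2 J := hJ.of_le eg_two_le
  obtain ⟨L, hL0, hL⟩ := bo_lower (fun x => -J x) hJ2.neg
  have hL' : ∀ v v' : E, ‖v‖ ≤ 1 → ‖v'‖ ≤ 1 →
      J v' ≤ J v + fderiv ℝ J v (v' - v) + L * ‖v' - v‖ ^ 2 := by
    intro v v' hv hv'
    have h1 := hL v v' hv hv'
    have h2 : fderiv ℝ (fun x => -J x) v = -fderiv ℝ J v := fderiv_fun_neg
    rw [h2] at h1
    simp only [neg_apply] at h1
    linarith
  set grad : E → E := fun v => (InnerProductSpace.toDual ℝ E).symm (fderiv ℝ J v) with hgrad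
  have hgr : ∀ v h, inner ℝ (grad v) h = fderiv ℝ J v h := fun v h => by
    rw [hgrad]; simp only; rw [InnerProductSpace.toDual_symm_apply]
  set a : E → ℝ := fun v => J v - fderiv ℝ J v v + κ / 2 with ha
  set b : E → E := fun v => grad v - κ • v with hbdef
  have hfc : Continuous (fderiv ℝ J) := hJ2.continuous_fderiv (by norm_num)
  have hac : Continuous a := (hJ2.continuous.sub (hfc.clm_apply continuous_id)).add continuous_const
  have hbc : Continuous b :=
    ((InnerProductSpace.toDual ℝ E).symm.continuous.comp hfc).sub (continuous_const.smul continuous_id)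
  have hlv : ∀ v x : E, ‖v‖ = 1 → a v + inner ℝ (b v) x =
      J v + fderiv ℝ J v (x - v) + κ / 2 * ‖x - v‖ ^ 2 - κ / 2 * ‖x‖ ^ 2 := by
    intro v x hv
    rw [ha, hbdef]
    simp only
    rw [inner_sub_left, hgr, inner_smul_left, norm_sub_sq_real, hv, map_sub, real_inner_comm]
    simp
    ring
  set L1 : ℝ := max L (κ / η + κ) with hL1
  have hL1pos : 0 < L1 := lt_of_lt_of_le (by positivity) (le_max_right _ _)
  set h1 : ℝ := κ / (8 * L1) with hh1
  have hh1pos : 0 < h1 := by positivity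
  have hh1L : 8 * L1 * h1 = κ := by rw [hh1]; field_simp
  have hh1η : h1 ≤ η := by
    rw [hh1, div_le_iff₀ (by positivity)]
    have h2 : κ / η ≤ L1 := le_trans (by linarith) (le_max_right _ _)
    have h3 : κ ≤ L1 * η := by rwa [div_le_iff₀ hη] at h2
    nlinarith
  have hh1one : h1 ≤ 1 / 8 := by
    rw [hh1, div_le_iff₀ (by positivity)]
    have h2 : κ ≤ L1 := le_trans (by have : 0 ≤ κ / η := by positivity
                                     linarith) (le_max_right _ _)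
    linarith
  set g : ℝ := κ * h1 / 8 with hg
  have hgpos : 0 < g := by positivity
  obtain ⟨T, hTS, hTn⟩ := eg_net (Metric.sphere (0 : E) 1) (isCompact_sphere 0 1)
    (fun v => (a v, b v)) (hac.prodMk hbc).continuousOn (g / 8) (by positivity)
  have hTne : T.Nonempty := by
    obtain ⟨v, hv⟩ := hS
    obtain ⟨w, hw, _⟩ := hTn v (by simpa using hv)
    exact ⟨w, hw⟩
  have hTc : (0 : ℝ) ≤ Real.log T.card :=
    Real.log_nonneg (by exact_mod_cast Finset.card_pos.2 hTne)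
  set β : ℝ := 8 * Real.log T.card / g + 1 with hβ
  have hβpos : 0 < β := by positivity
  have hβlog : β⁻¹ * Real.log T.card ≤ g / 8 := by
    rw [inv_mul_le_iff₀ hβpos, hβ]
    have : (8 * Real.log T.card / g + 1) * (g / 8) = Real.log T.card + g / 8 := by
      field_simp
    rw [this]
    linarith
  set Fi : E → ℝ := fun x => egLse T a b β x + κ / 4 * ‖x‖ ^ 2 + (κ / 4 - g / 4) with hFi
  refine ⟨Fi, 1 - h1, g / 4, ?_, by linarith, by linarith, by linarith, by positivity, ?_, ?_, ?_⟩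
  · exact ((egLse_contDiff T hTne a b β _).add
      (contDiff_const.mul (contDiff_id.norm_sq ℝ))).add contDiff_const
  · intro x h
    have h2 := egLse_convex T hTne a b β hβpos x h
    have h3 := eg_add_sq (egLse T a b β) (κ / 4) (κ / 4 - g / 4) (egLse_contDiff T hTne a b β 2) x h
    rw [hFi, h3]
    linarith
  · intro x hx
    have hρ : 0 < ‖x‖ := by rw [hx]; linarith
    set v : E := (‖x‖⁻¹ : ℝ) • x with hv
    have hvn : ‖v‖ = 1 := by rw [hv, norm_smul, norm_inv, norm_norm, inv_mul_cancel₀ hρ.ne']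
    have hxv : x = (1 - h1) • v := by
      rw [← hx, hv, smul_smul, mul_inv_cancel₀ hρ.ne', one_smul]
    have hxv' : x - v = (-h1) • v := by
      conv_lhs => rw [hxv]
      rw [sub_smul, one_smul, neg_smul]; abel
    have hnxv : ‖x - v‖ ^ 2 = h1 ^ 2 := by
      rw [hxv', norm_smul, hvn, mul_one, Real.norm_eq_abs, sq_abs]; ring
    obtain ⟨w, hwT, hw⟩ := hTn v (by simpa using hvn)
    have hwa : |a v - a w| ≤ g / 8 := (norm_fst_le (a v - a w, b v - b w)).trans hw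
    have hwb : ‖b v - b w‖ ≤ g / 8 := (norm_snd_le (a v - a w, b v - b w)).trans hw
    have hwb' : inner ℝ (b v - b w) x ≤ g / 8 := by
      calc inner ℝ (b v - b w) x ≤ ‖b v - b w‖ * ‖x‖ := real_inner_le_norm _ _
        _ ≤ g / 8 * 1 := by
            refine mul_le_mul hwb (by rw [hx]; linarith) (norm_nonneg _) (by positivity)
        _ = g / 8 := mul_one _
    rw [inner_sub_left] at hwb'
    have h4 := le_egLse T a b β hβpos x w hwT
    have h5 := hlv v x hvn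
    have h6 := hL' v x hvn.le (by rw [hx]; linarith)
    rw [hnxv] at h5 h6
    have h7 := (abs_le.1 hwa).2
    have hLL : L ≤ L1 := le_max_left _ _
    have h8 : L * h1 ^ 2 ≤ L1 * h1 ^ 2 := mul_le_mul_of_nonneg_right hLL (sq_nonneg _)
    have h9 : L1 * h1 ^ 2 = κ * h1 / 8 := by
      have : L1 * h1 ^ 2 = (8 * L1 * h1) * h1 / 8 := by ring
      rw [this, hh1L]
    have h10 : ‖x‖ ^ 2 = (1 - h1) ^ 2 := by rw [hx]
    have h11 : Fi x = egLse T a b β x + κ / 4 * ‖x‖ ^ 2 + (κ / 4 - g / 4) := rfl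
    have h12 : κ / 4 - κ / 4 * ‖x‖ ^ 2 = κ / 4 * (2 * h1 - h1 ^ 2) := by rw [h10]; ring
    have h13 : κ * h1 / 4 ≤ κ / 4 * (2 * h1 - h1 ^ 2) := by
      have : 0 ≤ κ / 4 * h1 * (1 - h1) := by
        have : 0 ≤ 1 - h1 := by linarith
        positivity
      nlinarith
    have h14 : 0 ≤ κ / 2 * h1 ^ 2 := by positivity
    rw [h11]
    linarith
  · intro x hx
    have h2 : egLse T a b β x ≤ (J x - κ / 2) + β⁻¹ * Real.log T.card := by
      refine egLse_le T hTne a b β hβpos x _ fun w hw => ?_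
      have hwn : ‖w‖ = 1 := by simpa using hTS w hw
      rw [hlv w x hwn, hx]
      have := hb w x hwn hx
      linarith
    have h11 : Fi x = egLse T a b β x + κ / 4 * ‖x‖ ^ 2 + (κ / 4 - g / 4) := rfl
    rw [h11, hx]
    linarith

/-- gluing and division by `1 - |x|²` -/
theorem eg_glue (φ J B : E → ℝ) (hφ : ContDiff ℝ ((⊤ : ℕ∞) : WithTop ℕ∞) φ)
    (hJ : ContDiff ℝ ((⊤ : ℕ∞) : WithTop ℕ∞) J)
    (hB : ContDiff ℝ ((⊤ : ℕ∞) : WithTop ℕ∞) B) (hS : ∃ v : E, ‖v‖ = 1)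
    (hJB : ∀ x, J x = φ x + (1 - ‖x‖ ^ 2) * B x)
    (κ η : ℝ) (hκ : 0 < κ) (hη : 0 < η)
    (ha : ∀ x : E, 1 - η ≤ ‖x‖ → ‖x‖ ≤ 1 → ∀ h, κ * ‖h‖ ^ 2 ≤ iteratedFDeriv ℝ 2 J x ![h, h])
    (hb : ∀ v v' : E, ‖v‖ = 1 → ‖v'‖ = 1 →
      J v + fderiv ℝ J v (v' - v) + κ / 2 * ‖v' - v‖ ^ 2 ≤ J v') :
    ∃ A : E → ℝ, ContDiff ℝ ((⊤ : ℕ∞) : WithTop ℕ∞) A ∧
      (∀ v : E, ‖v‖ = 1 → A =ᶠ[nhds v] B) ∧
      (∀ x, ‖x‖ ≤ 1 → ∀ h, h ≠ 0 →
        0 < iteratedFDeriv ℝ 2 (fun x => φ x + (1 - ‖x‖ ^ 2) * A x) x ![h, h]) := by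
  classical
  obtain ⟨F, ρ, δ, hF, hρ0, hρη, hρ1, hδ, hF2, hFρ, hF1⟩ := eg_inner J hJ hS κ η hκ hη hb
  obtain ⟨χ, hχ, hχ0, ⟨c0, hχδ⟩, hχ'0, hχ'1, hχ''⟩ := eg_chi δ hδ
  set G : E → ℝ := fun x => F x - J x with hG
  have hGs : ContDiff ℝ ((⊤ : ℕ∞) : WithTop ℕ∞) G := hF.sub hJ
  set D : E → ℝ := fun x => if ‖x‖ ≤ ρ then G x - c0 else if ‖x‖ ≤ 1 then χ (G x) else 0 with hD
  -- local descriptions of `D`
  have hD1 : ∀ x : E, ‖x‖ ≤ ρ → D =ᶠ[nhds x] fun x => G x - c0 := by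
    intro x hx
    rcases hx.lt_or_eq with hx | hx
    · filter_upwards [(isOpen_lt continuous_norm continuous_const).mem_nhds hx] with y hy
      simp only [hD]
      rw [if_pos (le_of_lt hy)]
    · have hx1 : ‖x‖ < 1 := by rw [hx]; exact hρ1
      filter_upwards [(isOpen_lt continuous_norm continuous_const).mem_nhds hx1,
        (isOpen_lt continuous_const hGs.continuous).mem_nhds (hFρ x hx)] with y hy hy2
      simp only [hD]
      by_cases h1 : ‖y‖ ≤ ρ
      · rw [if_pos h1]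
      · rw [if_neg h1, if_pos (le_of_lt hy), hχδ _ (le_of_lt hy2)]
  have hD2 : ∀ x : E, ρ < ‖x‖ → ‖x‖ < 1 → D =ᶠ[nhds x] fun x => χ (G x) := by
    intro x hx hx1
    filter_upwards [(isOpen_lt continuous_norm continuous_const).mem_nhds hx1,
      (isOpen_lt continuous_const continuous_norm).mem_nhds hx] with y hy hy2
    simp only [hD]
    rw [if_neg (not_le.2 hy2), if_pos (le_of_lt hy)]
  have hD3 : ∀ x : E, 1 ≤ ‖x‖ → D =ᶠ[nhds x] fun _ => 0 := by
    intro x hx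
    rcases hx.lt_or_eq with hx | hx
    · filter_upwards [(isOpen_lt continuous_const continuous_norm).mem_nhds hx] with y hy
      simp only [hD]
      rw [if_neg (not_le.2 (hρ1.trans hy)), if_neg (not_le.2 hy)]
    · have hxρ : ρ < ‖x‖ := by rw [← hx]; exact hρ1
      filter_upwards [(isOpen_lt continuous_const continuous_norm).mem_nhds hxρ,
        (isOpen_lt hGs.continuous continuous_const).mem_nhds (hF1 x hx.symm)] with y hy hy2
      simp only [hD]
      rw [if_neg (not_le.2 hy)]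
      by_cases h1 : ‖y‖ ≤ 1
      · rw [if_pos h1, hχ0 _ (le_of_lt hy2)]
      · rw [if_neg h1]
  have hχG : ContDiff ℝ ((⊤ : ℕ∞) : WithTop ℕ∞) (fun x => χ (G x)) := hχ.comp hGs
  have hDs : ContDiff ℝ ((⊤ : ℕ∞) : WithTop ℕ∞) D := by
    rw [contDiff_iff_contDiffAt]
    intro x
    rcases le_or_gt ‖x‖ ρ with h1 | h1
    · exact (hGs.sub contDiff_const).contDiffAt.congr_of_eventuallyEq (hD1 x h1)
    · rcases lt_or_ge ‖x‖ 1 with h2 | h2
      · exact hχG.contDiffAt.congr_of_eventuallyEq (hD2 x h1 h2)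
      · exact contDiffAt_const.congr_of_eventuallyEq (hD3 x h2)
  have hq : ContDiff ℝ ((⊤ : ℕ∞) : WithTop ℕ∞) (fun x : E => 1 - ‖x‖ ^ 2) :=
    contDiff_const.sub (contDiff_id.norm_sq ℝ)
  set A : E → ℝ := fun x => B x + D x / (1 - ‖x‖ ^ 2) with hA
  have hAB : ∀ v : E, ‖v‖ = 1 → A =ᶠ[nhds v] B := by
    intro v hv
    filter_upwards [hD3 v hv.ge] with y hy
    simp only [hA, hy]
    simp
  have hAs : ContDiff ℝ ((⊤ : ℕ∞) : WithTop ℕ∞) A := by
    rw [contDiff_iff_contDiffAt]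
    intro x
    by_cases hx : ‖x‖ = 1
    · exact hB.contDiffAt.congr_of_eventuallyEq (hAB x hx)
    · refine hB.contDiffAt.add (hDs.contDiffAt.div hq.contDiffAt ?_)
      intro h0
      apply hx
      have : ‖x‖ ^ 2 = 1 := by linarith
      nlinarith [norm_nonneg x]
  have hFA : (fun x => φ x + (1 - ‖x‖ ^ 2) * A x) = fun x => J x + D x := by
    funext x
    rw [hJB]
    simp only [hA]
    by_cases hx : ‖x‖ = 1
    · have h0 : D x = 0 := (hD3 x hx.ge).self_of_nhds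
      rw [h0, hx]; simp
    · have h0 : 1 - ‖x‖ ^ 2 ≠ 0 := by
        intro h0
        apply hx
        have : ‖x‖ ^ 2 = 1 := by linarith
        nlinarith [norm_nonneg x]
      rw [mul_add, mul_div_cancel₀ _ h0]
      ring
  refine ⟨A, hAs, hAB, fun x hx h hh => ?_⟩
  rw [hFA]
  have hJ2 : ContDiff ℝ 2 J := hJ.of_le eg_two_le
  have hF2' : ContDiff ℝ 2 F := hF.of_le eg_two_le
  have hG2' : ContDiff ℝ 2 G := hGs.of_le eg_two_le
  have hχ2' : ContDiff ℝ 2 χ := hχ.of_le eg_two_le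
  have hhp : 0 < ‖h‖ ^ 2 := by have := norm_pos_iff.2 hh; positivity
  rcases le_or_gt ‖x‖ ρ with h1 | h1
  · have h2 : (fun x => J x + D x) =ᶠ[nhds x] fun x => F x + 0 * ‖x‖ ^ 2 + -c0 := by
      filter_upwards [hD1 x h1] with y hy
      rw [hy]; simp only [hG]; ring
    rw [(Filter.EventuallyEq.iteratedFDeriv ℝ h2 2).self_of_nhds, eg_add_sq F 0 (-c0) hF2']
    have := hF2 x h
    have h3 : 0 < κ / 2 * ‖h‖ ^ 2 := by positivity
    linarith
  · rcases lt_or_ge ‖x‖ 1 with h2 | h2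
    · have h3 : (fun x => J x + D x) =ᶠ[nhds x] fun x => J x + χ (G x) := by
        filter_upwards [hD2 x h1 h2] with y hy
        rw [hy]
      rw [(Filter.EventuallyEq.iteratedFDeriv ℝ h3 2).self_of_nhds, ← eg_comp J G χ hJ2 hG2' hχ2' x h]
      have h4 : iteratedFDeriv ℝ 2 G x ![h, h] =
          iteratedFDeriv ℝ 2 F x ![h, h] - iteratedFDeriv ℝ 2 J x ![h, h] := by
        rw [hG, eg_line _ (hF2'.sub hJ2), eg_line F hF2', eg_line J hJ2]
        have hf := eg_line_contDiff F hF2' x h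
        have hj := eg_line_contDiff J hJ2 x h
        have h5 : deriv (fun t : ℝ => F (x + t • h) - J (x + t • h)) =
            fun t => deriv (fun t : ℝ => F (x + t • h)) t - deriv (fun t : ℝ => J (x + t • h)) t := by
          funext t
          exact deriv_fun_sub (hf.differentiable (by norm_num) t) (hj.differentiable (by norm_num) t)
        rw [h5]
        have hf2 : Differentiable ℝ (deriv fun t : ℝ => F (x + t • h)) :=
          ((contDiff_succ_iff_deriv (n := 1)).1 (by exact_mod_cast hf)).2.2.differentiable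
            (by norm_num)
        have hj2 : Differentiable ℝ (deriv fun t : ℝ => J (x + t • h)) :=
          ((contDiff_succ_iff_deriv (n := 1)).1 (by exact_mod_cast hj)).2.2.differentiable
            (by norm_num)
        exact deriv_fun_sub (hf2 0) (hj2 0)
      rw [h4]
      have h5 := ha x (by linarith) hx h
      have h6 := hF2 x h
      have h7 := hχ'0 (G x)
      have h8 := hχ'1 (G x)
      have h9 : 0 ≤ deriv (deriv χ) (G x) * (fderiv ℝ G x h) ^ 2 :=
        mul_nonneg (hχ'' _) (sq_nonneg _)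
      have h10 : (1 - deriv χ (G x)) * (κ * ‖h‖ ^ 2) ≤
          (1 - deriv χ (G x)) * iteratedFDeriv ℝ 2 J x ![h, h] :=
        mul_le_mul_of_nonneg_left h5 (by linarith)
      have h11 : deriv χ (G x) * (κ / 2 * ‖h‖ ^ 2) ≤
          deriv χ (G x) * iteratedFDeriv ℝ 2 F x ![h, h] := mul_le_mul_of_nonneg_left h6 h7
      have h12 : 0 < κ * ‖h‖ ^ 2 := by positivity
      nlinarith
    · have h3 : (fun x => J x + D x) =ᶠ[nhds x] J := by
        filter_upwards [hD3 x h2] with y hy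
        rw [hy]; simp
      rw [(Filter.EventuallyEq.iteratedFDeriv ℝ h3 2).self_of_nhds]
      have := ha x (by linarith) hx h
      have h4 : 0 < κ * ‖h‖ ^ 2 := by positivity
      linarith

end

end Pool.Agent.CNX
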