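import Mathlib
import Pool.Agent.CNX.Defs

/-!
# CNX section 6 (extension lemma): definitions
-/

set_option autoImplicit false

namespace Pool.Agent.CNX

open scoped ContDiff

section
variable {E : Type*} [NormedAddCommGroup E] [InnerProductSpace ℝ E]

/-- second derivative of `F` at `x` in direction `h` -/
noncomputable def H2 (F : E → ℝ) (x h : E) : ℝ := fderiv ℝ (fderiv ℝ F) x h h

/-- first order Taylor remainder -/
noncomputable def Rem (F : E → ℝ) (x y : E) : ℝ := F y - F x - fderiv ℝ F x (y - x)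

/-- `(M/8) (1-|x|²)²` -/
noncomputable def qM (M : ℝ) (x : E) : ℝ := M / 8 * (1 - ‖x‖ ^ 2) ^ 2

/-- `v` minimises `φ - ⟪p, ·⟫` over the unit sphere -/
def IsMinS (φ : E → ℝ) (p v : E) : Prop :=
  ‖v‖ = 1 ∧ ∀ v' : E, ‖v'‖ = 1 → φ v - inner ℝ p v ≤ φ v' - inner ℝ p v'

/-- quadratic growth (same formula as `Growth`) -/
def GrowthE (φ : E → ℝ) (p : E) : Prop :=
  ∃ v₀ : E, ‖v₀‖ = 1 ∧ ∃ κ : ℝ, 0 < κ ∧ ∀ v : E,
    ‖v‖ = 1 → φ v₀ - inner ℝ p v₀ + κ * ‖v - v₀‖ ^ 2 ≤ φ v - inner ℝ p v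

/-- the paraboloid `Ψ_v` -/
noncomputable def ElPar (ψ : E → ℝ) (κ : ℝ) (v x : E) : ℝ :=
  ψ v + fderiv ℝ ψ v (x - v) + κ / 2 * ‖x - v‖ ^ 2

/-- log-sum-exp of the affine functions `a v + l v x`, `v ∈ V` -/
noncomputable def lse (τ : ℝ) (V : Finset E) (a : E → ℝ) (l : E → E →L[ℝ] ℝ) (x : E) : ℝ :=
  (1 / τ) * Real.log (∑ v ∈ V, Real.exp (τ * (a v + l v x)))

end

end Pool.Agent.CNX
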