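import Mathlib
import Pool.Agent.CNX.ELDefs

/-!
# CNX, section 6, module EL_01 (difficulty 1)

PROOF. Chain rule: `r ↦ x + r • h` has derivative `h`; `F` is differentiable (`C²`), `fderiv ℝ F` is `C¹`.
For the second statement compose `fderiv ℝ F` (HasFDerivAt, derivative `fderiv ℝ (fderiv ℝ F)`) with the line and apply
the evaluation at `h` (`HasDerivAt.clm_apply` or composition with `ContinuousLinearMap.apply`). Use
`(hF.fderiv_right (m := 1) le_rfl)` / `ContDiff.differentiable`.
-/

set_option autoImplicit false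

namespace Pool.Agent.CNX

open scoped ContDiff

variable {E : Type*} [NormedAddCommGroup E] [InnerProductSpace ℝ E]

theorem el01_line {F : E → ℝ} (hF : ContDiff ℝ 2 F) (x h : E) (s : ℝ) :
    HasDerivAt (fun r : ℝ => F (x + r • h)) (fderiv ℝ F (x + s • h) h) s ∧
    HasDerivAt (fun r : ℝ => fderiv ℝ F (x + r • h) h) (H2 F (x + s • h) h) s := by
  have hline : ∀ t : ℝ, HasDerivAt (fun t : ℝ => x + t • h) h t := fun t => by
    simpa using ((hasDerivAt_id t).smul_const h).const_add x
  have hF1 : HasFDerivAt F (fderiv ℝ F (x + s • h)) (x + s • h) :=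
    (hF.differentiable (by norm_num) (x + s • h)).hasFDerivAt
  have hF2 : ContDiff ℝ 1 (fderiv ℝ F) := hF.fderiv_right (by norm_num)
  have hF' : HasFDerivAt (fderiv ℝ F) (fderiv ℝ (fderiv ℝ F) (x + s • h)) (x + s • h) :=
    (hF2.differentiable (by norm_num) (x + s • h)).hasFDerivAt
  refine ⟨hF1.comp_hasDerivAt s (hline s), ?_⟩
  have h3 : HasDerivAt (fun t : ℝ => fderiv ℝ F (x + t • h))
      (fderiv ℝ (fderiv ℝ F) (x + s • h) h) s := hF'.comp_hasDerivAt s (hline s)
  have h4 := h3.clm_apply (hasDerivAt_const s h)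
  unfold H2
  simpa using h4

end Pool.Agent.CNX
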