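import Mathlib
import Pool.Agent.CNX.ELDefs
import Pool.Agent.CNX.EL_01

/-!
# CNX, section 6, module EL_02 (difficulty 2)

PROOF. `h := y - x`, `g s := F (x + s•h) - F x - s * fderiv ℝ F x h - κ/2 * s^2 * ‖h‖^2`. By `el01_line`
`g' s = fderiv ℝ F (x+s•h) h - fderiv ℝ F x h - κ s ‖h‖^2`, `g'(0) = 0`, `g''(s) = H2 F (x+s•h) h - κ ‖h‖^2 ≥ 0` on `[0,1]`
(the point `x + s•h` is in `C` by convexity). So `g'` is monotone on `[0,1]` (`monotoneOn_of_deriv_nonneg`), hence `≥ 0`,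
so `g` is monotone, `g 1 ≥ g 0 = 0`.
-/

set_option autoImplicit false

namespace Pool.Agent.CNX

open scoped ContDiff

variable {E : Type*} [NormedAddCommGroup E] [InnerProductSpace ℝ E]

theorem el02_one {φ φ1 φ2 : ℝ → ℝ} {m : ℝ} (h1 : ∀ t, HasDerivAt φ (φ1 t) t)
    (h2 : ∀ t, HasDerivAt φ1 (φ2 t) t) (h3 : ∀ t ∈ Set.Icc (0 : ℝ) 1, m ≤ φ2 t) :
    φ 0 + φ1 0 + m / 2 ≤ φ 1 := by
  have hid : ∀ t : ℝ, HasDerivAt (fun t : ℝ => m * t) m t := fun t => by
    simpa using (hasDerivAt_id t).const_mul m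
  have a1 : ∀ t, HasDerivAt (fun t => φ1 t - φ1 0 - m * t) (φ2 t - m) t := fun t =>
    ((h2 t).sub_const (φ1 0)).sub (hid t)
  have m1 : MonotoneOn (fun t => φ1 t - φ1 0 - m * t) (Set.Icc (0 : ℝ) 1) := by
    apply monotoneOn_of_deriv_nonneg (convex_Icc 0 1)
    · exact fun t _ => (a1 t).continuousAt.continuousWithinAt
    · exact fun t _ => (a1 t).differentiableAt.differentiableWithinAt
    · intro t ht
      rw [(a1 t).deriv]
      have := h3 t (interior_subset ht)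
      linarith
  have h4 : ∀ t ∈ Set.Icc (0 : ℝ) 1, 0 ≤ φ1 t - φ1 0 - m * t := by
    intro t ht
    have := m1 (Set.left_mem_Icc.2 zero_le_one) ht ht.1
    simp only [sub_self, mul_zero] at this
    linarith
  have hsq : ∀ t : ℝ, HasDerivAt (fun t : ℝ => m / 2 * t ^ 2) (m * t) t := fun t => by
    have h5 := (hasDerivAt_pow 2 t).const_mul (m / 2)
    have e : m / 2 * (((2 : ℕ) : ℝ) * t ^ (2 - 1)) = m * t := by
      rw [show (2 - 1 : ℕ) = 1 from rfl, pow_one, Nat.cast_ofNat]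
      ring
    rw [e] at h5
    exact h5
  have hli : ∀ t : ℝ, HasDerivAt (fun t : ℝ => t * φ1 0) (φ1 0) t := fun t => by
    simpa using (hasDerivAt_id t).mul_const (φ1 0)
  have a2 : ∀ t, HasDerivAt (fun t => φ t - φ 0 - t * φ1 0 - m / 2 * t ^ 2)
      (φ1 t - φ1 0 - m * t) t := fun t => (((h1 t).sub_const (φ 0)).sub (hli t)).sub (hsq t)
  have m2 : MonotoneOn (fun t => φ t - φ 0 - t * φ1 0 - m / 2 * t ^ 2) (Set.Icc (0 : ℝ) 1) := by
    apply monotoneOn_of_deriv_nonneg (convex_Icc 0 1)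
    · exact fun t _ => (a2 t).continuousAt.continuousWithinAt
    · exact fun t _ => (a2 t).differentiableAt.differentiableWithinAt
    · intro t ht
      rw [(a2 t).deriv]
      exact h4 t (interior_subset ht)
  have h5 := m2 (Set.left_mem_Icc.2 zero_le_one) (Set.right_mem_Icc.2 zero_le_one) zero_le_one
  have h6 : φ 0 - φ 0 - 0 * φ1 0 - m / 2 * 0 ^ 2 ≤ φ 1 - φ 0 - 1 * φ1 0 - m / 2 * 1 ^ 2 := h5
  linarith

theorem el02_taylor {F : E → ℝ} (hF : ContDiff ℝ 2 F) {C : Set E} (hC : Convex ℝ C) {κ : ℝ}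
    (h : ∀ z ∈ C, ∀ k : E, κ * ‖k‖ ^ 2 ≤ H2 F z k) {x y : E} (hx : x ∈ C) (hy : y ∈ C) :
    κ / 2 * ‖y - x‖ ^ 2 ≤ Rem F x y := by
  have h3 := el02_one (m := κ * ‖y - x‖ ^ 2) (fun t => (el01_line hF x (y - x) t).1)
    (fun t => (el01_line hF x (y - x) t).2) (by
    intro t ht
    apply h
    have e : x + t • (y - x) = (1 - t) • x + t • y := by
      rw [smul_sub, sub_smul, one_smul]; abel
    rw [e]
    exact hC hx hy (by linarith [ht.2]) ht.1 (by ring))
  simp only [zero_smul, add_zero, one_smul] at h3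
  rw [add_sub_cancel] at h3
  unfold Rem
  linarith

end Pool.Agent.CNX
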