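import Mathlib
import Pool.Agent.CNX.ELDefs

/-!
# CNX, section 6, module EL_03 (difficulty 2)

PROOF. Rules for `fderiv` of sums/scalar multiples; `fderiv ℝ (fun y => F y + G y) = fun x => fderiv ℝ F x + fderiv ℝ G x`
as FUNCTIONS (both differentiable everywhere), then again. For `el03_congr`: `Filter.EventuallyEq.fderiv`, used twice
(`F =ᶠ[nhds x] G` implies `fderiv ℝ F =ᶠ[nhds x] fderiv ℝ G`).
-/

set_option autoImplicit false

namespace Pool.Agent.CNX

open scoped ContDiff

variable {E : Type*} [NormedAddCommGroup E] [InnerProductSpace ℝ E]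

theorem el03_add {F G : E → ℝ} (hF : ContDiff ℝ 2 F) (hG : ContDiff ℝ 2 G) (x h : E) :
    fderiv ℝ (fun y => F y + G y) x h = fderiv ℝ F x h + fderiv ℝ G x h ∧
    H2 (fun y => F y + G y) x h = H2 F x h + H2 G x h ∧
    ∀ y : E, Rem (fun y => F y + G y) x y = Rem F x y + Rem G x y := by
  have dF : Differentiable ℝ F := hF.differentiable (by norm_num)
  have dG : Differentiable ℝ G := hG.differentiable (by norm_num)
  have h1 : fderiv ℝ (fun y => F y + G y) = fun z => fderiv ℝ F z + fderiv ℝ G z := by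
    funext z
    exact fderiv_fun_add (dF z) (dG z)
  have dF1 : Differentiable ℝ (fderiv ℝ F) := (hF.fderiv_right (m := 1) (by norm_num)).differentiable (by norm_num)
  have dG1 : Differentiable ℝ (fderiv ℝ G) := (hG.fderiv_right (m := 1) (by norm_num)).differentiable (by norm_num)
  refine ⟨?_, ?_, ?_⟩
  · rw [h1]
    rfl
  · unfold H2
    rw [h1, fderiv_fun_add (dF1 x) (dG1 x)]
    rfl
  · intro y
    unfold Rem
    rw [h1]
    simp only [ContinuousLinearMap.add_apply]
    ring

theorem el03_neg {F : E → ℝ} (x h : E) : H2 (fun y => - F y) x h = - H2 F x h := by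
  have h1 : fderiv ℝ (fun y => - F y) = fun z => - fderiv ℝ F z := by
    funext z
    exact fderiv_fun_neg
  unfold H2
  rw [h1, fderiv_fun_neg]
  rfl

theorem el03_smul {F : E → ℝ} (x h : E) (t : ℝ) : H2 F x (t • h) = t ^ 2 * H2 F x h := by
  unfold H2
  simp only [map_smul, ContinuousLinearMap.smul_apply, smul_eq_mul]
  ring

theorem el03_congr {F G : E → ℝ} {x : E} (h : F =ᶠ[nhds x] G) (k : E) :
    fderiv ℝ F x k = fderiv ℝ G x k ∧ H2 F x k = H2 G x k := by
  have h1 : fderiv ℝ F =ᶠ[nhds x] fderiv ℝ G := h.fderiv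
  refine ⟨by rw [h1.eq_of_nhds], ?_⟩
  unfold H2
  rw [h1.fderiv_eq]

theorem el03_clm (l : E →L[ℝ] ℝ) (c : ℝ) (x h : E) :
    fderiv ℝ (fun y => c + l y) x h = l h ∧ H2 (fun y => c + l y) x h = 0 := by
  have h1 : fderiv ℝ (fun y => c + l y) = fun _ => l := by
    funext z
    rw [fderiv_const_add]
    exact l.fderiv
  refine ⟨by rw [h1], ?_⟩
  unfold H2
  rw [h1]
  simp

end Pool.Agent.CNX
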