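import Mathlib
import Pool.Agent.CNX.ELDefs

/-!
# CNX, section 6, module EL_04 (difficulty 2)

PROOF. `fderiv` of `‖x‖^2` is `2 ⟪x, ·⟫` (`hasStrictFDerivAt_norm_sq`, `fderiv_norm_sq_apply`, `contDiff_norm_sq ℝ`).
`qM M x = M/8 (1-‖x‖^2)^2`: `fderiv = -(M/2)(1-‖x‖^2)⟪x,h⟫`; second derivative `M ⟪x,h⟫^2 - (M/2)(1-‖x‖^2)‖h‖^2`.
Write the first derivative as the function `x ↦ (-(M/2)(1-‖x‖^2)) • innerSL ℝ x` and differentiate it (product rule).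
The statements about `Rem`: at unit vectors `qM M v = 0` and the derivative vanishes; for `c/2 ‖x‖^2`:
`c/2‖y‖^2 - c/2‖x‖^2 - c⟪x,y-x⟫ = c/2 ‖y-x‖^2` (`norm_sub_sq_real`).
-/

set_option autoImplicit false

namespace Pool.Agent.CNX

open scoped ContDiff

variable {E : Type*} [NormedAddCommGroup E] [InnerProductSpace ℝ E]

theorem el04_qM_contDiff (M : ℝ) : ContDiff ℝ ∞ (fun x : E => qM M x) := by
  unfold qM
  exact contDiff_const.mul ((contDiff_const.sub (contDiff_norm_sq ℝ)).pow 2)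

theorem el04_qM (M : ℝ) (x h : E) :
    fderiv ℝ (fun x : E => qM M x) x h = -(M / 2) * (1 - ‖x‖ ^ 2) * inner ℝ x h ∧
    H2 (fun x : E => qM M x) x h =
      M * (inner ℝ x h : ℝ) ^ 2 - M / 2 * (1 - ‖x‖ ^ 2) * ‖h‖ ^ 2 := by
  have hd : ∀ y : E, HasFDerivAt (fun x : E => qM M x) ((-(M / 2) * (1 - ‖y‖ ^ 2)) • innerSL ℝ y) y := by
    intro y
    have h1 : HasFDerivAt (fun x : E => ‖x‖ ^ 2) (2 • (innerSL ℝ y)) y := (hasStrictFDerivAt_norm_sq y).hasFDerivAt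
    have h2 := ((h1.const_sub 1).pow 2).const_mul (M / 8)
    refine h2.congr_fderiv ?_
    ext k
    simp
    ring
  have hf : fderiv ℝ (fun x : E => qM M x) = fun y => (-(M / 2) * (1 - ‖y‖ ^ 2)) • innerSL ℝ y :=
    funext fun y => (hd y).fderiv
  constructor
  · rw [hf]
    simp
  · unfold H2
    rw [hf]
    have h1 : HasFDerivAt (fun x : E => ‖x‖ ^ 2) (2 • (innerSL ℝ x)) x := (hasStrictFDerivAt_norm_sq x).hasFDerivAt
    have h2 := (h1.const_sub 1).const_mul (-(M / 2))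
    have h3 : HasFDerivAt (fun y : E => innerSL ℝ y) (innerSL ℝ : E →L[ℝ] E →L[ℝ] ℝ) x := (innerSL ℝ : E →L[ℝ] E →L[ℝ] ℝ).hasFDerivAt
    have h4 : HasFDerivAt (fun y : E => (-(M / 2) * (1 - ‖y‖ ^ 2)) • innerSL ℝ y) _ x := h2.smul h3
    have h5 : ((innerSL ℝ) h) h = ‖h‖ ^ 2 := by
      rw [innerSL_apply_apply, real_inner_self_eq_norm_sq]
    rw [h4.fderiv]
    simp
    rw [h5]
    ring

theorem el04_qM_rem (M : ℝ) {v v' : E} (hv : ‖v‖ = 1) (hv' : ‖v'‖ = 1) :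
    Rem (fun x : E => qM M x) v v' = 0 := by
  unfold Rem
  rw [(el04_qM M v (v' - v)).1]
  simp only [qM, hv, hv']
  ring

theorem el04_sq (c : ℝ) (x h : E) :
    ContDiff ℝ ∞ (fun x : E => c / 2 * ‖x‖ ^ 2) ∧
    fderiv ℝ (fun x : E => c / 2 * ‖x‖ ^ 2) x h = c * inner ℝ x h ∧
    H2 (fun x : E => c / 2 * ‖x‖ ^ 2) x h = c * ‖h‖ ^ 2 ∧
    ∀ y : E, Rem (fun x : E => c / 2 * ‖x‖ ^ 2) x y = c / 2 * ‖y - x‖ ^ 2 := by
  have hd : ∀ y : E, HasFDerivAt (fun x : E => c / 2 * ‖x‖ ^ 2) (c • innerSL ℝ y) y := by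
    intro y
    have h1 : HasFDerivAt (fun x : E => ‖x‖ ^ 2) (2 • (innerSL ℝ y)) y := (hasStrictFDerivAt_norm_sq y).hasFDerivAt
    refine (h1.const_mul (c / 2)).congr_fderiv ?_
    ext k
    simp
    ring
  have hf : fderiv ℝ (fun x : E => c / 2 * ‖x‖ ^ 2) = fun y => c • innerSL ℝ y :=
    funext fun y => (hd y).fderiv
  refine ⟨contDiff_const.mul (contDiff_norm_sq ℝ), ?_, ?_, ?_⟩
  · rw [hf]
    simp
  · unfold H2
    rw [hf]
    have h3 : HasFDerivAt (fun y : E => c • innerSL ℝ y) (c • (innerSL ℝ : E →L[ℝ] E →L[ℝ] ℝ)) x :=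
      (innerSL ℝ : E →L[ℝ] E →L[ℝ] ℝ).hasFDerivAt.const_smul c
    rw [h3.fderiv]
    simp only [smul_apply, smul_eq_mul]
    rw [innerSL_apply_apply, real_inner_self_eq_norm_sq]
  · intro y
    unfold Rem
    rw [hf, norm_sub_sq_real, real_inner_comm]
    simp [inner_sub_right]
    ring

end Pool.Agent.CNX
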