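import Mathlib
import Pool.Agent.CNX.ELDefs
import Pool.Agent.CNX.EL_03

/-!
# CNX, section 6, module EL_05 (difficulty 3)

PROOF. `e = 0`: both sides `0`. Otherwise scale to `‖e‖ = 1` (`el03_smul`). Let `γ t = cos t • v + sin t • e` (unit vector),
`f t = ψ (γ t) - ψ v - fderiv ℝ ψ v (γ t - v) - κ (2 - 2 cos t)`; `‖γ t - v‖^2 = 2 - 2 cos t`, so `f ≥ 0 = f 0`.
`f' t = (fderiv ℝ ψ (γ t) - fderiv ℝ ψ v) (γ' t) - 2 κ sin t`, `f' 0 = 0`, and `f'` has at `0` the derivative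
`H2 ψ v e - 2κ` (product rule: the factor `fderiv ℝ ψ (γ t) - fderiv ℝ ψ v` vanishes at `0`, its derivative is
`fderiv ℝ (fderiv ℝ ψ) v e`, `γ' 0 = e`). If `H2 ψ v e < 2κ` then `f' < 0` on some `(0, ε)`, so `f` is strictly decreasing on
`[0, ε)`, so `f < 0` there: contradiction.
-/

set_option autoImplicit false

namespace Pool.Agent.CNX

open scoped ContDiff

variable {E : Type*} [NormedAddCommGroup E] [InnerProductSpace ℝ E]

theorem el05_unit {ψ : E → ℝ} (hψ : ContDiff ℝ 2 ψ) {v : E} (hv : ‖v‖ = 1) {κ : ℝ}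
    (h : ∀ v' : E, ‖v'‖ = 1 → κ * ‖v' - v‖ ^ 2 ≤ Rem ψ v v') {u : E} (hu : ‖u‖ = 1) (he : inner ℝ v u = 0) :
    2 * κ ≤ H2 ψ v u := by
  by_contra hcon
  push Not at hcon
  have hd : Differentiable ℝ ψ := hψ.differentiable two_ne_zero
  have h1 : ContDiff ℝ 1 (fderiv ℝ ψ) := hψ.fderiv_right (m := 1) le_rfl
  have hd1 : Differentiable ℝ (fderiv ℝ ψ) := h1.differentiable one_ne_zero
  have hg : ∀ t : ℝ, HasDerivAt (fun t : ℝ => Real.cos t • v + Real.sin t • u)
      ((-Real.sin t) • v + Real.cos t • u) t := fun t =>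
    ((Real.hasDerivAt_cos t).smul_const v).add ((Real.hasDerivAt_sin t).smul_const u)
  have hg' : ∀ t : ℝ, HasDerivAt (fun t : ℝ => (-Real.sin t) • v + Real.cos t • u)
      ((-Real.cos t) • v + (-Real.sin t) • u) t := fun t =>
    ((Real.hasDerivAt_sin t).neg.smul_const v).add ((Real.hasDerivAt_cos t).smul_const u)
  set f : ℝ → ℝ := fun t => ψ (Real.cos t • v + Real.sin t • u) - ψ v -
    fderiv ℝ ψ v ((Real.cos t • v + Real.sin t • u) - v) - κ * (2 - 2 * Real.cos t) with hf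
  have hf1 : ∀ t, HasDerivAt f (fderiv ℝ ψ (Real.cos t • v + Real.sin t • u) ((-Real.sin t) • v + Real.cos t • u)
      - fderiv ℝ ψ v ((-Real.sin t) • v + Real.cos t • u) - κ * (2 * Real.sin t)) t := by
    intro t
    have a1 : HasDerivAt (fun t => ψ (Real.cos t • v + Real.sin t • u))
        (fderiv ℝ ψ (Real.cos t • v + Real.sin t • u) ((-Real.sin t) • v + Real.cos t • u)) t :=
      (hd _).hasFDerivAt.comp_hasDerivAt t (hg t)
    have a2 : HasDerivAt (fun t => fderiv ℝ ψ v ((Real.cos t • v + Real.sin t • u) - v))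
        (fderiv ℝ ψ v ((-Real.sin t) • v + Real.cos t • u)) t :=
      (fderiv ℝ ψ v).hasFDerivAt.comp_hasDerivAt t ((hg t).sub_const v)
    have a3 : HasDerivAt (fun t => κ * (2 - 2 * Real.cos t)) (κ * (2 * Real.sin t)) t := by
      have a4 := (((Real.hasDerivAt_cos t).const_mul 2).const_sub 2).const_mul κ
      have e : κ * -(2 * -Real.sin t) = κ * (2 * Real.sin t) := by ring
      rw [e] at a4
      exact a4
    have a5 := ((a1.sub_const (ψ v)).sub a2).sub a3
    exact a5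
  have hderiv : deriv f = fun t => fderiv ℝ ψ (Real.cos t • v + Real.sin t • u)
      ((-Real.sin t) • v + Real.cos t • u)
      - fderiv ℝ ψ v ((-Real.sin t) • v + Real.cos t • u) - κ * (2 * Real.sin t) := by
    funext t
    exact (hf1 t).deriv
  have hf2 : HasDerivAt (deriv f) (H2 ψ v u - 2 * κ) 0 := by
    rw [hderiv]
    have b0 : HasDerivAt (fun t => fderiv ℝ ψ (Real.cos t • v + Real.sin t • u))
        (fderiv ℝ (fderiv ℝ ψ) (Real.cos 0 • v + Real.sin 0 • u) ((-Real.sin 0) • v + Real.cos 0 • u)) 0 :=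
      (hd1 _).hasFDerivAt.comp_hasDerivAt (0 : ℝ) (hg 0)
    have b1 := b0.clm_apply (hg' 0)
    have b2 : HasDerivAt (fun t => fderiv ℝ ψ v ((-Real.sin t) • v + Real.cos t • u))
        (fderiv ℝ ψ v ((-Real.cos 0) • v + (-Real.sin 0) • u)) 0 :=
      (fderiv ℝ ψ v).hasFDerivAt.comp_hasDerivAt (0 : ℝ) (hg' 0)
    have b3 : HasDerivAt (fun t => κ * (2 * Real.sin t)) (κ * (2 * Real.cos 0)) 0 :=
      ((Real.hasDerivAt_sin 0).const_mul 2).const_mul κ
    have b4 := (b1.sub b2).sub b3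
    have e : H2 ψ v u - 2 * κ = (fderiv ℝ (fderiv ℝ ψ) (Real.cos 0 • v + Real.sin 0 • u)
        ((-Real.sin 0) • v + Real.cos 0 • u) ((-Real.sin 0) • v + Real.cos 0 • u) +
        fderiv ℝ ψ (Real.cos 0 • v + Real.sin 0 • u) ((-Real.cos 0) • v + (-Real.sin 0) • u)) -
        fderiv ℝ ψ v ((-Real.cos 0) • v + (-Real.sin 0) • u) - κ * (2 * Real.cos 0) := by
      unfold H2
      simp
      ring
    rw [e]
    exact b4
  have hf0 : f 0 = 0 := by
    rw [hf]
    simp
  have hd0 : deriv f 0 = 0 := by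
    rw [hderiv]
    simp
  have hfn : ∀ t, 0 ≤ f t := by
    intro t
    have hn2 : ‖Real.cos t • v + Real.sin t • u‖ ^ 2 = 1 := by
      rw [norm_add_sq_real, norm_smul, norm_smul, hv, hu, inner_smul_left, inner_smul_right, he]
      simp
    have hn : ‖Real.cos t • v + Real.sin t • u‖ = 1 := by
      have := norm_nonneg (Real.cos t • v + Real.sin t • u)
      nlinarith
    have hn3 : ‖(Real.cos t • v + Real.sin t • u) - v‖ ^ 2 = 2 - 2 * Real.cos t := by
      rw [norm_sub_sq_real, hn2, hv, inner_add_left, inner_smul_left, inner_smul_left, real_inner_self_eq_norm_sq, hv,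
        real_inner_comm, he]
      simp
      ring
    have h2 := h _ hn
    rw [hn3] at h2
    unfold Rem at h2
    show 0 ≤ ψ (Real.cos t • v + Real.sin t • u) - ψ v -
      fderiv ℝ ψ v ((Real.cos t • v + Real.sin t • u) - v) - κ * (2 - 2 * Real.cos t)
    linarith
  have hneg : deriv (deriv f) 0 < 0 := by
    rw [hf2.deriv]
    linarith
  have hmax : IsLocalMax f 0 := isLocalMax_of_deriv_deriv_neg hneg hd0 (hf1 0).continuousAt
  have hev : f =ᶠ[nhds 0] fun _ => 0 := by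
    filter_upwards [hmax] with t ht
    rw [hf0] at ht
    exact le_antisymm ht (hfn t)
  have hev2 : deriv f =ᶠ[nhds 0] fun _ => 0 := by
    have := hev.deriv
    simpa using this
  have h0 : deriv (deriv f) 0 = 0 := by
    have := hev2.deriv_eq
    simpa using this
  linarith

theorem el05_tangential {ψ : E → ℝ} (hψ : ContDiff ℝ 2 ψ) {v : E} (hv : ‖v‖ = 1) {κ : ℝ}
    (h : ∀ v' : E, ‖v'‖ = 1 → κ * ‖v' - v‖ ^ 2 ≤ Rem ψ v v') {e : E} (he : inner ℝ v e = 0) :
    2 * κ * ‖e‖ ^ 2 ≤ H2 ψ v e := by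
  rcases eq_or_ne e 0 with h0 | h0
  · subst h0
    have : H2 ψ v (0 : E) = 0 := by
      unfold H2
      simp
    rw [this]
    simp
  · have hn : 0 < ‖e‖ := norm_pos_iff.2 h0
    have hu : ‖(‖e‖⁻¹ : ℝ) • e‖ = 1 := by
      rw [norm_smul, norm_inv, norm_norm]
      exact inv_mul_cancel₀ hn.ne'
    have hi : inner ℝ v ((‖e‖⁻¹ : ℝ) • e) = 0 := by
      rw [inner_smul_right, he, mul_zero]
    have h1 := el05_unit hψ hv h hu hi
    have h2 : H2 ψ v e = ‖e‖ ^ 2 * H2 ψ v ((‖e‖⁻¹ : ℝ) • e) := by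
      rw [← el03_smul, smul_smul, mul_inv_cancel₀ hn.ne', one_smul]
    rw [h2]
    have h3 : ‖e‖ ^ 2 * (2 * κ) ≤ ‖e‖ ^ 2 * H2 ψ v ((‖e‖⁻¹ : ℝ) • e) :=
      mul_le_mul_of_nonneg_left h1 (sq_nonneg _)
    linarith

end Pool.Agent.CNX
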