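import Mathlib
import Pool.Agent.CNX.ELDefs

/-!
# CNX, section 6, module EL_06 (difficulty 2)

PROOF. `h = e + s v`, `s = ⟪v,h⟫`, `e = h - s v ⟂ v`, `‖h‖^2 = ‖e‖^2 + s^2`.
`B h h = B e e + s B e v + s B v e + s^2 B v v ≥ κ‖e‖^2 - 2L|s|‖e‖ - L s^2 ≥ κ/2 ‖e‖^2 - (2L^2/κ) s^2 - L s^2`
(`2L|s|‖e‖ ≤ κ/2‖e‖^2 + (2L^2/κ)s^2`), and `M s^2 ≥ (2L^2/κ + L + κ) s^2`.
-/

set_option autoImplicit false

namespace Pool.Agent.CNX

open scoped ContDiff

variable {E : Type*} [NormedAddCommGroup E] [InnerProductSpace ℝ E]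

theorem el06_bilin {κ L : ℝ} (hκ : 0 < κ) (B : E →L[ℝ] E →L[ℝ] ℝ) (hL : ‖B‖ ≤ L) {v : E}
    (hv : ‖v‖ = 1) (h : ∀ e : E, inner ℝ v e = 0 → κ * ‖e‖ ^ 2 ≤ B e e) {M : ℝ}
    (hM : 2 * L ^ 2 / κ + L + κ ≤ M) (k : E) :
    κ / 2 * ‖k‖ ^ 2 ≤ B k k + M * (inner ℝ v k : ℝ) ^ 2 := by
  set s : ℝ := inner ℝ v k with hs
  set e : E := k - s • v with he
  have hve : inner ℝ v e = 0 := by
    rw [he, inner_sub_right, inner_smul_right, real_inner_self_eq_norm_sq, hv, ← hs]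
    ring
  have hk : k = e + s • v := by rw [he]; abel
  have hn : ‖k‖ ^ 2 = ‖e‖ ^ 2 + s ^ 2 := by
    rw [hk, norm_add_sq_real, inner_smul_right, real_inner_comm, hve, norm_smul, hv, Real.norm_eq_abs, mul_one, sq_abs]
    ring
  have hL0 : 0 ≤ L := (norm_nonneg B).trans hL
  have h1 : ∀ a b : E, |B a b| ≤ L * ‖a‖ * ‖b‖ := fun a b => by
    have h2 := B.le_opNorm₂ a b
    rw [Real.norm_eq_abs] at h2
    refine h2.trans ?_
    gcongr
  have h2 := h e hve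
  have h3 := (abs_le.mp (h1 e v)).1
  have h4 := (abs_le.mp (h1 v e)).1
  have h3' := (abs_le.mp (h1 e v)).2
  have h4' := (abs_le.mp (h1 v e)).2
  have h5 := (abs_le.mp (h1 v v)).1
  rw [hv] at h3 h4 h5 h3' h4'
  have h6 : B k k = B e e + s * B e v + s * B v e + s ^ 2 * B v v := by
    rw [hk]
    simp only [map_add, map_smul, add_apply, smul_apply, smul_eq_mul]
    ring
  have h7 : -(L * |s| * ‖e‖) ≤ s * B e v := by
    have : |s * B e v| ≤ |s| * (L * ‖e‖ * 1) := by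
      rw [abs_mul]
      exact mul_le_mul_of_nonneg_left (by have := h1 e v; rwa [hv] at this) (abs_nonneg s)
    have h8 := (abs_le.mp this).1
    nlinarith
  have h9 : -(L * |s| * ‖e‖) ≤ s * B v e := by
    have : |s * B v e| ≤ |s| * (L * 1 * ‖e‖) := by
      rw [abs_mul]
      exact mul_le_mul_of_nonneg_left (by have := h1 v e; rwa [hv] at this) (abs_nonneg s)
    have h8 := (abs_le.mp this).1
    nlinarith
  have h10 : -(L * s ^ 2) ≤ s ^ 2 * B v v := by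
    have := sq_nonneg s
    nlinarith
  have h11 : 2 * (L * |s| * ‖e‖) ≤ κ / 2 * ‖e‖ ^ 2 + 2 * L ^ 2 / κ * s ^ 2 := by
    have h12 : 0 ≤ (κ * ‖e‖ - 2 * L * |s|) ^ 2 / (2 * κ) := by positivity
    have h13 : (κ * ‖e‖ - 2 * L * |s|) ^ 2 / (2 * κ) =
        κ / 2 * ‖e‖ ^ 2 + 2 * L ^ 2 / κ * |s| ^ 2 - 2 * (L * |s| * ‖e‖) := by
      field_simp
      ring
    rw [h13, sq_abs] at h12
    linarith
  have h14 : (2 * L ^ 2 / κ + L + κ) * s ^ 2 ≤ M * s ^ 2 := mul_le_mul_of_nonneg_right hM (sq_nonneg s)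
  have h15 : 0 ≤ κ * s ^ 2 := by positivity
  rw [hn, h6]
  nlinarith

end Pool.Agent.CNX
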