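import Mathlib
import Pool.Agent.CNX.ELDefs
import Pool.Agent.CNX.EL_03
import Pool.Agent.CNX.EL_04
import Pool.Agent.CNX.EL_06

/-!
# CNX, section 6, module EL_07 (difficulty 1)

PROOF. `el03_add` and `el04_qM` (at `‖v‖ = 1` the Hessian of `qM M` is `M ⟪v,k⟫^2`), then `el06_bilin` with
`B = fderiv ℝ (fderiv ℝ ψ) v`.
-/

set_option autoImplicit false

namespace Pool.Agent.CNX

open scoped ContDiff

variable {E : Type*} [NormedAddCommGroup E] [InnerProductSpace ℝ E]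

theorem el07_addM {ψ : E → ℝ} (hψ : ContDiff ℝ 2 ψ) {κ L : ℝ} (hκ : 0 < κ) {v : E}
    (hv : ‖v‖ = 1) (hL : ‖fderiv ℝ (fderiv ℝ ψ) v‖ ≤ L)
    (h : ∀ e : E, inner ℝ v e = 0 → κ * ‖e‖ ^ 2 ≤ H2 ψ v e) {M : ℝ}
    (hM : 2 * L ^ 2 / κ + L + κ ≤ M) (k : E) :
    κ / 2 * ‖k‖ ^ 2 ≤ H2 (fun x => ψ x + qM M x) v k := by
  have hq : ContDiff ℝ 2 (fun x : E => qM M x) :=
    contDiff_infty.mp (el04_qM_contDiff M) 2
  rw [(el03_add hψ hq v k).2.1, (el04_qM M v k).2, hv]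
  have h1 := el06_bilin hκ (fderiv ℝ (fderiv ℝ ψ) v) hL hv h hM k
  have e : M * (inner ℝ v k : ℝ) ^ 2 - M / 2 * (1 - 1 ^ 2) * ‖k‖ ^ 2 = M * (inner ℝ v k : ℝ) ^ 2 := by
    ring
  rw [e]
  exact h1

end Pool.Agent.CNX
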