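import Mathlib
import Pool.Agent.CNX.ELDefs

/-!
# CNX, section 6, module EL_08 (difficulty 2)

PROOF. `fderiv ℝ (fderiv ℝ F)` is continuous (`C²`): there is `r > 0` with
`‖fderiv ℝ (fderiv ℝ F) x - fderiv ℝ (fderiv ℝ F) v‖ ≤ κ/2` for `‖x - v‖ < r`; then
`|H2 F x k - H2 F v k| ≤ κ/2 ‖k‖^2` (`ContinuousLinearMap.le_opNorm₂`).
-/

set_option autoImplicit false

namespace Pool.Agent.CNX

open scoped ContDiff

variable {E : Type*} [NormedAddCommGroup E] [InnerProductSpace ℝ E]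

theorem el08_local {F : E → ℝ} (hF : ContDiff ℝ 2 F) {κ : ℝ} (hκ : 0 < κ) {v : E}
    (h : ∀ k : E, κ * ‖k‖ ^ 2 ≤ H2 F v k) :
    ∃ r > 0, ∀ x : E, ‖x - v‖ < r → ∀ k : E, κ / 2 * ‖k‖ ^ 2 ≤ H2 F x k := by
  have s1 : ContDiff ℝ 1 (fderiv ℝ F) := hF.fderiv_right (by norm_num)
  have s2 : Continuous (fderiv ℝ (fderiv ℝ F)) := (s1.continuous_fderiv (by norm_num))
  have hc : Continuous (fun x => ‖fderiv ℝ (fderiv ℝ F) x - fderiv ℝ (fderiv ℝ F) v‖) :=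
    (continuous_norm (E := E →L[ℝ] E →L[ℝ] ℝ)).comp (s2.sub continuous_const)
  obtain ⟨r, hr, hrr⟩ := Metric.continuousAt_iff.1 (hc.continuousAt (x := v)) (κ / 2) (by positivity)
  refine ⟨r, hr, fun x hx k => ?_⟩
  have h1 := hrr (x := x) (by rwa [dist_eq_norm])
  have e0 : ‖fderiv ℝ (fderiv ℝ F) v - fderiv ℝ (fderiv ℝ F) v‖ = 0 := by
    rw [sub_self]
    exact norm_zero (E := E →L[ℝ] E →L[ℝ] ℝ)
  have e1 : 0 ≤ ‖fderiv ℝ (fderiv ℝ F) x - fderiv ℝ (fderiv ℝ F) v‖ :=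
    norm_nonneg (E := E →L[ℝ] E →L[ℝ] ℝ) _
  rw [e0, Real.dist_eq, sub_zero, abs_of_nonneg e1] at h1
  have h2 := (fderiv ℝ (fderiv ℝ F) x - fderiv ℝ (fderiv ℝ F) v).le_opNorm₂ k k
  have h3 : (fderiv ℝ (fderiv ℝ F) x - fderiv ℝ (fderiv ℝ F) v) k k = H2 F x k - H2 F v k := rfl
  rw [h3, Real.norm_eq_abs] at h2
  have h4 : ‖fderiv ℝ (fderiv ℝ F) x - fderiv ℝ (fderiv ℝ F) v‖ * ‖k‖ * ‖k‖ ≤ κ / 2 * ‖k‖ ^ 2 := by
    rw [mul_assoc, ← sq]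
    exact mul_le_mul_of_nonneg_right h1.le (sq_nonneg _)
  have h5 := (abs_le.1 (h2.trans h4)).1
  have h6 := h k
  linarith

end Pool.Agent.CNX
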