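import Mathlib
import Pool.Agent.CNX.ELDefs

/-!
# CNX, section 6, module EL_09 (difficulty 3)

PROOF. `D = fderiv ℝ (fderiv ℝ F)` is uniformly continuous on the compact closed unit ball
(`IsCompact.uniformContinuousOn_of_continuous`, `isCompact_closedBall`, `E` is proper:
`haveI := FiniteDimensional.proper ℝ E`). So there is `η ∈ (0,1)` (e.g. `η ≤ 1/2`) with `‖D x - D y‖ ≤ κ/2` for
`x, y` in the ball, `‖x-y‖ ≤ η`. For `1-η ≤ ‖x‖ ≤ 1` put `v = ‖x‖⁻¹ • x`: `‖v‖ = 1`, `‖x - v‖ = 1 - ‖x‖ ≤ η`.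
Then `H2 F x k ≥ H2 F v k - κ/2 ‖k‖^2`.
-/

set_option autoImplicit false

namespace Pool.Agent.CNX

open scoped ContDiff

variable {E : Type*} [NormedAddCommGroup E] [InnerProductSpace ℝ E] [FiniteDimensional ℝ E]

theorem el09_annulus {F : E → ℝ} (hF : ContDiff ℝ 2 F) {κ : ℝ} (hκ : 0 < κ)
    (h : ∀ v : E, ‖v‖ = 1 → ∀ k : E, κ * ‖k‖ ^ 2 ≤ H2 F v k) :
    ∃ η : ℝ, 0 < η ∧ η < 1 ∧ ∀ x : E, 1 - η ≤ ‖x‖ → ‖x‖ ≤ 1 → ∀ k : E,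
      κ / 2 * ‖k‖ ^ 2 ≤ H2 F x k := by
  have : ProperSpace E := FiniteDimensional.proper ℝ E
  have h1 : ContDiff ℝ 1 (fderiv ℝ F) := hF.fderiv_right (m := 1) le_rfl
  have hD : Continuous (fderiv ℝ (fderiv ℝ F)) := h1.continuous_fderiv one_ne_zero
  have hu := (isCompact_closedBall (0 : E) 1).uniformContinuousOn_of_continuous
    (f := fun x => (fderiv ℝ (fderiv ℝ F) x : E →L[ℝ] E →L[ℝ] ℝ)) hD.continuousOn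
  obtain ⟨δ, hδ, hδ'⟩ := (Metric.uniformContinuousOn_iff_le (α := E) (β := E →L[ℝ] E →L[ℝ] ℝ)
    (f := fun x => (fderiv ℝ (fderiv ℝ F) x : E →L[ℝ] E →L[ℝ] ℝ)) (s := Metric.closedBall (0 : E) 1)).1 hu
    (κ / 2) (by linarith)
  refine ⟨min δ (1 / 2), lt_min hδ (by norm_num), lt_of_le_of_lt (min_le_right _ _) (by norm_num), ?_⟩
  intro x hx hx1 k
  have hη : min δ (1 / 2) ≤ 1 / 2 := min_le_right _ _
  have hη' : min δ (1 / 2) ≤ δ := min_le_left _ _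
  have hx0 : 0 < ‖x‖ := by linarith
  have hxne : x ≠ 0 := norm_pos_iff.1 hx0
  have hv : ‖(‖x‖⁻¹ : ℝ) • x‖ = 1 := by
    rw [norm_smul, norm_inv, norm_norm]
    exact inv_mul_cancel₀ hx0.ne'
  have hd : dist x ((‖x‖⁻¹ : ℝ) • x) ≤ δ := by
    rw [dist_eq_norm]
    have e : x - (‖x‖⁻¹ : ℝ) • x = (1 - ‖x‖⁻¹) • x := by rw [sub_smul, one_smul]
    rw [e, norm_smul, Real.norm_eq_abs]
    have e2 : |1 - ‖x‖⁻¹| * ‖x‖ = |‖x‖ - 1| := by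
      rw [← abs_of_pos hx0, ← abs_mul, abs_of_pos hx0]
      congr 1
      field_simp
    rw [e2, abs_of_nonpos (by linarith)]
    linarith
  have h20 := hδ' x (by simpa using hx1) ((‖x‖⁻¹ : ℝ) • x) (by simp [hv]) hd
  have h2 : ‖fderiv ℝ (fderiv ℝ F) x - fderiv ℝ (fderiv ℝ F) ((‖x‖⁻¹ : ℝ) • x)‖ ≤ κ / 2 := by
    have e := dist_eq_norm (fderiv ℝ (fderiv ℝ F) x) (fderiv ℝ (fderiv ℝ F) ((‖x‖⁻¹ : ℝ) • x))
    exact e.symm.le.trans h20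
  have h3 := h _ hv k
  have h4 : H2 F ((‖x‖⁻¹ : ℝ) • x) k - H2 F x k ≤ κ / 2 * ‖k‖ ^ 2 := by
    unfold H2
    have e : fderiv ℝ (fderiv ℝ F) ((‖x‖⁻¹ : ℝ) • x) k k - fderiv ℝ (fderiv ℝ F) x k k =
        - ((fderiv ℝ (fderiv ℝ F) x - fderiv ℝ (fderiv ℝ F) ((‖x‖⁻¹ : ℝ) • x)) k k) := by
      simp
    rw [e]
    have e1 := (fderiv ℝ (fderiv ℝ F) x - fderiv ℝ (fderiv ℝ F) ((‖x‖⁻¹ : ℝ) • x)).le_opNorm₂ k k
    have e2 := neg_le_abs ((fderiv ℝ (fderiv ℝ F) x - fderiv ℝ (fderiv ℝ F) ((‖x‖⁻¹ : ℝ) • x)) k k)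
    rw [Real.norm_eq_abs] at e1
    have e3 : ‖fderiv ℝ (fderiv ℝ F) x - fderiv ℝ (fderiv ℝ F) ((‖x‖⁻¹ : ℝ) • x)‖ * ‖k‖ * ‖k‖ ≤
        κ / 2 * ‖k‖ * ‖k‖ := by gcongr
    have e4 : κ / 2 * ‖k‖ * ‖k‖ = κ / 2 * ‖k‖ ^ 2 := by ring
    linarith
  linarith

end Pool.Agent.CNX
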