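import Mathlib
import Pool.Agent.CNX.ELDefs
import Pool.Agent.CNX.EL_02
import Pool.Agent.CNX.EL_03
import Pool.Agent.CNX.EL_04
import Pool.Agent.CNX.EL_05
import Pool.Agent.CNX.EL_07
import Pool.Agent.CNX.EL_08

/-!
# CNX, section 6, module EL_10 (difficulty 2)

PROOF. `el05_tangential`: `2κ‖e‖^2 ≤ H2 ψ v0 e` for `e ⟂ v0`. `el07_addM` with `2κ`, `L = ‖fderiv ℝ (fderiv ℝ ψ) v0‖`,
`M = 2L^2/(2κ) + L + 2κ`: `F = ψ + qM M` has `κ‖k‖^2 ≤ H2 F v0 k`. `el08_local`: `r`. `el02_taylor` on `Metric.ball v0 r`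
(with `κ/2`): `κ/4 ‖v'-v‖^2 ≤ Rem F v v'`, and `Rem F v v' = Rem ψ v v'` for unit vectors (`el03_add`, `el04_qM_rem`).
-/

set_option autoImplicit false

namespace Pool.Agent.CNX

open scoped ContDiff

variable {E : Type*} [NormedAddCommGroup E] [InnerProductSpace ℝ E]

theorem el10_near {ψ : E → ℝ} (hψ : ContDiff ℝ 2 ψ) {κ : ℝ} (hκ : 0 < κ) {v0 : E}
    (hv0 : ‖v0‖ = 1) (h : ∀ v' : E, ‖v'‖ = 1 → κ * ‖v' - v0‖ ^ 2 ≤ Rem ψ v0 v') :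
    ∃ r > 0, ∃ κ' > 0, ∀ v v' : E, ‖v‖ = 1 → ‖v'‖ = 1 → ‖v - v0‖ < r → ‖v' - v0‖ < r →
      κ' * ‖v' - v‖ ^ 2 ≤ Rem ψ v v' := by
  have hκ2 : (0 : ℝ) < 2 * κ := by linarith
  have htan : ∀ e : E, inner ℝ v0 e = 0 → 2 * κ * ‖e‖ ^ 2 ≤ H2 ψ v0 e :=
    fun e he => el05_tangential hψ hv0 h he
  obtain ⟨M, hM⟩ : ∃ M : ℝ, 2 * ‖fderiv ℝ (fderiv ℝ ψ) v0‖ ^ 2 / (2 * κ) + ‖fderiv ℝ (fderiv ℝ ψ) v0‖ + 2 * κ ≤ M :=
    ⟨_, le_rfl⟩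
  have hq : ContDiff ℝ 2 (fun x : E => qM M x) := (el04_qM_contDiff M).of_le (by norm_cast)
  have hF : ContDiff ℝ 2 (fun x : E => ψ x + qM M x) := hψ.add hq
  have h1 : ∀ k : E, κ * ‖k‖ ^ 2 ≤ H2 (fun x => ψ x + qM M x) v0 k := by
    intro k
    have h2 := el07_addM hψ hκ2 hv0 le_rfl htan hM k
    linarith
  obtain ⟨r, hr, hr2⟩ := el08_local hF hκ h1
  refine ⟨r, hr, κ / 4, by positivity, fun v v' hv hv' hvr hvr' => ?_⟩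
  have h3 := el02_taylor (κ := κ / 2) hF (convex_ball v0 r) (fun z hz k => hr2 z (by
    rwa [Metric.mem_ball, dist_eq_norm] at hz) k) (x := v) (y := v')
    (by rwa [Metric.mem_ball, dist_eq_norm]) (by rwa [Metric.mem_ball, dist_eq_norm])
  have h4 := (el03_add hψ hq v 0).2.2 v'
  rw [h4, el04_qM_rem M hv hv'] at h3
  linarith

end Pool.Agent.CNX
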