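import Mathlib
import Pool.Agent.CNX.ELDefs

/-!
# CNX, section 6, module EL_11 (difficulty 2)

PROOF. `Φ(v,v') = Rem ψ v v' - κ/2 ‖v'-v‖^2` is continuous on `E × E` (ψ is `C¹`; `Rem` = `ψ v' - ψ v - fderiv ℝ ψ v (v'-v)`,
use `Continuous.clm_apply`). The set `C = {v' | ‖v'‖ = 1 ∧ r ≤ ‖v'-v0‖}` is compact and `Φ(v0,v') ≥ κ/2 ‖v'-v0‖^2 > 0` on it.
By the tube lemma (`generalized_tube_lemma` with `{v0} ×ˢ C ⊆ {Φ > 0}`) there is a neighbourhood of `v0`.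
-/

set_option autoImplicit false

namespace Pool.Agent.CNX

open scoped ContDiff

variable {E : Type*} [NormedAddCommGroup E] [InnerProductSpace ℝ E] [FiniteDimensional ℝ E]

theorem el11_far {ψ : E → ℝ} (hψ : ContDiff ℝ 2 ψ) {κ : ℝ} (hκ : 0 < κ) {v0 : E}
    (h : ∀ v' : E, ‖v'‖ = 1 → κ * ‖v' - v0‖ ^ 2 ≤ Rem ψ v0 v') {r : ℝ} (hr : 0 < r) :
    ∃ δ > 0, ∀ v : E, ‖v - v0‖ < δ → ∀ v' : E, ‖v'‖ = 1 → r ≤ ‖v' - v0‖ →
      κ / 2 * ‖v' - v‖ ^ 2 ≤ Rem ψ v v' := by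
  have h12 : (1 : WithTop ℕ∞) ≤ 2 := by norm_num
  have hcd : Continuous fun x : E => fderiv ℝ ψ x := hψ.continuous_fderiv (by norm_num)
  have hc0 : Continuous ψ := hψ.continuous
  have hΦ : Continuous fun p : E × E => Rem ψ p.1 p.2 - κ / 2 * ‖p.2 - p.1‖ ^ 2 := by
    unfold Rem
    have h1 : Continuous fun p : E × E => (fderiv ℝ ψ p.1) (p.2 - p.1) :=
      (hcd.comp continuous_fst).clm_apply (continuous_snd.sub continuous_fst)
    have h2 : Continuous fun p : E × E => ψ p.2 := hc0.comp continuous_snd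
    have h3 : Continuous fun p : E × E => ψ p.1 := hc0.comp continuous_fst
    have h4 : Continuous fun p : E × E => κ / 2 * ‖p.2 - p.1‖ ^ 2 := by fun_prop
    exact ((h2.sub h3).sub h1).sub h4
  have hC : IsCompact {v' : E | ‖v'‖ = 1 ∧ r ≤ ‖v' - v0‖} := by
    have e : {v' : E | ‖v'‖ = 1 ∧ r ≤ ‖v' - v0‖} =
        Metric.sphere (0 : E) 1 ∩ {v' : E | r ≤ ‖v' - v0‖} := by
      ext v'
      simp
    rw [e]
    haveI : ProperSpace E := FiniteDimensional.proper ℝ E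
    exact (isCompact_sphere (0 : E) 1).inter_right (isClosed_le continuous_const (by fun_prop))
  have hopen : IsOpen {p : E × E | 0 < Rem ψ p.1 p.2 - κ / 2 * ‖p.2 - p.1‖ ^ 2} :=
    isOpen_lt continuous_const hΦ
  have hsub : ({v0} : Set E) ×ˢ {v' : E | ‖v'‖ = 1 ∧ r ≤ ‖v' - v0‖} ⊆
      {p : E × E | 0 < Rem ψ p.1 p.2 - κ / 2 * ‖p.2 - p.1‖ ^ 2} := by
    rintro ⟨a, b⟩ ⟨ha, hb1, hb2⟩
    have ha' : a = v0 := ha
    subst ha'
    show 0 < Rem ψ a b - κ / 2 * ‖b - a‖ ^ 2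
    have h5 := h b hb1
    have h6 : 0 < ‖b - a‖ := lt_of_lt_of_le hr hb2
    have h7 : 0 < κ / 2 * ‖b - a‖ ^ 2 := by positivity
    linarith
  obtain ⟨u, w, hu, -, hu0, hw, huw⟩ := generalized_tube_lemma isCompact_singleton hC hopen hsub
  obtain ⟨δ, hδ, hball⟩ := Metric.isOpen_iff.1 hu v0 (hu0 rfl)
  refine ⟨δ, hδ, fun v hv v' hv' hr' => ?_⟩
  have h8 : v ∈ u := hball (by rwa [Metric.mem_ball, dist_eq_norm])
  have h9 : (v, v') ∈ u ×ˢ w := ⟨h8, hw ⟨hv', hr'⟩⟩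
  have h10 : 0 < Rem ψ v v' - κ / 2 * ‖v' - v‖ ^ 2 := huw h9
  linarith

end Pool.Agent.CNX
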