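import Mathlib
import Pool.Agent.CNX.ELDefs
import Pool.Agent.CNX.EL_10
import Pool.Agent.CNX.EL_11

/-!
# CNX, section 6, module EL_12 (difficulty 1)

PROOF. `r, κ'` from `el10_near`; `δ` from `el11_far` with this `r`; take `min r δ` and `min κ' (κ/2)`.
-/

set_option autoImplicit false

namespace Pool.Agent.CNX

open scoped ContDiff

variable {E : Type*} [NormedAddCommGroup E] [InnerProductSpace ℝ E] [FiniteDimensional ℝ E]

theorem el12_stepC {ψ : E → ℝ} (hψ : ContDiff ℝ 2 ψ) {κ : ℝ} (hκ : 0 < κ) {v0 : E}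
    (hv0 : ‖v0‖ = 1) (h : ∀ v' : E, ‖v'‖ = 1 → κ * ‖v' - v0‖ ^ 2 ≤ Rem ψ v0 v') :
    ∃ δ > 0, ∃ κ' > 0, ∀ v : E, ‖v‖ = 1 → ‖v - v0‖ < δ → ∀ v' : E, ‖v'‖ = 1 →
      κ' * ‖v' - v‖ ^ 2 ≤ Rem ψ v v' := by
  obtain ⟨r, hr, κ', hκ', hnear⟩ := el10_near hψ hκ hv0 h
  obtain ⟨δ, hδ, hfar⟩ := el11_far hψ hκ h hr
  refine ⟨min r δ, lt_min hr hδ, min κ' (κ / 2), lt_min hκ' (by linarith), ?_⟩
  intro v hv hvd v' hv'
  have h1 : ‖v - v0‖ < r := lt_of_lt_of_le hvd (min_le_left _ _)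
  have h2 : ‖v - v0‖ < δ := lt_of_lt_of_le hvd (min_le_right _ _)
  by_cases hc : ‖v' - v0‖ < r
  · have h3 := hnear v v' hv hv' h1 hc
    have h4 : min κ' (κ / 2) * ‖v' - v‖ ^ 2 ≤ κ' * ‖v' - v‖ ^ 2 :=
      mul_le_mul_of_nonneg_right (min_le_left _ _) (by positivity)
    linarith
  · have h3 := hfar v h2 v' hv' (not_lt.mp hc)
    have h4 : min κ' (κ / 2) * ‖v' - v‖ ^ 2 ≤ κ / 2 * ‖v' - v‖ ^ 2 :=
      mul_le_mul_of_nonneg_right (min_le_right _ _) (by positivity)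
    linarith

end Pool.Agent.CNX
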