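import Mathlib
import Pool.Agent.CNX.ELDefs
import Pool.Agent.CNX.EL_12

/-!
# CNX, section 6, module EL_13 (difficulty 2)

PROOF. The unit sphere is compact; by `el12_stepC` every point `v0` has a neighbourhood (in the sphere) with a positive
constant; use `IsCompact.induction_on` with the property `P s := ∃ κ > 0, ∀ v ∈ s, ∀ v', ‖v'‖ = 1 → κ‖v'-v‖^2 ≤ Rem ψ v v'`
(monotone; union: take the min) on `Metric.sphere 0 1`.
-/

set_option autoImplicit false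

namespace Pool.Agent.CNX

open scoped ContDiff

variable {E : Type*} [NormedAddCommGroup E] [InnerProductSpace ℝ E] [FiniteDimensional ℝ E]

theorem el13_uniform {ψ : E → ℝ} (hψ : ContDiff ℝ 2 ψ)
    (h : ∀ v : E, ‖v‖ = 1 → ∃ κ > 0, ∀ v' : E, ‖v'‖ = 1 → κ * ‖v' - v‖ ^ 2 ≤ Rem ψ v v') :
    ∃ κ > 0, ∀ v v' : E, ‖v‖ = 1 → ‖v'‖ = 1 → κ * ‖v' - v‖ ^ 2 ≤ Rem ψ v v' := by
  haveI : ProperSpace E := FiniteDimensional.proper ℝ E
  have key : ∃ κ > 0, ∀ v ∈ Metric.sphere (0 : E) 1, ‖v‖ = 1 → ∀ v' : E, ‖v'‖ = 1 →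
      κ * ‖v' - v‖ ^ 2 ≤ Rem ψ v v' := by
    refine IsCompact.induction_on (p := fun s : Set E => ∃ κ > 0, ∀ v ∈ s, ‖v‖ = 1 →
      ∀ v' : E, ‖v'‖ = 1 → κ * ‖v' - v‖ ^ 2 ≤ Rem ψ v v') (isCompact_sphere (0 : E) 1) ?_ ?_ ?_ ?_
    · exact ⟨1, one_pos, fun v hv => absurd hv (Set.notMem_empty v)⟩
    · rintro s t hst ⟨κ, hκ, h1⟩
      exact ⟨κ, hκ, fun v hv => h1 v (hst hv)⟩
    · rintro s t ⟨κ₁, hκ₁, h1⟩ ⟨κ₂, hκ₂, h2⟩
      refine ⟨min κ₁ κ₂, lt_min hκ₁ hκ₂, fun v hv hv1 v' hv' => ?_⟩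
      rcases hv with hv | hv
      · exact (mul_le_mul_of_nonneg_right (min_le_left _ _) (sq_nonneg _)).trans (h1 v hv hv1 v' hv')
      · exact (mul_le_mul_of_nonneg_right (min_le_right _ _) (sq_nonneg _)).trans (h2 v hv hv1 v' hv')
    · intro v0 hv0
      have hv01 : ‖v0‖ = 1 := by simpa using hv0
      obtain ⟨κ, hκ, h1⟩ := h v0 hv01
      obtain ⟨δ, hδ, κ', hκ', h2⟩ := el12_stepC hψ hκ hv01 h1
      refine ⟨Metric.ball v0 δ, mem_nhdsWithin_of_mem_nhds (Metric.ball_mem_nhds v0 hδ), κ', hκ',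
        fun v hv hv1 v' hv' => h2 v hv1 ?_ v' hv'⟩
      rwa [Metric.mem_ball, dist_eq_norm] at hv
  obtain ⟨κ, hκ, h1⟩ := key
  exact ⟨κ, hκ, fun v v' hv hv' => h1 v (by simpa using hv) hv v' hv'⟩

end Pool.Agent.CNX
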