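import Mathlib
import Pool.Agent.CNX.ELDefs
import Pool.Agent.CNX.EL_02
import Pool.Agent.CNX.EL_03

/-!
# CNX, section 6, module EL_14 (difficulty 2)

PROOF. `fderiv ℝ (fderiv ℝ ψ)` is continuous, the closed unit ball is compact (proper space): bound `L` (take `≥ 1`).
`|H2 ψ x h| ≤ ‖..‖ ‖h‖^2`. Then `el02_taylor` on the closed ball with `κ = -L` for `ψ` gives `-L/2‖y-x‖^2 ≤ Rem ψ x y` and for
`-ψ` gives `Rem ψ x y ≤ L/2 ‖y-x‖^2` (`el03_neg`, `Rem (-ψ) = -Rem ψ`).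
-/

set_option autoImplicit false

namespace Pool.Agent.CNX

open scoped ContDiff

variable {E : Type*} [NormedAddCommGroup E] [InnerProductSpace ℝ E] [FiniteDimensional ℝ E]

theorem el14_bound {ψ : E → ℝ} (hψ : ContDiff ℝ 2 ψ) :
    ∃ L : ℝ, 0 < L ∧ (∀ x : E, ‖x‖ ≤ 1 → ‖fderiv ℝ (fderiv ℝ ψ) x‖ ≤ L) ∧
      (∀ x h : E, ‖x‖ ≤ 1 → |H2 ψ x h| ≤ L * ‖h‖ ^ 2) ∧
      ∀ x y : E, ‖x‖ ≤ 1 → ‖y‖ ≤ 1 → |Rem ψ x y| ≤ L * ‖y - x‖ ^ 2 := by
  have hc1 : ContDiff ℝ 1 (fderiv ℝ ψ) := hψ.fderiv_right (m := 1) (by norm_num)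
  have hc2 : Continuous (fderiv ℝ (fderiv ℝ ψ)) := hc1.continuous_fderiv (by norm_num)
  obtain ⟨L0, hL0⟩ := (isCompact_closedBall (0 : E) 1).exists_bound_of_continuousOn
    (f := fderiv ℝ (fderiv ℝ ψ)) hc2.continuousOn
  set L := max L0 1 with hL
  have hLpos : 0 < L := lt_of_lt_of_le one_pos (le_max_right _ _)
  have hb : ∀ x : E, ‖x‖ ≤ 1 → ‖fderiv ℝ (fderiv ℝ ψ) x‖ ≤ L := by
    intro x hx
    exact (hL0 x (by simpa using hx)).trans (le_max_left _ _)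
  have hH : ∀ x h : E, ‖x‖ ≤ 1 → |H2 ψ x h| ≤ L * ‖h‖ ^ 2 := by
    intro x h hx
    unfold H2
    have h1 := (fderiv ℝ (fderiv ℝ ψ) x).le_opNorm h
    have h2 := (fderiv ℝ (fderiv ℝ ψ) x h).le_opNorm h
    rw [Real.norm_eq_abs] at h2
    have h3 : ‖fderiv ℝ (fderiv ℝ ψ) x‖ * ‖h‖ * ‖h‖ ≤ L * ‖h‖ * ‖h‖ := by
      gcongr
      exact hb x hx
    have h4 : ‖fderiv ℝ (fderiv ℝ ψ) x h‖ * ‖h‖ ≤ ‖fderiv ℝ (fderiv ℝ ψ) x‖ * ‖h‖ * ‖h‖ := by
      gcongr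
    nlinarith
  refine ⟨L, hLpos, hb, hH, ?_⟩
  intro x y hx hy
  have hconv : Convex ℝ (Metric.closedBall (0 : E) 1) := convex_closedBall _ _
  have hxm : x ∈ Metric.closedBall (0 : E) 1 := by simpa using hx
  have hym : y ∈ Metric.closedBall (0 : E) 1 := by simpa using hy
  have h1 : -L / 2 * ‖y - x‖ ^ 2 ≤ Rem ψ x y := by
    refine el02_taylor hψ hconv (κ := -L) ?_ hxm hym
    intro z hz k
    have := (abs_le.mp (hH z k (by simpa using hz))).1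
    linarith
  have h2 : -L / 2 * ‖y - x‖ ^ 2 ≤ Rem (fun y => - ψ y) x y := by
    refine el02_taylor hψ.neg hconv (κ := -L) ?_ hxm hym
    intro z hz k
    have := (abs_le.mp (hH z k (by simpa using hz))).2
    have h3 : H2 (fun y => - ψ y) z k = - H2 ψ z k := el03_neg z k
    have h4 : H2 (-ψ) z k = - H2 ψ z k := h3
    first
      | rw [h4]; linarith
      | rw [h3]; linarith
  have h3 : Rem (fun y => - ψ y) x y = - Rem ψ x y := by
    unfold Rem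
    have : fderiv ℝ (fun y => - ψ y) x = - fderiv ℝ ψ x := by
      simpa using (fderiv_neg (f := ψ) (x := x) (𝕜 := ℝ))
    rw [this]
    simp
    ring
  rw [h3] at h2
  have h5 : 0 ≤ ‖y - x‖ ^ 2 := by positivity
  rw [abs_le]
  constructor
  · nlinarith
  · nlinarith

end Pool.Agent.CNX
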