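import Mathlib
import Pool.Agent.CNX.ELDefs

/-!
# CNX, section 6, module EL_15 (difficulty 2)

PROOF. First `e ⟂ v`, `‖e‖ = 1`: `γ t = cos t • v + sin t • e` is a unit vector, `f t = φ (γ t) - ⟪p, γ t⟫` has a minimum
at `0`, so `f' 0 = fderiv ℝ φ v e - ⟪p,e⟫ = 0` (`IsLocalMin.hasDerivAt_eq_zero`). By scaling for all `e ⟂ v`. In general
`x = ⟪v,x⟫ v + e`.
-/

set_option autoImplicit false

namespace Pool.Agent.CNX

open scoped ContDiff

variable {E : Type*} [NormedAddCommGroup E] [InnerProductSpace ℝ E]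

lemma el15_perp {φ : E → ℝ} (hφ : ContDiff ℝ 2 φ) {p v : E} (h : IsMinS φ p v) {e : E}
    (hev : inner ℝ v e = 0) (he : ‖e‖ = 1) : fderiv ℝ φ v e - inner ℝ p e = 0 := by
  obtain ⟨hv, hmin⟩ := h
  have hd : Differentiable ℝ φ := hφ.differentiable (by norm_num)
  have hγ : HasDerivAt (fun t : ℝ => Real.cos t • v + Real.sin t • e)
      ((-Real.sin 0) • v + Real.cos 0 • e) 0 :=
    ((Real.hasDerivAt_cos 0).smul_const v).add ((Real.hasDerivAt_sin 0).smul_const e)
  have hγ0 : (fun t : ℝ => Real.cos t • v + Real.sin t • e) 0 = v := by simp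
  have hγ' : HasDerivAt (fun t : ℝ => Real.cos t • v + Real.sin t • e) e 0 := by
    simpa using hγ
  have hφ' : HasDerivAt (fun t : ℝ => φ (Real.cos t • v + Real.sin t • e)) (fderiv ℝ φ v e) 0 := by
    have h1 : HasFDerivAt φ (fderiv ℝ φ v) ((fun t : ℝ => Real.cos t • v + Real.sin t • e) 0) := by
      rw [hγ0]; exact (hd v).hasFDerivAt
    exact h1.comp_hasDerivAt (0 : ℝ) hγ'
  have hp' : HasDerivAt (fun t : ℝ => inner ℝ p (Real.cos t • v + Real.sin t • e)) (inner ℝ p e) 0 := by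
    have h2 := (innerSL ℝ p).hasFDerivAt (x := (fun t : ℝ => Real.cos t • v + Real.sin t • e) 0)
    have h3 := h2.comp_hasDerivAt (0 : ℝ) hγ'
    simpa [Function.comp_def] using h3
  have hf := hφ'.sub hp'
  have hnorm : ∀ t : ℝ, ‖Real.cos t • v + Real.sin t • e‖ = 1 := by
    intro t
    have h4 : ‖Real.cos t • v + Real.sin t • e‖ ^ 2 = 1 := by
      rw [norm_add_sq_real, norm_smul, norm_smul, real_inner_smul_left, real_inner_smul_right,
        hev, hv, he]
      simp only [Real.norm_eq_abs, mul_one, mul_zero, add_zero, sq_abs]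
      nlinarith [Real.sin_sq_add_cos_sq t]
    have h5 := norm_nonneg (Real.cos t • v + Real.sin t • e)
    nlinarith
  have hloc : IsLocalMin ((fun t : ℝ => φ (Real.cos t • v + Real.sin t • e)) -
      (fun t : ℝ => inner ℝ p (Real.cos t • v + Real.sin t • e))) 0 := by
    refine Filter.Eventually.of_forall fun t => ?_
    have h6 := hmin (Real.cos t • v + Real.sin t • e) (hnorm t)
    simpa using h6
  exact hloc.hasDerivAt_eq_zero hf

lemma el15_perp2 {φ : E → ℝ} (hφ : ContDiff ℝ 2 φ) {p v : E} (h : IsMinS φ p v) {e : E}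
    (hev : inner ℝ v e = 0) : fderiv ℝ φ v e - inner ℝ p e = 0 := by
  by_cases he : e = 0
  · simp [he]
  have hne : ‖e‖ ≠ 0 := norm_ne_zero_iff.mpr he
  have h1 := el15_perp hφ h (e := (‖e‖)⁻¹ • e) (by rw [real_inner_smul_right, hev, mul_zero])
    (by rw [norm_smul, norm_inv, norm_norm, inv_mul_cancel₀ hne])
  rw [map_smul, real_inner_smul_right, smul_eq_mul, ← mul_sub] at h1
  exact (mul_eq_zero.mp h1).resolve_left (inv_ne_zero hne)

theorem el15_lagrange {φ : E → ℝ} (hφ : ContDiff ℝ 2 φ) {p v : E} (h : IsMinS φ p v) (x : E) :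
    fderiv ℝ φ v x - inner ℝ p x = (fderiv ℝ φ v v - inner ℝ p v) * inner ℝ v x := by
  have hv : inner ℝ v v = (1 : ℝ) := by rw [real_inner_self_eq_norm_sq, h.1]; norm_num
  have h1 := el15_perp2 hφ h (e := x - (inner ℝ v x) • v)
    (by rw [inner_sub_right, real_inner_smul_right, hv]; ring)
  rw [map_sub, map_smul, inner_sub_right, real_inner_smul_right, smul_eq_mul] at h1
  linarith

end Pool.Agent.CNX
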