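import Mathlib
import Pool.Agent.CNX.ELDefs
import Pool.Agent.CNX.EL_15

/-!
# CNX, section 6, module EL_16 (difficulty 2)

PROOF. Growth gives `v₀, κ` with `φ v₀ - ⟪p,v₀⟫ + κ‖v'-v₀‖^2 ≤ φ v' - ⟪p,v'⟫`. Taking `v' = v` and `IsMinS` at `v₀`: `v = v₀`.
By `el15_lagrange`, `fderiv ℝ φ v (v'-v) - ⟪p,v'-v⟫ = (fderiv ℝ φ v v - ⟪p,v⟫) ⟪v,v'-v⟫` and `⟪v,v'-v⟫ = -‖v'-v‖^2/2` for unit
vectors. So `Rem φ v v' + (⟪p,v⟫ - fderiv ℝ φ v v)/2 ‖v'-v‖^2 = φ v' - φ v - ⟪p,v'-v⟫ ≥ κ‖v'-v‖^2`.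
-/

set_option autoImplicit false

namespace Pool.Agent.CNX

open scoped ContDiff

variable {E : Type*} [NormedAddCommGroup E] [InnerProductSpace ℝ E]

theorem el16_growth {φ : E → ℝ} (hφ : ContDiff ℝ 2 φ) {p v : E} (hg : GrowthE φ p)
    (h : IsMinS φ p v) : ∃ κ > 0, ∀ v' : E, ‖v'‖ = 1 →
      κ * ‖v' - v‖ ^ 2 ≤ Rem φ v v' + (inner ℝ p v - fderiv ℝ φ v v) / 2 * ‖v' - v‖ ^ 2 := by
  obtain ⟨v₀, hv₀, κ, hκ, hgr⟩ := hg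
  obtain ⟨hv, hmin⟩ := h
  have h1 := hgr v hv
  have h2 := hmin v₀ hv₀
  have h3 : κ * ‖v - v₀‖ ^ 2 ≤ 0 := by linarith
  have h4 : ‖v - v₀‖ ^ 2 ≤ 0 := by
    by_contra hcon
    push Not at hcon
    have := mul_pos hκ hcon
    linarith
  have h5 : v = v₀ := by
    have h6 : ‖v - v₀‖ = 0 := by
      have := sq_nonneg ‖v - v₀‖
      have h7 : ‖v - v₀‖ ^ 2 = 0 := le_antisymm h4 this
      exact pow_eq_zero_iff (two_ne_zero) |>.mp h7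
    exact sub_eq_zero.mp (norm_eq_zero.mp h6)
  subst h5
  refine ⟨κ, hκ, fun v' hv' => ?_⟩
  have h8 := hgr v' hv'
  have h9 := el15_lagrange hφ (⟨hv, hmin⟩ : IsMinS φ p v) (v' - v)
  have h10 : inner ℝ v (v' - v) = -(‖v' - v‖ ^ 2) / 2 := by
    have e1 : ‖v' - v‖ ^ 2 = ‖v'‖ ^ 2 - 2 * inner ℝ v' v + ‖v‖ ^ 2 := norm_sub_sq_real v' v
    have e2 : inner ℝ v (v' - v) = inner ℝ v v' - inner ℝ v v := inner_sub_right v v' v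
    have e3 : inner ℝ v v = ‖v‖ ^ 2 := real_inner_self_eq_norm_sq v
    have e4 : inner ℝ v v' = inner ℝ v' v := real_inner_comm v' v
    rw [e2, e3, e4, e1, hv, hv']
    ring
  have h11 : inner ℝ p (v' - v) = inner ℝ p v' - inner ℝ p v := inner_sub_right p v' v
  rw [h10, h11] at h9
  unfold Rem
  linarith [h8, h9]

end Pool.Agent.CNX
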