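import Mathlib
import Pool.Agent.CNX.ELDefs
import Pool.Agent.CNX.EL_14
import Pool.Agent.CNX.EL_16

/-!
# CNX, section 6, module EL_17 (difficulty 2)

PROOF. `Kv = {p ∈ K | IsMinS φ p v}` is closed in `K` (intersection of closed conditions in `p`), so compact. If `Kv` is empty:
`c = 2L+2`, `κ = 1`, `L` from `el14_bound` (`Rem ≥ -L‖v'-v‖^2`). Otherwise let `p*` minimise the continuous function
`p ↦ ⟪p,v⟫` on `Kv`, `κ*` from `el16_growth` for `p*`, `c = ⟪p*,v⟫ - fderiv ℝ φ v v - κ*`, `κ = κ*/2`.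
-/

set_option autoImplicit false

namespace Pool.Agent.CNX

open scoped ContDiff

variable {E : Type*} [NormedAddCommGroup E] [InnerProductSpace ℝ E] [FiniteDimensional ℝ E]

theorem el17_choose {φ : E → ℝ} (hφ : ContDiff ℝ 2 φ) {K : Set E} (hK : IsCompact K)
    (hg : ∀ p ∈ K, GrowthE φ p) {v : E} (hv : ‖v‖ = 1) :
    ∃ c : ℝ, (∃ κ > 0, ∀ v' : E, ‖v'‖ = 1 →
        κ * ‖v' - v‖ ^ 2 ≤ Rem φ v v' + c / 2 * ‖v' - v‖ ^ 2) ∧
      ∀ p ∈ K, IsMinS φ p v → c < inner ℝ p v - fderiv ℝ φ v v := by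
  have hcl : IsClosed {p : E | IsMinS φ p v} := by
    have e : {p : E | IsMinS φ p v} =
        ⋂ v' : E, ⋂ _ : ‖v'‖ = 1, {p : E | φ v - inner ℝ p v ≤ φ v' - inner ℝ p v'} := by
      ext p
      simp only [Set.mem_setOf_eq, Set.mem_iInter]
      exact ⟨fun h1 v' hv' => h1.2 v' hv', fun h1 => ⟨hv, h1⟩⟩
    rw [e]
    refine isClosed_iInter fun v' => isClosed_iInter fun _ => ?_
    exact isClosed_le (by fun_prop) (by fun_prop)
  have hKv : IsCompact (K ∩ {p : E | IsMinS φ p v}) := hK.inter_right hcl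
  rcases (K ∩ {p : E | IsMinS φ p v}).eq_empty_or_nonempty with he | hne
  · obtain ⟨L, hL0, -, -, hL⟩ := el14_bound hφ
    refine ⟨2 * L + 2, ⟨1, one_pos, fun v' hv' => ?_⟩, fun p hp hm => ?_⟩
    · have h1 := (abs_le.1 (hL v v' hv.le hv'.le)).1
      linarith
    · exfalso
      have h1 : p ∈ K ∩ {p : E | IsMinS φ p v} := ⟨hp, hm⟩
      rw [he] at h1
      exact h1
  · have hc : Continuous fun p : E => (inner ℝ p v : ℝ) := by fun_prop
    obtain ⟨p, hp, hmin⟩ := hKv.exists_isMinOn hne hc.continuousOn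
    obtain ⟨κ, hκ, h1⟩ := el16_growth hφ (hg p hp.1) hp.2
    refine ⟨inner ℝ p v - fderiv ℝ φ v v - κ, ⟨κ / 2, by linarith, fun v' hv' => ?_⟩,
      fun q hq hm => ?_⟩
    · have h2 := h1 v' hv'
      linarith
    · have h2 : (inner ℝ p v : ℝ) ≤ inner ℝ q v := isMinOn_iff.1 hmin q ⟨hq, hm⟩
      linarith

end Pool.Agent.CNX
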