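import Mathlib
import Pool.Agent.CNX.ELDefs

/-!
# CNX, section 6, module EL_18 (difficulty 2)

PROOF. The set is the image under the second projection of `{(p,v) ∈ K × E | ...}`; projection along a compact factor is a closed
map; or with sequences: `v_n → v`, `p_n ∈ K`, subsequence `p_n → p ∈ K`, all conditions pass to the limit
(`IsCompact.tendsto_subseq`, `isClosed_of_closure_subset` / `IsSeqClosed.isClosed`). Continuity of `v ↦ fderiv ℝ φ v v` (`C²`).
-/

set_option autoImplicit false

namespace Pool.Agent.CNX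

open scoped ContDiff

variable {E : Type*} [NormedAddCommGroup E] [InnerProductSpace ℝ E]

theorem el18_closed {φ : E → ℝ} (hφ : ContDiff ℝ 2 φ) {K : Set E} (hK : IsCompact K) (c : ℝ) :
    IsClosed {v : E | ∃ p ∈ K, IsMinS φ p v ∧ inner ℝ p v - fderiv ℝ φ v v ≤ c} := by
  apply IsSeqClosed.isClosed
  intro vs v hvs hv
  choose p hpK hmin hle using hvs
  obtain ⟨p0, hp0, s, hs, hlim⟩ := hK.tendsto_subseq hpK
  have hv' : Filter.Tendsto (vs ∘ s) Filter.atTop (nhds v) := hv.comp hs.tendsto_atTop
  have hφc : Continuous φ := hφ.continuous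
  have hfd : Continuous (fun v : E => fderiv ℝ φ v v) :=
    (hφ.continuous_fderiv (by norm_num)).clm_apply continuous_id
  have hin : Filter.Tendsto (fun n => inner ℝ (p (s n)) (vs (s n))) Filter.atTop
      (nhds (inner ℝ p0 v)) := hlim.inner hv'
  refine ⟨p0, hp0, ⟨?_, fun v' hv1 => ?_⟩, ?_⟩
  · have h1 : Filter.Tendsto (fun n => ‖vs (s n)‖) Filter.atTop (nhds ‖v‖) := hv'.norm
    have h2 : (fun n => ‖vs (s n)‖) = fun _ => (1 : ℝ) := by
      funext n; exact (hmin (s n)).1
    rw [h2] at h1
    exact (tendsto_nhds_unique h1 tendsto_const_nhds)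
  · have h1 : Filter.Tendsto (fun n => φ (vs (s n)) - inner ℝ (p (s n)) (vs (s n))) Filter.atTop
        (nhds (φ v - inner ℝ p0 v)) := ((hφc.tendsto v).comp hv').sub hin
    have h2 : Filter.Tendsto (fun n => φ v' - inner ℝ (p (s n)) v') Filter.atTop
        (nhds (φ v' - inner ℝ p0 v')) :=
      tendsto_const_nhds.sub (hlim.inner tendsto_const_nhds)
    exact le_of_tendsto_of_tendsto' h1 h2 (fun n => (hmin (s n)).2 v' hv1)
  · have h1 : Filter.Tendsto (fun n => inner ℝ (p (s n)) (vs (s n))
        - fderiv ℝ φ (vs (s n)) (vs (s n))) Filter.atTop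
        (nhds (inner ℝ p0 v - fderiv ℝ φ v v)) := hin.sub ((hfd.tendsto v).comp hv')
    exact le_of_tendsto' h1 (fun n => hle (s n))

end Pool.Agent.CNX
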