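import Mathlib
import Pool.Agent.CNX.ELDefs
import Pool.Agent.CNX.EL_03
import Pool.Agent.CNX.EL_04
import Pool.Agent.CNX.EL_12
import Pool.Agent.CNX.EL_17
import Pool.Agent.CNX.EL_18

/-!
# CNX, section 6, module EL_19 (difficulty 2)

PROOF. `c` from `el17_choose` at `v0`. `ψ = φ + c/2‖·‖^2`: `Rem ψ v v' = Rem φ v v' + c/2‖v'-v‖^2` (`el03_add`, `el04_sq`), so
`el12_stepC` gives `δ₁, κ'`. `v0` is not in the closed set of `el18_closed` (for this `c`), so a ball of radius `δ₂` around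
`v0` misses it. Take `min δ₁ δ₂`.
-/

set_option autoImplicit false

namespace Pool.Agent.CNX

open scoped ContDiff

variable {E : Type*} [NormedAddCommGroup E] [InnerProductSpace ℝ E] [FiniteDimensional ℝ E]

theorem el19_local {φ : E → ℝ} (hφ : ContDiff ℝ 2 φ) {K : Set E} (hK : IsCompact K)
    (hg : ∀ p ∈ K, GrowthE φ p) {v0 : E} (hv0 : ‖v0‖ = 1) :
    ∃ c : ℝ, ∃ δ > 0, ∀ v : E, ‖v‖ = 1 → ‖v - v0‖ < δ →
      (∃ κ > 0, ∀ v' : E, ‖v'‖ = 1 →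
        κ * ‖v' - v‖ ^ 2 ≤ Rem φ v v' + c / 2 * ‖v' - v‖ ^ 2) ∧
      ∀ p ∈ K, IsMinS φ p v → c < inner ℝ p v - fderiv ℝ φ v v := by
  obtain ⟨c, ⟨κ, hκ, h1⟩, h2⟩ := el17_choose hφ hK hg hv0
  have h2le : (2 : WithTop ℕ∞) ≤ ((⊤ : ℕ∞) : WithTop ℕ∞) := by
    show ((2 : ℕ∞) : WithTop ℕ∞) ≤ _
    exact WithTop.coe_le_coe.2 le_top
  have hq : ContDiff ℝ 2 (fun x : E => c / 2 * ‖x‖ ^ 2) := (el04_sq (E := E) c 0 0).1.of_le h2le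
  have hrem : ∀ x y : E, Rem (fun x : E => φ x + c / 2 * ‖x‖ ^ 2) x y =
      Rem φ x y + c / 2 * ‖y - x‖ ^ 2 := by
    intro x y
    rw [(el03_add hφ hq x 0).2.2 y, (el04_sq (E := E) c x 0).2.2.2 y]
  obtain ⟨δ₁, hδ₁, κ', hκ', h3⟩ := el12_stepC (ψ := fun x : E => φ x + c / 2 * ‖x‖ ^ 2)
    (hφ.add hq) hκ hv0 (fun v' hv' => by rw [hrem]; exact h1 v' hv')
  have hcl := el18_closed hφ hK c
  have hmem : v0 ∈ {v : E | ∃ p ∈ K, IsMinS φ p v ∧ inner ℝ p v - fderiv ℝ φ v v ≤ c}ᶜ := by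
    rintro ⟨p, hp, hm, hle⟩
    exact absurd (h2 p hp hm) (not_lt.2 hle)
  obtain ⟨δ₂, hδ₂, hball⟩ := Metric.isOpen_iff.1 hcl.isOpen_compl v0 hmem
  refine ⟨c, min δ₁ δ₂, lt_min hδ₁ hδ₂, fun v hv hvd => ⟨⟨κ', hκ', fun v' hv' => ?_⟩,
    fun p hp hm => ?_⟩⟩
  · have h4 := h3 v hv (lt_of_lt_of_le hvd (min_le_left _ _)) v' hv'
    rwa [hrem] at h4
  · by_contra hcon
    have h5 : v ∈ Metric.ball v0 δ₂ := by
      rw [Metric.mem_ball, dist_eq_norm]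
      exact lt_of_lt_of_le hvd (min_le_right _ _)
    exact hball h5 ⟨p, hp, hm, not_lt.1 hcon⟩

end Pool.Agent.CNX
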