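import Mathlib
import Pool.Agent.CNX.ELDefs
import Pool.Agent.CNX.EL_19

/-!
# CNX, section 6, module EL_20 (difficulty 3)

PROOF. `t v = {c | ‖v‖ = 1 → (∃ κ > 0, ...) ∧ ∀ p ∈ K, ...}` is convex (an interval: if `c, c'` are in it and `0 ≤ a, b`, `a+b=1`,
use the convex combination of the two inequalities, `κ'' = aκ + bκ'` or `min`). For `‖v0‖ ≠ 1` any constant works nearby
(`{‖v‖ ≠ 1}` is open); for `‖v0‖ = 1` use `el19_local`. Then `exists_contMDiffMap_forall_mem_convex_of_local_const`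
(Mathlib.Geometry.Manifold.PartitionOfUnity) with `I = modelWithCornersSelf ℝ E`, `n = ∞`, `F = ℝ` and
`ContMDiff.contDiff` / `contMDiff_iff_contDiff`. (`E` is sigma-compact: `haveI := FiniteDimensional.proper ℝ E`.)
-/

set_option autoImplicit false

namespace Pool.Agent.CNX

open scoped ContDiff

variable {E : Type*} [NormedAddCommGroup E] [InnerProductSpace ℝ E] [FiniteDimensional ℝ E]

/-- the admissible values at `v` -/
def el20_t (φ : E → ℝ) (K : Set E) (v : E) : Set ℝ :=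
  {c | ‖v‖ = 1 → (∃ κ > 0, ∀ v' : E, ‖v'‖ = 1 →
        κ * ‖v' - v‖ ^ 2 ≤ Rem φ v v' + c / 2 * ‖v' - v‖ ^ 2) ∧
      ∀ p ∈ K, IsMinS φ p v → c < inner ℝ p v - fderiv ℝ φ v v}

omit [FiniteDimensional ℝ E] in
theorem el20_convex (φ : E → ℝ) (K : Set E) (v : E) : Convex ℝ (el20_t φ K v) := by
  intro c hc d hd a b ha hb hab hv
  obtain ⟨⟨κ, hκ, h1⟩, h2⟩ := hc hv
  obtain ⟨⟨κ', hκ', h1'⟩, h2'⟩ := hd hv
  have hb' : b = 1 - a := by linarith
  subst hb'
  refine ⟨⟨a * κ + (1 - a) * κ', ?_, ?_⟩, ?_⟩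
  · rcases ha.eq_or_lt with h | h
    · rw [← h]; linarith
    · have := mul_pos h hκ
      have := mul_nonneg hb hκ'.le
      linarith
  · intro v' hv'
    have e1 := mul_le_mul_of_nonneg_left (h1 v' hv') ha
    have e2 := mul_le_mul_of_nonneg_left (h1' v' hv') hb
    simp only [smul_eq_mul]
    nlinarith [e1, e2]
  · intro p hp hm
    have e1 := h2 p hp hm
    have e2 := h2' p hp hm
    simp only [smul_eq_mul]
    rcases ha.eq_or_lt with h | h
    · rw [← h]; linarith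
    · have e3 := mul_lt_mul_of_pos_left e1 h
      have e4 := mul_le_mul_of_nonneg_left e2.le hb
      nlinarith [e3, e4]

theorem el20_selection {φ : E → ℝ} (hφ : ContDiff ℝ 2 φ) {K : Set E} (hK : IsCompact K)
    (hg : ∀ p ∈ K, GrowthE φ p) :
    ∃ σ : E → ℝ, ContDiff ℝ ∞ σ ∧ ∀ v : E, ‖v‖ = 1 →
      (∃ κ > 0, ∀ v' : E, ‖v'‖ = 1 →
        κ * ‖v' - v‖ ^ 2 ≤ Rem φ v v' + σ v / 2 * ‖v' - v‖ ^ 2) ∧
      ∀ p ∈ K, IsMinS φ p v → σ v < inner ℝ p v - fderiv ℝ φ v v := by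
  haveI : ProperSpace E := FiniteDimensional.proper ℝ E
  obtain ⟨g, hg'⟩ := exists_contMDiffMap_forall_mem_convex_of_local_const
    (n := ⊤) (I := modelWithCornersSelf ℝ E) (t := el20_t φ K)
    (fun v => el20_convex φ K v) (by
      intro x
      by_cases hx : ‖x‖ = 1
      · obtain ⟨c, δ, hδ, h⟩ := el19_local hφ hK hg hx
        refine ⟨c, ?_⟩
        filter_upwards [Metric.ball_mem_nhds x hδ] with y hy hy1
        exact h y hy1 (by simpa [dist_eq_norm] using hy)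
      · refine ⟨0, ?_⟩
        have : ∀ᶠ y : E in nhds x, ‖y‖ ≠ 1 :=
          (isOpen_ne.preimage continuous_norm).mem_nhds hx
        filter_upwards [this] with y hy hy1
        exact absurd hy1 hy)
  exact ⟨g, contMDiff_iff_contDiff.1 g.contMDiff, fun v hv => hg' v hv⟩

end Pool.Agent.CNX
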