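import Mathlib
import Pool.Agent.CNX.ELDefs

/-!
# CNX, section 6, module EL_21 (difficulty 2)

PROOF. Product rule: the derivative of `x ↦ (1-‖x‖^2) * a x` at a unit vector `v` is `h ↦ -2⟪v,h⟫ a v` (the term with the factor
`1-‖v‖^2` vanishes). `Rem`: values at unit vectors are those of `φ`; `⟪v,v'-v⟫ = -‖v'-v‖^2/2`.
-/

set_option autoImplicit false

namespace Pool.Agent.CNX

open scoped ContDiff

variable {E : Type*} [NormedAddCommGroup E] [InnerProductSpace ℝ E]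

theorem el21_bdry {φ a : E → ℝ} (hφ : ContDiff ℝ ∞ φ) (ha : ContDiff ℝ ∞ a) :
    ContDiff ℝ ∞ (fun x => φ x + (1 - ‖x‖ ^ 2) * a x) ∧
    (∀ v h : E, ‖v‖ = 1 → fderiv ℝ (fun x => φ x + (1 - ‖x‖ ^ 2) * a x) v h =
      fderiv ℝ φ v h - 2 * a v * inner ℝ v h) ∧
    ∀ v v' : E, ‖v‖ = 1 → ‖v'‖ = 1 →
      Rem (fun x => φ x + (1 - ‖x‖ ^ 2) * a x) v v' = Rem φ v v' - a v * ‖v' - v‖ ^ 2 := by
  have hfd : ∀ v h : E, ‖v‖ = 1 → fderiv ℝ (fun x => φ x + (1 - ‖x‖ ^ 2) * a x) v h =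
      fderiv ℝ φ v h - 2 * a v * inner ℝ v h := by
    intro v h hv
    have hne : (∞ : WithTop ℕ∞) ≠ 0 := by simp
    have h1 : HasFDerivAt φ (fderiv ℝ φ v) v := (hφ.differentiable hne v).hasFDerivAt
    have h2 : HasFDerivAt a (fderiv ℝ a v) v := (ha.differentiable hne v).hasFDerivAt
    have h3 : HasFDerivAt (fun x : E => ‖x‖ ^ 2) (2 • (innerSL ℝ v)) v :=
      (hasStrictFDerivAt_norm_sq v).hasFDerivAt
    have h4 : HasFDerivAt (fun x : E => 1 - ‖x‖ ^ 2) (-(2 • (innerSL ℝ v))) v :=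
      h3.const_sub 1
    have h5 := h1.add (h4.mul h2)
    have h6 : fderiv ℝ (fun x => φ x + (1 - ‖x‖ ^ 2) * a x) v =
        fderiv ℝ φ v + ((1 - ‖v‖ ^ 2) • fderiv ℝ a v + a v • (-(2 • (innerSL ℝ v)))) := h5.fderiv
    rw [h6, hv]
    simp
    ring
  refine ⟨hφ.add ((contDiff_const.sub (contDiff_norm_sq ℝ)).mul ha), hfd, ?_⟩
  intro v v' hv hv'
  have h1 : (inner ℝ v (v' - v) : ℝ) = -(‖v' - v‖ ^ 2) / 2 := by
    have e1 : ‖v' - v‖ ^ 2 = ‖v'‖ ^ 2 - 2 * inner ℝ v' v + ‖v‖ ^ 2 := norm_sub_sq_real v' v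
    have e2 : (inner ℝ v (v' - v) : ℝ) = inner ℝ v v' - inner ℝ v v := inner_sub_right _ _ _
    have e3 : (inner ℝ v v : ℝ) = ‖v‖ ^ 2 := real_inner_self_eq_norm_sq v
    have e4 : (inner ℝ v' v : ℝ) = inner ℝ v v' := real_inner_comm _ _
    rw [e2, e1, e3, e4, hv, hv']
    ring
  unfold Rem
  rw [hfd v (v' - v) hv, h1]
  simp only [hv, hv']
  ring

end Pool.Agent.CNX
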