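import Mathlib
import Pool.Agent.CNX.ELDefs
import Pool.Agent.CNX.EL_03
import Pool.Agent.CNX.EL_04
import Pool.Agent.CNX.EL_05
import Pool.Agent.CNX.EL_07
import Pool.Agent.CNX.EL_09
import Pool.Agent.CNX.EL_13
import Pool.Agent.CNX.EL_14
import Pool.Agent.CNX.EL_15
import Pool.Agent.CNX.EL_16
import Pool.Agent.CNX.EL_20
import Pool.Agent.CNX.EL_21

/-!
# CNX, section 6, module EL_22 (difficulty 3)

PROOF. `σ` from `el20_selection`. `ψ₁ x = φ x + (1-‖x‖^2) * (-(σ x)/2)`: by `el21_bdry`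
`Rem ψ₁ v v' = Rem φ v v' + σ v/2 ‖v'-v‖^2`, `fderiv ψ₁ v h = fderiv φ v h + σ v ⟪v,h⟫`. `el13_uniform`: uniform `κ₀`.
`el05_tangential`: `2κ₀‖e‖^2 ≤ H2 ψ₁ v e` (`e ⟂ v`, `‖v‖=1`). `L` from `el14_bound` for `ψ₁`, `M = 2L^2/(2κ₀) + L + 2κ₀`.
`A₀ = -σ/2 + M/8 (1-‖x‖^2)`, so `ψ = φ + (1-‖x‖^2) A₀ = ψ₁ + qM M`; `el07_addM`: `κ₀‖k‖^2 ≤ H2 ψ v k` on the sphere;
`el09_annulus`: `η`, `κ₀/2`. `Rem ψ = Rem ψ₁` on the sphere (`el03_add`, `el04_qM_rem`). Take `κ = κ₀/2`.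
For `p ∈ K`: `GrowthE` gives a minimiser `v` (`IsMinS φ p v`), `el15_lagrange`:
`fderiv φ v h - ⟪p,h⟫ = (fderiv φ v v - ⟪p,v⟫)⟪v,h⟫`, so `fderiv ψ v h - ⟪p,h⟫ = -(⟪p,v⟫ - fderiv φ v v - σ v)⟪v,h⟫`, `k > 0`.
-/

set_option autoImplicit false

namespace Pool.Agent.CNX

open scoped ContDiff

variable {E : Type*} [NormedAddCommGroup E] [InnerProductSpace ℝ E] [FiniteDimensional ℝ E]

omit [InnerProductSpace ℝ E] [FiniteDimensional ℝ E] in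
theorem el22_eq (φ σ : E → ℝ) (M : ℝ) :
    (fun x : E => φ x + (1 - ‖x‖ ^ 2) * (-(σ x) / 2 + M / 8 * (1 - ‖x‖ ^ 2))) =
      fun x => (φ x + (1 - ‖x‖ ^ 2) * (-(σ x) / 2)) + qM M x := by
  funext x
  unfold qM
  ring

theorem el22_part1 {φ : E → ℝ} (hφ : ContDiff ℝ ∞ φ) {K : Set E} (hK : IsCompact K)
    (hg : ∀ p ∈ K, GrowthE φ p) :
    ∃ A₀ : E → ℝ, ContDiff ℝ ∞ A₀ ∧ ∃ κ > 0,
      (∀ v v' : E, ‖v‖ = 1 → ‖v'‖ = 1 →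
        κ * ‖v' - v‖ ^ 2 ≤ Rem (fun x => φ x + (1 - ‖x‖ ^ 2) * A₀ x) v v') ∧
      (∃ η : ℝ, 0 < η ∧ η < 1 ∧ ∀ x : E, 1 - η ≤ ‖x‖ → ‖x‖ ≤ 1 → ∀ k : E,
        κ * ‖k‖ ^ 2 ≤ H2 (fun x => φ x + (1 - ‖x‖ ^ 2) * A₀ x) x k) ∧
      ∀ p ∈ K, ∃ v : E, ‖v‖ = 1 ∧ ∃ k : ℝ, 0 < k ∧ ∀ h : E,
        fderiv ℝ (fun x => φ x + (1 - ‖x‖ ^ 2) * A₀ x) v h - inner ℝ p h = -k * inner ℝ v h := by
  obtain ⟨σ, hσ, hsel⟩ := el20_selection (hφ.of_le (by norm_cast)) hK hg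
  have ha : ContDiff ℝ ∞ (fun x : E => -(σ x) / 2) := (hσ.neg).div_const 2
  obtain ⟨hψ, hψd, hψr⟩ := el21_bdry hφ ha
  set ψ₁ : E → ℝ := fun x => φ x + (1 - ‖x‖ ^ 2) * (-(σ x) / 2) with hψ₁
  have hψ2 : ContDiff ℝ 2 ψ₁ := hψ.of_le (by norm_cast)
  have hr : ∀ v v' : E, ‖v‖ = 1 → ‖v'‖ = 1 →
      Rem ψ₁ v v' = Rem φ v v' + σ v / 2 * ‖v' - v‖ ^ 2 := by
    intro v v' hv hv'
    rw [hψr v v' hv hv']
    ring
  obtain ⟨κ, hκ, huni⟩ := el13_uniform hψ2 (by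
    intro v hv
    obtain ⟨⟨κ, hκ, h⟩, -⟩ := hsel v hv
    refine ⟨κ, hκ, fun v' hv' => ?_⟩
    rw [hr v v' hv hv']
    exact h v' hv')
  obtain ⟨L, hL, hL1, -, -⟩ := el14_bound hψ2
  set M : ℝ := 2 * L ^ 2 / (2 * κ) + L + 2 * κ with hM
  have hq : ContDiff ℝ ∞ (fun x : E => qM M x) := el04_qM_contDiff M
  have hq2 : ContDiff ℝ 2 (fun x : E => qM M x) := hq.of_le (by norm_cast)
  have hsph : ∀ v : E, ‖v‖ = 1 → ∀ k : E, κ * ‖k‖ ^ 2 ≤ H2 (fun x => ψ₁ x + qM M x) v k := by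
    intro v hv k
    have h := el07_addM hψ2 (κ := 2 * κ) (by linarith) hv (hL1 v hv.le)
      (fun e he => el05_tangential hψ2 hv (fun v' hv' => huni v v' hv hv') he) (M := M)
      le_rfl k
    have e : 2 * κ / 2 = κ := by ring
    rwa [e] at h
  obtain ⟨η, hη, hη1, hann⟩ := el09_annulus (hψ2.add hq2) hκ hsph
  refine ⟨fun x => -(σ x) / 2 + M / 8 * (1 - ‖x‖ ^ 2), ?_, κ / 2, by linarith, ?_, ?_, ?_⟩
  · exact ha.add (contDiff_const.mul (contDiff_const.sub (contDiff_norm_sq ℝ)))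
  · intro v v' hv hv'
    rw [el22_eq]
    rw [(el03_add hψ2 hq2 v v').2.2 v', el04_qM_rem M hv hv', add_zero]
    have h1 := huni v v' hv hv'
    have h2 : 0 ≤ κ * ‖v' - v‖ ^ 2 := by positivity
    linarith
  · refine ⟨η, hη, hη1, ?_⟩
    intro x hx hx1 k
    rw [el22_eq]
    exact hann x hx hx1 k
  · intro p hp
    obtain ⟨v, hv, κ', hκ', hmin⟩ := hg p hp
    have hIs : IsMinS φ p v := by
      refine ⟨hv, fun v' hv' => ?_⟩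
      have h1 := hmin v' hv'
      have h2 : 0 ≤ κ' * ‖v' - v‖ ^ 2 := by positivity
      linarith
    have hlt := (hsel v hv).2 p hp hIs
    refine ⟨v, hv, inner ℝ p v - fderiv ℝ φ v v - σ v, by linarith, ?_⟩
    intro h
    rw [el22_eq]
    rw [(el03_add hψ2 hq2 v h).1, (el04_qM M v h).1, hψd v h hv]
    have hlag := el15_lagrange (hφ.of_le (by norm_cast)) hIs h
    rw [hv]
    linear_combination hlag

end Pool.Agent.CNX
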