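import Mathlib
import Pool.Agent.CNX.ELDefs
import Pool.Agent.CNX.EL_02

/-!
# CNX, section 6, module EL_39 (difficulty 1)

PROOF. `el02_taylor` on the closed unit ball with `κ = 0`: `0 ≤ Rem F v x`, i.e. `F x ≥ F v + fderiv F v (x - v)`, and
`fderiv F v (x-v) = ⟪p, x-v⟫ - k⟪v,x-v⟫ = ⟪p,x⟫ - ⟪p,v⟫ + k(1 - ⟪v,x⟫)`.
-/

set_option autoImplicit false

namespace Pool.Agent.CNX

open scoped ContDiff

variable {E : Type*} [NormedAddCommGroup E] [InnerProductSpace ℝ E]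

theorem el39_growth {F : E → ℝ} (hF : ContDiff ℝ 2 F)
    (hpos : ∀ x : E, ‖x‖ ≤ 1 → ∀ k : E, k ≠ 0 → 0 < H2 F x k) {p v : E} (hv : ‖v‖ = 1) {k : ℝ}
    (hk : ∀ h : E, fderiv ℝ F v h - inner ℝ p h = -k * inner ℝ v h) (x : E) (hx : ‖x‖ ≤ 1) :
    F v - inner ℝ p v + k * (1 - inner ℝ v x) ≤ F x - inner ℝ p x := by
  have h1 : ∀ z ∈ Metric.closedBall (0 : E) 1, ∀ k : E, (0 : ℝ) * ‖k‖ ^ 2 ≤ H2 F z k := by
    intro z hz w
    have hz' : ‖z‖ ≤ 1 := by simpa using hz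
    by_cases hw : w = 0
    · subst hw
      simp [H2]
    · have := hpos z hz' w hw
      rw [zero_mul]
      exact this.le
  have h2 := el02_taylor hF (convex_closedBall (0 : E) 1) h1 (x := v) (y := x) (by simp [hv])
    (by simpa using hx)
  simp only [zero_div, zero_mul, Rem] at h2
  have h3 := hk (x - v)
  rw [inner_sub_right, inner_sub_right, real_inner_self_eq_norm_sq, hv] at h3
  nlinarith

end Pool.Agent.CNX
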