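import Pool.Agent.CNX.ELDefs
import Pool.Agent.CNX.EL_03
import Pool.Agent.CNX.EL_22
import Pool.Agent.CNX.EL_39
import Pool.Agent.CNX.EG3

set_option autoImplicit false

namespace Pool.Agent.CNX

open scoped ContDiff

theorem el41_le : (2 : WithTop ℕ∞) ≤ ((⊤ : ℕ∞) : WithTop ℕ∞) := by
  have h : ((2 : ℕ∞) : WithTop ℕ∞) ≤ ((⊤ : ℕ∞) : WithTop ℕ∞) := WithTop.coe_le_coe.2 le_top
  exact h

theorem el41_final : ELStmt := by
  intro N φ K hN hφ hK hg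
  haveI : Nontrivial (EuclideanSpace ℝ (Fin N)) := by
    haveI : Nonempty (Fin N) := ⟨⟨0, by omega⟩⟩
    infer_instance
  obtain ⟨A₀, hA₀, κ, hκ, hR, ⟨η, hη, hη1, hH⟩, hp⟩ := el22_part1 hφ hK hg
  have hψC : ContDiff ℝ ∞ (fun x : EuclideanSpace ℝ (Fin N) => φ x + (1 - ‖x‖ ^ 2) * A₀ x) :=
    hφ.add ((contDiff_const.sub (contDiff_norm_sq ℝ)).mul hA₀)
  obtain ⟨v1, hv1⟩ := exists_norm_eq (EuclideanSpace ℝ (Fin N)) zero_le_one
  obtain ⟨A, hA, hAB, hpos⟩ := eg_glue φ (fun x : EuclideanSpace ℝ (Fin N) => φ x + (1 - ‖x‖ ^ 2) * A₀ x) A₀ hφ hψC hA₀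
    ⟨v1, hv1⟩ (fun _ => rfl) κ η hκ hη
    (by
      intro x hx1 hx2 h
      rw [iteratedFDeriv_two_apply]
      have := hH x hx1 hx2 h
      unfold H2 at this
      simpa using this)
    (by
      intro v v' hv hv'
      have h1 := hR v v' hv hv'
      unfold Rem at h1
      have h2 : 0 ≤ κ * ‖v' - v‖ ^ 2 := by positivity
      linarith)
  refine ⟨A, hA, hpos, ?_⟩
  intro p hpK
  obtain ⟨v, hv, k, hk, hd⟩ := hp p hpK
  refine ⟨v, hv, k, hk, ?_⟩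
  intro x hx
  have hev : (fun y : EuclideanSpace ℝ (Fin N) => φ y + (1 - ‖y‖ ^ 2) * A y) =ᶠ[nhds v]
      (fun x => φ x + (1 - ‖x‖ ^ 2) * A₀ x) := by
    filter_upwards [hAB v hv] with y hy
    rw [hy]
  have hF2 : ContDiff ℝ 2 (fun y : EuclideanSpace ℝ (Fin N) => φ y + (1 - ‖y‖ ^ 2) * A y) :=
    (hφ.add ((contDiff_const.sub (contDiff_norm_sq ℝ)).mul hA)).of_le el41_le
  have hpos' : ∀ x : EuclideanSpace ℝ (Fin N), ‖x‖ ≤ 1 → ∀ k : EuclideanSpace ℝ (Fin N), k ≠ 0 →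
      0 < H2 (fun y : EuclideanSpace ℝ (Fin N) => φ y + (1 - ‖y‖ ^ 2) * A y) x k := by
    intro x hx k hk
    have := hpos x hx k hk
    rw [iteratedFDeriv_two_apply] at this
    unfold H2
    simpa using this
  have h3 := el39_growth hF2 hpos' (p := p) hv (k := k) (by
    intro h
    rw [(el03_congr hev h).1]
    exact hd h) x hx
  simp only [hv] at h3
  linarith

end Pool.Agent.CNX
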