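import Pool.Agent.CNX.ExDefs

/-!
# EX_A (difficulty 1): `U + linear` has no interior extremum on the disc

`T(s,t) = U s t - q0 s - q1 t - m`. The minimum over the closed disc (compact, continuous) is attained at some `(s,t)`; if `s²+t² < 1` put `h = 1`,
`k = -50 (6 s + 1)`; for small `e > 0` both points `(s ± e h, t ± e k)` are in the disc and
`T(s+eh,t+ek) + T(s-eh,t-ek) - 2T(s,t) = 2 e² (3 s h² + h k / 100) = -e² < 0`: contradiction. So the minimum is attained on the circle, where `T ≥ 0`.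
`disc_nonpos` is `disc_nonneg` for `(-s, t)`: `-U s t = U (-s) t`.
-/

set_option autoImplicit false

namespace Pool.Agent.CNX

open Filter Topology in
theorem disc_nonneg (q0 q1 m : ℝ)
    (h : ∀ s t : ℝ, s ^ 2 + t ^ 2 = 1 → 0 ≤ U s t - q0 * s - q1 * t - m) :
    ∀ s t : ℝ, s ^ 2 + t ^ 2 ≤ 1 → 0 ≤ U s t - q0 * s - q1 * t - m := by
  set K : Set (ℝ × ℝ) := {p | p.1 ^ 2 + p.2 ^ 2 ≤ 1} with hK
  have hcl : IsClosed K := isClosed_le (by fun_prop) continuous_const
  have hKc : IsCompact K := by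
    refine IsCompact.of_isClosed_subset (isCompact_Icc (a := ((-1 : ℝ), (-1 : ℝ))) (b := ((1 : ℝ), (1 : ℝ)))) hcl ?_
    rintro ⟨s, t⟩ hp
    have hp' : s ^ 2 + t ^ 2 ≤ 1 := hp
    refine ⟨⟨?_, ?_⟩, ⟨?_, ?_⟩⟩ <;> simp only <;> nlinarith [sq_nonneg s, sq_nonneg t]
  set T : ℝ × ℝ → ℝ := fun p => U p.1 p.2 - q0 * p.1 - q1 * p.2 - m with hT
  have hTc : Continuous T := by
    rw [hT]
    unfold U
    fun_prop
  obtain ⟨p, hpK, hp⟩ := hKc.exists_isMinOn ⟨(0, 0), by rw [hK, Set.mem_setOf_eq]; norm_num⟩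
    hTc.continuousOn
  have hpm : 0 ≤ T p := by
    obtain ⟨s, t⟩ := p
    have hst : s ^ 2 + t ^ 2 ≤ 1 := hpK
    rcases hst.lt_or_eq with hlt | heq
    · exfalso
      have c1 : ContinuousAt (fun e : ℝ => (s + e) ^ 2 + (t + e * (-50 * (6 * s + 1))) ^ 2) 0 := by
        fun_prop
      have c2 : ContinuousAt (fun e : ℝ => (s - e) ^ 2 + (t - e * (-50 * (6 * s + 1))) ^ 2) 0 := by
        fun_prop
      have e1 : ∀ᶠ e in 𝓝 (0 : ℝ), (s + e) ^ 2 + (t + e * (-50 * (6 * s + 1))) ^ 2 < 1 := by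
        refine c1.eventually_lt continuousAt_const ?_
        simpa using hlt
      have e2 : ∀ᶠ e in 𝓝 (0 : ℝ), (s - e) ^ 2 + (t - e * (-50 * (6 * s + 1))) ^ 2 < 1 := by
        refine c2.eventually_lt continuousAt_const ?_
        simpa using hlt
      have e3 : ∀ᶠ e in 𝓝[>] (0 : ℝ), ((s + e) ^ 2 + (t + e * (-50 * (6 * s + 1))) ^ 2 < 1 ∧
          (s - e) ^ 2 + (t - e * (-50 * (6 * s + 1))) ^ 2 < 1) ∧ e ∈ Set.Ioi (0 : ℝ) :=
        ((e1.and e2).filter_mono nhdsWithin_le_nhds).and self_mem_nhdsWithin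
      obtain ⟨e, ⟨he1, he2⟩, he0⟩ := e3.exists
      have he0' : 0 < e := he0
      have m1 : T (s, t) ≤ T (s + e, t + e * (-50 * (6 * s + 1))) := hp (show _ ∈ K from he1.le)
      have m2 : T (s, t) ≤ T (s - e, t - e * (-50 * (6 * s + 1))) := hp (show _ ∈ K from he2.le)
      have key : T (s + e, t + e * (-50 * (6 * s + 1))) + T (s - e, t - e * (-50 * (6 * s + 1)))
          - 2 * T (s, t) = - e ^ 2 := by
        rw [hT]
        simp only [U]
        ring
      have : 0 < e ^ 2 := by positivity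
      linarith
    · exact h s t heq
  intro s t hst
  exact hpm.trans (hp (show (s, t) ∈ K from hst))

theorem disc_nonpos (q0 q1 m : ℝ)
    (h : ∀ s t : ℝ, s ^ 2 + t ^ 2 = 1 → U s t - q0 * s - q1 * t - m ≤ 0) :
    ∀ s t : ℝ, s ^ 2 + t ^ 2 ≤ 1 → U s t - q0 * s - q1 * t - m ≤ 0 := by
  intro s t hst
  have h1 := disc_nonneg q0 (-q1) (-m) (fun s t hst => by
    have := h (-s) t (by rw [neg_sq]; exact hst)
    have e : U (-s) t = - U s t := by
      unfold U
      ring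
    rw [e] at this
    linarith) (-s) t (by rw [neg_sq]; exact hst)
  have e : U (-s) t = - U s t := by
    unfold U
    ring
  rw [e] at h1
  linarith

end Pool.Agent.CNX
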