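import Pool.Agent.CNX.EX_A

/-!
# EX_B (difficulty 2): growth at level 1

Let `(s0,t0)`, `κ` be from `GMin p`, `m = U s0 t0 - p.1 s0 - p.2 t0`. On the circle `(s-s0)²+(t-t0)² = 2(1 - s s0 - t t0)`, so
`U s t - p.1 s - p.2 t - m - 2κ(1 - s s0 - t t0) ≥ 0` there, hence (`disc_nonneg` with `q0 = p.1 - 2κ s0`, ...) on the closed disc. For `‖v‖ = 1` in `ℝ³`:
`v 0² + v 1² ≤ 1` and `‖v - v3 s0 t0 0‖² = 2(1 - v 0 s0 - v 1 t0)`. So `Growth` holds with `v₀ = v3 s0 t0 0` and the same `κ`.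
-/

set_option autoImplicit false

namespace Pool.Agent.CNX

theorem exB_norm (x : EuclideanSpace ℝ (Fin 3)) : ‖x‖ ^ 2 = x 0 ^ 2 + x 1 ^ 2 + x 2 ^ 2 := by
  rw [EuclideanSpace.norm_sq_eq, Fin.sum_univ_three]
  simp

theorem exB_inner (a b c : ℝ) (x : EuclideanSpace ℝ (Fin 3)) :
    inner ℝ (v3 a b c) x = a * x 0 + b * x 1 + c * x 2 := by
  rw [PiLp.inner_apply, Fin.sum_univ_three]
  simp [v3]
  ring

theorem growth1 (p : ℝ × ℝ) (h : GMin p) :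
    Growth (fun x : EuclideanSpace ℝ (Fin 3) => U (x 0) (x 1)) (v3 p.1 p.2 0) := by
  obtain ⟨s0, t0, h0, κ, hκ, hg⟩ := h
  have hd := disc_nonneg (p.1 - 2 * κ * s0) (p.2 - 2 * κ * t0)
    (U s0 t0 - p.1 * s0 - p.2 * t0 + 2 * κ) (by
      intro s t hst
      have := hg s t hst
      nlinarith)
  refine ⟨v3 s0 t0 0, ?_, κ, hκ, ?_⟩
  · have h1 := exB_norm (v3 s0 t0 0)
    have h2 : (v3 s0 t0 0) 0 = s0 := rfl
    have h3 : (v3 s0 t0 0) 1 = t0 := rfl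
    have h4 : (v3 s0 t0 0) 2 = 0 := rfl
    rw [h2, h3, h4] at h1
    have h5 : ‖v3 s0 t0 0‖ ^ 2 = 1 := by rw [h1]; linarith
    have h6 := norm_nonneg (v3 s0 t0 0)
    nlinarith
  · intro v hv
    have h1 := exB_norm v
    have h7 := exB_norm (v - v3 s0 t0 0)
    have h2 : (v - v3 s0 t0 0) 0 = v 0 - s0 := rfl
    have h3 : (v - v3 s0 t0 0) 1 = v 1 - t0 := rfl
    have h4 : (v - v3 s0 t0 0) 2 = v 2 - 0 := rfl
    rw [h2, h3, h4] at h7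
    rw [hv] at h1
    have h5 : (v3 s0 t0 0) 0 = s0 := rfl
    have h6 : (v3 s0 t0 0) 1 = t0 := rfl
    have h8 := hd (v 0) (v 1) (by nlinarith [sq_nonneg (v 2)])
    simp only
    rw [exB_inner, exB_inner, h7, h5, h6]
    nlinarith

end Pool.Agent.CNX
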