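import Pool.Agent.CNX.ExDefs

/-!
# EX_C (difficulty 2): averaging over isometries

`EF φ (avg g A) x = (∑ i, EF φ A (g i x)) / card` (as functions; `‖g i x‖ = ‖x‖`, `φ (g i x) = φ x`). Second derivative:
`iteratedFDeriv 2 (f ∘ g) x ![h,h] = iteratedFDeriv 2 f (g x) ![g h, g h]` (`ContinuousLinearMap.iteratedFDeriv_comp_right`), sums by
`iteratedFDeriv_sum`/`iteratedFDeriv_add_apply` or via `fderiv`. For `p ∈ K`: the inequality of `EP` at `g i x`; `⟪p, g i x⟫ = ⟪g i p, g i x⟫ = ⟪p, x⟫`,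
`⟪v, g i x⟫ = ⟪(g i).symm v, x⟫`; average over `i`; the new `v` is the average of `(g i).symm v` (norm `≤ 1`), `v₀` and `k` are the same.
-/

set_option autoImplicit false

namespace Pool.Agent.CNX

theorem avg_contDiff {N : ℕ} {A : EuclideanSpace ℝ (Fin N) → ℝ} {n : WithTop ℕ∞}
    (hA : ContDiff ℝ n A) {ι : Type} [Fintype ι]
    (g : ι → (EuclideanSpace ℝ (Fin N) ≃ₗᵢ[ℝ] EuclideanSpace ℝ (Fin N))) :
    ContDiff ℝ n (avg g A) := by
  unfold avg
  exact (ContDiff.sum fun i _ => hA.comp (g i).contDiff).div_const _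

theorem exC_EF {N : ℕ} {φ A : EuclideanSpace ℝ (Fin N) → ℝ}
    {ι : Type} [Fintype ι] [Nonempty ι]
    (g : ι → (EuclideanSpace ℝ (Fin N) ≃ₗᵢ[ℝ] EuclideanSpace ℝ (Fin N)))
    (hg : ∀ i x, φ (g i x) = φ x) (x : EuclideanSpace ℝ (Fin N)) :
    EF φ (avg g A) x = ((Fintype.card ι : ℝ))⁻¹ • ∑ i, EF φ A (g i x) := by
  have hc : (Fintype.card ι : ℝ) ≠ 0 := by
    exact_mod_cast Fintype.card_ne_zero
  unfold EF avg
  simp only [hg, LinearIsometryEquiv.norm_map, Finset.sum_add_distrib, ← Finset.mul_sum,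
    Finset.sum_const, Finset.card_univ, nsmul_eq_mul, smul_eq_mul]
  field_simp

theorem avg_EP {N : ℕ} {φ A : EuclideanSpace ℝ (Fin N) → ℝ} {K : Set (EuclideanSpace ℝ (Fin N))}
    (hφ : ContDiff ℝ 2 φ) (hA : ContDiff ℝ 2 A) (hE : EP φ A K) {ι : Type} [Fintype ι] [Nonempty ι]
    (g : ι → (EuclideanSpace ℝ (Fin N) ≃ₗᵢ[ℝ] EuclideanSpace ℝ (Fin N)))
    (hg : ∀ i x, φ (g i x) = φ x) (hK : ∀ i, ∀ p ∈ K, g i p = p) : EP φ (avg g A) K := by
  have hc0 : 0 < Fintype.card ι := Fintype.card_pos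
  have hc : (0 : ℝ) < (Fintype.card ι : ℝ) := by exact_mod_cast hc0
  have hEF : ContDiff ℝ 2 (EF φ A) := by
    unfold EF
    exact hφ.add ((contDiff_const.sub (contDiff_norm_sq ℝ)).mul hA)
  have hcomp : ∀ i, ContDiff ℝ 2 ((EF φ A) ∘ (g i)) := fun i => hEF.comp (g i).contDiff
  have hfun : EF φ (avg g A) =
      ((Fintype.card ι : ℝ))⁻¹ • (fun z => ∑ i, ((EF φ A) ∘ (g i)) z) := by
    funext x
    rw [exC_EF g hg x]
    rfl
  refine ⟨?_, ?_⟩
  · intro x hx h hh
    have hsum : ContDiff ℝ 2 (fun z => ∑ i, ((EF φ A) ∘ (g i)) z) :=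
      ContDiff.sum fun i _ => hcomp i
    have e1 : iteratedFDeriv ℝ 2 (EF φ (avg g A)) x =
        ((Fintype.card ι : ℝ))⁻¹ • iteratedFDeriv ℝ 2 (fun z => ∑ i, ((EF φ A) ∘ (g i)) z) x := by
      rw [hfun]
      exact iteratedFDeriv_const_smul_apply hsum.contDiffAt
    have e2 : iteratedFDeriv ℝ 2 (fun z => ∑ i, ((EF φ A) ∘ (g i)) z) x =
        ∑ i, iteratedFDeriv ℝ 2 ((EF φ A) ∘ (g i)) x :=
      iteratedFDeriv_fun_sum_apply fun i _ => (hcomp i).contDiffAt
    have e3 : ∀ i, iteratedFDeriv ℝ 2 ((EF φ A) ∘ (g i)) x ![h, h] =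
        iteratedFDeriv ℝ 2 (EF φ A) (g i x) ![g i h, g i h] := by
      intro i
      have e4 := ContinuousLinearMap.iteratedFDeriv_comp_right
        ((g i).toContinuousLinearEquiv : EuclideanSpace ℝ (Fin N) →L[ℝ] EuclideanSpace ℝ (Fin N))
        hEF x (i := 2) le_rfl
      have e5 : iteratedFDeriv ℝ 2 ((EF φ A) ∘ (g i)) x =
        (iteratedFDeriv ℝ 2 (EF φ A) (g i x)).compContinuousLinearMap fun _ =>
          ((g i).toContinuousLinearEquiv : EuclideanSpace ℝ (Fin N) →L[ℝ] EuclideanSpace ℝ (Fin N)) :=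
        e4
      rw [e5, ContinuousMultilinearMap.compContinuousLinearMap_apply]
      congr 1
      ext j k
      fin_cases j <;> rfl
    rw [e1, e2]
    rw [smul_apply, sum_apply, smul_eq_mul]
    apply mul_pos (inv_pos.mpr hc)
    apply Finset.sum_pos
    · intro i _
      rw [e3 i]
      apply hE.1
      · rw [LinearIsometryEquiv.norm_map]; exact hx
      · intro h0
        apply hh
        exact (g i).map_eq_zero_iff.mp h0
    · exact Finset.univ_nonempty
  · intro p hp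
    obtain ⟨v₀, v, hv₀, hv, k, hk, hk2⟩ := hE.2 p hp
    refine ⟨v₀, ((Fintype.card ι : ℝ))⁻¹ • ∑ i, (g i).symm v, hv₀, ?_, k, hk, ?_⟩
    · rw [norm_smul, norm_inv, Real.norm_of_nonneg hc.le]
      have h1 : ‖∑ i, (g i).symm v‖ ≤ ∑ i : ι, (1 : ℝ) := by
        apply norm_sum_le_of_le
        intro i _
        rw [LinearIsometryEquiv.norm_map]
        exact hv
      rw [Finset.sum_const, Finset.card_univ, nsmul_eq_mul, mul_one] at h1
      rw [inv_mul_le_iff₀ hc, mul_one]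
      exact h1
    · intro x hx
      have h1 : ∀ i, φ v₀ - inner ℝ p v₀ + k * (1 - inner ℝ ((g i).symm v) x) ≤
          EF φ A (g i x) - inner ℝ p x := by
        intro i
        have h2 := hk2 (g i x) (by rw [LinearIsometryEquiv.norm_map]; exact hx)
        have h3 : inner ℝ p (g i x) = inner ℝ p x := by
          nth_rewrite 1 [← hK i p hp]
          exact (g i).inner_map_map p x
        have h4 : inner ℝ v (g i x) = inner ℝ ((g i).symm v) x := by
          rw [← (g i).inner_map_map ((g i).symm v) x, LinearIsometryEquiv.apply_symm_apply]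
        rw [h3, h4] at h2
        exact h2
      have h5' := Finset.sum_le_sum (fun i (_ : i ∈ Finset.univ) => h1 i)
      have hL : ∑ i, (φ v₀ - inner ℝ p v₀ + k * (1 - inner ℝ ((g i).symm v) x)) =
          (Fintype.card ι : ℝ) * (φ v₀ - inner ℝ p v₀) +
          k * ((Fintype.card ι : ℝ) - ∑ i, inner ℝ ((g i).symm v) x) := by
        rw [Finset.sum_add_distrib, Finset.sum_const, ← Finset.mul_sum, Finset.sum_sub_distrib,
          Finset.sum_const, Finset.card_univ]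
        simp only [nsmul_eq_mul, mul_one]
      have hR : ∑ i, (EF φ A (g i x) - inner ℝ p x) =
          ∑ i, EF φ A (g i x) - (Fintype.card ι : ℝ) * inner ℝ p x := by
        rw [Finset.sum_sub_distrib, Finset.sum_const, Finset.card_univ]
        simp only [nsmul_eq_mul]
      have h5 : (Fintype.card ι : ℝ) * (φ v₀ - inner ℝ p v₀) +
          k * ((Fintype.card ι : ℝ) - ∑ i, inner ℝ ((g i).symm v) x) ≤
          ∑ i, EF φ A (g i x) - (Fintype.card ι : ℝ) * inner ℝ p x := by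
        rw [← hL, ← hR]; exact h5'
      rw [exC_EF g hg x, inner_smul_left, sum_inner]
      simp only [smul_eq_mul, conj_trivial]
      have h6 : ((Fintype.card ι : ℝ))⁻¹ * ((Fintype.card ι : ℝ) * (φ v₀ - inner ℝ p v₀) +
          k * ((Fintype.card ι : ℝ) - ∑ i, inner ℝ ((g i).symm v) x)) ≤
          ((Fintype.card ι : ℝ))⁻¹ * (∑ i, EF φ A (g i x) - (Fintype.card ι : ℝ) * inner ℝ p x) :=
        mul_le_mul_of_nonneg_left h5 (inv_pos.mpr hc).le
      have h7 : ((Fintype.card ι : ℝ))⁻¹ * (Fintype.card ι : ℝ) = 1 := inv_mul_cancel₀ hc.ne'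
      have h8 : ((Fintype.card ι : ℝ))⁻¹ * ((Fintype.card ι : ℝ) * (φ v₀ - inner ℝ p v₀) +
          k * ((Fintype.card ι : ℝ) - ∑ i, inner ℝ ((g i).symm v) x)) =
          (((Fintype.card ι : ℝ))⁻¹ * (Fintype.card ι : ℝ)) * (φ v₀ - inner ℝ p v₀) +
          k * ((((Fintype.card ι : ℝ))⁻¹ * (Fintype.card ι : ℝ)) -
            ((Fintype.card ι : ℝ))⁻¹ * ∑ i, inner ℝ ((g i).symm v) x) := by ring
      have h9 : ((Fintype.card ι : ℝ))⁻¹ * (∑ i, EF φ A (g i x) -
          (Fintype.card ι : ℝ) * inner ℝ p x) =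
          ((Fintype.card ι : ℝ))⁻¹ * ∑ i, EF φ A (g i x) -
          (((Fintype.card ι : ℝ))⁻¹ * (Fintype.card ι : ℝ)) * inner ℝ p x := by ring
      rw [h8, h9, h7, one_mul, one_mul] at h6
      exact h6

end Pool.Agent.CNX
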