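import Pool.Agent.CNX.ExDefs

/-!
# EX_D (difficulty 2): `p` is not a gradient

Let `F = EF φ A`, `F ∈ C²`, `f = F - ⟪p, ·⟫`. Suppose `fderiv F x1 = ⟪p, ·⟫`, `‖x1‖ ≤ 1`. For `x` in the ball the function `t ↦ f(x1 + t (x - x1))` has second derivative
`≥ 0` on `[0,1]` (the segment is in the ball) and derivative `0` at `0`, so `f(x1) ≤ f(x)`. In particular (`F v₀ = φ v₀`) `f(x1) ≤ φ v₀ - ⟪p, v₀⟫`, so the inequality of `EP`
at `x1` gives `k (1 - ⟪v, x1⟫) ≤ 0`, `⟪v, x1⟫ ≥ 1`, so `v = x1` (`‖v - x1‖² ≤ 1 - 2 + 1 = 0`) and `‖x1‖ = 1`. For `0 < e ≤ 1` the inequality at `(1-e) x1` gives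
`f((1-e) x1) ≥ φ v₀ - ⟪p, v₀⟫ + k e ≥ f(x1) + k e`, so the derivative of `f` at `x1` in direction `-x1` is `≥ k > 0`: contradiction.
-/

set_option autoImplicit false

namespace Pool.Agent.CNX

open Set

theorem exD_one {φ φ1 φ2 : ℝ → ℝ} (h1 : ∀ t, HasDerivAt φ (φ1 t) t)
    (h2 : ∀ t, HasDerivAt φ1 (φ2 t) t) (h3 : ∀ t ∈ Icc (0 : ℝ) 1, 0 ≤ φ2 t) :
    φ 0 + φ1 0 ≤ φ 1 := by
  have m1 : MonotoneOn φ1 (Icc (0 : ℝ) 1) := by
    apply monotoneOn_of_deriv_nonneg (convex_Icc 0 1)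
    · exact fun t _ => (h2 t).continuousAt.continuousWithinAt
    · exact fun t _ => (h2 t).differentiableAt.differentiableWithinAt
    · intro t ht
      rw [(h2 t).deriv]
      exact h3 t (interior_subset ht)
  have hli : ∀ t : ℝ, HasDerivAt (fun t : ℝ => t * φ1 0) (φ1 0) t := fun t => by
    simpa using (hasDerivAt_id t).mul_const (φ1 0)
  have a2 : ∀ t, HasDerivAt (fun t => φ t - t * φ1 0) (φ1 t - φ1 0) t :=
    fun t => (h1 t).sub (hli t)
  have m2 : MonotoneOn (fun t => φ t - t * φ1 0) (Icc (0 : ℝ) 1) := by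
    apply monotoneOn_of_deriv_nonneg (convex_Icc 0 1)
    · exact fun t _ => (a2 t).continuousAt.continuousWithinAt
    · exact fun t _ => (a2 t).differentiableAt.differentiableWithinAt
    · intro t ht
      rw [(a2 t).deriv]
      have := m1 (left_mem_Icc.2 zero_le_one) (interior_subset ht) (interior_subset ht).1
      linarith
  have h5 := m2 (left_mem_Icc.2 zero_le_one) (right_mem_Icc.2 zero_le_one) zero_le_one
  have h6 : φ 0 - 0 * φ1 0 ≤ φ 1 - 1 * φ1 0 := h5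
  linarith

theorem exD_convex {N : ℕ} {F : EuclideanSpace ℝ (Fin N) → ℝ} (hF : ContDiff ℝ 2 F)
    (h : ∀ x, ‖x‖ ≤ 1 → ∀ h, h ≠ 0 → 0 < iteratedFDeriv ℝ 2 F x ![h, h])
    {x y : EuclideanSpace ℝ (Fin N)} (hx : ‖x‖ ≤ 1) (hy : ‖y‖ ≤ 1) :
    F x + fderiv ℝ F x (y - x) ≤ F y := by
  have hline : ∀ t : ℝ, HasDerivAt (fun t : ℝ => x + t • (y - x)) (y - x) t := fun t => by
    simpa using ((hasDerivAt_id t).smul_const (y - x)).const_add x
  have hF1 : ∀ y, HasFDerivAt F (fderiv ℝ F y) y := fun y =>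
    (hF.differentiable (by norm_num) y).hasFDerivAt
  have hF2 : ContDiff ℝ 1 (fderiv ℝ F) := hF.fderiv_right (by norm_num)
  have hF' : ∀ y, HasFDerivAt (fderiv ℝ F) (fderiv ℝ (fderiv ℝ F) y) y := fun y =>
    (hF2.differentiable (by norm_num) y).hasFDerivAt
  have h1 : ∀ t : ℝ, HasDerivAt (fun t : ℝ => F (x + t • (y - x)))
      (fderiv ℝ F (x + t • (y - x)) (y - x)) t := fun t =>
    (hF1 (x + t • (y - x))).comp_hasDerivAt t (hline t)
  have h2 : ∀ t : ℝ, HasDerivAt (fun t : ℝ => fderiv ℝ F (x + t • (y - x)) (y - x))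
      (fderiv ℝ (fderiv ℝ F) (x + t • (y - x)) (y - x) (y - x)) t := fun t => by
    have h3 : HasDerivAt (fun t : ℝ => fderiv ℝ F (x + t • (y - x)))
        (fderiv ℝ (fderiv ℝ F) (x + t • (y - x)) (y - x)) t :=
      (hF' (x + t • (y - x))).comp_hasDerivAt t (hline t)
    simpa using h3.clm_apply (hasDerivAt_const t (y - x))
  have h3 := exD_one h1 h2 (by
    intro t ht
    by_cases h0 : y - x = 0
    · rw [h0, map_zero]
    · have hn : ‖x + t • (y - x)‖ ≤ 1 := by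
        have e : x + t • (y - x) = (1 - t) • x + t • y := by
          rw [smul_sub, sub_smul, one_smul]; abel
        rw [e]
        have h4 : (0 : ℝ) ≤ 1 - t := by linarith [ht.2]
        calc ‖(1 - t) • x + t • y‖ ≤ ‖(1 - t) • x‖ + ‖t • y‖ := norm_add_le _ _
          _ = (1 - t) * ‖x‖ + t * ‖y‖ := by
              rw [norm_smul, norm_smul, Real.norm_of_nonneg h4, Real.norm_of_nonneg ht.1]
          _ ≤ (1 - t) * 1 + t * 1 :=
              add_le_add (mul_le_mul_of_nonneg_left hx h4) (mul_le_mul_of_nonneg_left hy ht.1)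
          _ = 1 := by ring
      have h5 := h _ hn _ h0
      rw [iteratedFDeriv_two_apply] at h5
      exact h5.le)
  simp only [zero_smul, add_zero, one_smul] at h3
  rwa [add_sub_cancel] at h3

theorem EP_grad {N : ℕ} {φ A : EuclideanSpace ℝ (Fin N) → ℝ} {K : Set (EuclideanSpace ℝ (Fin N))}
    (hφ : ContDiff ℝ 2 φ) (hA : ContDiff ℝ 2 A) (hE : EP φ A K) :
    ∀ x, ‖x‖ ≤ 1 → ∀ p ∈ K, ∃ h, fderiv ℝ (EF φ A) x h ≠ inner ℝ p h := by
  intro x1 hx1 p hp
  by_contra hcon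
  push Not at hcon
  have hF : ContDiff ℝ 2 (EF φ A) :=
    hφ.add ((contDiff_const.sub (contDiff_id.norm_sq ℝ)).mul hA)
  obtain ⟨v₀, v, hv₀, hv, k, hk, hineq⟩ := hE.2 p hp
  have h1 := exD_convex hF hE.1 hx1 hv₀.le
  have e0 : EF φ A v₀ = φ v₀ := by
    unfold EF
    rw [hv₀]
    ring
  rw [hcon, e0, inner_sub_right] at h1
  have h2 := hineq x1 hx1
  have h3 : k * (1 - inner ℝ v x1) ≤ 0 := by linarith
  have h4 : (1 : ℝ) ≤ inner ℝ v x1 := by
    by_contra hc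
    push Not at hc
    have := mul_pos hk (by linarith : (0 : ℝ) < 1 - inner ℝ v x1)
    linarith
  have h5 : inner ℝ v x1 ≤ (1 : ℝ) :=
    (real_inner_le_norm v x1).trans (mul_le_one₀ hv (norm_nonneg _) hx1)
  have h6 : inner ℝ v x1 = (1 : ℝ) := le_antisymm h5 h4
  let g : ℝ → ℝ := fun e => EF φ A ((1 - e) • x1) - (1 - e) * inner ℝ p x1 - k * e
  have hg0 : g 0 = EF φ A x1 - inner ℝ p x1 := by
    show EF φ A ((1 - 0 : ℝ) • x1) - (1 - 0) * inner ℝ p x1 - k * 0 = _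
    rw [sub_zero, one_smul, one_mul, mul_zero, sub_zero]
  have hmin : IsMinOn g (Icc (0 : ℝ) 1) 0 := by
    intro e he
    show g 0 ≤ g e
    rw [hg0]
    have h7 : ‖(1 - e) • x1‖ ≤ 1 := by
      rw [norm_smul, Real.norm_of_nonneg (by linarith [he.2])]
      exact mul_le_one₀ (by linarith [he.1]) (norm_nonneg _) hx1
    have h8 := hineq _ h7
    rw [inner_smul_right, inner_smul_right, h6] at h8
    show _ ≤ EF φ A ((1 - e) • x1) - (1 - e) * inner ℝ p x1 - k * e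
    linarith
  have hline : HasDerivAt (fun e : ℝ => (1 - e) • x1) (-x1) 0 := by
    simpa using ((hasDerivAt_id (0 : ℝ)).const_sub 1).smul_const x1
  have hd1 : HasDerivAt (fun e : ℝ => EF φ A ((1 - e) • x1))
      (fderiv ℝ (EF φ A) ((1 - 0 : ℝ) • x1) (-x1)) 0 := by
    have hF0 : HasFDerivAt (EF φ A) (fderiv ℝ (EF φ A) ((1 - 0 : ℝ) • x1)) ((1 - 0 : ℝ) • x1) :=
      (hF.differentiable (by norm_num) ((1 - 0 : ℝ) • x1)).hasFDerivAt
    exact hF0.comp_hasDerivAt (0 : ℝ) hline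
  have hd2 : HasDerivAt (fun e : ℝ => (1 - e) * inner ℝ p x1) (-inner ℝ p x1) 0 := by
    simpa using ((hasDerivAt_id (0 : ℝ)).const_sub 1).mul_const (inner ℝ p x1)
  have hd3 : HasDerivAt (fun e : ℝ => k * e) k 0 := by
    simpa using (hasDerivAt_id (0 : ℝ)).const_mul k
  have hd : HasDerivAt g (-k) 0 := by
    have h7 := (hd1.sub hd2).sub hd3
    rw [sub_zero, one_smul, hcon, inner_neg_right] at h7
    have e : -inner ℝ p x1 - -inner ℝ p x1 - k = -k := by ring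
    rw [e] at h7
    exact h7
  have h8 := hmin.localize.hasFDerivWithinAt_nonneg hd.hasFDerivAt.hasFDerivWithinAt
    (y := (1 : ℝ) - 0) (sub_mem_posTangentConeAt_of_segment_subset (by
      rw [segment_eq_Icc zero_le_one]))
  simp at h8
  linarith

end Pool.Agent.CNX
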