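import Pool.Agent.CNX.ExDefs

/-!
# EX_E1 (difficulty 2): uniform bounds by compactness

`hess_unif`: the continuous function `(x, h) ↦ iteratedFDeriv 2 F x ![h,h]` is positive on the compact set `closedBall 0 1 ×ˢ sphere 0 1`; so `≥ κ > 0` there (take `κ = 1` if the
set is empty); homogeneity. `grad_unif`: the continuous function `(x, p) ↦ ‖fderiv F x - innerSL ℝ p‖` is positive on `closedBall 0 1 ×ˢ K`.
-/

set_option autoImplicit false

namespace Pool.Agent.CNX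

open Set

theorem hess_unif {N : ℕ} {F : EuclideanSpace ℝ (Fin N) → ℝ} (hF : ContDiff ℝ 2 F)
    (h : ∀ x, ‖x‖ ≤ 1 → ∀ h, h ≠ 0 → 0 < iteratedFDeriv ℝ 2 F x ![h, h]) :
    ∃ κ : ℝ, 0 < κ ∧ ∀ x, ‖x‖ ≤ 1 → ∀ h, κ * ‖h‖ ^ 2 ≤ iteratedFDeriv ℝ 2 F x ![h, h] := by
  have hF2 : ContDiff ℝ 1 (fderiv ℝ F) := hF.fderiv_right (by norm_num)
  have hc : Continuous (fderiv ℝ (fderiv ℝ F)) := hF2.continuous_fderiv (by norm_num)
  let Φ : EuclideanSpace ℝ (Fin N) × EuclideanSpace ℝ (Fin N) → ℝ :=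
    fun q => fderiv ℝ (fderiv ℝ F) q.1 q.2 q.2
  have hΦ : Continuous Φ :=
    ((hc.comp continuous_fst).clm_apply continuous_snd).clm_apply continuous_snd
  have hK : IsCompact (Metric.closedBall (0 : EuclideanSpace ℝ (Fin N)) 1 ×ˢ
      Metric.sphere (0 : EuclideanSpace ℝ (Fin N)) 1) :=
    (isCompact_closedBall _ _).prod (isCompact_sphere _ _)
  have hsc : ∀ (x k : EuclideanSpace ℝ (Fin N)), k ≠ 0 →
      iteratedFDeriv ℝ 2 F x ![k, k] = ‖k‖ ^ 2 * Φ (x, (‖k‖⁻¹) • k) := by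
    intro x k hk
    rw [iteratedFDeriv_two_apply]
    show fderiv ℝ (fderiv ℝ F) x k k = ‖k‖ ^ 2 * fderiv ℝ (fderiv ℝ F) x ((‖k‖⁻¹) • k) ((‖k‖⁻¹) • k)
    rw [map_smul, map_smul, _root_.smul_apply, smul_eq_mul, smul_eq_mul]
    have := norm_ne_zero_iff.2 hk
    field_simp
  have hun : ∀ k : EuclideanSpace ℝ (Fin N), k ≠ 0 → ‖(‖k‖⁻¹) • k‖ = 1 := by
    intro k hk
    rw [norm_smul, norm_inv, norm_norm, inv_mul_cancel₀ (norm_ne_zero_iff.2 hk)]
  have hz : ∀ x : EuclideanSpace ℝ (Fin N), iteratedFDeriv ℝ 2 F x ![0, 0] = 0 := by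
    intro x
    rw [iteratedFDeriv_two_apply]
    show fderiv ℝ (fderiv ℝ F) x 0 0 = 0
    rw [map_zero]
  rcases (Metric.closedBall (0 : EuclideanSpace ℝ (Fin N)) 1 ×ˢ
      Metric.sphere (0 : EuclideanSpace ℝ (Fin N)) 1).eq_empty_or_nonempty with he | hne
  · refine ⟨1, one_pos, fun x hx k => ?_⟩
    by_cases hk : k = 0
    · rw [hk, hz, norm_zero]
      norm_num
    · exfalso
      have h1 : (x, (‖k‖⁻¹) • k) ∈ Metric.closedBall (0 : EuclideanSpace ℝ (Fin N)) 1 ×ˢ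
          Metric.sphere (0 : EuclideanSpace ℝ (Fin N)) 1 :=
        ⟨mem_closedBall_zero_iff.2 hx, mem_sphere_zero_iff_norm.2 (hun k hk)⟩
      rw [he] at h1
      exact h1
  · obtain ⟨q, hq, hmin⟩ := hK.exists_isMinOn hne hΦ.continuousOn
    refine ⟨Φ q, ?_, fun x hx k => ?_⟩
    · have h1 := h q.1 (mem_closedBall_zero_iff.1 hq.1) q.2 (by
        intro h0
        have := mem_sphere_zero_iff_norm.1 hq.2
        rw [h0, norm_zero] at this
        exact zero_ne_one this)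
      rw [iteratedFDeriv_two_apply] at h1
      exact h1
    · by_cases hk : k = 0
      · rw [hk, hz, norm_zero]
        norm_num
      · rw [hsc x k hk, mul_comm]
        have h2 : (x, (‖k‖⁻¹) • k) ∈ Metric.closedBall (0 : EuclideanSpace ℝ (Fin N)) 1 ×ˢ
          Metric.sphere (0 : EuclideanSpace ℝ (Fin N)) 1 :=
          ⟨mem_closedBall_zero_iff.2 hx, mem_sphere_zero_iff_norm.2 (hun k hk)⟩
        have h1 : Φ q ≤ Φ (x, (‖k‖⁻¹) • k) := isMinOn_iff.1 hmin _ h2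
        exact mul_le_mul_of_nonneg_left h1 (sq_nonneg _)

theorem grad_unif {N : ℕ} {F : EuclideanSpace ℝ (Fin N) → ℝ} (hF : ContDiff ℝ 2 F)
    {K : Set (EuclideanSpace ℝ (Fin N))} (hK : IsCompact K)
    (h : ∀ x, ‖x‖ ≤ 1 → ∀ p ∈ K, ∃ h, fderiv ℝ F x h ≠ inner ℝ p h) :
    ∃ ρ : ℝ, 0 < ρ ∧ ∀ x, ‖x‖ ≤ 1 → ∀ p ∈ K, ρ ≤ ‖fderiv ℝ F x - innerSL ℝ p‖ := by
  have hc : Continuous (fderiv ℝ F) := hF.continuous_fderiv (by norm_num)
  let Ψ : EuclideanSpace ℝ (Fin N) × EuclideanSpace ℝ (Fin N) → ℝ :=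
    fun q => ‖fderiv ℝ F q.1 - innerSL ℝ q.2‖
  have hΨ : Continuous Ψ :=
    ((hc.comp continuous_fst).sub ((innerSL ℝ).continuous.comp continuous_snd)).norm
  have hC : IsCompact (Metric.closedBall (0 : EuclideanSpace ℝ (Fin N)) 1 ×ˢ K) :=
    (isCompact_closedBall _ _).prod hK
  rcases (Metric.closedBall (0 : EuclideanSpace ℝ (Fin N)) 1 ×ˢ K).eq_empty_or_nonempty
    with he | hne
  · refine ⟨1, one_pos, fun x hx p hp => ?_⟩
    exfalso
    have h1 : (x, p) ∈ Metric.closedBall (0 : EuclideanSpace ℝ (Fin N)) 1 ×ˢ K :=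
      ⟨mem_closedBall_zero_iff.2 hx, hp⟩
    rw [he] at h1
    exact h1
  · obtain ⟨q, hq, hmin⟩ := hC.exists_isMinOn hne hΨ.continuousOn
    refine ⟨Ψ q, ?_, fun x hx p hp => ?_⟩
    · obtain ⟨k, hk⟩ := h q.1 (mem_closedBall_zero_iff.1 hq.1) q.2 hq.2
      show 0 < ‖fderiv ℝ F q.1 - innerSL ℝ q.2‖
      rw [norm_pos_iff]
      intro h0
      apply hk
      have h1 := congrArg (fun f : EuclideanSpace ℝ (Fin N) →L[ℝ] ℝ => f k) h0
      simp only [_root_.sub_apply, innerSL_apply_apply, _root_.zero_apply] at h1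
      linarith
    · have h2 : (x, p) ∈ Metric.closedBall (0 : EuclideanSpace ℝ (Fin N)) 1 ×ˢ K :=
        ⟨mem_closedBall_zero_iff.2 hx, hp⟩
      have h1 : Ψ q ≤ Ψ (x, p) := isMinOn_iff.1 hmin (x, p) h2
      exact h1

end Pool.Agent.CNX
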