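import Pool.Agent.CNX.ExDefs

/-!
# EX_E2 (difficulty 2): the perturbation is small in `C²`

There is `M` (depending on `N` only) with `‖iteratedFDeriv ℝ i (fun x => 1 - ‖x‖²) x‖ ≤ M` for `i ≤ 2`, `‖x‖ ≤ 1` (continuity on a compact set). For `D = A - B`:
`EF φ (avg g A) - EF φ (avg g B) = (1 - ‖x‖²) * avg g D`. `‖iteratedFDeriv ℝ i (D ∘ g) x‖ = ‖iteratedFDeriv ℝ i D (g x)‖ ≤ ε` (`LinearIsometryEquiv.norm_iteratedFDeriv_comp_right`),
`‖g x‖ = ‖x‖ ≤ 1`; so `‖iteratedFDeriv ℝ i (avg g D) x‖ ≤ ε`; product: `norm_iteratedFDeriv_mul_le` gives `≤ 4 M ε` for `i ≤ 2`. Put `C = 4 M`.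
-/

set_option autoImplicit false

namespace Pool.Agent.CNX

theorem exE2_avg {N : ℕ} {D : EuclideanSpace ℝ (Fin N) → ℝ} {ε : ℝ} (hD : ContDiff ℝ 2 D)
    (h : ∀ x : EuclideanSpace ℝ (Fin N), ‖x‖ ≤ 1 → ∀ i ≤ 2, ‖iteratedFDeriv ℝ i D x‖ ≤ ε)
    {ι : Type} [Fintype ι] [Nonempty ι]
    (g : ι → (EuclideanSpace ℝ (Fin N) ≃ₗᵢ[ℝ] EuclideanSpace ℝ (Fin N))) :
    ContDiff ℝ 2 (avg g D) ∧ ∀ x, ‖x‖ ≤ 1 → ∀ i ≤ 2, ‖iteratedFDeriv ℝ i (avg g D) x‖ ≤ ε := by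
  have hDg : ∀ j, ContDiff ℝ 2 (fun x => D (g j x)) := fun j => hD.comp (g j).contDiff
  have hc : (0 : ℝ) < Fintype.card ι := by
    exact_mod_cast Fintype.card_pos
  have hS : ContDiff ℝ 2 (fun x => ∑ j, D (g j x)) := ContDiff.sum fun j _ => hDg j
  have hav : avg g D = fun x => ((Fintype.card ι : ℝ)⁻¹) • ∑ j, D (g j x) := by
    funext x
    unfold avg
    rw [smul_eq_mul, div_eq_inv_mul]
  refine ⟨by rw [hav]; exact hS.const_smul _, fun x hx i hi => ?_⟩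
  have hi' : ((i : ℕ) : WithTop ℕ∞) ≤ 2 := by exact_mod_cast hi
  rw [hav, iteratedFDeriv_const_smul_apply' (hS.of_le hi').contDiffAt]
  have h1 : iteratedFDeriv ℝ i (fun x => ∑ j, D (g j x)) x = ∑ j, iteratedFDeriv ℝ i (fun x => D (g j x)) x := by
    rw [iteratedFDeriv_sum (fun j _ => (hDg j).of_le hi')]
    simp
  have h2 : ∀ j, ‖iteratedFDeriv ℝ i (fun x => D (g j x)) x‖ ≤ ε := by
    intro j
    have h3 := LinearIsometryEquiv.norm_iteratedFDeriv_comp_right (𝕜 := ℝ) (g j) D x i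
    have h4 : (D ∘ (g j)) = fun x => D (g j x) := rfl
    rw [h4] at h3
    rw [h3]
    exact h (g j x) (by rw [LinearIsometryEquiv.norm_map]; exact hx) i hi
  rw [h1, norm_smul, Real.norm_of_nonneg (by positivity)]
  calc (Fintype.card ι : ℝ)⁻¹ * ‖∑ j, iteratedFDeriv ℝ i (fun x => D (g j x)) x‖
      ≤ (Fintype.card ι : ℝ)⁻¹ * ∑ j : ι, ε :=
        mul_le_mul_of_nonneg_left (norm_sum_le_of_le _ fun j _ => h2 j) (by positivity)
    _ = ε := by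
        rw [Finset.sum_const, Finset.card_univ, nsmul_eq_mul, ← mul_assoc, inv_mul_cancel₀ hc.ne', one_mul]

theorem pert_small (N : ℕ) : ∃ C : ℝ, 0 < C ∧ ∀ (φ A B : EuclideanSpace ℝ (Fin N) → ℝ)
    (ε : ℝ), ContDiff ℝ 2 φ → ContDiff ℝ 2 A → ContDiff ℝ 2 B → 0 ≤ ε →
    (∀ x : EuclideanSpace ℝ (Fin N), ‖x‖ ≤ 1 → ∀ i ≤ 2,
      ‖iteratedFDeriv ℝ i (fun x => A x - B x) x‖ ≤ ε) →
    ∀ (ι : Type) [Fintype ι] [Nonempty ι]
      (g : ι → (EuclideanSpace ℝ (Fin N) ≃ₗᵢ[ℝ] EuclideanSpace ℝ (Fin N))),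
      ∀ x, ‖x‖ ≤ 1 → ‖fderiv ℝ (EF φ (avg g A)) x - fderiv ℝ (EF φ (avg g B)) x‖ ≤ C * ε ∧
        ∀ h, |iteratedFDeriv ℝ 2 (EF φ (avg g A)) x ![h, h]
          - iteratedFDeriv ℝ 2 (EF φ (avg g B)) x ![h, h]| ≤ C * ε * ‖h‖ ^ 2 := by
  have hw : ContDiff ℝ 2 (fun x : EuclideanSpace ℝ (Fin N) => 1 - ‖x‖ ^ 2) := contDiff_const.sub (contDiff_norm_sq ℝ)
  have hMi : ∀ i : ℕ, i ≤ 2 → ∃ M : ℝ, ∀ x : EuclideanSpace ℝ (Fin N), ‖x‖ ≤ 1 →
      ‖iteratedFDeriv ℝ i (fun x : EuclideanSpace ℝ (Fin N) => 1 - ‖x‖ ^ 2) x‖ ≤ M := by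
    intro i hi
    have hc : Continuous (iteratedFDeriv ℝ i (fun x : EuclideanSpace ℝ (Fin N) => 1 - ‖x‖ ^ 2)) :=
      hw.continuous_iteratedFDeriv (by exact_mod_cast hi)
    obtain ⟨M, hM⟩ := (isCompact_closedBall (0 : EuclideanSpace ℝ (Fin N)) 1).exists_bound_of_continuousOn
      hc.continuousOn
    exact ⟨M, fun x hx => hM x (by simpa using hx)⟩
  obtain ⟨M0, hM0⟩ := hMi 0 (by norm_num)
  obtain ⟨M1, hM1⟩ := hMi 1 (by norm_num)
  obtain ⟨M2, hM2⟩ := hMi 2 (by norm_num)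
  obtain ⟨M, hM0', hM1', hM2'⟩ : ∃ M, M0 ≤ M ∧ M1 ≤ M ∧ M2 ≤ M :=
    ⟨max M0 (max M1 M2), le_max_left _ _, (le_max_left _ _).trans (le_max_right _ _), (le_max_right _ _).trans (le_max_right _ _)⟩
  have hMn : 0 ≤ M := ((norm_nonneg _).trans (hM0 0 (by simp))).trans hM0'
  refine ⟨4 * M + 1, by positivity, ?_⟩
  intro φ A B ε hφ hA hB hε hAB ι _ _ g x hx
  have hD : ContDiff ℝ 2 (fun x => A x - B x) := hA.sub hB
  obtain ⟨hav, hb⟩ := exE2_avg hD hAB g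
  have hB' : ContDiff ℝ 2 (EF φ (avg g B)) := by
    have hDg : ∀ j, ContDiff ℝ 2 (fun x => B (g j x)) := fun j => hB.comp (g j).contDiff
    have hS : ContDiff ℝ 2 (fun x => ∑ j, B (g j x)) := ContDiff.sum fun j _ => hDg j
    have : ContDiff ℝ 2 (avg g B) := by
      unfold avg
      exact hS.div_const _
    unfold EF
    exact hφ.add (hw.mul this)
  have hW : ContDiff ℝ 2 (fun x : EuclideanSpace ℝ (Fin N) => (1 - ‖x‖ ^ 2) * avg g (fun x => A x - B x) x) := hw.mul hav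
  have hEF : EF φ (avg g A) = fun x => EF φ (avg g B) x + (1 - ‖x‖ ^ 2) * avg g (fun x => A x - B x) x := by
    funext x
    unfold EF avg
    rw [Finset.sum_sub_distrib]
    ring
  have hm0 : ‖iteratedFDeriv ℝ 0 (fun x : EuclideanSpace ℝ (Fin N) => 1 - ‖x‖ ^ 2) x‖ ≤ M := (hM0 x hx).trans hM0'
  have hm1 : ‖iteratedFDeriv ℝ 1 (fun x : EuclideanSpace ℝ (Fin N) => 1 - ‖x‖ ^ 2) x‖ ≤ M := (hM1 x hx).trans hM1'
  have hm2 : ‖iteratedFDeriv ℝ 2 (fun x : EuclideanSpace ℝ (Fin N) => 1 - ‖x‖ ^ 2) x‖ ≤ M := (hM2 x hx).trans hM2'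
  have hd0 := hb x hx 0 (by norm_num)
  have hd1 := hb x hx 1 (by norm_num)
  have hd2 := hb x hx 2 (by norm_num)
  have k1 : ‖iteratedFDeriv ℝ 1 (fun x : EuclideanSpace ℝ (Fin N) => (1 - ‖x‖ ^ 2) * avg g (fun x => A x - B x) x) x‖
      ≤ (4 * M + 1) * ε := by
    have := norm_iteratedFDeriv_mul_le hw hav x (n := 1) (by norm_num)
    rw [Finset.sum_range_succ, Finset.sum_range_succ, Finset.sum_range_zero] at this
    simp only [Nat.choose_zero_right, Nat.choose_self, Nat.cast_one, one_mul, zero_add, Nat.sub_zero] at this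
    have a1 := mul_le_mul hm0 hd1 (norm_nonneg _) hMn
    have a2 := mul_le_mul hm1 hd0 (norm_nonneg _) hMn
    nlinarith
  have k2 : ‖iteratedFDeriv ℝ 2 (fun x : EuclideanSpace ℝ (Fin N) => (1 - ‖x‖ ^ 2) * avg g (fun x => A x - B x) x) x‖
      ≤ (4 * M + 1) * ε := by
    have := norm_iteratedFDeriv_mul_le hw hav x (n := 2) (by norm_num)
    rw [Finset.sum_range_succ, Finset.sum_range_succ, Finset.sum_range_succ, Finset.sum_range_zero] at this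
    simp only [Nat.choose_zero_right, Nat.choose_self, Nat.cast_one, one_mul, zero_add, Nat.sub_zero,
      Nat.choose_one_right, Nat.cast_ofNat, Nat.reduceSub] at this
    have a1 := mul_le_mul hm0 hd2 (norm_nonneg _) hMn
    have a2 := mul_le_mul hm1 hd1 (norm_nonneg _) hMn
    have a3 := mul_le_mul hm2 hd0 (norm_nonneg _) hMn
    nlinarith
  constructor
  · rw [hEF]
    have e1 : fderiv ℝ (fun x => EF φ (avg g B) x + (1 - ‖x‖ ^ 2) * avg g (fun x => A x - B x) x) x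
        = fderiv ℝ (EF φ (avg g B)) x
          + fderiv ℝ (fun x : EuclideanSpace ℝ (Fin N) => (1 - ‖x‖ ^ 2) * avg g (fun x => A x - B x) x) x :=
      fderiv_fun_add (hB'.differentiable (by norm_num) x) (hW.differentiable (by norm_num) x)
    rw [e1, add_sub_cancel_left, ← norm_iteratedFDeriv_one]
    exact k1
  · intro h
    rw [hEF]
    have e1 : iteratedFDeriv ℝ 2 (fun x => EF φ (avg g B) x + (1 - ‖x‖ ^ 2) * avg g (fun x => A x - B x) x) x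
        = iteratedFDeriv ℝ 2 (EF φ (avg g B)) x
          + iteratedFDeriv ℝ 2 (fun x : EuclideanSpace ℝ (Fin N) => (1 - ‖x‖ ^ 2) * avg g (fun x => A x - B x) x) x :=
      iteratedFDeriv_add_apply hB'.contDiffAt hW.contDiffAt
    rw [e1, _root_.add_apply, add_sub_cancel_left, ← Real.norm_eq_abs]
    have := (iteratedFDeriv ℝ 2 (fun x : EuclideanSpace ℝ (Fin N) => (1 - ‖x‖ ^ 2) * avg g (fun x => A x - B x) x) x).le_opNorm ![h, h]
    rw [Fin.prod_univ_two] at this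
    simp only [Matrix.cons_val_zero, Matrix.cons_val_one] at this
    calc _ ≤ _ := this
      _ ≤ (4 * M + 1) * ε * (‖h‖ * ‖h‖) := mul_le_mul_of_nonneg_right k2 (by positivity)
      _ = _ := by ring

end Pool.Agent.CNX
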