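import Pool.Agent.CNX.EX_C
import Pool.Agent.CNX.EX_D
import Pool.Agent.CNX.EX_E1
import Pool.Agent.CNX.EX_E2

/-!
# EX_E (difficulty 2): extension by an averaged polynomial

`A` from `ELStmt`; `EP φ A K` (with `v = v₀`), `avg_EP`, `EP_grad` for `avg g A`; `κ`, `ρ` from `hess_unif`, `grad_unif` for `EF φ (avg g A)`; `Q` from `PAStmt` with
`ε = min κ ρ / (2 C)`, `C` from `pert_small`. The result with `κ/2`; `‖fderiv (EF φ (avg g Q)) x - innerSL p‖ ≥ ρ/2 > 0`.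
-/

set_option autoImplicit false

namespace Pool.Agent.CNX

open MvPolynomial

theorem ext_poly (hEL : ELStmt) (hPA : PAStmt) {N : ℕ} (hN : 2 ≤ N)
    {φ : EuclideanSpace ℝ (Fin N) → ℝ} (hφ : ContDiff ℝ ((⊤ : ℕ∞) : WithTop ℕ∞) φ)
    {K : Set (EuclideanSpace ℝ (Fin N))} (hK : IsCompact K) (hG : ∀ p ∈ K, Growth φ p)
    {ι : Type} [Fintype ι] [Nonempty ι]
    (g : ι → (EuclideanSpace ℝ (Fin N) ≃ₗᵢ[ℝ] EuclideanSpace ℝ (Fin N)))
    (hg : ∀ i x, φ (g i x) = φ x) (hgK : ∀ i, ∀ p ∈ K, g i p = p) :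
    ∃ Q : MvPolynomial (Fin N) ℝ, ∃ κ : ℝ, 0 < κ ∧
      (∀ x, ‖x‖ ≤ 1 → ∀ h, κ * ‖h‖ ^ 2 ≤ iteratedFDeriv ℝ 2
        (EF φ (avg g (fun x : EuclideanSpace ℝ (Fin N) => eval x.ofLp Q))) x ![h, h]) ∧
      ∀ x, ‖x‖ ≤ 1 → ∀ p ∈ K, ∃ h, fderiv ℝ
        (EF φ (avg g (fun x : EuclideanSpace ℝ (Fin N) => eval x.ofLp Q))) x h ≠ inner ℝ p h := by
  obtain ⟨A, hA, hA2, hA3⟩ := hEL N φ K hN hφ hK hG
  have hφ2 : ContDiff ℝ 2 φ := by exact_mod_cast contDiff_infty.1 hφ 2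
  have hAc : ContDiff ℝ 2 A := by exact_mod_cast contDiff_infty.1 hA 2
  have hEP : EP φ A K := by
    refine ⟨hA2, fun p hp => ?_⟩
    obtain ⟨v₀, h1, k, hk, h2⟩ := hA3 p hp
    exact ⟨v₀, v₀, h1, h1.le, k, hk, h2⟩
  have hEP' := avg_EP hφ2 hAc hEP g hg hgK
  have hav := avg_contDiff hAc g
  have hEF : ContDiff ℝ 2 (EF φ (avg g A)) := by
    unfold EF
    exact hφ2.add ((contDiff_const.sub (contDiff_norm_sq ℝ)).mul hav)
  obtain ⟨κ, hκ, hh⟩ := hess_unif hEF hEP'.1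
  obtain ⟨ρ, hρ, hgr⟩ := grad_unif hEF hK (EP_grad hφ2 hav hEP')
  obtain ⟨C, hC, hpert⟩ := pert_small N
  obtain ⟨Q, hQ⟩ := hPA N A hAc (min κ ρ / (2 * C)) (div_pos (lt_min hκ hρ) (by positivity))
  have hQc : ContDiff ℝ 2 (fun x : EuclideanSpace ℝ (Fin N) => eval x.ofLp Q) :=
    contDiff_evalComp Q (fun x : EuclideanSpace ℝ (Fin N) => x.ofLp) 2
      (fun i => (EuclideanSpace.proj (𝕜 := ℝ) i).contDiff)
  have hp := hpert φ A (fun x : EuclideanSpace ℝ (Fin N) => eval x.ofLp Q) (min κ ρ / (2 * C)) hφ2 hAc hQc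
    (by positivity) hQ ι g
  have e : C * (min κ ρ / (2 * C)) = min κ ρ / 2 := by
    field_simp
  rw [e] at hp
  have m1 : min κ ρ ≤ κ := min_le_left _ _
  have m2 : min κ ρ ≤ ρ := min_le_right _ _
  refine ⟨Q, κ / 2, by positivity, ?_, ?_⟩
  · intro x hx h
    have h1 := (abs_le.1 ((hp x hx).2 h)).2
    have h2 := hh x hx h
    have h3 : min κ ρ / 2 * ‖h‖ ^ 2 ≤ κ / 2 * ‖h‖ ^ 2 := mul_le_mul_of_nonneg_right (by linarith) (sq_nonneg _)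
    have h4 : κ * ‖h‖ ^ 2 = κ / 2 * ‖h‖ ^ 2 + κ / 2 * ‖h‖ ^ 2 := by ring
    linarith
  · intro x hx p hpK
    by_contra hcon
    push Not at hcon
    have h1 : fderiv ℝ (EF φ (avg g (fun x : EuclideanSpace ℝ (Fin N) => eval x.ofLp Q))) x = innerSL ℝ p := by
      ext h
      rw [hcon h, innerSL_apply_apply]
    have h2 := (hp x hx).1
    have h3 := hgr x hx p hpK
    rw [h1] at h2
    linarith

end Pool.Agent.CNX
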