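import Pool.Agent.CNX.ExDefs

/-!
# EX_F (difficulty 2): averaged polynomials are polynomials in the squares

Both sides are additive in `Q` (`MvPolynomial.induction_on'` / write `Q` as the sum of its monomials), so let `Q = monomial s c`:
`eval x (monomial s c) = c * ∏ i, x i ^ s i` (`MvPolynomial.eval_monomial`, `Finsupp.prod_fintype`, `Fin.prod_univ_three/four`). `(w ^ n + (-w) ^ n)/2 = (w²)^(n/2)` for `n` even, `0` for `n`
odd. `R = C c * X 0 ^ s 0 * X 1 ^ s 1 * X 2 ^ (s 2 / 2) (* X 3 ^ (s 3 / 2))` or `0`. `NoB R` in `even3`: `R` does not contain `X 3` (keep the property in the induction).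
-/

set_option autoImplicit false

namespace Pool.Agent.CNX

open MvPolynomial

theorem exF_ev (n : ℕ) (w : ℝ) : w ^ n + (-w) ^ n = 2 * (if Even n then (w ^ 2) ^ (n / 2) else 0) := by
  by_cases h : Even n
  · rw [if_pos h, h.neg_pow, ← pow_mul, Nat.mul_div_cancel' h.two_dvd]
    ring
  · rw [if_neg h, (Nat.not_even_iff_odd.1 h).neg_pow]
    ring

theorem exF_mono3 (s : Fin 3 →₀ ℕ) (c : ℝ) (x : Fin 3 → ℝ) :
    eval x (monomial s c) = c * (x 0 ^ s 0 * x 1 ^ s 1 * x 2 ^ s 2) := by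
  rw [eval_monomial, Finsupp.prod_fintype _ _ (fun i => pow_zero _), Fin.prod_univ_three]

theorem exF_mono4 (s : Fin 4 →₀ ℕ) (c : ℝ) (x : Fin 4 → ℝ) :
    eval x (monomial s c) = c * (x 0 ^ s 0 * x 1 ^ s 1 * x 2 ^ s 2 * x 3 ^ s 3) := by
  rw [eval_monomial, Finsupp.prod_fintype _ _ (fun i => pow_zero _), Fin.prod_univ_four]

theorem exF_add {N : ℕ} {ι : Type} [Fintype ι]
    (g : ι → (EuclideanSpace ℝ (Fin N) ≃ₗᵢ[ℝ] EuclideanSpace ℝ (Fin N))) (p q : MvPolynomial (Fin N) ℝ)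
    (x : EuclideanSpace ℝ (Fin N)) :
    avg g (fun x : EuclideanSpace ℝ (Fin N) => eval x.ofLp (p + q)) x =
      avg g (fun x : EuclideanSpace ℝ (Fin N) => eval x.ofLp p) x +
        avg g (fun x : EuclideanSpace ℝ (Fin N) => eval x.ofLp q) x := by
  unfold avg
  simp only [map_add]
  rw [Finset.sum_add_distrib, add_div]

theorem even3 (Q : MvPolynomial (Fin 3) ℝ) : ∃ R : P4, NoB R ∧
    ∀ x : EuclideanSpace ℝ (Fin 3),
      avg g3 (fun x : EuclideanSpace ℝ (Fin 3) => eval x.ofLp Q) x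
        = eval (pt (x 0) (x 1) (x 2 ^ 2) 0) R := by
  induction Q using MvPolynomial.induction_on' with
  | monomial s c =>
    refine ⟨if Even (s 2) then C c * (X 0 ^ s 0 * X 1 ^ s 1 * X 2 ^ (s 2 / 2)) else 0, ?_, ?_⟩
    · intro y0 y1 a b b'
      split
      · simp [pt]
      · simp
    · intro x
      have e : avg g3 (fun x : EuclideanSpace ℝ (Fin 3) => eval x.ofLp (monomial s c)) x =
          c * (x 0 ^ s 0 * x 1 ^ s 1) * (x 2 ^ s 2 + (-x 2) ^ s 2) / 2 := by
        unfold avg g3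
        rw [Fintype.sum_bool]
        simp only [exF_mono3, flp_apply]
        simp
        ring
      rw [e, exF_ev]
      by_cases h : Even (s 2)
      · simp only [if_pos h]
        simp [pt]
        ring
      · simp [if_neg h]
  | add p q hp hq =>
    obtain ⟨R1, n1, h1⟩ := hp
    obtain ⟨R2, n2, h2⟩ := hq
    refine ⟨R1 + R2, fun y0 y1 a b b' => by rw [map_add, map_add, n1 y0 y1 a b b', n2 y0 y1 a b b'], fun x => ?_⟩
    rw [exF_add, h1 x, h2 x, map_add]

theorem even4 (Q : MvPolynomial (Fin 4) ℝ) : ∃ R : P4, ∀ x : EuclideanSpace ℝ (Fin 4),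
    avg g4 (fun x : EuclideanSpace ℝ (Fin 4) => eval x.ofLp Q) x
      = eval (pt (x 0) (x 1) (x 2 ^ 2) (x 3 ^ 2)) R := by
  induction Q using MvPolynomial.induction_on' with
  | monomial s c =>
    refine ⟨if Even (s 2) ∧ Even (s 3) then C c * (X 0 ^ s 0 * X 1 ^ s 1 * X 2 ^ (s 2 / 2) * X 3 ^ (s 3 / 2)) else 0, ?_⟩
    intro x
    have e : avg g4 (fun x : EuclideanSpace ℝ (Fin 4) => eval x.ofLp (monomial s c)) x =
        c * (x 0 ^ s 0 * x 1 ^ s 1) * (x 2 ^ s 2 + (-x 2) ^ s 2) * (x 3 ^ s 3 + (-x 3) ^ s 3) / 4 := by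
      unfold avg g4
      rw [Fintype.sum_prod_type, Fintype.sum_bool, Fintype.sum_bool, Fintype.sum_bool]
      simp only [exF_mono4, flp_apply]
      simp
      ring
    rw [e, exF_ev, exF_ev]
    by_cases h : Even (s 2) <;> by_cases h' : Even (s 3)
    · simp only [if_pos h, if_pos h', if_pos (⟨h, h'⟩ : Even (s 2) ∧ Even (s 3))]
      simp [pt]
      ring
    · simp [h, h']
    · simp [h, h']
    · simp [h, h']
  | add p q hp hq =>
    obtain ⟨R1, h1⟩ := hp
    obtain ⟨R2, h2⟩ := hq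
    refine ⟨R1 + R2, fun x => ?_⟩
    rw [exF_add, h1 x, h2 x, map_add]

end Pool.Agent.CNX
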