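import Pool.Agent.CNX.EX_B
import Pool.Agent.CNX.EX_E
import Pool.Agent.CNX.EX_F

/-!
# EX_G (difficulty 2): level 1

`ext_poly` with `N = 3`, `φ x = U (x 0) (x 1)` (smooth: unfold `U`, `fun_prop` or `contDiff_evalComp`), `K = (fun p => v3 p.1 p.2 0) '' K1` (compact: continuous image), `growth1`, `g = g3`
(`flp_apply`: the coordinates `0, 1` are fixed, the coordinate `2` of `v3 p.1 p.2 0` is `0`); `even3` gives `R`; `EF φ (avg g3 Q) = L1 R` as functions.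
`inner ℝ (v3 p.1 p.2 0) h = p.1 * h 0 + p.2 * h 1` (`EuclideanSpace.inner_eq_star_dotProduct` or `PiLp.inner_apply`, `Fin.sum_univ_three`).
-/

set_option autoImplicit false

namespace Pool.Agent.CNX

theorem exG_inner (a b c : ℝ) (x : EuclideanSpace ℝ (Fin 3)) :
    inner ℝ (v3 a b c) x = a * x 0 + b * x 1 + c * x 2 := by
  rw [PiLp.inner_apply, Fin.sum_univ_three]
  simp [v3]
  ring

theorem level1 (hEL : ELStmt) (hPA : PAStmt) {K1 : Set (ℝ × ℝ)} (hK : IsCompact K1)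
    (hG : ∀ p ∈ K1, GMin p) : ∃ R : P4, NoB R ∧ ∃ κ : ℝ, 0 < κ ∧
      (∀ x, ‖x‖ ≤ 1 → ∀ h, κ * ‖h‖ ^ 2 ≤ iteratedFDeriv ℝ 2 (L1 R) x ![h, h]) ∧
      ∀ x, ‖x‖ ≤ 1 → ∀ p ∈ K1, ∃ h : EuclideanSpace ℝ (Fin 3),
        fderiv ℝ (L1 R) x h ≠ p.1 * h 0 + p.2 * h 1 := by
  have hφ : ContDiff ℝ ((⊤ : ℕ∞) : WithTop ℕ∞) (fun x : EuclideanSpace ℝ (Fin 3) => U (x 0) (x 1)) := by
    unfold U
    have h0 : ContDiff ℝ ((⊤ : ℕ∞) : WithTop ℕ∞) (fun x : EuclideanSpace ℝ (Fin 3) => x 0) := by fun_prop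
    have h1 : ContDiff ℝ ((⊤ : ℕ∞) : WithTop ℕ∞) (fun x : EuclideanSpace ℝ (Fin 3) => x 1) := by fun_prop
    exact (h0.pow 3).add ((h0.mul h1).div_const _)
  have hcont : Continuous (fun p : ℝ × ℝ => v3 p.1 p.2 0) := by
    unfold v3
    apply (PiLp.continuous_toLp 2 _).comp
    apply continuous_pi
    intro i
    fin_cases i
    · exact continuous_fst
    · exact continuous_snd
    · exact continuous_const
  obtain ⟨Q, κ, hκ, h1, h2⟩ := ext_poly hEL hPA (by norm_num) hφ (hK.image hcont)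
    (by
      rintro _ ⟨p, hp, rfl⟩
      exact growth1 p (hG p hp))
    g3
    (by
      intro i x
      show U (flp ![false, false, i] x 0) (flp ![false, false, i] x 1) = U (x 0) (x 1)
      rw [flp_apply, flp_apply]
      simp)
    (by
      rintro i _ ⟨p, hp, rfl⟩
      show flp ![false, false, i] (v3 p.1 p.2 0) = v3 p.1 p.2 0
      ext j
      rw [flp_apply]
      fin_cases j <;> simp [v3])
  obtain ⟨R, hR, hRe⟩ := even3 Q
  have hfun : EF (fun x : EuclideanSpace ℝ (Fin 3) => U (x 0) (x 1))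
      (avg g3 (fun x : EuclideanSpace ℝ (Fin 3) => MvPolynomial.eval x.ofLp Q)) = L1 R := by
    funext x
    unfold EF L1
    rw [hRe x]
  rw [hfun] at h1 h2
  refine ⟨R, hR, κ, hκ, h1, ?_⟩
  intro x hx p hp
  obtain ⟨h, hh⟩ := h2 x hx _ ⟨p, hp, rfl⟩
  refine ⟨h, ?_⟩
  intro he
  apply hh
  rw [he, exG_inner]
  ring

end Pool.Agent.CNX
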