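import Pool.Agent.CNX.EX_A

/-!
# EX_H (difficulty 3): growth at level 2

Let `(s1,t1)`, `κ` be from `GMax p`, `m = U s1 t1 - p.1 s1 - p.2 t1`. On the circle `U s t - p.1 s - p.2 t - m + 2κ(1 - s s1 - t t1) ≤ 0`, hence (`disc_nonpos`) on the closed disc.
So `f(x) = L1 R x - p.1 x0 - p.2 x1 - m + 2κ(1 - x0 s1 - x1 t1) ≤ 0` for `‖x‖ = 1` in `ℝ³` (`L1 R x = U (x 0) (x 1)` there). `f` is convex on the closed unit ball (second derivative `≥ 0` along segments;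
smooth by `contDiff_evalComp`), and every `x` with `‖x‖ ≤ 1` lies on a segment with end points on the sphere: with `e = v3 0 0 1` the points `x ± r e`,... (`x = v3 a b c`: the end points
`v3 a b (± √(1-a²-b²))`, and `|c| ≤ √(1-a²-b²)`). So `f ≤ 0` on the ball. For `z ∈ ℝ⁴`, `‖z‖ = 1`: `x = v3 (z 0) (z 1) (z 2)`, `‖x‖ ≤ 1`,
`‖z - v4 s1 t1 0 0‖² = 2(1 - z0 s1 - z1 t1)`, so `-L1 R x + p.1 z0 + p.2 z1 ≥ -m + κ ‖z - v4 s1 t1 0 0‖²`. `v₀ = v4 s1 t1 0 0`; `-L1 R (v3 s1 t1 0) = -U s1 t1`.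
-/

set_option autoImplicit false

namespace Pool.Agent.CNX

open MvPolynomial

theorem exH_norm3 (x : EuclideanSpace ℝ (Fin 3)) : ‖x‖ ^ 2 = x 0 ^ 2 + x 1 ^ 2 + x 2 ^ 2 := by
  rw [EuclideanSpace.norm_sq_eq, Fin.sum_univ_three]
  simp

theorem exH_norm4 (x : EuclideanSpace ℝ (Fin 4)) :
    ‖x‖ ^ 2 = x 0 ^ 2 + x 1 ^ 2 + x 2 ^ 2 + x 3 ^ 2 := by
  rw [EuclideanSpace.norm_sq_eq, Fin.sum_univ_four]
  simp

theorem exH_inner4 (a b c d : ℝ) (x : EuclideanSpace ℝ (Fin 4)) :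
    inner ℝ (v4 a b c d) x = a * x 0 + b * x 1 + c * x 2 + d * x 3 := by
  rw [PiLp.inner_apply, Fin.sum_univ_four]
  simp [v4]
  ring

theorem exH_cd (R : P4) : ContDiff ℝ 2 (L1 R) := by
  unfold L1 U
  have h0 : ContDiff ℝ 2 (fun x : EuclideanSpace ℝ (Fin 3) => x 0) := by fun_prop
  have h1 : ContDiff ℝ 2 (fun x : EuclideanSpace ℝ (Fin 3) => x 1) := by fun_prop
  have h2 : ContDiff ℝ 2 (fun x : EuclideanSpace ℝ (Fin 3) => x 2) := by fun_prop
  have h3 : ContDiff ℝ 2 (fun x : EuclideanSpace ℝ (Fin 3) =>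
      eval (pt (x 0) (x 1) (x 2 ^ 2) 0) R) := by
    apply contDiff_evalComp
    intro i
    fin_cases i
    · exact h0
    · exact h1
    · exact h2.pow 2
    · exact contDiff_const
  exact ((h0.pow 3).add ((h0.mul h1).div_const _)).add
    ((contDiff_const.sub (contDiff_norm_sq ℝ)).mul h3)

theorem exH_deriv2 {N : ℕ} {F : EuclideanSpace ℝ (Fin N) → ℝ} (hF : ContDiff ℝ 2 F)
    (x h : EuclideanSpace ℝ (Fin N)) (t : ℝ) :
    deriv^[2] (fun t : ℝ => F (x + t • h)) t = iteratedFDeriv ℝ 2 F (x + t • h) ![h, h] := by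
  have hl : ∀ t : ℝ, HasDerivAt (fun t : ℝ => x + t • h) h t := by
    intro t
    have := ((hasDerivAt_id t).smul_const h).const_add x
    simpa using this
  have h1 : ∀ t : ℝ, deriv (fun t : ℝ => F (x + t • h)) t = fderiv ℝ F (x + t • h) h := by
    intro t
    exact (((hF.differentiable (by norm_num)) _).hasFDerivAt.comp_hasDerivAt t (hl t)).deriv
  have h2 : deriv (fun t : ℝ => F (x + t • h)) = fun t => fderiv ℝ F (x + t • h) h := funext h1
  rw [Function.iterate_succ, Function.comp_apply, Function.iterate_one, h2,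
    iteratedFDeriv_two_apply]
  have hd : Differentiable ℝ (fderiv ℝ F) :=
    (hF.fderiv_right (m := 1) (by norm_num)).differentiable (by norm_num)
  have h3 := ((hd (x + t • h)).hasFDerivAt.comp_hasDerivAt t (hl t)).clm_apply
    (hasDerivAt_const t h)
  have h4 := h3.deriv
  simpa using h4

theorem exH_line (R : P4)
    (hc : ∀ x : EuclideanSpace ℝ (Fin 3), ‖x‖ ≤ 1 → ∀ h, 0 ≤ iteratedFDeriv ℝ 2 (L1 R) x ![h, h])
    (a b c : ℝ) (h : a ^ 2 + b ^ 2 + c ^ 2 ≤ 1) : L1 R (v3 a b c) ≤ U a b := by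
  obtain ⟨r, hr⟩ : ∃ r, r = √(1 - a ^ 2 - b ^ 2) := ⟨_, rfl⟩
  have hr0 : 0 ≤ r := by rw [hr]; positivity
  have hr2 : r ^ 2 = 1 - a ^ 2 - b ^ 2 := by
    rw [hr]; exact Real.sq_sqrt (by nlinarith [sq_nonneg c])
  have hcr : |c| ≤ r := by
    rw [hr]; apply Real.le_sqrt_of_sq_le; rw [sq_abs]; linarith
  have hline : ∀ t : ℝ, v3 a b 0 + t • v3 0 0 1 = v3 a b t := by
    intro t
    ext i
    fin_cases i <;> simp [v3]
  obtain ⟨g, hg⟩ : ∃ g : ℝ → ℝ, g = fun t => L1 R (v3 a b 0 + t • v3 0 0 1) := ⟨_, rfl⟩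
  have hgc : ContDiff ℝ 2 g := by
    rw [hg]
    exact (exH_cd R).comp (contDiff_const.add (contDiff_id.smul contDiff_const))
  have hend : ∀ t : ℝ, t ^ 2 = r ^ 2 → g t = U a b := by
    intro t ht
    rw [hg]
    simp only
    rw [hline t]
    unfold L1
    have h1 := exH_norm3 (v3 a b t)
    have h2 : (v3 a b t) 0 = a := rfl
    have h3 : (v3 a b t) 1 = b := rfl
    have h4 : (v3 a b t) 2 = t := rfl
    rw [h1, h2, h3, h4]
    have : 1 - (a ^ 2 + b ^ 2 + t ^ 2) = 0 := by rw [ht, hr2]; ring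
    rw [this]; ring
  have hconv : ConvexOn ℝ (Set.Icc (-r) r) g := by
    apply convexOn_of_deriv2_nonneg (convex_Icc _ _) hgc.continuous.continuousOn
    · exact (hgc.differentiable (by norm_num)).differentiableOn
    · exact ((hgc.iterate_deriv' 1 1).differentiable (by norm_num)).differentiableOn
    · intro t ht
      rw [interior_Icc] at ht
      rw [hg, exH_deriv2 (exH_cd R)]
      apply hc
      rw [hline t]
      have h1 := exH_norm3 (v3 a b t)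
      have h2 : (v3 a b t) 0 = a := rfl
      have h3 : (v3 a b t) 1 = b := rfl
      have h4 : (v3 a b t) 2 = t := rfl
      rw [h2, h3, h4] at h1
      have h5 : t ^ 2 ≤ r ^ 2 := by
        apply sq_le_sq'
        · exact ht.1.le
        · exact ht.2.le
      have h6 := norm_nonneg (v3 a b t)
      nlinarith
  have hc1 := (abs_le.mp hcr)
  have hmax := hconv.le_max_of_mem_Icc (x := -r) (y := r) (z := c)
    (Set.left_mem_Icc.mpr (by linarith)) (Set.right_mem_Icc.mpr (by linarith)) ⟨hc1.1, hc1.2⟩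
  rw [hend r rfl, hend (-r) (by ring), max_self] at hmax
  rw [hg] at hmax
  simp only at hmax
  rw [hline c] at hmax
  exact hmax

theorem growth2 (R : P4)
    (hc : ∀ x : EuclideanSpace ℝ (Fin 3), ‖x‖ ≤ 1 → ∀ h, 0 ≤ iteratedFDeriv ℝ 2 (L1 R) x ![h, h])
    (p : ℝ × ℝ) (h : GMax p) :
    Growth (fun z : EuclideanSpace ℝ (Fin 4) => -(L1 R (v3 (z 0) (z 1) (z 2))))
      (v4 (-p.1) (-p.2) 0 0) := by
  obtain ⟨s0, t0, h0, κ, hκ, hg⟩ := h
  have hd := disc_nonpos (p.1 + 2 * κ * s0) (p.2 + 2 * κ * t0)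
    (U s0 t0 - p.1 * s0 - p.2 * t0 - 2 * κ) (by
      intro s t hst
      have := hg s t hst
      nlinarith)
  refine ⟨v4 s0 t0 0 0, ?_, κ, hκ, ?_⟩
  · have h1 := exH_norm4 (v4 s0 t0 0 0)
    have h2 : (v4 s0 t0 0 0) 0 = s0 := rfl
    have h3 : (v4 s0 t0 0 0) 1 = t0 := rfl
    have h4 : (v4 s0 t0 0 0) 2 = 0 := rfl
    have h44 : (v4 s0 t0 0 0) 3 = 0 := rfl
    rw [h2, h3, h4, h44] at h1
    have h5 : ‖v4 s0 t0 0 0‖ ^ 2 = 1 := by rw [h1]; linarith
    have h6 := norm_nonneg (v4 s0 t0 0 0)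
    nlinarith
  · intro v hv
    have h1 := exH_norm4 v
    have h7 := exH_norm4 (v - v4 s0 t0 0 0)
    have h2 : (v - v4 s0 t0 0 0) 0 = v 0 - s0 := rfl
    have h3 : (v - v4 s0 t0 0 0) 1 = v 1 - t0 := rfl
    have h4 : (v - v4 s0 t0 0 0) 2 = v 2 - 0 := rfl
    have h44 : (v - v4 s0 t0 0 0) 3 = v 3 - 0 := rfl
    rw [h2, h3, h4, h44] at h7
    rw [hv] at h1
    have h5 : (v4 s0 t0 0 0) 0 = s0 := rfl
    have h6 : (v4 s0 t0 0 0) 1 = t0 := rfl
    have h61 : (v4 s0 t0 0 0) 2 = 0 := rfl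
    have h8 := hd (v 0) (v 1) (by nlinarith [sq_nonneg (v 2), sq_nonneg (v 3)])
    have h10 := exH_line R hc (v 0) (v 1) (v 2) (by nlinarith [sq_nonneg (v 3)])
    have h11 : L1 R (v3 s0 t0 0) = U s0 t0 := by
      unfold L1
      have g1 := exH_norm3 (v3 s0 t0 0)
      have g2 : (v3 s0 t0 0) 0 = s0 := rfl
      have g3 : (v3 s0 t0 0) 1 = t0 := rfl
      have g4 : (v3 s0 t0 0) 2 = 0 := rfl
      rw [g1, g2, g3, g4]
      have : 1 - (s0 ^ 2 + t0 ^ 2 + 0 ^ 2) = 0 := by linarith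
      rw [this]; ring
    simp only
    rw [exH_inner4, exH_inner4, h7, h5, h6, h61, h11]
    nlinarith

end Pool.Agent.CNX
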