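import Pool.Agent.CNX.EX_H
import Pool.Agent.CNX.EX_E
import Pool.Agent.CNX.EX_F

/-!
# EX_I (difficulty 2): level 2

`ext_poly` with `N = 4`, `φ z = -(L1 R (v3 (z 0) (z 1) (z 2)))` (smooth; `‖v3 a b c‖² = a²+b²+c²`), `K = (fun p => v4 (-p.1) (-p.2) 0 0) '' K2`, `growth2`, `g = g4`
(`L1 R` contains `x 2` only through `x 2 ^ 2` and `‖x‖²`); `even4` gives `R'`, `S := -R'`; `L2 R S = fun z => -(EF φ (avg g4 Q) z)` as functions.
-/

set_option autoImplicit false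

namespace Pool.Agent.CNX

open MvPolynomial

theorem exI_norm3 (a b c : ℝ) : ‖v3 a b c‖ ^ 2 = a ^ 2 + b ^ 2 + c ^ 2 := by
  rw [EuclideanSpace.norm_sq_eq, Fin.sum_univ_three]
  simp [v3]

theorem exI_L1 (R : P4) (a b c : ℝ) :
    L1 R (v3 a b c) = U a b + (1 - (a ^ 2 + b ^ 2 + c ^ 2)) * eval (pt a b (c ^ 2) 0) R := by
  unfold L1
  rw [exI_norm3]
  rfl

theorem exI_coord (i : Fin 4) (n : WithTop ℕ∞) :
    ContDiff ℝ n (fun z : EuclideanSpace ℝ (Fin 4) => z i) :=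
  (EuclideanSpace.proj i : EuclideanSpace ℝ (Fin 4) →L[ℝ] ℝ).contDiff

theorem exI_smooth (R : P4) (n : WithTop ℕ∞) :
    ContDiff ℝ n (fun z : EuclideanSpace ℝ (Fin 4) => -(L1 R (v3 (z 0) (z 1) (z 2)))) := by
  have h0 := exI_coord 0 n
  have h1 := exI_coord 1 n
  have h2 := exI_coord 2 n
  have he : (fun z : EuclideanSpace ℝ (Fin 4) => -(L1 R (v3 (z 0) (z 1) (z 2)))) =
      fun z : EuclideanSpace ℝ (Fin 4) => -((z 0 ^ 3 + z 0 * z 1 / 100)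
        + (1 - (z 0 ^ 2 + z 1 ^ 2 + z 2 ^ 2)) * eval (pt (z 0) (z 1) (z 2 ^ 2) 0) R) := by
    funext z
    rw [exI_L1]
    rfl
  rw [he]
  have h3 : ContDiff ℝ n (fun z : EuclideanSpace ℝ (Fin 4) =>
      eval (pt (z 0) (z 1) (z 2 ^ 2) 0) R) := by
    refine contDiff_evalComp R (fun z : EuclideanSpace ℝ (Fin 4) => pt (z 0) (z 1) (z 2 ^ 2) 0) n ?_
    intro i
    fin_cases i
    · exact h0
    · exact h1
    · exact h2.pow 2
    · exact contDiff_const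
  exact (((h0.pow 3).add ((h0.mul h1).div_const 100)).add
    ((contDiff_const.sub (((h0.pow 2).add (h1.pow 2)).add (h2.pow 2))).mul h3)).neg

theorem exI_inner (a b : ℝ) (h : EuclideanSpace ℝ (Fin 4)) :
    inner ℝ (v4 a b 0 0) h = a * h 0 + b * h 1 := by
  rw [PiLp.inner_apply, Fin.sum_univ_four]
  simp [v4, mul_comm]

theorem level2 (hEL : ELStmt) (hPA : PAStmt) {R : P4} {κ : ℝ} (hκ : 0 < κ)
    (hc : ∀ x, ‖x‖ ≤ 1 → ∀ h, κ * ‖h‖ ^ 2 ≤ iteratedFDeriv ℝ 2 (L1 R) x ![h, h])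
    {K2 : Set (ℝ × ℝ)} (hK : IsCompact K2) (hG : ∀ p ∈ K2, GMax p) :
    ∃ S : P4, ∃ κ' : ℝ, 0 < κ' ∧
      (∀ z, ‖z‖ ≤ 1 → ∀ h, iteratedFDeriv ℝ 2 (L2 R S) z ![h, h] ≤ -κ' * ‖h‖ ^ 2) ∧
      ∀ z, ‖z‖ ≤ 1 → ∀ p ∈ K2, ∃ h : EuclideanSpace ℝ (Fin 4),
        fderiv ℝ (L2 R S) z h ≠ p.1 * h 0 + p.2 * h 1 := by
  obtain ⟨φ, hφ⟩ : ∃ φ : EuclideanSpace ℝ (Fin 4) → ℝ,
      φ = fun z : EuclideanSpace ℝ (Fin 4) => -(L1 R (v3 (z 0) (z 1) (z 2))) := ⟨_, rfl⟩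
  have hs : ContDiff ℝ ((⊤ : ℕ∞) : WithTop ℕ∞) φ := by
    rw [hφ]
    exact exI_smooth R _
  have hKc : IsCompact ((fun p : ℝ × ℝ => v4 (-p.1) (-p.2) 0 0) '' K2) := by
    refine hK.image ?_
    unfold v4
    refine (PiLp.continuous_toLp 2 _).comp ?_
    refine continuous_pi fun i => ?_
    fin_cases i
    · exact continuous_fst.neg
    · exact continuous_snd.neg
    · exact continuous_const
    · exact continuous_const
  have hGr : ∀ q ∈ (fun p : ℝ × ℝ => v4 (-p.1) (-p.2) 0 0) '' K2, Growth φ q := by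
    rintro _ ⟨p, hp, rfl⟩
    rw [hφ]
    refine growth2 R (fun x hx h => ?_) p (hG p hp)
    exact (mul_nonneg hκ.le (sq_nonneg ‖h‖)).trans (hc x hx h)
  have hg : ∀ (i : Bool × Bool) (x : EuclideanSpace ℝ (Fin 4)), φ (g4 i x) = φ x := by
    intro i x
    have e0 : (g4 i x) 0 = x 0 := by
      unfold g4
      rw [flp_apply]
      rfl
    have e1 : (g4 i x) 1 = x 1 := by
      unfold g4
      rw [flp_apply]
      rfl
    have e2 : (g4 i x) 2 ^ 2 = x 2 ^ 2 := by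
      unfold g4
      rw [flp_apply]
      split
      · ring
      · rfl
    rw [hφ]
    simp only
    rw [exI_L1, exI_L1, e0, e1, e2]
  have hgK : ∀ (i : Bool × Bool), ∀ q ∈ (fun p : ℝ × ℝ => v4 (-p.1) (-p.2) 0 0) '' K2,
      g4 i q = q := by
    rintro i _ ⟨p, hp, rfl⟩
    ext j
    unfold g4
    rw [flp_apply]
    fin_cases j
    · rfl
    · rfl
    · simp [v4]
    · simp [v4]
  obtain ⟨Q, κ', hκ', h1, h2⟩ := ext_poly hEL hPA (by norm_num) hs hKc hGr g4 hg hgK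
  obtain ⟨R', hR'⟩ := even4 Q
  have hL : L2 R (-R') = -(EF φ (avg g4 (fun x : EuclideanSpace ℝ (Fin 4) => eval x.ofLp Q))) := by
    funext z
    rw [Pi.neg_apply]
    unfold EF
    rw [hR' z, hφ]
    simp only
    rw [exI_L1]
    unfold L2
    rw [map_neg]
    ring
  refine ⟨-R', κ', hκ', fun z hz h => ?_, fun z hz p hp => ?_⟩
  · rw [hL, iteratedFDeriv_neg_apply]
    have h3 := h1 z hz h
    rw [neg_mul]
    exact neg_le_neg h3
  · obtain ⟨h, hh⟩ := h2 z hz (v4 (-p.1) (-p.2) 0 0) ⟨p, hp, rfl⟩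
    refine ⟨h, fun hcon => hh ?_⟩
    rw [exI_inner]
    rw [hL, fderiv_neg] at hcon
    have h4 : -(fderiv ℝ (EF φ (avg g4 (fun x : EuclideanSpace ℝ (Fin 4) => eval x.ofLp Q))) z h)
        = p.1 * h 0 + p.2 * h 1 := hcon
    linarith

end Pool.Agent.CNX
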