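import Pool.Agent.CNX.ExDefs
import Pool.Agent.CNX.CO_D

/-!
# EX_J1 (difficulty 2): the two quadratic maps `xq3`, `xq4`

Use `EQ_hess`, `EQ_fderiv` (CO_D) with `t = 0` and `Fin.sum_univ_three/four`; `xq3.q x = pt (x 0) (x 1) (x 2 ^ 2) (1 - x 0 ^ 2 - x 1 ^ 2 - x 2 ^ 2)`,
`xq4.q z = pt (z 0) (z 1) (z 2 ^ 2) (z 3 ^ 2)`. `EQ_q3`: `eval (xq3.q x) (FRS R S)`: the factor of `S` is `0`, the factor of `R` is `1 - ‖x‖²`, `NoB`.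
-/

set_option autoImplicit false

namespace Pool.Agent.CNX

open MvPolynomial

theorem exJ1_q3 (x : EuclideanSpace ℝ (Fin 3)) :
    xq3.q x = pt (x 0) (x 1) (x 2 ^ 2) (1 - x 0 ^ 2 - x 1 ^ 2 - x 2 ^ 2) := by
  ext i
  fin_cases i <;> simp [QM.q, xq3, pt, Fin.sum_univ_three]
  ring

theorem exJ1_q3' (x h : EuclideanSpace ℝ (Fin 3)) :
    xq3.q' x h = ![h 0, h 1, 2 * x 2 * h 2, -2 * x 0 * h 0 - 2 * x 1 * h 1 - 2 * x 2 * h 2] := by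
  ext i
  fin_cases i <;> simp [QM.q', xq3, Fin.sum_univ_three] <;> ring

theorem exJ1_q4 (z : EuclideanSpace ℝ (Fin 4)) :
    xq4.q z = pt (z 0) (z 1) (z 2 ^ 2) (z 3 ^ 2) := by
  ext i
  fin_cases i <;> simp [QM.q, xq4, pt, Fin.sum_univ_four]

theorem exJ1_q4' (z h : EuclideanSpace ℝ (Fin 4)) :
    xq4.q' z h = ![h 0, h 1, 2 * z 2 * h 2, 2 * z 3 * h 3] := by
  ext i
  fin_cases i <;> simp [QM.q', xq4, Fin.sum_univ_four] <;> ring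

theorem exJ1_frs (R S : P4) (a b c d : ℝ) : eval (pt a b c d) (FRS R S) =
    a ^ 3 + 1 / 100 * a * b + (1 - a ^ 2 - b ^ 2 - c) * eval (pt a b c d) R
      + (1 - a ^ 2 - b ^ 2 - c - d) * eval (pt a b c d) S := by
  unfold FRS
  simp only [map_add, map_sub, map_mul, map_pow, map_one, eval_X, eval_C]
  rfl

theorem EQ_q3 (R S : P4) (hR : NoB R) : EQ (FRS R S) xq3 0 = L1 R := by
  funext x
  unfold EQ L1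
  rw [exJ1_q3, exJ1_frs, EuclideanSpace.norm_sq_eq, hR _ _ _ _ 0]
  simp only [Fin.sum_univ_three, Real.norm_eq_abs, sq_abs, Pi.zero_apply, zero_mul]
  unfold U
  ring

theorem EQ_q4 (R S : P4) (hR : NoB R) : EQ (FRS R S) xq4 0 = L2 R S := by
  funext z
  unfold EQ L2
  rw [exJ1_q4, exJ1_frs, EuclideanSpace.norm_sq_eq, hR _ _ _ _ 0]
  simp only [Fin.sum_univ_four, Real.norm_eq_abs, sq_abs, Pi.zero_apply, zero_mul]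
  unfold U
  ring

theorem hess3 (F : P4) (x h : EuclideanSpace ℝ (Fin 3)) :
    iteratedFDeriv ℝ 2 (EQ F xq3 0) x ![h, h] =
      hF F (pt (x 0) (x 1) (x 2 ^ 2) (1 - x 0 ^ 2 - x 1 ^ 2 - x 2 ^ 2))
          ![h 0, h 1, 2 * x 2 * h 2, -2 * x 0 * h 0 - 2 * x 1 * h 1 - 2 * x 2 * h 2]
        + 2 * dF F 2 (pt (x 0) (x 1) (x 2 ^ 2) (1 - x 0 ^ 2 - x 1 ^ 2 - x 2 ^ 2)) * h 2 ^ 2
        - 2 * dF F 3 (pt (x 0) (x 1) (x 2 ^ 2) (1 - x 0 ^ 2 - x 1 ^ 2 - x 2 ^ 2)) *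
            (h 0 ^ 2 + h 1 ^ 2 + h 2 ^ 2) := by
  rw [EQ_hess, exJ1_q3, exJ1_q3']
  simp only [Fin.sum_univ_four, Fin.sum_univ_three, xq3]
  simp
  ring

theorem grad3 (F : P4) (x h : EuclideanSpace ℝ (Fin 3)) :
    fderiv ℝ (EQ F xq3 0) x h =
      dF F 0 (pt (x 0) (x 1) (x 2 ^ 2) (1 - x 0 ^ 2 - x 1 ^ 2 - x 2 ^ 2)) * h 0
      + dF F 1 (pt (x 0) (x 1) (x 2 ^ 2) (1 - x 0 ^ 2 - x 1 ^ 2 - x 2 ^ 2)) * h 1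
      + dF F 2 (pt (x 0) (x 1) (x 2 ^ 2) (1 - x 0 ^ 2 - x 1 ^ 2 - x 2 ^ 2)) * (2 * x 2 * h 2)
      + dF F 3 (pt (x 0) (x 1) (x 2 ^ 2) (1 - x 0 ^ 2 - x 1 ^ 2 - x 2 ^ 2)) *
        (-2 * x 0 * h 0 - 2 * x 1 * h 1 - 2 * x 2 * h 2) := by
  rw [EQ_fderiv, exJ1_q3, exJ1_q3']
  simp only [Fin.sum_univ_four, Fin.sum_univ_three]
  simp

theorem hess4 (F : P4) (z h : EuclideanSpace ℝ (Fin 4)) :
    iteratedFDeriv ℝ 2 (EQ F xq4 0) z ![h, h] =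
      hF F (pt (z 0) (z 1) (z 2 ^ 2) (z 3 ^ 2)) ![h 0, h 1, 2 * z 2 * h 2, 2 * z 3 * h 3]
        + 2 * dF F 2 (pt (z 0) (z 1) (z 2 ^ 2) (z 3 ^ 2)) * h 2 ^ 2
        + 2 * dF F 3 (pt (z 0) (z 1) (z 2 ^ 2) (z 3 ^ 2)) * h 3 ^ 2 := by
  rw [EQ_hess, exJ1_q4, exJ1_q4']
  simp only [Fin.sum_univ_four, xq4]
  simp
  ring

theorem grad4 (F : P4) (z h : EuclideanSpace ℝ (Fin 4)) :
    fderiv ℝ (EQ F xq4 0) z h =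
      dF F 0 (pt (z 0) (z 1) (z 2 ^ 2) (z 3 ^ 2)) * h 0
      + dF F 1 (pt (z 0) (z 1) (z 2 ^ 2) (z 3 ^ 2)) * h 1
      + dF F 2 (pt (z 0) (z 1) (z 2 ^ 2) (z 3 ^ 2)) * (2 * z 2 * h 2)
      + dF F 3 (pt (z 0) (z 1) (z 2 ^ 2) (z 3 ^ 2)) * (2 * z 3 * h 3) := by
  rw [EQ_fderiv, exJ1_q4, exJ1_q4']
  simp only [Fin.sum_univ_four]
  simp

end Pool.Agent.CNX
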