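import Pool.Agent.CNX.EX_J1

/-!
# EX_J2 (difficulty 1): (F1) and (F2) for `FRS R S`

(F1) at `y0 y1 w z`, `h0 h1 k l`: the hypothesis at `v4 y0 y1 w z`, `v4 h0 h1 k l` with `EQ_q4`, `hess4`; `‖v4 a b c d‖² = a²+b²+c²+d²` (`EuclideanSpace.norm_sq_eq`, `Fin.sum_univ_four`).
(F2): the same with `v3`, `EQ_q3`, `hess3`.
-/

set_option autoImplicit false

namespace Pool.Agent.CNX

theorem exJ2_n4 (a b c d : ℝ) : ‖v4 a b c d‖ ^ 2 = a ^ 2 + b ^ 2 + c ^ 2 + d ^ 2 := by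
  rw [EuclideanSpace.norm_sq_eq, Fin.sum_univ_four]
  simp [v4]

theorem exJ2_n3 (a b c : ℝ) : ‖v3 a b c‖ ^ 2 = a ^ 2 + b ^ 2 + c ^ 2 := by
  rw [EuclideanSpace.norm_sq_eq, Fin.sum_univ_three]
  simp [v3]

theorem FRS_F1 {R S : P4} (hR : NoB R) {κ : ℝ}
    (h : ∀ z, ‖z‖ ≤ 1 → ∀ h, iteratedFDeriv ℝ 2 (L2 R S) z ![h, h] ≤ -κ * ‖h‖ ^ 2) :
    F1 (FRS R S) κ := by
  intro y0 y1 w z hyp h0 h1 k l
  have hn : ‖v4 y0 y1 w z‖ ≤ 1 := by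
    have e : ‖v4 y0 y1 w z‖ ^ 2 = y0 ^ 2 + y1 ^ 2 + w ^ 2 + z ^ 2 := exJ2_n4 _ _ _ _
    have := norm_nonneg (v4 y0 y1 w z)
    nlinarith
  have key := h (v4 y0 y1 w z) hn (v4 h0 h1 k l)
  rw [← EQ_q4 R S hR, hess4, exJ2_n4] at key
  simpa [v4] using key

theorem FRS_F2 {R : P4} (S : P4) (hR : NoB R) {κ : ℝ}
    (h : ∀ x, ‖x‖ ≤ 1 → ∀ h, κ * ‖h‖ ^ 2 ≤ iteratedFDeriv ℝ 2 (L1 R) x ![h, h]) :
    F2 (FRS R S) κ := by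
  intro y0 y1 w hyp h0 h1 k
  have hn : ‖v3 y0 y1 w‖ ≤ 1 := by
    have e : ‖v3 y0 y1 w‖ ^ 2 = y0 ^ 2 + y1 ^ 2 + w ^ 2 := exJ2_n3 _ _ _
    have := norm_nonneg (v3 y0 y1 w)
    nlinarith
  have key := h (v3 y0 y1 w) hn (v3 h0 h1 k)
  rw [← EQ_q3 R S hR, hess3, exJ2_n3] at key
  simpa [v3] using key

end Pool.Agent.CNX
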