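import Pool.Agent.CNX.EX_J1

/-!
# EX_J3 (difficulty 2): (F3) for `FRS R S`

`gU3_FRS`: at `(t0, t1, 1 - t0² - t1², 0)` both factors of `R`, `S` in `FRS R S` vanish; `F_0 = 3 t0² + t1/100 - 2 t0 (R + S)`, `F_1 = t0/100 - 2 t1 (R+S)`, `F_a = -(R + S)`
(`pderiv` of products, `eval`), so `gU3 = (3 t0² + t1/100, t0/100)`.
(F3): let `p = gU3 t`, in `K1 ∪ K2`. If `p ∈ K1` and `gU1 y = p`: at `x = v3 y0 y1 0` `grad3` gives `fderiv (L1 R) x h = (gU1 y).1 h 0 + (gU1 y).2 h 1` for all `h` (the terms with `x 2 = 0` vanish):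
contradiction to `h1`. If `p ∈ K2` and `gU2 s = p`: at `z = v4 s0 s1 0 0` `grad4` gives `fderiv (L2 R S) z h = (gU2 s).1 h 0 + (gU2 s).2 h 1`: contradiction to `h2`.
-/

set_option autoImplicit false

namespace Pool.Agent.CNX

theorem gU3_FRS (R S : P4) (t0 t1 : ℝ) :
    gU3 (FRS R S) t0 t1 = (3 * t0 ^ 2 + t1 / 100, t0 / 100) := by
  have e0 : dF (FRS R S) 0 (pt t0 t1 (1 - t0 ^ 2 - t1 ^ 2) 0) = 3 * t0 ^ 2 + t1 / 100 -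
      2 * t0 * (MvPolynomial.eval (pt t0 t1 (1 - t0 ^ 2 - t1 ^ 2) 0) R + MvPolynomial.eval (pt t0 t1 (1 - t0 ^ 2 - t1 ^ 2) 0) S) := by
    simp [dF, FRS, MvPolynomial.pderiv_X, pt]
    ring
  have e1 : dF (FRS R S) 1 (pt t0 t1 (1 - t0 ^ 2 - t1 ^ 2) 0) = t0 / 100 -
      2 * t1 * (MvPolynomial.eval (pt t0 t1 (1 - t0 ^ 2 - t1 ^ 2) 0) R + MvPolynomial.eval (pt t0 t1 (1 - t0 ^ 2 - t1 ^ 2) 0) S) := by
    simp [dF, FRS, MvPolynomial.pderiv_X, pt]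
    ring
  have e2 : dF (FRS R S) 2 (pt t0 t1 (1 - t0 ^ 2 - t1 ^ 2) 0) =
      -(MvPolynomial.eval (pt t0 t1 (1 - t0 ^ 2 - t1 ^ 2) 0) R + MvPolynomial.eval (pt t0 t1 (1 - t0 ^ 2 - t1 ^ 2) 0) S) := by
    simp [dF, FRS, MvPolynomial.pderiv_X, pt]
    ring
  unfold gU3
  rw [e0, e1, e2]
  ext <;> simp <;> ring

theorem FRS_F3 {R S : P4} (hR : NoB R) {K1 K2 : Set (ℝ × ℝ)}
    (hK : ∀ s t : ℝ, s ^ 2 + t ^ 2 ≤ 1 → (3 * s ^ 2 + t / 100, s / 100) ∈ K1 ∪ K2)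
    (h1 : ∀ x, ‖x‖ ≤ 1 → ∀ p ∈ K1, ∃ h : EuclideanSpace ℝ (Fin 3),
      fderiv ℝ (L1 R) x h ≠ p.1 * h 0 + p.2 * h 1)
    (h2 : ∀ z, ‖z‖ ≤ 1 → ∀ p ∈ K2, ∃ h : EuclideanSpace ℝ (Fin 4),
      fderiv ℝ (L2 R S) z h ≠ p.1 * h 0 + p.2 * h 1) : F3 (FRS R S) := by
  intro y0 y1 s0 s1 t0 t1 hy hs ht
  rintro ⟨h13, h23⟩
  rw [gU3_FRS] at h13 h23
  rcases hK t0 t1 ht with hp | hp
  · have hn : ‖v3 y0 y1 0‖ ≤ 1 := by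
      have e : ‖v3 y0 y1 0‖ ^ 2 = y0 ^ 2 + y1 ^ 2 := by
        rw [EuclideanSpace.norm_sq_eq, Fin.sum_univ_three]
        simp [v3]
      have := norm_nonneg (v3 y0 y1 0)
      nlinarith
    obtain ⟨h, hne⟩ := h1 _ hn _ hp
    apply hne
    rw [← h13, ← EQ_q3 R S hR, grad3]
    simp [gU1, v3]
    ring
  · have hn : ‖v4 s0 s1 0 0‖ ≤ 1 := by
      have e : ‖v4 s0 s1 0 0‖ ^ 2 = s0 ^ 2 + s1 ^ 2 := by
        rw [EuclideanSpace.norm_sq_eq, Fin.sum_univ_four]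
        simp [v4]
      have := norm_nonneg (v4 s0 s1 0 0)
      nlinarith
    obtain ⟨h, hne⟩ := h2 _ hn _ hp
    apply hne
    rw [← h23, ← EQ_q4 R S hR, grad4]
    simp [gU2, v4]

end Pool.Agent.CNX
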