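import Pool.Agent.CNX.EX_K1
import Pool.Agent.CNX.CO_K1

/-!
# EX_K (difficulty 2): adding the top form

`m ≥ 1` with `s 0 + s 1 + 2 s 2 + 2 s 3 < 2 m + 2` for all `s ∈ F.support` (finite). `T = C ((1/3)^m) X 0 ^ (2m+2) + ...` as in `F4`. `M` = the sum of the constants of `pert_F12 T`, `pert_gU T`; `ρ` from `sep`
(CO_K1). Choose `e > 0` with `e M ≤ κ / 2` and `2 e M < ρ`. `F' = F + C e * T`: (F1), (F2) with `κ/2`; (F3): `gU1' y = gU3' t`, `gU2' s = gU3' t` give `dist (gU1 y) (gU3 t) ≤ 2 e M < ρ` and the same for `gU2`: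
contradiction to `sep`. (F4): `Fl = F`, `e0 = e`.
-/

set_option autoImplicit false

namespace Pool.Agent.CNX

open MvPolynomial

theorem exk_deg (F : P4) : ∃ m : ℕ, 1 ≤ m ∧
    ∀ s ∈ F.support, s 0 + s 1 + 2 * s 2 + 2 * s 3 < 2 * m + 2 := by
  refine ⟨F.support.sup (fun s => s 0 + s 1 + 2 * s 2 + 2 * s 3) + 1, by omega, ?_⟩
  intro s hs
  have := Finset.le_sup (f := fun s : Fin 4 →₀ ℕ => s 0 + s 1 + 2 * s 2 + 2 * s 3) hs
  omega

theorem add_top {F : P4} {κ : ℝ} (hκ : 0 < κ) (h1 : F1 F κ) (h2 : F2 F κ) (h3 : F3 F) :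
    ∃ F' : P4, Good F' := by
  obtain ⟨m, hm, hdeg⟩ := exk_deg F
  obtain ⟨T, hT⟩ : ∃ T : P4, T = C ((1 / 3 : ℝ) ^ m) * X 0 ^ (2 * m + 2)
      + C ((1 / 3 : ℝ) ^ (2 * m)) * X 1 ^ (2 * m + 2)
      + C ((1 / 3 : ℝ) ^ (3 * m)) * X 2 ^ (m + 1)
      + C ((1 / 3 : ℝ) ^ (4 * m)) * X 3 ^ (m + 1) := ⟨_, rfl⟩
  obtain ⟨M1, hM1, hp1⟩ := pert_F12 T
  obtain ⟨M2, hM2, hp2⟩ := pert_gU T
  obtain ⟨ρ, hρ, hsep⟩ := sep h3
  obtain ⟨e, he, hea, heb⟩ : ∃ e : ℝ, 0 < e ∧ e * M1 ≤ κ / 2 ∧ 2 * (e * M2) < ρ := by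
    refine ⟨min (κ / (2 * M1)) (ρ / (4 * M2)), lt_min (by positivity) (by positivity), ?_, ?_⟩
    · calc min (κ / (2 * M1)) (ρ / (4 * M2)) * M1 ≤ κ / (2 * M1) * M1 :=
          mul_le_mul_of_nonneg_right (min_le_left _ _) hM1.le
        _ = κ / 2 := by field_simp
    · have : min (κ / (2 * M1)) (ρ / (4 * M2)) * M2 ≤ ρ / (4 * M2) * M2 :=
        mul_le_mul_of_nonneg_right (min_le_right _ _) hM2.le
      have h4 : ρ / (4 * M2) * M2 = ρ / 4 := by field_simp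
      linarith
  refine ⟨F + C e * T, ⟨κ / 2, by positivity, ?_, ?_⟩, ?_, ?_⟩
  · have hF := (hp1 F κ e he.le).1 h1
    intro y0 y1 w z hb a0 a1 k l
    refine (hF y0 y1 w z hb a0 a1 k l).trans ?_
    have e1 : κ / 2 * (a0 ^ 2 + a1 ^ 2 + k ^ 2 + l ^ 2) ≤
        (κ - e * M1) * (a0 ^ 2 + a1 ^ 2 + k ^ 2 + l ^ 2) :=
      mul_le_mul_of_nonneg_right (by linarith) (by positivity)
    linarith
  · have hF := (hp1 F κ e he.le).2 h2
    intro y0 y1 w hb a0 a1 k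
    refine le_trans ?_ (hF y0 y1 w hb a0 a1 k)
    exact mul_le_mul_of_nonneg_right (by linarith) (by positivity)
  · intro y0 y1 s0 s1 t0 t1 hy hs ht hcon
    obtain ⟨c1, c2⟩ := hcon
    have b1 := (hp2 F e he.le y0 y1 hy).1
    have b2 := (hp2 F e he.le s0 s1 hs).2.1
    have b3 := (hp2 F e he.le t0 t1 ht).2.2
    have hs' := hsep y0 y1 s0 s1 t0 t1 hy hs ht
    have d1 : dist (gU1 F y0 y1) (gU3 F t0 t1) ≤ 2 * (e * M2) := by
      calc dist (gU1 F y0 y1) (gU3 F t0 t1) ≤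
          dist (gU1 F y0 y1) (gU1 (F + C e * T) y0 y1) +
            dist (gU1 (F + C e * T) y0 y1) (gU3 F t0 t1) := dist_triangle _ _ _
        _ ≤ e * M2 + e * M2 := by
            rw [dist_comm (gU1 F y0 y1)]
            rw [← c1] at b3
            exact add_le_add b1 b3
        _ = 2 * (e * M2) := by ring
    have d2 : dist (gU2 F s0 s1) (gU3 F t0 t1) ≤ 2 * (e * M2) := by
      calc dist (gU2 F s0 s1) (gU3 F t0 t1) ≤
          dist (gU2 F s0 s1) (gU2 (F + C e * T) s0 s1) +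
            dist (gU2 (F + C e * T) s0 s1) (gU3 F t0 t1) := dist_triangle _ _ _
        _ ≤ e * M2 + e * M2 := by
            rw [dist_comm (gU2 F s0 s1)]
            rw [← c2] at b3
            exact add_le_add b2 b3
        _ = 2 * (e * M2) := by ring
    have d3 := max_le d1 d2
    linarith
  · exact ⟨m, hm, e, he, F, by rw [hT], hdeg⟩

end Pool.Agent.CNX
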