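import Pool.Agent.CNX.ExDefs
import Pool.Agent.CNX.CO_A

/-!
# EX_K1 (difficulty 2): adding a small polynomial keeps (F1), (F2), (F3)

`dF (F + C e * T) i q = dF F i q + e * dF T i q`, `hF (F + C e * T) q v = hF F q v + e * hF T q v`. With `M` from `polyLip2 T` (all points have `|q i| ≤ 2`): `|hF T q v| ≤ M (∑ |v i|)² ≤ 4 M ∑ v i²`; in (F1)
`v = (h0, h1, 2wk, 2zl)`, `∑ v i² ≤ 4 (h0²+h1²+k²+l²)`; so the extra terms in (F1) are `≤ e (16 M + 2 M) (...)`; in (F2) `|-2y·h - 2wk|² ≤ 4 (h0²+h1²+k²)` (Cauchy-Schwarz, `y²+w² ≤ 1`), extra terms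
`≤ e · 40 M (...)`. The three gradients change by at most `e · 3 M` in each coordinate (`|y i| ≤ 1`).
-/

set_option autoImplicit false

namespace Pool.Agent.CNX

open MvPolynomial

theorem exk1_dF (F T : P4) (e : ℝ) (i : Fin 4) (q : Fin 4 → ℝ) :
    dF (F + C e * T) i q = dF F i q + e * dF T i q := by
  unfold dF
  rw [map_add, pderiv_C_mul, eval_add, eval_mul, eval_C]

theorem exk1_hF (F T : P4) (e : ℝ) (q v : Fin 4 → ℝ) :
    hF (F + C e * T) q v = hF F q v + e * hF T q v := by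
  unfold hF
  rw [Finset.mul_sum, ← Finset.sum_add_distrib]
  apply Finset.sum_congr rfl
  intro i _
  rw [Finset.mul_sum, ← Finset.sum_add_distrib]
  apply Finset.sum_congr rfl
  intro j _
  rw [map_add, pderiv_C_mul, map_add, pderiv_C_mul, eval_add, eval_mul, eval_C]
  ring

theorem exk1_bound (T : P4) (q v : Fin 4 → ℝ) {M : ℝ} (hM0 : 0 ≤ M)
    (hM : ∀ i j, |eval q (pderiv i (pderiv j T))| ≤ M) : |hF T q v| ≤ 4 * M * ∑ i, v i ^ 2 := by
  unfold hF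
  have h1 : |∑ i, ∑ j, v i * v j * eval q (pderiv i (pderiv j T))| ≤
      ∑ i, ∑ j, |v i| * |v j| * M := by
    refine (Finset.abs_sum_le_sum_abs _ _).trans (Finset.sum_le_sum fun i _ => ?_)
    refine (Finset.abs_sum_le_sum_abs _ _).trans (Finset.sum_le_sum fun j _ => ?_)
    rw [abs_mul, abs_mul]
    exact mul_le_mul_of_nonneg_left (hM i j) (by positivity)
  have h2 : ∑ i, ∑ j, |v i| * |v j| * M = M * (∑ i, |v i|) ^ 2 := by
    rw [sq, Finset.sum_mul_sum, Finset.mul_sum]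
    apply Finset.sum_congr rfl
    intro i _
    rw [Finset.mul_sum]
    apply Finset.sum_congr rfl
    intro j _
    ring
  have h3 : (∑ i : Fin 4, |v i|) ^ 2 ≤ 4 * ∑ i, v i ^ 2 := by
    have := sq_sum_le_card_mul_sum_sq (s := (Finset.univ : Finset (Fin 4))) (f := fun i => |v i|)
    simp only [Finset.card_univ, Fintype.card_fin, sq_abs] at this
    exact_mod_cast this
  rw [h2] at h1
  refine h1.trans ?_
  calc M * (∑ i, |v i|) ^ 2 ≤ M * (4 * ∑ i, v i ^ 2) := mul_le_mul_of_nonneg_left h3 hM0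
    _ = 4 * M * ∑ i, v i ^ 2 := by ring

theorem exk1_abs {a : ℝ} (h : a ^ 2 ≤ 1) : |a| ≤ 1 := by
  rw [← sq_le_one_iff_abs_le_one]
  exact h

theorem pert_F12 (T : P4) : ∃ M : ℝ, 0 < M ∧ ∀ (F : P4) (κ e : ℝ), 0 ≤ e →
    (F1 F κ → F1 (F + C e * T) (κ - e * M)) ∧ (F2 F κ → F2 (F + C e * T) (κ - e * M)) := by
  obtain ⟨M, hM1, hM⟩ := polyLip2 T
  have hM0 : 0 ≤ M := by linarith
  refine ⟨40 * M, by linarith, fun F κ e he => ⟨?_, ?_⟩⟩
  · intro h y0 y1 w z hball h0 h1 k l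
    have hb := h y0 y1 w z hball h0 h1 k l
    have hq : ∀ i, |pt y0 y1 (w ^ 2) (z ^ 2) i| ≤ 2 := by
      have a0 : |y0| ≤ 1 := exk1_abs (by nlinarith [sq_nonneg y1, sq_nonneg w, sq_nonneg z])
      have a1 : |y1| ≤ 1 := exk1_abs (by nlinarith [sq_nonneg y0, sq_nonneg w, sq_nonneg z])
      have a2 : |w ^ 2| ≤ 1 := by
        rw [abs_of_nonneg (sq_nonneg w)]
        nlinarith [sq_nonneg y0, sq_nonneg y1, sq_nonneg z]
      have a3 : |z ^ 2| ≤ 1 := by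
        rw [abs_of_nonneg (sq_nonneg z)]
        nlinarith [sq_nonneg y0, sq_nonneg y1, sq_nonneg w]
      intro i
      fin_cases i
      · show |y0| ≤ 2
        linarith
      · show |y1| ≤ 2
        linarith
      · show |w ^ 2| ≤ 2
        linarith
      · show |z ^ 2| ≤ 2
        linarith
    have hMq := hM _ _ hq hq
    have c1 := exk1_bound T (pt y0 y1 (w ^ 2) (z ^ 2)) ![h0, h1, 2 * w * k, 2 * z * l] hM0
      (fun i j => ((hMq i).2.2 j).1)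
    have c2 := (hMq 2).1
    have c3 := (hMq 3).1
    have c4 : ∑ i, (![h0, h1, 2 * w * k, 2 * z * l] : Fin 4 → ℝ) i ^ 2 ≤
        4 * (h0 ^ 2 + h1 ^ 2 + k ^ 2 + l ^ 2) := by
      simp only [Fin.sum_univ_four, Matrix.cons_val_zero, Matrix.cons_val_one, Matrix.cons_val]
      have hw : w ^ 2 ≤ 1 := by nlinarith [sq_nonneg y0, sq_nonneg y1, sq_nonneg z]
      have hz : z ^ 2 ≤ 1 := by nlinarith [sq_nonneg y0, sq_nonneg y1, sq_nonneg w]
      have d1 : w ^ 2 * k ^ 2 ≤ 1 * k ^ 2 := mul_le_mul_of_nonneg_right hw (sq_nonneg k)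
      have d2 : z ^ 2 * l ^ 2 ≤ 1 * l ^ 2 := mul_le_mul_of_nonneg_right hz (sq_nonneg l)
      nlinarith [sq_nonneg h0, sq_nonneg h1]
    rw [exk1_hF, exk1_dF, exk1_dF]
    have c1' := (abs_le.1 c1).2
    have c2' := (abs_le.1 c2).2
    have c3' := (abs_le.1 c3).2
    have e1 : hF T (pt y0 y1 (w ^ 2) (z ^ 2)) ![h0, h1, 2 * w * k, 2 * z * l] ≤
        16 * M * (h0 ^ 2 + h1 ^ 2 + k ^ 2 + l ^ 2) := by
      refine c1'.trans ?_
      have := mul_le_mul_of_nonneg_left c4 (show 0 ≤ 4 * M by positivity)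
      linarith
    have e2 : dF T 2 (pt y0 y1 (w ^ 2) (z ^ 2)) * k ^ 2 ≤ M * k ^ 2 :=
      mul_le_mul_of_nonneg_right c2' (sq_nonneg k)
    have e3 : dF T 3 (pt y0 y1 (w ^ 2) (z ^ 2)) * l ^ 2 ≤ M * l ^ 2 :=
      mul_le_mul_of_nonneg_right c3' (sq_nonneg l)
    have e4 : hF T (pt y0 y1 (w ^ 2) (z ^ 2)) ![h0, h1, 2 * w * k, 2 * z * l] +
        2 * (dF T 2 (pt y0 y1 (w ^ 2) (z ^ 2)) * k ^ 2) +
        2 * (dF T 3 (pt y0 y1 (w ^ 2) (z ^ 2)) * l ^ 2) ≤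
        40 * M * (h0 ^ 2 + h1 ^ 2 + k ^ 2 + l ^ 2) := by
      have f1 : 0 ≤ M * h0 ^ 2 := by positivity
      have f2 : 0 ≤ M * h1 ^ 2 := by positivity
      have f3 : 0 ≤ M * k ^ 2 := by positivity
      have f4 : 0 ≤ M * l ^ 2 := by positivity
      linarith
    have e5 := mul_le_mul_of_nonneg_left e4 he
    linarith
  · intro h y0 y1 w hball h0 h1 k
    have hb := h y0 y1 w hball h0 h1 k
    obtain ⟨zz, hzz⟩ : ∃ zz, zz = 1 - y0 ^ 2 - y1 ^ 2 - w ^ 2 := ⟨_, rfl⟩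
    rw [← hzz] at hb ⊢
    have hq : ∀ i, |pt y0 y1 (w ^ 2) zz i| ≤ 2 := by
      have a0 : |y0| ≤ 1 := exk1_abs (by nlinarith [sq_nonneg y1, sq_nonneg w])
      have a1 : |y1| ≤ 1 := exk1_abs (by nlinarith [sq_nonneg y0, sq_nonneg w])
      have a2 : |w ^ 2| ≤ 1 := by
        rw [abs_of_nonneg (sq_nonneg w)]
        nlinarith [sq_nonneg y0, sq_nonneg y1]
      have a3 : |zz| ≤ 1 := by
        rw [abs_le]
        constructor <;> nlinarith [sq_nonneg y0, sq_nonneg y1, sq_nonneg w]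
      intro i
      fin_cases i
      · show |y0| ≤ 2
        linarith
      · show |y1| ≤ 2
        linarith
      · show |w ^ 2| ≤ 2
        linarith
      · show |zz| ≤ 2
        linarith
    have hMq := hM _ _ hq hq
    have c1 := exk1_bound T (pt y0 y1 (w ^ 2) zz)
      ![h0, h1, 2 * w * k, -2 * y0 * h0 - 2 * y1 * h1 - 2 * w * k] hM0
      (fun i j => ((hMq i).2.2 j).1)
    have c2 := (hMq 2).1
    have c3 := (hMq 3).1
    have c4 : ∑ i, (![h0, h1, 2 * w * k, -2 * y0 * h0 - 2 * y1 * h1 - 2 * w * k] : Fin 4 → ℝ) i ^ 2 ≤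
        8 * (h0 ^ 2 + h1 ^ 2 + k ^ 2) := by
      simp only [Fin.sum_univ_four, Matrix.cons_val_zero, Matrix.cons_val_one, Matrix.cons_val]
      have hw : w ^ 2 ≤ 1 := by nlinarith [sq_nonneg y0, sq_nonneg y1]
      have d1 : w ^ 2 * k ^ 2 ≤ 1 * k ^ 2 := mul_le_mul_of_nonneg_right hw (sq_nonneg k)
      have d2 : (y0 * h0 + y1 * h1 + w * k) ^ 2 ≤ h0 ^ 2 + h1 ^ 2 + k ^ 2 := by
        have d3 : (y0 * h0 + y1 * h1 + w * k) ^ 2 ≤
            (y0 ^ 2 + y1 ^ 2 + w ^ 2) * (h0 ^ 2 + h1 ^ 2 + k ^ 2) := by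
          nlinarith [sq_nonneg (y0 * h1 - y1 * h0), sq_nonneg (y0 * k - w * h0),
            sq_nonneg (y1 * k - w * h1)]
        have d4 : (y0 ^ 2 + y1 ^ 2 + w ^ 2) * (h0 ^ 2 + h1 ^ 2 + k ^ 2) ≤
            1 * (h0 ^ 2 + h1 ^ 2 + k ^ 2) :=
          mul_le_mul_of_nonneg_right hball (by positivity)
        linarith
      nlinarith [sq_nonneg h0, sq_nonneg h1, sq_nonneg k]
    rw [exk1_hF, exk1_dF, exk1_dF]
    have c1' := (abs_le.1 c1).1
    have c2' := (abs_le.1 c2).1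
    have c3' := (abs_le.1 c3).2
    have e1 : -(32 * M * (h0 ^ 2 + h1 ^ 2 + k ^ 2)) ≤ hF T (pt y0 y1 (w ^ 2) zz)
        ![h0, h1, 2 * w * k, -2 * y0 * h0 - 2 * y1 * h1 - 2 * w * k] := by
      refine le_trans ?_ c1'
      have := mul_le_mul_of_nonneg_left c4 (show 0 ≤ 4 * M by positivity)
      linarith
    have e2 : -M * k ^ 2 ≤ dF T 2 (pt y0 y1 (w ^ 2) zz) * k ^ 2 :=
      mul_le_mul_of_nonneg_right c2' (sq_nonneg k)
    have e3 : dF T 3 (pt y0 y1 (w ^ 2) zz) * (h0 ^ 2 + h1 ^ 2 + k ^ 2) ≤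
        M * (h0 ^ 2 + h1 ^ 2 + k ^ 2) :=
      mul_le_mul_of_nonneg_right c3' (by positivity)
    have e4 : -(40 * M * (h0 ^ 2 + h1 ^ 2 + k ^ 2)) ≤ hF T (pt y0 y1 (w ^ 2) zz)
        ![h0, h1, 2 * w * k, -2 * y0 * h0 - 2 * y1 * h1 - 2 * w * k] +
        2 * (dF T 2 (pt y0 y1 (w ^ 2) zz) * k ^ 2) -
        2 * (dF T 3 (pt y0 y1 (w ^ 2) zz) * (h0 ^ 2 + h1 ^ 2 + k ^ 2)) := by
      have f1 : 0 ≤ M * h0 ^ 2 := by positivity
      have f2 : 0 ≤ M * h1 ^ 2 := by positivity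
      have f3 : 0 ≤ M * k ^ 2 := by positivity
      linarith
    have e5 := mul_le_mul_of_nonneg_left e4 he
    linarith

theorem exk1_step {u du a v dv M e : ℝ} (he : 0 ≤ e) (ha : |a| ≤ 1) (hu : |du| ≤ M)
    (hv : |dv| ≤ M) : |(u + e * du - 2 * a * (v + e * dv)) - (u - 2 * a * v)| ≤ e * (3 * M) := by
  have h1 : (u + e * du - 2 * a * (v + e * dv)) - (u - 2 * a * v) = e * (du - 2 * (a * dv)) := by
    ring
  rw [h1, abs_mul, abs_of_nonneg he]
  apply mul_le_mul_of_nonneg_left _ he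
  have h2 : |a * dv| ≤ M := by
    rw [abs_mul]
    calc |a| * |dv| ≤ 1 * M := mul_le_mul ha hv (abs_nonneg _) zero_le_one
      _ = M := one_mul _
  have h3 := abs_le.1 h2
  have h4 := abs_le.1 hu
  rw [abs_le]
  constructor <;> linarith

theorem pert_gU (T : P4) : ∃ M : ℝ, 0 < M ∧ ∀ (F : P4) (e : ℝ), 0 ≤ e →
    ∀ y0 y1 : ℝ, y0 ^ 2 + y1 ^ 2 ≤ 1 →
      dist (gU1 (F + C e * T) y0 y1) (gU1 F y0 y1) ≤ e * M ∧
      dist (gU2 (F + C e * T) y0 y1) (gU2 F y0 y1) ≤ e * M ∧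
      dist (gU3 (F + C e * T) y0 y1) (gU3 F y0 y1) ≤ e * M := by
  obtain ⟨M, hM1, hM⟩ := polyLip2 T
  have hM0 : 0 ≤ M := by linarith
  refine ⟨3 * M, by linarith, fun F e he y0 y1 hy => ?_⟩
  have a0 : |y0| ≤ 1 := exk1_abs (by nlinarith [sq_nonneg y1])
  have a1 : |y1| ≤ 1 := exk1_abs (by nlinarith [sq_nonneg y0])
  have a2 : |1 - y0 ^ 2 - y1 ^ 2| ≤ 1 := by
    rw [abs_le]
    constructor <;> nlinarith [sq_nonneg y0, sq_nonneg y1]
  have hq1 : ∀ i, |pt y0 y1 0 (1 - y0 ^ 2 - y1 ^ 2) i| ≤ 2 := by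
    intro i
    fin_cases i
    · show |y0| ≤ 2
      linarith
    · show |y1| ≤ 2
      linarith
    · show |(0 : ℝ)| ≤ 2
      norm_num
    · show |1 - y0 ^ 2 - y1 ^ 2| ≤ 2
      linarith
  have hq2 : ∀ i, |pt y0 y1 0 0 i| ≤ 2 := by
    intro i
    fin_cases i
    · show |y0| ≤ 2
      linarith
    · show |y1| ≤ 2
      linarith
    · show |(0 : ℝ)| ≤ 2
      norm_num
    · show |(0 : ℝ)| ≤ 2
      norm_num
  have hq3 : ∀ i, |pt y0 y1 (1 - y0 ^ 2 - y1 ^ 2) 0 i| ≤ 2 := by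
    intro i
    fin_cases i
    · show |y0| ≤ 2
      linarith
    · show |y1| ≤ 2
      linarith
    · show |1 - y0 ^ 2 - y1 ^ 2| ≤ 2
      linarith
    · show |(0 : ℝ)| ≤ 2
      norm_num
  have b1 := hM _ _ hq1 hq1
  have b2 := hM _ _ hq2 hq2
  have b3 := hM _ _ hq3 hq3
  refine ⟨?_, ?_, ?_⟩
  · unfold gU1
    rw [Prod.dist_eq]
    apply max_le
    · simp only [exk1_dF, Real.dist_eq]
      exact exk1_step he a0 (b1 0).1 (b1 3).1
    · simp only [exk1_dF, Real.dist_eq]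
      exact exk1_step he a1 (b1 1).1 (b1 3).1
  · unfold gU2
    rw [Prod.dist_eq]
    have key : ∀ i : Fin 4, |dF F i (pt y0 y1 0 0) + e * dF T i (pt y0 y1 0 0) -
        dF F i (pt y0 y1 0 0)| ≤ e * (3 * M) := by
      intro i
      rw [add_sub_cancel_left, abs_mul, abs_of_nonneg he]
      apply mul_le_mul_of_nonneg_left _ he
      exact (b2 i).1.trans (by linarith)
    apply max_le
    · simp only [exk1_dF, Real.dist_eq]
      exact key 0
    · simp only [exk1_dF, Real.dist_eq]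
      exact key 1
  · unfold gU3
    rw [Prod.dist_eq]
    apply max_le
    · simp only [exk1_dF, Real.dist_eq]
      exact exk1_step he a0 (b3 0).1 (b3 2).1
    · simp only [exk1_dF, Real.dist_eq]
      exact exk1_step he a1 (b3 1).1 (b3 2).1

end Pool.Agent.CNX
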