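import Pool.Agent.CNX.EX_G
import Pool.Agent.CNX.EX_I
import Pool.Agent.CNX.EX_J2
import Pool.Agent.CNX.EX_J3
import Pool.Agent.CNX.EX_K

/-!
# EX_Z (difficulty 1): existence of `F`

`K1, K2` from `BaseStmt`, `R` from `level1`, `S` from `level2`, `FRS_F1`, `FRS_F2`, `FRS_F3`, `add_top` (with the minimum of the two constants: `F1 F κ` and `κ' ≤ κ` give `F1 F κ'`).
-/

set_option autoImplicit false

namespace Pool.Agent.CNX

theorem exF (hEL : ELStmt) (hPA : PAStmt) (hB : BaseStmt) : ExFStmt := by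
  obtain ⟨K1, K2, hK1, hK2, hcov, hmin, hmax⟩ := hB
  obtain ⟨R, hR, κ, hκ, h1, h2⟩ := level1 hEL hPA hK1 hmin
  obtain ⟨S, κ', hκ', h3, h4⟩ := level2 hEL hPA hκ h1 hK2 hmax
  have f1 : F1 (FRS R S) κ' := FRS_F1 hR h3
  have f2 : F2 (FRS R S) κ := FRS_F2 S hR h1
  have f3 : F3 (FRS R S) := FRS_F3 hR hcov h2 h4
  have g1 : F1 (FRS R S) (min κ κ') := by
    intro y0 y1 w z hb h0 h1 k l
    refine (f1 y0 y1 w z hb h0 h1 k l).trans ?_
    have e1 : min κ κ' * (h0 ^ 2 + h1 ^ 2 + k ^ 2 + l ^ 2) ≤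
        κ' * (h0 ^ 2 + h1 ^ 2 + k ^ 2 + l ^ 2) :=
      mul_le_mul_of_nonneg_right (min_le_right _ _) (by positivity)
    linarith
  have g2 : F2 (FRS R S) (min κ κ') := by
    intro y0 y1 w hb h0 h1 k
    refine le_trans ?_ (f2 y0 y1 w hb h0 h1 k)
    exact mul_le_mul_of_nonneg_right (min_le_left _ _) (by positivity)
  exact add_top (lt_min hκ hκ') g1 g2 f3

end Pool.Agent.CNX
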