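import Pool.Agent.CNX.CoDefs

/-!
# Definitions for the existence of `F` (section 8)
-/

set_option autoImplicit false

namespace Pool.Agent.CNX

open MvPolynomial

/-- `(y₀, y₁, w)` -/
noncomputable def v3 (a b c : ℝ) : EuclideanSpace ℝ (Fin 3) := WithLp.toLp 2 ![a, b, c]

/-- `(y₀, y₁, w, z)` -/
noncomputable def v4 (a b c d : ℝ) : EuclideanSpace ℝ (Fin 4) := WithLp.toLp 2 ![a, b, c, d]

/-- `φ + (1 - ‖x‖²) A` -/
noncomputable def EF {N : ℕ} (φ A : EuclideanSpace ℝ (Fin N) → ℝ)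
    (x : EuclideanSpace ℝ (Fin N)) : ℝ := φ x + (1 - ‖x‖ ^ 2) * A x

/-- the average of `A` over a finite family of isometries -/
noncomputable def avg {N : ℕ} {ι : Type} [Fintype ι]
    (g : ι → (EuclideanSpace ℝ (Fin N) ≃ₗᵢ[ℝ] EuclideanSpace ℝ (Fin N)))
    (A : EuclideanSpace ℝ (Fin N) → ℝ) (x : EuclideanSpace ℝ (Fin N)) : ℝ :=
  (∑ i, A (g i x)) / (Fintype.card ι : ℝ)

/-- the two properties of the extension -/
def EP {N : ℕ} (φ A : EuclideanSpace ℝ (Fin N) → ℝ) (K : Set (EuclideanSpace ℝ (Fin N))) : Prop :=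
  (∀ x, ‖x‖ ≤ 1 → ∀ h, h ≠ 0 → 0 < iteratedFDeriv ℝ 2 (EF φ A) x ![h, h]) ∧
  ∀ p ∈ K, ∃ v₀ v : EuclideanSpace ℝ (Fin N), ‖v₀‖ = 1 ∧ ‖v‖ ≤ 1 ∧ ∃ k : ℝ, 0 < k ∧
    ∀ x, ‖x‖ ≤ 1 → φ v₀ - inner ℝ p v₀ + k * (1 - inner ℝ v x) ≤ EF φ A x - inner ℝ p x

/-- change of sign of the coordinates `i` with `b i = true` -/
noncomputable def flp {N : ℕ} (b : Fin N → Bool) :
    EuclideanSpace ℝ (Fin N) ≃ₗᵢ[ℝ] EuclideanSpace ℝ (Fin N) :=
  LinearIsometryEquiv.piLpCongrRight 2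
    (fun i => if b i then LinearIsometryEquiv.neg ℝ else LinearIsometryEquiv.refl ℝ ℝ)

theorem flp_apply {N : ℕ} (b : Fin N → Bool) (x : EuclideanSpace ℝ (Fin N)) (i : Fin N) :
    flp b x i = if b i then - x i else x i := by
  unfold flp
  rw [LinearIsometryEquiv.piLpCongrRight_apply]
  simp only
  split <;> simp

/-- the group of level 1 -/
noncomputable def g3 (b : Bool) : EuclideanSpace ℝ (Fin 3) ≃ₗᵢ[ℝ] EuclideanSpace ℝ (Fin 3) :=
  flp ![false, false, b]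

/-- the group of level 2 -/
noncomputable def g4 (b : Bool × Bool) :
    EuclideanSpace ℝ (Fin 4) ≃ₗᵢ[ℝ] EuclideanSpace ℝ (Fin 4) :=
  flp ![false, false, b.1, b.2]

/-- the function of level 1 -/
noncomputable def L1 (R : P4) (x : EuclideanSpace ℝ (Fin 3)) : ℝ :=
  U (x 0) (x 1) + (1 - ‖x‖ ^ 2) * eval (pt (x 0) (x 1) (x 2 ^ 2) 0) R

/-- the function of level 2 -/
noncomputable def L2 (R S : P4) (z : EuclideanSpace ℝ (Fin 4)) : ℝ :=
  U (z 0) (z 1) + (1 - (z 0 ^ 2 + z 1 ^ 2 + z 2 ^ 2)) * eval (pt (z 0) (z 1) (z 2 ^ 2) 0) R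
    + (1 - ‖z‖ ^ 2) * eval (pt (z 0) (z 1) (z 2 ^ 2) (z 3 ^ 2)) S

/-- the polynomial `F` without its top form -/
noncomputable def FRS (R S : P4) : P4 :=
  X 0 ^ 3 + C (1 / 100) * X 0 * X 1 + (1 - X 0 ^ 2 - X 1 ^ 2 - X 2) * R
    + (1 - X 0 ^ 2 - X 1 ^ 2 - X 2 - X 3) * S

/-- `R` does not depend on the last variable -/
def NoB (R : P4) : Prop := ∀ y0 y1 a b b' : ℝ, eval (pt y0 y1 a b) R = eval (pt y0 y1 a b') R

/-- `(y, w², 1 - |x|²)` on `ℝ³` -/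
def xq3 : QM (Fin 3) where
  c := ![0, 0, 0, 1]
  l := ![![1, 0, 0], ![0, 1, 0], 0, 0]
  s := ![0, 0, ![0, 0, 1], ![-1, -1, -1]]

/-- `(y, w², z²)` on `ℝ⁴` -/
def xq4 : QM (Fin 4) where
  c := 0
  l := ![![1, 0, 0, 0], ![0, 1, 0, 0], 0, 0]
  s := ![0, 0, ![0, 0, 1, 0], ![0, 0, 0, 1]]

/-- compositions with polynomials are smooth -/
theorem contDiff_evalComp {E : Type} [NormedAddCommGroup E] [NormedSpace ℝ E] {σ : Type}
    (P : MvPolynomial σ ℝ) (f : E → σ → ℝ) (n : WithTop ℕ∞)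
    (hf : ∀ i, ContDiff ℝ n (fun x => f x i)) : ContDiff ℝ n (fun x => eval (f x) P) := by
  induction P using MvPolynomial.induction_on with
  | C a => simpa using contDiff_const
  | add p q hp hq => simpa using hp.add hq
  | mul_X p i hp => simpa using hp.mul (hf i)

end Pool.Agent.CNX
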