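import Pool.Agent.CNX.Main0
import Pool.Agent.CNX.BO
import Pool.Agent.CNX.BA_F
import Pool.Agent.CNX.EL_41

set_option autoImplicit false

namespace Pool.Agent.CNX

theorem goal : Goal := main0 body el41_final base

end Pool.Agent.CNX
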