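import Pool.Agent.CNX.PADefs

set_option autoImplicit false
set_option linter.all false

/-!
# PA2: the averages commute with the derivative
-/

namespace Pool.Agent.CNX

open MeasureTheory Filter Convolution

/-- the truncated kernel -/
noncomputable def pa2_phi (N n : ℕ) : EuclideanSpace ℝ (Fin N) → ℝ :=
  (Metric.closedBall (0 : EuclideanSpace ℝ (Fin N)) 5).indicator (fun z => PAc z ^ n)

theorem pa2_cont (N n : ℕ) : Continuous (fun z : EuclideanSpace ℝ (Fin N) => PAc z ^ n) := by
  unfold PAc
  fun_prop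

theorem pa2_phi_int (N n : ℕ) : Integrable (pa2_phi N n) := by
  unfold pa2_phi
  rw [integrable_indicator_iff Metric.isClosed_closedBall.measurableSet]
  exact (pa2_cont N n).continuousOn.integrableOn_compact (isCompact_closedBall _ _)

theorem pa2_ind {N n : ℕ} {F : Type} [NormedAddCommGroup F] [NormedSpace ℝ F]
    (h : EuclideanSpace ℝ (Fin N) → F) (x : EuclideanSpace ℝ (Fin N)) :
    ∫ t, pa2_phi N n t • h (x - t) =
      ∫ z in Metric.closedBall (0 : EuclideanSpace ℝ (Fin N)) 5, PAc z ^ n • h (x - z) := by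
  rw [← integral_indicator Metric.isClosed_closedBall.measurableSet]
  congr 1
  funext t
  unfold pa2_phi
  by_cases ht : t ∈ Metric.closedBall (0 : EuclideanSpace ℝ (Fin N)) 5
  · rw [Set.indicator_of_mem ht, Set.indicator_of_mem ht]
  · rw [Set.indicator_of_notMem ht, Set.indicator_of_notMem ht, zero_smul]

theorem pa_fderiv {N : ℕ} {F : Type} [NormedAddCommGroup F] [NormedSpace ℝ F] [CompleteSpace F]
    {h : EuclideanSpace ℝ (Fin N) → F} (hc : ContDiff ℝ 1 h) (hs : HasCompactSupport h) (n : ℕ)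
    (x : EuclideanSpace ℝ (Fin N)) : HasFDerivAt (PAT n h) (PAT n (fderiv ℝ h) x) x := by
  have h1 := hs.hasFDerivAt_convolution_right (μ := (volume : Measure (EuclideanSpace ℝ (Fin N))))
    (f := pa2_phi N n) (ContinuousLinearMap.lsmul ℝ ℝ) (pa2_phi_int N n).locallyIntegrable hc x
  have h2 := h1.const_smul (PAn N n)
  have e1 : PAT n h = fun x => PAn N n • (pa2_phi N n ⋆[ContinuousLinearMap.lsmul ℝ ℝ, volume] h) x := by
    funext y
    unfold PAT
    rw [← pa2_ind]
    rfl
  have e2 : PAT n (fderiv ℝ h) x = PAn N n •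
      (pa2_phi N n ⋆[(ContinuousLinearMap.lsmul ℝ ℝ).precompR (EuclideanSpace ℝ (Fin N)), volume] fderiv ℝ h) x := by
    unfold PAT
    rw [← pa2_ind]
    congr 1
  rw [e1, e2]
  exact h2

end Pool.Agent.CNX
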