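import Pool.Agent.CNX.PADefs

set_option autoImplicit false
set_option linter.all false

/-!
# PA3 (3): the averages are polynomials on the ball of radius 2

`pa_int_poly`: induction on `P` (`MvPolynomial.induction_on'` or `P.induction_on`, or write `P` as the sum of its monomials): for a monomial `∏ X (inl i) ^ a i * ∏ X (inr i) ^ b i` the integral is `(∫ f y * ∏ y i ^ b i) * ∏ x i ^ a i`; sums: `integral_add` (all integrands are continuous
with compact support, `Continuous.integrable_of_hasCompactSupport`). It may be easier to prove the claim `∀ P, ∀ g continuous with compact support, ∃ Q, ∀ x, ∫ y, g y * eval (Sum.elim x y) P = eval x Q` by `MvPolynomial.induction_on P`: constants: `C (a * ∫ g)`; sums; `P * X (inl i)`: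
multiply `Q` by `X i`; `P * X (inr i)`: apply the induction hypothesis to `y ↦ g y * y i`.
`pa_poly`: for `‖x‖ < 2`: `∫ z in closedBall 0 5, PAc z ^ n • f (x - z) = ∫ z, PAc z ^ n * f (x - z)` (for `‖z‖ > 5` we have `‖x - z‖ ≥ 3`, so `f (x - z) = 0`: `setIntegral_eq_integral_of_forall_compl_eq_zero`) `= ∫ y, f y * PAc (x - y) ^ n` (`integral_sub_left_eq_self` or
`MeasureTheory.integral_sub_left_eq_self (fun y => f y * PAc (x - y) ^ n)`), and `PAc (x - y) ^ n = eval (Sum.elim x y) ((1 - C (1/25) * ∑ i, (X (inl i) - X (inr i)) ^ 2) ^ n)` (`EuclideanSpace.norm_sq_eq`, `Real.norm_eq_abs`, `sq_abs`). `f` has compact support: it vanishes outside the closed ball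
of radius 3 (`HasCompactSupport.intro (isCompact_closedBall 0 3)`).
-/

namespace Pool.Agent.CNX

open MeasureTheory Filter MvPolynomial

theorem pa_int_poly {N : ℕ} (P : MvPolynomial (Fin N ⊕ Fin N) ℝ) {g : EuclideanSpace ℝ (Fin N) → ℝ} (hg : Continuous g)
    (hs : HasCompactSupport g) : ∃ Q : MvPolynomial (Fin N) ℝ, ∀ x : EuclideanSpace ℝ (Fin N),
      ∫ y : EuclideanSpace ℝ (Fin N), g y * eval (Sum.elim x.ofLp y.ofLp) P = eval x.ofLp Q := by
  have hcont : ∀ (R : MvPolynomial (Fin N ⊕ Fin N) ℝ) (x : EuclideanSpace ℝ (Fin N)),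
      Continuous (fun y : EuclideanSpace ℝ (Fin N) => eval (Sum.elim x.ofLp y.ofLp) R) := by
    intro R x
    have h1 : Continuous (fun v : (Fin N ⊕ Fin N) → ℝ => eval v R) := MvPolynomial.continuous_eval R
    refine h1.comp ?_
    refine continuous_pi ?_
    rintro (i | i)
    · exact continuous_const
    · exact (EuclideanSpace.proj (𝕜 := ℝ) i).continuous
  have hint : ∀ (R : MvPolynomial (Fin N ⊕ Fin N) ℝ) (x : EuclideanSpace ℝ (Fin N))
      (g : EuclideanSpace ℝ (Fin N) → ℝ), Continuous g → HasCompactSupport g →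
      Integrable (fun y : EuclideanSpace ℝ (Fin N) => g y * eval (Sum.elim x.ofLp y.ofLp) R) := by
    intro R x g hg hs
    exact (hg.mul (hcont R x)).integrable_of_hasCompactSupport hs.mul_right
  have key : ∀ R : MvPolynomial (Fin N ⊕ Fin N) ℝ, ∀ g : EuclideanSpace ℝ (Fin N) → ℝ, Continuous g →
      HasCompactSupport g → ∃ Q : MvPolynomial (Fin N) ℝ, ∀ x : EuclideanSpace ℝ (Fin N),
      ∫ y : EuclideanSpace ℝ (Fin N), g y * eval (Sum.elim x.ofLp y.ofLp) R = eval x.ofLp Q := by
    intro R
    induction R using MvPolynomial.induction_on with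
    | C a =>
      intro g hg hs
      refine ⟨C ((∫ y, g y) * a), fun x => ?_⟩
      simp only [eval_C]
      exact integral_mul_const a g
    | add p q ihp ihq =>
      intro g hg hs
      obtain ⟨Q1, h1⟩ := ihp g hg hs
      obtain ⟨Q2, h2⟩ := ihq g hg hs
      refine ⟨Q1 + Q2, fun x => ?_⟩
      simp only [map_add, mul_add]
      rw [integral_add (hint p x g hg hs) (hint q x g hg hs), h1 x, h2 x]
    | mul_X p i ih =>
      intro g hg hs
      rcases i with i | i
      · obtain ⟨Q1, h1⟩ := ih g hg hs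
        refine ⟨Q1 * X i, fun x => ?_⟩
        simp only [map_mul, eval_X, Sum.elim_inl]
        rw [← h1 x, ← integral_mul_const]
        refine integral_congr_ae (Filter.Eventually.of_forall fun y => ?_)
        simp only
        ring
      · obtain ⟨Q1, h1⟩ := ih (fun y => g y * y.ofLp i)
          (hg.mul (EuclideanSpace.proj (𝕜 := ℝ) i).continuous) hs.mul_right
        refine ⟨Q1, fun x => ?_⟩
        rw [← h1 x]
        refine integral_congr_ae (Filter.Eventually.of_forall fun y => ?_)
        simp only [map_mul, eval_X, Sum.elim_inr]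
        ring
  exact key P g hg hs

theorem pa_poly {N : ℕ} {f : EuclideanSpace ℝ (Fin N) → ℝ} (hf : Continuous f) (h3 : ∀ y, 3 ≤ ‖y‖ → f y = 0) (n : ℕ) :
    ∃ Q : MvPolynomial (Fin N) ℝ, ∀ x : EuclideanSpace ℝ (Fin N), ‖x‖ < 2 → PAT n f x = eval x.ofLp Q := by
  have hs : HasCompactSupport f := by
    refine HasCompactSupport.intro (isCompact_closedBall (0 : EuclideanSpace ℝ (Fin N)) 3) ?_
    intro y hy
    rw [Metric.mem_closedBall, dist_zero_right, not_le] at hy
    exact h3 y hy.le
  obtain ⟨Q, hQ⟩ := pa_int_poly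
    ((1 - C (1 / 25 : ℝ) * ∑ i : Fin N, (X (Sum.inl i) - X (Sum.inr i)) ^ 2) ^ n) hf hs
  refine ⟨C (PAn N n) * Q, fun x hx => ?_⟩
  have hc : ∀ y : EuclideanSpace ℝ (Fin N), PAc (x - y) ^ n =
      eval (Sum.elim x.ofLp y.ofLp)
        ((1 - C (1 / 25 : ℝ) * ∑ i : Fin N, (X (Sum.inl i) - X (Sum.inr i)) ^ 2) ^ n) := by
    intro y
    simp only [map_pow, map_sub, map_one, map_mul, eval_C, map_sum, eval_X, Sum.elim_inl,
      Sum.elim_inr]
    unfold PAc
    rw [EuclideanSpace.norm_sq_eq]
    simp only [Real.norm_eq_abs, sq_abs, PiLp.sub_apply]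
    congr 2
    ring
  have e1 : ∫ z in Metric.closedBall (0 : EuclideanSpace ℝ (Fin N)) 5, PAc z ^ n • f (x - z) =
      ∫ z : EuclideanSpace ℝ (Fin N), PAc z ^ n • f (x - z) := by
    refine setIntegral_eq_integral_of_forall_compl_eq_zero ?_
    intro z hz
    rw [Metric.mem_closedBall, dist_zero_right, not_le] at hz
    have h4 : 3 ≤ ‖x - z‖ := by
      have h5 := norm_sub_norm_le z x
      rw [norm_sub_rev] at h5
      linarith
    rw [h3 _ h4, smul_zero]
  have e2 : ∫ z : EuclideanSpace ℝ (Fin N), PAc z ^ n • f (x - z) =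
      ∫ y : EuclideanSpace ℝ (Fin N), f y * PAc (x - y) ^ n := by
    rw [← integral_sub_left_eq_self (fun y => f y * PAc (x - y) ^ n) volume x]
    refine integral_congr_ae (Filter.Eventually.of_forall fun y => ?_)
    simp only [sub_sub_cancel, smul_eq_mul]
    ring
  unfold PAT
  rw [e1, e2, map_mul, eval_C, ← hQ x, smul_eq_mul]
  congr 1
  refine integral_congr_ae (Filter.Eventually.of_forall fun y => ?_)
  simp only
  rw [hc y]

end Pool.Agent.CNX
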