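import Pool.Agent.CNX.PA1
import Pool.Agent.CNX.PA2
import Pool.Agent.CNX.PA3

set_option autoImplicit false
set_option linter.all false

/-!
# PA4: polynomial approximation in `C²`
-/

namespace Pool.Agent.CNX

open MeasureTheory Filter MvPolynomial

theorem pa4_unif {N : ℕ} {F : Type} [NormedAddCommGroup F] [NormedSpace ℝ F] [CompleteSpace F]
    {h : EuclideanSpace ℝ (Fin N) → EuclideanSpace ℝ (Fin N) →L[ℝ] F} (hc : Continuous h)
    (hs : HasCompactSupport h) {ε : ℝ} (hε : 0 < ε) :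
    ∀ᶠ n : ℕ in atTop, ∀ x, ‖PAT n h x - h x‖ ≤ ε :=
  pa_unif hc hs hε

theorem pa_main (N : ℕ) (A : EuclideanSpace ℝ (Fin N) → ℝ) (hA : ContDiff ℝ 2 A) (ε : ℝ) (hε : 0 < ε) :
    ∃ Q : MvPolynomial (Fin N) ℝ, ∀ x : EuclideanSpace ℝ (Fin N), ‖x‖ ≤ 1 →
      ∀ i ≤ 2, ‖iteratedFDeriv ℝ i (fun x : EuclideanSpace ℝ (Fin N) => A x - eval x.ofLp Q) x‖ ≤ ε := by
  -- the cutoff
  let χ : ContDiffBump (0 : EuclideanSpace ℝ (Fin N)) := ⟨2, 3, by norm_num, by norm_num⟩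
  obtain ⟨f, hf⟩ : ∃ f : EuclideanSpace ℝ (Fin N) → ℝ, f = fun x => χ x * A x := ⟨_, rfl⟩
  have hχ : ContDiff ℝ 2 (fun x => χ x) := χ.contDiff
  have hf2 : ContDiff ℝ 2 f := by rw [hf]; exact hχ.mul hA
  have hfA : ∀ x, ‖x‖ ≤ 2 → f x = A x := by
    intro x hx
    have h1 : χ x = 1 := χ.one_of_mem_closedBall (by
      rw [mem_closedBall_zero_iff]; exact hx)
    rw [hf]
    show χ x * A x = A x
    rw [h1, one_mul]
  have hf3 : ∀ y, 3 ≤ ‖y‖ → f y = 0 := by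
    intro y hy
    have h1 : χ y = 0 := χ.zero_of_le_dist (by
      rw [dist_zero_right]; exact hy)
    rw [hf]
    show χ y * A y = 0
    rw [h1, zero_mul]
  have hfs : HasCompactSupport f := by
    refine HasCompactSupport.intro (isCompact_closedBall (0 : EuclideanSpace ℝ (Fin N)) 3) (fun x hx => ?_)
    rw [mem_closedBall_zero_iff, not_le] at hx
    exact hf3 x hx.le
  have hf1 : ContDiff ℝ 1 f := hf2.of_le (by norm_num)
  have hd1 : ContDiff ℝ 1 (fderiv ℝ f) := hf2.fderiv_right (by norm_num)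
  have hds : HasCompactSupport (fderiv ℝ f) := hfs.fderiv ℝ
  have hd2 : Continuous (fderiv ℝ (fderiv ℝ f)) := hd1.continuous_fderiv one_ne_zero
  have hdds : HasCompactSupport (fderiv ℝ (fderiv ℝ f)) := hds.fderiv ℝ
  have u0 : ∀ᶠ n : ℕ in atTop, ∀ x, ‖PAT n f x - f x‖ ≤ ε := pa_unif hf2.continuous hfs hε
  have u1 : ∀ᶠ n : ℕ in atTop, ∀ x, ‖PAT n (fderiv ℝ f) x - fderiv ℝ f x‖ ≤ ε :=
    pa4_unif hd1.continuous hds hε
  have u2 : ∀ᶠ n : ℕ in atTop, ∀ x, ‖PAT n (fderiv ℝ (fderiv ℝ f)) x - fderiv ℝ (fderiv ℝ f) x‖ ≤ ε :=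
    pa4_unif hd2 hdds hε
  obtain ⟨n, h0, h1, h2⟩ := (u0.and (u1.and u2)).exists
  obtain ⟨Q, hQ⟩ := pa_poly hf2.continuous hf3 n
  refine ⟨Q, fun x hx i hi => ?_⟩
  obtain ⟨g, hg⟩ : ∃ g : EuclideanSpace ℝ (Fin N) → ℝ, g = fun x => f x - PAT n f x := ⟨_, rfl⟩
  have hev : (fun x : EuclideanSpace ℝ (Fin N) => A x - eval x.ofLp Q) =ᶠ[nhds x] g := by
    have hb : Metric.ball (0 : EuclideanSpace ℝ (Fin N)) 2 ∈ nhds x :=
      Metric.isOpen_ball.mem_nhds (by rw [mem_ball_zero_iff]; linarith)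
    filter_upwards [hb] with y hy
    rw [mem_ball_zero_iff] at hy
    rw [hg]
    show A y - eval y.ofLp Q = f y - PAT n f y
    rw [hfA y hy.le, hQ y hy]
  have hgd : ∀ y, HasFDerivAt g (fderiv ℝ f y - PAT n (fderiv ℝ f) y) y := by
    intro y
    rw [hg]
    exact ((hf1.differentiable one_ne_zero).differentiableAt.hasFDerivAt).sub (pa_fderiv hf1 hfs n y)
  have hg1 : fderiv ℝ g = fun y => fderiv ℝ f y - PAT n (fderiv ℝ f) y :=
    funext (fun y => (hgd y).fderiv)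
  have hgd2 : ∀ y, HasFDerivAt (fderiv ℝ g) (fderiv ℝ (fderiv ℝ f) y - PAT n (fderiv ℝ (fderiv ℝ f)) y) y := by
    intro y
    rw [hg1]
    exact ((hd1.differentiable one_ne_zero).differentiableAt.hasFDerivAt).sub (pa_fderiv hd1 hds n y)
  rw [(hev.iteratedFDeriv ℝ i).self_of_nhds]
  interval_cases i
  · rw [norm_iteratedFDeriv_zero, hg, norm_sub_rev]
    exact h0 x
  · rw [norm_iteratedFDeriv_one, hg1, norm_sub_rev]
    exact h1 x
  · rw [← norm_iteratedFDeriv_fderiv, norm_iteratedFDeriv_one, (hgd2 x).fderiv, norm_sub_rev]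
    exact h2 x

end Pool.Agent.CNX
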