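import Pool.Agent.CNX.Defs
import Pool.Agent.CNX.PA4

/-!
# PA5: the statement (PA)
-/

set_option autoImplicit false

namespace Pool.Agent.CNX

theorem pa : PAStmt := by
  intro N A hA ε hε
  exact pa_main N A hA ε hε

end Pool.Agent.CNX
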