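import Pool.Agent.CNX.PB11

/-!
# PB12: (B1), (B2), (B3)

`bgen` with `𝓡 = {x | c ≤ ‖eval x (PM1 F)‖ ∧ c ≤ ‖eval x (PM3 F)‖}`, both clusters perturbed (B1);
`𝓡 = {x | c ≤ ‖eval x (PM1 F)‖}`, cluster 3 exact, cluster 1 perturbed (B2); `𝓡 = univ`, both exact (B3).
`eval_PM1_c5`: `‖eval x.c5 (PM1 F)‖ = |mu1 F x|`.  `Dm = 1 + ∑ |d3 j| + ∑ |d1 j|`.
-/

set_option autoImplicit false

namespace Pool.Agent.CNX

open MvPolynomial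

theorem pb12_QOK_pert (Dm : ℝ) (hDm : 1 ≤ Dm) : QOK Dm (fun om _ d => Pert d om) := by
  refine ⟨fun om om' D d h hP => ⟨hP.1, fun j => ⟨(hP.2 j).1, lt_of_lt_of_le (hP.2 j).2 h⟩⟩, ?_⟩
  intro om D d h hP
  exact ⟨hP.1, fun j => ⟨(hP.2 j).1, by have := (hP.2 j).2; linarith⟩⟩

theorem pb12_QOK_exact (Dm : ℝ) (D₀ : ℕ) (d₀ : Fin D₀ → ℝ) (hmono : StrictMono d₀)
    (hpos : ∀ j, 0 < d₀ j) (hDm : ∑ j, |d₀ j| ≤ Dm) :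
    QOK Dm (fun _ D d => (⟨D, d⟩ : Σ D : ℕ, Fin D → ℝ) = ⟨D₀, d₀⟩) := by
  refine ⟨fun om om' D d _ hP => hP, ?_⟩
  intro om D d _ hP
  cases hP
  refine ⟨hmono, fun j => ⟨hpos j, ?_⟩⟩
  refine le_trans (le_abs_self _) (le_trans ?_ hDm)
  exact Finset.single_le_sum (f := fun j => |d₀ j|) (fun j _ => abs_nonneg (d₀ j))
    (Finset.mem_univ j)

theorem pb12_norm1 {D3 D1 D2 : ℕ} (F : P4) (x : Cfg D3 D1 D2) :
    ‖eval x.c5 (PM1 F)‖ = |mu1 F x| := by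
  rw [eval_PM1_c5, Complex.norm_real, Real.norm_eq_abs]

theorem pb12_norm3 {D3 D1 D2 : ℕ} (F : P4) (x : Cfg D3 D1 D2) :
    ‖eval x.c5 (PM3 F)‖ = |mu3 F x| := by
  rw [eval_PM3_c5, Complex.norm_real, Real.norm_eq_abs]

theorem pb12_closed (q : P5) (c : ℝ) : IsClosed {x : V5 | c ≤ ‖eval x q‖} :=
  isClosed_le continuous_const (MvPolynomial.continuous_eval q).norm

theorem b1 : B1Stmt := by
  intro F hF c R hc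
  obtain ⟨C, om, hom, H⟩ := bgen F hF c R 1 hc
    ({x : V5 | c ≤ ‖eval x (PM1 F)‖} ∩ {x : V5 | c ≤ ‖eval x (PM3 F)‖})
    ((pb12_closed _ c).inter (pb12_closed _ c))
    (fun _ : Fin 1 => (0 : ℝ)) (fun _ : Fin 1 => (0 : ℝ))
    (fun om _ d => Pert d om) (fun om _ d => Pert d om)
    (pb12_QOK_pert 1 le_rfl) (pb12_QOK_pert 1 le_rfl)
    (fun K hK hKR => clOK_pert K hK (PM3 F) c R hc fun x hx => (hKR hx).2)
    (fun K hK hKR => clOK_pert K hK (PM1 F) c R hc fun x hx => (hKR hx).1)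
  refine ⟨C, om, hom, ?_⟩
  intro D3 D1 D2 d3 d1 d2 h3 h1 h2 p e3 e1 e2 hB
  refine le_trans (Set.encard_le_encard ?_) (H D3 D1 D2 d3 d1 d2 h3 h1 h2 p e3 e1 e2 hB)
  rintro x ⟨hx, hl, hm1, hm3⟩
  refine ⟨hx, hl, ?_, ?_⟩
  · show c ≤ ‖eval x.c5 (PM1 F)‖
    rw [pb12_norm1]; exact hm1
  · show c ≤ ‖eval x.c5 (PM3 F)‖
    rw [pb12_norm3]; exact hm3

theorem b2 : B2Stmt := by
  intro F hF c R hc D3 d3 hm3 hp3
  have hS : 0 ≤ ∑ j, |d3 j| := Finset.sum_nonneg fun j _ => abs_nonneg _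
  obtain ⟨C, om, hom, H⟩ := bgen F hF c R (1 + ∑ j, |d3 j|) hc
    {x : V5 | c ≤ ‖eval x (PM1 F)‖} (pb12_closed _ c)
    (fun j => 2 * d3 j) (fun _ : Fin 1 => (0 : ℝ))
    (fun _ D d => (⟨D, d⟩ : Σ D : ℕ, Fin D → ℝ) = ⟨D3, d3⟩) (fun om _ d => Pert d om)
    (pb12_QOK_exact _ D3 d3 hm3 hp3 (by linarith)) (pb12_QOK_pert _ (by linarith))
    (fun K _ _ => clOK_exact K (PM3 F) R D3 d3)
    (fun K hK hKR => clOK_pert K hK (PM1 F) c R hc fun x hx => hKR hx)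
  refine ⟨C, om, hom, ?_⟩
  intro D1 D2 d1 d2 h1 h2 p e3 e1 e2 hB
  refine le_trans (Set.encard_le_encard ?_) (H D3 D1 D2 d3 d1 d2 rfl h1 h2 p e3 e1 e2 hB)
  rintro x ⟨hx, hl, hm1⟩
  refine ⟨hx, hl, ?_⟩
  show c ≤ ‖eval x.c5 (PM1 F)‖
  rw [pb12_norm1]; exact le_trans hm1 (le_abs_self _)

theorem b3 : B3Stmt := by
  intro F hF c R hc D3 d3 hm3 hp3 D1 d1 hm1 hp1
  have hS : 0 ≤ ∑ j, |d3 j| := Finset.sum_nonneg fun j _ => abs_nonneg _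
  have hS1 : 0 ≤ ∑ j, |d1 j| := Finset.sum_nonneg fun j _ => abs_nonneg _
  obtain ⟨C, om, hom, H⟩ := bgen F hF c R (1 + ∑ j, |d3 j| + ∑ j, |d1 j|) hc
    Set.univ isClosed_univ
    (fun j => 2 * d3 j) (fun j => 2 * d1 j)
    (fun _ D d => (⟨D, d⟩ : Σ D : ℕ, Fin D → ℝ) = ⟨D3, d3⟩)
    (fun _ D d => (⟨D, d⟩ : Σ D : ℕ, Fin D → ℝ) = ⟨D1, d1⟩)
    (pb12_QOK_exact _ D3 d3 hm3 hp3 (by linarith)) (pb12_QOK_exact _ D1 d1 hm1 hp1 (by linarith))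
    (fun K _ _ => clOK_exact K (PM3 F) R D3 d3)
    (fun K _ _ => clOK_exact K (PM1 F) R D1 d1)
  refine ⟨C, om, hom, ?_⟩
  intro D2 d2 h2 p e3 e1 e2 hB
  refine le_trans (Set.encard_le_encard ?_) (H D3 D1 D2 d3 d1 d2 rfl rfl h2 p e3 e1 e2 hB)
  rintro x ⟨hx, hl⟩
  exact ⟨hx, hl, Set.mem_univ _⟩

end Pool.Agent.CNX
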