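import Mathlib

/-!
# CNX module WI_Fd: iterated derivatives

iteratedFDeriv ℝ 2 E x ![h, k] = fderiv ℝ (fderiv ℝ E) x h k is iteratedFDeriv_two_apply. Norm bounds: |f m| ≤ ‖f‖ ∏ ‖m i‖
(ContinuousMultilinearMap.le_opNorm). For order 3: iteratedFDeriv ℝ 3 E x ![h, k, l] = fderiv ℝ (fderiv ℝ (fderiv ℝ E)) x h k l
(iteratedFDeriv_succ_apply_left / right, or apply the order 2 case to fderiv ℝ E and evaluate; iteratedFDeriv_succ_eq_comp_right,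
norm_iteratedFDeriv_fderiv: ‖iteratedFDeriv ℝ n (fderiv ℝ f) x‖ = ‖iteratedFDeriv ℝ (n+1) f x‖ gives the bound directly:
‖fderiv (fderiv (fderiv E)) x h k‖ ≤ ‖iteratedFDeriv ℝ 2 (fderiv ℝ E) x‖ ‖h‖ ‖k‖ = ‖iteratedFDeriv ℝ 3 E x‖ ‖h‖ ‖k‖ and then evaluate at l).
-/

set_option autoImplicit false

namespace Pool.Agent.CNX

variable {H : Type*} [NormedAddCommGroup H] [InnerProductSpace ℝ H]

theorem fd_two (E : H → ℝ) (x h k : H) :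
    iteratedFDeriv ℝ 2 E x ![h, k] = fderiv ℝ (fderiv ℝ E) x h k := by
  rw [iteratedFDeriv_two_apply]
  rfl

theorem wiFd_two {G : Type*} [NormedAddCommGroup G] [NormedSpace ℝ G] (E : H → G) (x h k : H) :
    ‖fderiv ℝ (fderiv ℝ E) x h k‖ ≤ ‖iteratedFDeriv ℝ 2 E x‖ * ‖h‖ * ‖k‖ := by
  have h1 := (iteratedFDeriv ℝ 2 E x).le_opNorm ![h, k]
  rw [iteratedFDeriv_two_apply, Fin.prod_univ_two] at h1
  simpa [mul_assoc] using h1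

theorem fd_up2 {E : H → ℝ} {x : H} {L : ℝ} (hL : ‖iteratedFDeriv ℝ 2 E x‖ ≤ L) (h k : H) :
    |fderiv ℝ (fderiv ℝ E) x h k| ≤ L * ‖h‖ * ‖k‖ := by
  refine (wiFd_two E x h k).trans ?_
  gcongr

theorem fd_up3 {E : H → ℝ} {x : H} {L : ℝ} (hL : ‖iteratedFDeriv ℝ 3 E x‖ ≤ L) (h k l : H) :
    |fderiv ℝ (fderiv ℝ (fderiv ℝ E)) x h k l| ≤ L * ‖h‖ * ‖k‖ * ‖l‖ := by
  have h1 := wiFd_two (fderiv ℝ E) x h k
  rw [norm_iteratedFDeriv_fderiv] at h1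
  have h2 : ‖fderiv ℝ (fderiv ℝ (fderiv ℝ E)) x h k l‖
      ≤ ‖fderiv ℝ (fderiv ℝ (fderiv ℝ E)) x h k‖ * ‖l‖ := ContinuousLinearMap.le_opNorm _ _
  refine h2.trans ?_
  refine mul_le_mul_of_nonneg_right (h1.trans ?_) (norm_nonneg l)
  gcongr

end Pool.Agent.CNX
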