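import Pool.Agent.CNX.WI_Min

/-!
# CNX module WI_Za: the elements of Z with a resonance; the element with w = 0

`za_x`: z ∈ ZZ: z.1 = Xm z.2.2 (wi_eq; z.2.2 ≤ c' ≤ c ≤ κ/4 ≤ κ/2).
`za_res`: Z ⊆ ZZ such that every z ∈ Z has some j with e j = 0, z.2.1 j ≠ 0. Then (2 d_j - μ) w_j = 0 gives μ = 2 d_j; j is unique (d injective).
The map z ↦ (j, sign of w_j) ∈ {j | e j = 0} × Bool is injective on Z: the same j gives the same μ = 2 d_j and the same x = Xm μ; for i ≠ j 2 d_i ≠ μ, so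
w_i = e_i / (2 d_i - μ) is the same; w_j^2 = 1 - ‖x‖^2 - ∑_{i ≠ j} w_i^2 is the same, and the sign is the same. So the number is
at most 2 #{j | e j = 0} (Set.encard_le_encard_of_injOn, or count via Finset; encard of a product).
`za_zero`: z, z' ∈ ZZ with w = w' = 0: ‖x‖ = ‖x'‖ = 1. wi_first twice: 0 ≥ fderiv E x (x' - x) + fderiv E x' (x - x') + κ ‖x - x'‖^2; by Gr the sum of the
first two terms is μ (⟨x,x'⟩ - 1) + μ' (⟨x,x'⟩ - 1) = - (μ + μ')/2 ‖x - x'‖^2 ≥ -κ/4 ‖x - x'‖^2, so x = x'. Then Gr with h = x for both: μ = μ'.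
-/

set_option autoImplicit false

open Metric Set Filter Topology

namespace Pool.Agent.CNX

variable {H : Type*} [NormedAddCommGroup H] [InnerProductSpace ℝ H] [FiniteDimensional ℝ H]
variable {E : H → ℝ} {Ω : Set H} {P : H} {κ L c : ℝ}

theorem za_x (h : WD E Ω P κ L c) {D : ℕ} {d e : Fin D → ℝ} {z : H × (Fin D → ℝ) × ℝ} (hz : z ∈ ZZ E Ω P d e c) :
    z.1 = Xm E Ω P z.2.2 := by
  obtain ⟨h1, h2, h3, h4, h5⟩ := hz
  have h6 := h.cκ
  have h7 := h.κ0
  exact wi_eq h (by linarith) h1 h4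

theorem za_res (h : WD E Ω P κ L c) {D : ℕ} {d e : Fin D → ℝ} (hd : Function.Injective d)
    {Z : Set (H × (Fin D → ℝ) × ℝ)} (hZ : Z ⊆ ZZ E Ω P d e c) (hr : ∀ z ∈ Z, ∃ j, e j = 0 ∧ z.2.1 j ≠ 0) :
    Z.encard ≤ ((2 * (Finset.univ.filter fun j => e j = 0).card : ℕ) : ℕ∞) := by
  classical
  rcases Z.eq_empty_or_nonempty with hemp | ⟨z0, hz0⟩
  · rw [hemp, Set.encard_empty]
    exact zero_le
  obtain ⟨j0, _⟩ := hr z0 hz0
  have : Nonempty (Fin D) := ⟨j0⟩
  choose! jf hj1 hj2 using hr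
  have hmu : ∀ z ∈ Z, 2 * d (jf z) = z.2.2 := by
    intro z hz
    have h1 := (hZ hz).2.2.2.2 (jf z)
    rw [hj1 z hz] at h1
    rcases mul_eq_zero.1 h1 with h2 | h2
    · linarith
    · exact absurd h2 (hj2 z hz)
  have hcard : Z.encard ≤ (((Finset.univ.filter fun j => e j = 0) ×ˢ (Finset.univ : Finset Bool) :
      Finset (Fin D × Bool)) : Set (Fin D × Bool)).encard := by
    refine Set.encard_le_encard_of_injOn (f := fun z => (jf z, decide (0 < z.2.1 (jf z)))) ?_ ?_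
    · intro z hz
      rw [Finset.mem_coe, Finset.mem_product]
      exact ⟨Finset.mem_filter.2 ⟨Finset.mem_univ _, hj1 z hz⟩, Finset.mem_univ _⟩
    · intro z hz z' hz' he
      have he1 : jf z = jf z' := congrArg Prod.fst he
      have he2 : decide (0 < z.2.1 (jf z)) = decide (0 < z'.2.1 (jf z')) := congrArg Prod.snd he
      rw [← he1] at he2
      have hm : z.2.2 = z'.2.2 := by rw [← hmu z hz, ← hmu z' hz', he1]
      have hx : z.1 = z'.1 := by rw [za_x h (hZ hz), za_x h (hZ hz'), hm]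
      have hw : ∀ i, i ≠ jf z → z.2.1 i = z'.2.1 i := by
        intro i hi
        have h1 := (hZ hz).2.2.2.2 i
        have h2 := (hZ hz').2.2.2.2 i
        rw [← hm] at h2
        have h3 : 2 * d i - z.2.2 ≠ 0 := by
          rw [← hmu z hz]
          intro h4
          exact hi (hd (by linarith))
        exact mul_left_cancel₀ h3 (h1.trans h2.symm)
      have hsq : z.2.1 (jf z) ^ 2 = z'.2.1 (jf z) ^ 2 := by
        have h1 := (hZ hz).2.1
        have h2 := (hZ hz').2.1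
        rw [← hx] at h2
        have h3 : ∑ i, z.2.1 i ^ 2 = ∑ i, z'.2.1 i ^ 2 := by linarith
        rw [← Finset.add_sum_erase _ _ (Finset.mem_univ (jf z)), ← Finset.add_sum_erase _ _ (Finset.mem_univ (jf z))] at h3
        have h4 : ∑ i ∈ Finset.univ.erase (jf z), z.2.1 i ^ 2 = ∑ i ∈ Finset.univ.erase (jf z), z'.2.1 i ^ 2 :=
          Finset.sum_congr rfl (fun i hi => by rw [hw i (Finset.mem_erase.1 hi).1])
        linarith
      have hwj : z.2.1 (jf z) = z'.2.1 (jf z) := by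
        rcases sq_eq_sq_iff_eq_or_eq_neg.1 hsq with h1 | h1
        · exact h1
        · exfalso
          have h2 := hj2 z hz
          rcases lt_or_gt_of_ne h2 with h3 | h3
          · have h4 : 0 < z'.2.1 (jf z) := by linarith
            rw [decide_eq_decide] at he2
            have := he2.2 h4
            linarith
          · rw [decide_eq_decide] at he2
            have h4 := he2.1 h3
            linarith
      have hww : z.2.1 = z'.2.1 := by
        funext i
        by_cases hi : i = jf z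
        · rw [hi]; exact hwj
        · exact hw i hi
      exact Prod.ext hx (Prod.ext hww hm)
  refine hcard.trans (le_of_eq ?_)
  rw [Set.encard_coe_eq_coe_finsetCard, Finset.card_product, Finset.card_univ, Fintype.card_bool, mul_comm]

theorem za_zero (h : WD E Ω P κ L c) {D : ℕ} {d e : Fin D → ℝ} {z z' : H × (Fin D → ℝ) × ℝ}
    (hz : z ∈ ZZ E Ω P d e c) (hz' : z' ∈ ZZ E Ω P d e c) (h0 : ∀ j, z.2.1 j = 0) (h0' : ∀ j, z'.2.1 j = 0) :
    z = z' := by
  obtain ⟨h1, h2, h3, h4, h5⟩ := hz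
  obtain ⟨h1', h2', h3', h4', h5'⟩ := hz'
  have e1 : ∑ j, z.2.1 j ^ 2 = 0 := Finset.sum_eq_zero (fun j _ => by rw [h0 j]; norm_num)
  have e1' : ∑ j, z'.2.1 j ^ 2 = 0 := Finset.sum_eq_zero (fun j _ => by rw [h0' j]; norm_num)
  rw [e1, add_zero] at h2
  rw [e1', add_zero] at h2'
  have k1 := wi_first h h1 h1'
  have k2 := wi_first h h1' h1
  have g1 := h4 (z'.1 - z.1)
  have g2 := h4' (z.1 - z'.1)
  have n1 : ‖z'.1 - z.1‖ ^ 2 = 2 - 2 * inner ℝ z.1 z'.1 := by
    rw [norm_sub_sq_real, h2, h2', real_inner_comm]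
    ring
  have n2 : ‖z.1 - z'.1‖ = ‖z'.1 - z.1‖ := norm_sub_rev _ _
  have i1 : (inner ℝ z.1 (z'.1 - z.1) : ℝ) = inner ℝ z.1 z'.1 - 1 := by
    rw [inner_sub_right, real_inner_self_eq_norm_sq, h2]
  have i2 : (inner ℝ z'.1 (z.1 - z'.1) : ℝ) = inner ℝ z.1 z'.1 - 1 := by
    rw [inner_sub_right, real_inner_self_eq_norm_sq, h2', real_inner_comm]
  have i3 : (inner ℝ P (z.1 - z'.1) : ℝ) = - inner ℝ P (z'.1 - z.1) := by
    rw [inner_sub_right, inner_sub_right]; ring
  rw [n2] at k2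
  rw [i1] at g1
  rw [i2, i3] at g2
  have hκ := h.κ0
  have hc := h.cκ
  set N := ‖z'.1 - z.1‖ ^ 2 with hN
  have hN0 : 0 ≤ N := sq_nonneg _
  have hin : (inner ℝ z.1 z'.1 : ℝ) - 1 = - N / 2 := by linarith
  rw [hin] at g1 g2
  have k3 : κ * N ≤ (z.2.2 + z'.2.2) / 2 * N := by linarith
  have k4 : (z.2.2 + z'.2.2) / 2 * N ≤ κ / 4 * N := mul_le_mul_of_nonneg_right (by linarith) hN0
  have k5 : N = 0 := by
    by_contra hne
    have : 0 < N := lt_of_le_of_ne hN0 (Ne.symm hne)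
    nlinarith
  have hx : z.1 = z'.1 := by
    have h6 : ‖z'.1 - z.1‖ = 0 := pow_eq_zero_iff (two_ne_zero) |>.1 (hN ▸ k5)
    exact (sub_eq_zero.1 (norm_eq_zero.1 h6)).symm
  have hm : z.2.2 = z'.2.2 := by
    have g3 := h4 z.1
    have g4 := h4' z.1
    rw [← hx] at g4
    rw [real_inner_self_eq_norm_sq, h2] at g3 g4
    linarith
  have hw : z.2.1 = z'.2.1 := by
    funext j
    rw [h0 j, h0' j]
  exact Prod.ext hx (Prod.ext hw hm)

end Pool.Agent.CNX
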