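import Pool.Agent.CNX.WI_T
import Pool.Agent.CNX.WI_Za

/-!
# CNX module WI_Zb: the elements of Z without resonance

Z ⊆ ZZ with w_j = 0 whenever e_j = 0. `zb_inj`: the map z ↦ z.2.2 = μ is injective on Z and maps Z into TT if some e_j ≠ 0: for e_j ≠ 0: (2 d_j - μ) w_j = e_j ≠ 0 gives
2 d_j ≠ μ (NP), w_j = e_j / (2 d_j - μ) ≠ 0; so ‖x‖ < 1, x = Xm μ (za_x), ∑ w_j^2 = Rf d e μ (for e_j = 0 both sides have the term 0), and
∑ w_j^2 = 1 - ‖x‖^2 = rh μ. μ determines x and w.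
`zb_a`: some e_j ≠ 0: wt_a for the image (Set.InjOn.encard_image). `zb_b`: wt_b. `zb_0`: all e_j = 0: then w = 0 for all elements, so at most one
element (za_zero; Set.encard_le_one_iff).
-/

set_option autoImplicit false

open Metric Set Filter Topology

namespace Pool.Agent.CNX

variable {H : Type*} [NormedAddCommGroup H] [InnerProductSpace ℝ H] [FiniteDimensional ℝ H]
variable {E : H → ℝ} {Ω : Set H} {P : H} {κ L c : ℝ}

theorem zb_inj (h : WD E Ω P κ L c) {D : ℕ} {d e : Fin D → ℝ}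
    {Z : Set (H × (Fin D → ℝ) × ℝ)} (hZ : Z ⊆ ZZ E Ω P d e c)
    (hr : ∀ z ∈ Z, ∀ j, e j = 0 → z.2.1 j = 0) :
    InjOn (fun z : H × (Fin D → ℝ) × ℝ => z.2.2) Z := by
  intro z hz z' hz' hzz
  have hzz' : z.2.2 = z'.2.2 := hzz
  have h1 := za_x h (hZ hz)
  have h2 := za_x h (hZ hz')
  obtain ⟨-, -, -, -, hw⟩ := hZ hz
  obtain ⟨-, -, -, -, hw'⟩ := hZ hz'
  refine Prod.ext ?_ (Prod.ext ?_ hzz')
  · rw [h1, h2, hzz']
  · funext j
    by_cases he : e j = 0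
    · rw [hr z hz j he, hr z' hz' j he]
    · have e1 := hw j
      have e2 := hw' j
      rw [hzz'] at e1
      have hne : 2 * d j - z'.2.2 ≠ 0 := by
        intro h0
        rw [h0, zero_mul] at e1
        exact he e1.symm
      exact mul_left_cancel₀ hne (e1.trans e2.symm)

theorem zb_TT (h : WD E Ω P κ L c) {D : ℕ} {d e : Fin D → ℝ} (he : ∃ j, e j ≠ 0)
    {Z : Set (H × (Fin D → ℝ) × ℝ)} (hZ : Z ⊆ ZZ E Ω P d e c)
    (hr : ∀ z ∈ Z, ∀ j, e j = 0 → z.2.1 j = 0) :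
    (fun z : H × (Fin D → ℝ) × ℝ => z.2.2) '' Z ⊆ TT E Ω P d e c := by
  rintro _ ⟨z, hz, rfl⟩
  have h1 := za_x h (hZ hz)
  obtain ⟨-, hn, hc, -, hw⟩ := hZ hz
  have hnp : NP d e z.2.2 := by
    intro j hj h0
    have e1 := hw j
    rw [h0, sub_self, zero_mul] at e1
    exact hj e1.symm
  obtain ⟨j0, hj0⟩ := he
  have hw0 : z.2.1 j0 ≠ 0 := by
    intro h0
    have e1 := hw j0
    rw [h0, mul_zero] at e1
    exact hj0 e1.symm
  have hpos : 0 < ∑ j, z.2.1 j ^ 2 := by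
    have h2 := Finset.single_le_sum (f := fun j => z.2.1 j ^ 2) (fun j _ => sq_nonneg _)
      (Finset.mem_univ j0)
    have h3 : 0 < z.2.1 j0 ^ 2 := by positivity
    exact lt_of_lt_of_le h3 h2
  refine ⟨hc, hnp, ?_, ?_⟩
  · rw [← h1]
    have h4 : ‖z.1‖ ^ 2 < 1 := by linarith
    nlinarith [norm_nonneg z.1]
  · change ∑ j, e j ^ 2 / (2 * d j - z.2.2) ^ 2 = 1 - ‖Xm E Ω P z.2.2‖ ^ 2
    rw [← h1]
    have h5 : ∑ j, e j ^ 2 / (2 * d j - z.2.2) ^ 2 = ∑ j, z.2.1 j ^ 2 := by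
      refine Finset.sum_congr rfl fun j _ => ?_
      by_cases hj : e j = 0
      · rw [hj, hr z hz j hj]; simp
      · have hne : 2 * d j - z.2.2 ≠ 0 := sub_ne_zero.2 (hnp j hj)
        rw [← hw j, mul_pow, mul_div_assoc, mul_comm, div_mul_cancel₀ _ (pow_ne_zero 2 hne)]
    rw [h5]
    linarith

theorem zb_0 (h : WD E Ω P κ L c) {D : ℕ} {d e : Fin D → ℝ} (he : ∀ j, e j = 0)
    {Z : Set (H × (Fin D → ℝ) × ℝ)} (hZ : Z ⊆ ZZ E Ω P d e c)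
    (hr : ∀ z ∈ Z, ∀ j, e j = 0 → z.2.1 j = 0) : Z.encard ≤ 1 := by
  rw [Set.encard_le_one_iff]
  intro z z' hz hz'
  exact za_zero h (hZ hz) (hZ hz') (fun j => hr z hz j (he j)) (fun j => hr z' hz' j (he j))

theorem zb_a (h : WD E Ω P κ L c) (hM : M1 κ L < 2 / c ^ 2) {D : ℕ} {d e : Fin D → ℝ}
    (hd : ∀ j, 0 < d j ∧ 2 * d j ≤ c) {Z : Set (H × (Fin D → ℝ) × ℝ)} (hZ : Z ⊆ ZZ E Ω P d e c)
    (hr : ∀ z ∈ Z, ∀ j, e j = 0 → z.2.1 j = 0) :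
    Z.encard ≤ ((2 * (Finset.univ.filter fun j => e j ≠ 0).card + 1 : ℕ) : ℕ∞) := by
  by_cases he : ∃ j, e j ≠ 0
  · rw [← (zb_inj h hZ hr).encard_image]
    exact wt_a h hM hd he (zb_TT h he hZ hr)
  · push Not at he
    refine (zb_0 h he hZ hr).trans ?_
    have : 1 ≤ 2 * (Finset.univ.filter fun j => e j ≠ 0).card + 1 := Nat.le_add_left _ _
    exact_mod_cast this

theorem zb_b (h : WD E Ω P κ L c) (hM : M1 κ L < 2 / c ^ 2) {D : ℕ} {d e : Fin D → ℝ}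
    (hd : ∀ j, 0 < d j ∧ 2 * d j ≤ c) {Z : Set (H × (Fin D → ℝ) × ℝ)} (hZ : Z ⊆ ZZ E Ω P d e c)
    (hr : ∀ z ∈ Z, ∀ j, e j = 0 → z.2.1 j = 0)
    (hno : ∀ z ∈ Z, ∀ j j', ¬ (2 * d j ≤ z.2.2 ∧ z.2.2 ≤ 2 * d j')) : Z.encard ≤ 3 := by
  by_cases he : ∃ j, e j ≠ 0
  · rw [← (zb_inj h hZ hr).encard_image]
    refine wt_b h hM hd he (zb_TT h he hZ hr) ?_
    rintro _ ⟨z, hz, rfl⟩ j j'
    exact hno z hz j j'
  · push Not at he
    refine (zb_0 h he hZ hr).trans ?_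
    exact_mod_cast (by norm_num : 1 ≤ 3)

end Pool.Agent.CNX
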