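import Pool.Agent.CNX.Defs
import Pool.Agent.CNX.WI_Zb
import Pool.Agent.CNX.WI_Fd

/-!
# CNX module WI_Main: the window lemma

κ > 0, L given; L' = max L 1; M = M1 κ L' ≥ 0; c = min (κ/4) (min 1 (1/(M+1))), om = c/2. M < 2/c^2: 2/c^2 ≥ 2/c ≥ 2 (M+1).
If Z is empty all is clear. Otherwise Ω is nonempty, hW : WD E Ω P κ L' c (fd_two, fd_up2, fd_up3; Gm unfolds to the expression of WinStmt).
Z ⊆ ZZ E Ω P d e c (z.2.2 ≤ c' ≤ c). Pert d om: d StrictMono (injective), 0 < d j, 2 d j < c.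
Z = Zr ∪ Zn, Zr = those with some j: e j = 0, w_j ≠ 0; Zn = those with w_j = 0 whenever e_j = 0. encard Z ≤ encard Zr + encard Zn ≤
2 #{e = 0} + 2 #{e ≠ 0} + 1 = 2 D + 1 (za_res, zb_a; Set.encard_union_le; Finset.filter_card_add_filter_neg_card_eq_card). Second claim: Zr is empty
(an element of Zr has z.2.2 = 2 d j, excluded with j' = j), Zn: zb_b: ≤ 3 ≤ 5.
-/

set_option autoImplicit false

open Metric Set Filter Topology

namespace Pool.Agent.CNX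

theorem wm_c (κ L : ℝ) (hκ : 0 < κ) : ∃ c, 0 < c ∧ c ≤ κ / 8 ∧ M1 κ L < 2 / c ^ 2 := by
  have hM : 0 ≤ M1 κ L ⊔ 0 := le_max_right _ _
  set M := M1 κ L ⊔ 0 with hMd
  have h1 : M1 κ L ≤ M := le_max_left _ _
  refine ⟨min (κ / 8) (min 1 (1 / (M + 1))), ?_, min_le_left _ _, ?_⟩
  · have : 0 < 1 / (M + 1) := by positivity
    exact lt_min (by linarith) (lt_min one_pos this)
  · set c := min (κ / 8) (min 1 (1 / (M + 1))) with hc
    have hc0 : 0 < c := by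
      have : 0 < 1 / (M + 1) := by positivity
      exact lt_min (by linarith) (lt_min one_pos this)
    have hc1 : c ≤ 1 := (min_le_right _ _).trans (min_le_left _ _)
    have hc2 : c ≤ 1 / (M + 1) := (min_le_right _ _).trans (min_le_right _ _)
    have h3 : c * (M + 1) ≤ 1 := by
      rwa [le_div_iff₀ (by linarith)] at hc2
    rw [lt_div_iff₀ (by positivity)]
    have h4 : c ^ 2 ≤ c := by nlinarith
    nlinarith

/-- the window lemma with the additional information `c ≤ κ / 8` -/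
def WinStmt8 : Prop := ∀ κ L : ℝ, 0 < κ → ∃ (c om : ℝ), 0 < c ∧ 0 < om ∧ c ≤ κ / 8 ∧
  ∀ (ι : Type) [Fintype ι] (E : EuclideanSpace ℝ ι → ℝ) (Ω : Set (EuclideanSpace ℝ ι)),
    ContDiff ℝ 3 E → IsCompact Ω → Convex ℝ Ω → Ω ⊆ Metric.closedBall 0 1 →
    (∀ x ∈ Ω, ∀ h, κ * ‖h‖ ^ 2 ≤ iteratedFDeriv ℝ 2 E x ![h, h]) →
    (∀ x ∈ Ω, ‖iteratedFDeriv ℝ 2 E x‖ ≤ L) → (∀ x ∈ Ω, ‖iteratedFDeriv ℝ 3 E x‖ ≤ L) →
    ∀ (D : ℕ) (d : Fin D → ℝ), Pert d om → ∀ (e : Fin D → ℝ) (P : EuclideanSpace ℝ ι),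
      (∀ μ : ℝ, μ ≤ c → ∀ x ∈ Ω,
        (∀ x' ∈ Ω, E x - μ / 2 * ‖x‖ ^ 2 - inner ℝ P x ≤ E x' - μ / 2 * ‖x'‖ ^ 2 - inner ℝ P x') →
        ‖x‖ < 1 → x ∈ interior Ω) →
      ∀ c' : ℝ, 0 < c' → c' ≤ c →
      ∀ Z : Set (EuclideanSpace ℝ ι × (Fin D → ℝ) × ℝ),
        (∀ z ∈ Z, z.1 ∈ Ω ∧ ‖z.1‖ ^ 2 + ∑ j, z.2.1 j ^ 2 = 1 ∧ z.2.2 ≤ c' ∧
          (∀ h, fderiv ℝ E z.1 h - z.2.2 * inner ℝ z.1 h = inner ℝ P h) ∧
          ∀ j, (2 * d j - z.2.2) * z.2.1 j = e j) →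
        Z.encard ≤ 2 * D + 3 ∧
        ((∀ z ∈ Z, ∀ j j', ¬ (2 * d j ≤ z.2.2 ∧ z.2.2 ≤ 2 * d j')) → Z.encard ≤ 5)

theorem win8 : WinStmt8 := by
  intro κ L hκ
  obtain ⟨c, hc0, hcκ, hM⟩ := wm_c κ (max L 1) hκ
  refine ⟨c, c / 2, hc0, by linarith, hcκ, ?_⟩
  intro ι _ E Ω hE hcpt hconv hsub hlow hup2 hup3 D d hd e P hin c' hc'0 hc' Z hZ
  by_cases hZe : Z = ∅
  · subst hZe
    simp
  obtain ⟨z₀, hz₀⟩ := Set.nonempty_iff_ne_empty.mpr hZe
  have hW : WD E Ω P κ (max L 1) c := by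
    refine ⟨hκ, le_max_right _ _, hc0, by linarith, hE, hcpt, hconv, hsub, ⟨z₀.1, (hZ z₀ hz₀).1⟩, ?_, ?_, ?_, ?_⟩
    · intro x hx h
      have := hlow x hx h
      rwa [fd_two] at this
    · intro x hx h k
      exact fd_up2 ((hup2 x hx).trans (le_max_left _ _)) h k
    · intro x hx h k l
      exact fd_up3 ((hup3 x hx).trans (le_max_left _ _)) h k l
    · intro μ hμ x hx hm h1
      exact hin μ hμ x hx hm h1
  have hd' : ∀ j, 0 < d j ∧ 2 * d j ≤ c := by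
    intro j
    have := hd.2 j
    exact ⟨this.1, by linarith [this.2]⟩
  have hZZ : Z ⊆ ZZ E Ω P d e c := by
    intro z hz
    obtain ⟨a1, a2, a3, a4, a5⟩ := hZ z hz
    exact ⟨a1, a2, a3.trans hc', a4, a5⟩
  set Zr := {z ∈ Z | ∃ j, e j = 0 ∧ z.2.1 j ≠ 0} with hZr
  set Zn := {z ∈ Z | ∀ j, e j = 0 → z.2.1 j = 0} with hZn
  have hun : Z ⊆ Zr ∪ Zn := by
    intro z hz
    by_cases h : ∃ j, e j = 0 ∧ z.2.1 j ≠ 0
    · exact Or.inl ⟨hz, h⟩
    · push Not at h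
      exact Or.inr ⟨hz, h⟩
  have hr : Zr.encard ≤ ((2 * (Finset.univ.filter fun j => e j = 0).card : ℕ) : ℕ∞) :=
    za_res hW hd.1.injective (fun z hz => hZZ hz.1) (fun z hz => hz.2)
  have hn : Zn.encard ≤ ((2 * (Finset.univ.filter fun j => e j ≠ 0).card + 1 : ℕ) : ℕ∞) :=
    zb_a hW hM hd' (fun z hz => hZZ hz.1) (fun z hz => hz.2)
  constructor
  · calc Z.encard ≤ (Zr ∪ Zn).encard := Set.encard_le_encard hun
      _ ≤ Zr.encard + Zn.encard := Set.encard_union_le _ _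
      _ ≤ ((2 * (Finset.univ.filter fun j => e j = 0).card : ℕ) : ℕ∞)
          + ((2 * (Finset.univ.filter fun j => e j ≠ 0).card + 1 : ℕ) : ℕ∞) := add_le_add hr hn
      _ ≤ 2 * D + 3 := by
        have h := Finset.card_filter_add_card_filter_not (s := (Finset.univ : Finset (Fin D))) (fun j => e j = 0)
        rw [Finset.card_univ, Fintype.card_fin] at h
        have h2 : 2 * (Finset.univ.filter fun j => e j = 0).card
          + (2 * (Finset.univ.filter fun j => e j ≠ 0).card + 1) ≤ 2 * D + 3 := by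
          have : (Finset.univ.filter fun j => ¬ e j = 0).card = (Finset.univ.filter fun j => e j ≠ 0).card := rfl
          omega
        exact_mod_cast h2
  · intro hno
    have hre : Zr = ∅ := by
      ext z
      simp only [Set.mem_empty_iff_false, iff_false]
      rintro ⟨hz, j, hj0, hjw⟩
      have h1 := (hZ z hz).2.2.2.2 j
      rw [hj0] at h1
      rcases mul_eq_zero.mp h1 with h2 | h2
      · exact hno z hz j j ⟨by linarith, by linarith⟩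
      · exact hjw h2
    calc Z.encard ≤ (Zr ∪ Zn).encard := Set.encard_le_encard hun
      _ = Zn.encard := by rw [hre, Set.empty_union]
      _ ≤ 3 := zb_b hW hM hd' (fun z hz => hZZ hz.1) (fun z hz => hz.2) (fun z hz => hno z hz.1)
      _ ≤ 5 := by norm_num

theorem win : WinStmt := win8

end Pool.Agent.CNX
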