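import Pool.Agent.CNX.CO_M
import Pool.Agent.CNX.CO_Z
import Pool.Agent.CNX.PB12
import Pool.Agent.CNX.WI_Main
import Pool.Agent.CNX.PA5
import Pool.Agent.CNX.EX_Z

set_option autoImplicit false

namespace Pool.Agent.CNX

theorem main0 (hB : BodyStmt) (hEL : ELStmt) (hBase : BaseStmt) : Goal :=
  final hB (count win b1 b2 b3) (exF hEL pa hBase)

end Pool.Agent.CNX
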