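import Pool.Agent.CNX.PADefs

set_option autoImplicit false
set_option linter.all false

/-!
# PA1 (2): the averages converge uniformly

`tendsto_setIntegral_pow_smul_of_unique_maximum_of_isCompact_of_continuousOn` (Mathlib) with `c = PAc`, `s = closedBall 0 5`, `x₀ = 0`, and `g : EuclideanSpace ℝ (Fin N) → (EuclideanSpace ℝ (Fin N) →ᵇ F)`, `g z = (x ↦ h (x - z))`
(`BoundedContinuousFunction.ofNormedAddCommGroup`, bounded since `h` is continuous with compact support); `g` is continuous because `h` is uniformly continuous (`Continuous.uniformContinuous_of_tendsto_cocompact` or `HasCompactSupport.uniformContinuous_of_continuous ..`: `dist (g z) (g z') ≤ ε` iff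
pointwise). So for large `n`: `‖PAn N n • ∫ z in s, PAc z ^ n • g z - g 0‖ ≤ ε` in `→ᵇ F`; evaluate at `x`: evaluation is a continuous linear map (`BoundedContinuousFunction.evalCLM ℝ x`), `ContinuousLinearMap.integral_comp_comm` (the integrand is continuous on a compact set, so integrable:
`ContinuousOn.integrableOn_compact`), `g 0 x = h x`.
-/

namespace Pool.Agent.CNX

open MeasureTheory Filter

theorem pa1_cont {N : ℕ} {F : Type} [NormedAddCommGroup F] [NormedSpace ℝ F]
    {h : EuclideanSpace ℝ (Fin N) → F} (hc : Continuous h) (hs : HasCompactSupport h)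
    (g : EuclideanSpace ℝ (Fin N) → BoundedContinuousFunction (EuclideanSpace ℝ (Fin N)) F)
    (hg : ∀ z x, g z x = h (x - z)) : Continuous g := by
  have hu : UniformContinuous h := hs.uniformContinuous_of_continuous hc
  rw [Metric.continuous_iff]
  intro z e he
  obtain ⟨d, hd, hd2⟩ := Metric.uniformContinuous_iff.1 hu (e / 2) (half_pos he)
  refine ⟨d, hd, fun z' hz' => ?_⟩
  refine lt_of_le_of_lt ((BoundedContinuousFunction.dist_le (half_pos he).le).2 (fun x => ?_)) (half_lt_self he)
  rw [hg, hg]
  apply le_of_lt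
  apply hd2
  rw [dist_sub_left]
  exact hz'

theorem pa_unif {N : ℕ} {F : Type} [NormedAddCommGroup F] [NormedSpace ℝ F] [CompleteSpace F]
    {h : EuclideanSpace ℝ (Fin N) → F} (hc : Continuous h) (hs : HasCompactSupport h) {ε : ℝ} (hε : 0 < ε) :
    ∀ᶠ n : ℕ in atTop, ∀ x, ‖PAT n h x - h x‖ ≤ ε := by
  obtain ⟨C, hC⟩ := hc.bounded_above_of_compact_support hs
  let g : EuclideanSpace ℝ (Fin N) → BoundedContinuousFunction (EuclideanSpace ℝ (Fin N)) F :=
    fun z => BoundedContinuousFunction.ofNormedAddCommGroup (fun x => h (x - z)) (by fun_prop) C (fun x => hC _)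
  have hg : ∀ z x, g z x = h (x - z) := fun z x => rfl
  have hgc : Continuous g := pa1_cont hc hs g hg
  have hcc : Continuous (fun z : EuclideanSpace ℝ (Fin N) => PAc z) := by
    unfold PAc
    fun_prop
  have hcomp : IsCompact (Metric.closedBall (0 : EuclideanSpace ℝ (Fin N)) 5) := isCompact_closedBall _ _
  have ht := tendsto_setIntegral_pow_smul_of_unique_maximum_of_isCompact_of_continuousOn
    (μ := (volume : Measure (EuclideanSpace ℝ (Fin N)))) (g := g) (x₀ := 0) hcomp (c := fun z => PAc z)
    hcc.continuousOn (by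
      intro y _ hy
      have h1 : 0 < ‖y‖ := norm_pos_iff.2 hy
      simp only [PAc, norm_zero]
      have h2 : 0 < ‖y‖ ^ 2 := by positivity
      linarith) (by
      intro y hy
      have h1 : ‖y‖ ≤ 5 := by simpa using hy
      have h2 : ‖y‖ ^ 2 ≤ 5 ^ 2 := pow_le_pow_left₀ (norm_nonneg _) h1 2
      simp only [PAc]
      linarith) (by simp [PAc]) (by
      apply subset_closure
      exact Metric.ball_subset_interior_closedBall (Metric.mem_ball_self (by norm_num))) hgc.continuousOn
  have hev := (Metric.tendsto_nhds.1 ht) ε hε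
  filter_upwards [hev] with n hn
  intro x
  have hint : IntegrableOn (fun z => PAc z ^ n • g z) (Metric.closedBall (0 : EuclideanSpace ℝ (Fin N)) 5) volume :=
    ((hcc.pow n).smul hgc).continuousOn.integrableOn_compact hcomp
  have hx := ContinuousLinearMap.integral_comp_comm (BoundedContinuousFunction.evalCLM ℝ x) hint
  have hval : ((∫ z in Metric.closedBall (0 : EuclideanSpace ℝ (Fin N)) 5, PAc z ^ n • g z) : BoundedContinuousFunction (EuclideanSpace ℝ (Fin N)) F) x
      = ∫ z in Metric.closedBall (0 : EuclideanSpace ℝ (Fin N)) 5, PAc z ^ n • h (x - z) := by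
    have h3 : (BoundedContinuousFunction.evalCLM ℝ x) (∫ z in Metric.closedBall (0 : EuclideanSpace ℝ (Fin N)) 5, PAc z ^ n • g z)
        = ∫ z in Metric.closedBall (0 : EuclideanSpace ℝ (Fin N)) 5, (BoundedContinuousFunction.evalCLM ℝ x) (PAc z ^ n • g z) := hx.symm
    simpa [BoundedContinuousFunction.evalCLM_apply, hg] using h3
  have h4 := BoundedContinuousFunction.norm_coe_le_norm
    ((∫ z in Metric.closedBall (0 : EuclideanSpace ℝ (Fin N)) 5, PAc z ^ n)⁻¹ •
      (∫ z in Metric.closedBall (0 : EuclideanSpace ℝ (Fin N)) 5, PAc z ^ n • g z) - g 0) x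
  rw [dist_eq_norm] at hn
  refine le_trans ?_ (h4.trans hn.le)
  rw [BoundedContinuousFunction.sub_apply, BoundedContinuousFunction.smul_apply, hval, hg, sub_zero]
  rfl

end Pool.Agent.CNX
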