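import Mathlib

set_option autoImplicit false
set_option linter.all false

/-!
# Concurrent normals, section 6.8: polynomial approximation in `C²` (definitions)
-/

namespace Pool.Agent.CNX

open MeasureTheory

/-- `c(z) = 1 - |z|²/25` -/
noncomputable def PAc {N : ℕ} (z : EuclideanSpace ℝ (Fin N)) : ℝ := 1 - ‖z‖ ^ 2 / 25

/-- the normalising factor -/
noncomputable def PAn (N n : ℕ) : ℝ := (∫ z in Metric.closedBall (0 : EuclideanSpace ℝ (Fin N)) 5, PAc z ^ n)⁻¹

/-- the average of `h` with the truncated Landau kernel -/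
noncomputable def PAT {N : ℕ} {F : Type} [NormedAddCommGroup F] [NormedSpace ℝ F] (n : ℕ)
    (h : EuclideanSpace ℝ (Fin N) → F) (x : EuclideanSpace ℝ (Fin N)) : F :=
  PAn N n • ∫ z in Metric.closedBall (0 : EuclideanSpace ℝ (Fin N)) 5, PAc z ^ n • h (x - z)

end Pool.Agent.CNX
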