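import Pool.Agent.CNX.ADefs

/-!
# PB1: calculus of multipliers

`Bd x0 r h B`: for every `Z ⊆ Box x0 r`, `c`, `M` with `NL x0 r Z c M` we have
`NL x0 r Z (c * h) (B * M)`.  Everything is immediate from the definition (`c` is arbitrary, so
compositions are applied twice).  `coord`: `(z_j - x0_j) * mono x0 α z = mono x0 (α + single j) z`
(`Function.update α j (α j + 1)` or `α + Pi.single j 1`).  `0 ≤ M` follows from `NL` at `α = 0`.
`norm_le`: apply to `Z = {z}`, `c = 1` on it: `NL x0 r {z} 1 1` holds as `‖mono x0 α z‖ ≤ r^|α|`; then look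
at `α = 0`.
-/

set_option autoImplicit false

namespace Pool.Agent.CNX

theorem pb1_mono_norm {x0 : V5} {r : ℝ} {z : V5} (hz : z ∈ Box x0 r) (α : Fin 5 → ℕ) :
    ‖mono x0 α z‖ ≤ r ^ (∑ j, α j) := by
  rw [mono, norm_prod, ← Finset.prod_pow_eq_pow_sum]
  apply Finset.prod_le_prod
  · intro j _
    exact norm_nonneg _
  · intro j _
    rw [norm_pow]
    exact pow_le_pow_left₀ (norm_nonneg _) (hz j) _

theorem NL.nonneg {x0 : V5} {r : ℝ} {Z : Finset V5} {c : V5 → ℂ} {M : ℝ}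
    (h : NL x0 r Z c M) : 0 ≤ M := by
  have h1 := h 0
  simp only [Pi.zero_apply, Finset.sum_const_zero, pow_zero, mul_one] at h1
  exact (norm_nonneg _).trans h1

/-- every functional on a finite subset of the polydisc has finite norm -/
theorem NL.exists_bound {x0 : V5} {r : ℝ} (hr : 0 ≤ r) (Z : Finset V5)
    (hZ : ∀ z ∈ Z, z ∈ Box x0 r) (c : V5 → ℂ) : NL x0 r Z c (∑ z ∈ Z, ‖c z‖) := by
  intro α
  refine (norm_sum_le _ _).trans ?_
  rw [Finset.sum_mul]
  apply Finset.sum_le_sum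
  intro z hz
  rw [norm_mul]
  exact mul_le_mul_of_nonneg_left (pb1_mono_norm (hZ z hz) α) (norm_nonneg _)

theorem Bd.mono {x0 : V5} {r : ℝ} {h : V5 → ℂ} {B B' : ℝ} (hr : 0 ≤ r) (H : Bd x0 r h B)
    (hB : B ≤ B') : Bd x0 r h B' := by
  intro Z c M hZ hN α
  refine (H Z c M hZ hN α).trans ?_
  have h1 := hN.nonneg
  have h2 : 0 ≤ r ^ (∑ j, α j) := pow_nonneg hr _
  exact mul_le_mul_of_nonneg_right (mul_le_mul_of_nonneg_right hB h1) h2

theorem Bd.congr {x0 : V5} {r : ℝ} {h h' : V5 → ℂ} {B : ℝ} (H : Bd x0 r h B)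
    (hh : ∀ z ∈ Box x0 r, h z = h' z) : Bd x0 r h' B := by
  intro Z c M hZ hN α
  have h1 := H Z c M hZ hN α
  have h2 : ∑ z ∈ Z, c z * h' z * CNX.mono x0 α z = ∑ z ∈ Z, c z * h z * CNX.mono x0 α z := by
    apply Finset.sum_congr rfl
    intro z hz
    rw [hh z (hZ z hz)]
  rw [h2]
  exact h1

theorem Bd.const (x0 : V5) (r : ℝ) (a : ℂ) : Bd x0 r (fun _ => a) ‖a‖ := by
  intro Z c M hZ hN α
  have h2 : ∑ z ∈ Z, c z * a * CNX.mono x0 α z = a * ∑ z ∈ Z, c z * CNX.mono x0 α z := by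
    rw [Finset.mul_sum]
    apply Finset.sum_congr rfl
    intro z _
    ring
  rw [h2, norm_mul, mul_assoc]
  exact mul_le_mul_of_nonneg_left (hN α) (norm_nonneg _)

theorem Bd.coord (x0 : V5) (r : ℝ) (j : Fin 5) : Bd x0 r (fun z => z j - x0 j) r := by
  intro Z c M hZ hN α
  have h0 : ∀ z, CNX.mono x0 (α + Pi.single j 1) z = (z j - x0 j) * CNX.mono x0 α z := by
    intro z
    simp only [CNX.mono, Pi.add_apply, pow_add]
    rw [Finset.prod_mul_distrib, mul_comm]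
    congr 1
    rw [Finset.prod_eq_single j]
    · simp
    · intro i _ hij
      simp [Pi.single_eq_of_ne hij]
    · intro h
      exact absurd (Finset.mem_univ j) h
  have h2 : ∑ z ∈ Z, c z * (z j - x0 j) * CNX.mono x0 α z = ∑ z ∈ Z, c z * CNX.mono x0 (α + Pi.single j 1) z := by
    apply Finset.sum_congr rfl
    intro z _
    rw [h0]
    ring
  have h3 := hN (α + Pi.single j 1)
  have h4 : ∑ i, (α + Pi.single j 1 : Fin 5 → ℕ) i = (∑ i, α i) + 1 := by
    simp only [Pi.add_apply, Finset.sum_add_distrib]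
    simp
  rw [h4] at h3
  rw [h2]
  refine h3.trans (le_of_eq ?_)
  ring

theorem Bd.add {x0 : V5} {r : ℝ} {h h' : V5 → ℂ} {B B' : ℝ} (H : Bd x0 r h B)
    (H' : Bd x0 r h' B') : Bd x0 r (fun z => h z + h' z) (B + B') := by
  intro Z c M hZ hN α
  have h2 : ∑ z ∈ Z, c z * (h z + h' z) * CNX.mono x0 α z =
      ∑ z ∈ Z, c z * h z * CNX.mono x0 α z + ∑ z ∈ Z, c z * h' z * CNX.mono x0 α z := by
    rw [← Finset.sum_add_distrib]
    apply Finset.sum_congr rfl
    intro z _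
    ring
  rw [h2]
  refine (norm_add_le _ _).trans ((add_le_add (H Z c M hZ hN α) (H' Z c M hZ hN α)).trans (le_of_eq ?_))
  ring

theorem Bd.neg {x0 : V5} {r : ℝ} {h : V5 → ℂ} {B : ℝ} (H : Bd x0 r h B) :
    Bd x0 r (fun z => - h z) B := by
  intro Z c M hZ hN α
  have h2 : ∑ z ∈ Z, c z * (- h z) * CNX.mono x0 α z = - ∑ z ∈ Z, c z * h z * CNX.mono x0 α z := by
    rw [← Finset.sum_neg_distrib]
    apply Finset.sum_congr rfl
    intro z _
    ring
  rw [h2, norm_neg]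
  exact H Z c M hZ hN α

theorem Bd.sub {x0 : V5} {r : ℝ} {h h' : V5 → ℂ} {B B' : ℝ} (H : Bd x0 r h B)
    (H' : Bd x0 r h' B') : Bd x0 r (fun z => h z - h' z) (B + B') := by
  have h1 := H.add H'.neg
  simpa only [sub_eq_add_neg] using h1

theorem Bd.mul {x0 : V5} {r : ℝ} {h h' : V5 → ℂ} {B B' : ℝ} (H : Bd x0 r h B)
    (H' : Bd x0 r h' B') : Bd x0 r (fun z => h z * h' z) (B * B') := by
  intro Z c M hZ hN α
  have h1 := H Z _ _ hZ (H' Z c M hZ hN) α
  have h2 : ∑ z ∈ Z, c z * (h z * h' z) * CNX.mono x0 α z = ∑ z ∈ Z, c z * h' z * h z * CNX.mono x0 α z := by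
    apply Finset.sum_congr rfl
    intro z _
    ring
  rw [h2, mul_assoc B B' M]
  exact h1

theorem Bd.pow {x0 : V5} {r : ℝ} {h : V5 → ℂ} {B : ℝ} (H : Bd x0 r h B) (k : ℕ) :
    Bd x0 r (fun z => h z ^ k) (B ^ k) := by
  induction k with
  | zero =>
    have h1 := Bd.const x0 r 1
    simpa using h1
  | succ k ih =>
    have h1 := ih.mul H
    simpa only [pow_succ] using h1

theorem Bd.sum {x0 : V5} {r : ℝ} {ι : Type} (s : Finset ι) (h : ι → V5 → ℂ) (B : ι → ℝ)
    (H : ∀ i ∈ s, Bd x0 r (h i) (B i)) :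
    Bd x0 r (fun z => ∑ i ∈ s, h i z) (∑ i ∈ s, B i) := by
  classical
  induction s using Finset.induction_on with
  | empty =>
    have h1 := Bd.const x0 r 0
    simpa using h1
  | insert a s ha ih =>
    have h1 := (H a (Finset.mem_insert_self a s)).add (ih (fun i hi => H i (Finset.mem_insert_of_mem hi)))
    simpa only [Finset.sum_insert ha] using h1

theorem Bd.norm_le {x0 : V5} {r : ℝ} (hr : 0 ≤ r) {h : V5 → ℂ} {B : ℝ} (H : Bd x0 r h B)
    {z : V5} (hz : z ∈ Box x0 r) : ‖h z‖ ≤ B := by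
  have hZ : ∀ w ∈ ({z} : Finset V5), w ∈ Box x0 r := by
    intro w hw
    rw [Finset.mem_singleton] at hw
    rw [hw]
    exact hz
  have h1 := NL.exists_bound hr {z} hZ (fun _ => 1)
  have h2 := H {z} (fun _ => 1) _ hZ h1 0
  simpa [CNX.mono] using h2

end Pool.Agent.CNX
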