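import Pool.Agent.CNX.ADefs

/-!
# PB9: cluster identities and injectivity

`cluster_exact`: `(μ - 2 d_j)² w_j² = e_j²`; multiply by `∏ i ≠ j, (μ - 2 d_i)²` and add.
`cluster_pert`: `w_j² = e_j² / (μ - 2 d_j)²`.
`cluster_inj`: where `μ ≠ 2 d_j`: `w_j = e_j / (2 d_j - μ) = w'_j`.  There is at most one `j` with
`μ = 2 d_j` (`d` injective); for it `w_j² = w'_j²` by the sums, and the signs agree.
-/

set_option autoImplicit false

namespace Pool.Agent.CNX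

theorem cluster_exact {D : ℕ} (d e w : Fin D → ℝ) (μ : ℝ)
    (h : ∀ j, (2 * d j - μ) * w j = e j) :
    cl (fun j => 2 * d j) (fun j => ((e j ^ 2 : ℝ) : ℂ)) ((∑ j, w j ^ 2 : ℝ) : ℂ) (μ : ℂ) = 0 := by
  classical
  unfold cl
  have h1 : ∀ j : Fin D, ((w j : ℂ)) ^ 2 * ∏ i, ((μ : ℂ) - ((2 * d i : ℝ) : ℂ)) ^ 2
      = ((e j ^ 2 : ℝ) : ℂ) * ∏ i ∈ Finset.univ.erase j, ((μ : ℂ) - ((2 * d i : ℝ) : ℂ)) ^ 2 := by
    intro j
    rw [← Finset.mul_prod_erase Finset.univ (fun i => ((μ : ℂ) - ((2 * d i : ℝ) : ℂ)) ^ 2)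
      (Finset.mem_univ j)]
    rw [← h j]
    push_cast
    ring
  have h2 : ((∑ j, w j ^ 2 : ℝ) : ℂ) = ∑ j, ((w j : ℂ)) ^ 2 := by push_cast; rfl
  rw [h2, Finset.sum_mul, sub_eq_zero]
  exact Finset.sum_congr rfl fun j _ => h1 j

theorem cluster_pert {D : ℕ} (d e w : Fin D → ℝ) (μ : ℝ)
    (h : ∀ j, (2 * d j - μ) * w j = e j) (hd : ∀ j, μ ≠ 2 * d j) :
    ((∑ j, w j ^ 2 : ℝ) : ℂ) * (μ : ℂ) ^ 2 = ((∑ j, e j ^ 2 : ℝ) : ℂ) +
      ∑ j, ((e j ^ 2 : ℝ) : ℂ) * ((μ : ℂ) ^ 2 / ((μ : ℂ) - ((2 * d j : ℝ) : ℂ)) ^ 2 - 1) := by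
  classical
  have h2 : ((∑ j, w j ^ 2 : ℝ) : ℂ) = ∑ j, ((w j : ℂ)) ^ 2 := by push_cast; rfl
  have h3 : ((∑ j, e j ^ 2 : ℝ) : ℂ) = ∑ j, ((e j ^ 2 : ℝ) : ℂ) := by push_cast; rfl
  rw [h2, h3, Finset.sum_mul, ← Finset.sum_add_distrib]
  refine Finset.sum_congr rfl fun j _ => ?_
  have hne : ((μ : ℂ) - ((2 * d j : ℝ) : ℂ)) ≠ 0 := by
    intro hc
    apply hd j
    have : ((μ - 2 * d j : ℝ) : ℂ) = 0 := by rw [← hc]; push_cast; ring
    have h5 : μ - 2 * d j = 0 := by exact_mod_cast this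
    linarith
  have h4 : ((e j ^ 2 : ℝ) : ℂ) = ((μ : ℂ) - ((2 * d j : ℝ) : ℂ)) ^ 2 * (w j : ℂ) ^ 2 := by
    rw [← h j]; push_cast; ring
  rw [h4]
  field_simp
  ring

theorem cluster_inj {D : ℕ} (d e w w' : Fin D → ℝ) (μ : ℝ) (hd : Function.Injective d)
    (h : ∀ j, (2 * d j - μ) * w j = e j) (h' : ∀ j, (2 * d j - μ) * w' j = e j)
    (hs : ∑ j, w j ^ 2 = ∑ j, w' j ^ 2)
    (hσ : ∀ j, μ = 2 * d j → (0 ≤ w j ↔ 0 ≤ w' j)) : w = w' := by
  classical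
  have h1 : ∀ j, μ ≠ 2 * d j → w j = w' j := by
    intro j hj
    have hne : 2 * d j - μ ≠ 0 := fun hc => hj (by linarith)
    have := (h j).trans (h' j).symm
    exact mul_left_cancel₀ hne this
  ext j
  by_cases hj : μ = 2 * d j
  · have hoth : ∀ i ∈ Finset.univ.erase j, w i ^ 2 = w' i ^ 2 := by
      intro i hi
      have hij : i ≠ j := Finset.ne_of_mem_erase hi
      have : μ ≠ 2 * d i := by
        intro hc
        apply hij
        apply hd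
        linarith
      rw [h1 i this]
    have hsq : w j ^ 2 = w' j ^ 2 := by
      rw [← Finset.add_sum_erase Finset.univ (fun i => w i ^ 2) (Finset.mem_univ j),
        ← Finset.add_sum_erase Finset.univ (fun i => w' i ^ 2) (Finset.mem_univ j),
        Finset.sum_congr rfl hoth] at hs
      linarith
    rcases sq_eq_sq_iff_eq_or_eq_neg.mp hsq with h2 | h2
    · exact h2
    · by_cases h3 : 0 ≤ w j
      · have h4 := (hσ j hj).mp h3
        have : w' j = 0 := by linarith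
        rw [h2, this, neg_zero]
      · have h4 : ¬ 0 ≤ w' j := fun hc => h3 ((hσ j hj).mpr hc)
        push Not at h3 h4
        linarith
  · exact h1 j hj

end Pool.Agent.CNX
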