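import Pool.Agent.CNX.PB7
import Pool.Agent.CNX.PB9

/-!
# PB10: exact and perturbed clusters satisfy `ClOK`

`clOK_exact`: `Q` says that `(D, d)` is the given pair `(D₀, d₀)`; `k = D₀`, `t = 2 d₀`, `E_j = e_j²`, `g = 0`
(`cluster_exact`; `e_j² ≤ ∑ e² ≤ R²`), any `ρ`, `om`.
`clOK_pert`: `k = 1`, `t = 0`, `E = ∑ e_j²`, `g = -` (the function of PB7), `ρ` from PB7 and
`om = min (om of PB7) (c/4)`: on `K` `|μ| ≥ c > 2 d_j`, `cluster_pert`.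
(`cl ![0] ![E] a μ = a (μ - 0)² - E`.)
-/

set_option autoImplicit false

namespace Pool.Agent.CNX

open MvPolynomial

theorem pb10_NL_nonneg {x0 : V5} {r : ℝ} {Z : Finset V5} {c : V5 → ℂ} {M : ℝ}
    (h : NL x0 r Z c M) : 0 ≤ M := by
  have h0 := h 0
  have : (∑ j : Fin 5, (0 : Fin 5 → ℕ) j) = 0 := by simp
  rw [this, pow_zero, mul_one] at h0
  exact le_trans (norm_nonneg _) h0

theorem pb10_SB_zero (K : Set V5) (ρ ε : ℝ) (hε : 0 < ε) : SB K ρ ε (fun _ => (0 : ℂ)) := by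
  intro x0 _ r hr _ Z c M _ hNL α
  have hM := pb10_NL_nonneg hNL
  simp only [mul_zero, zero_mul, Finset.sum_const_zero, norm_zero]
  positivity

theorem pb10_SB_neg {K : Set V5} {ρ ε : ℝ} {g : V5 → ℂ} (h : SB K ρ ε g) :
    SB K ρ ε (fun x => -(g x)) := by
  intro x0 hx0 r hr hrρ Z c M hZ hNL α
  have h1 := h x0 hx0 r hr hrρ Z c M hZ hNL α
  have h2 : ∑ z ∈ Z, c z * -(g z) * mono x0 α z = -∑ z ∈ Z, c z * g z * mono x0 α z := by
    rw [← Finset.sum_neg_distrib]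
    refine Finset.sum_congr rfl fun z _ => by ring
  simp only
  rw [h2, norm_neg]
  exact h1

theorem clOK_exact (K : Set V5) (q : P5) (R : ℝ) (D₀ : ℕ) (d₀ : Fin D₀ → ℝ) :
    ClOK K q R (fun j => 2 * d₀ j)
      (fun _ D d => (⟨D, d⟩ : Σ D : ℕ, Fin D → ℝ) = ⟨D₀, d₀⟩) := by
  refine ⟨1, one_pos, fun ε hε => ⟨1, one_pos, ?_⟩⟩
  intro D d hQ e he
  cases hQ
  refine ⟨fun i => e i ^ 2, fun i => ⟨sq_nonneg _, ?_⟩, fun _ => 0, pb10_SB_zero K 1 ε hε, ?_⟩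
  · exact le_trans (Finset.single_le_sum (f := fun j => e j ^ 2)
      (fun j _ => sq_nonneg (e j)) (Finset.mem_univ i)) he
  · intro x _ μ w _ hw
    rw [add_zero]
    exact cluster_exact d₀ e w μ hw

theorem clOK_pert (K : Set V5) (hK : IsCompact K) (q : P5) (c R : ℝ) (hc : 0 < c)
    (hq : ∀ x ∈ K, c ≤ ‖eval x q‖) :
    ClOK K q R (fun _ : Fin 1 => (0 : ℝ)) (fun om _ d => Pert d om) := by
  obtain ⟨ρ, hρ, H⟩ := pert q K hK c R hc hq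
  refine ⟨ρ, hρ, fun ε hε => ?_⟩
  obtain ⟨om, hom, H1⟩ := H ε hε
  refine ⟨min om (c / 4), lt_min hom (by linarith), ?_⟩
  intro D d hQ e he
  have hd1 : ∀ j, 0 < d j ∧ d j < om := fun j =>
    ⟨(hQ.2 j).1, lt_of_lt_of_le (hQ.2 j).2 (min_le_left _ _)⟩
  have hd2 : ∀ j, d j < c / 4 := fun j => lt_of_lt_of_le (hQ.2 j).2 (min_le_right _ _)
  refine ⟨fun _ => ∑ j, e j ^ 2, fun _ => ⟨Finset.sum_nonneg fun j _ => sq_nonneg _, he⟩, _,
    pb10_SB_neg (H1 D d e hd1 he), ?_⟩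
  intro x hx μ w hxμ hw
  have hμ : c ≤ |μ| := by
    have := hq x hx
    rw [hxμ, Complex.norm_real, Real.norm_eq_abs] at this
    exact this
  have hne : ∀ j, μ ≠ 2 * d j := by
    intro j hj
    have h1 := (hd1 j).1
    have h2 := hd2 j
    rw [hj, abs_of_pos (by linarith)] at hμ
    linarith
  have h3 := cluster_pert d e w μ hw hne
  have h4 : cl (fun _ : Fin 1 => (0 : ℝ)) (fun i => (((fun _ => ∑ j, e j ^ 2) i : ℝ) : ℂ))
      ((∑ j, w j ^ 2 : ℝ) : ℂ) (μ : ℂ)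
      = ((∑ j, w j ^ 2 : ℝ) : ℂ) * (μ : ℂ) ^ 2 - ((∑ j, e j ^ 2 : ℝ) : ℂ) := by
    simp [cl]
  rw [h4, h3, hxμ]
  ring

end Pool.Agent.CNX
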