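import Pool.Agent.CNX.PB5

/-!
# PB6: the uniform bound (compactness)

Proof.  For `S ⊆ (I → ℂ) × V5` let `P S := ∃ C ε, 0 < ε ∧ ∀ θ g, (∀ l, SB K ρ ε (g l)) →
{x ∈ K | (θ, x) ∈ S ∧ ∀ l, eval x (A.f θ l) + g l x = 0}.encard ≤ C`.  `P` is monotone, `P ∅`, and stable under
union (`C + C'`, `min ε ε'`; `SB` is monotone in `ε` by `Bd.mono`).  Every `(θ0, x0) ∈ Θ ×ˢ K` has an
open neighbourhood with `P`: `loc` at `(θ0, x0)` with `r = min r0 ρ`:
`{(θ, x) | (∀ i, ‖θ i - θ0 i‖ < ε) ∧ ∀ j, ‖x j - x0 j‖ < r}`; a set all of whose finite subsets have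
cardinality `≤ C` has `encard ≤ C`.  `IsCompact.induction_on` for `hΘ.prod hK`.
-/

set_option autoImplicit false

namespace Pool.Agent.CNX

open MvPolynomial

theorem pb6_sb_mono {K : Set V5} {ρ ε ε' : ℝ} {g : V5 → ℂ} (h : SB K ρ ε g) (he : ε ≤ ε') :
    SB K ρ ε' g := by
  intro x0 hx0 r hr hrρ
  exact (h x0 hx0 r hr hrρ).mono hr.le he

theorem pb6_encard {T : Set V5} {C : ℕ}
    (h : ∀ Z : Finset V5, (∀ z ∈ Z, z ∈ T) → Z.card ≤ C) : T.encard ≤ C := by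
  by_contra hlt
  push Not at hlt
  have h1 : ((C + 1 : ℕ) : ℕ∞) ≤ T.encard := by
    have := Order.add_one_le_of_lt hlt
    exact_mod_cast this
  obtain ⟨t, hts, ht⟩ := Set.exists_subset_encard_eq h1
  have hfin : t.Finite := Set.finite_of_encard_eq_coe ht
  have h2 := h hfin.toFinset (fun z hz => hts (hfin.mem_toFinset.1 hz))
  have h3 : ((hfin.toFinset.card : ℕ) : ℕ∞) = ((C + 1 : ℕ) : ℕ∞) := by
    rw [← ht, hfin.encard_eq_coe_toFinset_card]
  have h4 : hfin.toFinset.card = C + 1 := by exact_mod_cast h3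
  omega

theorem ub {I : Type} [Fintype I] (A : Fam I) (Θ : Set (I → ℂ)) (hΘ : IsCompact Θ)
    (hA : ∀ θ ∈ Θ, Alg5 A θ) (K : Set V5) (hK : IsCompact K) (ρ : ℝ) (hρ : 0 < ρ) :
    ∃ (C : ℕ) (ε : ℝ), 0 < ε ∧ ∀ θ ∈ Θ, ∀ g : Fin 5 → V5 → ℂ, (∀ l, SB K ρ ε (g l)) →
      {x | x ∈ K ∧ ∀ l, eval x (A.f θ l) + g l x = 0}.encard ≤ C := by
  have key : ∃ (C : ℕ) (ε : ℝ), 0 < ε ∧ ∀ θ : I → ℂ, ∀ g : Fin 5 → V5 → ℂ,
      (∀ l, SB K ρ ε (g l)) →
      {x | x ∈ K ∧ (θ, x) ∈ (Θ ×ˢ K) ∧ ∀ l, eval x (A.f θ l) + g l x = 0}.encard ≤ C := by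
    apply (hΘ.prod hK).induction_on (p := fun S => ∃ (C : ℕ) (ε : ℝ), 0 < ε ∧
      ∀ θ : I → ℂ, ∀ g : Fin 5 → V5 → ℂ, (∀ l, SB K ρ ε (g l)) →
      {x | x ∈ K ∧ (θ, x) ∈ S ∧ ∀ l, eval x (A.f θ l) + g l x = 0}.encard ≤ C)
    · refine ⟨0, 1, one_pos, ?_⟩
      intro θ g _
      have : {x | x ∈ K ∧ (θ, x) ∈ (∅ : Set ((I → ℂ) × V5)) ∧
          ∀ l, eval x (A.f θ l) + g l x = 0} = ∅ := by
        ext x
        simp
      rw [this]
      simp
    · rintro s t hst ⟨C, ε, hε, h⟩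
      refine ⟨C, ε, hε, fun θ g hg => le_trans (Set.encard_le_encard ?_) (h θ g hg)⟩
      rintro x ⟨h1, h2, h3⟩
      exact ⟨h1, hst h2, h3⟩
    · rintro s t ⟨C, ε, hε, h⟩ ⟨C', ε', hε', h'⟩
      refine ⟨C + C', min ε ε', lt_min hε hε', fun θ g hg => ?_⟩
      have h1 := h θ g (fun l => pb6_sb_mono (hg l) (min_le_left _ _))
      have h2 := h' θ g (fun l => pb6_sb_mono (hg l) (min_le_right _ _))
      have h3 : {x | x ∈ K ∧ (θ, x) ∈ s ∪ t ∧ ∀ l, eval x (A.f θ l) + g l x = 0} ⊆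
          {x | x ∈ K ∧ (θ, x) ∈ s ∧ ∀ l, eval x (A.f θ l) + g l x = 0} ∪
          {x | x ∈ K ∧ (θ, x) ∈ t ∧ ∀ l, eval x (A.f θ l) + g l x = 0} := by
        rintro x ⟨h1, h2 | h2, h3⟩
        · exact Or.inl ⟨h1, h2, h3⟩
        · exact Or.inr ⟨h1, h2, h3⟩
      refine (Set.encard_le_encard h3).trans ((Set.encard_union_le _ _).trans ?_)
      push_cast
      exact add_le_add h1 h2
    · rintro ⟨θ0, x0⟩ ⟨hθ0, hx0⟩
      obtain ⟨C, r0, hr0, hloc⟩ := loc A θ0 (hA θ0 hθ0) x0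
      have hr : 0 < min r0 ρ := lt_min hr0 hρ
      obtain ⟨ε, hε, hl⟩ := hloc (min r0 ρ) hr (min_le_left _ _)
      refine ⟨{q : (I → ℂ) × V5 | (∀ i, ‖q.1 i - θ0 i‖ < ε) ∧ ∀ j, ‖q.2 j - x0 j‖ < min r0 ρ},
        ?_, C, ε, hε, ?_⟩
      · apply mem_nhdsWithin_of_mem_nhds
        apply IsOpen.mem_nhds
        · have h1 : IsOpen {q : (I → ℂ) × V5 | ∀ i, ‖q.1 i - θ0 i‖ < ε} := by
            rw [Set.setOf_forall]
            apply isOpen_iInter_of_finite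
            intro i
            exact isOpen_lt (by fun_prop) continuous_const
          have h2 : IsOpen {q : (I → ℂ) × V5 | ∀ j, ‖q.2 j - x0 j‖ < min r0 ρ} := by
            rw [Set.setOf_forall]
            apply isOpen_iInter_of_finite
            intro i
            exact isOpen_lt (by fun_prop) continuous_const
          exact h1.inter h2
        · constructor
          · intro i
            simpa using hε
          · intro j
            show ‖x0 j - x0 j‖ < min r0 ρ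
            rw [sub_self, norm_zero]
            exact hr
      · intro θ g hg
        apply pb6_encard
        intro Z hZ
        rcases Z.eq_empty_or_nonempty with rfl | ⟨z0, hz0⟩
        · simp
        · have hθ : ∀ i, ‖θ i - θ0 i‖ ≤ ε := fun i => ((hZ z0 hz0).2.1.1 i).le
          refine hl θ hθ g (fun l => hg l x0 hx0 _ hr (min_le_right _ _)) Z ?_ ?_
          · intro z hz j
            exact ((hZ z hz).2.1.2 j).le
          · intro z hz l
            exact (hZ z hz).2.2 l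
  obtain ⟨C, ε, hε, h⟩ := key
  refine ⟨C, ε, hε, fun θ hθ g hg => le_trans (Set.encard_le_encard ?_) (h θ g hg)⟩
  rintro x ⟨h1, h2⟩
  exact ⟨h1, ⟨hθ, h1⟩, h2⟩

end Pool.Agent.CNX
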