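import Pool.Agent.CNX.ADefs

/-!
# PB8: the multiplier is bounded

Proof.  Multiply the equations by `y 0, y 1, w3 j, w1 j, w2 j` and add; the last equation gives
`lam = F_0 y0 + F_1 y1 + 2 F_a ∑ w3² + 2 F_b ∑ w1² + 2 ∑ d3 w3² + 2 ∑ d1 w1² - 2 ∑ d2 w2²
 - (p0 y0 + p1 y1 + ∑ e3 w3 + ∑ e1 w1 + ∑ e2 w2)`.  All `|y|, ∑ w² ≤ 1`, `|F_i| ≤ N` on the cube `[-1,1]^4`
(continuous function on a compact set), the last bracket is at most `5 (|R| + 1)` in absolute value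
(Cauchy-Schwarz in each block, or `|e w| ≤ (e² + w²)/2`).  `Λ = 6 N + 6 |Dm| + R² + 10` is more than enough.
-/

set_option autoImplicit false

namespace Pool.Agent.CNX

theorem pb8_sum {D : ℕ} (a l : ℝ) (d w e : Fin D → ℝ) (h : ∀ j, (a + 2 * d j - l) * w j = e j) :
    a * ∑ j, w j ^ 2 + 2 * ∑ j, d j * w j ^ 2 - l * ∑ j, w j ^ 2 = ∑ j, e j * w j := by
  rw [Finset.mul_sum, Finset.mul_sum, Finset.mul_sum, ← Finset.sum_add_distrib,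
    ← Finset.sum_sub_distrib]
  refine Finset.sum_congr rfl fun j _ => ?_
  rw [← h j]
  ring

theorem pb8_cs {D : ℕ} (e w : Fin D → ℝ) :
    |∑ j, e j * w j| ≤ (∑ j, e j ^ 2 + ∑ j, w j ^ 2) / 2 := by
  have h1 : ∑ j, |e j * w j| ≤ ∑ j, (e j ^ 2 + w j ^ 2) / 2 := by
    refine Finset.sum_le_sum fun j _ => ?_
    rw [abs_le]
    constructor
    · nlinarith [sq_nonneg (e j + w j)]
    · nlinarith [sq_nonneg (e j - w j)]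
  refine (Finset.abs_sum_le_sum_abs _ _).trans (h1.trans (le_of_eq ?_))
  rw [← Finset.sum_add_distrib, Finset.sum_div]

theorem pb8_d {D : ℕ} {Dm : ℝ} (d w : Fin D → ℝ) (h : ∀ j, 0 < d j ∧ d j ≤ Dm) :
    |∑ j, d j * w j ^ 2| ≤ |Dm| * ∑ j, w j ^ 2 := by
  have h0 : 0 ≤ ∑ j, d j * w j ^ 2 :=
    Finset.sum_nonneg fun j _ => mul_nonneg (h j).1.le (sq_nonneg _)
  rw [abs_of_nonneg h0, Finset.mul_sum]
  refine Finset.sum_le_sum fun j _ => ?_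
  exact mul_le_mul_of_nonneg_right ((h j).2.trans (le_abs_self Dm)) (sq_nonneg _)

theorem pb8_dF (F : P4) (i : Fin 4) : ∃ N : ℝ, 0 ≤ N ∧ ∀ q : Fin 4 → ℝ, (∀ j, |q j| ≤ 1) →
    |dF F i q| ≤ N := by
  have hc : Continuous (fun q : Fin 4 → ℝ => dF F i q) := by
    unfold dF
    exact MvPolynomial.continuous_eval _
  obtain ⟨N, hN⟩ := (isCompact_closedBall (0 : Fin 4 → ℝ) 1).exists_bound_of_continuousOn
    hc.continuousOn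
  have hb : ∀ q : Fin 4 → ℝ, (∀ j, |q j| ≤ 1) → |dF F i q| ≤ N := by
    intro q hq
    refine hN q ?_
    rw [mem_closedBall_zero_iff, pi_norm_le_iff_of_nonneg zero_le_one]
    exact hq
  exact ⟨N, (abs_nonneg _).trans (hb 0 (fun j => by simp)), hb⟩

theorem pb8_mul {a b N : ℝ} (ha : |a| ≤ N) (hb : |b| ≤ 1) : |a * b| ≤ N := by
  rw [abs_mul]
  calc |a| * |b| ≤ |a| * 1 := mul_le_mul_of_nonneg_left hb (abs_nonneg a)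
    _ ≤ N := by rw [mul_one]; exact ha

theorem lam_bound (F : P4) (Dm R : ℝ) : ∃ Λ : ℝ, ∀ (D3 D1 D2 : ℕ) (d3 : Fin D3 → ℝ)
    (d1 : Fin D1 → ℝ) (d2 : Fin D2 → ℝ), (∀ j, 0 < d3 j ∧ d3 j ≤ Dm) →
    (∀ j, 0 < d1 j ∧ d1 j ≤ Dm) → (∀ j, 0 < d2 j ∧ d2 j ≤ Dm) →
    ∀ (p : Fin 2 → ℝ) (e3 : Fin D3 → ℝ) (e1 : Fin D1 → ℝ) (e2 : Fin D2 → ℝ), Bdd R p e3 e1 e2 →
      ∀ x ∈ Sol F d3 d1 d2 p e3 e1 e2, |x.lam| ≤ Λ := by
  obtain ⟨N0, hN0, h0⟩ := pb8_dF F 0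
  obtain ⟨N1, hN1, h1⟩ := pb8_dF F 1
  obtain ⟨N2, hN2, h2⟩ := pb8_dF F 2
  obtain ⟨N3, hN3, h3⟩ := pb8_dF F 3
  refine ⟨N0 + N1 + 2 * N2 + 2 * N3 + 6 * |Dm| + R ^ 2 + 1, ?_⟩
  intro D3 D1 D2 d3 d1 d2 hd3 hd1 hd2 p e3 e1 e2 hB x hx
  obtain ⟨x0, x1, x3, x4, x5, x6⟩ := hx
  have n0 := sq_nonneg (x.y 0)
  have n1 := sq_nonneg (x.y 1)
  have n3 : 0 ≤ ∑ j, x.w3 j ^ 2 := Finset.sum_nonneg fun j _ => sq_nonneg _
  have n4 : 0 ≤ ∑ j, x.w1 j ^ 2 := Finset.sum_nonneg fun j _ => sq_nonneg _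
  have n5 : 0 ≤ ∑ j, x.w2 j ^ 2 := Finset.sum_nonneg fun j _ => sq_nonneg _
  have s0 : |x.y 0| ≤ 1 := by
    rw [← sq_le_one_iff_abs_le_one]
    linarith
  have s1 : |x.y 1| ≤ 1 := by
    rw [← sq_le_one_iff_abs_le_one]
    linarith
  have s3 : |∑ j, x.w3 j ^ 2| ≤ 1 := by
    rw [abs_of_nonneg n3]
    linarith
  have s4 : |∑ j, x.w1 j ^ 2| ≤ 1 := by
    rw [abs_of_nonneg n4]
    linarith
  have hq : ∀ j, |x.q j| ≤ 1 := by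
    intro j
    fin_cases j
    · exact s0
    · exact s1
    · exact s3
    · exact s4
  have b0 := pb8_mul (h0 x.q hq) s0
  have b1 := pb8_mul (h1 x.q hq) s1
  have b2 := pb8_mul (h2 x.q hq) s3
  have b3 := pb8_mul (h3 x.q hq) s4
  have c3 := pb8_sum (2 * dF F 2 x.q) x.lam d3 x.w3 e3 x3
  have c4 := pb8_sum (2 * dF F 3 x.q) x.lam d1 x.w1 e1 x4
  have c5 := pb8_sum 0 x.lam (fun j => - d2 j) x.w2 e2 (fun j => by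
    rw [← x5 j]
    ring)
  have k3 := pb8_cs e3 x.w3
  have k4 := pb8_cs e1 x.w1
  have k5 := pb8_cs e2 x.w2
  have m3 := pb8_d d3 x.w3 hd3
  have m4 := pb8_d d1 x.w1 hd1
  have m5 := pb8_d d2 x.w2 hd2
  have hD := abs_nonneg Dm
  have m3' : |∑ j, d3 j * x.w3 j ^ 2| ≤ |Dm| := m3.trans (by nlinarith)
  have m4' : |∑ j, d1 j * x.w1 j ^ 2| ≤ |Dm| := m4.trans (by nlinarith)
  have m5' : |∑ j, d2 j * x.w2 j ^ 2| ≤ |Dm| := m5.trans (by nlinarith)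
  have hneg : ∑ j, (-d2 j) * x.w2 j ^ 2 = - ∑ j, d2 j * x.w2 j ^ 2 := by
    rw [← Finset.sum_neg_distrib]
    exact Finset.sum_congr rfl fun j _ => by ring
  rw [hneg] at c5
  have y0 : dF F 0 x.q * x.y 0 - x.lam * x.y 0 ^ 2 = p 0 * x.y 0 := by
    rw [← x0]
    ring
  have y1 : dF F 1 x.q * x.y 1 - x.lam * x.y 1 ^ 2 = p 1 * x.y 1 := by
    rw [← x1]
    ring
  have p0 : |p 0 * x.y 0| ≤ (p 0 ^ 2 + x.y 0 ^ 2) / 2 := by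
    rw [abs_le]
    constructor
    · nlinarith [sq_nonneg (p 0 + x.y 0)]
    · nlinarith [sq_nonneg (p 0 - x.y 0)]
  have p1 : |p 1 * x.y 1| ≤ (p 1 ^ 2 + x.y 1 ^ 2) / 2 := by
    rw [abs_le]
    constructor
    · nlinarith [sq_nonneg (p 1 + x.y 1)]
    · nlinarith [sq_nonneg (p 1 - x.y 1)]
  unfold Bdd at hB
  have key : x.lam = dF F 0 x.q * x.y 0 + dF F 1 x.q * x.y 1 + 2 * (dF F 2 x.q * ∑ j, x.w3 j ^ 2)
      + 2 * (dF F 3 x.q * ∑ j, x.w1 j ^ 2) + 2 * ∑ j, d3 j * x.w3 j ^ 2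
      + 2 * ∑ j, d1 j * x.w1 j ^ 2 - 2 * ∑ j, d2 j * x.w2 j ^ 2 - p 0 * x.y 0 - p 1 * x.y 1
      - ∑ j, e3 j * x.w3 j - ∑ j, e1 j * x.w1 j - ∑ j, e2 j * x.w2 j := by
    have h7 : x.lam = x.lam * (x.y 0 ^ 2 + x.y 1 ^ 2 + ∑ j, x.w3 j ^ 2 + ∑ j, x.w1 j ^ 2
        + ∑ j, x.w2 j ^ 2) := by rw [x6, mul_one]
    linarith
  rw [abs_le] at b0 b1 b2 b3 k3 k4 k5 m3' m4' m5' p0 p1 ⊢
  constructor
  · linarith [b0.1, b1.1, b2.1, b3.1, k3.2, k4.2, k5.2, m3'.1, m4'.1, m5'.2, p0.2, p1.2]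
  · linarith [b0.2, b1.2, b2.2, b3.2, k3.1, k4.1, k5.1, m3'.2, m4'.2, m5'.1, p0.1, p1.1]

end Pool.Agent.CNX
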