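import Pool.Agent.CNX.AL10
import Pool.Agent.CNX.PB6
import Pool.Agent.CNX.PB8
import Pool.Agent.CNX.PB10

/-!
# PB11: the general bound
-/

set_option autoImplicit false

namespace Pool.Agent.CNX

open MvPolynomial

/-- box of real points -/
def pb11_box (c Λ : ℝ) : Set (Fin 5 → ℝ) := Set.Icc ![-1, -1, 0, 0, -Λ] ![1, 1, 1, 1, -c]

/-- the embedding of `ℝ⁵` -/
noncomputable def pb11_emb (r : Fin 5 → ℝ) : V5 := fun j => (r j : ℂ)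

/-- the compact set -/
def pb11_K (𝓡 : Set V5) (c Λ : ℝ) : Set V5 := pb11_emb '' (pb11_box c Λ) ∩ 𝓡

theorem pb11_K_compact (𝓡 : Set V5) (h𝓡 : IsClosed 𝓡) (c Λ : ℝ) :
    IsCompact (pb11_K 𝓡 c Λ) := by
  have h1 : IsCompact (pb11_box c Λ) := isCompact_Icc
  have h2 : Continuous pb11_emb := by
    unfold pb11_emb
    fun_prop
  exact (h1.image h2).inter_right h𝓡

section
variable {D3 D1 D2 : ℕ}

theorem pb11_q_congr {x x' : Cfg D3 D1 D2} (h : x.r5 = x'.r5) : x.q = x'.q := by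
  have h0 := congrFun h 0
  have h1 := congrFun h 1
  have h2 := congrFun h 2
  have h3 := congrFun h 3
  simp only [Cfg.r5, Matrix.cons_val] at h0 h1 h2 h3
  simp only [Cfg.q, h0, h1, h2, h3]

theorem pb11_c5_inj {x x' : Cfg D3 D1 D2} (h : x.c5 = x'.c5) : x.r5 = x'.r5 := by
  ext j
  have := congrFun h j
  simpa [Cfg.c5] using this

theorem pb11_inj (F : P4) (c : ℝ) (d3 : Fin D3 → ℝ)
    (d1 : Fin D1 → ℝ) (d2 : Fin D2 → ℝ) (hd3 : StrictMono d3) (hd1 : StrictMono d1)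
    (hd2 : StrictMono d2) (hd2' : ∀ j, 2 * d2 j < c)
    (p : Fin 2 → ℝ) (e3 : Fin D3 → ℝ) (e1 : Fin D1 → ℝ) (e2 : Fin D2 → ℝ)
    (x x' : Cfg D3 D1 D2) (hx : x ∈ Sol F d3 d1 d2 p e3 e1 e2)
    (hx' : x' ∈ Sol F d3 d1 d2 p e3 e1 e2) (hl : x.lam ≤ -c) (h : x.c5 = x'.c5)
    (h3 : (∃ j, mu3 F x = 2 * d3 j ∧ 0 ≤ x.w3 j) ↔ (∃ j, mu3 F x' = 2 * d3 j ∧ 0 ≤ x'.w3 j))
    (h1 : (∃ j, mu1 F x = 2 * d1 j ∧ 0 ≤ x.w1 j) ↔ (∃ j, mu1 F x' = 2 * d1 j ∧ 0 ≤ x'.w1 j)) :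
    x = x' := by
  have hr := pb11_c5_inj h
  have hq := pb11_q_congr hr
  have hr0 := congrFun hr 0
  have hr1 := congrFun hr 1
  have hr2 := congrFun hr 2
  have hr3 := congrFun hr 3
  have hr4 := congrFun hr 4
  simp only [Cfg.r5, Matrix.cons_val] at hr0 hr1 hr2 hr3 hr4
  have hm3 : mu3 F x = mu3 F x' := by simp only [mu3, hq, hr4]
  have hm1 : mu1 F x = mu1 F x' := by simp only [mu1, hq, hr4]
  obtain ⟨-, -, hx3, hx1, hx2, hxs⟩ := hx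
  obtain ⟨-, -, hx3', hx1', hx2', hxs'⟩ := hx'
  have key : ∀ {D : ℕ} (d e w w' : Fin D → ℝ) (μ : ℝ), StrictMono d →
      (∀ j, (2 * d j - μ) * w j = e j) → (∀ j, (2 * d j - μ) * w' j = e j) →
      ∑ j, w j ^ 2 = ∑ j, w' j ^ 2 →
      ((∃ j, μ = 2 * d j ∧ 0 ≤ w j) ↔ (∃ j, μ = 2 * d j ∧ 0 ≤ w' j)) → w = w' := by
    intro D d e w w' μ hd hw hw' hs hσ
    refine cluster_inj d e w w' μ hd.injective hw hw' hs ?_
    intro j hj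
    constructor
    · intro h0
      obtain ⟨j', hj', h0'⟩ := hσ.1 ⟨j, hj, h0⟩
      have : j = j' := hd.injective (by linarith)
      rw [this]; exact h0'
    · intro h0
      obtain ⟨j', hj', h0'⟩ := hσ.2 ⟨j, hj, h0⟩
      have : j = j' := hd.injective (by linarith)
      rw [this]; exact h0'
  have hw3 : x.w3 = x'.w3 := by
    refine key d3 e3 x.w3 x'.w3 (mu3 F x) hd3 ?_ ?_ hr2 ?_
    · intro j
      rw [← hx3 j, mu3]; ring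
    · intro j
      rw [← hx3' j, hm3, mu3]; ring
    · rw [h3, hm3]
  have hw1 : x.w1 = x'.w1 := by
    refine key d1 e1 x.w1 x'.w1 (mu1 F x) hd1 ?_ ?_ hr3 ?_
    · intro j
      rw [← hx1 j, mu1]; ring
    · intro j
      rw [← hx1' j, hm1, mu1]; ring
    · rw [h1, hm1]
  have hw2 : x.w2 = x'.w2 := by
    refine cluster_inj d2 (fun j => - e2 j) x.w2 x'.w2 (-x.lam) hd2.injective ?_ ?_ ?_ ?_
    · intro j
      rw [← hx2 j]; ring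
    · intro j
      rw [← hx2' j, hr4]; ring
    · rw [hr0, hr1, hw3, hw1] at hxs
      linarith
    · intro j hj
      have := hd2' j
      exfalso
      linarith
  have hy : x.y = x'.y := by
    ext i
    fin_cases i
    · exact hr0
    · exact hr1
  have : ∀ z : Cfg D3 D1 D2, z = (z.y, z.w3, z.w1, z.w2, z.lam) := fun z => rfl
  rw [this x, this x', hy, hw3, hw1, hw2, hr4]

end

theorem pb11_zero {x0 : V5} {r ε : ℝ} (hr : 0 ≤ r) (hε : 0 ≤ ε) :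
    Bd x0 r (0 : V5 → ℂ) ε := by
  refine Bd.mono hr (B := ‖(0 : ℂ)‖) (Bd.const x0 r 0) ?_
  simpa using hε

theorem bgen (F : P4) (hF : F4 F) (c R Dm : ℝ) (hc : 0 < c) (𝓡 : Set V5) (h𝓡 : IsClosed 𝓡)
    {k3 k1 : ℕ} (t3 : Fin k3 → ℝ) (t1 : Fin k1 → ℝ)
    (Q3 Q1 : ℝ → ∀ D : ℕ, (Fin D → ℝ) → Prop) (hQ3 : QOK Dm Q3) (hQ1 : QOK Dm Q1)
    (hC3 : ∀ K : Set V5, IsCompact K → K ⊆ 𝓡 → ClOK K (PM3 F) R t3 Q3)
    (hC1 : ∀ K : Set V5, IsCompact K → K ⊆ 𝓡 → ClOK K (PM1 F) R t1 Q1) :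
    ∃ (C : ℕ) (om : ℝ), 0 < om ∧ ∀ (D3 D1 D2 : ℕ) (d3 : Fin D3 → ℝ) (d1 : Fin D1 → ℝ)
      (d2 : Fin D2 → ℝ), Q3 om D3 d3 → Q1 om D1 d1 → Pert d2 om →
      ∀ (p : Fin 2 → ℝ) (e3 : Fin D3 → ℝ) (e1 : Fin D1 → ℝ) (e2 : Fin D2 → ℝ),
        Bdd R p e3 e1 e2 →
        {x ∈ Sol F d3 d1 d2 p e3 e1 e2 | x.lam ≤ -c ∧ x.c5 ∈ 𝓡}.encard ≤ C := by
  obtain ⟨Λ, hΛ⟩ := lam_bound F (max Dm 1) R
  have hK : IsCompact (pb11_K 𝓡 c Λ) := pb11_K_compact 𝓡 h𝓡 c Λ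
  have hKR : pb11_K 𝓡 c Λ ⊆ 𝓡 := Set.inter_subset_right
  obtain ⟨ρ3, hρ3, h3⟩ := hC3 _ hK hKR
  obtain ⟨ρ1, hρ1, h1⟩ := hC1 _ hK hKR
  have hq2 : ∀ x ∈ pb11_K 𝓡 c Λ, c ≤ ‖eval x (-X 4 : P5)‖ := by
    rintro x ⟨⟨r, hr, rfl⟩, -⟩
    have h4 := hr.2 4
    simp only [Matrix.cons_val] at h4
    have : eval (pb11_emb r) (-X 4 : P5) = ((-r 4 : ℝ) : ℂ) := by
      simp [pb11_emb]
    rw [this, Complex.norm_real, Real.norm_eq_abs]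
    exact le_trans (by linarith) (le_abs_self _)
  obtain ⟨ρ2, hρ2, h2⟩ := clOK_pert _ hK (-X 4) c R hc hq2
  set ρ := min ρ3 (min ρ1 ρ2) with hρdef
  have hρ : 0 < ρ := lt_min hρ3 (lt_min hρ1 hρ2)
  set M : ℝ := |R| + R ^ 2 with hM
  have hM0 : 0 ≤ M := by positivity
  obtain ⟨C, ε, hε, hub⟩ := ub (Mod F t3 t1) (Metric.closedBall 0 M) (isCompact_closedBall _ _)
    (fun θ _ => alg5 F hF t3 t1 θ) _ hK ρ hρ
  obtain ⟨om3, hom3, h3⟩ := h3 ε hε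
  obtain ⟨om1, hom1, h1⟩ := h1 ε hε
  obtain ⟨om2, hom2, h2⟩ := h2 ε hε
  refine ⟨4 * C, min (min om3 om1) (min om2 (min 1 (c / 2))), by positivity, ?_⟩
  intro D3 D1 D2 d3 d1 d2 hq3 hq1 hp2 p e3 e1 e2 hB
  set om := min (min om3 om1) (min om2 (min 1 (c / 2))) with hom
  have hle3 : om ≤ om3 := le_trans (min_le_left _ _) (min_le_left _ _)
  have hle1 : om ≤ om1 := le_trans (min_le_left _ _) (min_le_right _ _)
  have hle2 : om ≤ om2 := le_trans (min_le_right _ _) (min_le_left _ _)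
  have hleo : om ≤ 1 :=
    le_trans (min_le_right _ _) (le_trans (min_le_right _ _) (min_le_left _ _))
  have hlec : om ≤ c / 2 :=
    le_trans (min_le_right _ _) (le_trans (min_le_right _ _) (min_le_right _ _))
  unfold Bdd at hB
  have s3 : 0 ≤ ∑ j, e3 j ^ 2 := Finset.sum_nonneg fun j _ => sq_nonneg _
  have s1 : 0 ≤ ∑ j, e1 j ^ 2 := Finset.sum_nonneg fun j _ => sq_nonneg _
  have s2 : 0 ≤ ∑ j, e2 j ^ 2 := Finset.sum_nonneg fun j _ => sq_nonneg _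
  have sp0 := sq_nonneg (p 0)
  have sp1 := sq_nonneg (p 1)
  obtain ⟨E3, hE3, g3, hg3, H3⟩ := h3 D3 d3 (hQ3.1 _ _ _ _ hle3 hq3) e3 (by linarith)
  obtain ⟨E1, hE1, g1, hg1, H1⟩ := h1 D1 d1 (hQ1.1 _ _ _ _ hle1 hq1) e1 (by linarith)
  obtain ⟨E2, hE2, g2, hg2, H2⟩ := h2 D2 d2
    ⟨hp2.1, fun j => ⟨(hp2.2 j).1, lt_of_lt_of_le (hp2.2 j).2 hle2⟩⟩ (fun j => - e2 j)
    (by simpa using (by linarith : ∑ j, e2 j ^ 2 ≤ R ^ 2))
  obtain ⟨hd3, hd3'⟩ := hQ3.2 om D3 d3 hleo hq3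
  obtain ⟨hd1, hd1'⟩ := hQ1.2 om D1 d1 hleo hq1
  have hd2' : ∀ j, 2 * d2 j < c := fun j => by
    have := (hp2.2 j).2
    linarith
  set θ : Par k3 k1 → ℂ := par (fun i => (p i : ℂ)) (fun i => (E3 i : ℂ)) (fun i => (E1 i : ℂ))
    (E2 0 : ℂ) with hθ
  have hRp : ∀ i, |p i| ≤ |R| := by
    intro i
    apply sq_le_sq.1
    fin_cases i
    · simp only [Fin.zero_eta]; linarith
    · simp only [Fin.mk_one]; linarith
  have hθM : θ ∈ Metric.closedBall (0 : Par k3 k1 → ℂ) M := by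
    rw [mem_closedBall_zero_iff, pi_norm_le_iff_of_nonneg hM0]
    have hR2 : 0 ≤ R ^ 2 := sq_nonneg R
    have hR1 : 0 ≤ |R| := abs_nonneg R
    rintro ((i | i) | (i | i))
    · simp only [hθ, par, Sum.elim_inl, Complex.norm_real, Real.norm_eq_abs]
      linarith [hRp i]
    · simp only [hθ, par, Sum.elim_inl, Sum.elim_inr, Complex.norm_real, Real.norm_eq_abs]
      rw [abs_of_nonneg (hE3 i).1]
      linarith [(hE3 i).2]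
    · simp only [hθ, par, Sum.elim_inl, Sum.elim_inr, Complex.norm_real, Real.norm_eq_abs]
      rw [abs_of_nonneg (hE1 i).1]
      linarith [(hE1 i).2]
    · simp only [hθ, par, Sum.elim_inr, Complex.norm_real, Real.norm_eq_abs]
      rw [abs_of_nonneg (hE2 0).1]
      linarith [(hE2 0).2]
  set g : Fin 5 → V5 → ℂ := ![0, 0, g3, g1, g2] with hg
  have hgS : ∀ l, SB (pb11_K 𝓡 c Λ) ρ ε (g l) := by
    have hz : SB (pb11_K 𝓡 c Λ) ρ ε 0 := fun x0 _ r hr _ => pb11_zero hr.le hε.le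
    have hr3 : ρ ≤ ρ3 := min_le_left _ _
    have hr1 : ρ ≤ ρ1 := le_trans (min_le_right _ _) (min_le_left _ _)
    have hr2 : ρ ≤ ρ2 := le_trans (min_le_right _ _) (min_le_right _ _)
    intro l
    fin_cases l
    · exact hz
    · exact hz
    · exact fun x0 hx0 r hr hrρ => hg3 x0 hx0 r hr (hrρ.trans hr3)
    · exact fun x0 hx0 r hr hrρ => hg1 x0 hx0 r hr (hrρ.trans hr1)
    · exact fun x0 hx0 r hr hrρ => hg2 x0 hx0 r hr (hrρ.trans hr2)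
  have hT := hub θ hθM g hgS
  set T : Set V5 := {x | x ∈ pb11_K 𝓡 c Λ ∧ ∀ l, eval x ((Mod F t3 t1).f θ l) + g l x = 0}
    with hTdef
  set S : Set (Cfg D3 D1 D2) := {x ∈ Sol F d3 d1 d2 p e3 e1 e2 | x.lam ≤ -c ∧ x.c5 ∈ 𝓡}
    with hS
  have hmap : ∀ x ∈ S, x.c5 ∈ T := by
    rintro x ⟨hx, hl, hxR⟩
    have hlam := hΛ D3 D1 D2 d3 d1 d2 (fun j => ⟨(hd3' j).1, le_max_of_le_left (hd3' j).2⟩)
      (fun j => ⟨(hd1' j).1, le_max_of_le_left (hd1' j).2⟩)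
      (fun j => ⟨(hp2.2 j).1, le_max_of_le_right ((hp2.2 j).2.le.trans hleo)⟩)
      p e3 e1 e2 (by unfold Bdd; exact hB) x hx
    obtain ⟨hxp0, hxp1, hx3, hx1, hx2, hxs⟩ := hx
    have t3n : 0 ≤ ∑ j, x.w3 j ^ 2 := Finset.sum_nonneg fun j _ => sq_nonneg _
    have t1n : 0 ≤ ∑ j, x.w1 j ^ 2 := Finset.sum_nonneg fun j _ => sq_nonneg _
    have t2n : 0 ≤ ∑ j, x.w2 j ^ 2 := Finset.sum_nonneg fun j _ => sq_nonneg _
    have u0 := sq_nonneg (x.y 0)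
    have u1 := sq_nonneg (x.y 1)
    have hy0 : |x.y 0| ≤ 1 := by
      rw [← sq_le_one_iff_abs_le_one]; linarith
    have hy1 : |x.y 1| ≤ 1 := by
      rw [← sq_le_one_iff_abs_le_one]; linarith
    have hKx : x.c5 ∈ pb11_K 𝓡 c Λ := by
      refine ⟨⟨x.r5, ⟨?_, ?_⟩, rfl⟩, hxR⟩
      · intro j
        fin_cases j
        · exact (abs_le.1 hy0).1
        · exact (abs_le.1 hy1).1
        · exact t3n
        · exact t1n
        · exact (abs_le.1 hlam).1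
      · intro j
        fin_cases j
        · exact (abs_le.1 hy0).2
        · exact (abs_le.1 hy1).2
        · change ∑ j, x.w3 j ^ 2 ≤ 1
          linarith
        · change ∑ j, x.w1 j ^ 2 ≤ 1
          linarith
        · exact hl
    refine ⟨hKx, ?_⟩
    have e3' := H3 x.c5 hKx (mu3 F x) x.w3 (eval_PM3_c5 F x) (fun j => by
      rw [← hx3 j, mu3]; ring)
    have e1' := H1 x.c5 hKx (mu1 F x) x.w1 (eval_PM1_c5 F x) (fun j => by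
      rw [← hx1 j, mu1]; ring)
    have e2' := H2 x.c5 hKx (-x.lam) x.w2 (by simp [Cfg.c5, Cfg.r5]) (fun j => by
      rw [← hx2 j]; ring)
    have hev := eval_Mod F t3 t1 (fun i => (p i : ℂ)) (fun i => (E3 i : ℂ))
      (fun i => (E1 i : ℂ)) (E2 0 : ℂ) x.c5
    intro l
    have hevl : eval x.c5 ((Mod F t3 t1).f θ l) = _ := congrFun hev l
    rw [hevl]
    have c0 : x.c5 0 = (x.y 0 : ℂ) := rfl
    have c1 : x.c5 1 = (x.y 1 : ℂ) := rfl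
    have c2 : x.c5 2 = ((∑ j, x.w3 j ^ 2 : ℝ) : ℂ) := rfl
    have c3 : x.c5 3 = ((∑ j, x.w1 j ^ 2 : ℝ) : ℂ) := rfl
    have c4 : x.c5 4 = (x.lam : ℂ) := rfl
    fin_cases l
    · change Gc F 0 x.c5 - x.c5 4 * x.c5 0 - (p 0 : ℂ) + 0 = 0
      rw [Gc_c5, c4, c0, ← hxp0]
      push_cast
      ring
    · change Gc F 1 x.c5 - x.c5 4 * x.c5 1 - (p 1 : ℂ) + 0 = 0
      rw [Gc_c5, c4, c1, ← hxp1]
      push_cast
      ring
    · change cl t3 (fun i => (E3 i : ℂ)) (x.c5 2) (eval x.c5 (PM3 F)) + g3 x.c5 = 0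
      rw [eval_PM3_c5, c2]
      exact e3'
    · change cl t1 (fun i => (E1 i : ℂ)) (x.c5 3) (eval x.c5 (PM1 F)) + g1 x.c5 = 0
      rw [eval_PM1_c5, c3]
      exact e1'
    · change (1 - x.c5 0 ^ 2 - x.c5 1 ^ 2 - x.c5 2 - x.c5 3) * x.c5 4 ^ 2 - (E2 0 : ℂ)
        + g2 x.c5 = 0
      have hcl : cl (fun _ : Fin 1 => (0 : ℝ)) (fun i => (E2 i : ℂ))
          ((∑ j, x.w2 j ^ 2 : ℝ) : ℂ) ((-x.lam : ℝ) : ℂ) =
          ((∑ j, x.w2 j ^ 2 : ℝ) : ℂ) * (x.lam : ℂ) ^ 2 - (E2 0 : ℂ) := by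
        simp [cl]
      rw [hcl] at e2'
      have hs : (1 - x.c5 0 ^ 2 - x.c5 1 ^ 2 - x.c5 2 - x.c5 3) =
          ((∑ j, x.w2 j ^ 2 : ℝ) : ℂ) := by
        rw [c0, c1, c2, c3]
        have : ∑ j, x.w2 j ^ 2 = 1 - x.y 0 ^ 2 - x.y 1 ^ 2 - ∑ j, x.w3 j ^ 2 -
          ∑ j, x.w1 j ^ 2 := by linarith
        rw [this]
        push_cast
        ring
      rw [hs, c4]
      exact e2'
  have hpart : ∀ S' : Set (Cfg D3 D1 D2), S' ⊆ S →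
      (∀ x ∈ S', ∀ x' ∈ S', ((∃ j, mu3 F x = 2 * d3 j ∧ 0 ≤ x.w3 j) ↔
        (∃ j, mu3 F x' = 2 * d3 j ∧ 0 ≤ x'.w3 j)) ∧
        ((∃ j, mu1 F x = 2 * d1 j ∧ 0 ≤ x.w1 j) ↔
        (∃ j, mu1 F x' = 2 * d1 j ∧ 0 ≤ x'.w1 j))) → S'.encard ≤ C := by
    intro S' hS' hσ
    have hinj : Set.InjOn (fun x : Cfg D3 D1 D2 => x.c5) S' := by
      intro x hx x' hx' hxx'
      exact pb11_inj F c d3 d1 d2 hd3 hd1 hp2.1 hd2' p e3 e1 e2 x x' (hS' hx).1 (hS' hx').1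
        (hS' hx).2.1 hxx' (hσ x hx x' hx').1 (hσ x hx x' hx').2
    rw [← hinj.encard_image]
    refine le_trans (Set.encard_le_encard ?_) hT
    rintro _ ⟨x, hx, rfl⟩
    exact hmap x (hS' hx)
  set P3 : Cfg D3 D1 D2 → Prop := fun x => ∃ j, mu3 F x = 2 * d3 j ∧ 0 ≤ x.w3 j
  set P1 : Cfg D3 D1 D2 → Prop := fun x => ∃ j, mu1 F x = 2 * d1 j ∧ 0 ≤ x.w1 j
  have hcov : S ⊆ (({x ∈ S | P3 x ∧ P1 x} ∪ {x ∈ S | P3 x ∧ ¬ P1 x}) ∪
      ({x ∈ S | ¬ P3 x ∧ P1 x} ∪ {x ∈ S | ¬ P3 x ∧ ¬ P1 x})) := by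
    intro x hx
    by_cases a3 : P3 x <;> by_cases a1 : P1 x
    · exact Or.inl (Or.inl ⟨hx, a3, a1⟩)
    · exact Or.inl (Or.inr ⟨hx, a3, a1⟩)
    · exact Or.inr (Or.inl ⟨hx, a3, a1⟩)
    · exact Or.inr (Or.inr ⟨hx, a3, a1⟩)
  have k1' := hpart {x ∈ S | P3 x ∧ P1 x} (fun x hx => hx.1)
    (fun x hx x' hx' => ⟨iff_of_true hx.2.1 hx'.2.1, iff_of_true hx.2.2 hx'.2.2⟩)
  have k2' := hpart {x ∈ S | P3 x ∧ ¬ P1 x} (fun x hx => hx.1)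
    (fun x hx x' hx' => ⟨iff_of_true hx.2.1 hx'.2.1, iff_of_false hx.2.2 hx'.2.2⟩)
  have k3' := hpart {x ∈ S | ¬ P3 x ∧ P1 x} (fun x hx => hx.1)
    (fun x hx x' hx' => ⟨iff_of_false hx.2.1 hx'.2.1, iff_of_true hx.2.2 hx'.2.2⟩)
  have k4' := hpart {x ∈ S | ¬ P3 x ∧ ¬ P1 x} (fun x hx => hx.1)
    (fun x hx x' hx' => ⟨iff_of_false hx.2.1 hx'.2.1, iff_of_false hx.2.2 hx'.2.2⟩)
  calc S.encard ≤ _ := Set.encard_le_encard hcov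
    _ ≤ _ := Set.encard_union_le _ _
    _ ≤ _ := add_le_add (Set.encard_union_le _ _) (Set.encard_union_le _ _)
    _ ≤ ((C : ℕ∞) + C) + (C + C) := add_le_add (add_le_add k1' k2') (add_le_add k3' k4')
    _ = ((4 * C : ℕ) : ℕ∞) := by push_cast; ring

end Pool.Agent.CNX
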