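import Pool.Agent.CNX.PB1

/-!
# PB2: the inverse of a multiplier

Proof.  `‖1 - h z‖ ≤ 1/2` on the polydisc (`Bd.norm_le`), so `h z ≠ 0`.  Let `NL x0 r Z c M`.  Some `S`
satisfies `NL x0 r Z (c * h⁻¹) S` (`NL.exists_bound`).  `c h⁻¹ = c + (c h⁻¹) (1 - h)` on `Z`, so
`NL .. (c h⁻¹) S` implies `NL .. (c h⁻¹) (M + S / 2)`.  Iterate: `NL .. (c h⁻¹) (2 M + (S - 2 M) / 2^n)`
for all `n`; let `n → ∞`.
-/

set_option autoImplicit false

namespace Pool.Agent.CNX

open Filter Topology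

theorem Bd.inv {x0 : V5} {r : ℝ} (hr : 0 ≤ r) {h : V5 → ℂ}
    (H : Bd x0 r (fun z => 1 - h z) (1 / 2)) : Bd x0 r (fun z => (h z)⁻¹) 2 := by
  intro Z c M hZ hM
  have hne : ∀ z ∈ Z, h z ≠ 0 := by
    intro z hz h0
    have h1 : ‖1 - h z‖ ≤ 1 / 2 := Bd.norm_le hr H (hZ z hz)
    rw [h0, sub_zero, norm_one] at h1
    norm_num at h1
  set c' : V5 → ℂ := fun z => c z * (h z)⁻¹ with hc'
  have hcc : ∀ z ∈ Z, c' z = c z + c' z * (1 - h z) := by
    intro z hz
    have h1 : c' z * h z = c z := by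
      rw [hc']
      simp only
      rw [mul_assoc, inv_mul_cancel₀ (hne z hz), mul_one]
    rw [mul_sub, mul_one, h1]
    ring
  have step : ∀ T : ℝ, NL x0 r Z c' T → NL x0 r Z c' (M + T / 2) := by
    intro T hT α
    have h1 := H Z c' T hZ hT α
    have h2 := hM α
    have h3 : ∑ z ∈ Z, c' z * CNX.mono x0 α z =
        ∑ z ∈ Z, c z * CNX.mono x0 α z + ∑ z ∈ Z, c' z * (1 - h z) * CNX.mono x0 α z := by
      rw [← Finset.sum_add_distrib]
      refine Finset.sum_congr rfl fun z hz => ?_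
      rw [← add_mul, ← hcc z hz]
    rw [h3]
    refine (norm_add_le _ _).trans ((add_le_add h2 h1).trans (le_of_eq ?_))
    ring
  set S : ℝ := ∑ z ∈ Z, ‖c' z‖ with hS
  have iter : ∀ n : ℕ, NL x0 r Z c' (2 * M + (S - 2 * M) / 2 ^ n) := by
    intro n
    induction n with
    | zero =>
      have h1 := NL.exists_bound hr Z hZ c'
      rw [← hS] at h1
      have e : 2 * M + (S - 2 * M) / 2 ^ 0 = S := by
        rw [pow_zero, div_one]
        ring
      rw [e]
      exact h1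
    | succ n ih =>
      have h1 := step _ ih
      have e : M + (2 * M + (S - 2 * M) / 2 ^ n) / 2 = 2 * M + (S - 2 * M) / 2 ^ (n + 1) := by
        rw [pow_succ]
        field_simp
        ring
      rw [e] at h1
      exact h1
  intro α
  have h1 : Tendsto (fun n : ℕ => (2 * M + (S - 2 * M) / 2 ^ n) * r ^ (∑ j, α j)) atTop
      (𝓝 ((2 * M + 0) * r ^ (∑ j, α j))) := by
    have h2 : Tendsto (fun n : ℕ => (S - 2 * M) / (2 : ℝ) ^ n) atTop (𝓝 0) :=
      tendsto_const_nhds.div_atTop (tendsto_pow_atTop_atTop_of_one_lt (by norm_num))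
    exact (tendsto_const_nhds.add h2).mul_const _
  rw [add_zero] at h1
  exact ge_of_tendsto' h1 fun n => iter n α

end Pool.Agent.CNX
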