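import Pool.Agent.CNX.PB1

/-!
# PB3: polynomials are multipliers, locally uniformly

Proof: `MvPolynomial.induction_on`.  Constants: `B = ‖a‖`.  Sum: add the bounds.  `p * X j`:
`z j = x0 j + (z j - x0 j)` has multiplier norm `≤ A' + 1` (`A' = max A 0`), and
`p(z) z_j - p(x0) x0_j = (p(z) - p(x0)) z_j + p(x0) (z_j - x0_j)` where
`‖p(x0)‖ ≤ B` by `Bd.norm_le` (`x0 ∈ Box x0 r`).
-/

set_option autoImplicit false

namespace Pool.Agent.CNX

open MvPolynomial

theorem Bd_poly (q : P5) (A : ℝ) : ∃ B : ℝ, 0 ≤ B ∧ ∀ (x0 : V5) (r : ℝ), (∀ j, ‖x0 j‖ ≤ A) →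
    0 < r → r ≤ 1 → Bd x0 r (fun z => eval z q) B ∧
      Bd x0 r (fun z => eval z q - eval x0 q) (B * r) := by
  induction q using MvPolynomial.induction_on with
  | C a =>
    refine ⟨‖a‖, norm_nonneg a, fun x0 r hx hr hr1 => ⟨?_, ?_⟩⟩
    · exact (Bd.const x0 r a).congr fun z _ => by rw [eval_C]
    · have h1 : Bd x0 r (fun z => eval z (C a : P5) - eval x0 (C a : P5)) ‖(0 : ℂ)‖ :=
        (Bd.const x0 r 0).congr fun z _ => by rw [eval_C, eval_C, sub_self]
      refine h1.mono hr.le ?_
      rw [norm_zero]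
      positivity
  | add p q hp hq =>
    obtain ⟨B, hB, h1⟩ := hp
    obtain ⟨B', hB', h2⟩ := hq
    refine ⟨B + B', by positivity, fun x0 r hx hr hr1 => ⟨?_, ?_⟩⟩
    · exact ((h1 x0 r hx hr hr1).1.add (h2 x0 r hx hr hr1).1).congr fun z _ => by rw [eval_add]
    · have h3 := ((h1 x0 r hx hr hr1).2.add (h2 x0 r hx hr hr1).2).congr
        (h' := fun z => eval z (p + q) - eval x0 (p + q)) fun z _ => by
          rw [eval_add, eval_add]
          ring
      refine h3.mono hr.le (le_of_eq ?_)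
      ring
  | mul_X p j hp =>
    obtain ⟨B, hB, h1⟩ := hp
    have hA : (0 : ℝ) ≤ max A 0 := le_max_right _ _
    refine ⟨B * (max A 0 + 1) + B, by positivity, fun x0 r hx hr hr1 => ?_⟩
    obtain ⟨h2, h3⟩ := h1 x0 r hx hr hr1
    have hX : Bd x0 r (fun z => z j) (max A 0 + 1) := by
      have h4 := ((Bd.const x0 r (x0 j)).add (Bd.coord x0 r j)).congr (h' := fun z => z j)
        fun z _ => by ring
      refine h4.mono hr.le ?_
      have h5 := (hx j).trans (le_max_left A 0)
      linarith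
    have hx0 : ‖eval x0 p‖ ≤ B := by
      refine h2.norm_le hr.le ?_
      intro i
      rw [sub_self, norm_zero]
      exact hr.le
    constructor
    · have h4 := (h2.mul hX).congr (h' := fun z => eval z (p * X j)) fun z _ => by
        rw [eval_mul, eval_X]
      exact h4.mono hr.le (by linarith)
    · have h4 := ((h3.mul hX).add ((Bd.const x0 r (eval x0 p)).mul (Bd.coord x0 r j))).congr
        (h' := fun z => eval z (p * X j) - eval x0 (p * X j)) fun z _ => by
          rw [eval_mul, eval_X, eval_mul, eval_X]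
          ring
      refine h4.mono hr.le ?_
      have h5 : ‖eval x0 p‖ * r ≤ B * r := mul_le_mul_of_nonneg_right hx0 hr.le
      nlinarith [h5]

end Pool.Agent.CNX
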