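import Pool.Agent.CNX.PB1

/-!
# PB4: the local count

Proof.  Suppose `∏ k j < Z.card`.  The linear map `(Z → ℂ) → ((∀ j, Fin (k j)) → ℂ)`,
`c ↦ (α ↦ ∑ z ∈ Z, c z * mono x0 α z)` goes to a space of smaller dimension (`∏ k j`), so it has a nonzero
kernel element `c` (`LinearMap.exists_ne_zero...`, `LinearMap.ker_ne_bot_of_finrank_lt`), extended by 0
outside `Z`.  `NL x0 r Z c M₀` for some `M₀` (`NL.exists_bound`).
Claim: `NL x0 r Z c M → NL x0 r Z c (M / 2)`.  Let `α` be given.  If `α j < k j` for all `j` the sum is 0.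
Otherwise `k j ≤ α j` for some `j`; on `Z`: `mono x0 α z = g j z * mono x0 (α - k j e_j) z`, so by `hg j`
the sum is at most `(r^(k j) / 2) * M * r^(|α| - k j) = (M / 2) r^|α|`.
So `NL x0 r Z c 0` (let `n → ∞`), hence `∑ z ∈ Z, c z * P z = 0` for all polynomials `P` in `z - x0`, in
particular for `P w = ∏ z' ∈ Z.erase z, (w j' - z' j')/(z j' - z' j')` with `j' = j'(z')` a coordinate in which `z`
and `z'` differ (a function which is 1 at `z` and 0 at the other points), so `c z = 0` for all `z ∈ Z`,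
contradiction.  (Polynomials: show that the set of functions `P` with `NL x0 r Z c 0 → NL x0 r Z (c * P) 0` contains
constants and coordinates and is closed under sum and product: this is `Bd x0 r P B` for some `B`;
then look at `α = 0`.)
-/

set_option autoImplicit false

namespace Pool.Agent.CNX

/-- the linear map sending a functional to its moments -/
noncomputable def pb4L (x0 : V5) (Z : Finset V5) (k : Fin 5 → ℕ) :
    ({z // z ∈ Z} → ℂ) →ₗ[ℂ] ((∀ j, Fin (k j)) → ℂ) where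
  toFun c := fun α => ∑ z : {z // z ∈ Z}, c z * mono x0 (fun j => (α j : ℕ)) z
  map_add' c d := by
    ext α
    simp [add_mul, Finset.sum_add_distrib]
  map_smul' a c := by
    ext α
    simp [Finset.mul_sum, mul_assoc]

theorem pb4_ker (x0 : V5) (Z : Finset V5) (k : Fin 5 → ℕ) (h : ∏ j, k j < Z.card) :
    ∃ c : V5 → ℂ, (∃ z ∈ Z, c z ≠ 0) ∧ ∀ α : Fin 5 → ℕ, (∀ j, α j < k j) →
      ∑ z ∈ Z, c z * mono x0 α z = 0 := by
  classical
  have hlt : Module.finrank ℂ ((∀ j, Fin (k j)) → ℂ) < Module.finrank ℂ ({z // z ∈ Z} → ℂ) := by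
    rw [Module.finrank_fintype_fun_eq_card, Module.finrank_fintype_fun_eq_card, Fintype.card_pi,
      Fintype.card_coe]
    simpa using h
  have hk := LinearMap.ker_ne_bot_of_finrank_lt (f := pb4L x0 Z k) hlt
  obtain ⟨c0, hc0, hne⟩ := (Submodule.ne_bot_iff _).1 hk
  rw [LinearMap.mem_ker] at hc0
  refine ⟨fun z => if hz : z ∈ Z then c0 ⟨z, hz⟩ else 0, ?_, ?_⟩
  · by_contra hcon
    push Not at hcon
    apply hne
    ext z
    have := hcon z.1 z.2
    simpa using this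
  · intro α hα
    have h1 := congrFun hc0 (fun j => ⟨α j, hα j⟩)
    have h2 : ∑ z : {z // z ∈ Z}, c0 z * mono x0 α z = 0 := h1
    rw [← Finset.sum_coe_sort]
    rw [← h2]
    refine Finset.sum_congr rfl fun z _ => ?_
    simp

theorem pb4_mono (x0 : V5) (α : Fin 5 → ℕ) (j : Fin 5) (n : ℕ) (h : n ≤ α j) (z : V5) :
    (z j - x0 j) ^ n * mono x0 (Function.update α j (α j - n)) z = mono x0 α z := by
  unfold mono
  rw [← Finset.mul_prod_erase _ _ (Finset.mem_univ j),
    ← Finset.mul_prod_erase (s := Finset.univ) (fun i => (z i - x0 i) ^ α i) (Finset.mem_univ j),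
    ← mul_assoc]
  congr 1
  · rw [Function.update_self, ← pow_add]
    congr 1
    omega
  · refine Finset.prod_congr rfl fun i hi => ?_
    rw [Function.update_of_ne (Finset.ne_of_mem_erase hi)]

theorem pb4_sum (α : Fin 5 → ℕ) (j : Fin 5) (n : ℕ) (h : n ≤ α j) :
    n + ∑ i, Function.update α j (α j - n) i = ∑ i, α i := by
  rw [← Finset.add_sum_erase _ _ (Finset.mem_univ j),
    ← Finset.add_sum_erase (s := Finset.univ) α (Finset.mem_univ j), ← add_assoc]
  congr 1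
  · rw [Function.update_self]
    omega
  · refine Finset.sum_congr rfl fun i hi => ?_
    rw [Function.update_of_ne (Finset.ne_of_mem_erase hi)]

theorem pb4_half (x0 : V5) (r : ℝ) (hr : 0 < r) (Z : Finset V5) (hZ : ∀ z ∈ Z, z ∈ Box x0 r)
    (k : Fin 5 → ℕ) (g : Fin 5 → V5 → ℂ) (hg : ∀ j, Bd x0 r (g j) (r ^ k j / 2))
    (he : ∀ z ∈ Z, ∀ j, (z j - x0 j) ^ k j = g j z) (c : V5 → ℂ)
    (hc : ∀ α : Fin 5 → ℕ, (∀ j, α j < k j) → ∑ z ∈ Z, c z * mono x0 α z = 0)
    (M : ℝ) (hM : NL x0 r Z c M) : NL x0 r Z c (M / 2) := by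
  intro α
  by_cases hα : ∀ j, α j < k j
  · rw [hc α hα, norm_zero]
    have := hM.nonneg
    positivity
  · push Not at hα
    obtain ⟨j, hj⟩ := hα
    have h1 := hg j Z c M hZ hM (Function.update α j (α j - k j))
    have h2 : ∑ z ∈ Z, c z * g j z * mono x0 (Function.update α j (α j - k j)) z
        = ∑ z ∈ Z, c z * mono x0 α z := by
      refine Finset.sum_congr rfl fun z hz => ?_
      rw [← he z hz j, mul_assoc, pb4_mono x0 α j (k j) hj z]
    rw [h2] at h1
    refine h1.trans (le_of_eq ?_)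
    rw [← pb4_sum α j (k j) hj, pow_add]
    ring

theorem pb4_zero (x0 : V5) (r : ℝ) (hr : 0 < r) (Z : Finset V5) (hZ : ∀ z ∈ Z, z ∈ Box x0 r)
    (k : Fin 5 → ℕ) (g : Fin 5 → V5 → ℂ) (hg : ∀ j, Bd x0 r (g j) (r ^ k j / 2))
    (he : ∀ z ∈ Z, ∀ j, (z j - x0 j) ^ k j = g j z) (c : V5 → ℂ)
    (hc : ∀ α : Fin 5 → ℕ, (∀ j, α j < k j) → ∑ z ∈ Z, c z * mono x0 α z = 0) :
    NL x0 r Z c 0 := by
  have h0 := NL.exists_bound hr.le Z hZ c
  set M0 := ∑ z ∈ Z, ‖c z‖ with hM0
  have hn : ∀ n : ℕ, NL x0 r Z c (M0 * (1 / 2) ^ n) := by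
    intro n
    induction n with
    | zero => simpa using h0
    | succ n ih =>
      have := pb4_half x0 r hr Z hZ k g hg he c hc _ ih
      have e : M0 * (1 / 2) ^ (n + 1) = M0 * (1 / 2) ^ n / 2 := by
        rw [pow_succ]; ring
      rw [e]
      exact this
  intro α
  have ht : Filter.Tendsto (fun n : ℕ => M0 * (1 / 2 : ℝ) ^ n * r ^ (∑ j, α j)) Filter.atTop
      (nhds (M0 * 0 * r ^ (∑ j, α j))) := by
    refine Filter.Tendsto.mul_const _ (Filter.Tendsto.const_mul _ ?_)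
    exact tendsto_pow_atTop_nhds_zero_of_lt_one (by norm_num) (by norm_num)
  have hle := ge_of_tendsto' ht (fun n => hn n α)
  rw [mul_zero] at hle
  exact hle

theorem pb4_prod (x0 : V5) (r : ℝ) (J : V5 → Fin 5) (z : V5) (s : Finset V5) :
    ∃ B : ℝ, Bd x0 r (fun w => ∏ z' ∈ s, (w (J z') - z' (J z')) * (z (J z') - z' (J z'))⁻¹) B := by
  classical
  induction s using Finset.induction_on with
  | empty =>
    refine ⟨‖(1 : ℂ)‖, ?_⟩
    simpa using Bd.const x0 r 1
  | insert a s ha ih =>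
    obtain ⟨B, hB⟩ := ih
    have h1 := Bd.coord x0 r (J a)
    have h2 := Bd.const x0 r (x0 (J a) - a (J a))
    have h3 := Bd.const x0 r ((z (J a) - a (J a))⁻¹)
    have h4 := (h1.add h2).mul h3
    refine ⟨_, (h4.mul hB).congr ?_⟩
    intro w _
    rw [Finset.prod_insert ha]
    ring

theorem local_count (x0 : V5) (r : ℝ) (hr : 0 < r) (Z : Finset V5) (hZ : ∀ z ∈ Z, z ∈ Box x0 r)
    (k : Fin 5 → ℕ) (g : Fin 5 → V5 → ℂ) (hg : ∀ j, Bd x0 r (g j) (r ^ k j / 2))
    (he : ∀ z ∈ Z, ∀ j, (z j - x0 j) ^ k j = g j z) : Z.card ≤ ∏ j, k j := by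
  classical
  by_contra hcon
  push Not at hcon
  obtain ⟨c, ⟨z, hz, hcz⟩, hc⟩ := pb4_ker x0 Z k hcon
  have h0 := pb4_zero x0 r hr Z hZ k g hg he c hc
  have hJ : ∀ z' : V5, ∃ j : Fin 5, z' ≠ z → z j ≠ z' j := by
    intro z'
    by_cases h : z' = z
    · exact ⟨0, fun hh => absurd h hh⟩
    · obtain ⟨j, hj⟩ := Function.ne_iff.1 h
      exact ⟨j, fun _ => fun e => hj e.symm⟩
  choose J hJ using hJ
  obtain ⟨B, hB⟩ := pb4_prod x0 r J z (Z.erase z)
  have h1 := hB Z c 0 hZ h0 0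
  rw [mul_zero, zero_mul] at h1
  have h2 : ∑ w ∈ Z, c w * (∏ z' ∈ Z.erase z,
      (w (J z') - z' (J z')) * (z (J z') - z' (J z'))⁻¹) * mono x0 0 w = c z := by
    rw [Finset.sum_eq_single z]
    · have e1 : ∏ z' ∈ Z.erase z, (z (J z') - z' (J z')) * (z (J z') - z' (J z'))⁻¹ = 1 := by
        refine Finset.prod_eq_one fun z' hz' => ?_
        exact mul_inv_cancel₀ (sub_ne_zero.2 (hJ z' (Finset.ne_of_mem_erase hz')))
      rw [e1]
      simp [mono]
    · intro w hw hwz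
      have e2 : ∏ z' ∈ Z.erase z, (w (J z') - z' (J z')) * (z (J z') - z' (J z'))⁻¹ = 0 := by
        refine Finset.prod_eq_zero (i := w) (Finset.mem_erase.2 ⟨hwz, hw⟩) ?_
        simp
      rw [e2]
      simp
    · intro h
      exact absurd hz h
  rw [h2] at h1
  exact hcz (norm_le_zero_iff.1 h1)

end Pool.Agent.CNX
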