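import Pool.Agent.CNX.PB3
import Pool.Agent.CNX.PB4

/-!
# PB5: local uniform count for a perturbed affine family

Proof.  For each `j` let `e_j ≠ 0`, `aeval (X j) e_j = ∑ l, b_jl * A.f θ0 l` (`Ideal.mem_span_range_iff_exists_fun`).
`k_j = rootMultiplicity (x0 j) e_j`, `e_j = (X - C (x0 j))^k_j * q_j`, `u_j = q_j.eval (x0 j) ≠ 0`.
`C = ∏ k_j`.  Let `B ≥ 0` bound (PB3, with `A = max ‖x0 j‖`) all `b_jl`, all `A.n l i` and
`aeval (X j) q_j : P5` (value and difference).  `u = min ‖u_j‖ > 0`.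
Choose `r0 ≤ 1` with `B r0 / u ≤ 1/4`.  For `r ≤ r0` choose `ε > 0` with
`5 B (|I| B + 1) ε / u ≤ min_j r^(k_j) / 4`.
For `z ∈ Z`: `A.f θ0 l` at `z` equals `∑ i, (θ i - θ0 i) n_li(z) - g_l(z)` (as `A.f θ l (z) = - g_l z`), so
`(z_j - x0_j)^k_j (u_j + (q_j(z_j) - u_j)) = e_j(z_j) = h_j(z) := ∑ l, b_jl(z) (∑ i, (θ i - θ0 i) n_li(z) - g_l(z))`, i.e.
`(z_j - x0_j)^k_j = g'_j(z) := u_j⁻¹ (h_j(z) - (z_j - x0_j)^k_j (q_j(z_j) - u_j))`, and `g'_j` has multiplier norm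
at most `u⁻¹ (5 B (|I| ε B + ε) + r^k_j B r) ≤ r^k_j / 2` (PB1 calculus).  `local_count`.
-/

set_option autoImplicit false

namespace Pool.Agent.CNX

open MvPolynomial

theorem pb5_family {κ : Type} [Fintype κ] (f : κ → P5) (A : ℝ) : ∃ B : ℝ, 0 ≤ B ∧
    ∀ (s : κ) (x0 : V5) (r : ℝ), (∀ j, ‖x0 j‖ ≤ A) → 0 < r → r ≤ 1 →
      Bd x0 r (fun z => eval z (f s)) B ∧
      Bd x0 r (fun z => eval z (f s) - eval x0 (f s)) (B * r) := by
  choose B hB0 hB using fun s => Bd_poly (f s) A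
  refine ⟨∑ s, B s, Finset.sum_nonneg fun s _ => hB0 s, fun s x0 r hx hr hr1 => ?_⟩
  have hle : B s ≤ ∑ s, B s := Finset.single_le_sum (fun s _ => hB0 s) (Finset.mem_univ s)
  obtain ⟨h1, h2⟩ := hB s x0 r hx hr hr1
  exact ⟨h1.mono hr.le hle, h2.mono hr.le (mul_le_mul_of_nonneg_right hle hr.le)⟩

theorem pb5_eval_aeval (j : Fin 5) (p : Polynomial ℂ) (z : V5) :
    eval z (Polynomial.aeval (X j : P5) p) = p.eval (z j) := by
  induction p using Polynomial.induction_on' with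
  | add p q hp hq => simp [hp, hq]
  | monomial n a => simp [Polynomial.aeval_monomial]

theorem pb5_eval_f {I : Type} [Fintype I] (A : Fam I) (θ : I → ℂ) (l : Fin 5) (z : V5) :
    eval z (A.f θ l) = eval z (A.φ l) - ∑ i, θ i * eval z (A.n l i) := by
  simp [Fam.f]

theorem loc {I : Type} [Fintype I] (A : Fam I) (θ0 : I → ℂ) (hA : Alg5 A θ0) (x0 : V5) :
    ∃ (C : ℕ) (r0 : ℝ), 0 < r0 ∧ ∀ r : ℝ, 0 < r → r ≤ r0 → ∃ ε : ℝ, 0 < ε ∧
      ∀ θ : I → ℂ, (∀ i, ‖θ i - θ0 i‖ ≤ ε) → ∀ g : Fin 5 → V5 → ℂ, (∀ l, Bd x0 r (g l) ε) →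
        ∀ Z : Finset V5, (∀ z ∈ Z, z ∈ Box x0 r) →
          (∀ z ∈ Z, ∀ l, eval z (A.f θ l) + g l z = 0) → Z.card ≤ C := by
  choose e he0 hmem using hA
  have hb' : ∀ j, ∃ b : Fin 5 → P5, ∑ l, b l * A.f θ0 l = Polynomial.aeval (X j : P5) (e j) :=
    fun j => (Ideal.mem_span_range_iff_exists_fun).1 (hmem j)
  choose b hb using hb'
  have hq' : ∀ j, ∃ q : Polynomial ℂ,
      e j = (Polynomial.X - Polynomial.C (x0 j)) ^ ((e j).rootMultiplicity (x0 j)) * q ∧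
        ¬ (Polynomial.X - Polynomial.C (x0 j)) ∣ q :=
    fun j => Polynomial.exists_eq_pow_rootMultiplicity_mul_and_not_dvd (e j) (he0 j) (x0 j)
  choose q hq hqn using hq'
  obtain ⟨k, hk⟩ : ∃ k : Fin 5 → ℕ, k = fun j => (e j).rootMultiplicity (x0 j) := ⟨_, rfl⟩
  have hq2 : ∀ j, e j = (Polynomial.X - Polynomial.C (x0 j)) ^ (k j) * q j := by
    intro j; rw [hk]; exact hq j
  have hu : ∀ j, (q j).eval (x0 j) ≠ 0 := by
    intro j h
    exact hqn j (Polynomial.dvd_iff_isRoot.2 h)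
  obtain ⟨B, hB0, hB⟩ := pb5_family (κ := (Fin 5 × Fin 5) ⊕ (Fin 5 × I) ⊕ Fin 5)
    (Sum.elim (fun s => b s.1 s.2) (Sum.elim (fun s => A.n s.1 s.2)
      (fun j => Polynomial.aeval (X j : P5) (q j)))) (∑ j, ‖x0 j‖)
  have hx0 : ∀ j, ‖x0 j‖ ≤ ∑ j, ‖x0 j‖ := fun j =>
    Finset.single_le_sum (f := fun j => ‖x0 j‖) (fun s _ => norm_nonneg _) (Finset.mem_univ j)
  obtain ⟨U, hU1, hU⟩ : ∃ U : ℝ, 1 ≤ U ∧ ∀ j, ‖((q j).eval (x0 j))⁻¹‖ ≤ U := by
    refine ⟨1 + ∑ j, ‖((q j).eval (x0 j))⁻¹‖, ?_, fun j => ?_⟩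
    · have : (0 : ℝ) ≤ ∑ j, ‖((q j).eval (x0 j))⁻¹‖ := Finset.sum_nonneg fun _ _ => norm_nonneg _
      linarith
    · have := Finset.single_le_sum (f := fun j => ‖((q j).eval (x0 j))⁻¹‖)
        (fun s _ => norm_nonneg _) (Finset.mem_univ j)
      linarith
  have hUB : 0 < 4 * (U * (B + 1)) := by positivity
  refine ⟨∏ j, k j, min 1 (1 / (4 * (U * (B + 1)))), lt_min one_pos (by positivity),
    fun r hr hr0 => ?_⟩
  have hr1 : r ≤ 1 := hr0.trans (min_le_left _ _)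
  have hUBr : U * B * r ≤ 1 / 4 := by
    have h1 : r ≤ 1 / (4 * (U * (B + 1))) := hr0.trans (min_le_right _ _)
    rw [le_div_iff₀ hUB] at h1
    have h2 : 0 ≤ U * r := by positivity
    nlinarith
  obtain ⟨W, hW⟩ : ∃ W : ℝ, W = U * (5 * (B * (Fintype.card I * B + 1))) := ⟨_, rfl⟩
  have hW0 : 0 ≤ W := by rw [hW]; positivity
  refine ⟨r ^ (∑ j, k j) / (4 * (W + 1)), by positivity, fun θ hθ g hg Z hZ hz => ?_⟩
  obtain ⟨ε, hε⟩ : ∃ ε : ℝ, ε = r ^ (∑ j, k j) / (4 * (W + 1)) := ⟨_, rfl⟩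
  rw [← hε] at hθ hg
  have hε0 : 0 < ε := by rw [hε]; positivity
  have hWε : ∀ j, W * ε ≤ r ^ (k j) / 4 := by
    intro j
    have h1 : r ^ (∑ j, k j) ≤ r ^ (k j) :=
      pow_le_pow_of_le_one hr.le hr1 (Finset.single_le_sum (fun _ _ => Nat.zero_le _)
        (Finset.mem_univ j))
    have h2 : ε * (4 * (W + 1)) = r ^ (∑ j, k j) := by
      rw [hε]; field_simp
    nlinarith
  apply local_count x0 r hr Z hZ k
    (fun j z => ((q j).eval (x0 j))⁻¹ *
      ((∑ l, eval z (b j l) * (∑ i, (θ i - θ0 i) * eval z (A.n l i) - g l z))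
        - (z j - x0 j) ^ k j * (eval z (Polynomial.aeval (X j : P5) (q j))
          - eval x0 (Polynomial.aeval (X j : P5) (q j)))))
  · intro j
    have hBb : ∀ l, Bd x0 r (fun z => eval z (b j l)) B := fun l =>
      (hB (Sum.inl (j, l)) x0 r hx0 hr hr1).1
    have hBn : ∀ l i, Bd x0 r (fun z => eval z (A.n l i)) B := fun l i =>
      (hB (Sum.inr (Sum.inl (l, i))) x0 r hx0 hr hr1).1
    have hBq : Bd x0 r (fun z => eval z (Polynomial.aeval (X j : P5) (q j))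
          - eval x0 (Polynomial.aeval (X j : P5) (q j))) (B * r) :=
      (hB (Sum.inr (Sum.inr j)) x0 r hx0 hr hr1).2
    have h1 : ∀ l, Bd x0 r (fun z => ∑ i, (θ i - θ0 i) * eval z (A.n l i) - g l z)
        (∑ i, ‖θ i - θ0 i‖ * B + ε) := by
      intro l
      exact (Bd.sum Finset.univ (fun i z => (θ i - θ0 i) * eval z (A.n l i)) _
        (fun i _ => (Bd.const x0 r (θ i - θ0 i)).mul (hBn l i))).sub (hg l)
    have h1' : ∀ l, Bd x0 r (fun z => ∑ i, (θ i - θ0 i) * eval z (A.n l i) - g l z)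
        (ε * (Fintype.card I * B + 1)) := by
      intro l
      refine (h1 l).mono hr.le ?_
      have h2 : ∑ i, ‖θ i - θ0 i‖ * B ≤ ∑ _i : I, ε * B :=
        Finset.sum_le_sum fun i _ => mul_le_mul_of_nonneg_right (hθ i) hB0
      rw [Finset.sum_const, Finset.card_univ, nsmul_eq_mul] at h2
      nlinarith
    have h2 : Bd x0 r (fun z => ∑ l, eval z (b j l) *
        (∑ i, (θ i - θ0 i) * eval z (A.n l i) - g l z))
        (∑ _l : Fin 5, B * (ε * (Fintype.card I * B + 1))) :=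
      Bd.sum Finset.univ (fun l z => eval z (b j l) *
        (∑ i, (θ i - θ0 i) * eval z (A.n l i) - g l z)) _ (fun l _ => (hBb l).mul (h1' l))
    have h3 : Bd x0 r (fun z => (z j - x0 j) ^ k j * (eval z (Polynomial.aeval (X j : P5) (q j))
          - eval x0 (Polynomial.aeval (X j : P5) (q j)))) (r ^ k j * (B * r)) :=
      ((Bd.coord x0 r j).pow (k j)).mul hBq
    have h4 := (Bd.const x0 r (((q j).eval (x0 j))⁻¹)).mul (h2.sub h3)
    refine h4.mono hr.le ?_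
    rw [Finset.sum_const, Finset.card_univ, Fintype.card_fin, nsmul_eq_mul]
    have hrk : 0 ≤ r ^ k j := by positivity
    have h5 : 0 ≤ ((5 : ℕ) : ℝ) * (B * (ε * (Fintype.card I * B + 1))) + r ^ k j * (B * r) := by
      positivity
    refine (mul_le_mul_of_nonneg_right (hU j) h5).trans ?_
    have h6 : U * (((5 : ℕ) : ℝ) * (B * (ε * (Fintype.card I * B + 1))) + r ^ k j * (B * r))
        = W * ε + r ^ k j * (U * B * r) := by
      rw [hW]; push_cast; ring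
    rw [h6]
    have h7 := hWε j
    have h8 : r ^ k j * (U * B * r) ≤ r ^ k j * (1 / 4) := mul_le_mul_of_nonneg_left hUBr hrk
    linarith
  · intro z hzZ j
    have h1 : ∀ l, eval z (A.f θ0 l) = ∑ i, (θ i - θ0 i) * eval z (A.n l i) - g l z := by
      intro l
      have h2 := hz z hzZ l
      rw [pb5_eval_f] at h2 ⊢
      have h3 : ∑ i, (θ i - θ0 i) * eval z (A.n l i)
          = ∑ i, θ i * eval z (A.n l i) - ∑ i, θ0 i * eval z (A.n l i) := by
        rw [← Finset.sum_sub_distrib]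
        exact Finset.sum_congr rfl fun i _ => by ring
      rw [h3]
      linear_combination h2
    have h2 : ∑ l, eval z (b j l) * (∑ i, (θ i - θ0 i) * eval z (A.n l i) - g l z)
        = (z j - x0 j) ^ k j * (q j).eval (z j) := by
      have h3 := congrArg (eval z) (hb j)
      rw [pb5_eval_aeval, hq2 j, map_sum] at h3
      simp only [map_mul, h1, Polynomial.eval_mul, Polynomial.eval_pow, Polynomial.eval_sub,
        Polynomial.eval_X, Polynomial.eval_C] at h3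
      exact h3
    change (z j - x0 j) ^ k j = _ * (_ - _)
    rw [h2, pb5_eval_aeval, pb5_eval_aeval]
    have := hu j
    field_simp
    ring

end Pool.Agent.CNX
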