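import Pool.Agent.CNX.PB2
import Pool.Agent.CNX.PB3

/-!
# PB7: the perturbation terms are small multipliers

Proof.  `K` is bounded: `‖x j‖ ≤ A` on `K`.  `B` from `Bd_poly q A`.  `ρ = min 1 (c / (4 B + 4))`.
For `x0 ∈ K`, `0 < r ≤ ρ`: `μ0 = eval x0 q`, `‖μ0‖ ≥ c`; `ν = q - μ0` has multiplier norm `≤ B r ≤ c/4`.
If `0 < d < om ≤ c/8`: `h = (q - 2 d) / μ0` satisfies `1 - h = -(ν - 2 d)/μ0`, norm `≤ (c/4 + c/4)/c = 1/2`, so by
`Bd.inv` `1/(q - 2 d) = μ0⁻¹ h⁻¹` has norm `≤ 2/c`; in particular `q - 2d ≠ 0` on the polydisc.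
`q²/(q - 2d)² - 1 = (4 d q - 4 d²) (1/(q-2d))²` has norm `≤ (4 om B + 4 om²) 4/c² ≤ 16 om (B + 1)/c²` (`om ≤ 1`).
Sum with weights `e_j²`: `≤ 16 R² om (B + 1)/c² ≤ ε` for `om` small.
-/

set_option autoImplicit false

namespace Pool.Agent.CNX

open MvPolynomial

/-- one term -/
theorem pb7_term (q : P5) (x0 : V5) (r B c om d : ℝ) (hc : 0 < c) (hB : 0 ≤ B) (hr : 0 < r)
    (h1 : Bd x0 r (fun z => eval z q) B)
    (h2 : Bd x0 r (fun z => eval z q - eval x0 q) (B * r)) (hBr : B * r ≤ c / 4)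
    (hq : c ≤ ‖eval x0 q‖) (hd : 0 < d) (hdo : d < om) (ho1 : om ≤ 1) (hoc : om ≤ c / 8) :
    Bd x0 r (fun x => eval x q ^ 2 / (eval x q - ((2 * d : ℝ) : ℂ)) ^ 2 - 1)
      (16 * om * (B + 1) / c ^ 2) := by
  have hr0 : 0 ≤ r := hr.le
  have hμ : eval x0 q ≠ 0 := by
    intro h
    rw [h, norm_zero] at hq
    linarith
  set μ0 : ℂ := eval x0 q with hμ0
  set δ : ℂ := ((2 * d : ℝ) : ℂ) with hδ
  have hδn : ‖δ‖ = 2 * d := by
    rw [hδ, Complex.norm_real, Real.norm_eq_abs, abs_of_pos (by linarith)]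
  have hμi : ‖μ0⁻¹‖ ≤ 1 / c := by
    rw [norm_inv, ← one_div]
    exact one_div_le_one_div_of_le hc hq
  have hμin : 0 ≤ ‖μ0⁻¹‖ := norm_nonneg _
  -- `1 - h`
  have h3 : Bd x0 r (fun z => 1 - (eval z q - δ) / μ0) (1 / 2) := by
    have h4 : Bd x0 r (fun z => (-μ0⁻¹) * ((eval z q - μ0) - δ)) (‖-μ0⁻¹‖ * (B * r + ‖δ‖)) :=
      (Bd.const x0 r (-μ0⁻¹)).mul (h2.sub (Bd.const x0 r δ))
    have h5 : ‖-μ0⁻¹‖ * (B * r + ‖δ‖) ≤ 1 / 2 := by
      rw [norm_neg, hδn]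
      have h6 : B * r + 2 * d ≤ c / 2 := by linarith
      have h7 : 0 ≤ B * r + 2 * d := by positivity
      calc ‖μ0⁻¹‖ * (B * r + 2 * d) ≤ (1 / c) * (c / 2) :=
            mul_le_mul hμi h6 h7 (by positivity)
        _ = 1 / 2 := by field_simp
    refine (h4.mono hr0 h5).congr ?_
    intro z _
    field_simp
    ring
  have h8 : Bd x0 r (fun z => ((eval z q - δ) / μ0)⁻¹) 2 := Bd.inv hr0 h3
  have hne : ∀ z ∈ Box x0 r, eval z q - δ ≠ 0 := by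
    intro z hz h0
    have h9 := h3.norm_le hr0 hz
    simp only [h0, zero_div, sub_zero, norm_one] at h9
    norm_num at h9
  have h10 : Bd x0 r (fun z => (eval z q - δ)⁻¹) (2 / c) := by
    have h11 := (Bd.const x0 r (μ0⁻¹)).mul h8
    have h12 : ‖μ0⁻¹‖ * 2 ≤ 2 / c := by
      calc ‖μ0⁻¹‖ * 2 ≤ (1 / c) * 2 := by gcongr
        _ = 2 / c := by ring
    refine (h11.mono hr0 h12).congr ?_
    intro z hz
    have := hne z hz
    field_simp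
  have h13 : Bd x0 r (fun z => ((2 * δ) * eval z q - δ ^ 2) * ((eval z q - δ)⁻¹) ^ 2)
      ((‖2 * δ‖ * B + ‖δ ^ 2‖) * (2 / c) ^ 2) :=
    (((Bd.const x0 r (2 * δ)).mul h1).sub (Bd.const x0 r (δ ^ 2))).mul (h10.pow 2)
  have h14 : (‖2 * δ‖ * B + ‖δ ^ 2‖) * (2 / c) ^ 2 ≤ 16 * om * (B + 1) / c ^ 2 := by
    have h15 : ‖2 * δ‖ * B + ‖δ ^ 2‖ ≤ 4 * om * (B + 1) := by
      rw [norm_mul, norm_pow, hδn]
      have h16 : ‖(2 : ℂ)‖ = 2 := by norm_num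
      rw [h16]
      have h17 : d * B ≤ om * B := by gcongr
      have h18 : d * d ≤ om * 1 := mul_le_mul hdo.le (by linarith) hd.le (by linarith)
      nlinarith
    calc (‖2 * δ‖ * B + ‖δ ^ 2‖) * (2 / c) ^ 2 ≤ (4 * om * (B + 1)) * (2 / c) ^ 2 := by
          gcongr
      _ = 16 * om * (B + 1) / c ^ 2 := by
          field_simp
          ring
  refine (h13.mono hr0 h14).congr ?_
  intro z hz
  have := hne z hz
  field_simp
  ring

theorem pert (q : P5) (K : Set V5) (hK : IsCompact K) (c R : ℝ) (hc : 0 < c)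
    (hq : ∀ x ∈ K, c ≤ ‖eval x q‖) : ∃ ρ : ℝ, 0 < ρ ∧ ∀ ε : ℝ, 0 < ε → ∃ om : ℝ, 0 < om ∧
      ∀ (D : ℕ) (d e : Fin D → ℝ), (∀ j, 0 < d j ∧ d j < om) → ∑ j, e j ^ 2 ≤ R ^ 2 →
        SB K ρ ε (fun x => ∑ j, ((e j ^ 2 : ℝ) : ℂ) *
          (eval x q ^ 2 / (eval x q - ((2 * d j : ℝ) : ℂ)) ^ 2 - 1)) := by
  obtain ⟨A, hA⟩ := hK.isBounded.exists_norm_le
  obtain ⟨B, hB, hP⟩ := Bd_poly q A
  refine ⟨min 1 (c / (4 * B + 4)), lt_min one_pos (by positivity), ?_⟩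
  intro ε hε
  refine ⟨min 1 (min (c / 8) (ε * c ^ 2 / (16 * (R ^ 2 + 1) * (B + 1)))),
    lt_min one_pos (lt_min (by positivity) (by positivity)), ?_⟩
  intro D d e hd he x0 hx0 r hr hrρ
  set om : ℝ := min 1 (min (c / 8) (ε * c ^ 2 / (16 * (R ^ 2 + 1) * (B + 1)))) with hom
  have ho0 : 0 < om := lt_min one_pos (lt_min (by positivity) (by positivity))
  have ho1 : om ≤ 1 := min_le_left _ _
  have hoc : om ≤ c / 8 := (min_le_right _ _).trans (min_le_left _ _)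
  have hoe : om ≤ ε * c ^ 2 / (16 * (R ^ 2 + 1) * (B + 1)) :=
    (min_le_right _ _).trans (min_le_right _ _)
  have hr1 : r ≤ 1 := hrρ.trans (min_le_left _ _)
  have hr2 : r ≤ c / (4 * B + 4) := hrρ.trans (min_le_right _ _)
  have hx0A : ∀ j, ‖x0 j‖ ≤ A := fun j => (norm_le_pi_norm x0 j).trans (hA x0 hx0)
  obtain ⟨h1, h2⟩ := hP x0 r hx0A hr hr1
  have hBr : B * r ≤ c / 4 := by
    calc B * r ≤ B * (c / (4 * B + 4)) := by gcongr
      _ ≤ (B + 1) * (c / (4 * B + 4)) := by gcongr; linarith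
      _ = c / 4 := by field_simp
  have hterm : ∀ j ∈ (Finset.univ : Finset (Fin D)),
      Bd x0 r (fun x => ((e j ^ 2 : ℝ) : ℂ) *
          (eval x q ^ 2 / (eval x q - ((2 * d j : ℝ) : ℂ)) ^ 2 - 1))
        (e j ^ 2 * (16 * om * (B + 1) / c ^ 2)) := by
    intro j _
    have h3 := pb7_term q x0 r B c om (d j) hc hB hr h1 h2 hBr (hq x0 hx0) (hd j).1 (hd j).2 ho1
      hoc
    have h4 := (Bd.const x0 r ((e j ^ 2 : ℝ) : ℂ)).mul h3
    have h5 : ‖((e j ^ 2 : ℝ) : ℂ)‖ = e j ^ 2 := by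
      rw [Complex.norm_real, Real.norm_eq_abs, abs_of_nonneg (sq_nonneg _)]
    rw [h5] at h4
    exact h4
  have h6 := Bd.sum Finset.univ _ _ hterm
  refine h6.mono hr.le ?_
  rw [← Finset.sum_mul]
  have h7 : 0 ≤ 16 * om * (B + 1) / c ^ 2 := by positivity
  calc (∑ j, e j ^ 2) * (16 * om * (B + 1) / c ^ 2)
      ≤ (R ^ 2 + 1) * (16 * om * (B + 1) / c ^ 2) := by
        apply mul_le_mul_of_nonneg_right _ h7
        linarith
    _ ≤ (R ^ 2 + 1) * (16 * (ε * c ^ 2 / (16 * (R ^ 2 + 1) * (B + 1))) * (B + 1) / c ^ 2) := by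
        gcongr
    _ = ε := by
        field_simp

end Pool.Agent.CNX
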