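import Mathlib

/-!
# CNX section 3 (window lemma): definitions

`H` is a finite dimensional Euclidean space. `WD E Ω P κ L c`: the data of the window lemma.
`Gm E P μ x = E x - μ/2 |x|^2 - ⟪P, x⟫`; `Xm` its minimiser over `Ω`; `rh = 1 - |Xm|^2`.
-/

set_option autoImplicit false

open Metric Set Filter Topology

namespace Pool.Agent.CNX

noncomputable section

variable {H : Type*} [NormedAddCommGroup H] [InnerProductSpace ℝ H]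

/-- `E x - μ/2 |x|² - ⟪P, x⟫` -/
def Gm (E : H → ℝ) (P : H) (μ : ℝ) (x : H) : ℝ := E x - μ / 2 * ‖x‖ ^ 2 - inner ℝ P x

/-- data of the window lemma -/
structure WD (E : H → ℝ) (Ω : Set H) (P : H) (κ L c : ℝ) : Prop where
  κ0 : 0 < κ
  L1 : 1 ≤ L
  c0 : 0 < c
  cκ : c ≤ κ / 4
  smooth : ContDiff ℝ 3 E
  cpt : IsCompact Ω
  conv : Convex ℝ Ω
  sub : Ω ⊆ closedBall 0 1
  ne : Ω.Nonempty
  lower : ∀ x ∈ Ω, ∀ h, κ * ‖h‖ ^ 2 ≤ fderiv ℝ (fderiv ℝ E) x h h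
  up2 : ∀ x ∈ Ω, ∀ h k, |fderiv ℝ (fderiv ℝ E) x h k| ≤ L * ‖h‖ * ‖k‖
  up3 : ∀ x ∈ Ω, ∀ h k l, |fderiv ℝ (fderiv ℝ (fderiv ℝ E)) x h k l| ≤ L * ‖h‖ * ‖k‖ * ‖l‖
  inact : ∀ μ ≤ c, ∀ x ∈ Ω, (∀ x' ∈ Ω, Gm E P μ x ≤ Gm E P μ x') → ‖x‖ < 1 → x ∈ interior Ω

open Classical in
/-- the minimiser of `Gm E P μ` over `Ω` -/
def Xm (E : H → ℝ) (Ω : Set H) (P : H) (μ : ℝ) : H :=
  if h : ∃ x ∈ Ω, ∀ x' ∈ Ω, Gm E P μ x ≤ Gm E P μ x' then h.choose else 0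

/-- `1 - |Xm|²` -/
def rh (E : H → ℝ) (Ω : Set H) (P : H) (μ : ℝ) : ℝ := 1 - ‖Xm E Ω P μ‖ ^ 2

/-- derivative of `rh` -/
def rh1 (E : H → ℝ) (Ω : Set H) (P : H) (μ : ℝ) : ℝ :=
  -2 * inner ℝ (Xm E Ω P μ) (deriv (Xm E Ω P) μ)

/-- second derivative of `rh` -/
def rh2 (E : H → ℝ) (Ω : Set H) (P : H) (μ : ℝ) : ℝ :=
  -2 * inner ℝ (deriv (Xm E Ω P) μ) (deriv (Xm E Ω P) μ)
    - 2 * inner ℝ (Xm E Ω P μ) (deriv (deriv (Xm E Ω P)) μ)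

/-- gradient equation -/
def Gr (E : H → ℝ) (P : H) (μ : ℝ) (x : H) : Prop :=
  ∀ h, fderiv ℝ E x h - μ * inner ℝ x h = inner ℝ P h

/-- the bound for the second derivative of `rh` -/
def MM (κ L : ℝ) : ℝ := 4 / κ * (4 / κ + 4 * L / κ ^ 2)

/-- the bound for `(log rh)''` -/
def M1 (κ L : ℝ) : ℝ := max (2 * MM κ L) (MM κ L ^ 2 * L ^ 2 / 4)

/-- the rational function -/
def Rf {D : ℕ} (d e : Fin D → ℝ) (μ : ℝ) : ℝ := ∑ j, e j ^ 2 / (2 * d j - μ) ^ 2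

/-- its derivative -/
def Rf1 {D : ℕ} (d e : Fin D → ℝ) (μ : ℝ) : ℝ := ∑ j, 2 * e j ^ 2 / (2 * d j - μ) ^ 3

/-- its second derivative -/
def Rf2 {D : ℕ} (d e : Fin D → ℝ) (μ : ℝ) : ℝ := ∑ j, 6 * e j ^ 2 / (2 * d j - μ) ^ 4

/-- `μ` is not a pole of `Rf` -/
def NP {D : ℕ} (d e : Fin D → ℝ) (μ : ℝ) : Prop := ∀ j, e j ≠ 0 → 2 * d j ≠ μ

/-- the solutions of `Rf = rh` -/
def TT (E : H → ℝ) (Ω : Set H) (P : H) {D : ℕ} (d e : Fin D → ℝ) (c : ℝ) : Set ℝ :=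
  {μ | μ ≤ c ∧ NP d e μ ∧ ‖Xm E Ω P μ‖ < 1 ∧ Rf d e μ = rh E Ω P μ}

/-- the equations of the elements of `Z` -/
def ZZ (E : H → ℝ) (Ω : Set H) (P : H) {D : ℕ} (d e : Fin D → ℝ) (c : ℝ) : Set (H × (Fin D → ℝ) × ℝ) :=
  {z | z.1 ∈ Ω ∧ ‖z.1‖ ^ 2 + ∑ j, z.2.1 j ^ 2 = 1 ∧ z.2.2 ≤ c ∧ Gr E P z.2.2 z.1 ∧
    ∀ j, (2 * d j - z.2.2) * z.2.1 j = e j}

end

end Pool.Agent.CNX
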