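import Pool.Agent.CNX.WIDefs

/-!
# CNX module WI_Cvx: strong convexity

`wi_first`: φ(t) = E (x + t (x' - x)), t ∈ [0,1]; the segment is in Ω (convex), φ' (t) = fderiv E (..) (x' - x),
φ'' (t) = fderiv (fderiv E) (..) (x' - x) (x' - x) ≥ κ |x' - x|^2. So φ(1) ≥ φ(0) + φ'(0) + κ/2 |x' - x|^2 (e.g. the function
t ↦ φ(t) - φ(0) - t φ'(0) - κ/2 t^2 |x'-x|^2 has nonnegative derivative: its derivative is 0 at 0 and has nonnegative derivative).
`wi_firstG`: the same for Gm: ‖x'‖^2 = ‖x‖^2 + 2 inner x (x' - x) + ‖x' - x‖^2.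
`wi_var`: x minimises Gm over the convex set Ω: the derivative at t = 0+ of t ↦ Gm (x + t (x' - x)) is ≥ 0
(Gm is differentiable; IsLocalMinOn / difference quotients).
`wi_growth`: from wi_firstG and wi_var, (κ - μ)/2 ≥ κ/4 for μ ≤ κ/2. `wi_crit`: from wi_firstG with the linear term 0.
`wi_grad`: x ∈ interior Ω minimises Gm over Ω, so it is a local minimum: fderiv Gm x = 0 (IsLocalMin.fderiv_eq_zero).
fderiv (Gm E P μ) x h = fderiv E x h - μ inner x h - inner P h.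
-/

set_option autoImplicit false

open Metric Set Filter Topology

namespace Pool.Agent.CNX

variable {H : Type*} [NormedAddCommGroup H] [InnerProductSpace ℝ H] [FiniteDimensional ℝ H]
variable {E : H → ℝ} {Ω : Set H} {P : H} {κ L c : ℝ}

theorem wi_cvx_one {φ φ1 φ2 : ℝ → ℝ} {m : ℝ} (h1 : ∀ t, HasDerivAt φ (φ1 t) t)
    (h2 : ∀ t, HasDerivAt φ1 (φ2 t) t) (h3 : ∀ t ∈ Icc (0 : ℝ) 1, m ≤ φ2 t) :
    φ 0 + φ1 0 + m / 2 ≤ φ 1 := by
  have hid : ∀ t : ℝ, HasDerivAt (fun t : ℝ => m * t) m t := fun t => by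
    simpa using (hasDerivAt_id t).const_mul m
  have a1 : ∀ t, HasDerivAt (fun t => φ1 t - φ1 0 - m * t) (φ2 t - m) t := fun t =>
    ((h2 t).sub_const (φ1 0)).sub (hid t)
  have m1 : MonotoneOn (fun t => φ1 t - φ1 0 - m * t) (Icc (0 : ℝ) 1) := by
    apply monotoneOn_of_deriv_nonneg (convex_Icc 0 1)
    · exact fun t _ => (a1 t).continuousAt.continuousWithinAt
    · exact fun t _ => (a1 t).differentiableAt.differentiableWithinAt
    · intro t ht
      rw [(a1 t).deriv]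
      have := h3 t (interior_subset ht)
      linarith
  have h4 : ∀ t ∈ Icc (0 : ℝ) 1, 0 ≤ φ1 t - φ1 0 - m * t := by
    intro t ht
    have := m1 (left_mem_Icc.2 zero_le_one) ht ht.1
    simp only [sub_self, mul_zero] at this
    linarith
  have hsq : ∀ t : ℝ, HasDerivAt (fun t : ℝ => m / 2 * t ^ 2) (m * t) t := fun t => by
    have h5 := (hasDerivAt_pow 2 t).const_mul (m / 2)
    have e : m / 2 * (((2 : ℕ) : ℝ) * t ^ (2 - 1)) = m * t := by
      rw [show (2 - 1 : ℕ) = 1 from rfl, pow_one, Nat.cast_ofNat]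
      ring
    rw [e] at h5
    exact h5
  have hli : ∀ t : ℝ, HasDerivAt (fun t : ℝ => t * φ1 0) (φ1 0) t := fun t => by
    simpa using (hasDerivAt_id t).mul_const (φ1 0)
  have a2 : ∀ t, HasDerivAt (fun t => φ t - φ 0 - t * φ1 0 - m / 2 * t ^ 2)
      (φ1 t - φ1 0 - m * t) t := fun t => (((h1 t).sub_const (φ 0)).sub (hli t)).sub (hsq t)
  have m2 : MonotoneOn (fun t => φ t - φ 0 - t * φ1 0 - m / 2 * t ^ 2) (Icc (0 : ℝ) 1) := by
    apply monotoneOn_of_deriv_nonneg (convex_Icc 0 1)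
    · exact fun t _ => (a2 t).continuousAt.continuousWithinAt
    · exact fun t _ => (a2 t).differentiableAt.differentiableWithinAt
    · intro t ht
      rw [(a2 t).deriv]
      exact h4 t (interior_subset ht)
  have h5 := m2 (left_mem_Icc.2 zero_le_one) (right_mem_Icc.2 zero_le_one) zero_le_one
  have h6 : φ 0 - φ 0 - 0 * φ1 0 - m / 2 * 0 ^ 2 ≤ φ 1 - φ 0 - 1 * φ1 0 - m / 2 * 1 ^ 2 := h5
  linarith

theorem wi_cvx_fd (h : WD E Ω P κ L c) (μ : ℝ) (x : H) :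
    HasFDerivAt (Gm E P μ) (fderiv ℝ E x - (μ / 2) • (2 • innerSL ℝ x) - innerSL ℝ P) x := by
  have h1 : HasFDerivAt E (fderiv ℝ E x) x :=
    (h.smooth.differentiable (by norm_num) x).hasFDerivAt
  have h2 : HasFDerivAt (fun x : H => ‖x‖ ^ 2) (2 • innerSL ℝ x) x :=
    (hasStrictFDerivAt_norm_sq x).hasFDerivAt
  have h3 : HasFDerivAt (fun x : H => inner ℝ P x) (innerSL ℝ P) x :=
    (innerSL ℝ P).hasFDerivAt
  exact (h1.sub (h2.const_mul (μ / 2))).sub h3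

theorem wi_first (h : WD E Ω P κ L c) {x x' : H} (hx : x ∈ Ω) (hx' : x' ∈ Ω) :
    E x + fderiv ℝ E x (x' - x) + κ / 2 * ‖x' - x‖ ^ 2 ≤ E x' := by
  have hline : ∀ t : ℝ, HasDerivAt (fun t : ℝ => x + t • (x' - x)) (x' - x) t := fun t => by
    simpa using ((hasDerivAt_id t).smul_const (x' - x)).const_add x
  have hE : ∀ y, HasFDerivAt E (fderiv ℝ E y) y := fun y =>
    (h.smooth.differentiable (by norm_num) y).hasFDerivAt
  have hE2 : ContDiff ℝ 2 (fderiv ℝ E) := h.smooth.fderiv_right (by norm_num)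
  have hE' : ∀ y, HasFDerivAt (fderiv ℝ E) (fderiv ℝ (fderiv ℝ E) y) y := fun y =>
    (hE2.differentiable (by norm_num) y).hasFDerivAt
  have h1 : ∀ t : ℝ, HasDerivAt (fun t : ℝ => E (x + t • (x' - x)))
      (fderiv ℝ E (x + t • (x' - x)) (x' - x)) t := fun t =>
    (hE (x + t • (x' - x))).comp_hasDerivAt t (hline t)
  have h2 : ∀ t : ℝ, HasDerivAt (fun t : ℝ => fderiv ℝ E (x + t • (x' - x)) (x' - x))
      (fderiv ℝ (fderiv ℝ E) (x + t • (x' - x)) (x' - x) (x' - x)) t := fun t => by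
    have h3 : HasDerivAt (fun t : ℝ => fderiv ℝ E (x + t • (x' - x)))
        (fderiv ℝ (fderiv ℝ E) (x + t • (x' - x)) (x' - x)) t :=
      (hE' (x + t • (x' - x))).comp_hasDerivAt t (hline t)
    simpa using h3.clm_apply (hasDerivAt_const t (x' - x))
  have h3 := wi_cvx_one (m := κ * ‖x' - x‖ ^ 2) h1 h2 (by
    intro t ht
    apply h.lower
    have : x + t • (x' - x) = (1 - t) • x + t • x' := by
      rw [smul_sub, sub_smul, one_smul]; abel
    rw [this]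
    exact h.conv hx hx' (by linarith [ht.2]) ht.1 (by ring))
  simp only [zero_smul, add_zero, one_smul] at h3
  rw [add_sub_cancel] at h3
  linarith

theorem wi_firstG (h : WD E Ω P κ L c) (μ : ℝ) {x x' : H} (hx : x ∈ Ω) (hx' : x' ∈ Ω) :
    Gm E P μ x + (fderiv ℝ E x (x' - x) - μ * inner ℝ x (x' - x) - inner ℝ P (x' - x))
      + (κ - μ) / 2 * ‖x' - x‖ ^ 2 ≤ Gm E P μ x' := by
  have h1 := wi_first h hx hx'
  have h2 : ‖x'‖ ^ 2 = ‖x‖ ^ 2 + 2 * inner ℝ x (x' - x) + ‖x' - x‖ ^ 2 := by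
    have := norm_add_sq_real x (x' - x)
    rwa [add_sub_cancel] at this
  have h3 : inner ℝ P (x' - x) = inner ℝ P x' - inner ℝ P x := inner_sub_right P x' x
  unfold Gm
  rw [h2, h3]
  linarith

theorem wi_var (h : WD E Ω P κ L c) {μ : ℝ} {x : H} (hx : x ∈ Ω) (hm : ∀ x' ∈ Ω, Gm E P μ x ≤ Gm E P μ x')
    {x' : H} (hx' : x' ∈ Ω) :
    0 ≤ fderiv ℝ E x (x' - x) - μ * inner ℝ x (x' - x) - inner ℝ P (x' - x) := by
  have h1 : IsMinOn (Gm E P μ) Ω x := fun y hy => hm y hy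
  have h2 := h1.localize.hasFDerivWithinAt_nonneg (wi_cvx_fd h μ x).hasFDerivWithinAt
    (sub_mem_posTangentConeAt_of_segment_subset (h.conv.segment_subset hx hx'))
  simp only [_root_.sub_apply, _root_.smul_apply, innerSL_apply_apply,
    smul_eq_mul, nsmul_eq_mul, Nat.cast_ofNat] at h2
  linarith

theorem wi_growth (h : WD E Ω P κ L c) {μ : ℝ} (hμ : μ ≤ κ / 2) {x : H} (hx : x ∈ Ω)
    (hm : ∀ x' ∈ Ω, Gm E P μ x ≤ Gm E P μ x') {x' : H} (hx' : x' ∈ Ω) :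
    Gm E P μ x + κ / 4 * ‖x' - x‖ ^ 2 ≤ Gm E P μ x' := by
  have h1 := wi_firstG h μ hx hx'
  have h2 := wi_var h hx hm hx'
  have h3 : κ / 4 * ‖x' - x‖ ^ 2 ≤ (κ - μ) / 2 * ‖x' - x‖ ^ 2 :=
    mul_le_mul_of_nonneg_right (by linarith) (sq_nonneg _)
  linarith

theorem wi_crit (h : WD E Ω P κ L c) {μ : ℝ} (hμ : μ ≤ κ / 2) {x : H} (hx : x ∈ Ω) (hg : Gr E P μ x) :
    ∀ x' ∈ Ω, Gm E P μ x ≤ Gm E P μ x' := by
  intro x' hx'
  have h1 := wi_firstG h μ hx hx'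
  have h2 := hg (x' - x)
  have h3 : 0 ≤ (κ - μ) / 2 * ‖x' - x‖ ^ 2 :=
    mul_nonneg (by linarith [h.κ0]) (sq_nonneg _)
  linarith

theorem wi_grad (h : WD E Ω P κ L c) {μ : ℝ} {x : H} (hx : x ∈ interior Ω)
    (hm : ∀ x' ∈ Ω, Gm E P μ x ≤ Gm E P μ x') : Gr E P μ x := by
  have h1 : IsLocalMin (Gm E P μ) x := by
    filter_upwards [mem_interior_iff_mem_nhds.1 hx] with y hy
    exact hm y hy
  have h2 := h1.hasFDerivAt_eq_zero (wi_cvx_fd h μ x)
  intro k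
  have h3 := congrArg (fun f : H →L[ℝ] ℝ => f k) h2
  simp only [_root_.sub_apply, _root_.smul_apply, innerSL_apply_apply,
    smul_eq_mul, nsmul_eq_mul, Nat.cast_ofNat, _root_.zero_apply] at h3
  linarith

end Pool.Agent.CNX
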