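import Pool.Agent.CNX.WI_Smooth

/-!
# CNX module WI_Der: the differentiated gradient equation

X = Xm E Ω P. By wi_smooth X is C^2 at μ₀: `wi_hd`: HasDerivAt X (deriv X μ₀) μ₀ and HasDerivAt (deriv X) (deriv (deriv X) μ₀) μ₀
(ContDiffAt.differentiableAt; contDiffAt one order less for the derivative: ContDiffAt.derivWithin / ContDiffAt.fderiv_right with
deriv = fderiv · 1, or contDiffAt_succ_iff).
`wi_d1`: for μ near μ₀ (wi_ev): fderiv E (X μ) h - μ inner (X μ) h = inner P h; the derivative at μ₀ of the left side is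
fderiv (fderiv E) (X μ₀) (deriv X μ₀) h - inner (X μ₀) h - μ₀ inner (deriv X μ₀) h = 0 (chain rule for μ ↦ fderiv E (X μ) and
evaluation at h).
`wi_d2`: the equation wi_d1 holds for all μ near μ₀ (wi_ev gives the hypotheses near μ₀); differentiate it once more:
fderiv (fderiv (fderiv E)) X X' X' h + fderiv (fderiv E) X X'' h - inner X' h - inner X' h - μ₀ inner X'' h = 0.
(fderiv E is C^2, fderiv (fderiv E) is C^1.)
-/

set_option autoImplicit false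

open Metric Set Filter Topology

namespace Pool.Agent.CNX

variable {H : Type*} [NormedAddCommGroup H] [InnerProductSpace ℝ H] [FiniteDimensional ℝ H]
variable {E : H → ℝ} {Ω : Set H} {P : H} {κ L c : ℝ}

theorem wi_hd (h : WD E Ω P κ L c) {μ₀ : ℝ} (hμ : μ₀ < κ / 2) (hi : Xm E Ω P μ₀ ∈ interior Ω) :
    HasDerivAt (Xm E Ω P) (deriv (Xm E Ω P) μ₀) μ₀ ∧
      HasDerivAt (deriv (Xm E Ω P)) (deriv (deriv (Xm E Ω P)) μ₀) μ₀ := by
  have hc := wi_smooth h hμ hi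
  refine ⟨(hc.differentiableAt (by norm_num)).hasDerivAt, ?_⟩
  have h1 : ContDiffAt ℝ 1 (fderiv ℝ (Xm E Ω P)) μ₀ := hc.fderiv_right (by norm_num)
  have h2 : ContDiffAt ℝ 1 (deriv (Xm E Ω P)) μ₀ := h1.clm_apply contDiffAt_const
  exact (h2.differentiableAt (by norm_num)).hasDerivAt

theorem wi_d1 (h : WD E Ω P κ L c) {μ₀ : ℝ} (hμ : μ₀ < κ / 2) (hi : Xm E Ω P μ₀ ∈ interior Ω) (k : H) :
    fderiv ℝ (fderiv ℝ E) (Xm E Ω P μ₀) (deriv (Xm E Ω P) μ₀) k - inner ℝ (Xm E Ω P μ₀) k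
      - μ₀ * inner ℝ (deriv (Xm E Ω P) μ₀) k = 0 := by
  obtain ⟨hX, -⟩ := wi_hd h hμ hi
  have s1 : ContDiff ℝ 2 (fderiv ℝ E) := h.smooth.fderiv_right (by norm_num)
  have hE : HasFDerivAt (fderiv ℝ E) (fderiv ℝ (fderiv ℝ E) (Xm E Ω P μ₀)) (Xm E Ω P μ₀) :=
    (s1.contDiffAt.differentiableAt (by norm_num)).hasFDerivAt
  have hF : HasDerivAt (fun μ => fderiv ℝ E (Xm E Ω P μ))
      (fderiv ℝ (fderiv ℝ E) (Xm E Ω P μ₀) (deriv (Xm E Ω P) μ₀)) μ₀ := hE.comp_hasDerivAt μ₀ hX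
  have hFk := hF.clm_apply (hasDerivAt_const μ₀ k)
  have hI := hX.inner ℝ (hasDerivAt_const μ₀ k)
  have hT := hFk.sub ((hasDerivAt_id μ₀).mul hI)
  have hev : (fun μ => fderiv ℝ E (Xm E Ω P μ) k - μ * inner ℝ (Xm E Ω P μ) k) =ᶠ[𝓝 μ₀]
      fun _ => inner ℝ P k := by
    filter_upwards [wi_ev h hμ hi] with μ hm
    exact hm.2.2 k
  have hC := (hasDerivAt_const μ₀ (inner ℝ P k)).congr_of_eventuallyEq hev
  have hu := HasDerivAt.unique hT hC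
  simp only [map_zero, add_zero, inner_zero_right, zero_add, one_mul, id_eq] at hu
  linarith

theorem wi_d2 (h : WD E Ω P κ L c) {μ₀ : ℝ} (hμ : μ₀ < κ / 2) (hi : Xm E Ω P μ₀ ∈ interior Ω) (k : H) :
    fderiv ℝ (fderiv ℝ (fderiv ℝ E)) (Xm E Ω P μ₀) (deriv (Xm E Ω P) μ₀) (deriv (Xm E Ω P) μ₀) k
      + fderiv ℝ (fderiv ℝ E) (Xm E Ω P μ₀) (deriv (deriv (Xm E Ω P)) μ₀) k
      - 2 * inner ℝ (deriv (Xm E Ω P) μ₀) k - μ₀ * inner ℝ (deriv (deriv (Xm E Ω P)) μ₀) k = 0 := by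
  obtain ⟨hX, hX1⟩ := wi_hd h hμ hi
  have s1 : ContDiff ℝ 2 (fderiv ℝ E) := h.smooth.fderiv_right (by norm_num)
  have s2 : ContDiff ℝ 1 (fderiv ℝ (fderiv ℝ E)) := s1.fderiv_right (by norm_num)
  have hE : HasFDerivAt (fderiv ℝ (fderiv ℝ E)) (fderiv ℝ (fderiv ℝ (fderiv ℝ E)) (Xm E Ω P μ₀))
      (Xm E Ω P μ₀) := (s2.contDiffAt.differentiableAt (by norm_num)).hasFDerivAt
  have hF : HasDerivAt (fun μ => fderiv ℝ (fderiv ℝ E) (Xm E Ω P μ))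
      (fderiv ℝ (fderiv ℝ (fderiv ℝ E)) (Xm E Ω P μ₀) (deriv (Xm E Ω P) μ₀)) μ₀ := by
    have h9 := HasFDerivAt.comp_hasDerivAt (E := H →L[ℝ] H →L[ℝ] ℝ) (l := fderiv ℝ (fderiv ℝ E))
      (l' := fderiv ℝ (fderiv ℝ (fderiv ℝ E)) (Xm E Ω P μ₀)) (f := Xm E Ω P) μ₀ hE hX
    exact h9
  have hFk := (hF.clm_apply hX1).clm_apply (hasDerivAt_const μ₀ k)
  have hI := hX.inner ℝ (hasDerivAt_const μ₀ k)
  have hI1 := hX1.inner ℝ (hasDerivAt_const μ₀ k)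
  have hT := (hFk.sub hI).sub ((hasDerivAt_id μ₀).mul hI1)
  have hev : (fun μ => fderiv ℝ (fderiv ℝ E) (Xm E Ω P μ) (deriv (Xm E Ω P) μ) k
      - inner ℝ (Xm E Ω P μ) k - μ * inner ℝ (deriv (Xm E Ω P) μ) k) =ᶠ[𝓝 μ₀] fun _ => (0 : ℝ) := by
    filter_upwards [wi_ev h hμ hi] with μ hm
    exact wi_d1 h hm.1 hm.2.1 k
  have hC := (hasDerivAt_const μ₀ (0 : ℝ)).congr_of_eventuallyEq hev
  have hu := HasDerivAt.unique hT hC
  simp only [map_zero, add_zero, inner_zero_right, zero_add, one_mul, id_eq,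
    ContinuousLinearMap.add_apply] at hu
  linarith

end Pool.Agent.CNX
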