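import Pool.Agent.CNX.WIDefs

/-!
# CNX module WI_Est: the estimates (pure linear algebra)

B symmetric bilinear, κ‖h‖^2 ≤ B h h, |B h k| ≤ L ‖h‖ ‖k‖, |T h| ≤ L ‖x1‖^2 ‖h‖, 0 < μ ≤ κ/4, ‖x‖ ≤ 1,
(i1) B x1 h - ⟨x,h⟩ - μ ⟨x1,h⟩ = 0, (i2) T h + B x2 h - 2 ⟨x1,h⟩ - μ ⟨x2,h⟩ = 0 for all h.
`we_1`: h = x1 in (i1): (κ - μ) ‖x1‖^2 ≤ ⟨x,x1⟩ ≤ ‖x‖ ‖x1‖, κ - μ ≥ κ/2: ‖x1‖ ≤ 2/κ.
`we_2`: A h k := B h k - μ ⟨h,k⟩ is symmetric and A h h ≥ 0, A h h ≤ L ‖h‖^2; by (i1) A x1 h = ⟨x,h⟩. 0 ≤ A (x1 - t x) (x1 - t x)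
= A x1 x1 - 2 t A x1 x + t^2 A x x ≤ ⟨x,x1⟩ - 2 t ‖x‖^2 + t^2 L ‖x‖^2; t = 1/L: ⟨x,x1⟩ ≥ ‖x‖^2 / L.
`we_3`: h = x2 in (i2): (κ - μ) ‖x2‖^2 ≤ A x2 x2 = 2 ⟨x1,x2⟩ - T x2 ≤ (2 ‖x1‖ + L ‖x1‖^2) ‖x2‖, so
‖x2‖ ≤ (2/κ) (2 (2/κ) + L (2/κ)^2), and -2 ⟨x1,x1⟩ - 2 ⟨x,x2⟩ ≤ 2 ‖x2‖ ≤ MM κ L = 4/κ (4/κ + 4 L/κ^2).
-/

set_option autoImplicit false

open Metric Set Filter Topology

namespace Pool.Agent.CNX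

variable {H : Type*} [NormedAddCommGroup H] [InnerProductSpace ℝ H]

theorem we_1 {B : H →L[ℝ] H →L[ℝ] ℝ} {κ μ : ℝ} (hκ : 0 < κ) (hμ : μ ≤ κ / 4) (low : ∀ h, κ * ‖h‖ ^ 2 ≤ B h h)
    {x x1 : H} (hx : ‖x‖ ≤ 1) (i1 : ∀ h, B x1 h - inner ℝ x h - μ * inner ℝ x1 h = 0) : ‖x1‖ ≤ 2 / κ := by
  have h1 := i1 x1
  have h2 := low x1
  have h3 : inner ℝ x x1 ≤ ‖x‖ * ‖x1‖ := real_inner_le_norm x x1
  have h4 : inner ℝ x1 x1 = ‖x1‖ ^ 2 := real_inner_self_eq_norm_sq x1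
  rw [h4] at h1
  have h5 : ‖x‖ * ‖x1‖ ≤ ‖x1‖ := by
    have := norm_nonneg x1
    nlinarith
  have h6 : (κ / 2) * ‖x1‖ ^ 2 ≤ ‖x1‖ := by
    have := sq_nonneg ‖x1‖
    nlinarith
  rw [le_div_iff₀ hκ]
  by_contra hc
  push Not at hc
  have hpos : 0 < ‖x1‖ := by
    by_contra h0
    have h0' : ‖x1‖ = 0 := le_antisymm (not_lt.mp h0) (norm_nonneg _)
    rw [h0'] at hc
    linarith
  nlinarith

theorem we_2 {B : H →L[ℝ] H →L[ℝ] ℝ} {κ L μ : ℝ} (hκ : 0 < κ) (hL : 1 ≤ L) (hμ0 : 0 < μ) (hμ : μ ≤ κ / 4)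
    (sym : ∀ h k, B h k = B k h) (low : ∀ h, κ * ‖h‖ ^ 2 ≤ B h h) (up : ∀ h k, |B h k| ≤ L * ‖h‖ * ‖k‖)
    {x x1 : H} (i1 : ∀ h, B x1 h - inner ℝ x h - μ * inner ℝ x1 h = 0) : ‖x‖ ^ 2 / L ≤ inner ℝ x x1 := by
  have hL0 : 0 < L := by linarith
  -- A h k = B h k - μ * inner h k
  have hA1 : ∀ h, B x1 h - μ * inner ℝ x1 h = inner ℝ x h := fun h => by have := i1 h; linarith
  have h1 := hA1 x1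
  have h2 := hA1 x
  have h3 : inner ℝ x1 x1 = ‖x1‖ ^ 2 := real_inner_self_eq_norm_sq x1
  have h4 : inner ℝ x x = ‖x‖ ^ 2 := real_inner_self_eq_norm_sq x
  have h5 := low (x1 - (1 / L) • x)
  have h6 : B (x1 - (1 / L) • x) (x1 - (1 / L) • x) =
      B x1 x1 - 2 * (1 / L) * B x1 x + (1 / L) ^ 2 * B x x := by
    simp only [map_sub, map_smul, ContinuousLinearMap.sub_apply, ContinuousLinearMap.smul_apply, smul_eq_mul]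
    rw [sym x x1]
    ring
  have h7 : ‖x1 - (1 / L) • x‖ ^ 2 = inner ℝ x1 x1 - 2 * (1 / L) * inner ℝ x1 x + (1 / L) ^ 2 * inner ℝ x x := by
    rw [← real_inner_self_eq_norm_sq]
    simp only [inner_sub_left, inner_sub_right, inner_smul_left, inner_smul_right, RCLike.conj_to_real]
    rw [real_inner_comm x1 x]
    ring
  have h8 : B x x ≤ L * ‖x‖ * ‖x‖ := (le_abs_self _).trans (up x x)
  have h9 : 0 ≤ (κ - μ) * ‖x1 - (1 / L) • x‖ ^ 2 := mul_nonneg (by linarith) (sq_nonneg _)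
  have h10 : 0 ≤ B (x1 - (1 / L) • x) (x1 - (1 / L) • x) - μ * ‖x1 - (1 / L) • x‖ ^ 2 := by nlinarith
  rw [h6, h7] at h10
  have hc : inner ℝ x1 x = inner ℝ x x1 := real_inner_comm x x1
  have h11 : 0 ≤ inner ℝ x x1 - 2 * (1 / L) * ‖x‖ ^ 2 + (1 / L) ^ 2 * (L * ‖x‖ ^ 2) := by
    have e1 : B x1 x1 = inner ℝ x x1 + μ * inner ℝ x1 x1 := by linarith
    have e2 : B x1 x = ‖x‖ ^ 2 + μ * inner ℝ x1 x := by rw [← h4]; linarith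
    have e3 : 0 ≤ (1 / L) ^ 2 := sq_nonneg _
    have e4 : 0 ≤ μ * ((1 / L) ^ 2 * ‖x‖ ^ 2) := by positivity
    rw [e1, e2, h4] at h10
    have e5 : (1 / L) ^ 2 * B x x ≤ (1 / L) ^ 2 * (L * ‖x‖ ^ 2) :=
      mul_le_mul_of_nonneg_left (by nlinarith) e3
    nlinarith
  have e6 : (1 / L) ^ 2 * (L * ‖x‖ ^ 2) = ‖x‖ ^ 2 / L := by field_simp
  have e7 : 2 * (1 / L) * ‖x‖ ^ 2 = 2 * (‖x‖ ^ 2 / L) := by field_simp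
  rw [e6, e7] at h11
  linarith

theorem we_3 {B : H →L[ℝ] H →L[ℝ] ℝ} {T : H → ℝ} {κ L μ : ℝ} (hκ : 0 < κ) (hL : 1 ≤ L) (hμ : μ ≤ κ / 4)
    (low : ∀ h, κ * ‖h‖ ^ 2 ≤ B h h) {x x1 x2 : H} (hT : ∀ h, |T h| ≤ L * ‖x1‖ * ‖x1‖ * ‖h‖) (hx : ‖x‖ ≤ 1)
    (i1 : ∀ h, B x1 h - inner ℝ x h - μ * inner ℝ x1 h = 0)
    (i2 : ∀ h, T h + B x2 h - 2 * inner ℝ x1 h - μ * inner ℝ x2 h = 0) :
    -2 * inner ℝ x1 x1 - 2 * inner ℝ x x2 ≤ MM κ L := by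
  have hx1 := we_1 hκ hμ low hx i1
  have hn1 := norm_nonneg x1
  have hn2 := norm_nonneg x2
  have h1 := i2 x2
  have h2 := low x2
  have h3 : inner ℝ x2 x2 = ‖x2‖ ^ 2 := real_inner_self_eq_norm_sq x2
  have h4 : inner ℝ x1 x2 ≤ ‖x1‖ * ‖x2‖ := real_inner_le_norm x1 x2
  have h5 : -(L * ‖x1‖ * ‖x1‖ * ‖x2‖) ≤ T x2 := (abs_le.mp (hT x2)).1
  rw [h3] at h1
  have h6 : (κ / 2) * ‖x2‖ ^ 2 ≤ (2 * ‖x1‖ + L * ‖x1‖ ^ 2) * ‖x2‖ := by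
    have := sq_nonneg ‖x2‖
    nlinarith
  have hq : 0 < 2 / κ := by positivity
  have h7 : 2 * ‖x1‖ + L * ‖x1‖ ^ 2 ≤ 2 * (2 / κ) + L * (2 / κ) ^ 2 := by
    have : ‖x1‖ ^ 2 ≤ (2 / κ) ^ 2 := pow_le_pow_left₀ hn1 hx1 2
    nlinarith
  have h8 : ‖x2‖ ≤ (2 / κ) * (2 * (2 / κ) + L * (2 / κ) ^ 2) := by
    have h9 : (κ / 2) * ‖x2‖ ^ 2 ≤ (2 * (2 / κ) + L * (2 / κ) ^ 2) * ‖x2‖ :=
      h6.trans (mul_le_mul_of_nonneg_right h7 hn2)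
    rcases hn2.lt_or_eq with hp | hp
    · have h10 : (κ / 2) * ‖x2‖ ≤ 2 * (2 / κ) + L * (2 / κ) ^ 2 := by
        by_contra hc
        push Not at hc
        nlinarith
      calc ‖x2‖ = (2 / κ) * ((κ / 2) * ‖x2‖) := by field_simp
        _ ≤ _ := mul_le_mul_of_nonneg_left h10 hq.le
    · rw [← hp]; positivity
  have h11 : -(‖x‖ * ‖x2‖) ≤ inner ℝ x x2 := (abs_le.mp (abs_real_inner_le_norm x x2)).1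
  have h12 : ‖x‖ * ‖x2‖ ≤ ‖x2‖ := by nlinarith
  have h13 : 0 ≤ inner ℝ x1 x1 := real_inner_self_nonneg
  have h14 : MM κ L = 2 * ((2 / κ) * (2 * (2 / κ) + L * (2 / κ) ^ 2)) := by
    unfold MM
    field_simp
    ring
  rw [h14]
  nlinarith

end Pool.Agent.CNX
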