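import Pool.Agent.CNX.WI_Cvx

/-!
# CNX module WI_Min: the minimiser Xm

`wi_spec`: Ω compact nonempty, Gm continuous (h.smooth): a minimiser exists; definition of Xm (dif_pos, Exists.choose_spec).
`wi_uniq`: μ ≤ κ/2: two minimisers x, x': by wi_growth κ/4 |x' - x|^2 ≤ 0. `wi_eq`: with wi_crit.
`wi_lip`: x = Xm μ, x' = Xm μ': adding the two growth inequalities: κ/2 |x - x'|^2 ≤ (Gm μ x' - Gm μ x) + (Gm μ' x - Gm μ' x') =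
(μ' - μ)/2 (‖x'‖^2 - ‖x‖^2) ≤ |μ' - μ| ‖x' - x‖ (norms ≤ 1 on Ω). The right side is ≥ 0, which gives `wi_mono`.
`wi_cont`: Lipschitz on Iic (κ/2). `wi_ev`: μ₀ < κ/2, continuity of Xm at μ₀, interior Ω open.
`wi_int`: μ ≤ c (so ≤ κ/2), ‖Xm μ‖ < 1: h.inact. `wi_norm`: Xm ∈ Ω ⊆ closedBall.
-/

set_option autoImplicit false

open Metric Set Filter Topology

namespace Pool.Agent.CNX

variable {H : Type*} [NormedAddCommGroup H] [InnerProductSpace ℝ H] [FiniteDimensional ℝ H]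
variable {E : H → ℝ} {Ω : Set H} {P : H} {κ L c : ℝ}

theorem wi_spec (h : WD E Ω P κ L c) (μ : ℝ) :
    Xm E Ω P μ ∈ Ω ∧ ∀ x' ∈ Ω, Gm E P μ (Xm E Ω P μ) ≤ Gm E P μ x' := by
  have hex : ∃ x ∈ Ω, ∀ x' ∈ Ω, Gm E P μ x ≤ Gm E P μ x' := by
    obtain ⟨x, hx, hm⟩ := h.cpt.exists_isMinOn h.ne
      (f := Gm E P μ) (fun y _ => (wi_cvx_fd h μ y).continuousAt.continuousWithinAt)
    exact ⟨x, hx, fun x' hx' => hm hx'⟩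
  have e : Xm E Ω P μ = hex.choose := by
    unfold Xm
    rw [dif_pos hex]
  rw [e]
  exact hex.choose_spec

theorem wi_norm (h : WD E Ω P κ L c) (μ : ℝ) : ‖Xm E Ω P μ‖ ≤ 1 :=
  mem_closedBall_zero_iff.1 (h.sub (wi_spec h μ).1)

theorem wi_uniq (h : WD E Ω P κ L c) {μ : ℝ} (hμ : μ ≤ κ / 2) {x : H} (hx : x ∈ Ω)
    (hm : ∀ x' ∈ Ω, Gm E P μ x ≤ Gm E P μ x') : x = Xm E Ω P μ := by
  obtain ⟨h1, h2⟩ := wi_spec h μ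
  have h3 := wi_growth h hμ hx hm h1
  have h4 := h2 x hx
  have h5 : κ / 4 * ‖Xm E Ω P μ - x‖ ^ 2 ≤ 0 := by linarith
  have h6 : ‖Xm E Ω P μ - x‖ ^ 2 ≤ 0 := by
    by_contra hc
    push Not at hc
    have := mul_pos (by linarith [h.κ0] : (0 : ℝ) < κ / 4) hc
    linarith
  have h7 : ‖Xm E Ω P μ - x‖ = 0 := by
    have := le_antisymm h6 (sq_nonneg _)
    exact pow_eq_zero_iff (two_ne_zero) |>.1 this
  exact (sub_eq_zero.1 (norm_eq_zero.1 h7)).symm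

theorem wi_eq (h : WD E Ω P κ L c) {μ : ℝ} (hμ : μ ≤ κ / 2) {x : H} (hx : x ∈ Ω) (hg : Gr E P μ x) :
    x = Xm E Ω P μ := wi_uniq h hμ hx (wi_crit h hμ hx hg)

theorem wi_min_two (h : WD E Ω P κ L c) {μ μ' : ℝ} (hμ : μ ≤ κ / 2) (hμ' : μ' ≤ κ / 2) :
    κ / 2 * ‖Xm E Ω P μ - Xm E Ω P μ'‖ ^ 2 ≤
      (μ' - μ) / 2 * (‖Xm E Ω P μ'‖ ^ 2 - ‖Xm E Ω P μ‖ ^ 2) := by
  obtain ⟨a1, a2⟩ := wi_spec h μ
  obtain ⟨b1, b2⟩ := wi_spec h μ'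
  have h1 := wi_growth h hμ a1 a2 b1
  have h2 := wi_growth h hμ' b1 b2 a1
  rw [norm_sub_rev] at h1
  unfold Gm at h1 h2
  linarith

theorem wi_lip (h : WD E Ω P κ L c) {μ μ' : ℝ} (hμ : μ ≤ κ / 2) (hμ' : μ' ≤ κ / 2) :
    ‖Xm E Ω P μ - Xm E Ω P μ'‖ ≤ 2 / κ * |μ - μ'| := by
  have h1 := wi_min_two h hμ hμ'
  have hκ := h.κ0
  have n1 := wi_norm h μ
  have n2 := wi_norm h μ'
  set x := Xm E Ω P μ with hx
  set x' := Xm E Ω P μ' with hx'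
  have hd0 : 0 ≤ ‖x - x'‖ := norm_nonneg _
  have h2 : |‖x'‖ ^ 2 - ‖x‖ ^ 2| ≤ 2 * ‖x - x'‖ := by
    have e : ‖x'‖ ^ 2 - ‖x‖ ^ 2 = (‖x'‖ - ‖x‖) * (‖x'‖ + ‖x‖) := by ring
    rw [e, abs_mul]
    have h3 : |‖x'‖ - ‖x‖| ≤ ‖x - x'‖ := by
      rw [norm_sub_rev]
      exact abs_norm_sub_norm_le x' x
    have h4 : |‖x'‖ + ‖x‖| ≤ 2 := by
      rw [abs_of_nonneg (add_nonneg (norm_nonneg _) (norm_nonneg _))]
      linarith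
    calc |‖x'‖ - ‖x‖| * |‖x'‖ + ‖x‖| ≤ ‖x - x'‖ * 2 :=
          mul_le_mul h3 h4 (abs_nonneg _) hd0
      _ = 2 * ‖x - x'‖ := by ring
  have h3 : (μ' - μ) / 2 * (‖x'‖ ^ 2 - ‖x‖ ^ 2) ≤ |μ - μ'| * ‖x - x'‖ := by
    calc (μ' - μ) / 2 * (‖x'‖ ^ 2 - ‖x‖ ^ 2) ≤ |(μ' - μ) / 2 * (‖x'‖ ^ 2 - ‖x‖ ^ 2)| := le_abs_self _
      _ = |μ' - μ| / 2 * |‖x'‖ ^ 2 - ‖x‖ ^ 2| := by
          rw [abs_mul, abs_div, abs_of_pos (by norm_num : (0 : ℝ) < 2)]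
      _ ≤ |μ' - μ| / 2 * (2 * ‖x - x'‖) := mul_le_mul_of_nonneg_left h2 (by positivity)
      _ = |μ - μ'| * ‖x - x'‖ := by rw [abs_sub_comm]; ring
  have h4 : κ / 2 * ‖x - x'‖ * ‖x - x'‖ ≤ |μ - μ'| * ‖x - x'‖ := by
    calc κ / 2 * ‖x - x'‖ * ‖x - x'‖ = κ / 2 * ‖x - x'‖ ^ 2 := by ring
      _ ≤ _ := h1.trans h3
  rcases hd0.eq_or_lt with h5 | h5
  · rw [← h5]
    positivity
  · have h6 : κ / 2 * ‖x - x'‖ ≤ |μ - μ'| := le_of_mul_le_mul_right h4 h5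
    have h7 : ‖x - x'‖ = 2 / κ * (κ / 2 * ‖x - x'‖) := by
      field_simp
    rw [h7]
    exact mul_le_mul_of_nonneg_left h6 (by positivity)

theorem wi_mono (h : WD E Ω P κ L c) {μ μ' : ℝ} (hμ : μ ≤ μ') (hμ' : μ' ≤ κ / 2) :
    ‖Xm E Ω P μ‖ ≤ ‖Xm E Ω P μ'‖ := by
  rcases hμ.eq_or_lt with h0 | h0
  · rw [h0]
  · have h1 := wi_min_two h (hμ.trans hμ') hμ'
    have h2 : 0 ≤ κ / 2 * ‖Xm E Ω P μ - Xm E Ω P μ'‖ ^ 2 :=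
      mul_nonneg (by linarith [h.κ0]) (sq_nonneg _)
    have h3 : 0 ≤ ‖Xm E Ω P μ'‖ ^ 2 - ‖Xm E Ω P μ‖ ^ 2 := by
      by_contra hc
      push Not at hc
      have := mul_neg_of_pos_of_neg (by linarith : (0 : ℝ) < (μ' - μ) / 2) hc
      linarith
    exact (pow_le_pow_iff_left₀ (norm_nonneg _) (norm_nonneg _) two_ne_zero).1 (by linarith)

theorem wi_int (h : WD E Ω P κ L c) {μ : ℝ} (hμ : μ ≤ c) (h1 : ‖Xm E Ω P μ‖ < 1) : Xm E Ω P μ ∈ interior Ω :=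
  h.inact μ hμ _ (wi_spec h μ).1 (wi_spec h μ).2 h1

theorem wi_cont (h : WD E Ω P κ L c) {μ₀ : ℝ} (hμ : μ₀ < κ / 2) : ContinuousAt (Xm E Ω P) μ₀ := by
  rw [ContinuousAt, tendsto_iff_norm_sub_tendsto_zero]
  refine squeeze_zero' (g := fun μ => 2 / κ * |μ - μ₀|) (Eventually.of_forall fun _ => norm_nonneg _) ?_ ?_
  · filter_upwards [Iio_mem_nhds hμ] with μ h1
    exact wi_lip h (le_of_lt h1) hμ.le
  · have h1 : Continuous fun μ : ℝ => 2 / κ * |μ - μ₀| := by fun_prop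
    have h2 := h1.tendsto μ₀
    simpa using h2

theorem wi_ev (h : WD E Ω P κ L c) {μ₀ : ℝ} (hμ : μ₀ < κ / 2) (hi : Xm E Ω P μ₀ ∈ interior Ω) :
    ∀ᶠ μ in 𝓝 μ₀, μ < κ / 2 ∧ Xm E Ω P μ ∈ interior Ω ∧ Gr E P μ (Xm E Ω P μ) := by
  filter_upwards [Iio_mem_nhds hμ,
    (wi_cont h hμ).eventually (isOpen_interior.mem_nhds hi)] with μ h1 h2
  exact ⟨h1, h2, wi_grad h h2 (wi_spec h μ).2⟩

end Pool.Agent.CNX
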