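import Pool.Agent.CNX.WIDefs

/-!
# CNX module WI_Rat: the rational function Rf

Terms e_j^2 / (2 d_j - μ)^2 with derivative 2 e_j^2 / (2 d_j - μ)^3 and second derivative 6 e_j^2 / (2 d_j - μ)^4; if e_j = 0 the term is 0
for all μ; NP says 2 d_j ≠ μ for e_j ≠ 0. `rt_hd`: HasDerivAt of a finite sum, termwise.
`rt_cs`: with u_j = (2 d_j - μ)⁻¹: (∑ 2 e_j^2 u_j^3)^2 = 4 (∑ (e_j u_j) (e_j u_j^2))^2 ≤ 4 (∑ e_j^2 u_j^2) (∑ e_j^2 u_j^4) (Finset.sum_mul_sq_le_sq_mul_sq)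
= (2/3) Rf Rf2. `rt_pos`: one term is positive, all are ≥ 0.
`rt_log`: |2 d_j - μ| ≤ c, so 6 e_j^2 / (2d_j - μ)^4 ≥ (6 / c^2) e_j^2 / (2 d_j - μ)^2 termwise, Rf2 ≥ 6 Rf / c^2; by rt_cs (Rf1/Rf)^2 ≤ (2/3) Rf2/Rf; so
Rf2/Rf - (Rf1/Rf)^2 ≥ (1/3) Rf2/Rf ≥ 2/c^2.
`rt_mono`: all terms are nondecreasing on (-∞, pole) and one is strictly increasing.
-/

set_option autoImplicit false

open Metric Set Filter Topology

namespace Pool.Agent.CNX

theorem wi_rat_term2 {a c μ : ℝ} (h : c ≠ μ) :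
    HasDerivAt (fun x => a / (c - x) ^ 2) (2 * a / (c - μ) ^ 3) μ := by
  have hx : c - μ ≠ 0 := sub_ne_zero.2 h
  have h1 : HasDerivAt (fun x => c - x) (-1) μ := (hasDerivAt_id' μ).const_sub c
  have h2 := (hasDerivAt_const μ a).div (h1.pow 2) (pow_ne_zero 2 hx)
  refine h2.congr_deriv ?_
  simp only [Pi.pow_apply]
  field_simp
  ring

theorem wi_rat_term3 {a c μ : ℝ} (h : c ≠ μ) :
    HasDerivAt (fun x => a / (c - x) ^ 3) (3 * a / (c - μ) ^ 4) μ := by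
  have hx : c - μ ≠ 0 := sub_ne_zero.2 h
  have h1 : HasDerivAt (fun x => c - x) (-1) μ := (hasDerivAt_id' μ).const_sub c
  have h2 := (hasDerivAt_const μ a).div (h1.pow 3) (pow_ne_zero 3 hx)
  refine h2.congr_deriv ?_
  simp only [Pi.pow_apply]
  field_simp
  ring

theorem rt_hd {D : ℕ} {d e : Fin D → ℝ} {μ : ℝ} (hnp : NP d e μ) :
    HasDerivAt (Rf d e) (Rf1 d e μ) μ ∧ HasDerivAt (Rf1 d e) (Rf2 d e μ) μ := by
  constructor
  · have h1 : ∀ j ∈ (Finset.univ : Finset (Fin D)), HasDerivAt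
        (fun x => e j ^ 2 / (2 * d j - x) ^ 2) (2 * e j ^ 2 / (2 * d j - μ) ^ 3) μ := by
      intro j _
      by_cases hj : e j = 0
      · rw [hj]
        simp only [ne_eq, OfNat.ofNat_ne_zero, not_false_eq_true, zero_pow, zero_div, mul_zero]
        exact hasDerivAt_const μ 0
      · exact wi_rat_term2 (hnp j hj)
    exact HasDerivAt.fun_sum h1
  · have h1 : ∀ j ∈ (Finset.univ : Finset (Fin D)), HasDerivAt
        (fun x => 2 * e j ^ 2 / (2 * d j - x) ^ 3) (6 * e j ^ 2 / (2 * d j - μ) ^ 4) μ := by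
      intro j _
      by_cases hj : e j = 0
      · rw [hj]
        simp only [ne_eq, OfNat.ofNat_ne_zero, not_false_eq_true, zero_pow, zero_div, mul_zero]
        exact hasDerivAt_const μ 0
      · refine (wi_rat_term3 (hnp j hj)).congr_deriv ?_
        ring
    exact HasDerivAt.fun_sum h1

theorem rt_cs {D : ℕ} (d e : Fin D → ℝ) (μ : ℝ) : Rf1 d e μ ^ 2 ≤ 2 / 3 * (Rf d e μ * Rf2 d e μ) := by
  have h1 := Finset.sum_mul_sq_le_sq_mul_sq (Finset.univ : Finset (Fin D))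
    (fun j => e j / (2 * d j - μ)) (fun j => e j / (2 * d j - μ) ^ 2)
  have e1 : Rf1 d e μ = 2 * ∑ j, e j / (2 * d j - μ) * (e j / (2 * d j - μ) ^ 2) := by
    unfold Rf1
    rw [Finset.mul_sum]
    apply Finset.sum_congr rfl
    intro j _
    rw [div_mul_div_comm, ← mul_div_assoc]
    congr 1 <;> ring
  have e2 : Rf d e μ = ∑ j, (e j / (2 * d j - μ)) ^ 2 := by
    unfold Rf
    apply Finset.sum_congr rfl
    intro j _
    rw [div_pow]
  have e3 : Rf2 d e μ = 6 * ∑ j, (e j / (2 * d j - μ) ^ 2) ^ 2 := by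
    unfold Rf2
    rw [Finset.mul_sum]
    apply Finset.sum_congr rfl
    intro j _
    rw [div_pow, ← mul_div_assoc]
    congr 1
    ring
  rw [e1, e2, e3]
  nlinarith [h1]

theorem rt_pos {D : ℕ} {d e : Fin D → ℝ} {μ : ℝ} (hnp : NP d e μ) (he : ∃ j, e j ≠ 0) : 0 < Rf d e μ := by
  obtain ⟨j, hj⟩ := he
  apply Finset.sum_pos'
  · intro i _
    positivity
  · refine ⟨j, Finset.mem_univ _, ?_⟩
    have h1 : 2 * d j - μ ≠ 0 := sub_ne_zero.2 (hnp j hj)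
    positivity

theorem rt_log {D : ℕ} {d e : Fin D → ℝ} {μ c : ℝ} (hnp : NP d e μ) (he : ∃ j, e j ≠ 0) (h0 : 0 < μ) (hμ : μ ≤ c)
    (hd : ∀ j, 0 < d j ∧ 2 * d j ≤ c) :
    2 / c ^ 2 ≤ Rf2 d e μ / Rf d e μ - (Rf1 d e μ / Rf d e μ) ^ 2 := by
  have hc : 0 < c := by linarith
  have hR := rt_pos hnp he
  have h1 : 6 / c ^ 2 * Rf d e μ ≤ Rf2 d e μ := by
    unfold Rf Rf2
    rw [Finset.mul_sum]
    apply Finset.sum_le_sum
    intro j _
    by_cases hj : e j = 0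
    · rw [hj]
      simp
    · have hx : 2 * d j - μ ≠ 0 := sub_ne_zero.2 (hnp j hj)
      have hx2 : 0 < (2 * d j - μ) ^ 2 := by positivity
      have hxc : (2 * d j - μ) ^ 2 ≤ c ^ 2 := by
        obtain ⟨h3, h4⟩ := hd j
        apply sq_le_sq'
        · linarith
        · linarith
      have h5 : 6 / c ^ 2 * (e j ^ 2 / (2 * d j - μ) ^ 2) =
          6 * e j ^ 2 / (c ^ 2 * (2 * d j - μ) ^ 2) := by
        field_simp
      rw [h5]
      apply div_le_div_of_nonneg_left (by positivity) (by positivity)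
      have h6 : (2 * d j - μ) ^ 4 = (2 * d j - μ) ^ 2 * (2 * d j - μ) ^ 2 := by ring
      rw [h6]
      exact mul_le_mul_of_nonneg_right hxc hx2.le
  have h2 := rt_cs d e μ
  have h3 : (Rf1 d e μ / Rf d e μ) ^ 2 ≤ 2 / 3 * (Rf2 d e μ / Rf d e μ) := by
    rw [div_pow, div_le_iff₀ (by positivity)]
    have h4 : 2 / 3 * (Rf2 d e μ / Rf d e μ) * Rf d e μ ^ 2 = 2 / 3 * (Rf d e μ * Rf2 d e μ) := by
      field_simp
    rw [h4]
    exact h2
  have h4 : 6 / c ^ 2 ≤ Rf2 d e μ / Rf d e μ := by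
    rw [le_div_iff₀ hR]
    exact h1
  have h5 : 2 / c ^ 2 = 1 / 3 * (6 / c ^ 2) := by ring
  rw [h5]
  linarith

theorem rt_mono {D : ℕ} {d e : Fin D → ℝ} {a b : ℝ} (hab : a < b) (hb : ∀ j, e j ≠ 0 → b < 2 * d j)
    (he : ∃ j, e j ≠ 0) : Rf d e a < Rf d e b := by
  have key : ∀ j, e j ≠ 0 → e j ^ 2 / (2 * d j - a) ^ 2 < e j ^ 2 / (2 * d j - b) ^ 2 := by
    intro j hj
    have h1 := hb j hj
    have h2 : 0 < 2 * d j - b := by linarith
    have h3 : 0 < e j ^ 2 := by positivity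
    apply div_lt_div_of_pos_left h3 (by positivity)
    exact pow_lt_pow_left₀ (by linarith) h2.le two_ne_zero
  apply Finset.sum_lt_sum
  · intro j _
    by_cases hj : e j = 0
    · rw [hj]
      simp
    · exact (key j hj).le
  · obtain ⟨j, hj⟩ := he
    exact ⟨j, Finset.mem_univ _, key j hj⟩

end Pool.Agent.CNX
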