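import Pool.Agent.CNX.WI_Der
import Pool.Agent.CNX.WI_Est

/-!
# CNX module WI_Rho: the function rh = 1 - |Xm|^2

Let 0 < μ ≤ c, ‖Xm μ‖ < 1. Then Xm μ ∈ interior Ω (wi_int), μ < κ/2 (h.cκ). `wr_hd`: rh μ = 1 - inner X X, rh' = -2 inner X X' = rh1,
rh1' = -2 inner X' X' - 2 inner X X'' = rh2 (wi_hd, HasDerivAt.inner). `wr_1`: rh μ ≤ 1/2 means ‖X‖^2 ≥ 1/2; we_2 with
B = fderiv (fderiv E) (Xm μ) (symmetric: second derivatives of a C^2 function, ContDiffAt.isSymmSndFDerivAt or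
second_derivative_symmetric) and i1 = wi_d1: inner X X' ≥ ‖X‖^2 / L ≥ 1/(2L), so rh1 ≤ -1/L. `wr_2`: we_3 with T = third derivative, i2 = wi_d2.
`wr_log`: r = rh μ > 0: if r ≥ 1/2: rh2/r - (rh1/r)^2 ≤ rh2 / r ≤ MM / r ≤ 2 MM (MM > 0). If r ≤ 1/2: (rh1)^2 ≥ 1/L^2, so the expression is
≤ MM/r - 1/(L^2 r^2) ≤ MM^2 L^2 / 4 (square of (1/(L r) - MM L/2) ≥ 0).
-/

set_option autoImplicit false

open Metric Set Filter Topology

namespace Pool.Agent.CNX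

variable {H : Type*} [NormedAddCommGroup H] [InnerProductSpace ℝ H] [FiniteDimensional ℝ H]
variable {E : H → ℝ} {Ω : Set H} {P : H} {κ L c : ℝ}

set_option linter.unusedSectionVars false

theorem wr_int (h : WD E Ω P κ L c) {μ : ℝ} (hμ : μ ≤ c) (h1 : ‖Xm E Ω P μ‖ < 1) :
    μ < κ / 2 ∧ μ ≤ κ / 4 ∧ Xm E Ω P μ ∈ interior Ω := by
  have h2 := h.cκ
  have h3 := h.κ0
  exact ⟨by linarith, by linarith, wi_int h hμ h1⟩

theorem wr_MM (h : WD E Ω P κ L c) : 0 < MM κ L := by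
  have h3 := h.κ0
  have h4 : 0 < L := by linarith [h.L1]
  unfold MM
  positivity

theorem wr_hd (h : WD E Ω P κ L c) {μ : ℝ} (hμ : μ ≤ c) (h1 : ‖Xm E Ω P μ‖ < 1) :
    HasDerivAt (rh E Ω P) (rh1 E Ω P μ) μ ∧ HasDerivAt (rh1 E Ω P) (rh2 E Ω P μ) μ := by
  obtain ⟨a1, a2, a3⟩ := wr_int h hμ h1
  obtain ⟨d1, d2⟩ := wi_hd h a1 a3
  constructor
  · have e1 := (d1.norm_sq).const_sub 1
    have e2 : rh1 E Ω P μ = -(2 * inner ℝ (Xm E Ω P μ) (deriv (Xm E Ω P) μ)) := by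
      unfold rh1
      ring
    rw [e2]
    exact e1
  · have e1 := (d1.inner ℝ d2).const_mul (-2)
    have e2 : rh2 E Ω P μ = -2 * (inner ℝ (Xm E Ω P μ) (deriv (deriv (Xm E Ω P)) μ)
        + inner ℝ (deriv (Xm E Ω P) μ) (deriv (Xm E Ω P) μ)) := by
      unfold rh2
      ring
    rw [e2]
    exact e1

theorem wr_1 (h : WD E Ω P κ L c) {μ : ℝ} (h0 : 0 < μ) (hμ : μ ≤ c) (h1 : ‖Xm E Ω P μ‖ < 1)
    (h2 : rh E Ω P μ ≤ 1 / 2) : rh1 E Ω P μ ≤ - (1 / L) := by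
  obtain ⟨a1, a2, a3⟩ := wr_int h hμ h1
  have hx := (wi_spec h μ).1
  have hL := h.L1
  have hL0 : 0 < L := by linarith
  have hsym : ∀ u v, fderiv ℝ (fderiv ℝ E) (Xm E Ω P μ) u v = fderiv ℝ (fderiv ℝ E) (Xm E Ω P μ) v u := by
    intro u v
    have h5 : IsSymmSndFDerivAt ℝ E (Xm E Ω P μ) := by
      refine ContDiffAt.isSymmSndFDerivAt h.smooth.contDiffAt ?_
      simp
      norm_num
    exact h5 u v
  have key := we_2 h.κ0 hL h0 a2 hsym (h.lower _ hx) (h.up2 _ hx) (fun k => wi_d1 h a1 a3 k)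
  have h6 : 1 / 2 ≤ ‖Xm E Ω P μ‖ ^ 2 := by
    unfold rh at h2
    linarith
  have h7 : 1 / 2 / L ≤ ‖Xm E Ω P μ‖ ^ 2 / L := div_le_div_of_nonneg_right h6 hL0.le
  unfold rh1
  have h8 : 1 / 2 / L = 1 / L / 2 := by ring
  rw [h8] at h7
  linarith

theorem wr_2 (h : WD E Ω P κ L c) {μ : ℝ} (hμ : μ ≤ c) (h1 : ‖Xm E Ω P μ‖ < 1) :
    rh2 E Ω P μ ≤ MM κ L := by
  obtain ⟨a1, a2, a3⟩ := wr_int h hμ h1
  have hx := (wi_spec h μ).1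
  exact we_3 (T := fun k => fderiv ℝ (fderiv ℝ (fderiv ℝ E)) (Xm E Ω P μ) (deriv (Xm E Ω P) μ) (deriv (Xm E Ω P) μ) k)
    h.κ0 h.L1 a2 (h.lower _ hx) (fun k => h.up3 _ hx _ _ k) (wi_norm h μ)
    (fun k => wi_d1 h a1 a3 k) (fun k => wi_d2 h a1 a3 k)

theorem wr_log (h : WD E Ω P κ L c) {μ : ℝ} (h0 : 0 < μ) (hμ : μ ≤ c) (h1 : ‖Xm E Ω P μ‖ < 1) :
    0 < rh E Ω P μ ∧
      rh2 E Ω P μ / rh E Ω P μ - (rh1 E Ω P μ / rh E Ω P μ) ^ 2 ≤ M1 κ L := by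
  have hr : 0 < rh E Ω P μ := by
    unfold rh
    have h2 := norm_nonneg (Xm E Ω P μ)
    nlinarith
  have hM := wr_MM h
  have h2 := wr_2 h hμ h1
  have hL := h.L1
  have hL0 : 0 < L := by linarith
  refine ⟨hr, ?_⟩
  rcases le_total (1 / 2) (rh E Ω P μ) with h3 | h3
  · have h4 : rh2 E Ω P μ / rh E Ω P μ ≤ 2 * MM κ L := by
      rw [div_le_iff₀ hr]
      nlinarith
    have h5 := sq_nonneg (rh1 E Ω P μ / rh E Ω P μ)
    exact le_trans (by linarith) (le_max_left _ _)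
  · have h4 := wr_1 h h0 hμ h1 h3
    have hiL : 0 < 1 / L := by positivity
    have h5 : (1 / L) ^ 2 ≤ (rh1 E Ω P μ) ^ 2 := by nlinarith
    have h6 : rh2 E Ω P μ / rh E Ω P μ ≤ MM κ L / rh E Ω P μ := div_le_div_of_nonneg_right h2 hr.le
    have h7 : (1 / L) ^ 2 / (rh E Ω P μ) ^ 2 ≤ (rh1 E Ω P μ / rh E Ω P μ) ^ 2 := by
      rw [div_pow (rh1 E Ω P μ)]
      exact div_le_div_of_nonneg_right h5 (by positivity)
    have h8 : MM κ L ^ 2 * L ^ 2 / 4 - MM κ L / rh E Ω P μ + (1 / L) ^ 2 / (rh E Ω P μ) ^ 2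
        = (MM κ L * L / 2 - 1 / (L * rh E Ω P μ)) ^ 2 := by
      field_simp
      ring
    have h9 := sq_nonneg (MM κ L * L / 2 - 1 / (L * rh E Ω P μ))
    exact le_trans (by linarith) (le_max_right _ _)

end Pool.Agent.CNX
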