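import Pool.Agent.CNX.WI_Min

/-!
# CNX module WI_Smooth: Xm is C^2 where it is in the interior (inverse function theorem)

x₀ = Xm μ₀ ∈ interior Ω, μ₀ < κ/2. Let g x = (InnerProductSpace.toDual ℝ H).symm (fderiv ℝ E x) (gradient), which is C^2
(h.smooth : ContDiff ℝ 3 E; ContDiff.fderiv_right). Φ (μ, x) = (μ, g x - μ • x) is C^2 on ℝ × H. Its derivative at (μ₀, x₀) is
(a, k) ↦ (a, g'(x₀) k - μ₀ k - a x₀); it is injective: a = 0 and g'(x₀) k = μ₀ k gives, taking the inner product with k,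
fderiv (fderiv E) x₀ k k = μ₀ ‖k‖^2, but it is ≥ κ ‖k‖^2 (h.lower, interior_subset), so k = 0 (if μ₀ ≤ 0 also clear).
ℝ × H is finite dimensional, so the derivative is a ContinuousLinearEquiv (LinearEquiv.ofInjectiveEndo, toContinuousLinearEquiv).
ContDiffAt.to_localInverse: the local inverse Ψ is C^2 at Φ(μ₀, x₀) = (μ₀, P) (the gradient equation Gr at μ₀: wi_grad, wi_spec).
By HasStrictFDerivAt.eventually_left_inverse (Ψ (Φ z) = z for z near (μ₀, x₀)) and continuity of Xm at μ₀ (wi_cont), and the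
gradient equation near μ₀ (wi_ev): Φ (μ, Xm μ) = (μ, P), so Xm μ = (Ψ (μ, P)).2 for μ near μ₀. Composition is C^2:
ContDiffAt.congr_of_eventuallyEq.
-/

set_option autoImplicit false

open Metric Set Filter Topology

namespace Pool.Agent.CNX

variable {H : Type*} [NormedAddCommGroup H] [InnerProductSpace ℝ H] [FiniteDimensional ℝ H]
variable {E : H → ℝ} {Ω : Set H} {P : H} {κ L c : ℝ}

theorem wi_smooth (h : WD E Ω P κ L c) {μ₀ : ℝ} (hμ : μ₀ < κ / 2) (hi : Xm E Ω P μ₀ ∈ interior Ω) :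
    ContDiffAt ℝ 2 (Xm E Ω P) μ₀ := by
  have : CompleteSpace H := FiniteDimensional.complete ℝ H
  obtain ⟨J, hJ⟩ : ∃ J : H →L[ℝ] H →L[ℝ] ℝ, ∀ x y, J x y = inner ℝ x y := by
    refine ⟨LinearMap.mkContinuous₂ (innerₗ H) 1 (fun x y => ?_), fun x y => rfl⟩
    rw [one_mul]
    exact norm_inner_le_norm x y
  obtain ⟨x₀, hx₀⟩ : ∃ x₀, x₀ = Xm E Ω P μ₀ := ⟨_, rfl⟩
  have hx₀Ω : x₀ ∈ Ω := by
    rw [hx₀]
    exact interior_subset hi
  have s1 : ContDiff ℝ 2 (fderiv ℝ E) := h.smooth.fderiv_right (by norm_num)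
  obtain ⟨Φ, hΦ⟩ : ∃ Φ : ℝ × H → ℝ × (H →L[ℝ] ℝ), ∀ z, Φ z = (z.1, fderiv ℝ E z.2 - z.1 • J z.2) := ⟨_, fun _ => rfl⟩
  have hΦf : Φ = fun z => (z.1, fderiv ℝ E z.2 - z.1 • J z.2) := funext hΦ
  have hΦs : ContDiff ℝ 2 Φ := by
    rw [hΦf]
    exact contDiff_fst.prodMk ((s1.comp contDiff_snd).sub (contDiff_fst.smul (J.contDiff.comp contDiff_snd)))
  have hE2 : HasFDerivAt (fderiv ℝ E) (fderiv ℝ (fderiv ℝ E) x₀) x₀ :=
    (s1.contDiffAt.differentiableAt (by norm_num)).hasFDerivAt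
  obtain ⟨D, hD, hDa⟩ : ∃ D : ℝ × H →L[ℝ] ℝ × (H →L[ℝ] ℝ), HasFDerivAt Φ D (μ₀, x₀) ∧
      ∀ a k, D (a, k) = (a, fderiv ℝ (fderiv ℝ E) x₀ k - (μ₀ • J k + a • J x₀)) := by
    have hfst : HasFDerivAt (fun z : ℝ × H => z.1) (ContinuousLinearMap.fst ℝ ℝ H) (μ₀, x₀) := hasFDerivAt_fst
    have hsnd : HasFDerivAt (fun z : ℝ × H => z.2) (ContinuousLinearMap.snd ℝ ℝ H) (μ₀, x₀) := hasFDerivAt_snd
    have h1 : HasFDerivAt (fun z : ℝ × H => fderiv ℝ E z.2)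
        ((fderiv ℝ (fderiv ℝ E) x₀).comp (ContinuousLinearMap.snd ℝ ℝ H)) (μ₀, x₀) :=
      HasFDerivAt.comp (μ₀, x₀) hE2 hsnd
    have h2 : HasFDerivAt (fun z : ℝ × H => J z.2) (J.comp (ContinuousLinearMap.snd ℝ ℝ H)) (μ₀, x₀) :=
      HasFDerivAt.comp (μ₀, x₀) J.hasFDerivAt hsnd
    refine ⟨_, by
      rw [hΦf]
      exact hfst.prodMk (h1.sub (hfst.smul h2)), fun a k => ?_⟩
    rfl
  have hinj : Function.Injective D := by
    rw [injective_iff_map_eq_zero]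
    rintro ⟨a, k⟩ hz
    rw [hDa] at hz
    obtain ⟨ha, hk⟩ := Prod.ext_iff.1 hz
    simp only [Prod.fst_zero, Prod.snd_zero] at ha hk
    subst ha
    have hkk := congrArg (fun T : H →L[ℝ] ℝ => T k) hk
    have e1 : (fderiv ℝ (fderiv ℝ E) x₀ k - (μ₀ • J k + (0 : ℝ) • J x₀)) k =
        fderiv ℝ (fderiv ℝ E) x₀ k k - (μ₀ * inner ℝ k k + 0 * inner ℝ x₀ k) := by
      rw [← hJ k k, ← hJ x₀ k]
      rfl
    have e2 : fderiv ℝ (fderiv ℝ E) x₀ k k - (μ₀ * inner ℝ k k + 0 * inner ℝ x₀ k) = 0 := by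
      rw [← e1]
      exact hkk
    have e3 := h.lower x₀ hx₀Ω k
    have e4 : inner ℝ k k = ‖k‖ ^ 2 := real_inner_self_eq_norm_sq k
    rw [e4] at e2
    have e5 : ‖k‖ ^ 2 ≤ 0 := by
      by_contra hcon
      push Not at hcon
      have hκ := h.κ0
      nlinarith
    have e6 : ‖k‖ = 0 := by
      have := sq_nonneg ‖k‖
      exact pow_eq_zero_iff (two_ne_zero) |>.1 (le_antisymm e5 this)
    rw [norm_eq_zero.1 e6]
    rfl
  have hfr : Module.finrank ℝ (H →L[ℝ] ℝ) = Module.finrank ℝ H := by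
    rw [← LinearEquiv.finrank_eq (LinearMap.toContinuousLinearMap : (H →ₗ[ℝ] ℝ) ≃ₗ[ℝ] (H →L[ℝ] ℝ))]
    exact Subspace.dual_finrank_eq
  have hdim : Module.finrank ℝ (ℝ × H) = Module.finrank ℝ (ℝ × (H →L[ℝ] ℝ)) := by
    rw [Module.finrank_prod, Module.finrank_prod, hfr]
  obtain ⟨e, he⟩ : ∃ e : (ℝ × H) ≃L[ℝ] (ℝ × (H →L[ℝ] ℝ)), (e : ℝ × H →L[ℝ] ℝ × (H →L[ℝ] ℝ)) = D := by
    refine ⟨(LinearMap.linearEquivOfInjective D.toLinearMap hinj hdim).toContinuousLinearEquiv, ?_⟩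
    ext z <;> rfl
  have hDe : HasFDerivAt Φ (e : ℝ × H →L[ℝ] ℝ × (H →L[ℝ] ℝ)) (μ₀, x₀) := by
    rw [he]
    exact hD
  have hn : (2 : WithTop ℕ∞) ≠ 0 := two_ne_zero
  have hinv := (hΦs.contDiffAt (x := (μ₀, x₀))).to_localInverse hDe hn
  have hleft := ((hΦs.contDiffAt (x := (μ₀, x₀))).hasStrictFDerivAt' hDe hn).eventually_left_inverse
  obtain ⟨Ψ, hΨ⟩ : ∃ Ψ, Ψ = (hΦs.contDiffAt (x := (μ₀, x₀))).localInverse hDe hn := ⟨_, rfl⟩
  have hleft' : ∀ᶠ z in 𝓝 (μ₀, x₀), Ψ (Φ z) = z := by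
    rw [hΨ]
    exact hleft
  rw [← hΨ] at hinv
  have hev := wi_ev h hμ hi
  have hΦX : ∀ μ, Gr E P μ (Xm E Ω P μ) → Φ (μ, Xm E Ω P μ) = (μ, J P) := by
    intro μ hG
    rw [hΦ]
    refine Prod.ext rfl ?_
    ext k
    show fderiv ℝ E (Xm E Ω P μ) k - μ * J (Xm E Ω P μ) k = J P k
    rw [hJ, hJ]
    exact hG k
  have hcont := wi_cont h hμ
  have htend : Tendsto (fun μ => (μ, Xm E Ω P μ)) (𝓝 μ₀) (𝓝 (μ₀, x₀)) := by
    rw [hx₀, nhds_prod_eq]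
    exact tendsto_id.prodMk hcont
  have hbase : Φ (μ₀, x₀) = (μ₀, J P) := by
    rw [hx₀]
    exact hΦX μ₀ hev.self_of_nhds.2.2
  rw [hbase] at hinv
  have hcomp : ContDiffAt ℝ 2 (fun μ : ℝ => (Ψ (μ, J P)).2) μ₀ :=
    (ContDiffAt.comp μ₀ hinv (contDiffAt_id.prodMk contDiffAt_const)).snd
  refine hcomp.congr_of_eventuallyEq ?_
  filter_upwards [hev, htend.eventually hleft'] with μ h1 h2
  rw [hΦX μ h1.2.2] at h2
  rw [h2]

end Pool.Agent.CNX
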