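import Pool.Agent.CNX.WI_Three

/-!
# CNX module WI_T: counting the solutions of Rf = rh

J = {j | e j ≠ 0}, m = #J ≥ 1, k(μ) = #{j ∈ J | 2 d j < μ} ∈ {0..m}. `wt_fin`: if all finite subsets of T have at most n elements then
T.encard ≤ n (otherwise T has a finite subset with n + 1 elements: Set.exists_subset_encard_eq or Set.Infinite.exists_subset_card_eq).
`wt_fib0`: μ1 < μ2 in T with k = 0 for both: no 2 d j (j ∈ J) is < μ2, and ≠ μ2 (NP), so μ2 < 2 d j for all j ∈ J: w3_first, contradiction. So the fibre k = 0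
has at most one element. `wt_fib`: μ1 < μ2 < μ3 in T with the same k ≥ 1: {j ∈ J | 2 d j < μ1} ⊆ {j ∈ J | 2 d j < μ3} with the same number of elements,
so equal: no 2 d j (j ∈ J) in [μ1, μ3) and none equal to μ3 (NP): NP on Icc μ1 μ3; μ1 > 0 because some 2 d j < μ1 and d j > 0. w3_three.
So a fibre k ≥ 1 has at most 2 elements (Finset.two_lt_card or card ≤ 2 via sorting three elements).
`wt_a`: sum over the fibres (Finset.card_eq_sum_card_fiberwise with values in range (m+1)): ≤ 1 + 2 m.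
`wt_b`: if 0 < k(μ) < m there are j, j' ∈ J with 2 d j < μ ≤ 2 d j', excluded by hno; so only k = 0 and k = m: ≤ 1 + 2 = 3.
-/

set_option autoImplicit false

open Metric Set Filter Topology

namespace Pool.Agent.CNX

variable {H : Type*} [NormedAddCommGroup H] [InnerProductSpace ℝ H] [FiniteDimensional ℝ H]
variable {E : H → ℝ} {Ω : Set H} {P : H} {κ L c : ℝ}

theorem wt_fin {α : Type*} {T : Set α} {n : ℕ} (h : ∀ F : Finset α, (F : Set α) ⊆ T → F.card ≤ n) :
    T.encard ≤ n := by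
  by_contra hc
  push Not at hc
  have h1 : ((n + 1 : ℕ) : ℕ∞) ≤ T.encard := by
    have := Order.add_one_le_of_lt hc
    simpa using this
  obtain ⟨t, ht, hte⟩ := Set.exists_subset_encard_eq h1
  have hfin : t.Finite := Set.finite_of_encard_eq_coe hte
  have h2 := h hfin.toFinset (by simpa using ht)
  rw [hfin.encard_eq_coe_toFinset_card] at hte
  have h3 : hfin.toFinset.card = n + 1 := by exact_mod_cast hte
  omega

/-- the poles below `μ` -/
noncomputable def wt_S {D : ℕ} (d e : Fin D → ℝ) (μ : ℝ) : Finset (Fin D) :=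
  (Finset.univ.filter fun j => e j ≠ 0).filter fun j => 2 * d j < μ

theorem wt_mem {D : ℕ} {d e : Fin D → ℝ} {μ : ℝ} {j : Fin D} :
    j ∈ wt_S d e μ ↔ e j ≠ 0 ∧ 2 * d j < μ := by
  simp [wt_S]

theorem wt_mono {D : ℕ} {d e : Fin D → ℝ} {μ ν : ℝ} (h : μ ≤ ν) : wt_S d e μ ⊆ wt_S d e ν := by
  intro j hj
  rw [wt_mem] at hj ⊢
  exact ⟨hj.1, lt_of_lt_of_le hj.2 h⟩

theorem wt_fib0 (h : WD E Ω P κ L c) {D : ℕ} {d e : Fin D → ℝ} (he : ∃ j, e j ≠ 0) {μ ν : ℝ}
    (h1 : μ ∈ TT E Ω P d e c) (h2 : ν ∈ TT E Ω P d e c) (hlt : μ < ν) (hk : (wt_S d e ν).card = 0) : False := by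
  obtain ⟨_, _, _, ea⟩ := h1
  obtain ⟨hc, hnp, _, eb⟩ := h2
  refine w3_first h he hlt hc (fun j hj => ?_) ea eb
  rcases lt_trichotomy ν (2 * d j) with h3 | h3 | h3
  · exact h3
  · exact absurd h3.symm (hnp j hj)
  · exfalso
    have h4 : j ∈ wt_S d e ν := wt_mem.2 ⟨hj, h3⟩
    rw [Finset.card_eq_zero.1 hk] at h4
    simp at h4

theorem wt_fib (h : WD E Ω P κ L c) (hM : M1 κ L < 2 / c ^ 2) {D : ℕ} {d e : Fin D → ℝ}
    (hd : ∀ j, 0 < d j ∧ 2 * d j ≤ c) (he : ∃ j, e j ≠ 0) {μ ν ρ : ℝ}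
    (h1 : μ ∈ TT E Ω P d e c) (h2 : ν ∈ TT E Ω P d e c) (h3 : ρ ∈ TT E Ω P d e c) (hlt : μ < ν) (hlt' : ν < ρ)
    (hk : (wt_S d e μ).card = (wt_S d e ρ).card) (hpos : 0 < (wt_S d e μ).card) : False := by
  obtain ⟨_, _, _, ea⟩ := h1
  obtain ⟨_, _, _, eb⟩ := h2
  obtain ⟨hc, hnp, hn, ec⟩ := h3
  have hS : wt_S d e μ = wt_S d e ρ :=
    Finset.eq_of_subset_of_card_le (wt_mono (hlt.trans hlt').le) hk.ge
  obtain ⟨j0, hj0⟩ := Finset.card_pos.1 hpos
  have hμ : 0 < μ := by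
    have h4 := (wt_mem.1 hj0).2
    have h5 := (hd j0).1
    linarith
  refine w3_three h hM hd he hμ hlt hlt' hc (fun x hx j hj hjx => ?_) hn ea eb ec
  rcases lt_or_eq_of_le hx.2 with h6 | h6
  · have h7 : j ∈ wt_S d e ρ := wt_mem.2 ⟨hj, by rw [hjx]; exact h6⟩
    rw [← hS] at h7
    have h8 := (wt_mem.1 h7).2
    rw [hjx] at h8
    exact absurd hx.1 (not_le.2 h8)
  · exact hnp j hj (hjx.trans h6)

theorem wt_c0 (h : WD E Ω P κ L c) {D : ℕ} {d e : Fin D → ℝ} (he : ∃ j, e j ≠ 0) {F : Finset ℝ}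
    (hF : (F : Set ℝ) ⊆ TT E Ω P d e c) : (F.filter fun μ => (wt_S d e μ).card = 0).card ≤ 1 := by
  rw [Finset.card_le_one]
  intro a ha b hb
  rw [Finset.mem_filter] at ha hb
  rcases lt_trichotomy a b with h1 | h1 | h1
  · exact (wt_fib0 h he (hF ha.1) (hF hb.1) h1 hb.2).elim
  · exact h1
  · exact (wt_fib0 h he (hF hb.1) (hF ha.1) h1 ha.2).elim

theorem wt_c (h : WD E Ω P κ L c) (hM : M1 κ L < 2 / c ^ 2) {D : ℕ} {d e : Fin D → ℝ}
    (hd : ∀ j, 0 < d j ∧ 2 * d j ≤ c) (he : ∃ j, e j ≠ 0) {F : Finset ℝ}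
    (hF : (F : Set ℝ) ⊆ TT E Ω P d e c) {k : ℕ} (hk : 0 < k) :
    (F.filter fun μ => (wt_S d e μ).card = k).card ≤ 2 := by
  by_contra hc
  push Not at hc
  obtain ⟨a, ha, b, hb, r, hr, hab, har, hbr⟩ := Finset.two_lt_card.1 hc
  rw [Finset.mem_filter] at ha hb hr
  have key : ∀ x y z : ℝ, (x ∈ F ∧ (wt_S d e x).card = k) → (y ∈ F ∧ (wt_S d e y).card = k) →
      (z ∈ F ∧ (wt_S d e z).card = k) → x < y → y < z → False := by
    intro x y z hx hy hz h1 h2
    exact wt_fib h hM hd he (hF hx.1) (hF hy.1) (hF hz.1) h1 h2 (hx.2.trans hz.2.symm) (by rw [hx.2]; exact hk)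
  rcases lt_or_gt_of_ne hab with h1 | h1
  · rcases lt_or_gt_of_ne hbr with h2 | h2
    · exact key a b r ha hb hr h1 h2
    · rcases lt_or_gt_of_ne har with h3 | h3
      · exact key a r b ha hr hb h3 h2
      · exact key r a b hr ha hb h3 h1
  · rcases lt_or_gt_of_ne har with h2 | h2
    · exact key b a r hb ha hr h1 h2
    · rcases lt_or_gt_of_ne hbr with h3 | h3
      · exact key b r a hb hr ha h3 h2
      · exact key r b a hr hb ha h3 h1

theorem wt_a (h : WD E Ω P κ L c) (hM : M1 κ L < 2 / c ^ 2) {D : ℕ} {d e : Fin D → ℝ}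
    (hd : ∀ j, 0 < d j ∧ 2 * d j ≤ c) (he : ∃ j, e j ≠ 0) {T : Set ℝ} (hT : T ⊆ TT E Ω P d e c) :
    T.encard ≤ ((2 * (Finset.univ.filter fun j => e j ≠ 0).card + 1 : ℕ) : ℕ∞) := by
  apply wt_fin
  intro F hF
  have hF' : (F : Set ℝ) ⊆ TT E Ω P d e c := hF.trans hT
  have h1 := Finset.card_eq_sum_card_fiberwise (f := fun μ => (wt_S d e μ).card) (s := F)
    (t := Finset.range ((Finset.univ.filter fun j => e j ≠ 0).card + 1)) (by
      intro μ _
      have h2 : (wt_S d e μ).card ≤ (Finset.univ.filter fun j => e j ≠ 0).card :=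
        Finset.card_le_card (Finset.filter_subset _ _)
      simp only [Finset.coe_range, Set.mem_Iio]
      omega)
  rw [Finset.sum_range_succ'] at h1
  have h3 : ∑ k ∈ Finset.range (Finset.univ.filter fun j => e j ≠ 0).card,
      (F.filter fun μ => (wt_S d e μ).card = k + 1).card ≤
      ∑ k ∈ Finset.range (Finset.univ.filter fun j => e j ≠ 0).card, 2 :=
    Finset.sum_le_sum fun k _ => wt_c h hM hd he hF' (Nat.succ_pos k)
  have h4 := wt_c0 h he hF'
  rw [Finset.sum_const, Finset.card_range, smul_eq_mul] at h3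
  omega

theorem wt_b (h : WD E Ω P κ L c) (hM : M1 κ L < 2 / c ^ 2) {D : ℕ} {d e : Fin D → ℝ}
    (hd : ∀ j, 0 < d j ∧ 2 * d j ≤ c) (he : ∃ j, e j ≠ 0) {T : Set ℝ} (hT : T ⊆ TT E Ω P d e c)
    (hno : ∀ μ ∈ T, ∀ j j', ¬ (2 * d j ≤ μ ∧ μ ≤ 2 * d j')) : T.encard ≤ 3 := by
  have h0 : T.encard ≤ ((3 : ℕ) : ℕ∞) := by
    apply wt_fin
    intro F hF
    have hF' : (F : Set ℝ) ⊆ TT E Ω P d e c := hF.trans hT
    have hm : 0 < (Finset.univ.filter fun j => e j ≠ 0).card := by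
      obtain ⟨j, hj⟩ := he
      exact Finset.card_pos.2 ⟨j, by simp [hj]⟩
    have h1 : F ⊆ (F.filter fun μ => (wt_S d e μ).card = 0) ∪
        (F.filter fun μ => (wt_S d e μ).card = (Finset.univ.filter fun j => e j ≠ 0).card) := by
      intro μ hμ
      rw [Finset.mem_union, Finset.mem_filter, Finset.mem_filter]
      by_contra hcon
      push Not at hcon
      have h2 := hcon.1 hμ
      have h3 := hcon.2 hμ
      obtain ⟨j, hj⟩ := Finset.card_pos.1 (Nat.pos_of_ne_zero h2)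
      have h4 : ∃ j', j' ∈ (Finset.univ.filter fun j => e j ≠ 0) ∧ j' ∉ wt_S d e μ := by
        by_contra h5
        push Not at h5
        have h6 : (Finset.univ.filter fun j => e j ≠ 0) ⊆ wt_S d e μ := fun j' hj' => h5 j' hj'
        exact h3 (le_antisymm (Finset.card_le_card (Finset.filter_subset _ _)) (Finset.card_le_card h6))
      obtain ⟨j', hj', hj''⟩ := h4
      refine hno μ (hF hμ) j j' ⟨(wt_mem.1 hj).2.le, ?_⟩
      by_contra h7
      push Not at h7
      exact hj'' (wt_mem.2 ⟨by simpa using hj', h7⟩)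
    have h2 := Finset.card_le_card h1
    have h3 := Finset.card_union_le (F.filter fun μ => (wt_S d e μ).card = 0)
        (F.filter fun μ => (wt_S d e μ).card = (Finset.univ.filter fun j => e j ≠ 0).card)
    have h4 := wt_c0 h he hF'
    have h5 := wt_c h hM hd he hF' hm
    omega
  simpa using h0

end Pool.Agent.CNX
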