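import Pool.Agent.CNX.WI_Rat
import Pool.Agent.CNX.WI_Rho

/-!
# CNX module WI_Three: at most two solutions in a pole free interval

`w3_conv`: f a ≤ 0 ≤ f b: mean value theorem gives ξ ∈ (a, b) with f1 ξ ≥ 0; f b ≥ 0 ≥ f c: η ∈ (b, c) with f1 η ≤ 0; mean value theorem for f1 on
[ξ, η]: a point where f2 ≤ 0 (exists_hasDerivAt_eq_slope), contradiction.
`w3_three`: f = log Rf - log rh, f1 = Rf1/Rf - rh1/rh, f2 = (Rf2/Rf - (Rf1/Rf)^2) - (rh2/rh - (rh1/rh)^2) on [a, b'] ⊆ (0, c]. There rh > 0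
(‖Xm μ‖ ≤ ‖Xm b'‖ < 1 by wi_mono, b' ≤ c ≤ κ/4 ≤ κ/2, h.c0 h.cκ) and Rf > 0 (rt_pos). Derivatives: rt_hd, wr_hd, HasDerivAt.log, HasDerivAt.div.
f2 ≥ 2/c^2 - M1 > 0 by rt_log, wr_log. f = 0 at a, b, b'. w3_conv.
`w3_first`: rt_mono: Rf a < Rf b, and rh b ≤ rh a by wi_mono (b ≤ c ≤ κ/2).
-/

set_option autoImplicit false

open Metric Set Filter Topology

namespace Pool.Agent.CNX

variable {H : Type*} [NormedAddCommGroup H] [InnerProductSpace ℝ H] [FiniteDimensional ℝ H]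
variable {E : H → ℝ} {Ω : Set H} {P : H} {κ L c : ℝ}

theorem w3_conv {f f1 f2 : ℝ → ℝ} {a b b' : ℝ} (h1 : ∀ x ∈ Icc a b', HasDerivAt f (f1 x) x)
    (h2 : ∀ x ∈ Icc a b', HasDerivAt f1 (f2 x) x) (pos : ∀ x ∈ Icc a b', 0 < f2 x) (hab : a < b) (hbb : b < b')
    (fa : f a ≤ 0) (fb : 0 ≤ f b) (fc : f b' ≤ 0) : False := by
  obtain ⟨ξ, hξ, e1⟩ := exists_hasDerivAt_eq_slope f f1 hab
    (fun x hx => (h1 x ⟨hx.1, hx.2.trans hbb.le⟩).continuousAt.continuousWithinAt)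
    (fun x hx => h1 x ⟨hx.1.le, hx.2.le.trans hbb.le⟩)
  obtain ⟨η, hη, e2⟩ := exists_hasDerivAt_eq_slope f f1 hbb
    (fun x hx => (h1 x ⟨hab.le.trans hx.1, hx.2⟩).continuousAt.continuousWithinAt)
    (fun x hx => h1 x ⟨hab.le.trans hx.1.le, hx.2.le⟩)
  have hξη : ξ < η := hξ.2.trans hη.1
  obtain ⟨ζ, hζ, e3⟩ := exists_hasDerivAt_eq_slope f1 f2 hξη
    (fun x hx => (h2 x ⟨hξ.1.le.trans hx.1, hx.2.trans hη.2.le⟩).continuousAt.continuousWithinAt)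
    (fun x hx => h2 x ⟨hξ.1.le.trans hx.1.le, hx.2.le.trans hη.2.le⟩)
  have p1 : 0 ≤ f1 ξ := by
    rw [e1]
    exact div_nonneg (by linarith) (by linarith)
  have p2 : f1 η ≤ 0 := by
    rw [e2]
    exact div_nonpos_of_nonpos_of_nonneg (by linarith) (by linarith)
  have p3 : f2 ζ ≤ 0 := by
    rw [e3]
    exact div_nonpos_of_nonpos_of_nonneg (by linarith) (by linarith)
  have p4 := pos ζ ⟨hξ.1.le.trans hζ.1.le, hζ.2.le.trans hη.2.le⟩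
  linarith

theorem w3_three (h : WD E Ω P κ L c) (hM : M1 κ L < 2 / c ^ 2) {D : ℕ} {d e : Fin D → ℝ}
    (hd : ∀ j, 0 < d j ∧ 2 * d j ≤ c) (he : ∃ j, e j ≠ 0) {a b b' : ℝ} (h0 : 0 < a) (hab : a < b) (hbb : b < b')
    (hc : b' ≤ c) (hnp : ∀ μ ∈ Icc a b', NP d e μ) (h1 : ‖Xm E Ω P b'‖ < 1) (ea : Rf d e a = rh E Ω P a)
    (eb : Rf d e b = rh E Ω P b) (ec : Rf d e b' = rh E Ω P b') : False := by
  have hκ := h.κ0
  have hcκ := h.cκ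
  have hnorm : ∀ μ ∈ Icc a b', ‖Xm E Ω P μ‖ < 1 := by
    intro μ hμ
    exact (wi_mono h hμ.2 (by linarith)).trans_lt h1
  have hr : ∀ μ ∈ Icc a b', 0 < rh E Ω P μ := fun μ hμ =>
    (wr_log h (by linarith [hμ.1]) (by linarith [hμ.2]) (hnorm μ hμ)).1
  have hR : ∀ μ ∈ Icc a b', 0 < Rf d e μ := fun μ hμ => rt_pos (hnp μ hμ) he
  refine w3_conv (f := fun μ => Real.log (Rf d e μ) - Real.log (rh E Ω P μ))
    (f1 := fun μ => Rf1 d e μ / Rf d e μ - rh1 E Ω P μ / rh E Ω P μ)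
    (f2 := fun μ => (Rf2 d e μ / Rf d e μ - (Rf1 d e μ / Rf d e μ) ^ 2) -
      (rh2 E Ω P μ / rh E Ω P μ - (rh1 E Ω P μ / rh E Ω P μ) ^ 2)) ?_ ?_ ?_ hab hbb ?_ ?_ ?_
  · intro μ hμ
    have k1 := (rt_hd (hnp μ hμ)).1
    have k2 := (wr_hd h (by linarith [hμ.2]) (hnorm μ hμ)).1
    exact (k1.log (hR μ hμ).ne').sub (k2.log (hr μ hμ).ne')
  · intro μ hμ
    have k1 := rt_hd (hnp μ hμ)
    have k2 := wr_hd h (by linarith [hμ.2]) (hnorm μ hμ)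
    have r1 := (hR μ hμ).ne'
    have r2 := (hr μ hμ).ne'
    have q1 := (k1.2.div k1.1 r1).sub (k2.2.div k2.1 r2)
    have e1 : (Rf2 d e μ * Rf d e μ - Rf1 d e μ * Rf1 d e μ) / Rf d e μ ^ 2 =
        Rf2 d e μ / Rf d e μ - (Rf1 d e μ / Rf d e μ) ^ 2 := by
      field_simp
    have e2 : (rh2 E Ω P μ * rh E Ω P μ - rh1 E Ω P μ * rh1 E Ω P μ) / rh E Ω P μ ^ 2 =
        rh2 E Ω P μ / rh E Ω P μ - (rh1 E Ω P μ / rh E Ω P μ) ^ 2 := by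
      field_simp
    rw [e1, e2] at q1
    exact q1
  · intro μ hμ
    have q1 := rt_log (hnp μ hμ) he (by linarith [hμ.1]) (by linarith [hμ.2]) hd
    have q2 := (wr_log h (by linarith [hμ.1]) (by linarith [hμ.2]) (hnorm μ hμ)).2
    linarith
  · rw [ea, sub_self]
  · rw [eb, sub_self]
  · rw [ec, sub_self]

theorem w3_first (h : WD E Ω P κ L c) {D : ℕ} {d e : Fin D → ℝ} (he : ∃ j, e j ≠ 0) {a b : ℝ} (hab : a < b)
    (hc : b ≤ c) (hb : ∀ j, e j ≠ 0 → b < 2 * d j) (ea : Rf d e a = rh E Ω P a) (eb : Rf d e b = rh E Ω P b) :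
    False := by
  have hκ := h.κ0
  have hcκ := h.cκ
  have h1 := rt_mono hab hb he
  have h2 := wi_mono (P := P) h hab.le (by linarith : b ≤ κ / 2)
  rw [ea, eb, rh, rh] at h1
  have h3 := pow_le_pow_left₀ (norm_nonneg _) h2 2
  linarith

end Pool.Agent.CNX
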